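import Pool.Agent.H.MP_cd3d06_an.K.Sad

/-!
Part A: one negative letter at the positions `p, p.rev` at the bottom.
-/

namespace Pool.Agent.HK

variable {N : ℕ}

theorem B1_zmod (a b : ZMod 2) (h : a ≠ b) : a = b + 1 := by
  revert a b
  decide

theorem B1_rev_iff {p j : Fin N} : (j.rev = p ∨ j.rev = p.rev) ↔ (j = p ∨ j = p.rev) := by
  rw [Fin.rev_eq_iff, Fin.rev_inj, or_comm]

theorem B1_sym {p : Fin N} {a b : Row N} (ha : Sym a) (h : Rel p p.rev true a b) : Sym b := by
  obtain ⟨h1, h2, h3⟩ := h
  intro j
  by_cases hj : j = p ∨ j = p.rev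
  · rcases hj with rfl | rfl
    · exact h2.symm
    · rw [Fin.rev_rev]
      exact h2
  · have hj' : ¬ (j.rev = p ∨ j.rev = p.rev) := fun h => hj (B1_rev_iff.1 h)
    rw [not_or] at hj hj'
    rw [← h3 j hj.1 hj.2, ← h3 j.rev hj'.1 hj'.2]
    exact ha j

theorem B1_tl {p : Fin N} {h : p ≠ p.rev} {w : Word N} {v : List Bool} {x : Col N}
    (hx : x ∈ K (⟨p, p.rev, h, false⟩ :: w) (true :: v)) : tl x ∈ K w v :=
  ⟨B1_sym hx.1 hx.2.1, hx.2.2⟩

theorem B1_two {p : Fin N} {a b : Row N} (h : Rel p p.rev true a b) :
    a = b ∨ a = b + flip p p.rev 0 := by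
  obtain ⟨h1, h2, h3⟩ := h
  by_cases hp : a p = b p
  · left
    funext j
    by_cases hj : j = p ∨ j = p.rev
    · rcases hj with rfl | rfl
      · exact hp
      · rw [← h1, ← h2, hp]
    · rw [not_or] at hj
      exact h3 j hj.1 hj.2
  · right
    have h4 := B1_zmod _ _ hp
    funext j
    rw [Pi.add_apply]
    unfold flip
    by_cases hj : j = p ∨ j = p.rev
    · rw [if_pos hj, Pi.zero_apply, zero_add]
      rcases hj with rfl | rfl
      · exact h4
      · rw [← h1, ← h2, h4]
    · rw [if_neg hj, Pi.zero_apply, add_zero]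
      rw [not_or] at hj
      exact h3 j hj.1 hj.2

theorem B1_flip_add {p q : Fin N} (r : Row N) : flip p q r = r + flip p q 0 := by
  funext j
  rw [Pi.add_apply]
  unfold flip
  by_cases hj : j = p ∨ j = q
  · rw [if_pos hj, if_pos hj, Pi.zero_apply, zero_add]
  · rw [if_neg hj, if_neg hj, Pi.zero_apply, add_zero]

theorem B1_add_self (a : Row N) : a + a = 0 := by
  funext j
  exact CharTwo.add_self_eq_zero _

/-- one negative letter at the positions `p, p.rev` -/
def phiB1 : Coch N → Coch N := fun g v x =>
  match v with
  | true :: v => g v (tl x)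
  | _ => 0

/-- PROOF. For `x ∈ K (l :: w) (true :: v)`: `x 0` symmetric, `E` at `p, p.rev` between `x 0` and `x 1`; so `x 1` is symmetric (`x 1 p = x 1 p.rev`, the other entries agree with `x 0`), i.e. `tl x ∈ K w v`: this gives `loc`. `chain`: the letter is negative: source state `I = false`, target `E = true`. State `true :: v`: the letter term is `[..] φ g (false :: v) x = 0`, the rest is `dd w (fun v' y => g v' (tl (cs (x 0) y))) v (tl x) = dd w g v (tl x)`. State `false :: v`: both sides 0. -/
theorem phiB1_isMapK (p : Fin N) (h : p ≠ p.rev) (w : Word N) :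
    IsMapK w (⟨p, p.rev, h, false⟩ :: w) phiB1 := by
  refine ⟨?_, ?_, ?_⟩
  · intro g g' v x _ _
    cases v with
    | nil => exact (add_zero (0 : ZMod 2)).symm
    | cons e v =>
      cases e with
      | false => exact (add_zero (0 : ZMod 2)).symm
      | true => rfl
  · intro g g' v x hv hx hg
    cases v with
    | nil => rfl
    | cons e v =>
      cases e with
      | false => rfl
      | true => exact hg v (tl x) (by simpa using hv) (B1_tl hx)
  · intro g v x hv hx
    cases v with
    | nil => simp at hv
    | cons e v =>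
      have h0 : ∀ (v : List Bool) (y : Col N), phiB1 g (false :: v) y = 0 := fun _ _ => rfl
      cases e with
      | false =>
        have h1 : (fun (v' : List Bool) (y : Col N) => phiB1 g (false :: v') (cs (x 0) y)) =
            fun _ _ => (0 : ZMod 2) := rfl
        simp only [dd]
        rw [h1, Maps_dd_zero]
        simp [phiB1]
      | true =>
        have h1 : (fun (v' : List Bool) (y : Col N) => phiB1 g (true :: v') (cs (x 0) y)) = g :=
          rfl
        simp only [dd]
        rw [h1, h0]
        simp [phiB1]

/-- PROOF. `r p = r p.rev` (symmetric), so the canonical state of the letter is `E` and `nxt = flip p p.rev r =: r'`. `z (false :: v) x = if x 0 = r' then so w r' v (tl x) else 0`, `z = 0` at other states. For `x ∈ K`, state `true :: v`: `phiB1 (so w r') = so w r' v (tl x)`; if it is nonzero then `x 1 = r'` and `x 0` agrees with `r'` outside of `p, p.rev` and is symmetric: `x 0 = r` or `x 0 = r'`, exactly one of the two. `so (l :: w) r (true :: v) x = [x 0 = r] so w r' v (tl x)`, and `dd z (true :: v) x = [x 0 = x 1] z (false ::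 v) x + 0 = [x 0 = x 1 = r'] so w r' v (tl x)`. State `false :: v`: `phiB1 = 0`, `so = 0`, `dd z = [x 0 = r'] dd w (so w r') v (tl x) = 0` by `dd_so`. -/
theorem phiB1_so (p : Fin N) (h : p ≠ p.rev) (w : Word N) (r : Row N) (hr : Sym r) :
    ∃ z : Coch N, ∀ v x, v.length = w.length + 1 → x ∈ K (⟨p, p.rev, h, false⟩ :: w) v →
      phiB1 (so w (nxt ⟨p, p.rev, h, false⟩ r)) v x =
        so (⟨p, p.rev, h, false⟩ :: w) r v x + dd (⟨p, p.rev, h, false⟩ :: w) z v x := by
  classical
  have hrp : r p = r p.rev := (hr p).symm
  have hn : nxt ⟨p, p.rev, h, false⟩ r = flip p p.rev r := if_pos hrp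
  have he : eo ⟨p, p.rev, h, false⟩ r = true := decide_eq_true hrp
  rw [hn]
  refine ⟨fun v x => match v with
    | false :: v => if x 0 = flip p p.rev r then so w (flip p p.rev r) v (tl x) else 0
    | _ => 0, ?_⟩
  intro v x hv hx
  cases v with
  | nil => simp at hv
  | cons e v =>
    have hv' : v.length = w.length := by simpa using hv
    cases e with
    | false =>
      have h1 : phiB1 (so w (flip p p.rev r)) (false :: v) x = 0 := rfl
      have h2 : so (⟨p, p.rev, h, false⟩ :: w) r (false :: v) x = 0 := by
        simp only [so]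
        rw [if_neg]
        rintro ⟨_, h3⟩
        rw [he] at h3
        exact Bool.false_ne_true h3
      rw [h1, h2]
      simp only [dd]
      have h4 : dd w (fun (v' : List Bool) (y : Col N) =>
          if cs (x 0) y 0 = flip p p.rev r then so w (flip p p.rev r) v' (tl (cs (x 0) y)) else 0)
          v (tl x) = 0 := by
        by_cases hc : x 0 = flip p p.rev r
        · have h5 : (fun (v' : List Bool) (y : Col N) =>
            if cs (x 0) y 0 = flip p p.rev r then so w (flip p p.rev r) v' (tl (cs (x 0) y))
            else 0) = so w (flip p p.rev r) := by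
            funext v' y
            rw [cs_zero, tl_cs, if_pos hc]
          rw [h5]
          exact dd_so hv' hx.2.2
        · have h5 : (fun (v' : List Bool) (y : Col N) =>
            if cs (x 0) y 0 = flip p p.rev r then so w (flip p p.rev r) v' (tl (cs (x 0) y))
            else 0) = fun _ _ => (0 : ZMod 2) := by
            funext v' y
            rw [cs_zero, if_neg hc]
          rw [h5]
          exact Maps_dd_zero w v (tl x)
      rw [h4]
      simp
    | true =>
      have h1 : phiB1 (so w (flip p p.rev r)) (true :: v) x = so w (flip p p.rev r) v (tl x) := rfl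
      have h2 : so (⟨p, p.rev, h, false⟩ :: w) r (true :: v) x =
          if x 0 = r then so w (flip p p.rev r) v (tl x) else 0 := by
        simp only [so]
        rw [he, hn]
        by_cases hc : x 0 = r
        · rw [if_pos ⟨hc, rfl⟩, if_pos hc]
        · rw [if_neg (fun h3 => hc h3.1), if_neg hc]
      rw [h1, h2]
      simp only [dd]
      have h4 : dd w (fun (v' : List Bool) (y : Col N) => (0 : ZMod 2)) v (tl x) = 0 :=
        Maps_dd_zero w v (tl x)
      rw [h4, add_zero]
      by_cases hs : so w (flip p p.rev r) v (tl x) = 0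
      · rw [hs]
        simp
      · have h5 : x 1 = flip p p.rev r := Maps_so_bottom hs
        have hne : r ≠ flip p p.rev r := by
          intro h6
          have h7 := congrFun h6 p
          simp [flip] at h7
        have h6 := B1_two hx.2.1
        rw [h5] at h6
        have h7 : flip p p.rev r + flip p p.rev 0 = r := by
          rw [B1_flip_add r, add_assoc, B1_add_self, add_zero]
        rw [h7] at h6
        rcases h6 with h6 | h6
        · have h8 : x 0 ≠ r := by
            rw [h6]
            exact fun h9 => hne h9.symm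
          have h9 : Rel p p.rev false (x 0) (x 1) := by
            show x 0 = x 1
            rw [h6, h5]
          rw [if_neg h8, if_pos ⟨rfl, h9⟩, if_pos h6, zero_add]
        · have h8 : ¬ Rel p p.rev false (x 0) (x 1) := by
            intro h9
            have h10 : x 0 = x 1 := h9
            rw [h6, h5] at h10
            exact hne h10
          rw [if_pos h6, if_neg (fun h9 => h8 h9.2), add_zero]

/-- the section of `tl` -/
def B1_s (N : ℕ) : Col N →ₗ[ZMod 2] Col N where
  toFun y := cs (y 0) y
  map_add' x y := by
    funext t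
    cases t <;> rfl
  map_smul' c x := by
    funext t
    cases t <;> rfl

def B1_tlL (N : ℕ) : Col N →ₗ[ZMod 2] Col N where
  toFun y := tl y
  map_add' _ _ := rfl
  map_smul' _ _ := rfl

theorem B1_dim (p : Fin N) (h : p ≠ p.rev) (w : Word N) (v : List Bool) :
    dimK (⟨p, p.rev, h, false⟩ :: w) (true :: v) = dimK w v + 1 := by
  unfold dimK
  have hs : ∀ y ∈ K w v, B1_s N y ∈ K (⟨p, p.rev, h, false⟩ :: w) (true :: v) := by
    intro y hy
    refine ⟨hy.1, ⟨(hy.1 p).symm, (hy.1 p).symm, fun j _ _ => rfl⟩, hy.2⟩
  have hc : cs (flip p p.rev 0) (0 : Col N) ∈ K (⟨p, p.rev, h, false⟩ :: w) (true :: v) := by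
    refine ⟨?_, ⟨?_, rfl, ?_⟩, Valid.zero⟩
    · intro j
      show flip p p.rev 0 j.rev = flip p p.rev 0 j
      unfold flip
      by_cases hj : j = p ∨ j = p.rev
      · rw [if_pos hj, if_pos (B1_rev_iff.2 hj)]
        rfl
      · rw [if_neg hj, if_neg (fun h3 => hj (B1_rev_iff.1 h3))]
        rfl
    · show flip p p.rev 0 p = flip p p.rev 0 p.rev
      unfold flip
      rw [if_pos (Or.inl rfl), if_pos (Or.inr rfl)]
      rfl
    · intro j h1 h2
      show flip p p.rev 0 j = 0
      unfold flip
      rw [if_neg (not_or.2 ⟨h1, h2⟩)]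
      rfl
  let c' : K (⟨p, p.rev, h, false⟩ :: w) (true :: v) := ⟨_, hc⟩
  let L : (K w v × ZMod 2) →ₗ[ZMod 2] K (⟨p, p.rev, h, false⟩ :: w) (true :: v) :=
    ((B1_s N).restrict hs).coprod (LinearMap.toSpanSingleton (ZMod 2) _ c')
  have hL : ∀ y : K w v × ZMod 2,
      ((L y : K (⟨p, p.rev, h, false⟩ :: w) (true :: v)) : Col N) =
      B1_s N y.1.1 + y.2 • cs (flip p p.rev 0) (0 : Col N) := by
    intro y
    simp [L, c', LinearMap.coprod_apply]
  have hb : Function.Bijective L := by
    constructor
    · rw [← LinearMap.ker_eq_bot, LinearMap.ker_eq_bot']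
      intro y hy
      have h1 : B1_s N y.1.1 + y.2 • cs (flip p p.rev 0) (0 : Col N) = 0 := by
        rw [← hL, hy]; rfl
      have h3 : y.1 = 0 := by
        apply Subtype.ext
        funext t
        have h4 := congrFun h1 (t + 1)
        rw [Pi.add_apply, Pi.smul_apply, cs_succ, Pi.zero_apply, smul_zero, add_zero] at h4
        exact h4
      rw [h3] at h1
      have h5 : y.2 = 0 := by
        have h4 := congrFun (congrFun h1 0) p
        have h6 : B1_s N ((0 : K w v) : Col N) = 0 := map_zero (B1_s N)
        rw [h6, zero_add, Pi.smul_apply, cs_zero, Pi.smul_apply] at h4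
        have h7 : flip p p.rev (0 : Row N) p = 1 := by
          unfold flip
          rw [if_pos (Or.inl rfl), Pi.zero_apply, zero_add]
        rw [h7, smul_eq_mul, mul_one] at h4
        exact h4
      exact Prod.ext h3 h5
    · intro x
      have ht := B1_tl x.2
      have h1 : x.1 = cs (x.1 0) (tl x.1) := (cs_tl x.1).symm
      rcases B1_two x.2.2.1 with h2 | h2
      · refine ⟨(⟨tl x.1, ht⟩, 0), Subtype.ext ?_⟩
        rw [hL, zero_smul, add_zero]
        show cs (x.1 1) (tl x.1) = x.1
        rw [← h2]
        exact h1.symm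
      · refine ⟨(⟨tl x.1, ht⟩, 1), Subtype.ext ?_⟩
        rw [hL, one_smul]
        show cs (x.1 1) (tl x.1) + cs (flip p p.rev 0) 0 = x.1
        funext t
        cases t with
        | zero => exact h2.symm
        | succ t => exact add_zero _
  have h1 := (LinearEquiv.ofBijective L hb).finrank_eq
  rw [← h1, Module.finrank_prod, Module.finrank_self]

/-- PROOF. State `false :: v`: the function is 0. State `true :: v`: the map `tl : K (l :: w) (true :: v) → K w v` is onto with section `y ↦ cs (y 0) y` (`y 0` is symmetric, so `y 0 p = y 0 p.rev`) and kernel `{0, c}`, `c = (e_p + e_{p.rev}, 0, 0, ...)`. So `dimK (l :: w) (true :: v) = dimK w v + 1` (as in the proof of `Fib.dim`; the bottom row changes, so this is not a `Fib`). `nv` grows by 1, `sh` by `-2` (`r p = r p.rev` and the letter is negative), total 0; the function is a pull back (`D.comp'`). -/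
theorem phiB1_lev (p : Fin N) (h : p ≠ p.rev) (w : Word N) (r : Row N) (hr : Sym r) (l : ℤ)
    (g : Coch N) (hg : Lev w (nxt ⟨p, p.rev, h, false⟩ r) l g) :
    Lev (⟨p, p.rev, h, false⟩ :: w) r l (phiB1 g) := by
  intro v hv e he
  cases v with
  | nil => simp at hv
  | cons b v =>
    have hv' : v.length = w.length := by simpa using hv
    cases b with
    | false => exact DegLT.zero
    | true =>
      have hrp : r p = r p.rev := (hr p).symm
      have hd := B1_dim p h w v
      have hnv : nv (⟨p, p.rev, h, false⟩ :: w) (true :: v) = 1 + nv w v := by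
        simp [nv]
      have hsh : sh (⟨p, p.rev, h, false⟩ :: w) r =
          -2 + sh w (nxt ⟨p, p.rev, h, false⟩ r) := by
        simp [sh, hrp]
      rw [hd, hnv, hsh] at he
      have h1 : DegLT (K w v) e (g v) := by
        refine hg v hv' e ?_
        push_cast at he
        linarith
      exact h1.comp' (B1_tlL N) (fun x hx => B1_tl hx)

theorem good_B1 (p : Fin N) (h : p ≠ p.rev) (w : Word N) (r : Row N) (hr : Sym r) (l : ℤ)
    (hg : Good w (nxt ⟨p, p.rev, h, false⟩ r) l) : Good (⟨p, p.rev, h, false⟩ :: w) r l := by
  simpa using Good.of_bottom (c := 0) (phiB1_isMapK p h w)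
    (by simpa using phiB1_so p h w r hr) (by simpa using phiB1_lev p h w r hr l) hg

end Pool.Agent.HK
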