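import Pool.Agent.H.MP_cd3d06_an.K.Sad

/-!
Part A: two letters of opposite signs at the positions `p, q` and `p.rev, q.rev` at the bottom.
-/

namespace Pool.Agent.HK

variable {N : ℕ}

/-- two letters of opposite signs at the positions `p, q` and `p.rev, q.rev` -/
noncomputable def phiB2 : Coch N → Coch N := fun g v x =>
  match v with
  | false :: false :: v => g v (tl (tl x))
  | true :: true :: v => open Classical in if Sym (x 2) then g v (tl (tl x)) else 0
  | _ => 0

/-- the two letters -/
def wB2 (p q : Fin N) (h : p ≠ q) (b : Bool) (w : Word N) : Word N :=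
  ⟨p, q, h, b⟩ :: ⟨p.rev, q.rev, fun h' => h (Fin.rev_injective h'), !b⟩ :: w

theorem B2A_dd_zero (w : Word N) (v : List Bool) (x : Col N) : dd w (fun _ _ => 0) v x = 0 := by
  induction w generalizing v x with
  | nil => rfl
  | cons l w ih =>
    cases v with
    | nil => rfl
    | cons e v =>
      simp only [dd]
      rw [ih]
      simp

theorem B2A_so {w : Word N} {r : Row N} {v : List Bool} {x : Col N} (h : x 0 ≠ r) :
    so w r v x = 0 := by
  cases w with
  | nil => simp [so, h]
  | cons l w =>
    cases v with
    | nil => rfl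
    | cons e v => simp [so, h]

theorem B2A_dd (p q : Fin N) (h : p ≠ q) (b : Bool) (w : Word N) (z : Coch N) (e1 e2 : Bool)
    (v : List Bool) (x : Col N) :
    dd (wB2 p q h b w) z (e1 :: e2 :: v) x =
      (open Classical in
        if e1 = !b ∧ Rel p q b (x 0) (x 1) then z (b :: e2 :: v) x else 0) +
      ((open Classical in
        if e2 = b ∧ Rel p.rev q.rev (!b) (x 1) (x 2) then z (e1 :: (!b) :: v) x else 0) +
        dd w (fun v' y => z (e1 :: e2 :: v') (cs (x 0) (cs (x 1) y))) v (tl (tl x))) := by
  cases b <;> simp only [wB2, dd, tl_apply, cs_tl, zero_add, Nat.reduceAdd] <;> rfl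

theorem B2A_sym_iff {p q : Fin N} (h1 : q ≠ p.rev) (h2 : p ≠ p.rev) (h3 : q ≠ q.rev)
    {a c : Row N} (ha : Sym a) (hc : ∀ j, j ≠ p → j ≠ q → a j = c j) : Sym c ↔ a = c := by
  constructor
  · intro hs
    funext j
    by_cases hp : j = p
    · subst hp
      rw [← hs j, ← ha j]
      exact hc _ (Ne.symm h2) (Ne.symm h1)
    · by_cases hq : j = q
      · subst hq
        rw [← hs j, ← ha j]
        apply hc _ _ (Ne.symm h3)
        intro h
        apply h1
        rw [← h, Fin.rev_rev]
      · exact hc j hp hq
  · rintro rfl
    exact ha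

/-- PROOF. Rows `a = x 0` (symmetric), `m = x 1`, `b = x 2`. Letter 1 at `p, q`, letter 2 at `p.rev, q.rev`; the four positions are different (`h, h1, h2, h3`). State `II`: `a = m = b`, so `tl (tl x) ∈ K w v`. State `EE`: `g` is only used if `b` is symmetric, then `tl (tl x) ∈ K w v`. `chain`: for `b = true` (signs `+, -`) letter 1 goes `E → I` and letter 2 goes `I → E`; the only state with letter contributions is `IE`: (rows `a = m`, `E` at `p.rev, q.rev` between `m` and `b`): letter 2 from `II` if `m = b`: `g v (tl (tl x))`; letter 1 from `EE` if `a p = a q` (true: `a p.rev = a q.rev` by the `E` and `a` is symmetric): `[b symmetric] g v (tl (tl x))`. And `b` symmetric iff `b p.rev = b p = a p = a p.rev` iff `b = a` (`b` and `a` agree at `p, q` and outside of the four positions). So they cancel. For `b = false` (signs `-, +`): letter 1 goes `I → E`, letter 2 goes `E → I`; the state is `EI`: `E` at `p, q` between `a` and `m`, `m = b`: letter 1 from `II` if `a = m`; letter 2 from `EE` (condition: `m (p.rev) = m (q.rev)`, true, as `m = a` there and `a p.rev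 = a p = a q = a q.rev`): `[b symmetric]`, and `b` symmetric iff `b p = b p.rev = a p.rev = a p` iff `b = a`. At the other states: no letter contributions on the left side; the right side is 0 at `EI, IE`. At `II` and `EE` only the `w` part (the condition `Sym (x 2)` does not involve the tail except its row number 0, which is kept: use `dd_loc`; note that if `b` is not symmetric both sides are 0). -/
theorem phiB2_isMapK (p q : Fin N) (h : p ≠ q) (h1 : q ≠ p.rev) (h2 : p ≠ p.rev) (h3 : q ≠ q.rev)
    (b : Bool) (w : Word N) : IsMapK w (wB2 p q h b w) phiB2 := by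
  classical
  have h4 : p ≠ q.rev := by
    intro h'
    apply h1
    rw [h', Fin.rev_rev]
  refine ⟨?_, ?_, ?_⟩
  · intro g g' v x hv hx
    rcases v with _ | ⟨e1, _ | ⟨e2, v⟩⟩
    · simp [wB2] at hv
    · simp [wB2] at hv
    · cases e1 <;> cases e2 <;> simp only [phiB2, add_zero]
      split_ifs <;> simp
  · intro g g' v x hv hx hg
    rcases v with _ | ⟨e1, _ | ⟨e2, v⟩⟩
    · simp [wB2] at hv
    · simp [wB2] at hv
    · have hv' : v.length = w.length := by simpa [wB2] using hv
      obtain ⟨hs, hr1, hr2, hval⟩ := hx
      simp only [tl_apply, zero_add, Nat.reduceAdd] at hr1 hr2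
      cases e1 <;> cases e2 <;> simp only [phiB2]
      · apply hg v _ hv' ⟨?_, hval⟩
        simp only [Rel] at hr1 hr2
        show Sym (x 2)
        rw [← hr2, ← hr1]
        exact hs
      · split_ifs with hsym
        · exact hg v _ hv' ⟨hsym, hval⟩
        · rfl
  · intro g v x hv hx
    rcases v with _ | ⟨e1, _ | ⟨e2, v⟩⟩
    · simp [wB2] at hv
    · simp [wB2] at hv
    · have hv' : v.length = w.length := by simpa [wB2] using hv
      obtain ⟨hs, hr1, hr2, hval⟩ := hx
      simp only [tl_apply, zero_add, Nat.reduceAdd] at hr1 hr2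
      rw [B2A_dd]
      cases e1 <;> cases e2
      · -- II
        have e : dd w (fun v' y => phiB2 g (false :: false :: v') (cs (x 0) (cs (x 1) y))) v
            (tl (tl x)) = dd w g v (tl (tl x)) := rfl
        rw [e]
        cases b <;> simp [phiB2]
      · -- IE
        have e : dd w (fun v' y => phiB2 g (false :: true :: v') (cs (x 0) (cs (x 1) y))) v
            (tl (tl x)) = 0 := B2A_dd_zero w v _
        rw [e]
        cases b
        · simp [phiB2]
        · simp only [Rel] at hr1 hr2
          have ha : Sym (x 1) := hr1 ▸ hs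
          have hR1 : Rel p q true (x 0) (x 1) := by
            refine ⟨?_, ?_, fun j _ _ => by rw [hr1]⟩
            · rw [hr1, ← ha p, ← ha q]
              exact hr2.1
            · rw [← ha p, ← ha q]
              exact hr2.1
          have hiff : Sym (x 2) ↔ x 1 = x 2 := by
            apply B2A_sym_iff (p := p.rev) (q := q.rev) _ _ _ ha hr2.2.2
            · rw [Fin.rev_rev]; exact fun h' => h4 h'.symm
            · rw [Fin.rev_rev]; exact fun h' => h2 h'.symm
            · rw [Fin.rev_rev]; exact fun h' => h3 h'.symm
          have e3 : Rel p.rev q.rev false (x 1) (x 2) ↔ x 1 = x 2 := Iff.rfl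
          simp only [phiB2, Bool.not_true, hR1, and_self, if_true, true_and, hiff, e3, add_zero]
          split_ifs
          · exact CharTwo.add_self_eq_zero _
          · simp
      · -- EI
        have e : dd w (fun v' y => phiB2 g (true :: false :: v') (cs (x 0) (cs (x 1) y))) v
            (tl (tl x)) = 0 := B2A_dd_zero w v _
        rw [e]
        cases b
        · simp only [Rel] at hr1 hr2
          have hR2 : Rel p.rev q.rev true (x 1) (x 2) := by
            have e5 : x 1 p.rev = x 1 q.rev := by
              rw [← hr1.2.2 p.rev (Ne.symm h2) (Ne.symm h1), ← hr1.2.2 q.rev (Ne.symm h4) (Ne.symm h3),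
                hs p, hs q]
              exact hr1.1
            exact ⟨e5, by rw [← hr2]; exact e5, fun j _ _ => by rw [hr2]⟩
          have hiff : Sym (x 2) ↔ x 0 = x 1 := by
            rw [← hr2]
            exact B2A_sym_iff h1 h2 h3 hs hr1.2.2
          have e2 : Rel p q false (x 0) (x 1) ↔ x 0 = x 1 := Iff.rfl
          simp only [phiB2, Bool.not_false, hR2, and_self, if_true, true_and, hiff, e2,
            add_zero]
          split_ifs
          · exact CharTwo.add_self_eq_zero _
          · simp
        · simp [phiB2]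
      · -- EE
        have e : dd w (fun v' y => phiB2 g (true :: true :: v') (cs (x 0) (cs (x 1) y))) v
            (tl (tl x)) = if Sym (x 2) then dd w g v (tl (tl x)) else 0 := by
          have e6 : dd w (fun v' y => phiB2 g (true :: true :: v') (cs (x 0) (cs (x 1) y))) v
            (tl (tl x)) = dd w (fun v' y => if Sym (x 2) then g v' y else 0) v (tl (tl x)) := by
            apply dd_loc hv' hval
            intro v' y _ _ hy0
            have : y 0 = x 2 := hy0
            show (if Sym (y 0) then g v' y else 0) = _
            rw [this]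
          rw [e6]
          split_ifs
          · rfl
          · exact B2A_dd_zero w v _
        rw [e]
        cases b <;> simp [phiB2]

/-- PROOF. `r` is symmetric. If `r p ≠ r q`: then `r p.rev ≠ r q.rev`, canonical states `I, I`, `fin (wB2 p q h b []) r = r`, `z = 0`: at `II`: `a = m = b`, equal. At `EE`: `so w r v (tl (tl x))` requires `b = r`, but `b p = b q`: 0. If `r p = r q`: canonical states `E, E`, `r' = fin .. r` is `r` with the four labels changed, symmetric. `z` = `1` times `so w r' v (tl (tl x))` at the mixed state which is the source of both letters (`EI` for `b = true`, `IE` for `b = false`) and rows `x 0 = x 1 = x 2 = r'`. Then `dd z`: at `II`: `[x 0 = r'] so w r' ..`; at `EE`: `[x 0 = x 1 = x 2 = r'] so w r' ..`; at the mixed state 0 by `dd_so`. `φ (so w r')`: at `II`: the same; at `EE`: `[x 2 = r'] so w r' ..` and then `x 0`, symmetric, `x 0 p = x 0 q`, `x 0 = r'` outside of the four positions, is `r` or `r'`, and `x 1` is determined by `x 0` and `x 2`; `so (..)` is the case `x 0 = r`. -/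
theorem phiB2_so (p q : Fin N) (h : p ≠ q) (h1 : q ≠ p.rev) (h2 : p ≠ p.rev) (h3 : q ≠ q.rev)
    (b : Bool) (w : Word N) (r : Row N) (hr : Sym r) :
    ∃ z : Coch N, ∀ v x, v.length = w.length + 2 → x ∈ K (wB2 p q h b w) v →
      phiB2 (so w (fin (wB2 p q h b []) r)) v x =
        so (wB2 p q h b w) r v x + dd (wB2 p q h b w) z v x := by
  classical
  have h4 : p ≠ q.rev := by
    intro h'
    apply h1
    rw [h', Fin.rev_rev]
  have h5 : p.rev ≠ q.rev := fun h' => h (Fin.rev_injective h')
  have hso : ∀ (e1 e2 : Bool) (v : List Bool) (x : Col N) (r : Row N),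
      so (wB2 p q h b w) r (e1 :: e2 :: v) x =
        if x 0 = r ∧ e1 = eo ⟨p, q, h, b⟩ r then
          (if x 1 = nxt ⟨p, q, h, b⟩ r ∧ e2 = eo ⟨p.rev, q.rev, h5, !b⟩ (nxt ⟨p, q, h, b⟩ r) then
            so w (nxt ⟨p.rev, q.rev, h5, !b⟩ (nxt ⟨p, q, h, b⟩ r)) v (tl (tl x)) else 0)
        else 0 := fun _ _ _ _ _ => rfl
  have hfin : fin (wB2 p q h b []) r =
      nxt ⟨p.rev, q.rev, h5, !b⟩ (nxt ⟨p, q, h, b⟩ r) := rfl
  by_cases hpq : r p = r q
  · have n1 : nxt ⟨p, q, h, b⟩ r = flip p q r := if_pos hpq
    have e1' : eo ⟨p, q, h, b⟩ r = true := decide_eq_true hpq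
    have a1 : flip p q r p.rev = r p := by
      simp only [flip, Ne.symm h2, Ne.symm h1, or_self, if_false]
      exact hr p
    have a2 : flip p q r q.rev = r q := by
      simp only [flip, Ne.symm h4, Ne.symm h3, or_self, if_false]
      exact hr q
    have a3 : flip p q r p.rev = flip p q r q.rev := by rw [a1, a2, hpq]
    have n2 : nxt ⟨p.rev, q.rev, h5, !b⟩ (flip p q r) = flip p.rev q.rev (flip p q r) :=
      if_pos a3
    have e2' : eo ⟨p.rev, q.rev, h5, !b⟩ (flip p q r) = true := decide_eq_true a3
    rw [n1, n2] at hfin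
    rw [hfin]
    set r1 := flip p q r with hr1
    set r2 := flip p.rev q.rev r1 with hr2
    have hsor : ∀ (e1 e2 : Bool) (v : List Bool) (x : Col N),
      so (wB2 p q h b w) r (e1 :: e2 :: v) x =
        if x 0 = r ∧ e1 = true then
          (if x 1 = r1 ∧ e2 = true then so w r2 v (tl (tl x)) else 0)
        else 0 := by
      intro e1 e2 v x
      have := hso e1 e2 v x r
      rw [this]
      simp only [n1, e1', e2', n2]
    -- values of r2
    have b1 : r2 p = r p + 1 := by
      simp only [hr2, hr1, flip, h2, h4, or_self, if_false, true_or, if_true]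
    have b2 : r2 q = r q + 1 := by
      simp only [hr2, hr1, flip, h1, h3, or_self, if_false, or_true, if_true]
    have b3 : r2 p.rev = r p + 1 := by
      simp only [hr2, flip, true_or, if_true]
      rw [a1]
    have b4 : r2 q.rev = r q + 1 := by
      simp only [hr2, flip, or_true, if_true]
      rw [a2]
    have b5 : ∀ j, j ≠ p → j ≠ q → j ≠ p.rev → j ≠ q.rev → r2 j = r j := by
      intro j c1 c2 c3 c4
      simp only [hr2, hr1, flip, c1, c2, c3, c4, or_self, if_false]
    have b6 : ∀ j, j ≠ p.rev → j ≠ q.rev → r2 j = r1 j := by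
      intro j c3 c4
      simp only [hr2, flip, c3, c4, or_self, if_false]
    have b7 : r2 p = r2 q := by rw [b1, b2, hpq]
    have b8 : r2 p.rev = r2 q.rev := by rw [b3, b4, hpq]
    have hrne : r ≠ r2 := by
      intro h'
      have := congrFun h' p
      rw [b1] at this
      have h01 : (1 : ZMod 2) = 0 := by
        have := add_left_cancel (a := r p) (b := 0) (c := 1) (by rw [add_zero]; exact this)
        exact this.symm
      exact one_ne_zero h01
    have hsym2 : Sym r2 := by
      intro j
      by_cases c1 : j = p
      · subst c1; rw [b3, b1]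
      by_cases c2 : j = q
      · subst c2; rw [b4, b2]
      by_cases c3 : j = p.rev
      · subst c3; rw [Fin.rev_rev, b3, b1]
      by_cases c4 : j = q.rev
      · subst c4; rw [Fin.rev_rev, b4, b2]
      rw [b5 j c1 c2 c3 c4, b5 j.rev, hr j]
      · intro h'; exact c3 (by rw [← h', Fin.rev_rev])
      · intro h'; exact c4 (by rw [← h', Fin.rev_rev])
      · intro h'; exact c1 (Fin.rev_injective h')
      · intro h'; exact c2 (Fin.rev_injective h')
    refine ⟨fun v x => match v with
      | e1 :: e2 :: v =>
        if e1 = b ∧ e2 = (!b) ∧ x 0 = r2 ∧ x 1 = r2 then so w r2 v (tl (tl x)) else 0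
      | _ => 0, ?_⟩
    intro v x hv hx
    rcases v with _ | ⟨e1, _ | ⟨e2, v⟩⟩
    · simp at hv
    · simp at hv
    have hv' : v.length = w.length := by simpa using hv
    obtain ⟨hs, hR1, hR2, hval⟩ := hx
    simp only [tl_apply, zero_add, Nat.reduceAdd] at hR1 hR2
    rw [B2A_dd, hsor]
    have hthird : dd w (fun v' y =>
        (if e1 = b ∧ e2 = (!b) ∧ (cs (x 0) (cs (x 1) y)) 0 = r2 ∧ (cs (x 0) (cs (x 1) y)) 1 = r2
          then so w r2 v' (tl (tl (cs (x 0) (cs (x 1) y)))) else 0)) v (tl (tl x)) = 0 := by
      by_cases hc : e1 = b ∧ e2 = (!b) ∧ x 0 = r2 ∧ x 1 = r2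
      · refine Eq.trans ?_ (dd_so (r := r2) hv' hval)
        congr 1
        funext v' y
        exact if_pos hc
      · refine Eq.trans ?_ (B2A_dd_zero w v (tl (tl x)))
        congr 1
        funext v' y
        exact if_neg hc
    rw [hthird, add_zero]
    by_cases hx2 : x 2 = r2
    · cases e1 <;> cases e2
      · -- II
        have g1 : x 0 = x 1 := hR1
        have g2 : x 1 = x 2 := hR2
        have f1 : x 1 = r2 := by rw [g2, hx2]
        have f0 : x 0 = r2 := by rw [g1, f1]
        cases b
        · have hRr : Rel p.rev q.rev true (x 1) (x 2) := by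
            rw [f1, hx2]; exact ⟨b8, b8, fun _ _ _ => rfl⟩
          simp [phiB2, f0, f1, hx2]
          intro hcon
          exact absurd ⟨b8, b8, fun _ _ _ => rfl⟩ hcon
        · simp [phiB2, f0, f1]
          intro hcon
          exact absurd ⟨b7, b7, fun _ _ _ => rfl⟩ hcon
      · cases b <;> simp [phiB2]
      · cases b <;> simp [phiB2]
      · -- EE
        obtain ⟨k1, k2, k3⟩ := hR1
        obtain ⟨k4, k5, k6⟩ := hR2
        have d1 : x 0 q = x 0 p := k1.symm
        have d3 : x 0 p.rev = x 0 p := hs p
        have d4 : x 0 q.rev = x 0 p := by rw [hs q, k1]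
        have d5 : x 1 p.rev = x 0 p := by rw [← k3 p.rev (Ne.symm h2) (Ne.symm h1), d3]
        have d6 : x 1 q.rev = x 0 p := by rw [← k3 q.rev (Ne.symm h4) (Ne.symm h3), d4]
        have d7 : x 1 p = r p + 1 := by rw [k6 p h2 h4, hx2, b1]
        have d8 : x 1 q = r q + 1 := by rw [k6 q h1 h3, hx2, b2]
        have d9 : ∀ j, j ≠ p → j ≠ q → j ≠ p.rev → j ≠ q.rev → x 1 j = r j := by
          intro j c1 c2 c3 c4
          rw [k6 j c3 c4, hx2, b5 j c1 c2 c3 c4]
        have hdich : (x 0 = r ∧ x 1 = r1) ∨ (x 0 = r2 ∧ x 1 = r2) := by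
          have hz2 : x 0 p = r p ∨ x 0 p = r p + 1 := by
            have : ∀ a c : ZMod 2, a = c ∨ a = c + 1 := by decide
            exact this _ _
          rcases hz2 with hz2 | hz2
          · left
            constructor
            · funext j
              by_cases c1 : j = p
              · subst c1; exact hz2
              by_cases c2 : j = q
              · subst c2; rw [d1, hz2, hpq]
              by_cases c3 : j = p.rev
              · subst c3; rw [d3, hz2, hr p]
              by_cases c4 : j = q.rev
              · subst c4; rw [d4, hz2, hr q, hpq]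
              rw [k3 j c1 c2, d9 j c1 c2 c3 c4]
            · funext j
              by_cases c1 : j = p
              · subst c1; rw [d7, hr1]; simp [flip]
              by_cases c2 : j = q
              · subst c2; rw [d8, hr1]; simp [flip]
              by_cases c3 : j = p.rev
              · subst c3; rw [d5, hz2, a1]
              by_cases c4 : j = q.rev
              · subst c4; rw [d6, hz2, a2, hpq]
              rw [d9 j c1 c2 c3 c4, ← b6 j c3 c4, b5 j c1 c2 c3 c4]
          · right
            have hx1 : x 1 = r2 := by
              funext j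
              by_cases c3 : j = p.rev
              · subst c3; rw [d5, hz2, b3]
              by_cases c4 : j = q.rev
              · subst c4; rw [d6, hz2, b4, hpq]
              rw [k6 j c3 c4, hx2]
            refine ⟨?_, hx1⟩
            funext j
            by_cases c1 : j = p
            · subst c1; rw [hz2, b1]
            by_cases c2 : j = q
            · subst c2; rw [d1, hz2, b2, hpq]
            rw [k3 j c1 c2, hx1]
        rcases hdich with ⟨c0, c1⟩ | ⟨c0, c1⟩
        · cases b <;> simp [phiB2, c0, c1, hrne, hx2, hsym2]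
        · cases b
          · have hRr : Rel p q false r2 r2 := rfl
            simp [phiB2, c0, c1, hrne.symm, hx2, hsym2, hRr]
          · have hRr : Rel p.rev q.rev false r2 r2 := rfl
            simp [phiB2, c0, c1, hrne.symm, hx2, hsym2, hRr]
    · have hz : so w r2 v (tl (tl x)) = 0 := B2A_so hx2
      simp only [hz, ite_self, add_zero]
      cases e1 <;> cases e2 <;> simp [phiB2, hz]
  · have n1 : nxt ⟨p, q, h, b⟩ r = r := if_neg hpq
    have e1' : eo ⟨p, q, h, b⟩ r = false := decide_eq_false hpq
    have hpq' : ¬ r p.rev = r q.rev := by rw [hr p, hr q]; exact hpq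
    have n2 : nxt ⟨p.rev, q.rev, h5, !b⟩ r = r := if_neg hpq'
    have e2' : eo ⟨p.rev, q.rev, h5, !b⟩ r = false := decide_eq_false hpq'
    rw [n1, n2] at hfin
    rw [hfin]
    refine ⟨fun _ _ => 0, ?_⟩
    intro v x hv hx
    rw [B2A_dd_zero, add_zero]
    rcases v with _ | ⟨e1, _ | ⟨e2, v⟩⟩
    · simp at hv
    · simp at hv
    have hv' : v.length = w.length := by simpa using hv
    obtain ⟨hs, hR1, hR2, hval⟩ := hx
    simp only [tl_apply, zero_add, Nat.reduceAdd] at hR1 hR2
    rw [hso, n1, e1', e2', n2]
    by_cases hx2 : x 2 = r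
    · cases e1 <;> cases e2
      · have g1 : x 0 = x 1 := hR1
        have g2 : x 1 = x 2 := hR2
        have f1 : x 1 = r := by rw [g2, hx2]
        have f0 : x 0 = r := by rw [g1, f1]
        simp [phiB2, f0, f1]
      · simp [phiB2]
      · simp [phiB2]
      · exfalso
        obtain ⟨k1, k2, k3⟩ := hR1
        obtain ⟨k4, k5, k6⟩ := hR2
        apply hpq
        rw [← hx2, ← k6 p h2 h4, ← k6 q h1 h3]
        exact k2
    · have hz : so w r v (tl (tl x)) = 0 := B2A_so hx2
      simp only [hz, ite_self]
      cases e1 <;> cases e2 <;> simp [phiB2, hz]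

end Pool.Agent.HK
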