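import Pool.Agent.H.MP_cd3d06_an.K.Fib

/-!
Part A: the level of the empty word, and the level of the canonical generator.
-/

namespace Pool.Agent.HK

/-- the restriction of the row to the first half -/
def baseRes (n : ℕ) : K ([] : Word (2 * n)) [] →ₗ[ZMod 2] (Fin n → ZMod 2) where
  toFun x j := x.1 0 ⟨j.1, by have := j.2; omega⟩
  map_add' _ _ := rfl
  map_smul' _ _ := rfl

/-- the symmetric row with given first half -/
def baseRow (n : ℕ) (a : Fin n → ZMod 2) : Row (2 * n) := fun j =>
  if h : j.1 < n then a ⟨j.1, h⟩ else a ⟨2 * n - 1 - j.1, by have := j.2; omega⟩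

theorem baseRow_sym (n : ℕ) (a : Fin n → ZMod 2) : Sym (baseRow n a) := by
  intro j
  have hj := j.2
  have hr : (j.rev).1 = 2 * n - (j.1 + 1) := Fin.val_rev j
  unfold baseRow
  by_cases h : j.1 < n
  · have h' : ¬ (j.rev).1 < n := by omega
    rw [dif_neg h', dif_pos h]
    congr 1
    apply Fin.ext
    simp only
    omega
  · have h' : (j.rev).1 < n := by omega
    rw [dif_pos h', dif_neg h]
    congr 1
    apply Fin.ext
    simp only
    omega

/-- the space of symmetric rows has dimension `n`
PROOF. `K [] []` consists of the constant sequences with symmetric row (`Valid`: `x (t+1) = x 0` for all `t`, so `x t = x 0`). It is linearly equivalent to `Fin n → ZMod 2`: a symmetric row is determined by, and arbitrary at, the positions `j < n` (`j.rev` has value `2n - 1 - j ≥ n`). -/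
theorem dimK_nil (n : ℕ) : dimK ([] : Word (2 * n)) [] = n := by
  have hbij : Function.Bijective (baseRes n) := by
    constructor
    · intro x y hxy
      obtain ⟨x, hx⟩ := x
      obtain ⟨y, hy⟩ := y
      have h0 : x 0 = y 0 := by
        funext j
        have hj := j.2
        have hr : (j.rev).1 = 2 * n - (j.1 + 1) := Fin.val_rev j
        by_cases h : j.1 < n
        · exact congrFun hxy ⟨j.1, h⟩
        · have h' : (j.rev).1 < n := by omega
          have h1 := congrFun hxy ⟨(j.rev).1, h'⟩
          have h2 : x 0 j.rev = y 0 j.rev := h1
          rw [hx.1 j, hy.1 j] at h2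
          exact h2
      apply Subtype.ext
      funext t
      cases t with
      | zero => exact h0
      | succ t =>
        have e1 : x (t + 1) = x 0 := hx.2.2 t
        have e2 : y (t + 1) = y 0 := hy.2.2 t
        change x (t + 1) = y (t + 1)
        rw [e1, e2, h0]
    · intro a
      refine ⟨⟨fun _ => baseRow n a, ?_, ?_, ?_⟩, ?_⟩
      · exact baseRow_sym n a
      · exact baseRow_sym n a
      · intro t; rfl
      · funext j
        have hj := j.2
        change baseRow n a ⟨j.1, _⟩ = a j
        unfold baseRow
        rw [dif_pos (show (⟨j.1, by omega⟩ : Fin (2 * n)).1 < n from hj)]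
  have e := LinearEquiv.ofBijective (baseRes n) hbij
  unfold dimK
  rw [LinearEquiv.finrank_eq e]
  simp

/-- PROOF. Take `v = []`. `Lev` gives for all `e` with `n + 0 + 0 - l < 2 e` (`dimK_nil`) `DegLT (K [] []) e (so [] r [] + 0)`, and `so [] r [] x = 1 ↔ x 0 = r ↔ x = (fun _ => r)` on `K [] []`, which is a point of `K [] []`. By `not_degLT_point` `DegLT (K [] []) n` fails, so `e = n` must violate the inequality: `2 n ≤ n - l`. -/
theorem good_nil (n : ℕ) (r : Row (2 * n)) (hr : Sym r) (l : ℤ) (h : Good [] r l) :
    l ≤ -(n : ℤ) := by
  obtain ⟨y, hy⟩ := h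
  by_contra hl
  have hdim := dimK_nil n
  have h1 := hy [] rfl n (by
    rw [hdim]
    simp only [nv, sh]
    omega)
  have hmem : (fun _ => r : Col (2 * n)) ∈ K ([] : Word (2 * n)) [] := ⟨hr, hr, fun _ => rfl⟩
  have h2 := not_degLT_point (V := K ([] : Word (2 * n)) []) (x0 := (fun _ => r : Col (2 * n)))
    (f := fun x => so ([] : Word (2 * n)) r [] x + dd ([] : Word (2 * n)) y [] x) hmem (by
      intro x hx
      have hd : dd ([] : Word (2 * n)) y [] x = 0 := rfl
      simp only [hd, add_zero, so]
      constructor
      · intro hh
        have hx0 : x 0 = r := by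
          by_contra hne
          rw [if_neg hne] at hh
          exact zero_ne_one hh
        funext t
        cases t with
        | zero => exact hx0
        | succ t => rw [hx.2.2 t, hx0]
      · intro hh
        rw [if_pos]
        rw [hh])
  apply h2
  have h3 : Module.finrank (ZMod 2) (K ([] : Word (2 * n)) []) = n := hdim
  rw [h3]
  exact h1

variable {N : ℕ}

/-- the canonical state -/
def co : Word N → Row N → List Bool
  | [], _ => []
  | l :: w, r => eo l r :: co w (nxt l r)

theorem co_length (w : Word N) (r : Row N) : (co w r).length = w.length := by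
  induction w generalizing r with
  | nil => rfl
  | cons l w ih => simp [co, ih]

/-- PROOF. Induction on `w`; for one letter four cases (labels equal or not, sign): `eo = true` (equal): positive: `nv = 0`, `sh = 1`, `wr = 1`; negative: `nv = 1` (`eo = true = !pos`), `sh = -2`, `wr = -1`; `eo = false`: positive: `nv = 1`, `sh = -2`, `wr = -1`; negative: `nv = 0`, `sh = 1`, `wr = 1`. -/
theorem nv_add_sh (w : Word N) (r : Row N) : nv w (co w r) + sh w r = wr w r := by
  induction w generalizing r with
  | nil => rfl
  | cons l w ih =>
    have := ih (nxt l r)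
    simp only [co, nv, sh, wr]
    have h1 : ((if eo l r = !l.pos then (1 : ℤ) else 0)) +
        (if (r l.p = r l.q) ↔ l.pos = true then 1 else -2) =
        (if (r l.p = r l.q) ↔ l.pos = true then 1 else -1) := by
      unfold eo
      by_cases h : r l.p = r l.q
      · cases hp : l.pos <;> simp [h]
      · cases hp : l.pos <;> simp [h]
    linarith

theorem base_so_zero (w : Word N) (r : Row N) (v : List Bool) (hv : v ≠ co w r) (x : Col N)
    (hl : v.length = w.length) : so w r v x = 0 := by
  induction w generalizing r v x with
  | nil =>
    exfalso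
    apply hv
    simp only [List.length_nil, List.length_eq_zero_iff] at hl
    rw [hl]; rfl
  | cons l w ih =>
    cases v with
    | nil => rfl
    | cons e v =>
      simp only [so]
      split_ifs with h
      · apply ih
        · intro h2
          apply hv
          rw [h2, h.2]
          rfl
        · simpa using hl
      · rfl

theorem base_dd_zero (w : Word N) (v : List Bool) (x : Col N) :
    dd w (fun _ _ => 0) v x = 0 := by
  induction w generalizing v x with
  | nil => rfl
  | cons l w ih =>
    cases v with
    | nil => rfl
    | cons e v =>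
      simp only [dd, ite_self, zero_add]
      exact ih v (tl x)

/-- the canonical generator itself has level at least `writhe - (number of circles)`
PROOF. Take `y = 0` (`dd w 0 = 0`, induction). For `v ≠ co w r`, `v.length = w.length`: `so w r v x = 0` for all `x` (induction), so `DegLT` by `DegLT.zero`/`congr`. For `v = co w r`: by `nv_add_sh` the condition is `dimK + wr - (wr - dimK) = 2 dimK < 2 e`, so `e ≥ dimK + 1`: `degLT_finrank` and `DegLT.mono`. -/
theorem good_self (w : Word N) (r : Row N) : Good w r (wr w r - dimK w (co w r)) := by
  refine ⟨fun _ _ => 0, ?_⟩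
  intro v hv e he
  by_cases h : v = co w r
  · have h1 := nv_add_sh w r
    rw [h] at he ⊢
    have h2 : dimK w (co w r) + 1 ≤ e := by
      have h3 : (dimK w (co w r) : ℤ) < e := by linarith
      omega
    exact DegLT.mono h2 (degLT_finrank _)
  · apply DegLT.congr (f := fun _ => (0 : ZMod 2))
    · intro x _
      change (0 : ZMod 2) = so w r v x + dd w (fun _ _ => 0) v x
      rw [base_so_zero w r v h x hv, base_dd_zero, add_zero]
    · exact DegLT.zero

end Pool.Agent.HK
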