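import Pool.Agent.H.MP_cd3d06_an.K.B1
import Pool.Agent.H.MP_cd3d06_an.K.B2A

/-!
Part A: two letters of opposite signs at the positions `p, q` and `p.rev, q.rev` at the bottom.
-/

namespace Pool.Agent.HK

variable {N : ℕ}

section MoveBottomAux

theorem MoveBottom_dim {M M' : Type*} [AddCommGroup M] [Module (ZMod 2) M] [AddCommGroup M']
    [Module (ZMod 2) M'] {V' : Submodule (ZMod 2) M'} {V : Submodule (ZMod 2) M}
    [Module.Finite (ZMod 2) V'] (φ : M' →ₗ[ZMod 2] M) (hφ : ∀ x ∈ V', φ x ∈ V)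
    (hs : ∀ y ∈ V, ∃ x ∈ V', φ x = y) :
    Module.finrank (ZMod 2) V' = Module.finrank (ZMod 2) V +
      Module.finrank (ZMod 2) (LinearMap.ker (φ.restrict hφ)) := by
  have h := LinearMap.finrank_range_add_finrank_ker (φ.restrict hφ)
  have hr : LinearMap.range (φ.restrict hφ) = ⊤ := by
    rw [LinearMap.range_eq_top]
    rintro ⟨y, hy⟩
    obtain ⟨x, hx, rfl⟩ := hs y hy
    exact ⟨⟨x, hx⟩, rfl⟩
  rw [hr, finrank_top] at h
  exact h.symm

theorem MoveBottom_dim0 {M M' : Type*} [AddCommGroup M] [Module (ZMod 2) M] [AddCommGroup M']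
    [Module (ZMod 2) M'] {V' : Submodule (ZMod 2) M'} {V : Submodule (ZMod 2) M}
    [Module.Finite (ZMod 2) V'] (φ : M' →ₗ[ZMod 2] M) (hφ : ∀ x ∈ V', φ x ∈ V)
    (hs : ∀ y ∈ V, ∃ x ∈ V', φ x = y) (hk : ∀ x ∈ V', φ x = 0 → x = 0) :
    Module.finrank (ZMod 2) V' = Module.finrank (ZMod 2) V := by
  rw [MoveBottom_dim φ hφ hs]
  have : LinearMap.ker (φ.restrict hφ) = ⊥ := by
    rw [LinearMap.ker_eq_bot']
    rintro ⟨x, hx⟩ h
    have h' : φ x = 0 := congrArg Subtype.val h
    exact Subtype.ext (hk x hx h')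
  rw [this, finrank_bot, add_zero]

theorem MoveBottom_dim1 {M M' : Type*} [AddCommGroup M] [Module (ZMod 2) M] [AddCommGroup M']
    [Module (ZMod 2) M'] {V' : Submodule (ZMod 2) M'} {V : Submodule (ZMod 2) M}
    [Module.Finite (ZMod 2) V'] (φ : M' →ₗ[ZMod 2] M) (hφ : ∀ x ∈ V', φ x ∈ V)
    (hs : ∀ y ∈ V, ∃ x ∈ V', φ x = y) (c : M') (hc : c ∈ V') (hc0 : c ≠ 0) (hφc : φ c = 0)
    (hk : ∀ x ∈ V', φ x = 0 → x = 0 ∨ x = c) :
    Module.finrank (ZMod 2) V' = Module.finrank (ZMod 2) V + 1 := by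
  rw [MoveBottom_dim φ hφ hs]
  congr 1
  have hc' : (⟨c, hc⟩ : V') ≠ 0 := fun h => hc0 (congrArg Subtype.val h)
  have : LinearMap.ker (φ.restrict hφ) = Submodule.span (ZMod 2) {(⟨c, hc⟩ : V')} := by
    apply le_antisymm
    · rintro ⟨x, hx⟩ h
      have h' : φ x = 0 := congrArg Subtype.val (LinearMap.mem_ker.1 h)
      rcases hk x hx h' with h0 | h0
      · have : (⟨x, hx⟩ : V') = 0 := Subtype.ext h0
        rw [this]; exact Submodule.zero_mem _
      · have : (⟨x, hx⟩ : V') = ⟨c, hc⟩ := Subtype.ext h0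
        rw [this]; exact Submodule.mem_span_singleton_self _
    · rw [Submodule.span_singleton_le_iff_mem, LinearMap.mem_ker]
      exact Subtype.ext hφc
  rw [this]
  exact finrank_span_singleton hc'

/-- `tl` as a linear map -/
def MoveBottom_tl : Col N →ₗ[ZMod 2] Col N where
  toFun x := tl x
  map_add' _ _ := rfl
  map_smul' _ _ := rfl

theorem MoveBottom_lev_iff (w : Word N) (r : Row N) (l : ℤ) (g : Coch N) :
    Lev w r l g ↔ ∀ v : List Bool, v.length = w.length →
      D (K w v) ((dimK w v : ℤ) + nv w v + sh w r - l) (g v) := Iff.rfl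

/-- the state `II` -/
theorem MoveBottom_II (u1 u2 : Letter N) (w : Word N) (v : List Bool) {A : ℤ} {f : Col N → ZMod 2}
    (hf : D (K w v) A f) :
    dimK (u1 :: u2 :: w) (false :: false :: v) = dimK w v ∧
    D (K (u1 :: u2 :: w) (false :: false :: v)) A (fun x => f (tl (tl x))) := by
  have hmap : ∀ x ∈ K (u1 :: u2 :: w) (false :: false :: v),
      (MoveBottom_tl.comp MoveBottom_tl : Col N →ₗ[ZMod 2] Col N) x ∈ K w v := by
    rintro x ⟨h0, h1, h2, h3⟩
    have e1 : x 0 = x 1 := h1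
    have e2 : x 1 = x 2 := h2
    refine ⟨?_, h3⟩
    change Sym (x 2)
    rw [← e2, ← e1]; exact h0
  refine ⟨?_, D.comp' _ hmap hf⟩
  refine MoveBottom_dim0 _ hmap ?_ ?_
  · rintro y ⟨h0, h1⟩
    refine ⟨cs (y 0) (cs (y 0) y), ⟨h0, rfl, rfl, h1⟩, rfl⟩
  · rintro x ⟨h0, h1, h2, h3⟩ h
    have e1 : x 0 = x 1 := h1
    have e2 : x 1 = x 2 := h2
    have h' : tl (tl x) = 0 := h
    have h4 : ∀ t, x (t + 2) = 0 := fun t => congrFun h' t
    funext t
    match t with
    | 0 => rw [e1, e2]; exact h4 0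
    | 1 => rw [e2]; exact h4 0
    | t + 2 => exact h4 t

theorem MoveBottom_I (u1 : Letter N) (w : Word N) (v : List Bool) {A : ℤ} {f : Col N → ZMod 2}
    (hf : D (K w v) A f) :
    dimK (u1 :: w) (false :: v) = dimK w v ∧
    D (K (u1 :: w) (false :: v)) A (fun x => f (tl x)) := by
  have hmap : ∀ x ∈ K (u1 :: w) (false :: v),
      (MoveBottom_tl : Col N →ₗ[ZMod 2] Col N) x ∈ K w v := by
    rintro x ⟨h0, h1, h2⟩
    have e1 : x 0 = x 1 := h1
    refine ⟨?_, h2⟩
    change Sym (x 1)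
    rw [← e1]; exact h0
  refine ⟨?_, D.comp' _ hmap hf⟩
  refine MoveBottom_dim0 _ hmap ?_ ?_
  · rintro y ⟨h0, h1⟩
    refine ⟨cs (y 0) y, ⟨h0, rfl, h1⟩, rfl⟩
  · rintro x ⟨h0, h1, h2⟩ h
    have e1 : x 0 = x 1 := h1
    have h' : tl x = 0 := h
    have h4 : ∀ t, x (t + 1) = 0 := fun t => congrFun h' t
    funext t
    match t with
    | 0 => rw [e1]; exact h4 0
    | t + 1 => exact h4 t

/-- the map `(a, m, b, ...) ↦ (a', b, ...)` -/
def MoveBottom_th (p q : Fin N) : Col N →ₗ[ZMod 2] Col N where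
  toFun x := cs (fun j => if j = p ∨ j = q ∨ j = p.rev ∨ j = q.rev then x 2 p.rev else x 0 j)
    (tl (tl x))
  map_add' x y := by
    funext t
    cases t with
    | zero =>
      funext j
      simp only [cs_zero, Pi.add_apply]
      split_ifs <;> rfl
    | succ t => rfl
  map_smul' c x := by
    funext t
    cases t with
    | zero =>
      funext j
      simp only [cs_zero, Pi.smul_apply, RingHom.id_apply]
      split_ifs <;> rfl
    | succ t => rfl

theorem MoveBottom_th_zero (p q : Fin N) (x : Col N) (j : Fin N) :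
    MoveBottom_th p q x 0 j =
      if j = p ∨ j = q ∨ j = p.rev ∨ j = q.rev then x 2 p.rev else x 0 j := rfl

theorem MoveBottom_th_succ (p q : Fin N) (x : Col N) (t : ℕ) :
    MoveBottom_th p q x (t + 1) = x (t + 2) := rfl

theorem MoveBottom_th_tl (p q : Fin N) (x : Col N) :
    tl (MoveBottom_th p q x) = tl (tl x) := rfl

/-- the values of a valid colouring of the state `EE` at the four positions -/
theorem MoveBottom_EE_facts {p q : Fin N} (h : p ≠ q) (h1 : q ≠ p.rev) (h2 : p ≠ p.rev)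
    (h3 : q ≠ q.rev) {a m b : Row N} (ha : Sym a) (e1 : Rel p q true a m)
    (e2 : Rel p.rev q.rev true m b) :
    a p.rev = a p ∧ a q.rev = a p ∧ a q = a p ∧ m p = b p ∧ m q = b p ∧ b q = b p ∧
      m p.rev = a p ∧ m q.rev = a p ∧ b q.rev = b p.rev ∧
      (∀ j, j ≠ p → j ≠ q → j ≠ p.rev → j ≠ q.rev → a j = b j ∧ m j = b j) := by
  obtain ⟨f1, f2, f3⟩ := e1
  obtain ⟨g1, g2, g3⟩ := e2
  have h4 : p ≠ q.rev := fun e => h1 (by rw [e, Fin.rev_rev])
  have h5 : p.rev ≠ q.rev := fun e => h (Fin.rev_injective e)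
  have k1 : a p.rev = a p := ha p
  have k2 : a q.rev = a q := ha q
  have k3 : a p.rev = m p.rev := f3 _ h2.symm h1.symm
  have k4 : a q.rev = m q.rev := f3 _ h4.symm h3.symm
  have k5 : m p = b p := g3 _ h2 h4
  have k6 : m q = b q := g3 _ h1 h3
  refine ⟨k1, by rw [k2, f1], f1.symm, k5, by rw [← f2, k5], by rw [← k6, ← f2, k5],
    by rw [← k3, k1], by rw [← k4, k2, f1], g2.symm, ?_⟩
  intro j j1 j2 j3 j4
  exact ⟨(f3 j j1 j2).trans (g3 j j3 j4), g3 j j3 j4⟩

theorem MoveBottom_th_maps {p q : Fin N} (h : p ≠ q) (h1 : q ≠ p.rev) (h2 : p ≠ p.rev)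
    (h3 : q ≠ q.rev) (b : Bool) (w : Word N) (v : List Bool) :
    ∀ x ∈ K (wB2 p q h b w) (true :: true :: v),
      MoveBottom_th p q x ∈ K (⟨p, q, h, b⟩ :: w) (true :: v) := by
  rintro x ⟨h0, e1, e2, hv⟩
  have h4 : p ≠ q.rev := fun e => h1 (by rw [e, Fin.rev_rev])
  have hf := MoveBottom_EE_facts h h1 h2 h3 h0 e1 e2
  change Sym (x 0) at h0
  obtain ⟨k1, k2, k3, k4, k5, k6, k7, k8, k9, k10⟩ := hf
  change x 0 p.rev = x 0 p at k1
  change x 2 q = x 2 p at k6
  change x 2 q.rev = x 2 p.rev at k9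
  refine ⟨?_, ⟨?_, ?_, ?_⟩, hv⟩
  · intro j
    rw [MoveBottom_th_zero, MoveBottom_th_zero]
    have : (j.rev = p ∨ j.rev = q ∨ j.rev = p.rev ∨ j.rev = q.rev) ↔
        (j = p ∨ j = q ∨ j = p.rev ∨ j = q.rev) := by
      rw [Fin.rev_eq_iff, Fin.rev_eq_iff, Fin.rev_inj, Fin.rev_inj]
      tauto
    simp only [this]
    split_ifs
    · rfl
    · exact h0 j
  · change MoveBottom_th p q x 0 p = MoveBottom_th p q x 0 q
    rw [MoveBottom_th_zero, MoveBottom_th_zero, if_pos (Or.inl rfl), if_pos (Or.inr (Or.inl rfl))]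
  · exact k6.symm
  · intro j j1 j2
    change MoveBottom_th p q x 0 j = x 2 j
    rw [MoveBottom_th_zero]
    by_cases j3 : j = p.rev
    · rw [if_pos (Or.inr (Or.inr (Or.inl j3))), j3]
    by_cases j4 : j = q.rev
    · rw [if_pos (Or.inr (Or.inr (Or.inr j4))), j4, k9]
    rw [if_neg (by tauto)]
    exact (k10 j j1 j2 j3 j4).1

theorem MoveBottom_th_onto {p q : Fin N} (h : p ≠ q) (h1 : q ≠ p.rev) (h2 : p ≠ p.rev)
    (h3 : q ≠ q.rev) (b : Bool) (w : Word N) (v : List Bool) :
    ∀ y ∈ K (⟨p, q, h, b⟩ :: w) (true :: v),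
      ∃ x ∈ K (wB2 p q h b w) (true :: true :: v), MoveBottom_th p q x = y := by
  rintro y ⟨h0, ⟨f1, f2, f3⟩, hv⟩
  have h4 : p ≠ q.rev := fun e => h1 (by rw [e, Fin.rev_rev])
  change y 0 p = y 0 q at f1
  change y 1 p = y 1 q at f2
  change ∀ j, j ≠ p → j ≠ q → y 0 j = y 1 j at f3
  change Sym (y 0) at h0
  have k1 : y 0 p.rev = y 0 p := h0 p
  have k2 : y 0 q.rev = y 0 q := h0 q
  have k3 : y 0 p.rev = y 1 p.rev := f3 _ h2.symm h1.symm
  have k4 : y 0 q.rev = y 1 q.rev := f3 _ h4.symm h3.symm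
  set m : Row N := fun j => if j = p ∨ j = q then y 1 j else y 0 j with hm
  have m1 : m p = y 1 p := by rw [hm]; exact if_pos (Or.inl rfl)
  have m2 : m q = y 1 q := by rw [hm]; exact if_pos (Or.inr rfl)
  have m3 : m p.rev = y 0 p.rev := by
    rw [hm]; exact if_neg (by rintro (e | e); exacts [h2 e.symm, h1 e.symm])
  have m4 : m q.rev = y 0 q.rev := by
    rw [hm]; exact if_neg (by rintro (e | e); exacts [h4 e.symm, h3 e.symm])
  refine ⟨cs (y 0) (cs m (tl y)), ⟨h0, ⟨f1, ?_, ?_⟩, ⟨?_, ?_, ?_⟩, hv⟩, ?_⟩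
  · change m p = m q
    rw [m1, m2, f2]
  · intro j j1 j2
    change y 0 j = m j
    rw [hm]; exact (if_neg (by tauto)).symm
  · change m p.rev = m q.rev
    rw [m3, m4, k1, k2, f1]
  · change y 1 p.rev = y 1 q.rev
    rw [← k3, ← k4, k1, k2, f1]
  · intro j j1 j2
    change m j = y 1 j
    by_cases j3 : j = p
    · rw [j3, m1]
    by_cases j4 : j = q
    · rw [j4, m2]
    rw [← f3 j j3 j4, hm]
    exact if_neg (by tauto)
  · funext t
    match t with
    | 0 =>
      funext j
      rw [MoveBottom_th_zero]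
      change (if j = p ∨ j = q ∨ j = p.rev ∨ j = q.rev then y 1 p.rev else y 0 j) = y 0 j
      split_ifs with hj
      · rw [← k3]
        rcases hj with rfl | rfl | rfl | rfl
        · exact k1
        · rw [k1, f1]
        · rfl
        · rw [k1, k2, f1]
      · rfl
    | t + 1 => rfl

/-- the kernel element -/
def MoveBottom_c (p q : Fin N) : Col N :=
  cs (fun j => if j = p ∨ j = q ∨ j = p.rev ∨ j = q.rev then 1 else 0)
    (cs (fun j => if j = p.rev ∨ j = q.rev then 1 else 0) 0)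

theorem MoveBottom_c_mem {p q : Fin N} (h : p ≠ q) (h1 : q ≠ p.rev) (h2 : p ≠ p.rev)
    (h3 : q ≠ q.rev) (b : Bool) (w : Word N) (v : List Bool) :
    MoveBottom_c p q ∈ K (wB2 p q h b w) (true :: true :: v) := by
  have h4 : p ≠ q.rev := fun e => h1 (by rw [e, Fin.rev_rev])
  refine ⟨?_, ⟨?_, ?_, ?_⟩, ⟨?_, ?_, ?_⟩, Valid.zero⟩
  · intro j
    change (if j.rev = p ∨ j.rev = q ∨ j.rev = p.rev ∨ j.rev = q.rev then (1 : ZMod 2) else 0) =
      if j = p ∨ j = q ∨ j = p.rev ∨ j = q.rev then 1 else 0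
    have : (j.rev = p ∨ j.rev = q ∨ j.rev = p.rev ∨ j.rev = q.rev) ↔
        (j = p ∨ j = q ∨ j = p.rev ∨ j = q.rev) := by
      rw [Fin.rev_eq_iff, Fin.rev_eq_iff, Fin.rev_inj, Fin.rev_inj]
      tauto
    simp only [this]
  · change (if p = p ∨ p = q ∨ p = p.rev ∨ p = q.rev then (1 : ZMod 2) else 0) =
      if q = p ∨ q = q ∨ q = p.rev ∨ q = q.rev then 1 else 0
    simp
  · change (if p = p.rev ∨ p = q.rev then (1 : ZMod 2) else 0) =
      if q = p.rev ∨ q = q.rev then 1 else 0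
    rw [if_neg (by tauto), if_neg (by tauto)]
  · intro j j1 j2
    change (if j = p ∨ j = q ∨ j = p.rev ∨ j = q.rev then (1 : ZMod 2) else 0) =
      if j = p.rev ∨ j = q.rev then 1 else 0
    have : (j = p ∨ j = q ∨ j = p.rev ∨ j = q.rev) ↔ (j = p.rev ∨ j = q.rev) := by tauto
    simp only [this]
  · change (if p.rev = p.rev ∨ p.rev = q.rev then (1 : ZMod 2) else 0) =
      if q.rev = p.rev ∨ q.rev = q.rev then 1 else 0
    simp
  · rfl
  · intro j j1 j2
    change (if j = p.rev ∨ j = q.rev then (1 : ZMod 2) else 0) = 0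
    exact if_neg (by tauto)

theorem MoveBottom_th_ker {p q : Fin N} (h : p ≠ q) (h1 : q ≠ p.rev) (h2 : p ≠ p.rev)
    (h3 : q ≠ q.rev) (b : Bool) (w : Word N) (v : List Bool) :
    ∀ x ∈ K (wB2 p q h b w) (true :: true :: v),
      MoveBottom_th p q x = 0 → x = 0 ∨ x = MoveBottom_c p q := by
  rintro x ⟨h0, e1, e2, hv⟩ hx
  obtain ⟨k1, k2, k3, k4, k5, k6, k7, k8, k9, k10⟩ :=
    MoveBottom_EE_facts h h1 h2 h3 h0 e1 e2
  change x 0 p.rev = x 0 p at k1
  change x 0 q.rev = x 0 p at k2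
  change x 0 q = x 0 p at k3
  change x 1 p = x 2 p at k4
  change x 1 q = x 2 p at k5
  change x 1 p.rev = x 0 p at k7
  change x 1 q.rev = x 0 p at k8
  change ∀ j, j ≠ p → j ≠ q → j ≠ p.rev → j ≠ q.rev → x 0 j = x 2 j ∧ x 1 j = x 2 j at k10
  have h4 : p ≠ q.rev := fun e => h1 (by rw [e, Fin.rev_rev])
  have ht : ∀ t, x (t + 2) = 0 := fun t => congrFun hx (t + 1)
  have h20 : x 2 = 0 := ht 0
  rw [h20] at k4 k5 k10
  have hc0 : ∀ α : ZMod 2, α = 0 ∨ α = 1 := by decide
  rcases hc0 (x 0 p) with hα | hα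
  · left
    funext t
    match t with
    | 0 =>
      funext j
      change x 0 j = 0
      by_cases j1 : j = p
      · rw [j1, hα]
      by_cases j2 : j = q
      · rw [j2, k3, hα]
      by_cases j3 : j = p.rev
      · rw [j3, k1, hα]
      by_cases j4 : j = q.rev
      · rw [j4, k2, hα]
      exact (k10 j j1 j2 j3 j4).1
    | 1 =>
      funext j
      change x 1 j = 0
      by_cases j1 : j = p
      · rw [j1, k4]; rfl
      by_cases j2 : j = q
      · rw [j2, k5]; rfl
      by_cases j3 : j = p.rev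
      · rw [j3, k7, hα]
      by_cases j4 : j = q.rev
      · rw [j4, k8, hα]
      exact (k10 j j1 j2 j3 j4).2
    | t + 2 => exact ht t
  · right
    funext t
    match t with
    | 0 =>
      funext j
      change x 0 j = if j = p ∨ j = q ∨ j = p.rev ∨ j = q.rev then 1 else 0
      by_cases j1 : j = p
      · rw [if_pos (by tauto), j1, hα]
      by_cases j2 : j = q
      · rw [if_pos (by tauto), j2, k3, hα]
      by_cases j3 : j = p.rev
      · rw [if_pos (by tauto), j3, k1, hα]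
      by_cases j4 : j = q.rev
      · rw [if_pos (by tauto), j4, k2, hα]
      rw [if_neg (by tauto)]
      exact (k10 j j1 j2 j3 j4).1
    | 1 =>
      funext j
      change x 1 j = if j = p.rev ∨ j = q.rev then 1 else 0
      by_cases j1 : j = p
      · rw [if_neg (by rw [j1]; tauto), j1, k4]; rfl
      by_cases j2 : j = q
      · rw [if_neg (by rw [j2]; tauto), j2, k5]; rfl
      by_cases j3 : j = p.rev
      · rw [if_pos (by tauto), j3, k7, hα]
      by_cases j4 : j = q.rev
      · rw [if_pos (by tauto), j4, k8, hα]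
      rw [if_neg (by tauto)]
      exact (k10 j j1 j2 j3 j4).2
    | t + 2 => exact ht t

theorem MoveBottom_EE (hN : Even N) {p q : Fin N} (h : p ≠ q) (h1 : q ≠ p.rev) (h2 : p ≠ p.rev)
    (h3 : q ≠ q.rev) (b : Bool) (w : Word N) (v : List Bool) (hv : v.length = w.length) {B : ℤ}
    {f : Col N → ZMod 2} (hf : D (K w v) (dimK w v + B) f) :
    D (K (wB2 p q h b w) (true :: true :: v)) (dimK (wB2 p q h b w) (true :: true :: v) + B)
      (fun x => open Classical in if Sym (x 2) then f (tl (tl x)) else 0) := by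
  obtain ⟨d1, hf1⟩ := MoveBottom_I ⟨p, q, h, b⟩ w v hf
  rw [← d1] at hf1
  have hf2 := D.sad (w1 := []) (v1 := []) hN rfl hv ⟨p, q, h, b⟩ false hf1
  have hf3 := D.comp' (MoveBottom_th p q) (MoveBottom_th_maps h h1 h2 h3 b w v) hf2
  have hd : dimK (wB2 p q h b w) (true :: true :: v) = dimK (⟨p, q, h, b⟩ :: w) (true :: v) + 1 :=
    MoveBottom_dim1 _ (MoveBottom_th_maps h h1 h2 h3 b w v) (MoveBottom_th_onto h h1 h2 h3 b w v)
      (MoveBottom_c p q) (MoveBottom_c_mem h h1 h2 h3 b w v)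
      (fun e => by
        have e' : MoveBottom_c p q 0 p = 0 := by rw [e]; rfl
        have e'' : MoveBottom_c p q 0 p = 1 := if_pos (Or.inl rfl)
        rw [e''] at e'
        exact one_ne_zero e')
      (by
        funext t
        match t with
        | 0 =>
          funext j
          rw [MoveBottom_th_zero]
          change (if j = p ∨ j = q ∨ j = p.rev ∨ j = q.rev then (0 : ZMod 2) else
            if j = p ∨ j = q ∨ j = p.rev ∨ j = q.rev then 1 else 0) = 0
          split_ifs <;> rfl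
        | t + 1 => rfl)
      (MoveBottom_th_ker h h1 h2 h3 b w v)
  have hA : (dimK (⟨p, q, h, b⟩ :: w) (true :: v) : ℤ) + B + 1 =
      dimK (wB2 p q h b w) (true :: true :: v) + B := by
    rw [hd]; push_cast; ring
  have hf4 : D (K (wB2 p q h b w) (true :: true :: v))
      (dimK (wB2 p q h b w) (true :: true :: v) + B) (fun x => open Classical in
        if Rel p q false (MoveBottom_th p q x 0) (MoveBottom_th p q x 1) then
          f (tl (MoveBottom_th p q x)) else 0) := by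
    rw [← hA]; exact hf3
  refine hf4.congr ?_
  rintro x hx
  have hth := (MoveBottom_th_maps h h1 h2 h3 b w v x hx).1
  obtain ⟨h0, e1, e2, hv⟩ := hx
  obtain ⟨k1, k2, k3, k4, k5, k6, k7, k8, k9, k10⟩ :=
    MoveBottom_EE_facts h h1 h2 h3 h0 e1 e2
  have key : Rel p q false (MoveBottom_th p q x 0) (MoveBottom_th p q x 1) ↔ Sym (x 2) := by
    change MoveBottom_th p q x 0 = MoveBottom_th p q x 1 ↔ Sym (x 2)
    constructor
    · intro e
      change MoveBottom_th p q x 0 = x 2 at e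
      rw [← e]; exact hth
    · intro hs
      have s1 : x 2 p.rev = x 2 p := hs p
      funext j
      rw [MoveBottom_th_zero]
      change _ = x 2 j
      split_ifs with hj
      · rcases hj with rfl | rfl | rfl | rfl
        · exact s1
        · rw [s1]; exact k6.symm
        · rfl
        · exact k9.symm
      · push Not at hj
        exact (k10 j hj.1 hj.2.1 hj.2.2.1 hj.2.2.2).1
  by_cases hs : Sym (x 2)
  · rw [if_pos (key.2 hs), if_pos hs]; rfl
  · rw [if_neg (fun e => hs (key.1 e)), if_neg hs]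

theorem MoveBottom_nxt_rev {p q : Fin N} (h : p ≠ q) (h1 : q ≠ p.rev) (h2 : p ≠ p.rev)
    (h3 : q ≠ q.rev) (b : Bool) {r : Row N} (hr : Sym r) :
    (nxt ⟨p, q, h, b⟩ r p.rev = nxt ⟨p, q, h, b⟩ r q.rev) ↔ (r p = r q) := by
  have h4 : q.rev ≠ p := fun e => h1 (by rw [← e, Fin.rev_rev])
  have e : ∀ j, j ≠ p → j ≠ q → nxt ⟨p, q, h, b⟩ r j = r j := by
    intro j j1 j2
    unfold nxt
    split_ifs
    · unfold flip
      exact if_neg (by tauto)
    · rfl
  rw [e _ h2.symm h1.symm, e _ h4 h3.symm, hr p, hr q]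

end MoveBottomAux

/-- PROOF. `sh` of the two letters is `1 - 2 = -1` in both cases (`r p = r q` iff `r p.rev = r q.rev`, opposite signs), `nv` at `II` and at `EE` is 1. So compare the dimensions. `II`: `x ↦ tl (tl x)` is an isomorphism `K (u1 :: u2 :: w) (II :: v) → K w v` (rows `a = m = b`), dimension equal. `EE`: (i) pull back to `K (u1 :: w) (false :: v)` (isomorphism `tl`); (ii) `D.sad` with `w1 = []`, `e = false`, to the state `true` of the word `u1 :: w`: `+1`; the space `K (u1 :: w) (true :: v)` consists of the `(a', b, ...)` with `a'` symmetric, `E` at `p, q` between `a'` and `b`: so `a' p = a' q = a' p.rev = a' q.rev = b p.rev = b q.rev`, `b p = b q`; the function is `[a' = b] g v (b, ...)`; (iii) pull back along the onto linear map `K (u1 :: u2 :: w) (EE :: v) → K (u1 :: w) (true :: v)`, `(a, m, b, ...) ↦ (a', b, ...)` with `a' = a` except that the four labels are replaced by `b p.rev`; kernel `{0, c}` with `c = (e_p + e_q + e_{p.rev} + e_{q.rev},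 e_{p.rev} + e_{q.rev}, 0, 0, ...)`; section `(a', b, ...) ↦ (a', m, b, ...)` with `m` equal to `b` at `p, q` and to `a'` elsewhere. Dimension `+1`. The result is `[a' = b] g`, and `a' = b` iff `b` is symmetric (given validity: `a'` agrees with `b` outside of `p, q` always, and `a' p = b p.rev`). Count: `dimK_w + const`, saddle: `dimK_E + const + 1 = dimK_EE + const`. -/
theorem phiB2_lev (hN : Even N) (p q : Fin N) (h : p ≠ q) (h1 : q ≠ p.rev) (h2 : p ≠ p.rev)
    (h3 : q ≠ q.rev) (b : Bool) (w : Word N) (r : Row N) (hr : Sym r) (l : ℤ) (g : Coch N)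
    (hg : Lev w (fin (wB2 p q h b []) r) l g) : Lev (wB2 p q h b w) r l (phiB2 g) := by
  rw [MoveBottom_lev_iff] at hg ⊢
  intro v hv
  have hsh : sh (wB2 p q h b w) r = -1 + sh w (fin (wB2 p q h b []) r) := by
    have e := MoveBottom_nxt_rev h h1 h2 h3 b hr
    change (if (r p = r q) ↔ b = true then (1 : ℤ) else -2) +
      ((if (nxt ⟨p, q, h, b⟩ r p.rev = nxt ⟨p, q, h, b⟩ r q.rev) ↔ (!b) = true then (1 : ℤ) else -2)
        + sh w (fin (wB2 p q h b []) r)) = _
    by_cases hpq : r p = r q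
    · have e' := e.2 hpq
      cases b <;> simp [hpq, e'] <;> ring
    · have e' : ¬ (nxt ⟨p, q, h, b⟩ r p.rev = nxt ⟨p, q, h, b⟩ r q.rev) := fun h' => hpq (e.1 h')
      cases b <;> simp [hpq, e'] <;> ring
  match v, hv with
  | false :: false :: v, hv =>
    have hv' : v.length = w.length := by simpa [wB2] using hv
    obtain ⟨hd, hD⟩ := MoveBottom_II ⟨p, q, h, b⟩
      ⟨p.rev, q.rev, fun h' => h (Fin.rev_injective h'), !b⟩ w v (hg v hv')
    have hnv : nv (wB2 p q h b w) (false :: false :: v) = 1 + nv w v := by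
      cases b <;> simp [wB2, nv]
    have hA : (dimK (wB2 p q h b w) (false :: false :: v) : ℤ) +
        nv (wB2 p q h b w) (false :: false :: v) + sh (wB2 p q h b w) r - l =
        (dimK w v : ℤ) + nv w v + sh w (fin (wB2 p q h b []) r) - l := by
      rw [hsh, hnv]
      have : dimK (wB2 p q h b w) (false :: false :: v) = dimK w v := hd
      rw [this]; ring
    rw [hA]
    exact hD
  | true :: true :: v, hv =>
    have hv' : v.length = w.length := by simpa [wB2] using hv
    have hgv := hg v hv'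
    have e1 : (dimK w v : ℤ) + nv w v + sh w (fin (wB2 p q h b []) r) - l =
        dimK w v + (nv w v + sh w (fin (wB2 p q h b []) r) - l) := by ring
    rw [e1] at hgv
    have hD := MoveBottom_EE hN h h1 h2 h3 b w v hv' hgv
    have hnv : nv (wB2 p q h b w) (true :: true :: v) = 1 + nv w v := by
      cases b <;> simp [wB2, nv]
    have hA : (dimK (wB2 p q h b w) (true :: true :: v) : ℤ) +
        nv (wB2 p q h b w) (true :: true :: v) + sh (wB2 p q h b w) r - l =
        dimK (wB2 p q h b w) (true :: true :: v) +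
          (nv w v + sh w (fin (wB2 p q h b []) r) - l) := by
      rw [hsh, hnv]; ring
    rw [hA]
    exact hD
  | false :: true :: v, hv => exact D.zero
  | true :: false :: v, hv => exact D.zero
  | [false], hv => exact D.zero
  | [true], hv => exact D.zero
  | [], hv => exact D.zero

theorem good_B2 (hN : Even N) (p q : Fin N) (h : p ≠ q) (h1 : q ≠ p.rev) (h2 : p ≠ p.rev)
    (h3 : q ≠ q.rev) (b : Bool) (w : Word N) (r : Row N) (hr : Sym r) (l : ℤ)
    (hg : Good w (fin (wB2 p q h b []) r) l) : Good (wB2 p q h b w) r l := by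
  simpa using Good.of_bottom (c := 0) (phiB2_isMapK p q h h1 h2 h3 b w)
    (by simpa [wB2] using phiB2_so p q h h1 h2 h3 b w r hr)
    (by simpa using phiB2_lev hN p q h h1 h2 h3 b w r hr l) hg

end Pool.Agent.HK
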