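import Pool.Agent.H.MP_cd3d06_an.K.Sad

/-!
Part A: exchange of two letters with disjoint positions; exchange of the two positions of a letter.
-/

namespace Pool.Agent.HK

variable {N : ℕ}

def phiFar : Coch N → Coch N := fun g v x =>
  match v with
  | e2 :: e1 :: v => g (e1 :: e2 :: v) (fun t => if t = 1 then x 0 + x 1 + x 2 else x t)
  | _ => 0

/-- the letters have disjoint positions -/
def Letter.Disj (l1 l2 : Letter N) : Prop :=
  l1.p ≠ l2.p ∧ l1.p ≠ l2.q ∧ l1.q ≠ l2.p ∧ l1.q ≠ l2.q

/-- the exchange of the rows as a linear map -/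
def moveFarL : Col N →ₗ[ZMod 2] Col N where
  toFun x := fun t => if t = 1 then x 0 + x 1 + x 2 else x t
  map_add' x y := by
    funext t
    by_cases ht : t = 1
    · simp only [ht, if_true, Pi.add_apply]
      abel
    · simp only [ht, if_false, Pi.add_apply]
  map_smul' c x := by
    funext t
    by_cases ht : t = 1
    · simp only [ht, if_true, Pi.smul_apply, RingHom.id_apply, smul_add]
    · simp only [ht, if_false, Pi.smul_apply, RingHom.id_apply]

theorem moveFarL_apply (x : Col N) (t : ℕ) :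
    moveFarL x t = if t = 1 then x 0 + x 1 + x 2 else x t := rfl

theorem moveFarL_zero (x : Col N) : moveFarL x 0 = x 0 := rfl

theorem moveFarL_one (x : Col N) : moveFarL x 1 = x 0 + x 1 + x 2 := rfl

theorem moveFarL_two (x : Col N) : moveFarL x 2 = x 2 := rfl

theorem moveFar_addself (a : Row N) : a + a = 0 := by
  funext j
  exact CharTwo.add_self_eq_zero (a j)

theorem moveFar_cancel (a b c : Row N) : a + (a + b + c) + c = b := by
  have h1 := moveFar_addself a
  have h2 := moveFar_addself c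
  calc a + (a + b + c) + c = (a + a) + b + (c + c) := by abel
    _ = b := by rw [h1, h2, zero_add, add_zero]

theorem moveFarL_farL (x : Col N) : moveFarL (moveFarL x) = x := by
  funext t
  rw [moveFarL_apply]
  by_cases ht : t = 1
  · rw [if_pos ht, moveFarL_zero, moveFarL_one, moveFarL_two, moveFar_cancel, ht]
  · rw [if_neg ht, moveFarL_apply, if_neg ht]

theorem moveFarL_tl (x : Col N) : tl (tl (moveFarL x)) = tl (tl x) := by
  funext t
  simp only [tl_apply]
  rw [moveFarL_apply, if_neg (by omega)]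

theorem phiFar_cons (g : Coch N) (e1 e2 : Bool) (v : List Bool) (x : Col N) :
    phiFar g (e2 :: e1 :: v) x = g (e1 :: e2 :: v) (moveFarL x) := rfl

/-- exchange of the relations of two letters with disjoint positions -/
theorem moveFar_rel {l1 l2 : Letter N} (h : l1.Disj l2) {e1 e2 : Bool} {a b c : Row N}
    (h2 : Rel l2.p l2.q e2 a b) (h1 : Rel l1.p l1.q e1 b c) :
    Rel l1.p l1.q e1 a (a + b + c) ∧ Rel l2.p l2.q e2 (a + b + c) c := by
  obtain ⟨d1, d2, d3, d4⟩ := h
  cases e2
  · have hab : a = b := h2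
    subst hab
    rw [moveFar_addself, zero_add]
    exact ⟨h1, rfl⟩
  · cases e1
    · have hbc : b = c := h1
      subst hbc
      rw [add_assoc, moveFar_addself, add_zero]
      exact ⟨rfl, h2⟩
    · obtain ⟨u1, u2, u3⟩ := h2
      obtain ⟨v1, v2, v3⟩ := h1
      have key1 : ∀ j, a j = b j → (a + b + c) j = c j := by
        intro j hj
        simp only [Pi.add_apply, hj]
        rw [CharTwo.add_self_eq_zero, zero_add]
      have key2 : ∀ j, b j = c j → (a + b + c) j = a j := by
        intro j hj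
        simp only [Pi.add_apply, hj, add_assoc]
        rw [CharTwo.add_self_eq_zero, add_zero]
      have a1 := u3 l1.p d1 d2
      have a2 := u3 l1.q d3 d4
      have b1 := v3 l2.p (Ne.symm d1) (Ne.symm d3)
      have b2 := v3 l2.q (Ne.symm d2) (Ne.symm d4)
      refine ⟨⟨by rw [a1, a2]; exact v1, ?_, ?_⟩, ⟨?_, ?_, ?_⟩⟩
      · rw [key1 _ a1, key1 _ a2]; exact v2
      · intro j hj hj'
        exact (key2 j (v3 j hj hj')).symm
      · rw [key2 _ b1, key2 _ b2]; exact u1
      · rw [← b1, ← b2]; exact u2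
      · intro j hj hj'
        exact key1 j (u3 j hj hj')

theorem Letter.Disj.symm {l1 l2 : Letter N} (h : l1.Disj l2) : l2.Disj l1 :=
  ⟨Ne.symm h.1, Ne.symm h.2.2.1, Ne.symm h.2.1, Ne.symm h.2.2.2⟩

theorem moveFar_valid {l1 l2 : Letter N} (h : l1.Disj l2) {w : Word N} {e1 e2 : Bool}
    {v : List Bool} {x : Col N} (hx : Valid (l2 :: l1 :: w) (e2 :: e1 :: v) x) :
    Valid (l1 :: l2 :: w) (e1 :: e2 :: v) (moveFarL x) := by
  obtain ⟨hx2, hx1, hx0⟩ := hx
  have hr := moveFar_rel h hx2 hx1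
  refine ⟨hr.1, hr.2, ?_⟩
  rw [moveFarL_tl]
  exact hx0

theorem moveFar_rel2 {l1 l2 : Letter N} (h : l1.Disj l2) {e1 e : Bool} {a b c : Row N}
    (h1 : Rel l1.p l1.q e1 b c) (h1' : Rel l1.p l1.q e1 a (a + b + c)) :
    Rel l2.p l2.q e a b ↔ Rel l2.p l2.q e (a + b + c) c := by
  constructor
  · intro h2
    exact (moveFar_rel h h2 h1).2
  · intro h2
    have h3 := (moveFar_rel h.symm h1' h2).1
    rw [moveFar_cancel] at h3
    exact h3

theorem moveFar_rel1 {l1 l2 : Letter N} (h : l1.Disj l2) {e2 e : Bool} {a b c : Row N}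
    (h2 : Rel l2.p l2.q e2 a b) (h2' : Rel l2.p l2.q e2 (a + b + c) c) :
    Rel l1.p l1.q e b c ↔ Rel l1.p l1.q e a (a + b + c) := by
  constructor
  · intro h1
    exact (moveFar_rel h h2 h1).1
  · intro h1
    have h3 := (moveFar_rel h.symm h1 h2').2
    rw [moveFar_cancel] at h3
    exact h3

theorem moveFarL_cs (a b : Row N) (y : Col N) :
    moveFarL (cs a (cs b y)) = cs a (cs (a + b + y 0) y) := by
  funext t
  rw [moveFarL_apply]
  by_cases ht : t = 1
  · rw [if_pos ht, ht]
    rfl
  · rw [if_neg ht]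
    match t, ht with
    | 0, _ => rfl
    | 1, ht => exact absurd rfl ht
    | n + 2, _ => rfl

/-- the indicator of a proposition -/
noncomputable def moveFarInd (c : Prop) : ZMod 2 := open Classical in if c then 1 else 0

theorem moveFarInd_congr {c c' : Prop} (h : c ↔ c') : moveFarInd c = moveFarInd c' := by
  rw [propext h]

theorem moveFar_ite (c : Prop) [Decidable c] (a : ZMod 2) : (if c then a else 0) = moveFarInd c * a := by
  unfold moveFarInd
  by_cases h : c
  · rw [if_pos h, if_pos h, one_mul]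
  · rw [if_neg h, if_neg h, zero_mul]

theorem moveFar_dd_cons (l : Letter N) (w : Word N) (g : Coch N) (e : Bool) (v : List Bool)
    (x : Col N) : dd (l :: w) g (e :: v) x =
      moveFarInd (e = !l.pos ∧ Rel l.p l.q l.pos (x 0) (x 1)) * g (l.pos :: v) x +
        dd w (fun v' y => g (e :: v') (cs (x 0) y)) v (tl x) := by
  classical
  rw [← moveFar_ite]
  simp only [dd]

theorem moveFar_so_cons (l : Letter N) (w : Word N) (r : Row N) (e : Bool) (v : List Bool)
    (x : Col N) : so (l :: w) r (e :: v) x =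
      moveFarInd (x 0 = r ∧ e = eo l r) * so w (nxt l r) v (tl x) := by
  classical
  rw [← moveFar_ite]
  simp only [so]

theorem moveFar_length2 {v : List Bool} {l1 l2 : Letter N} {w : Word N}
    (hv : v.length = (l1 :: l2 :: w).length) :
    ∃ e2 e1 v', v = e2 :: e1 :: v' ∧ v'.length = w.length := by
  match v, hv with
  | [], hv => simp at hv
  | [e], hv => simp at hv
  | e2 :: e1 :: v', hv => exact ⟨e2, e1, v', rfl, by simpa using hv⟩

theorem moveFar_dd_zero (w : Word N) (v : List Bool) (x : Col N) :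
    dd w (fun _ _ => (0 : ZMod 2)) v x = 0 := by
  have h := dd_add w (fun _ _ => (0 : ZMod 2)) (fun _ _ => (0 : ZMod 2)) v x
  simp only [add_zero] at h
  have h2 := CharTwo.add_self_eq_zero (dd w (fun _ _ => (0 : ZMod 2)) v x)
  rw [← h] at h2
  exact h2

theorem moveFar_so_ne {w : Word N} {r : Row N} {v : List Bool} {x : Col N} (h : so w r v x ≠ 0) :
    x 0 = r := by
  match w, v, h with
  | [], _, h =>
    by_contra hc
    exact h (if_neg hc)
  | _ :: _, [], h => exact absurd rfl h
  | l :: w, e :: v, h =>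
    by_contra hc
    exact h (if_neg (fun h' => hc h'.1))

theorem moveFar_nxt_apply (l : Letter N) (r : Row N) (j : Fin N) :
    nxt l r j = if r l.p = r l.q ∧ (j = l.p ∨ j = l.q) then r j + 1 else r j := by
  unfold nxt flip
  by_cases h1 : r l.p = r l.q
  · simp only [h1, if_true, true_and]
  · simp only [h1, if_false, false_and]

theorem moveFar_nxt_far {l : Letter N} (r : Row N) {j : Fin N} (h1 : j ≠ l.p) (h2 : j ≠ l.q) :
    nxt l r j = r j := by
  rw [moveFar_nxt_apply, if_neg]
  rintro ⟨_, h | h⟩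
  · exact h1 h
  · exact h2 h

theorem moveFar_nxt_congr {l : Letter N} {r r' : Row N} {j : Fin N} (hp : r l.p = r' l.p)
    (hq : r l.q = r' l.q) (hj : r j = r' j) : nxt l r j = nxt l r' j := by
  rw [moveFar_nxt_apply, moveFar_nxt_apply, hp, hq, hj]

theorem moveFar_nxt1 {l1 l2 : Letter N} (h : l1.Disj l2) (r : Row N) (j : Fin N)
    (hj : j = l1.p ∨ j = l1.q) : nxt l2 (nxt l1 r) j = nxt l1 r j := by
  obtain ⟨d1, d2, d3, d4⟩ := h
  rcases hj with rfl | rfl
  · exact moveFar_nxt_far _ d1 d2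
  · exact moveFar_nxt_far _ d3 d4

theorem moveFar_nxt2 {l1 l2 : Letter N} (h : l1.Disj l2) (r : Row N) (j : Fin N)
    (hj : ¬ (j = l1.p ∨ j = l1.q)) : nxt l2 (nxt l1 r) j = nxt l2 r j := by
  obtain ⟨d1, d2, d3, d4⟩ := h
  push Not at hj
  exact moveFar_nxt_congr (moveFar_nxt_far _ (Ne.symm d1) (Ne.symm d3)) (moveFar_nxt_far _ (Ne.symm d2) (Ne.symm d4))
    (moveFar_nxt_far _ hj.1 hj.2)

theorem moveFar_nxt_comm {l1 l2 : Letter N} (h : l1.Disj l2) (r : Row N) :
    nxt l2 (nxt l1 r) = nxt l1 (nxt l2 r) := by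
  funext j
  by_cases hj : j = l1.p ∨ j = l1.q
  · rw [moveFar_nxt1 h r j hj]
    have hj2 : ¬ (j = l2.p ∨ j = l2.q) := by
      obtain ⟨d1, d2, d3, d4⟩ := h
      rcases hj with rfl | rfl
      · rintro (h | h)
        · exact d1 h
        · exact d2 h
      · rintro (h | h)
        · exact d3 h
        · exact d4 h
    rw [moveFar_nxt2 h.symm r j hj2]
  · rw [moveFar_nxt2 h r j hj]
    push Not at hj
    rw [moveFar_nxt_far _ hj.1 hj.2]

theorem moveFar_nxt_sum {l1 l2 : Letter N} (h : l1.Disj l2) (r : Row N) :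
    r + nxt l2 r + nxt l2 (nxt l1 r) = nxt l1 r := by
  funext j
  simp only [Pi.add_apply]
  by_cases hj : j = l1.p ∨ j = l1.q
  · rw [moveFar_nxt1 h r j hj]
    have : nxt l2 r j = r j := by
      obtain ⟨d1, d2, d3, d4⟩ := h
      rcases hj with rfl | rfl
      · exact moveFar_nxt_far _ d1 d2
      · exact moveFar_nxt_far _ d3 d4
    rw [this, CharTwo.add_self_eq_zero, zero_add]
  · rw [moveFar_nxt2 h r j hj, add_assoc, CharTwo.add_self_eq_zero, add_zero]
    push Not at hj
    rw [moveFar_nxt_far _ hj.1 hj.2]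

theorem moveFar_eo {l1 l2 : Letter N} (h : l1.Disj l2) (r : Row N) :
    eo l1 (nxt l2 r) = eo l1 r := by
  obtain ⟨d1, d2, d3, d4⟩ := h
  unfold eo
  rw [moveFar_nxt_far _ d1 d2, moveFar_nxt_far _ d3 d4]

theorem moveFar_iff {l1 l2 : Letter N} (h : l1.Disj l2) (r : Row N) :
    (nxt l2 r l1.p = nxt l2 r l1.q) ↔ (r l1.p = r l1.q) := by
  obtain ⟨d1, d2, d3, d4⟩ := h
  rw [moveFar_nxt_far _ d1 d2, moveFar_nxt_far _ d3 d4]

/-- the fibration (an isomorphism) given by the exchange -/
def moveFarFib {l1 l2 : Letter N} (h : l1.Disj l2) (w : Word N) (e1 e2 : Bool) (v : List Bool) :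
    Fib (l2 :: l1 :: w) (e2 :: e1 :: v) (l1 :: l2 :: w) (e1 :: e2 :: v) 0 where
  π := moveFarL
  s := moveFarL
  c := 0
  hπ := fun _ hx => moveFar_valid h hx
  π0 := fun x _ => moveFarL_zero x
  hs := fun _ hx => moveFar_valid h.symm hx
  s0 := fun x _ => moveFarL_zero x
  πs := fun y _ => moveFarL_farL y
  hc := Valid.zero
  c0 := rfl
  πc := by rw [map_zero]
  fib := fun x _ => Or.inl (moveFarL_farL x).symm
  ck := Or.inl ⟨rfl, rfl⟩

theorem moveFar_nv (l1 l2 : Letter N) (w w1 : Word N) (e1 e2 : Bool) (v v1 : List Bool)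
    (hv : v1.length = w1.length) :
    nv (w1 ++ l2 :: l1 :: w) (v1 ++ e2 :: e1 :: v) =
      nv (w1 ++ l1 :: l2 :: w) (v1 ++ e1 :: e2 :: v) := by
  induction w1 generalizing v1 with
  | nil =>
    have : v1 = [] := by simpa using hv
    subst this
    simp only [List.nil_append, nv]
    ring
  | cons l w1 ih =>
    match v1, hv with
    | [], hv => simp at hv
    | e :: v1, hv =>
      simp only [List.cons_append, nv]
      rw [ih v1 (by simpa using hv)]

theorem moveFar_sh {l1 l2 : Letter N} (h : l1.Disj l2) (w w1 : Word N) (r : Row N) :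
    sh (w1 ++ l2 :: l1 :: w) r = sh (w1 ++ l1 :: l2 :: w) r := by
  induction w1 generalizing r with
  | nil =>
    simp only [List.nil_append, sh]
    rw [moveFar_nxt_comm h r]
    simp only [moveFar_iff h r, moveFar_iff h.symm r]
    ring
  | cons l w1 ih =>
    simp only [List.cons_append, sh]
    rw [ih]

/-- PROOF. For a valid `x` of the target word (`l2` first with state `e2`, then `l1` with state `e1`) the row `x 0 + x 1 + x 2` is `x 2` at the positions of `l1` and `x 0` elsewhere, so the new colouring is valid for `l1 :: l2 :: w` in the state `e1 :: e2 :: v` (and this is a bijection between valid colourings: the formula is an involution). The differential of `l1`: in the target its condition is `Rel l1 (x 1) (x 2)`, in the source `Rel l1 (x 0) (x 0 + x 1 + x 2)`: equivalent, because `x 1` and `x 0` agree at the positions of `l1` and `x 2` and `x 0 + x 1 + x 2` too, and elsewhere `x 1 = x 2` iff ... (for valid `x`: outside of the positions of `l1` one has `x 1 = x 2` anyway).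 Same for `l2`. For the letters of `w`: row 1 is not used, `cs (x 0) (cs (x 1) y)` is mapped to `cs (x 0) (cs (x 0 + x 1 + y 0) y)` and `y 0 = x 2` (use `dd_loc`). -/
theorem phiFar_isMap (l1 l2 : Letter N) (h : l1.Disj l2) (w : Word N) :
    IsMap (l1 :: l2 :: w) (l2 :: l1 :: w) phiFar where
  add g g' v x hv _ := by
    obtain ⟨e2, e1, v', rfl, _⟩ := moveFar_length2 hv
    rfl
  loc g g' v x hv hx hg := by
    obtain ⟨e2, e1, v', rfl, hv'⟩ := moveFar_length2 hv
    exact hg (e1 :: e2 :: v') (moveFarL x) (by simp [hv']) (moveFar_valid h hx) rfl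
  chain g v x hv hx := by
    obtain ⟨e2, e1, v', rfl, hv'⟩ := moveFar_length2 hv
    rw [phiFar_cons]
    obtain ⟨hx2, hx1, hx0⟩ := hx
    simp only [tl_apply, zero_add] at hx1
    have hr := moveFar_rel h hx2 hx1
    simp only [moveFar_dd_cons, phiFar_cons, tl_apply, zero_add, moveFarL_tl, cs_tl, moveFarL_cs]
    have hdd : dd w (fun v'' y => g (e1 :: e2 :: v'') (cs (x 0) (cs (x 0 + x 1 + y 0) y))) v'
        (tl (tl x)) = dd w (fun v'' y => g (e1 :: e2 :: v'')
          (cs (moveFarL x 0) (cs (moveFarL x 1) y))) v' (tl (tl x)) := by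
      apply dd_loc hv' hx0
      intro v'' y _ _ hy0
      have hy : y 0 = x 2 := hy0
      show g (e1 :: e2 :: v'') (cs (x 0) (cs (x 0 + x 1 + y 0) y)) =
        g (e1 :: e2 :: v'') (cs (moveFarL x 0) (cs (moveFarL x 1) y))
      rw [hy]
      rfl
    have hA : (e2 = !l2.pos ∧ Rel l2.p l2.q l2.pos (x 0) (x 1)) ↔
        (e2 = !l2.pos ∧ Rel l2.p l2.q l2.pos (moveFarL x 1) (moveFarL x 2)) := by
      rw [moveFarL_one, moveFarL_two, moveFar_rel2 h hx1 hr.1]
    have hB : (e1 = !l1.pos ∧ Rel l1.p l1.q l1.pos (x 1) (x 2)) ↔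
        (e1 = !l1.pos ∧ Rel l1.p l1.q l1.pos (moveFarL x 0) (moveFarL x 1)) := by
      rw [moveFarL_one, moveFarL_zero, moveFar_rel1 h hx2 hr.2]
    simp only [Nat.reduceAdd]
    rw [hdd, moveFarInd_congr hA, moveFarInd_congr hB]
    ring

/-- PROOF. `z = 0`: the canonical states and rows correspond: `nxt l2 (nxt l1 r) = nxt l1 (nxt l2 r)`, `eo l1 (nxt l2 r) = eo l1 r` etc. (disjoint positions), and `r + nxt l1 r + nxt l1 (nxt l2 r)`, computed with `char 2`, is `nxt l2 r`: i.e. the row number 1 of the canonical colouring of the source word is `nxt l1 r`, and `x 0 + x 1 + x 2 = nxt l1 r` iff `x 1 = nxt l2 r` for `x 0 = r`, `x 2 = nxt l1 (nxt l2 r)`. -/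
theorem phiFar_soMap (l1 l2 : Letter N) (h : l1.Disj l2) (w : Word N) (r : Row N) :
    SoMap (l1 :: l2 :: w) (l2 :: l1 :: w) r phiFar := by
  refine ⟨fun _ _ => 0, fun _ _ _ => rfl, ?_⟩
  intro v x hv hx
  obtain ⟨e2, e1, v', rfl, hv'⟩ := moveFar_length2 hv
  rw [moveFar_dd_zero, add_zero, phiFar_cons]
  have hcomm := moveFar_nxt_comm h r
  have hsum := moveFar_nxt_sum h r
  have hsum' := moveFar_nxt_sum h.symm r
  simp only [moveFar_so_cons, moveFarL_tl, tl_apply, zero_add, moveFarL_zero, moveFarL_one, moveFar_eo h,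
    moveFar_eo h.symm, hcomm]
  by_cases h0 : so w (nxt l1 (nxt l2 r)) v' (tl (tl x)) = 0
  · simp only [h0, mul_zero]
  · have hx2 : x 2 = nxt l1 (nxt l2 r) := moveFar_so_ne h0
    by_cases hx0 : x 0 = r
    · have hiff : x 0 + x 1 + x 2 = nxt l1 r ↔ x 1 = nxt l2 r := by
        rw [hx2, hx0]
        constructor
        · intro hh
          have h3 := moveFar_cancel r (x 1) (nxt l1 (nxt l2 r))
          rw [hh] at h3
          rw [← h3]
          exact hsum'
        · intro hh
          rw [hh, ← hcomm]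
          exact hsum
      rw [hiff]
      unfold moveFarInd
      by_cases c1 : e1 = eo l1 r
      · by_cases c2 : e2 = eo l2 r
        · simp [hx0, c1, c2]
        · simp [c2]
      · simp [c1]
    · unfold moveFarInd
      simp [hx0]

/-- PROOF. A fibration with `k = 0`, `π x = (x 0, x 0 + x 1 + x 2, x 2, ...)`, `s` the same formula, `c = 0`, from `(l2 :: l1 :: w, e2 :: e1 :: v)` to `(l1 :: l2 :: w, e1 :: e2 :: v)`; `Fib.up`, `D.pull`; `nv` and `sh` agree. Use `lftN_apply`. -/
theorem phiFar_levMap (l1 l2 : Letter N) (h : l1.Disj l2) (w : Word N) (r : Row N) :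
    LevMap 0 (l1 :: l2 :: w) (l2 :: l1 :: w) r phiFar := by
  intro w1 r0 _ l g hg v hv e he
  have hlen : w1.length ≤ v.length := by
    rw [hv, List.length_append]
    omega
  obtain ⟨v1, u, rfl, hv1⟩ : ∃ v1 u, v = v1 ++ u ∧ v1.length = w1.length :=
    ⟨v.take w1.length, v.drop w1.length, (List.take_append_drop _ _).symm, by
      rw [List.length_take]; omega⟩
  have hu : u.length = (l2 :: l1 :: w).length := by
    rw [List.length_append, List.length_append, hv1] at hv
    omega
  obtain ⟨e2, e1, v', rfl, hv'⟩ := moveFar_length2 hu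
  have F := (moveFarFib h w e1 e2 v').up w1 v1 hv1
  have hdim : dimK (w1 ++ l2 :: l1 :: w) (v1 ++ e2 :: e1 :: v') =
      dimK (w1 ++ l1 :: l2 :: w) (v1 ++ e1 :: e2 :: v') := by
    have := Fib.dim F
    simpa using this
  have hD : D (K (w1 ++ l1 :: l2 :: w) (v1 ++ e1 :: e2 :: v'))
      (dimK (w1 ++ l1 :: l2 :: w) (v1 ++ e1 :: e2 :: v') +
        nv (w1 ++ l1 :: l2 :: w) (v1 ++ e1 :: e2 :: v') + sh (w1 ++ l1 :: l2 :: w) r0 - l)
      (g (v1 ++ e1 :: e2 :: v')) := by
    intro e' he'
    refine hg _ ?_ e' he'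
    simp only [List.length_append, List.length_cons, hv1, hv']
  have hP := D.pull ((moveFarFib h w e1 e2 v').up w1 v1 hv1) hD
  have hfin := hP e (by
    rw [hdim, moveFar_nv l1 l2 w w1 e1 e2 v' v1 hv1, moveFar_sh h] at he
    simpa using he)
  refine hfin.congr ?_
  intro x _
  rw [lftN_apply w1.length phiFar g v1 (e2 :: e1 :: v') hv1 x, phiFar_cons]
  rfl

theorem good_far (w1 w2 : Word N) (l1 l2 : Letter N) (h : l1.Disj l2) (r : Row N) (l : ℤ)
    (hg : Good (w1 ++ l1 :: l2 :: w2) r l) : Good (w1 ++ l2 :: l1 :: w2) r l := by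
  simpa using Good.of_map (phiFar_isMap l1 l2 h w2) (phiFar_soMap l1 l2 h w2 _)
    (phiFar_levMap l1 l2 h w2 _) w1 r rfl l hg

theorem moveFar_swap_rel (p q : Fin N) (e : Bool) (a b : Row N) : Rel q p e a b ↔ Rel p q e a b := by
  cases e
  · exact Iff.rfl
  · constructor
    · rintro ⟨h1, h2, h3⟩
      exact ⟨h1.symm, h2.symm, fun j hj hj' => h3 j hj' hj⟩
    · rintro ⟨h1, h2, h3⟩
      exact ⟨h1.symm, h2.symm, fun j hj hj' => h3 j hj' hj⟩

theorem moveFar_swap_nxt (p q : Fin N) (h : p ≠ q) (b : Bool) (r : Row N) :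
    nxt ⟨q, p, h.symm, b⟩ r = nxt ⟨p, q, h, b⟩ r := by
  funext j
  rw [moveFar_nxt_apply, moveFar_nxt_apply]
  simp only [eq_comm (a := r q) (b := r p), or_comm (a := j = q) (b := j = p)]

theorem moveFar_swap_eo (p q : Fin N) (h : p ≠ q) (b : Bool) (r : Row N) :
    eo ⟨q, p, h.symm, b⟩ r = eo ⟨p, q, h, b⟩ r := by
  unfold eo
  simp only [eq_comm (a := r q) (b := r p)]

theorem moveFar_swap_valid (w1 w2 : Word N) (p q : Fin N) (h : p ≠ q) (b : Bool) (v : List Bool)
    (x : Col N) : Valid (w1 ++ ⟨q, p, h.symm, b⟩ :: w2) v x ↔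
      Valid (w1 ++ ⟨p, q, h, b⟩ :: w2) v x := by
  induction w1 generalizing v x with
  | nil =>
    match v with
    | [] => exact Iff.rfl
    | e :: v =>
      simp only [List.nil_append, Valid]
      rw [moveFar_swap_rel]
  | cons l w1 ih =>
    match v with
    | [] => exact Iff.rfl
    | e :: v =>
      simp only [List.cons_append, Valid]
      rw [ih]

theorem moveFar_swap_dd (w1 w2 : Word N) (p q : Fin N) (h : p ≠ q) (b : Bool) (g : Coch N)
    (v : List Bool) (x : Col N) : dd (w1 ++ ⟨q, p, h.symm, b⟩ :: w2) g v x =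
      dd (w1 ++ ⟨p, q, h, b⟩ :: w2) g v x := by
  induction w1 generalizing g v x with
  | nil =>
    match v with
    | [] => rfl
    | e :: v =>
      have hr : Rel q p b (x 0) (x 1) = Rel p q b (x 0) (x 1) := propext (moveFar_swap_rel p q b _ _)
      simp only [List.nil_append, moveFar_dd_cons, hr]
  | cons l w1 ih =>
    match v with
    | [] => rfl
    | e :: v =>
      simp only [List.cons_append, dd]
      rw [ih]

theorem moveFar_swap_so (w1 w2 : Word N) (p q : Fin N) (h : p ≠ q) (b : Bool) (r : Row N)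
    (v : List Bool) (x : Col N) : so (w1 ++ ⟨q, p, h.symm, b⟩ :: w2) r v x =
      so (w1 ++ ⟨p, q, h, b⟩ :: w2) r v x := by
  induction w1 generalizing r v x with
  | nil =>
    match v with
    | [] => rfl
    | e :: v =>
      simp only [List.nil_append, so]
      rw [moveFar_swap_nxt p q h b r, moveFar_swap_eo p q h b r]
  | cons l w1 ih =>
    match v with
    | [] => rfl
    | e :: v =>
      simp only [List.cons_append, so]
      rw [ih]

theorem moveFar_swap_nv (w1 w2 : Word N) (p q : Fin N) (h : p ≠ q) (b : Bool)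
    (v : List Bool) : nv (w1 ++ ⟨q, p, h.symm, b⟩ :: w2) v =
      nv (w1 ++ ⟨p, q, h, b⟩ :: w2) v := by
  induction w1 generalizing v with
  | nil =>
    match v with
    | [] => rfl
    | e :: v => rfl
  | cons l w1 ih =>
    match v with
    | [] => rfl
    | e :: v =>
      simp only [List.cons_append, nv]
      rw [ih]

theorem moveFar_swap_sh (w1 w2 : Word N) (p q : Fin N) (h : p ≠ q) (b : Bool)
    (r : Row N) : sh (w1 ++ ⟨q, p, h.symm, b⟩ :: w2) r =
      sh (w1 ++ ⟨p, q, h, b⟩ :: w2) r := by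
  induction w1 generalizing r with
  | nil =>
    simp only [List.nil_append, sh]
    rw [moveFar_swap_nxt p q h b r]
    simp only [eq_comm (a := r q) (b := r p)]
  | cons l w1 ih =>
    simp only [List.cons_append, sh]
    rw [ih]

/-- the order of the two positions of a letter plays no role
PROOF. All definitions only depend on the unordered pair `{p, q}`: `Rel p q e a b ↔ Rel q p e a b`, `flip p q r = flip q p r`. Show by induction on `w1`: `Valid`, `dd`, `so`, `sh`, `nv` of `w1 ++ ⟨p, q, h, b⟩ :: w2` and of `w1 ++ ⟨q, p, _, b⟩ :: w2` are equal (as functions, `funext`); so `K` and `Lev` agree, and `Good` too. -/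
theorem good_swap (w1 w2 : Word N) (p q : Fin N) (h : p ≠ q) (b : Bool) (r : Row N) (l : ℤ)
    (hg : Good (w1 ++ ⟨p, q, h, b⟩ :: w2) r l) : Good (w1 ++ ⟨q, p, h.symm, b⟩ :: w2) r l := by
  obtain ⟨y, hy⟩ := hg
  refine ⟨y, ?_⟩
  intro v hv e he
  have hK : K (w1 ++ ⟨q, p, h.symm, b⟩ :: w2) v = K (w1 ++ ⟨p, q, h, b⟩ :: w2) v := by
    ext x
    rw [mem_K, mem_K, moveFar_swap_valid w1 w2 p q h b]
  have hd : dimK (w1 ++ ⟨q, p, h.symm, b⟩ :: w2) v = dimK (w1 ++ ⟨p, q, h, b⟩ :: w2) v := by
    unfold dimK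
    rw [hK]
  rw [hd, moveFar_swap_nv w1 w2 p q h b, moveFar_swap_sh w1 w2 p q h b] at he
  rw [hK]
  refine (hy v (by simpa using hv) e he).congr ?_
  intro x _
  show so _ r v x + dd _ y v x = so _ r v x + dd _ y v x
  rw [moveFar_swap_so w1 w2 p q h b, moveFar_swap_dd w1 w2 p q h b]

end Pool.Agent.HK
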