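import Pool.Agent.H.MP_cd3d06_an.K.R2B

/-!
Part A: the second Reidemeister move.
-/

namespace Pool.Agent.HK

variable {N : ℕ}

theorem good_R2_insert (hN : Even N) (w1 w2 : Word N) (p q : Fin N) (h : p ≠ q) (b : Bool)
    (r : Row N) (l : ℤ) (hg : Good (w1 ++ w2) r l) :
    Good (w1 ++ ⟨p, q, h, b⟩ :: ⟨p, q, h, !b⟩ :: w2) r l := by
  simpa using Good.of_map (phiR2f_isMap p q h b w2) (phiR2f_soMap p q h b w2 _)
    (phiR2f_levMap hN p q h b w2 _) w1 r rfl l hg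

theorem good_R2_remove (hN : Even N) (w1 w2 : Word N) (p q : Fin N) (h : p ≠ q) (b : Bool)
    (r : Row N) (l : ℤ) (hg : Good (w1 ++ ⟨p, q, h, b⟩ :: ⟨p, q, h, !b⟩ :: w2) r l) :
    Good (w1 ++ w2) r l := by
  simpa using Good.of_map (phiR2g_isMap p q h b w2) (phiR2g_soMap p q h b w2 _)
    (phiR2g_levMap hN p q h b w2 _) w1 r rfl l hg

end Pool.Agent.HK
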