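import Pool.Agent.H.MP_cd3d06_an.K.R3A

/-!
Part A: the third Reidemeister move (positive letters),
`(p,m) (m,q) (p,m)  →  (m,q) (p,m) (m,q)`, three different positions `p, m, q`.  Chain map, last letter E.
-/

namespace Pool.Agent.HK

variable {N : ℕ}

variable {p m q : Fin N}

/-- the differential on three positive letters -/
theorem R3C_dd {p1 q1 p2 q2 p3 q3 : Fin N} (n1 : p1 ≠ q1) (n2 : p2 ≠ q2) (n3 : p3 ≠ q3)
    (w : Word N) (F : Coch N) (s1 s2 s3 : Bool) (v : List Bool) (x : Col N) :
    dd (⟨p1, q1, n1, true⟩ :: ⟨p2, q2, n2, true⟩ :: ⟨p3, q3, n3, true⟩ :: w) F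
      (s1 :: s2 :: s3 :: v) x =
      (open Classical in
        if s1 = false ∧ Rel p1 q1 true (x 0) (x 1) then F (true :: s2 :: s3 :: v) x else 0) +
      ((open Classical in
        if s2 = false ∧ Rel p2 q2 true (x 1) (x 2) then F (s1 :: true :: s3 :: v) x else 0) +
      ((open Classical in
        if s3 = false ∧ Rel p3 q3 true (x 2) (x 3) then F (s1 :: s2 :: true :: v) x else 0) +
      dd w (fun v' y => F (s1 :: s2 :: s3 :: v') (cs (x 0) (cs (x 1) (cs (x 2) y)))) v
        (tl (tl (tl x))))) := by
  have e1 : cs (x 0) (tl x) = x := cs_tl x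
  have e2 : cs (x 1) (tl (tl x)) = tl x := cs_tl (tl x)
  have key : dd (⟨p1, q1, n1, true⟩ :: ⟨p2, q2, n2, true⟩ :: ⟨p3, q3, n3, true⟩ :: w) F
      (s1 :: s2 :: s3 :: v) x =
      (open Classical in
        if s1 = false ∧ Rel p1 q1 true (x 0) (x 1) then F (true :: s2 :: s3 :: v) x else 0) +
      ((open Classical in
        if s2 = false ∧ Rel p2 q2 true (x 1) (x 2) then
          F (s1 :: true :: s3 :: v) (cs (x 0) (tl x)) else 0) +
      ((open Classical in
        if s3 = false ∧ Rel p3 q3 true (x 2) (x 3) then
          F (s1 :: s2 :: true :: v) (cs (x 0) (cs (x 1) (tl (tl x)))) else 0) +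
      dd w (fun v' y => F (s1 :: s2 :: s3 :: v') (cs (x 0) (cs (x 1) (cs (x 2) y)))) v
        (tl (tl (tl x))))) := rfl
  rw [key, e2, e1]

/-- the part of the differential on the letters of `w` -/
noncomputable def R3CD (w : Word N) (g : Coch N) (s1 s2 s3 : Bool) (v : List Bool) (x : Col N)
    (r1 r2 : Row N) : ZMod 2 :=
  dd w (fun v' y => g (s1 :: s2 :: s3 :: v') (cs (x 0) (cs r1 (cs r2 y)))) v (tl (tl (tl x)))

theorem R3C_at3 {p1 q1 p2 q2 p3 q3 : Fin N} (n1 : p1 ≠ q1) (n2 : p2 ≠ q2) (n3 : p3 ≠ q3)
    (w : Word N) (g : Coch N) (s1 s2 s3 : Bool) (v : List Bool) (x : Col N)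
    (r1 r2 : Row N) :
    at3 (dd (⟨p1, q1, n1, true⟩ :: ⟨p2, q2, n2, true⟩ :: ⟨p3, q3, n3, true⟩ :: w) g)
      s1 s2 s3 v x r1 r2 =
      (open Classical in
        if s1 = false ∧ Rel p1 q1 true (x 0) r1 then at3 g true s2 s3 v x r1 r2 else 0) +
      ((open Classical in
        if s2 = false ∧ Rel p2 q2 true r1 r2 then at3 g s1 true s3 v x r1 r2 else 0) +
      ((open Classical in
        if s3 = false ∧ Rel p3 q3 true r2 (x 3) then at3 g s1 s2 true v x r1 r2 else 0) +
      R3CD w g s1 s2 s3 v x r1 r2)) := by
  unfold at3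
  rw [R3C_dd n1 n2 n3]
  rfl

theorem R3C_two (c : ZMod 2) : c + c = 0 := CharTwo.add_self_eq_zero c

theorem R3C_self {i j : Fin N} {a : Row N} : Rel i j true a a ↔ a i = a j :=
  ⟨fun h => h.1, fun h => ⟨h, h, fun _ _ _ => rfl⟩⟩

theorem R3C_sel (hpm : p ≠ m) (hmq : m ≠ q) (hpq : p ≠ q) {a c : Row N}
    (hc : c = setpq p m (a q) a) (t : Row N → ZMod 2) :
    (if setpq p m 0 a m = setpq p m 0 a q then t (setpq p m 0 a) else 0) +
      (if setpq p m 1 a m = setpq p m 1 a q then t (setpq p m 1 a) else 0) = t c := by
  have h1 : ∀ i : ZMod 2, setpq p m i a m = i := fun i => by simp [setpq]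
  have h2 : ∀ i : ZMod 2, setpq p m i a q = a q := fun i => by
    simp only [setpq]
    rw [if_neg]
    rintro (h | h)
    · exact hpq h.symm
    · exact hmq h.symm
  simp only [h1, h2]
  subst hc
  have h3 : a q = 0 ∨ a q = 1 := by
    generalize a q = z
    revert z
    decide
  rcases h3 with h3 | h3 <;> simp [h3]

/-- the part of the differential on the letters of `w` for the states with a loop term -/
theorem R3C_w {w : Word N} (g : Coch N) {v : List Bool} {x : Col N} (hv : v.length = w.length)
    (hV : Valid w v (tl (tl (tl x)))) (r c0 c1 : Row N) (F : Coch N)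
    (hF : ∀ v' y, F v' y = g (true :: true :: false :: v') (cs (x 0) (cs r (cs (y 0) y))) +
      (open Classical in if r = y 0 then
        g (true :: false :: true :: v') (cs (x 0) (cs c0 (cs c0 y))) +
        g (true :: false :: true :: v') (cs (x 0) (cs c1 (cs c1 y))) else 0)) :
    dd w F v (tl (tl (tl x))) = R3CD w g true true false v x r (x 3) +
      (open Classical in if r = x 3 then R3CD w g true false true v x c0 c0 +
        R3CD w g true false true v x c1 c1 else 0) := by
  classical
  have h5 : dd w F v (tl (tl (tl x))) =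
      dd w (fun v' y => g (true :: true :: false :: v') (cs (x 0) (cs r (cs (x 3) y))) +
        (if r = x 3 then
        g (true :: false :: true :: v') (cs (x 0) (cs c0 (cs c0 y))) +
        g (true :: false :: true :: v') (cs (x 0) (cs c1 (cs c1 y))) else 0)) v
        (tl (tl (tl x))) := by
    refine dd_loc hv hV fun v' y _ _ hy0 => ?_
    have hy : y 0 = x 3 := hy0
    rw [hF, hy]
  rw [h5, dd_add]
  congr 1
  by_cases h : r = x 3
  · simp only [if_pos h]
    rw [dd_add]
    rfl
  · simp only [if_neg h]
    exact Maps_dd_zero w v _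

/-- the chain map property for the states whose last letter of the target word is `E`
PROOF. The states of the left word `u = A B A`, `A = (p,m)`, `B = (m,q)`, rows `a, r1, r2, b`; all letters are positive, so the source state is `E = true` and the target state is `I = false`. Contributions of the letters of `w` agree on both sides (use `dd_loc`/`add`; they only change the state of `w`), so only the three letters matter. Denote by `G(s1 s2 s3; r1, r2)` the value `at3 g s1 s2 s3 v x r1 r2` with `a = x 0`, `b = x 3`; `L` the loop sum. For each target state list the contributions of `dd (B A B)` applied to `φ g` (letter `t` in state `I` receives from the state with `E` at `t`, if the rows around the letter satisfy `Rel E`) and of `φ (dd (A B A) g)`. Target `I I E` (`x 1 = x 2 = a`, `E_B` between `a` and `b`): left side: letter 1 (rows `a, a`) from `E I E` (condition `a m = a q` true): `[a p = a m] (G(EEI; a, b) + [a = b] L)`; letter 2 (rows `a, a`) from `I E E` if `a p = a m`: with `x 2 = a`: `G(EEI; a, b) + [a = b] L`. They cancel. Right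 side: `φ` is 0 on this state. (Both sides 0; letter 3 is in the source state.) Target `I E E` (`x 1 = a`, `E_A` between `a, x 2`, `E_B` between `x 2, b`): left side: letter 1 (rows `a, a`) from `E E E`: 0. Right side: `dd g (EEI; x 2, b) + [x 2 = b] sum_c dd g (EIE; c, c)`: `EEI` receives by letter 3 (rows `b, b`) from `EEE` if `b p = b m`: `G(EEE; x 2, b)`; `EIE; c, c` by letter 2 if `c m = c q`: for exactly one `c`: the one with value `a q`. If `x 2 = b`: `E_B` between `b, b`: `b m = b q`; `E_A` between `a, b`: `b p = b m`; `a q = b q`, so the value `a q = b m` and `c = b`: the terms `G(EEE; b, b)` cancel. If `x 2 ≠ b`: `x2 m ≠ b m`, `b p = x2 p = x2 m`, so `b p ≠ b m`: both absent. Target `E I E` (`E_B` between `a, x 1`, `x 1 = x 2`, `E_B` between `x 1, b`): left side: letter 2 (rows `x 1, x 1`) from `E E E`: 0. Right side: `[a p = a m] (dd g (EEI; a, b) + [a = b] sum_c dd g (EIE; c, c))`: `EEI; a, b` receives by letter 3 (rows `b, b`) from `EEE` if `b p = b m`: `G(EEE; a, b)`. Given `a p = a m`: if `a ≠ b`: `b m ≠ a m = a p = b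 p`: absent; if `a = b`: present, `G(EEE; a, a)`, and `sum_c` gives `G(EEE; c, c)` for the `c` with value `a q = a m = a p` (`E_B`: `a m = a q`), i.e. `c = a`: cancel. Target `E E E`: no letter is in the target state; both sides only have the `w` part, and `φ = 0`: both sides 0. -/
theorem phiR3_chainE (hpm : p ≠ m) (hmq : m ≠ q) (hpq : p ≠ q) (w : Word N) (g : Coch N)
    (s1 s2 : Bool) (v : List Bool) (x : Col N) (hv : v.length = w.length)
    (hx : Valid (w3' hpm hmq w) (s1 :: s2 :: true :: v) x) :
    dd (w3' hpm hmq w) (phiR3 p m g) (s1 :: s2 :: true :: v) x =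
      phiR3 p m (dd (w3 hpm hmq w) g) (s1 :: s2 :: true :: v) x := by
  classical
  obtain ⟨R1, R2, R3, hV⟩ := hx
  have R1' : Rel m q s1 (x 0) (x 1) := R1
  have R2' : Rel p m s2 (x 1) (x 2) := R2
  have R3' : Rel m q true (x 2) (x 3) := R3
  have hw3 : w3 hpm hmq w = ⟨p, m, hpm, true⟩ :: ⟨m, q, hmq, true⟩ :: ⟨p, m, hpm, true⟩ :: w := rfl
  have hw3' : w3' hpm hmq w = ⟨m, q, hmq, true⟩ :: ⟨p, m, hpm, true⟩ :: ⟨m, q, hmq, true⟩ :: w := rfl
  rw [hw3, hw3', R3C_dd]
  clear R1 R2 R3 hw3 hw3'
  cases s1 <;> cases s2
  · -- IIE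
    have e1 : x 0 = x 1 := R1'
    have e2 : x 1 = x 2 := R2'
    have hz : dd w (fun v' y => phiR3 p m g (false :: false :: true :: v')
        (cs (x 0) (cs (x 1) (cs (x 2) y)))) v (tl (tl (tl x))) = 0 := Maps_dd_zero w v _
    rw [hz]
    have hc : x 0 m = x 0 q := by
      rw [← e2, ← e1] at R3'
      exact R3'.1
    rw [← e2, ← e1]
    simp only [R3C_self, hc, true_and, if_true, Bool.true_eq_false, false_and, if_false, phiR3,
      ← e2, ← e1, add_zero, zero_add]
    split_ifs <;> simp [R3C_two]
  · -- IEE
    have e1 : x 0 = x 1 := R1'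
    have hw := R3C_w g hv hV (x 2) (setpq p m 0 (x 0)) (setpq p m 1 (x 0))
      (fun v' y => phiR3 p m g (false :: true :: true :: v')
        (cs (x 0) (cs (x 1) (cs (x 2) y)))) (fun v' y => rfl)
    rw [hw]
    have h0 : phiR3 p m g (true :: true :: true :: v) x = 0 := rfl
    have hR : phiR3 p m (dd (⟨p, m, hpm, true⟩ :: ⟨m, q, hmq, true⟩ :: ⟨p, m, hpm, true⟩ :: w) g)
        (false :: true :: true :: v) x =
        at3 (dd (⟨p, m, hpm, true⟩ :: ⟨m, q, hmq, true⟩ :: ⟨p, m, hpm, true⟩ :: w) g)
          true true false v x (x 2) (x 3) + if x 2 = x 3 then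
        (at3 (dd (⟨p, m, hpm, true⟩ :: ⟨m, q, hmq, true⟩ :: ⟨p, m, hpm, true⟩ :: w) g)
          true false true v x (setpq p m 0 (x 0)) (setpq p m 0 (x 0)) +
        at3 (dd (⟨p, m, hpm, true⟩ :: ⟨m, q, hmq, true⟩ :: ⟨p, m, hpm, true⟩ :: w) g)
          true false true v x (setpq p m 1 (x 0)) (setpq p m 1 (x 0))) else 0 := rfl
    rw [hR, h0]
    simp only [R3C_at3, R3C_self, Bool.true_eq_false, false_and, if_false, zero_add, true_and,
      ite_self]
    rw [← e1] at R2'
    by_cases h23 : x 2 = x 3
    · rw [if_pos h23, if_pos h23]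
      have h3 : x 3 p = x 3 m := by rw [← h23]; exact R2'.2.1
      rw [if_pos h3]
      have hsel := R3C_sel hpm hmq hpq (a := x 0) (c := x 2) (by
        funext j
        have hq : x 0 q = x 2 q := R2'.2.2 q (Ne.symm hpq) (Ne.symm hmq)
        simp only [setpq]
        split_ifs with h
        · rw [hq, ← R3'.1]
          rcases h with rfl | rfl
          · exact R2'.2.1
          · rfl
        · push Not at h
          exact (R2'.2.2 j h.1 h.2).symm) (fun c => at3 g true true true v x c c)
      have hsel' : at3 g true true true v x (x 2) (x 3) =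
        (if setpq p m 0 (x 0) m = setpq p m 0 (x 0) q then
          at3 g true true true v x (setpq p m 0 (x 0)) (setpq p m 0 (x 0)) else 0) +
        (if setpq p m 1 (x 0) m = setpq p m 1 (x 0) q then
          at3 g true true true v x (setpq p m 1 (x 0)) (setpq p m 1 (x 0)) else 0) := by
        rw [← h23]; exact hsel.symm
      rw [hsel']
      generalize (if setpq p m 0 (x 0) m = setpq p m 0 (x 0) q then
          at3 g true true true v x (setpq p m 0 (x 0)) (setpq p m 0 (x 0)) else 0) = A
      generalize (if setpq p m 1 (x 0) m = setpq p m 1 (x 0) q then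
          at3 g true true true v x (setpq p m 1 (x 0)) (setpq p m 1 (x 0)) else 0) = B
      have hA := R3C_two A
      have hB := R3C_two B
      linear_combination -hA - hB
    · rw [if_neg h23, if_neg h23]
      have h3 : ¬ x 3 p = x 3 m := by
        intro h3
        apply h23
        have hp : x 2 p = x 3 p := R3'.2.2 p hpm hpq
        have hm : x 2 m = x 3 m := by rw [← h3, ← hp, R2'.2.1]
        funext j
        by_cases hjm : j = m
        · rw [hjm, hm]
        · by_cases hjq : j = q
          · rw [hjq, ← R3'.1, ← R3'.2.1, hm]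
          · exact R3'.2.2 j hjm hjq
      rw [if_neg h3, zero_add]
  · -- EIE
    have e2 : x 1 = x 2 := R2'
    have h0 : phiR3 p m g (true :: true :: true :: v) x = 0 := rfl
    by_cases hpm0 : x 0 p = x 0 m
    · have hw := R3C_w g hv hV (x 0) (setpq p m 0 (x 0)) (setpq p m 1 (x 0))
        (fun v' y => phiR3 p m g (true :: false :: true :: v')
          (cs (x 0) (cs (x 1) (cs (x 2) y)))) (fun v' y => if_pos hpm0)
      rw [hw]
      have hR : phiR3 p m (dd (⟨p, m, hpm, true⟩ :: ⟨m, q, hmq, true⟩ :: ⟨p, m, hpm, true⟩ :: w) g)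
          (true :: false :: true :: v) x =
          at3 (dd (⟨p, m, hpm, true⟩ :: ⟨m, q, hmq, true⟩ :: ⟨p, m, hpm, true⟩ :: w) g)
            true true false v x (x 0) (x 3) + if x 0 = x 3 then
          (at3 (dd (⟨p, m, hpm, true⟩ :: ⟨m, q, hmq, true⟩ :: ⟨p, m, hpm, true⟩ :: w) g)
            true false true v x (setpq p m 0 (x 0)) (setpq p m 0 (x 0)) +
          at3 (dd (⟨p, m, hpm, true⟩ :: ⟨m, q, hmq, true⟩ :: ⟨p, m, hpm, true⟩ :: w) g)
            true false true v x (setpq p m 1 (x 0)) (setpq p m 1 (x 0))) else 0 := if_pos hpm0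
      rw [hR, h0]
      simp only [R3C_at3, R3C_self, Bool.true_eq_false, false_and, if_false, zero_add, true_and,
        ite_self]
      rw [← e2] at R3'
      by_cases h03 : x 0 = x 3
      · rw [if_pos h03, if_pos h03]
        have h3 : x 3 p = x 3 m := by rw [← h03]; exact hpm0
        rw [if_pos h3]
        have hsel := R3C_sel hpm hmq hpq (a := x 0) (c := x 0) (by
          funext j
          simp only [setpq]
          split_ifs with h
          · rw [← R1'.1]
            rcases h with rfl | rfl
            · exact hpm0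
            · rfl
          · rfl) (fun c => at3 g true true true v x c c)
        have hsel' : at3 g true true true v x (x 0) (x 3) =
          (if setpq p m 0 (x 0) m = setpq p m 0 (x 0) q then
            at3 g true true true v x (setpq p m 0 (x 0)) (setpq p m 0 (x 0)) else 0) +
          (if setpq p m 1 (x 0) m = setpq p m 1 (x 0) q then
            at3 g true true true v x (setpq p m 1 (x 0)) (setpq p m 1 (x 0)) else 0) := by
          rw [← h03]; exact hsel.symm
        rw [hsel']
        generalize (if setpq p m 0 (x 0) m = setpq p m 0 (x 0) q then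
            at3 g true true true v x (setpq p m 0 (x 0)) (setpq p m 0 (x 0)) else 0) = A
        generalize (if setpq p m 1 (x 0) m = setpq p m 1 (x 0) q then
            at3 g true true true v x (setpq p m 1 (x 0)) (setpq p m 1 (x 0)) else 0) = B
        have hA := R3C_two A
        have hB := R3C_two B
        linear_combination -hA - hB
      · rw [if_neg h03, if_neg h03]
        have h3 : ¬ x 3 p = x 3 m := by
          intro h3
          apply h03
          have hp : x 0 p = x 3 p := (R1'.2.2 p hpm hpq).trans (R3'.2.2 p hpm hpq)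
          have hm : x 0 m = x 3 m := by rw [← h3, ← hp, hpm0]
          funext j
          by_cases hjm : j = m
          · rw [hjm, hm]
          · by_cases hjq : j = q
            · rw [hjq, ← R1'.1, ← R3'.2.1, hm]
            · exact (R1'.2.2 j hjm hjq).trans (R3'.2.2 j hjm hjq)
        rw [if_neg h3, zero_add]
    · have hz : dd w (fun v' y => phiR3 p m g (true :: false :: true :: v')
          (cs (x 0) (cs (x 1) (cs (x 2) y)))) v (tl (tl (tl x))) = 0 := by
        have : (fun (v' : List Bool) (y : Col N) => phiR3 p m g (true :: false :: true :: v')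
            (cs (x 0) (cs (x 1) (cs (x 2) y)))) = fun _ _ => (0 : ZMod 2) := by
          funext v' y
          exact if_neg hpm0
        rw [this]
        exact Maps_dd_zero w v _
      have hR : phiR3 p m (dd (⟨p, m, hpm, true⟩ :: ⟨m, q, hmq, true⟩ :: ⟨p, m, hpm, true⟩ :: w) g)
          (true :: false :: true :: v) x = 0 := if_neg hpm0
      rw [hz, hR, h0]
      simp
  · -- EEE
    simp only [Bool.true_eq_false, false_and, if_false, zero_add]
    exact Maps_dd_zero w v _

end Pool.Agent.HK
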