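import Pool.Agent.H.MP_cd3d06_an.K.R3A

/-!
Part A: the third Reidemeister move (positive letters),
`(p,m) (m,q) (p,m)  →  (m,q) (p,m) (m,q)`, three different positions `p, m, q`.  The canonical generator.
-/

namespace Pool.Agent.HK

variable {N : ℕ}

variable {p m q : Fin N}

theorem R3D_so_ne {w : Word N} {r : Row N} {v : List Bool} {y : Col N} (h : so w r v y ≠ 0) :
    y 0 = r := by
  cases w with
  | nil =>
    by_contra hc
    exact h (if_neg hc)
  | cons l w =>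
    cases v with
    | nil => exact absurd rfl h
    | cons e v =>
      by_contra hc
      exact h (if_neg (fun h1 => hc h1.1))

open Classical in
theorem R3D_so3 {l1 l2 l3 : Letter N} {w : Word N} {r q1 q2 q3 : Row N} {e1 e2 e3 : Bool}
    (h1 : eo l1 r = e1) (h1' : nxt l1 r = q1) (h2 : eo l2 q1 = e2) (h2' : nxt l2 q1 = q2)
    (h3 : eo l3 q2 = e3) (h3' : nxt l3 q2 = q3) (s1 s2 s3 : Bool) (v : List Bool) (x : Col N) :
    so (l1 :: l2 :: l3 :: w) r (s1 :: s2 :: s3 :: v) x =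
      if (x 0 = r ∧ s1 = e1) ∧ (x 1 = q1 ∧ s2 = e2) ∧ (x 2 = q2 ∧ s3 = e3) then
        so w q3 v (tl (tl (tl x))) else 0 := by
  subst h1' h2' h3' h1 h2 h3
  change (if x 0 = r ∧ s1 = eo l1 r then
      (if x 1 = nxt l1 r ∧ s2 = eo l2 (nxt l1 r) then
        (if x 2 = nxt l2 (nxt l1 r) ∧ s3 = eo l3 (nxt l2 (nxt l1 r)) then
          so w (nxt l3 (nxt l2 (nxt l1 r))) v (tl (tl (tl x))) else 0) else 0) else 0) = _
  by_cases c1 : x 0 = r ∧ s1 = eo l1 r
  · by_cases c2 : x 1 = nxt l1 r ∧ s2 = eo l2 (nxt l1 r)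
    · by_cases c3 : x 2 = nxt l2 (nxt l1 r) ∧ s3 = eo l3 (nxt l2 (nxt l1 r))
      · rw [if_pos c1, if_pos c2, if_pos c3, if_pos ⟨c1, c2, c3⟩]
      · rw [if_pos c1, if_pos c2, if_neg c3, if_neg (fun h => c3 h.2.2)]
    · rw [if_pos c1, if_neg c2, if_neg (fun h => c2 h.2.1)]
  · rw [if_neg c1, if_neg (fun h => c1 h.1)]

open Classical in
theorem R3D_at3 {l1 l2 l3 : Letter N} {w : Word N} {r q1 q2 q3 : Row N} {e1 e2 e3 : Bool}
    (h1 : eo l1 r = e1) (h1' : nxt l1 r = q1) (h2 : eo l2 q1 = e2) (h2' : nxt l2 q1 = q2)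
    (h3 : eo l3 q2 = e3) (h3' : nxt l3 q2 = q3) (s1 s2 s3 : Bool) (v : List Bool) (x : Col N)
    (r1 r2 : Row N) :
    at3 (so (l1 :: l2 :: l3 :: w) r) s1 s2 s3 v x r1 r2 =
      if (x 0 = r ∧ s1 = e1) ∧ (r1 = q1 ∧ s2 = e2) ∧ (r2 = q2 ∧ s3 = e3) then
        so w q3 v (tl (tl (tl x))) else 0 :=
  R3D_so3 h1 h1' h2 h2' h3 h3' s1 s2 s3 v (cs (x 0) (cs r1 (cs r2 (tl (tl (tl x))))))

theorem R3D_z2 {a b : ZMod 2} (h : a ≠ b) : a + 1 = b := by
  revert a b
  decide

theorem R3D_z2' (a : ZMod 2) : a + 1 + 1 = a := by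
  revert a
  decide

theorem R3D_ne (a : ZMod 2) : a + 1 ≠ a := by
  revert a
  decide

theorem R3D_flip_flip (p q : Fin N) (r : Row N) : flip p q (flip p q r) = r := by
  funext j
  unfold flip
  split_ifs
  · exact R3D_z2' _
  · rfl

theorem R3D_flip_ne (p q : Fin N) (r : Row N) : flip p q r ≠ r := by
  intro h
  have h1 := congrFun h p
  simp only [flip, true_or, if_true] at h1
  exact R3D_ne _ h1

theorem R3D_eo_t {l : Letter N} {r : Row N} (h : r l.p = r l.q) : eo l r = true := by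
  simp [eo, h]

theorem R3D_eo_f {l : Letter N} {r : Row N} (h : r l.p ≠ r l.q) : eo l r = false := by
  simp [eo, h]

theorem R3D_nxt_t {l : Letter N} {r : Row N} (h : r l.p = r l.q) :
    nxt l r = flip l.p l.q r := if_pos h

theorem R3D_nxt_f {l : Letter N} {r : Row N} (h : r l.p ≠ r l.q) : nxt l r = r := if_neg h

theorem R3D_setpq {p m : Fin N} {r : Row N} (h : r p = r m) (c : ZMod 2) :
    setpq p m c r = flip p m r ↔ c = r p + 1 := by
  constructor
  · intro h1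
    have h2 := congrFun h1 p
    simpa [setpq, flip] using h2
  · rintro rfl
    funext j
    simp only [setpq, flip]
    by_cases h1 : j = p
    · subst h1
      simp
    · by_cases h2 : j = m
      · subst h2
        simp [h]
      · simp [h1, h2]

open Classical in
theorem R3D_loop (hpm : p ≠ m) (hmq : m ≠ q) (w : Word N) {r : Row N} (hp : r p = r m)
    (h2 : flip p m r m ≠ flip p m r q) (v : List Bool) (x : Col N) :
    loop3 p m (so (w3 hpm hmq w) r) v x =
      if x 0 = r then so w r v (tl (tl (tl x))) else 0 := by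
  have key : ∀ c : ZMod 2, at3 (so (w3 hpm hmq w) r) true false true v x
      (setpq p m c (x 0)) (setpq p m c (x 0)) =
      if x 0 = r ∧ c = r p + 1 then so w r v (tl (tl (tl x))) else 0 := by
    intro c
    have hp' : (flip p m r) p = (flip p m r) m := by simp [flip, hp]
    have h3 := R3D_at3 (l1 := ⟨p, m, hpm, true⟩) (l2 := ⟨m, q, hmq, true⟩)
      (l3 := ⟨p, m, hpm, true⟩) (w := w) (r := r) (R3D_eo_t hp) (R3D_nxt_t hp) (R3D_eo_f h2)
      (R3D_nxt_f h2) (R3D_eo_t hp') (R3D_nxt_t hp') true false true v x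
      (setpq p m c (x 0)) (setpq p m c (x 0))
    unfold w3
    rw [h3]
    simp only [R3D_flip_flip]
    by_cases c1 : x 0 = r
    · rw [c1]
      by_cases c2 : c = r p + 1
      · have c3 := (R3D_setpq hp c).2 c2
        rw [if_pos ⟨⟨rfl, trivial⟩, ⟨c3, trivial⟩, ⟨c3, trivial⟩⟩, if_pos ⟨rfl, c2⟩]
      · have c3 : setpq p m c r ≠ flip p m r := fun h4 => c2 ((R3D_setpq hp c).1 h4)
        rw [if_neg (fun h4 => c3 h4.2.1.1), if_neg (fun h4 => c2 h4.2)]
    · rw [if_neg (fun h4 => c1 h4.1.1), if_neg (fun h4 => c1 h4.1)]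
  unfold loop3
  rw [key 0, key 1]
  by_cases c1 : x 0 = r
  · rw [if_pos c1]
    have h5 : r p = 0 ∨ r p = 1 := by
      generalize r p = a
      revert a
      decide
    rcases h5 with h5 | h5
    · rw [h5, if_neg (by simp), if_pos (by simp [c1])]
      ring
    · rw [h5, if_pos ⟨c1, by decide⟩, if_neg (fun h6 => absurd h6.2 (by decide))]
      ring
  · rw [if_neg (fun h => c1 h.1), if_neg (fun h => c1 h.1), if_neg c1]
    ring

theorem R3D_dd_zero (w : Word N) (v : List Bool) (x : Col N) : dd w (fun _ _ => 0) v x = 0 := by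
  have h := dd_add w (fun _ _ => 0) (fun _ _ => 0) v x
  simp only [add_zero] at h
  revert h
  generalize dd w (fun _ _ => 0) v x = a
  revert a
  decide

theorem R3D_i (hpm : p ≠ m) (hmq : m ≠ q) (w : Word N) (r : Row N)
    (hp : r p ≠ r m) (hq : r m ≠ r q) :
    SoMap (w3 hpm hmq w) (w3' hpm hmq w) r (phiR3 p m) := by
  refine ⟨fun _ _ => 0, fun _ _ _ => rfl, fun v x hv hx => ?_⟩
  rw [R3D_dd_zero, add_zero]
  rcases v with _ | ⟨e1, _ | ⟨e2, _ | ⟨e3, v⟩⟩⟩
  · simp [w3'] at hv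
  · simp [w3'] at hv
  · simp [w3'] at hv
  obtain ⟨h1, h2, h3, hw⟩ := hx
  have hL := R3D_at3 (l1 := ⟨p, m, hpm, true⟩) (l2 := ⟨m, q, hmq, true⟩)
    (l3 := ⟨p, m, hpm, true⟩) (w := w) (r := r) (R3D_eo_f hp) (R3D_nxt_f hp) (R3D_eo_f hq)
    (R3D_nxt_f hq) (R3D_eo_f hp) (R3D_nxt_f hp)
  have hR := R3D_so3 (l1 := ⟨m, q, hmq, true⟩) (l2 := ⟨p, m, hpm, true⟩)
    (l3 := ⟨m, q, hmq, true⟩) (w := w) (r := r) (R3D_eo_f hq) (R3D_nxt_f hq) (R3D_eo_f hp)
    (R3D_nxt_f hp) (R3D_eo_f hq) (R3D_nxt_f hq) e1 e2 e3 v x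
  unfold w3'
  rw [hR]
  cases e1 <;> cases e2 <;> cases e3 <;> simp only [phiR3, loop3, w3, hL]
  · have e1 : x 0 = x 1 := h1
    have e2 : x 1 = x 2 := h2
    simp only [← e2, ← e1]
  all_goals simp

theorem R3D_ii (hpm : p ≠ m) (hmq : m ≠ q) (hpq : p ≠ q) (w : Word N) (r : Row N)
    (hp : r p = r m) (hq : r m ≠ r q) :
    SoMap (w3 hpm hmq w) (w3' hpm hmq w) r (phiR3 p m) := by
  refine ⟨fun _ _ => 0, fun _ _ _ => rfl, fun v x hv hx => ?_⟩
  rw [R3D_dd_zero, add_zero]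
  rcases v with _ | ⟨e1, _ | ⟨e2, _ | ⟨e3, v⟩⟩⟩
  · simp [w3'] at hv
  · simp [w3'] at hv
  · simp [w3'] at hv
  obtain ⟨h1, h2, h3, hw⟩ := hx
  have g1 : flip p m r m = flip p m r q := by
    simp only [flip, or_true, if_true, hpq.symm, hmq.symm, or_self, if_false]
    exact R3D_z2 hq
  have g2 : flip m q (flip p m r) p ≠ flip m q (flip p m r) m := by
    simp only [flip, or_true, true_or, if_true, hpq, hpm, hpq.symm, hmq.symm, or_self, if_false,
      hp, R3D_z2']
    exact R3D_ne _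
  have hL := fun s1 s2 s3 => R3D_at3 (l1 := ⟨p, m, hpm, true⟩) (l2 := ⟨m, q, hmq, true⟩)
    (l3 := ⟨p, m, hpm, true⟩) (w := w) (r := r) (R3D_eo_t hp) (R3D_nxt_t hp) (R3D_eo_t g1)
    (R3D_nxt_t g1) (R3D_eo_f g2) (R3D_nxt_f g2) s1 s2 s3 v x
  have hR := R3D_so3 (l1 := ⟨m, q, hmq, true⟩) (l2 := ⟨p, m, hpm, true⟩)
    (l3 := ⟨m, q, hmq, true⟩) (w := w) (r := r) (R3D_eo_f hq) (R3D_nxt_f hq) (R3D_eo_t hp)
    (R3D_nxt_t hp) (R3D_eo_t g1) (R3D_nxt_t g1) e1 e2 e3 v x
  unfold w3'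
  rw [hR]
  have hS : so w (flip m q (flip p m r)) v (tl (tl (tl x))) ≠ 0 → x 3 = flip m q (flip p m r) :=
    R3D_so_ne
  generalize so w (flip m q (flip p m r)) v (tl (tl (tl x))) = S at hS hL ⊢
  by_cases hS0 : S = 0
  · cases e1 <;> cases e2 <;> cases e3 <;> simp [phiR3, loop3, w3, hL, hS0]
  have h4 := hS hS0
  cases e1 <;> cases e2 <;> cases e3 <;> simp only [phiR3, loop3, w3, hL]
  · simp
  · simp
  · simp
  · have e1 : x 0 = x 1 := h1
    simp [h4, ← e1]
  · simp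
  · have hne := R3D_flip_ne p m r
    simp
    intro _ h5 h6
    exact absurd (h6.symm.trans h5) hne
  · simp
  · simp

theorem R3D_iii (hpm : p ≠ m) (hmq : m ≠ q) (hpq : p ≠ q) (w : Word N) (r : Row N)
    (hp : r p ≠ r m) (hq : r m = r q) :
    SoMap (w3 hpm hmq w) (w3' hpm hmq w) r (phiR3 p m) := by
  refine ⟨fun _ _ => 0, fun _ _ _ => rfl, fun v x hv hx => ?_⟩
  rw [R3D_dd_zero, add_zero]
  rcases v with _ | ⟨e1, _ | ⟨e2, _ | ⟨e3, v⟩⟩⟩
  · simp [w3'] at hv
  · simp [w3'] at hv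
  · simp [w3'] at hv
  obtain ⟨h1, h2, h3, hw⟩ := hx
  have g1 : flip m q r p = flip m q r m := by
    simp only [flip, true_or, if_true, hpq, hpm, or_self, if_false]
    exact (R3D_z2 (Ne.symm hp)).symm
  have g2 : flip p m (flip m q r) m ≠ flip p m (flip m q r) q := by
    simp only [flip, or_true, true_or, if_true, hpq, hpm, hpq.symm, hmq.symm, or_self, if_false,
      hq, R3D_z2']
    exact (R3D_ne _).symm
  have hL := fun s1 s2 s3 => R3D_at3 (l1 := ⟨p, m, hpm, true⟩) (l2 := ⟨m, q, hmq, true⟩)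
    (l3 := ⟨p, m, hpm, true⟩) (w := w) (r := r) (R3D_eo_f hp) (R3D_nxt_f hp) (R3D_eo_t hq)
    (R3D_nxt_t hq) (R3D_eo_t g1) (R3D_nxt_t g1) s1 s2 s3 v x
  have hR := R3D_so3 (l1 := ⟨m, q, hmq, true⟩) (l2 := ⟨p, m, hpm, true⟩)
    (l3 := ⟨m, q, hmq, true⟩) (w := w) (r := r) (R3D_eo_t hq) (R3D_nxt_t hq) (R3D_eo_t g1)
    (R3D_nxt_t g1) (R3D_eo_f g2) (R3D_nxt_f g2) e1 e2 e3 v x
  unfold w3'
  rw [hR]
  have hS : so w (flip p m (flip m q r)) v (tl (tl (tl x))) ≠ 0 → x 3 = flip p m (flip m q r) :=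
    R3D_so_ne
  generalize so w (flip p m (flip m q r)) v (tl (tl (tl x))) = S at hS hL ⊢
  by_cases hS0 : S = 0
  · cases e1 <;> cases e2 <;> cases e3 <;> simp [phiR3, loop3, w3, hL, hS0]
  have h4 := hS hS0
  cases e1 <;> cases e2 <;> cases e3 <;> simp only [phiR3, loop3, w3, hL]
  · simp
  · simp
  · simp
  · simp
  · simp
  · simp
  · have e1 : x 2 = x 3 := h3
    simp [h4, e1]
  · simp

open Classical in
/-- the correction in the fourth case -/
noncomputable def R3D_Z (w : Word N) (r : Row N) : Coch N := fun v x =>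
  match v with
  | true :: true :: true :: v => if x 0 = r ∧ x 1 = r ∧ x 2 = r ∧ x 3 = r then
      so w r v (tl (tl (tl x))) else 0
  | _ => 0

theorem R3D_two {r b : Row N} (h : Rel m q true r b) : b = r ∨ b = flip m q r := by
  obtain ⟨h1, h2, h3⟩ := h
  by_cases hm : b m = r m
  · left
    funext j
    by_cases j1 : j = m
    · rw [j1, hm]
    · by_cases j2 : j = q
      · rw [j2, ← h2, hm, h1]
      · exact (h3 j j1 j2).symm
  · right
    have hm' : r m + 1 = b m := R3D_z2 (Ne.symm hm)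
    funext j
    unfold flip
    by_cases j1 : j = m
    · rw [if_pos (Or.inl j1), j1, hm']
    · by_cases j2 : j = q
      · rw [if_pos (Or.inr j2), j2, ← h2, ← hm', h1]
      · rw [if_neg (not_or.2 ⟨j1, j2⟩)]
        exact (h3 j j1 j2).symm

theorem R3D_Z_dd {w : Word N} {r : Row N} {v : List Bool} {y : Col N} (hv : v.length = w.length)
    (hy : Valid w v y) (a b c : Row N) :
    dd w (fun v' y => R3D_Z w r (true :: true :: true :: v') (cs a (cs b (cs c y)))) v y = 0 := by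
  classical
  by_cases h : a = r ∧ b = r ∧ c = r
  · have h1 : (fun v' y => R3D_Z w r (true :: true :: true :: v') (cs a (cs b (cs c y)))) =
        so w r := by
      funext v' y
      change (if a = r ∧ b = r ∧ c = r ∧ y 0 = r then so w r v' y else 0) = so w r v' y
      by_cases h2 : y 0 = r
      · rw [if_pos ⟨h.1, h.2.1, h.2.2, h2⟩]
      · rw [if_neg (fun h3 => h2 h3.2.2.2)]
        by_contra h3
        exact h2 (R3D_so_ne (Ne.symm h3))
    rw [h1]
    exact dd_so hv hy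
  · have h1 : (fun v' y => R3D_Z w r (true :: true :: true :: v') (cs a (cs b (cs c y)))) =
        fun _ _ => 0 := by
      funext v' y
      change (if a = r ∧ b = r ∧ c = r ∧ y 0 = r then so w r v' y else 0) = 0
      exact if_neg (fun h2 => h ⟨h2.1, h2.2.1, h2.2.2.1⟩)
    rw [h1]
    exact R3D_dd_zero w v y

theorem R3D_iv (hpm : p ≠ m) (hmq : m ≠ q) (hpq : p ≠ q) (w : Word N) (r : Row N)
    (hp : r p = r m) (hq : r m = r q) :
    SoMap (w3 hpm hmq w) (w3' hpm hmq w) r (phiR3 p m) := by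
  classical
  refine ⟨R3D_Z w r, fun v y hy => ?_, fun v x hv hx => ?_⟩
  · unfold R3D_Z
    split
    · exact if_neg (fun h => hy h.1)
    · rfl
  rcases v with _ | ⟨e1, _ | ⟨e2, _ | ⟨e3, v⟩⟩⟩
  · simp [w3'] at hv
  · simp [w3'] at hv
  · simp [w3'] at hv
  have hv' : v.length = w.length := by simpa [w3'] using hv
  obtain ⟨h1, h2, h3, hw⟩ := hx
  have g1 : flip p m r m ≠ flip p m r q := by
    simp only [flip, or_true, if_true, hpq.symm, hmq.symm, or_self, if_false, hq]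
    exact R3D_ne _
  have g1' : (flip p m r) p = (flip p m r) m := by simp [flip, hp]
  have g2 : flip m q r p ≠ flip m q r m := by
    simp only [flip, true_or, if_true, hpq, hpm, or_self, if_false, hp]
    exact (R3D_ne _).symm
  have g2' : (flip m q r) m = (flip m q r) q := by simp [flip, hq]
  have hL := fun s1 s2 s3 => R3D_at3 (l1 := ⟨p, m, hpm, true⟩) (l2 := ⟨m, q, hmq, true⟩)
    (l3 := ⟨p, m, hpm, true⟩) (w := w) (r := r) (R3D_eo_t hp) (R3D_nxt_t hp) (R3D_eo_f g1)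
    (R3D_nxt_f g1) (R3D_eo_t g1') (R3D_nxt_t g1') s1 s2 s3 v x
  have hR := R3D_so3 (l1 := ⟨m, q, hmq, true⟩) (l2 := ⟨p, m, hpm, true⟩)
    (l3 := ⟨m, q, hmq, true⟩) (w := w) (r := r) (R3D_eo_t hq) (R3D_nxt_t hq) (R3D_eo_f g2)
    (R3D_nxt_f g2) (R3D_eo_t g2') (R3D_nxt_t g2') e1 e2 e3 v x
  have hloop := R3D_loop hpm hmq w hp g1 v x
  simp only [R3D_flip_flip] at hL hR
  have hdd : dd (w3' hpm hmq w) (R3D_Z w r) (e1 :: e2 :: e3 :: v) x =
      (if e1 = false ∧ Rel m q true (x 0) (x 1) then R3D_Z w r (true :: e2 :: e3 :: v) x else 0) +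
      ((if e2 = false ∧ Rel p m true (x 1) (x 2) then
        R3D_Z w r (e1 :: true :: e3 :: v) (cs (x 0) (tl x)) else 0) +
      ((if e3 = false ∧ Rel m q true (x 2) (x 3) then
        R3D_Z w r (e1 :: e2 :: true :: v) (cs (x 0) (cs (x 1) (tl (tl x)))) else 0) +
      dd w (fun v' y => R3D_Z w r (e1 :: e2 :: e3 :: v') (cs (x 0) (cs (x 1) (cs (x 2) y)))) v
        (tl (tl (tl x))))) := rfl
  rw [hdd]
  unfold w3'
  rw [hR]
  have hS : so w r v (tl (tl (tl x))) ≠ 0 → x 3 = r := R3D_so_ne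
  have hZ : ∀ y : Col N, tl (tl (tl y)) = tl (tl (tl x)) → y 0 = x 0 → y 1 = x 1 → y 2 = x 2 →
      R3D_Z w r (true :: true :: true :: v) y =
      if x 0 = r ∧ x 1 = r ∧ x 2 = r ∧ x 3 = r then so w r v (tl (tl (tl x))) else 0 := by
    intro y hy hy0 hy1 hy2
    have hy3 : y 3 = x 3 := congrFun hy 0
    change (if y 0 = r ∧ y 1 = r ∧ y 2 = r ∧ y 3 = r then so w r v (tl (tl (tl y))) else 0) = _
    rw [hy, hy0, hy1, hy2, hy3]
  have hZ1 := hZ x rfl rfl rfl rfl
  have hZ2 := hZ (cs (x 0) (tl x)) rfl rfl rfl rfl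
  have hZ3 := hZ (cs (x 0) (cs (x 1) (tl (tl x)))) rfl rfl rfl rfl
  have hZd := R3D_Z_dd (r := r) hv' hw (x 0) (x 1) (x 2)
  generalize so w r v (tl (tl (tl x))) = S at hS hL hloop hZ1 hZ2 hZ3 ⊢
  cases e1 <;> cases e2 <;> cases e3 <;> simp only [phiR3, hloop]
  · simp [w3, hL, R3D_Z, R3D_dd_zero]
  · simp [R3D_Z, R3D_dd_zero]
  · simp [w3, hL, R3D_Z, R3D_dd_zero]
  · -- state false true true
    rw [hZ1]
    simp only [w3, hL]
    have c1 : x 0 = x 1 := h1
    by_cases hS0 : S = 0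
    · simp [hS0, R3D_Z, R3D_dd_zero]
    have c3 := hS hS0
    by_cases c0 : x 0 = r
    · have hrel : Rel m q true r r := ⟨hq, hq, fun _ _ _ => rfl⟩
      have c1' : x 1 = r := by rw [← c1, c0]
      by_cases c2 : x 2 = r
      · simp [R3D_Z, R3D_dd_zero, c0, c1', c2, c3, hrel]
      · simp [R3D_Z, R3D_dd_zero, c0, c1', c2, c3]
    · simp [R3D_Z, R3D_dd_zero, c0]
  · simp [w3, hL, R3D_Z, R3D_dd_zero]
  · -- state true false true
    rw [hZ2]
    simp only [w3, hL]
    have c1 : x 1 = x 2 := h2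
    by_cases hS0 : S = 0
    · simp [hS0, R3D_Z, R3D_dd_zero]
    have c3 := hS hS0
    by_cases c0 : x 0 = r
    · have h1' : Rel m q true (x 0) (x 1) := h1
      rw [c0] at h1'
      have hne := R3D_flip_ne m q r
      rcases R3D_two h1' with c2 | c2
      · have hrel : Rel p m true r r := ⟨hp, hp, fun _ _ _ => rfl⟩
        have c2' : x 2 = r := by rw [← c1, c2]
        simp [R3D_Z, R3D_dd_zero, c0, c2, c2', c3, hrel, hp, hne.symm]
      · have c2' : x 2 = flip m q r := by rw [← c1, c2]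
        simp [R3D_Z, R3D_dd_zero, c0, c2, c2', c3, hp, hne]
    · simp [R3D_Z, R3D_dd_zero, c0]
  · -- state true true false
    rw [hZ3]
    simp only [w3, hL]
    have c1 : x 2 = x 3 := h3
    by_cases hS0 : S = 0
    · simp [hS0, R3D_Z, R3D_dd_zero]
    have c3 := hS hS0
    by_cases c0 : x 0 = r
    · have hrel : Rel m q true r r := ⟨hq, hq, fun _ _ _ => rfl⟩
      have c1' : x 2 = r := by rw [c1, c3]
      by_cases c2 : x 1 = r
      · simp [R3D_Z, R3D_dd_zero, c0, c1', c2, c3, hrel]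
      · simp [R3D_Z, R3D_dd_zero, c0, c1', c2, c3, Ne.symm c2]
    · simp [R3D_Z, R3D_dd_zero, c0]
  · rw [hZd]
    simp

/-- PROOF. The last canonical rows of both words above `r` agree (`r'`): cases on the three labels `r p, r m, r q` (up to adding 1 to all, four cases). Write `u = A B A` (left), `u' = B A B`. (i) `r p ≠ r m`, `r m ≠ r q`?? in `ZMod 2` this forces `r p = r q`: left: `A` is `I`; `B` is `I`; `A` is `I`: state `III`, rows all `r`; right the same: `φ (III) = III`: exact. Check that the other components of `φ (so)` vanish on valid colourings: they use `G` at states different from `III`. (ii) `r p = r m ≠ r q`: left: `A` is `E`, row `r1 = flip p m r`; now `r1 m = r q`, so `B` is `E`: row `r2 = flip m q r1`; then `r2 p = r p + 1`, `r2 m = r m + 2 = r m`, different: `A` is `I`. State `EEI`, rows `r, r1, r2, r2`. Right: `B`: `r m ≠ r q`: `I`; `A`: `E`, row `r1`; `B`: `E`, row `r2`: state `IEE`, rows `r, r, r1, r2`. `φ`: at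 `IEE`: `G(EEI; x 2, b)` is `1` iff `a = r, x 2 = r1, b = r2`: correct. The other use of `EEI` is the target state `EIE`: `[a p = a m] G(EEI; a, b)`: needs `a = r` and `r1 = a`: impossible as `r1 ≠ r`. Exact. (iii) `r p ≠ r m = r q`: left: `A`: `I`; `B`: `E`, row `r1 = flip m q r`; `A`: `r1 p = r p = r m + 1 = r1 m`: `E`, row `r2 = flip p m r1`: state `IEE`, rows `r, r, r1, r2`. Right: `B`: `E`, `r1`; `A`: `E`, `r2`; `B`: `r2 m = r m`, `r2 q = r q + 1`: `I`: state `EEI`, rows `r, r1, r2, r2`. `φ` at `EEI`: `G(IEE; a, x 1)`: correct, exact (no other component uses `IEE`). (iv) `r p = r m = r q =: c0`: left: `A`: `E`, `r1 = flip p m r`; `B`: `r1 m ≠ r1 q`: `I`; `A`: `E`, back to `r`: state `EIE`, rows `r, r1, r1, r`. Right: `B`: `E`, `flip m q r =: t`; `A`: `t p ≠ t m`: `I`; `B`: `E`, back to `r`: state `EIE`, rows `r, t, t, r`. `φ (so)`: `L = 1` iff `a = r, b = r` (one of the two rows `c` is `r1`) [times `so w r v`]; so `φ (so)` is: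 at `IEE`: `[x 2 = b] [a = b = r]`, at `EEI`: `[a = x 1][a = b = r]`, at `EIE`: `[a p = a m][a = b = r]`, both values of the row `x 1 = x 2` (`r` or `t`). The difference with `so'` (at `EIE`, `x 1 = t`) is: `IEE` rows `(r, r, r, r)`, `EEI` rows `(r, r, r, r)`, `EIE` rows `(r, r, r, r)`. This is `dd z` for `z = [state E E E, x 0 = x 1 = x 2 = x 3 = r] * so w r v (tl (tl (tl x)))`: the three letters receive from `EEE` at the constant rows (all relations hold), and the `w` part is 0 by `dd_so`. Here `so w r` because the row above is `r`. -/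
theorem phiR3_soMap (hpm : p ≠ m) (hmq : m ≠ q) (hpq : p ≠ q) (w : Word N) (r : Row N) :
    SoMap (w3 hpm hmq w) (w3' hpm hmq w) r (phiR3 p m) := by
  by_cases hp : r p = r m
  · by_cases hq : r m = r q
    · exact R3D_iv hpm hmq hpq w r hp hq
    · exact R3D_ii hpm hmq hpq w r hp hq
  · by_cases hq : r m = r q
    · exact R3D_iii hpm hmq hpq w r hp hq
    · exact R3D_i hpm hmq w r hp hq

end Pool.Agent.HK
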