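import Pool.Agent.H.MP_cd3d06_an.K.R2A

/-!
Part A: the second Reidemeister move.
-/

namespace Pool.Agent.HK

variable {N : ℕ}

theorem R2B_nv_append {w1 w : Word N} {v1 v : List Bool} (h : v1.length = w1.length) :
    nv (w1 ++ w) (v1 ++ v) = nv w1 v1 + nv w v := by
  induction w1 generalizing v1 with
  | nil =>
    cases v1 with
    | nil => simp [nv]
    | cons e v1 => simp at h
  | cons l w1 ih =>
    cases v1 with
    | nil => simp at h
    | cons e v1 =>
      have h' : v1.length = w1.length := by simpa using h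
      simp only [List.cons_append, nv]
      rw [ih h']
      ring

theorem R2B_sh_append (w1 w : Word N) (r0 : Row N) :
    sh (w1 ++ w) r0 = sh w1 r0 + sh w (fin w1 r0) := by
  induction w1 generalizing r0 with
  | nil => simp [sh, fin]
  | cons l w1 ih =>
    simp only [List.cons_append, sh, fin]
    rw [ih]
    ring

theorem R2B_flip_flip (p q : Fin N) (r : Row N) : flip p q (flip p q r) = r := by
  funext j
  by_cases hj : j = p ∨ j = q
  · simp only [flip, hj, if_true]
    rw [add_assoc, show (1 : ZMod 2) + 1 = 0 from rfl, add_zero]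
  · simp only [flip, hj, if_false]

theorem R2B_sh_two (p q : Fin N) (h : p ≠ q) (b : Bool) (w : Word N) (r : Row N) :
    sh (⟨p, q, h, b⟩ :: ⟨p, q, h, !b⟩ :: w) r = -1 + sh w r := by
  by_cases hr : r p = r q
  · have h1 : nxt (⟨p, q, h, b⟩ : Letter N) r = flip p q r := by simp [nxt, hr]
    have h2 : flip p q r p = flip p q r q := by simp [flip, hr]
    have h3 : nxt (⟨p, q, h, !b⟩ : Letter N) (flip p q r) = r := by
      simp only [nxt, h2, if_true]
      exact R2B_flip_flip p q r
    simp only [sh, h1, h3, hr, h2, true_iff]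
    cases b <;> simp <;> ring
  · have h1 : nxt (⟨p, q, h, b⟩ : Letter N) r = r := by simp [nxt, hr]
    have h3 : nxt (⟨p, q, h, !b⟩ : Letter N) r = r := by simp [nxt, hr]
    simp only [sh, h1, h3, hr, false_iff]
    cases b <;> simp <;> ring

theorem R2B_nv_two (p q : Fin N) (h : p ≠ q) (b e : Bool) (w : Word N) (v : List Bool) :
    nv (⟨p, q, h, b⟩ :: ⟨p, q, h, !b⟩ :: w) (e :: e :: v) = 1 + nv w v := by
  cases b <;> cases e <;> simp [nv]

/-- split a state -/
theorem R2B_split {w1 w : Word N} {v : List Bool} (h : v.length = (w1 ++ w).length) :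
    ∃ v1 v2, v = v1 ++ v2 ∧ v1.length = w1.length ∧ v2.length = w.length := by
  refine ⟨v.take w1.length, v.drop w1.length, (List.take_append_drop _ _).symm, ?_, ?_⟩
  · rw [List.length_take, h, List.length_append]
    omega
  · rw [List.length_drop, h, List.length_append]
    omega

theorem R2B_lev_iff {w : Word N} {r : Row N} {l : ℤ} {g : Coch N} :
    Lev w r l g ↔ ∀ v : List Bool, v.length = w.length →
      D (K w v) ((dimK w v : ℤ) + nv w v + sh w r - l) (g v) := Iff.rfl

/-- `x ↦ (x 1, x 2, ...)` -/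
def R2B_tl : Col N →ₗ[ZMod 2] Col N where
  toFun x := tl x
  map_add' _ _ := rfl
  map_smul' _ _ := rfl

/-- `y ↦ (y 0, y 0, y 1, ...)` -/
def R2B_dup : Col N →ₗ[ZMod 2] Col N where
  toFun y := cs (y 0) y
  map_add' x y := by funext t; cases t <;> rfl
  map_smul' c y := by funext t; cases t <;> rfl

/-- the letter in the state `I` -/
def R2B_fibI (l : Letter N) (w : Word N) (v : List Bool) : Fib (l :: w) (false :: v) w v 0 where
  π := R2B_tl
  s := R2B_dup
  c := 0
  hπ := fun x hx => hx.2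
  π0 := fun x hx => (show x 0 = x 1 from hx.1).symm
  hs := fun y hy => ⟨show y 0 = y 0 from rfl, hy⟩
  s0 := fun y hy => rfl
  πs := fun y hy => rfl
  hc := Valid.zero
  c0 := rfl
  πc := rfl
  fib := fun x hx => by
    left
    have h1 : x 0 = x 1 := hx.1
    funext t
    cases t with
    | zero => exact h1
    | succ t => rfl
  ck := Or.inl ⟨rfl, rfl⟩

/-- both letters in the state `I` -/
def R2B_fibII (l l' : Letter N) (w : Word N) (v : List Bool) :
    Fib (l :: l' :: w) (false :: false :: v) w v 0 where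
  π := R2B_tl ∘ₗ R2B_tl
  s := R2B_dup ∘ₗ R2B_dup
  c := 0
  hπ := fun x hx => hx.2.2
  π0 := fun x hx => by
    have h1 : x 0 = x 1 := hx.1
    have h2 : x 1 = x 2 := hx.2.1
    show x 2 = x 0
    rw [h1, h2]
  hs := fun y hy => ⟨show y 0 = y 0 from rfl, show y 0 = y 0 from rfl, hy⟩
  s0 := fun y hy => rfl
  πs := fun y hy => rfl
  hc := Valid.zero
  c0 := rfl
  πc := rfl
  fib := fun x hx => by
    left
    have h1 : x 0 = x 1 := hx.1
    have h2 : x 1 = x 2 := hx.2.1
    funext t
    match t with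
    | 0 => exact h1.trans h2
    | 1 => exact h2
    | (t + 2) => rfl
  ck := Or.inl ⟨rfl, rfl⟩

/-- `x ↦ (x 0, x 2, x 3, ...)` -/
def R2B_del : Col N →ₗ[ZMod 2] Col N where
  toFun x := cs (x 0) (tl (tl x))
  map_add' x y := by funext t; cases t <;> rfl
  map_smul' c y := by funext t; cases t <;> rfl

/-- `y ↦ (y 0, y 1, y 1, y 2, ...)` -/
def R2B_ins : Col N →ₗ[ZMod 2] Col N where
  toFun y := cs (y 0) (cs (y 1) (tl y))
  map_add' x y := by
    funext t
    match t with
    | 0 => rfl
    | 1 => rfl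
    | (t + 2) => rfl
  map_smul' c y := by
    funext t
    match t with
    | 0 => rfl
    | 1 => rfl
    | (t + 2) => rfl

/-- the row `e_p + e_q` -/
def R2B_epq (p q : Fin N) : Row N := fun j => if j = p ∨ j = q then 1 else 0

/-- the colouring `(0, e_p + e_q, 0, ...)` -/
def R2B_c (p q : Fin N) : Col N := cs 0 (cs (R2B_epq p q) 0)

theorem R2B_zmod2 (a : ZMod 2) : a = 0 ∨ a = 1 := by
  revert a
  decide

theorem R2B_row {p q : Fin N} {a b : Row N} (ha : a p = a q) (hb : b p = b q)
    (hab : ∀ j, j ≠ p → j ≠ q → a j = b j) : a = b ∨ a = b + R2B_epq p q := by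
  by_cases hp : a p = b p
  · left
    funext j
    by_cases h1 : j = p
    · rw [h1, hp]
    · by_cases h2 : j = q
      · rw [h2, ← ha, ← hb, hp]
      · exact hab j h1 h2
  · right
    have hp' : a p = b p + 1 := by
      rcases R2B_zmod2 (a p) with h | h <;> rcases R2B_zmod2 (b p) with h' | h' <;>
        rw [h, h'] at hp ⊢
      · exact absurd rfl hp
      · rfl
      · rfl
      · exact absurd rfl hp
    funext j
    by_cases h1 : j = p
    · rw [h1, hp']
      simp [R2B_epq]
    · by_cases h2 : j = q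
      · rw [h2, ← ha, hp', hb]
        simp [R2B_epq]
      · rw [hab j h1 h2]
        simp [R2B_epq, h1, h2]

/-- both letters in the state `E` -/
def R2B_fibEE (p q : Fin N) (h : p ≠ q) (b b' b'' : Bool) (w : Word N) (v : List Bool) :
    Fib (⟨p, q, h, b⟩ :: ⟨p, q, h, b'⟩ :: w) (true :: true :: v) (⟨p, q, h, b''⟩ :: w)
      (true :: v) 1 where
  π := R2B_del
  s := R2B_ins
  c := R2B_c p q
  hπ := fun x hx => by
    obtain ⟨⟨h1, h2, h3⟩, ⟨h4, h5, h6⟩, h7⟩ := hx
    refine ⟨⟨h1, h5, fun j hj hj' => ?_⟩, h7⟩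
    exact (h3 j hj hj').trans (h6 j hj hj')
  π0 := fun x hx => rfl
  hs := fun y hy => by
    obtain ⟨⟨h1, h2, h3⟩, h7⟩ := hy
    exact ⟨⟨h1, h2, h3⟩, ⟨h2, h2, fun _ _ _ => rfl⟩, h7⟩
  s0 := fun y hy => rfl
  πs := fun y hy => by
    funext t
    cases t <;> rfl
  hc := by
    refine ⟨⟨rfl, ?_, fun j hj hj' => ?_⟩, ⟨?_, rfl, fun j hj hj' => ?_⟩, Valid.zero⟩
    · show R2B_epq p q p = R2B_epq p q q
      simp [R2B_epq]
    · show (0 : ZMod 2) = R2B_epq p q j
      simp [R2B_epq, hj, hj']
    · show R2B_epq p q p = R2B_epq p q q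
      simp [R2B_epq]
    · show R2B_epq p q j = (0 : ZMod 2)
      simp [R2B_epq, hj, hj']
  c0 := rfl
  πc := by
    funext t
    cases t <;> rfl
  fib := fun x hx => by
    obtain ⟨⟨h1, h2, h3⟩, ⟨h4, h5, h6⟩, h7⟩ := hx
    rcases R2B_row (a := x 1) (b := x 2) h2 h5 h6 with hh | hh
    · left
      funext t
      match t with
      | 0 => rfl
      | 1 => exact hh
      | (t + 2) => rfl
    · right
      funext t
      match t with
      | 0 => exact (add_zero (x 0)).symm
      | 1 => exact hh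
      | (t + 2) => exact (add_zero (x (t + 2))).symm
  ck := by
    refine Or.inr ⟨fun h0 => ?_, rfl⟩
    have h1 : R2B_epq p q p = 0 := congrFun (congrFun h0 1) p
    simp [R2B_epq] at h1

theorem R2B_csN_ge {k t : ℕ} (h : k ≤ t) (x y : Col N) : csN k x y t = y (t - k) := by
  simp [csN, Nat.not_lt.2 h]

theorem R2B_csN_k (k : ℕ) (x y : Col N) : csN k x y k = y 0 := by
  rw [R2B_csN_ge le_rfl, Nat.sub_self]

theorem R2B_csN_k1 (k : ℕ) (x y : Col N) : csN k x y (k + 1) = y 1 := by
  rw [R2B_csN_ge (Nat.le_add_right k 1), Nat.add_sub_cancel_left]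

theorem R2B_tlN_csN (k : ℕ) (x y : Col N) : tlN k (csN k x y) = y := by
  funext t
  show csN k x y (t + k) = y t
  rw [R2B_csN_ge (Nat.le_add_left k t), Nat.add_sub_cancel]

theorem R2B_csN_csN (k : ℕ) (x y z : Col N) : csN k (csN k x y) z = csN k x z := by
  funext t
  by_cases ht : t < k <;> simp [csN, ht]

theorem R2B_add_c (k : ℕ) (x : Col N) (p q : Fin N) (a : Row N) (z : Col N) :
    csN k x (cs a (cs a z)) + csN k 0 (R2B_c p q) =
      csN k x (cs a (cs (a + R2B_epq p q) z)) := by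
  funext t
  show csN k x (cs a (cs a z)) t + csN k 0 (R2B_c p q) t = _
  by_cases ht : t < k
  · simp only [csN, ht, if_true]
    exact add_zero (x t)
  · simp only [csN, ht, if_false]
    match t - k with
    | 0 => exact add_zero a
    | 1 => rfl
    | (m + 2) => exact add_zero (z m)

theorem R2B_setpq_same {p q : Fin N} {a : Row N} {c : ZMod 2} (hpq : a p = a q) (h0 : a p = c) :
    setpq p q c a = a := by
  funext j
  by_cases h1 : j = p
  · simp [setpq, h1, h0]
  · by_cases h2 : j = q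
    · simp [setpq, h2, ← hpq, h0]
    · simp [setpq, h1, h2]

theorem R2B_setpq_other {p q : Fin N} {a : Row N} {c : ZMod 2} (hpq : a p = a q)
    (h0 : a p + 1 = c) : setpq p q c a = a + R2B_epq p q := by
  funext j
  by_cases h1 : j = p
  · simp [setpq, R2B_epq, h1, h0]
  · by_cases h2 : j = q
    · simp [setpq, R2B_epq, h2, ← hpq, h0]
    · simp [setpq, R2B_epq, h1, h2]

/-- PROOF. Let `k = w1.length` and `v = v1 ++ s1 :: s2 :: v2` (split the state with `List.take/drop`). `lftN_apply` gives the value at `(v, x)`. `Lev` says: for all `v'`, `D (K (w1 ++ w) v') (dimK + nv + sh - l) (g v')`. `nv`, `sh` are additive over `++` up to `nv (w1 ++ w) (v1 ++ v2) = nv w1 v1 + nv w v2`, `sh (w1 ++ w) r0 = sh w1 r0 + sh w (fin w1 r0)`. The two letters contribute to `sh` exactly `1 - 2 = -1` (one of them is a positive, the other one a negative crossing, the row `r` returns to itself), and to `nv`: `+1` for `II` and for `EE`. States `IE`, `EI`: value 0 (`D.zero`). State `II`: value `g (v1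 ++ v2) (csN k x (tl (tl (tlN k x))))`: pull back along the fibration (`Fib.up` of the local one with `π = tl ∘ tl`, `s y = cs (y 0) (cs (y 0) y)`, `c = 0`, `k = 0`): the dimensions agree and `nv + sh` changes by `1 - 1 = 0`. State `EE`: consider the word `w1 ++ u1 :: w`: (i) pull `g (v1 ++ v2)` back to `K (w1 ++ u1 :: w) (v1 ++ false :: v2)` (local `π = tl`, `s y = cs (y 0) y`, `k = 0`); (ii) saddle `D.sad` (with `e = false`) to the state `true`: level constant `+1`; (iii) pull back to `K (w1 ++ u1 :: u2 :: w) (v1 ++ true :: true :: v2)` along the local fibration `π x = (x 0, x 2, x 3, ...)`, `s y = (y 0, y 1, y 1, y 2, ...)`, `c = (0, e_p + e_q, 0, 0, ...)`, `k = 1`. The resulting function is the `EE` component (`Rel I (x 0) (x 2)` means `x 0 = x 2`). Count: `A = dimK_0 + const` for `g`, `dimK_0 = dimK_I`; after the saddle `dimK_E + const + 1 = dimK_EE + const`; and `nv + sh` changes by 0. So exactly the bound needed. -/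
theorem phiR2f_levMap (hN : Even N) (p q : Fin N) (h : p ≠ q) (b : Bool) (w : Word N) (r : Row N) :
    LevMap 0 w (⟨p, q, h, b⟩ :: ⟨p, q, h, !b⟩ :: w) r phiR2f := by
  intro w1 r0 hr0 l g hg
  rw [R2B_lev_iff] at hg ⊢
  intro v hv
  obtain ⟨v1, v2', rfl, hv1, hv2'⟩ := R2B_split hv
  obtain ⟨s1, s2, v2, rfl, hv2⟩ : ∃ s1 s2 v2, v2' = s1 :: s2 :: v2 ∧ v2.length = w.length := by
    match v2', hv2' with
    | s1 :: s2 :: v2, h => exact ⟨s1, s2, v2, rfl, by simpa using h⟩
  have hg0 := hg (v1 ++ v2) (by simp [hv1, hv2])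
  rw [R2B_nv_append hv1, R2B_sh_append, hr0] at hg0 ⊢
  rw [R2B_sh_two]
  have hval : ∀ x, lftN w1.length phiR2f g (v1 ++ s1 :: s2 :: v2) x =
      phiR2f (fun v' y => g (v1 ++ v') (csN w1.length x y)) (s1 :: s2 :: v2)
        (tlN w1.length x) := fun x => lftN_apply _ _ _ _ _ hv1 x
  have dI : dimK (w1 ++ ⟨p, q, h, b⟩ :: w) (v1 ++ false :: v2) = dimK (w1 ++ w) (v1 ++ v2) + 0 :=
    ((R2B_fibI ⟨p, q, h, b⟩ w v2).up w1 v1 hv1).dim
  have dII : dimK (w1 ++ ⟨p, q, h, b⟩ :: ⟨p, q, h, !b⟩ :: w) (v1 ++ false :: false :: v2) =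
      dimK (w1 ++ w) (v1 ++ v2) + 0 :=
    ((R2B_fibII ⟨p, q, h, b⟩ ⟨p, q, h, !b⟩ w v2).up w1 v1 hv1).dim
  have dEE : dimK (w1 ++ ⟨p, q, h, b⟩ :: ⟨p, q, h, !b⟩ :: w) (v1 ++ true :: true :: v2) =
      dimK (w1 ++ ⟨p, q, h, b⟩ :: w) (v1 ++ true :: v2) + 1 :=
    ((R2B_fibEE p q h b (!b) b w v2).up w1 v1 hv1).dim
  cases s1 <;> cases s2
  · -- the state `II`
    rw [R2B_nv_two]
    have h1 := D.pull ((R2B_fibII ⟨p, q, h, b⟩ ⟨p, q, h, !b⟩ w v2).up w1 v1 hv1) hg0
    refine D.congr (fun x _ => ?_) (h1.mono ?_)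
    · exact (hval x).symm
    · rw [dII]
      push_cast
      linarith
  · exact D.congr (fun x _ => (hval x).symm) D.zero
  · exact D.congr (fun x _ => (hval x).symm) D.zero
  · -- the state `EE`
    rw [R2B_nv_two]
    have h1 := D.pull ((R2B_fibI ⟨p, q, h, b⟩ w v2).up w1 v1 hv1) hg0
    have h2 : D (K (w1 ++ ⟨p, q, h, b⟩ :: w) (v1 ++ false :: v2))
        ((dimK (w1 ++ ⟨p, q, h, b⟩ :: w) (v1 ++ false :: v2) : ℤ) +
          (nv w1 v1 + nv w v2 + (sh w1 r0 + sh w r) - l))
        (fun x => g (v1 ++ v2) (((R2B_fibI ⟨p, q, h, b⟩ w v2).up w1 v1 hv1).π x)) := by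
      refine h1.mono ?_
      rw [dI]
      push_cast
      linarith
    have h3 := D.sad hN hv1 hv2 ⟨p, q, h, b⟩ false h2
    rw [Bool.not_false] at h3
    have h4 := D.pull ((R2B_fibEE p q h b (!b) b w v2).up w1 v1 hv1) h3
    refine D.congr (fun x _ => ?_) (h4.mono ?_)
    · rw [hval x]
      have e1 : ((R2B_fibEE p q h b (!b) b w v2).up w1 v1 hv1).π x w1.length =
          tlN w1.length x 0 := by
        show csN w1.length x (R2B_del (tlN w1.length x)) w1.length = _
        rw [R2B_csN_k]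
        rfl
      have e2 : ((R2B_fibEE p q h b (!b) b w v2).up w1 v1 hv1).π x (w1.length + 1) =
          tlN w1.length x 2 := by
        show csN w1.length x (R2B_del (tlN w1.length x)) (w1.length + 1) = _
        rw [R2B_csN_k1]
        rfl
      have e3 : ((R2B_fibI ⟨p, q, h, b⟩ w v2).up w1 v1 hv1).π
          (((R2B_fibEE p q h b (!b) b w v2).up w1 v1 hv1).π x) =
          csN w1.length x (tl (tl (tlN w1.length x))) := by
        show csN w1.length (csN w1.length x (R2B_del (tlN w1.length x)))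
          (tl (tlN w1.length (csN w1.length x (R2B_del (tlN w1.length x))))) = _
        rw [R2B_tlN_csN, R2B_csN_csN]
        rfl
      rw [e1, e2, e3]
      by_cases hh : tlN w1.length x 0 = tlN w1.length x 2
      · have hrel : Rel p q false (tlN w1.length x 0) (tlN w1.length x 2) := hh
        rw [if_pos hrel]
        simp only [phiR2f]
        rw [if_pos hh]
      · have hrel : ¬ Rel p q false (tlN w1.length x 0) (tlN w1.length x 2) := hh
        rw [if_neg hrel]
        simp only [phiR2f]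
        rw [if_neg hh]
    · rw [dEE]
      push_cast
      linarith

/-- PROOF. As for `phiR2f_levMap` (read it first). The value at `(v1 ++ v2, x)` is the sum of two terms. First term: pull back along `s` of the `II`-fibration (i.e. the fibration in the other direction, an isomorphism). Second term: for the state `EE` of `g`: `D.push` along the fibration `K (EE) → K (w1 ++ u1 :: w) (v1 ++ true :: v2)` (`k = 1`): level constant `A - 2`, the function `y ↦ g (s y + c) + g (s y)`, where the two colourings are `y` with the row `setpq p q 0 (y 1)` resp. `setpq p q 1 (y 1)` inserted as number 1 (note `y 1` and `y 0` agree outside of `p, q`); then `D.sad` with `e = true` to the state `false` (`+1`); then pull back to `K (w1 ++ w) (v1 ++ v2)` along `y = cs (x 0) x`. Count: `dimK_EE = dimK_E + 1`; `dimK_EE + const - 2 = dimK_E + const - 1`, after the saddle `dimK_I + const`, `dimK_I = dimK_0`; `nv + sh` changes by 0. -/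
theorem phiR2g_levMap (hN : Even N) (p q : Fin N) (h : p ≠ q) (b : Bool) (w : Word N) (r : Row N) :
    LevMap 0 (⟨p, q, h, b⟩ :: ⟨p, q, h, !b⟩ :: w) w r (phiR2g p q) := by
  intro w1 r0 hr0 l g hg
  rw [R2B_lev_iff] at hg ⊢
  intro v hv
  obtain ⟨v1, v2, rfl, hv1, hv2⟩ := R2B_split hv
  have hgI := hg (v1 ++ false :: false :: v2) (by simp [hv1, hv2])
  have hgE := hg (v1 ++ true :: true :: v2) (by simp [hv1, hv2])
  rw [R2B_nv_append hv1, R2B_sh_append, hr0] at hgI hgE ⊢
  rw [R2B_sh_two, R2B_nv_two] at hgI hgE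
  have hval : ∀ x, lftN w1.length (phiR2g p q) g (v1 ++ v2) x =
      phiR2g p q (fun v' y => g (v1 ++ v') (csN w1.length x y)) v2
        (tlN w1.length x) := fun x => lftN_apply _ _ _ _ _ hv1 x
  have dI : dimK (w1 ++ ⟨p, q, h, b⟩ :: w) (v1 ++ false :: v2) = dimK (w1 ++ w) (v1 ++ v2) + 0 :=
    ((R2B_fibI ⟨p, q, h, b⟩ w v2).up w1 v1 hv1).dim
  have dII : dimK (w1 ++ ⟨p, q, h, b⟩ :: ⟨p, q, h, !b⟩ :: w) (v1 ++ false :: false :: v2) =
      dimK (w1 ++ w) (v1 ++ v2) + 0 :=
    ((R2B_fibII ⟨p, q, h, b⟩ ⟨p, q, h, !b⟩ w v2).up w1 v1 hv1).dim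
  have dEE : dimK (w1 ++ ⟨p, q, h, b⟩ :: ⟨p, q, h, !b⟩ :: w) (v1 ++ true :: true :: v2) =
      dimK (w1 ++ ⟨p, q, h, b⟩ :: w) (v1 ++ true :: v2) + 1 :=
    ((R2B_fibEE p q h b (!b) b w v2).up w1 v1 hv1).dim
  -- first term
  have hfirst : D (K (w1 ++ w) (v1 ++ v2))
      ((dimK (w1 ++ w) (v1 ++ v2) : ℤ) + (nv w1 v1 + nv w v2) + (sh w1 r0 + sh w r) - (l - 0))
      (fun x => g (v1 ++ false :: false :: v2)
        (csN w1.length x (cs (tlN w1.length x 0) (cs (tlN w1.length x 0) (tlN w1.length x))))) := by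
    have h1 := hgI.comp' ((R2B_fibII ⟨p, q, h, b⟩ ⟨p, q, h, !b⟩ w v2).up w1 v1 hv1).s
      ((R2B_fibII ⟨p, q, h, b⟩ ⟨p, q, h, !b⟩ w v2).up w1 v1 hv1).mapsK'
    refine D.congr (fun x _ => rfl) (h1.mono ?_)
    rw [dII]
    push_cast
    linarith
  -- second term
  have hsecond : D (K (w1 ++ w) (v1 ++ v2))
      ((dimK (w1 ++ w) (v1 ++ v2) : ℤ) + (nv w1 v1 + nv w v2) + (sh w1 r0 + sh w r) - (l - 0))
      (fun x => if tlN w1.length x 0 p = tlN w1.length x 0 q then
        g (v1 ++ true :: true :: v2) (csN w1.length x (cs (tlN w1.length x 0)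
          (cs (setpq p q 0 (tlN w1.length x 0)) (tlN w1.length x)))) +
        g (v1 ++ true :: true :: v2) (csN w1.length x (cs (tlN w1.length x 0)
          (cs (setpq p q 1 (tlN w1.length x 0)) (tlN w1.length x))))
        else 0) := by
    have h1 := D.push ((R2B_fibEE p q h b (!b) b w v2).up w1 v1 hv1) hgE
    have h2 : D (K (w1 ++ ⟨p, q, h, b⟩ :: w) (v1 ++ true :: v2))
        ((dimK (w1 ++ ⟨p, q, h, b⟩ :: w) (v1 ++ true :: v2) : ℤ) +
          (nv w1 v1 + nv w v2 + (sh w1 r0 + sh w r) - l - 1))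
        (fun y => g (v1 ++ true :: true :: v2)
            (((R2B_fibEE p q h b (!b) b w v2).up w1 v1 hv1).s y +
              ((R2B_fibEE p q h b (!b) b w v2).up w1 v1 hv1).c) +
          g (v1 ++ true :: true :: v2)
            (((R2B_fibEE p q h b (!b) b w v2).up w1 v1 hv1).s y)) := by
      refine h1.mono ?_
      rw [dEE]
      push_cast
      linarith
    have h3 := D.sad hN hv1 hv2 ⟨p, q, h, b⟩ true h2
    rw [Bool.not_true] at h3
    have h4 := h3.comp' ((R2B_fibI ⟨p, q, h, b⟩ w v2).up w1 v1 hv1).s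
      ((R2B_fibI ⟨p, q, h, b⟩ w v2).up w1 v1 hv1).mapsK'
    refine D.congr (fun x _ => ?_) (h4.mono ?_)
    · have e1 : ((R2B_fibI ⟨p, q, h, b⟩ w v2).up w1 v1 hv1).s x w1.length =
          tlN w1.length x 0 := by
        show csN w1.length x (R2B_dup (tlN w1.length x)) w1.length = _
        rw [R2B_csN_k]
        rfl
      have e2 : ((R2B_fibI ⟨p, q, h, b⟩ w v2).up w1 v1 hv1).s x (w1.length + 1) =
          tlN w1.length x 0 := by
        show csN w1.length x (R2B_dup (tlN w1.length x)) (w1.length + 1) = _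
        rw [R2B_csN_k1]
        rfl
      have e3 : ((R2B_fibEE p q h b (!b) b w v2).up w1 v1 hv1).s
          (((R2B_fibI ⟨p, q, h, b⟩ w v2).up w1 v1 hv1).s x) =
          csN w1.length x (cs (tlN w1.length x 0) (cs (tlN w1.length x 0)
            (tlN w1.length x))) := by
        show csN w1.length (csN w1.length x (R2B_dup (tlN w1.length x)))
          (R2B_ins (tlN w1.length (csN w1.length x (R2B_dup (tlN w1.length x))))) = _
        rw [R2B_tlN_csN, R2B_csN_csN]
        rfl
      have e4 : csN w1.length x (cs (tlN w1.length x 0) (cs (tlN w1.length x 0)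
            (tlN w1.length x))) + ((R2B_fibEE p q h b (!b) b w v2).up w1 v1 hv1).c =
          csN w1.length x (cs (tlN w1.length x 0) (cs (tlN w1.length x 0 + R2B_epq p q)
            (tlN w1.length x))) := by
        show _ + csN w1.length 0 (R2B_c p q) = _
        exact R2B_add_c _ _ _ _ _ _
      rw [e1, e2, e3, e4]
      by_cases hpq : tlN w1.length x 0 p = tlN w1.length x 0 q
      · have hrel : Rel p q true (tlN w1.length x 0) (tlN w1.length x 0) :=
          ⟨hpq, hpq, fun _ _ _ => rfl⟩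
        rw [if_pos hrel, if_pos hpq]
        rcases R2B_zmod2 (tlN w1.length x 0 p) with h0 | h0
        · rw [R2B_setpq_same hpq h0, R2B_setpq_other (c := 1) hpq (by rw [h0]; rfl), add_comm]
        · rw [R2B_setpq_same hpq h0, R2B_setpq_other (c := 0) hpq (by rw [h0]; rfl)]
      · have hrel : ¬ Rel p q true (tlN w1.length x 0) (tlN w1.length x 0) :=
          fun hh => hpq hh.1
        rw [if_neg hrel, if_neg hpq]
    · rw [dI]
      push_cast
      linarith
  exact D.congr (fun x _ => (hval x).symm) (hfirst.add hsecond)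

end Pool.Agent.HK
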