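import Pool.Agent.H.MP_cd3d06_an.K.R3A
import Pool.Agent.H.MP_cd3d06_an.K.R2B

/-!
Part A: the third Reidemeister move (positive letters),
`(p,m) (m,q) (p,m)  →  (m,q) (p,m) (m,q)`, three different positions `p, m, q`.  Levels.
-/

namespace Pool.Agent.HK

variable {N : ℕ}

variable {p m q : Fin N}

/-- replace the rows number 1 and 2 by the rows number `i` and `j` -/
def R3E_rw (i j : ℕ) : Col N →ₗ[ZMod 2] Col N where
  toFun x := cs (x 0) (cs (x i) (cs (x j) (tl (tl (tl x)))))
  map_add' x y := by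
    funext t
    rcases t with _ | _ | _ | t <;> rfl
  map_smul' c x := by
    funext t
    rcases t with _ | _ | _ | t <;> rfl

theorem R3E_rw_apply (i j : ℕ) (x : Col N) :
    R3E_rw i j x = cs (x 0) (cs (x i) (cs (x j) (tl (tl (tl x))))) := rfl

theorem R3E_ext {x y : Col N} (h0 : x 0 = y 0) (h1 : x 1 = y 1) (h2 : x 2 = y 2)
    (h3 : tl (tl (tl x)) = tl (tl (tl y))) : x = y := by
  funext t
  rcases t with _ | _ | _ | t
  · exact h0
  · exact h1
  · exact h2
  · exact congrFun h3 t

/-- an isomorphism that replaces rows -/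
def R3E_iso {w' w : Word N} {v' v : List Bool} (i j i' j' : ℕ)
    (h1 : ∀ x, Valid w' v' x → Valid w v (R3E_rw i j x))
    (h2 : ∀ y, Valid w v y → Valid w' v' (R3E_rw i' j' y))
    (h3 : ∀ x, Valid w' v' x → R3E_rw i' j' (R3E_rw i j x) = x)
    (h4 : ∀ y, Valid w v y → R3E_rw i j (R3E_rw i' j' y) = y) : Fib w' v' w v 0 where
  π := R3E_rw i j
  s := R3E_rw i' j'
  c := 0
  hπ := h1
  π0 := fun _ _ => rfl
  hs := h2
  s0 := fun _ _ => rfl
  πs := h4
  hc := Valid.zero
  c0 := rfl
  πc := map_zero _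
  fib := fun x hx => Or.inl (h3 x hx).symm
  ck := Or.inl ⟨rfl, rfl⟩

theorem R3E_pull {w' w : Word N} {v' v : List Bool} {k : ℕ} (F : Fib w' v' w v k) {w1 : Word N}
    {v1 : List Bool} (h : v1.length = w1.length) {B : ℤ} {f : Col N → ZMod 2}
    (hf : D (K (w1 ++ w) (v1 ++ v)) (dimK (w1 ++ w) (v1 ++ v) + B) f) :
    D (K (w1 ++ w') (v1 ++ v')) (dimK (w1 ++ w') (v1 ++ v') + (B - k))
      (fun x => f (upN w1.length F.π x)) := by
  have h1 := D.pull (F.up w1 v1 h) hf
  have h2 := (F.up w1 v1 h).dim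
  have h3 : (dimK (w1 ++ w) (v1 ++ v) : ℤ) + B = dimK (w1 ++ w') (v1 ++ v') + (B - k) := by
    rw [h2]
    push_cast
    ring
  rw [h3] at h1
  exact h1

theorem R3E_push {w' w : Word N} {v' v : List Bool} (F : Fib w' v' w v 1) {w1 : Word N}
    {v1 : List Bool} (h : v1.length = w1.length) {B : ℤ} {f : Col N → ZMod 2}
    (hf : D (K (w1 ++ w') (v1 ++ v')) (dimK (w1 ++ w') (v1 ++ v') + B) f) :
    D (K (w1 ++ w) (v1 ++ v)) (dimK (w1 ++ w) (v1 ++ v) + (B - 1))
      (fun y => f (upN w1.length F.s y + csN w1.length 0 F.c) + f (upN w1.length F.s y)) := by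
  have h1 := D.push (F.up w1 v1 h) hf
  have h2 := (F.up w1 v1 h).dim
  have h3 : (dimK (w1 ++ w') (v1 ++ v') : ℤ) + B - 2 = dimK (w1 ++ w) (v1 ++ v) + (B - 1) := by
    rw [h2]
    push_cast
    ring
  rw [h3] at h1
  exact h1

theorem R3E_csN_upN (k : ℕ) (θ : Col N →ₗ[ZMod 2] Col N) (x y : Col N) :
    csN k (upN k θ x) y = csN k x y := by
  funext t
  by_cases ht : t < k
  · simp [csN, ht]
  · simp [csN, ht]

theorem R3E_tlN_upN (k : ℕ) (θ : Col N →ₗ[ZMod 2] Col N) (x : Col N) :
    tlN k (upN k θ x) = θ (tlN k x) := by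
  funext t
  simp [csN, tlN]

theorem R3E_row (k i : ℕ) (x : Col N) : x (k + i) = tlN k x i := by
  rw [tlN, add_comm]

/-- the letter number one -/
theorem R3E_sad1 (hN : Even N) {w1 w2 : Word N} {v1 v2 : List Bool} (h1 : v1.length = w1.length)
    (h2 : v2.length = w2.length) (l : Letter N) (e : Bool) {B : ℤ} {f : Col N → ZMod 2}
    (hf : D (K (w1 ++ l :: w2) (v1 ++ e :: v2))
      (dimK (w1 ++ l :: w2) (v1 ++ e :: v2) + B) f) :
    D (K (w1 ++ l :: w2) (v1 ++ (!e) :: v2))
      (dimK (w1 ++ l :: w2) (v1 ++ (!e) :: v2) + (B + 1))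
      (fun x => open Classical in
        if Rel l.p l.q e (tlN w1.length x 0) (tlN w1.length x 1) then f x else 0) := by
  have h3 := D.sad hN h1 h2 l e hf
  rw [add_assoc] at h3
  refine h3.congr fun x _ => ?_
  have e0 : x w1.length = tlN w1.length x 0 := R3E_row w1.length 0 x
  have e1 : x (w1.length + 1) = tlN w1.length x 1 := R3E_row w1.length 1 x
  rw [e0, e1]

/-- the letter number two -/
theorem R3E_sad2 (hN : Even N) {w1 w2 : Word N} {v1 v2 : List Bool} (h1 : v1.length = w1.length)
    (h2 : v2.length = w2.length) (l0 l : Letter N) (e0 e : Bool) {B : ℤ} {f : Col N → ZMod 2}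
    (hf : D (K (w1 ++ l0 :: l :: w2) (v1 ++ e0 :: e :: v2))
      (dimK (w1 ++ l0 :: l :: w2) (v1 ++ e0 :: e :: v2) + B) f) :
    D (K (w1 ++ l0 :: l :: w2) (v1 ++ e0 :: (!e) :: v2))
      (dimK (w1 ++ l0 :: l :: w2) (v1 ++ e0 :: (!e) :: v2) + (B + 1))
      (fun x => open Classical in
        if Rel l.p l.q e (tlN w1.length x 1) (tlN w1.length x 2) then f x else 0) := by
  have a1 : w1 ++ l0 :: l :: w2 = (w1 ++ [l0]) ++ l :: w2 := by simp
  have a2 : ∀ e : Bool, v1 ++ e0 :: e :: v2 = (v1 ++ [e0]) ++ e :: v2 := by simp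
  rw [a1, a2] at hf
  have h3 := R3E_sad1 hN (by simp [h1]) h2 l e hf
  rw [← a1, ← a2] at h3
  refine h3.congr fun x _ => ?_
  have e1 : ∀ i, tlN (w1 ++ [l0]).length x i = tlN w1.length x (i + 1) := by
    intro i
    simp only [tlN, List.length_append, List.length_singleton]
    congr 1
    omega
  rw [e1, e1]

theorem R3E_nv_append {w1 w : Word N} {v1 v : List Bool} (h : v1.length = w1.length) :
    nv (w1 ++ w) (v1 ++ v) = nv w1 v1 + nv w v := by
  induction w1 generalizing v1 with
  | nil =>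
    cases v1 with
    | nil => simp [nv]
    | cons e v1 => simp at h
  | cons l w1 ih =>
    cases v1 with
    | nil => simp at h
    | cons e v1 =>
      have h' : v1.length = w1.length := by simpa using h
      simp only [List.cons_append, nv, ih h']
      ring

theorem R3E_sh_append (w1 w : Word N) (r : Row N) :
    sh (w1 ++ w) r = sh w1 r + sh w (fin w1 r) := by
  induction w1 generalizing r with
  | nil => simp [sh, fin]
  | cons l w1 ih =>
    simp only [List.cons_append, sh, fin, ih]
    ring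

theorem R3E_ite {P Q : Prop} {i : Decidable P} {j : Decidable Q} (h : P ↔ Q) {a b : ZMod 2}
    (hab : a = b) : @ite _ P i a 0 = @ite _ Q j b 0 := by
  by_cases hp : P
  · rw [if_pos hp, if_pos (h.1 hp), hab]
  · rw [if_neg hp, if_neg (fun hq => hp (h.2 hq))]

theorem R3E_cases (a : ZMod 2) : a = 0 ∨ a = 1 := by
  revert a
  decide

/-- the next row exchanges the two labels and adds one -/
theorem R3E_nxt (l : Letter N) (r : Row N) :
    nxt l r = fun j => if j = l.p then r l.q + 1 else if j = l.q then r l.p + 1 else r j := by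
  have key : ∀ a b : ZMod 2, a ≠ b → a = b + 1 := by decide
  funext j
  by_cases h : r l.p = r l.q
  · have e1 : nxt l r j = if j = l.p ∨ j = l.q then r j + 1 else r j := by
      unfold nxt
      rw [if_pos h]
      rfl
    rw [e1]
    by_cases h1 : j = l.p
    · rw [if_pos (Or.inl h1), if_pos h1, h1, h]
    · by_cases h2 : j = l.q
      · rw [if_pos (Or.inr h2), if_neg h1, if_pos h2, h2, h]
      · rw [if_neg (by tauto), if_neg h1, if_neg h2]
  · have e1 : nxt l r j = r j := by
      unfold nxt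
      rw [if_neg h]
    rw [e1]
    by_cases h1 : j = l.p
    · rw [if_pos h1, h1]
      exact key _ _ h
    · by_cases h2 : j = l.q
      · rw [if_neg h1, if_pos h2, h2]
        exact key _ _ (Ne.symm h)
      · rw [if_neg h1, if_neg h2]

theorem R3E_fin (hpm : p ≠ m) (hmq : m ≠ q) (hpq : p ≠ q) (w : Word N) (r : Row N) :
    fin (w3 hpm hmq w) r = fin (w3' hpm hmq w) r := by
  simp only [w3, w3', fin]
  congr 1
  simp only [R3E_nxt]
  funext j
  have h11 : (1 : ZMod 2) + 1 = 0 := by decide
  by_cases h1 : j = p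
  · subst h1
    simp [hpm, hpq, hmq, hpm.symm, hmq.symm, hpq.symm, add_assoc, h11]
  · by_cases h2 : j = m
    · subst h2
      simp [hpm, hpq, hmq, hpm.symm, hmq.symm, hpq.symm, add_assoc, h11]
    · by_cases h3 : j = q
      · subst h3
        simp [hpm, hpq, hmq, hpm.symm, hmq.symm, hpq.symm, add_assoc, h11]
      · simp [h1, h2, h3]

theorem R3E_sh (hpm : p ≠ m) (hmq : m ≠ q) (hpq : p ≠ q) (w : Word N) (r : Row N) :
    sh (w3 hpm hmq w) r = sh (w3' hpm hmq w) r := by
  have hf := R3E_fin hpm hmq hpq [] r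
  simp only [w3, w3', fin] at hf
  simp only [w3, w3', sh]
  rw [hf]
  have h11 : (1 : ZMod 2) + 1 = 0 := by decide
  generalize sh w (nxt ⟨m, q, hmq, true⟩ (nxt ⟨p, m, hpm, true⟩ (nxt ⟨m, q, hmq, true⟩ r))) = S
  simp only [R3E_nxt]
  rcases R3E_cases (r p) with h1 | h1 <;> rcases R3E_cases (r m) with h2 | h2 <;>
    rcases R3E_cases (r q) with h3 | h3 <;>
    simp [hpm, hpq, hmq, hpm.symm, hmq.symm, hpq.symm, h1, h2, h3, h11] <;> ring

/-- the colouring of the closed circle of `E I E` -/
def R3E_e (p m : Fin N) : Row N := fun j => if j = p ∨ j = m then 1 else 0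

theorem R3E_setpq {a b : Row N} (h : Rel p m true a b) (F : Row N → ZMod 2) :
    F (b + R3E_e p m) + F b = F (setpq p m 0 a) + F (setpq p m 1 a) := by
  obtain ⟨_, h2, h3⟩ := h
  have h11 : (1 : ZMod 2) + 1 = 0 := by decide
  have e1 : ∀ c, b p = c → b = setpq p m c a := by
    intro c hc
    funext j
    unfold setpq
    split_ifs with hj
    · rcases hj with rfl | rfl
      · exact hc
      · rw [← h2, hc]
    · push Not at hj
      exact (h3 j hj.1 hj.2).symm
  have e2 : ∀ c, b p = c → b + R3E_e p m = setpq p m (c + 1) a := by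
    intro c hc
    funext j
    simp only [Pi.add_apply, R3E_e, setpq]
    split_ifs with hj
    · rcases hj with rfl | rfl
      · rw [hc]
      · rw [← h2, hc]
    · push Not at hj
      rw [add_zero]
      exact (h3 j hj.1 hj.2).symm
  rcases R3E_cases (b p) with hb | hb
  · rw [e2 0 hb, ← e1 0 hb, zero_add, add_comm]
  · rw [e2 1 hb, ← e1 1 hb, h11]

variable (hpm : p ≠ m) (hmq : m ≠ q) (hpq : p ≠ q) {w : Word N} {v : List Bool}

/-- the death fibration -/
def R3E_death : Fib (w3 hpm hmq w) (true :: false :: true :: v)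
    (w3 hpm hmq w) (true :: false :: false :: v) 1 where
  π := R3E_rw 3 3
  s := LinearMap.id
  c := cs 0 (cs (R3E_e p m) (cs (R3E_e p m) 0))
  hπ := by
    rintro x ⟨h1, h2, h3, h4⟩
    refine ⟨?_, rfl, rfl, h4⟩
    obtain ⟨a1, a2, a3⟩ := h1
    obtain ⟨b1, b2, b3⟩ := h3
    refine ⟨a1, b2, fun j hj hj' => ?_⟩
    have e1 := a3 j hj hj'
    have e2 : x 1 j = x 2 j := congrFun h2 j
    have e3 : x 2 j = x 3 j := b3 j hj hj'
    show x 0 j = x 3 j
    rw [e1, e2, e3]
  π0 := fun _ _ => rfl
  hs := by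
    rintro x ⟨h1, h2, h3, h4⟩
    refine ⟨h1, h2, ?_, h4⟩
    have e2 : x 1 = x 2 := h2
    have e3 : x 2 = x 3 := h3
    have h1' : Rel p m true (x 0) (x 1) := h1
    show Rel p m true (x 2) (x 3)
    rw [← e3, ← e2]
    exact ⟨h1'.2.1, h1'.2.1, fun _ _ _ => rfl⟩
  s0 := fun _ _ => rfl
  πs := by
    rintro x ⟨h1, h2, h3, h4⟩
    have e2 : x 1 = x 2 := h2
    have e3 : x 2 = x 3 := h3
    refine R3E_ext rfl ?_ ?_ rfl
    · show x 3 = x 1
      rw [e2, e3]
    · exact e3.symm
  hc := by
    refine ⟨⟨rfl, ?_, ?_⟩, rfl, ⟨?_, rfl, ?_⟩, Valid.zero⟩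
    · simp [R3E_e]
    · intro j hj hj'
      simp [R3E_e]
      exact ⟨hj, hj'⟩
    · simp [R3E_e]
    · intro j hj hj'
      have hj1 : j ≠ p := hj
      have hj2 : j ≠ m := hj'
      simp [R3E_e, hj1, hj2]
  c0 := rfl
  πc := by
    refine R3E_ext rfl rfl rfl rfl
  fib := by
    rintro x ⟨h1, h2, h3, h4⟩
    have e2 : x 1 = x 2 := h2
    obtain ⟨b1, b2, b3⟩ : x 2 p = x 2 m ∧ x 3 p = x 3 m ∧
      ∀ j, j ≠ p → j ≠ m → x 2 j = x 3 j := h3
    have h11 : ∀ a b : ZMod 2, a = b ∨ a = b + 1 := by decide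
    rcases h11 (x 2 p) (x 3 p) with hb | hb
    · left
      have e3 : x 2 = x 3 := by
        funext j
        by_cases hj : j = p
        · rw [hj, hb]
        · by_cases hj' : j = m
          · rw [hj', ← b1, hb, b2]
          · exact b3 j hj hj'
      refine R3E_ext rfl ?_ e3 rfl
      show x 1 = x 3
      rw [e2, e3]
    · right
      have e3 : x 2 = x 3 + R3E_e p m := by
        funext j
        rw [Pi.add_apply]
        by_cases hj : j = p
        · rw [hj, hb]
          simp [R3E_e]
        · by_cases hj' : j = m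
          · rw [hj', ← b1, hb, b2]
            simp [R3E_e]
          · rw [b3 j hj hj']
            simp [R3E_e, hj, hj']
      refine R3E_ext ?_ ?_ ?_ ?_
      · show x 0 = x 0 + 0
        rw [add_zero]
      · show x 1 = x 3 + R3E_e p m
        rw [e2, e3]
      · exact e3
      · show tl (tl (tl x)) = tl (tl (tl x)) + 0
        rw [add_zero]
  ck := by
    right
    refine ⟨fun h => ?_, rfl⟩
    have h1 := congrFun (congrFun h 1) p
    simp [R3E_e] at h1

/-- the function `loop3` -/
noncomputable def R3E_L (p m : Fin N) (g : Coch N) (k : ℕ) (v1 v2 : List Bool) (x : Col N) :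
    ZMod 2 :=
  loop3 p m (fun v' y => g (v1 ++ v') (csN k x y)) v2 (tlN k x)

theorem R3E_L_rw (g : Coch N) (k i j : ℕ) (v1 v2 : List Bool) (x : Col N) :
    R3E_L p m g k v1 v2 (upN k (R3E_rw i j) x) = R3E_L p m g k v1 v2 x := by
  unfold R3E_L
  rw [R3E_tlN_upN]
  simp only [R3E_csN_upN]
  rfl

/-- target `I E I`, source `E I I` -/
def R3E_i1 : Fib (w3' hpm hmq w) (false :: true :: false :: v)
    (w3 hpm hmq w) (true :: false :: false :: v) 0 :=
  R3E_iso 3 3 0 3
    (by
      rintro x ⟨h1, h2, h3, h4⟩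
      have e1 : x 0 = x 1 := h1
      have e3 : x 2 = x 3 := h3
      have e2 : Rel p m true (x 1) (x 2) := h2
      refine ⟨?_, rfl, rfl, h4⟩
      show Rel p m true (x 0) (x 3)
      rw [e1, ← e3]
      exact e2)
    (by
      rintro x ⟨h1, h2, h3, h4⟩
      have e2 : x 1 = x 2 := h2
      have e3 : x 2 = x 3 := h3
      refine ⟨rfl, ?_, rfl, h4⟩
      show Rel p m true (x 0) (x 3)
      rw [← e3, ← e2]
      exact h1)
    (by
      rintro x ⟨h1, h2, h3, h4⟩
      exact R3E_ext rfl h1 (Eq.symm h3) rfl)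
    (by
      rintro x ⟨h1, h2, h3, h4⟩
      have e2 : x 1 = x 2 := h2
      have e3 : x 2 = x 3 := h3
      exact R3E_ext rfl (e2.trans e3).symm e3.symm rfl)

/-- target `I E I`, source `I I E` -/
def R3E_i2 : Fib (w3' hpm hmq w) (false :: true :: false :: v)
    (w3 hpm hmq w) (false :: false :: true :: v) 0 :=
  R3E_iso 0 0 0 3
    (by
      rintro x ⟨h1, h2, h3, h4⟩
      have e1 : x 0 = x 1 := h1
      have e3 : x 2 = x 3 := h3
      have e2 : Rel p m true (x 1) (x 2) := h2
      refine ⟨rfl, rfl, ?_, h4⟩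
      show Rel p m true (x 0) (x 3)
      rw [e1, ← e3]
      exact e2)
    (by
      rintro x ⟨h1, h2, h3, h4⟩
      have e1 : x 0 = x 1 := h1
      have e2 : x 1 = x 2 := h2
      refine ⟨rfl, ?_, rfl, h4⟩
      show Rel p m true (x 0) (x 3)
      rw [e1, e2]
      exact h3)
    (by
      rintro x ⟨h1, h2, h3, h4⟩
      exact R3E_ext rfl h1 (Eq.symm h3) rfl)
    (by
      rintro x ⟨h1, h2, h3, h4⟩
      have e1 : x 0 = x 1 := h1
      have e2 : x 1 = x 2 := h2
      exact R3E_ext rfl e1 (e1.trans e2) rfl)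

/-- target `E I I`, source `I E I` -/
def R3E_i3 : Fib (w3' hpm hmq w) (true :: false :: false :: v)
    (w3 hpm hmq w) (false :: true :: false :: v) 0 :=
  R3E_iso 0 3 3 3
    (by
      rintro x ⟨h1, h2, h3, h4⟩
      have e2 : x 1 = x 2 := h2
      have e3 : x 2 = x 3 := h3
      refine ⟨rfl, ?_, rfl, h4⟩
      show Rel m q true (x 0) (x 3)
      rw [← e3, ← e2]
      exact h1)
    (by
      rintro x ⟨h1, h2, h3, h4⟩
      have e1 : x 0 = x 1 := h1
      have e3 : x 2 = x 3 := h3
      have e2 : Rel m q true (x 1) (x 2) := h2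
      refine ⟨?_, rfl, rfl, h4⟩
      show Rel m q true (x 0) (x 3)
      rw [e1, ← e3]
      exact e2)
    (by
      rintro x ⟨h1, h2, h3, h4⟩
      have e2 : x 1 = x 2 := h2
      have e3 : x 2 = x 3 := h3
      exact R3E_ext rfl (e2.trans e3).symm e3.symm rfl)
    (by
      rintro x ⟨h1, h2, h3, h4⟩
      exact R3E_ext rfl h1 (Eq.symm h3) rfl)

/-- target `I E E`, source `E E I` -/
def R3E_i4 : Fib (w3' hpm hmq w) (false :: true :: true :: v)
    (w3 hpm hmq w) (true :: true :: false :: v) 0 :=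
  R3E_iso 2 3 0 1
    (by
      rintro x ⟨h1, h2, h3, h4⟩
      have e1 : x 0 = x 1 := h1
      refine ⟨?_, h3, rfl, h4⟩
      show Rel p m true (x 0) (x 2)
      rw [e1]
      exact h2)
    (by
      rintro x ⟨h1, h2, h3, h4⟩
      have e3 : x 2 = x 3 := h3
      refine ⟨rfl, h1, ?_, h4⟩
      show Rel m q true (x 1) (x 3)
      rw [← e3]
      exact h2)
    (by
      rintro x ⟨h1, h2, h3, h4⟩
      exact R3E_ext rfl h1 rfl rfl)
    (by
      rintro x ⟨h1, h2, h3, h4⟩
      exact R3E_ext rfl rfl (Eq.symm h3) rfl)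

/-- target `E E I`, source `I E E` -/
def R3E_i5 : Fib (w3' hpm hmq w) (true :: true :: false :: v)
    (w3 hpm hmq w) (false :: true :: true :: v) 0 :=
  R3E_iso 0 1 2 3
    (by
      rintro x ⟨h1, h2, h3, h4⟩
      have e3 : x 2 = x 3 := h3
      refine ⟨rfl, h1, ?_, h4⟩
      show Rel p m true (x 1) (x 3)
      rw [← e3]
      exact h2)
    (by
      rintro x ⟨h1, h2, h3, h4⟩
      have e1 : x 0 = x 1 := h1
      refine ⟨?_, h3, rfl, h4⟩
      show Rel m q true (x 0) (x 2)
      rw [e1]
      exact h2)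
    (by
      rintro x ⟨h1, h2, h3, h4⟩
      exact R3E_ext rfl rfl (Eq.symm h3) rfl)
    (by
      rintro x ⟨h1, h2, h3, h4⟩
      exact R3E_ext rfl h1 rfl rfl)

/-- source `E I I` to `I I E` in the left word -/
def R3E_i6 : Fib (w3 hpm hmq w) (false :: false :: true :: v)
    (w3 hpm hmq w) (true :: false :: false :: v) 0 :=
  R3E_iso 3 3 0 0
    (by
      rintro x ⟨h1, h2, h3, h4⟩
      have e1 : x 0 = x 1 := h1
      have e2 : x 1 = x 2 := h2
      refine ⟨?_, rfl, rfl, h4⟩
      show Rel p m true (x 0) (x 3)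
      rw [e1, e2]
      exact h3)
    (by
      rintro x ⟨h1, h2, h3, h4⟩
      have e2 : x 1 = x 2 := h2
      have e3 : x 2 = x 3 := h3
      refine ⟨rfl, rfl, ?_, h4⟩
      show Rel p m true (x 0) (x 3)
      rw [← e3, ← e2]
      exact h1)
    (by
      rintro x ⟨h1, h2, h3, h4⟩
      have e1 : x 0 = x 1 := h1
      have e2 : x 1 = x 2 := h2
      exact R3E_ext rfl e1 (e1.trans e2) rfl)
    (by
      rintro x ⟨h1, h2, h3, h4⟩
      have e2 : x 1 = x 2 := h2
      have e3 : x 2 = x 3 := h3
      exact R3E_ext rfl (e2.trans e3).symm e3.symm rfl)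

/-- the birth fibration, from the right `E I E` to the left `I E I` -/
def R3E_birth : Fib (w3' hpm hmq w) (true :: false :: true :: v)
    (w3 hpm hmq w) (false :: true :: false :: v) 1 where
  π := R3E_rw 0 3
  s := R3E_rw 3 3
  c := cs 0 (cs (R3E_e m q) (cs (R3E_e m q) 0))
  hπ := by
    rintro x ⟨h1, h2, h3, h4⟩
    refine ⟨rfl, ?_, rfl, h4⟩
    obtain ⟨a1, a2, a3⟩ : x 0 m = x 0 q ∧ x 1 m = x 1 q ∧
      ∀ j, j ≠ m → j ≠ q → x 0 j = x 1 j := h1
    obtain ⟨b1, b2, b3⟩ : x 2 m = x 2 q ∧ x 3 m = x 3 q ∧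
      ∀ j, j ≠ m → j ≠ q → x 2 j = x 3 j := h3
    refine ⟨a1, b2, fun j hj hj' => ?_⟩
    have e2 : x 1 j = x 2 j := congrFun h2 j
    show x 0 j = x 3 j
    rw [a3 j hj hj', e2, b3 j hj hj']
  π0 := fun _ _ => rfl
  hs := by
    rintro x ⟨h1, h2, h3, h4⟩
    have e1 : x 0 = x 1 := h1
    have e3 : x 2 = x 3 := h3
    have e2 : Rel m q true (x 1) (x 2) := h2
    rw [← e1, e3] at e2
    refine ⟨e2, rfl, ?_, h4⟩
    exact ⟨e2.2.1, e2.2.1, fun _ _ _ => rfl⟩
  s0 := fun _ _ => rfl
  πs := by
    rintro x ⟨h1, h2, h3, h4⟩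
    exact R3E_ext rfl h1 (Eq.symm h3) rfl
  hc := by
    refine ⟨⟨rfl, ?_, ?_⟩, rfl, ⟨?_, rfl, ?_⟩, Valid.zero⟩
    · simp [R3E_e]
    · intro j hj hj'
      have hj1 : j ≠ m := hj
      have hj2 : j ≠ q := hj'
      simp [R3E_e, hj1, hj2]
    · simp [R3E_e]
    · intro j hj hj'
      have hj1 : j ≠ m := hj
      have hj2 : j ≠ q := hj'
      simp [R3E_e, hj1, hj2]
  c0 := rfl
  πc := by
    refine R3E_ext rfl rfl rfl rfl
  fib := by
    rintro x ⟨h1, h2, h3, h4⟩
    have e2 : x 1 = x 2 := h2
    obtain ⟨b1, b2, b3⟩ : x 2 m = x 2 q ∧ x 3 m = x 3 q ∧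
      ∀ j, j ≠ m → j ≠ q → x 2 j = x 3 j := h3
    have h11 : ∀ a b : ZMod 2, a = b ∨ a = b + 1 := by decide
    rcases h11 (x 2 m) (x 3 m) with hb | hb
    · left
      have e3 : x 2 = x 3 := by
        funext j
        by_cases hj : j = m
        · rw [hj, hb]
        · by_cases hj' : j = q
          · rw [hj', ← b1, hb, b2]
          · exact b3 j hj hj'
      exact R3E_ext rfl (e2.trans e3) e3 rfl
    · right
      have e3 : x 2 = x 3 + R3E_e m q := by
        funext j
        rw [Pi.add_apply]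
        by_cases hj : j = m
        · rw [hj, hb]
          simp [R3E_e]
        · by_cases hj' : j = q
          · rw [hj', ← b1, hb, b2]
            simp [R3E_e]
          · rw [b3 j hj hj']
            simp [R3E_e, hj, hj']
      refine R3E_ext ?_ ?_ ?_ ?_
      · show x 0 = x 0 + 0
        rw [add_zero]
      · show x 1 = x 3 + R3E_e m q
        rw [e2, e3]
      · exact e3
      · show tl (tl (tl x)) = tl (tl (tl x)) + 0
        rw [add_zero]
  ck := by
    right
    refine ⟨fun h => ?_, rfl⟩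
    have h1 := congrFun (congrFun h 1) m
    simp [R3E_e] at h1

/-- target `I I I`, source `I I I` -/
def R3E_i0 : Fib (w3' hpm hmq w) (false :: false :: false :: v)
    (w3 hpm hmq w) (false :: false :: false :: v) 0 :=
  R3E_iso 0 0 0 0
    (by
      rintro x ⟨h1, h2, h3, h4⟩
      exact ⟨rfl, rfl, (h1.trans h2).trans h3, h4⟩)
    (by
      rintro x ⟨h1, h2, h3, h4⟩
      exact ⟨rfl, rfl, (h1.trans h2).trans h3, h4⟩)
    (by
      rintro x ⟨h1, h2, h3, h4⟩
      exact R3E_ext rfl h1 (h1.trans h2) rfl)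
    (by
      rintro x ⟨h1, h2, h3, h4⟩
      exact R3E_ext rfl h1 (h1.trans h2) rfl)

omit hpm hmq hpq in
theorem R3E_valid_tl {w1 : Word N} {v1 : List Bool} (h : v1.length = w1.length) {x : Col N}
    (hx : Valid (w1 ++ w) (v1 ++ v) x) : Valid w v (tlN w1.length x) := by
  induction w1 generalizing v1 x with
  | nil =>
    cases v1 with
    | nil => exact hx
    | cons e v1 => simp at h
  | cons l w1 ih =>
    cases v1 with
    | nil => simp at h
    | cons e v1 =>
      have h' : v1.length = w1.length := by simpa using h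
      have h2 := ih h' hx.2
      have e1 : tlN (l :: w1).length x = tlN w1.length (tl x) := by
        funext t
        simp only [tlN, tl_apply, List.length_cons]
        congr 1
      rw [e1]
      exact h2

include hpm hmq in
/-- the level of the sum over the closed circle -/
theorem R3E_levL {w1 : Word N} {v1 : List Bool} (h : v1.length = w1.length) {B : ℤ} {g : Coch N}
    (hf : D (K (w1 ++ w3 hpm hmq w) (v1 ++ true :: false :: true :: v))
      (dimK (w1 ++ w3 hpm hmq w) (v1 ++ true :: false :: true :: v) + B)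
      (g (v1 ++ true :: false :: true :: v))) :
    D (K (w1 ++ w3 hpm hmq w) (v1 ++ true :: false :: false :: v))
      (dimK (w1 ++ w3 hpm hmq w) (v1 ++ true :: false :: false :: v) + (B - 1))
      (R3E_L p m g w1.length v1 v) := by
  refine (R3E_push (R3E_death hpm hmq) h hf).congr fun y hy => ?_
  obtain ⟨h1, h2, h3, h4⟩ := R3E_valid_tl h hy.2
  set k := w1.length with hk
  set Y := tlN k y with hY
  have e2 : Y 1 = Y 2 := h2
  have e3 : Y 2 = Y 3 := h3
  have e1 : Rel p m true (Y 0) (Y 3) := by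
    rw [← e3, ← e2]
    exact h1
  have a1 : upN k LinearMap.id y = csN k y (cs (Y 0) (cs (Y 3) (cs (Y 3) (tl (tl (tl Y)))))) := by
    rw [upN_apply]
    congr 1
    exact R3E_ext rfl (e2.trans e3) e3 rfl
  have a2 : upN k LinearMap.id y + csN k 0 (cs 0 (cs (R3E_e p m) (cs (R3E_e p m) 0))) =
      csN k y (cs (Y 0) (cs (Y 3 + R3E_e p m) (cs (Y 3 + R3E_e p m) (tl (tl (tl Y)))))) := by
    rw [a1]
    funext t
    by_cases ht : t < k
    · simp [csN, ht]
    · simp only [Pi.add_apply, csN, if_neg ht]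
      rcases t - k with _ | _ | _ | t'
      · simp
      · simp
      · simp
      · simp
  have a3 := R3E_setpq e1 (fun r => g (v1 ++ true :: false :: true :: v)
    (csN k y (cs (Y 0) (cs r (cs r (tl (tl (tl Y))))))))
  show g (v1 ++ true :: false :: true :: v)
      (upN k LinearMap.id y + csN k 0 (cs 0 (cs (R3E_e p m) (cs (R3E_e p m) 0)))) +
      g (v1 ++ true :: false :: true :: v) (upN k LinearMap.id y) = _
  rw [a2, a1]
  exact a3

theorem R3E_lev0 {w1 : Word N} {v1 v2 : List Bool} (h1 : v1.length = w1.length)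
    (h2 : v2.length = w.length) {r0 : Row N} {l : ℤ} {g : Coch N}
    (hg : Lev (w1 ++ w3 hpm hmq w) r0 l g) (t1 t2 t3 : Bool) :
    D (K (w1 ++ w3 hpm hmq w) (v1 ++ t1 :: t2 :: t3 :: v2))
      (dimK (w1 ++ w3 hpm hmq w) (v1 ++ t1 :: t2 :: t3 :: v2) +
        ((nv w1 v1 + nv w v2 + sh (w1 ++ w3 hpm hmq w) r0 - l) +
          ((if t1 = false then 1 else 0) + (if t2 = false then 1 else 0) +
            (if t3 = false then 1 else 0))))
      (g (v1 ++ t1 :: t2 :: t3 :: v2)) := by
  have h3 := hg (v1 ++ t1 :: t2 :: t3 :: v2) (by simp [w3, h1, h2])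
  rw [R3E_nv_append h1] at h3
  refine D.mono (le_of_eq ?_) (h3 : D _ _ _)
  simp only [w3, nv, Bool.not_true]
  ring


/-- PROOF. Read first the docstring of `phiR2f_levMap` (file R2B): splitting of the state, `lftN_apply`, additivity of `nv`, `sh`. `sh` of the two words above `r` agrees (8 cases of the labels, or: both are sums over the three pairs of strands), all letters are positive, so `nv` counts the `I`'s, and each component preserves the number of `I`'s. So it is enough to show for each component that `D (K left) (dimK left + const) g` implies `D (K right) (dimK right + const) (component)`, or rather that the composition has saddles (`+1` each: `D.sad`), births (pull back along a fibration with `k = 1`: `dimK` grows by 1), deaths (`D.push`: `-2`, and `dimK` drops by 1), isomorphisms (fibrations with `k = 0`), with total `0`. All in the context `w1 ++ ... `, `v1 ++ ...`. Isomorphisms (fibrations `k = 0`, local formulas for the rows number 1, 2, to be lifted with `Fib.up`): right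 `III` - left `III`; right `IEI` (rows `a, a, b, b`) - left `EII` (rows `a, b, b, b`) and left `IIE` (rows `a, a, a, b`); right `EII` (`a, b, b, b`) - left `IEI` (`a, a, b, b`); right `IEE` (`a, a, r, b`) - left `EEI` (`a, r, b, b`); right `EEI` (`a, r, b, b`) - left `IEE` (`a, a, r, b`); and for the target `EIE`: the fibration with `k = 1` from right `EIE` (rows `a, r, r, b`, `E_B` twice) to left `IEI` (rows `a, a, b, b`, `E_B`), `c = (0, e_m + e_q, e_m + e_q, 0, ...)`, section: `r := b`. Death: fibration with `k = 1` from left `EIE` (rows `a, r, r, b`) to left `EII` (rows `a, b, b, b`), `c = (0, e_p + e_m, e_p + e_m, 0, ...)`, section `r := b`; `D.push` gives the function `L` on `K left EII` (level constant: `A - 2`, `dimK` drops by one, so relative to `dimK`: `-1`). Components: `IEE` second summand: from `L` on left `EII`: saddle at letter 2 of the left word (rows `b, b`; inserting `E_B`): left `EEI`, value `[r1 = b] L` (total `-1 + 1 = 0`), then the isomorphism with right `IEE`. `EEI`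 second summand: `L` on left `EII`, transported to left `IIE` by the isomorphism (both have one `E_A` between `a` and `b`), then the saddle at letter 2 (rows `a, a`): left `IEE`, value `[a = r] L`; then right `EEI`. `EIE` first summand: `g` on left `EEI` (rows `a, r, b, b`), saddle at letter 1 (removing `E_A`, condition `Rel E_A a r` and `r = a`: `a p = a m`): left `IEI` rows `a, a, b, b`: value `[a p = a m] G(EEI; a, b)` (`+1`), then pull back along the `k = 1` fibration from right `EIE` (dimension `+1`): total 0. `EIE` second summand: `L` on left `EII` (rel. `-1`), saddle to left `III` (removing `E_A`: value `[a p = a m] L` at `a = b`), saddle at letter 2 to left `IEI`: value `[a = b][a p = a m] L` (`+2`), pull back to right `EIE` (dimension `+1`): relative total `-1 + 2 - 1 = 0`. Suggestion: prove one helper lemma `levcomp` per component in the form `D (K left ...) (dimK left + B) f → D (K right ...) (dimK right + B) (component f)`. -/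
theorem phiR3_levMap (hN : Even N) (hpm : p ≠ m) (hmq : m ≠ q) (hpq : p ≠ q) (w : Word N)
    (r : Row N) : LevMap 0 (w3 hpm hmq w) (w3' hpm hmq w) r (phiR3 p m) := by
  intro w1 r0 hr l g hg v hv
  obtain ⟨v1, s1, s2, s3, v2, rfl, h1, h2⟩ : ∃ (v1 : List Bool) (s1 s2 s3 : Bool) (v2 : List Bool),
      v = v1 ++ s1 :: s2 :: s3 :: v2 ∧ v1.length = w1.length ∧ v2.length = w.length := by
    have h3 : v = v.take w1.length ++ v.drop w1.length := (List.take_append_drop _ _).symm
    have h4 : (v.drop w1.length).length = w.length + 3 := by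
      rw [List.length_drop, hv]
      simp [w3']
    match hd : v.drop w1.length, h4 with
    | s1 :: s2 :: s3 :: v2, h4 =>
      refine ⟨v.take w1.length, s1, s2, s3, v2, ?_, ?_, by simpa using h4⟩
      · rw [← hd]
        exact h3
      · rw [List.length_take, hv]
        simp
  show D _ _ _
  have hval : ∀ x : Col N, lftN w1.length (phiR3 p m) g (v1 ++ s1 :: s2 :: s3 :: v2) x =
      phiR3 p m (fun v' y => g (v1 ++ v') (csN w1.length x y)) (s1 :: s2 :: s3 :: v2)
        (tlN w1.length x) := fun x => lftN_apply _ _ _ _ _ h1 _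
  refine D.congr (fun x _ => (hval x).symm) ?_
  have hsh : sh (w1 ++ w3 hpm hmq w) r0 = sh (w1 ++ w3' hpm hmq w) r0 := by
    rw [R3E_sh_append, R3E_sh_append, R3E_sh hpm hmq hpq]
  have hk := R3E_lev0 hpm hmq h1 h2 hg
  rw [R3E_nv_append h1]
  set C : ℤ := nv w1 v1 + nv w v2 + sh (w1 ++ w3 hpm hmq w) r0 - l with hC
  have goalA : ∀ {V : Submodule (ZMod 2) (Col N)} {f : Col N → ZMod 2},
      D V (dimK (w1 ++ w3' hpm hmq w) (v1 ++ s1 :: s2 :: s3 :: v2) +
        (C + ((if s1 = false then 1 else 0) + (if s2 = false then 1 else 0) +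
            (if s3 = false then 1 else 0)))) f →
      D V (dimK (w1 ++ w3' hpm hmq w) (v1 ++ s1 :: s2 :: s3 :: v2) +
        (nv w1 v1 + nv (w3' hpm hmq w) (s1 :: s2 :: s3 :: v2)) +
        sh (w1 ++ w3' hpm hmq w) r0 - (l - 0)) f := by
    intro V f hf
    refine D.mono (le_of_eq ?_) hf
    rw [hC, hsh]
    simp only [w3', nv, Bool.not_true]
    ring
  apply goalA
  have hL := R3E_levL hpm hmq h1 (hk true false true)
  match s1, s2, s3 with
  | false, false, false =>
    refine D.mono ?_ (R3E_pull (R3E_i0 hpm hmq) h1 (hk false false false))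
    simp
  | false, false, true => exact D.zero
  | true, true, true => exact D.zero
  | false, true, false =>
    have e1 := R3E_pull (R3E_i1 hpm hmq) h1 (hk true false false)
    have e2 := R3E_pull (R3E_i2 hpm hmq) h1 (hk false false true)
    exact D.add (D.mono (by simp) e1) (D.mono (by simp) e2)
  | true, false, false =>
    refine D.mono ?_ (R3E_pull (R3E_i3 hpm hmq) h1 (hk false true false))
    simp
  | false, true, true =>
    have e1 := R3E_pull (R3E_i4 hpm hmq) h1 (hk true true false)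
    have e2 := R3E_sad2 hN h1 (w2 := ⟨p, m, hpm, true⟩ :: w) (v2 := false :: v2) (by simp [h2])
      ⟨p, m, hpm, true⟩ ⟨m, q, hmq, true⟩ true false hL
    have e3 := R3E_pull (R3E_i4 hpm hmq) h1 e2
    refine D.add (D.mono (by simp) e1) (D.mono ?_ (e3.congr fun x _ => ?_))
    · simp
    · have a1 : (R3E_i4 hpm hmq (w := w) (v := v2)).π = R3E_rw 2 3 := rfl
      rw [a1, R3E_L_rw, R3E_tlN_upN]
      exact R3E_ite Iff.rfl rfl
  | true, true, false =>
    have e1 := R3E_pull (R3E_i5 hpm hmq) h1 (hk false true true)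
    have e0 := R3E_pull (R3E_i6 hpm hmq) h1 hL
    have e2 := R3E_sad2 hN h1 (w2 := ⟨p, m, hpm, true⟩ :: w) (v2 := true :: v2) (by simp [h2])
      ⟨p, m, hpm, true⟩ ⟨m, q, hmq, true⟩ false false e0
    have e3 := R3E_pull (R3E_i5 hpm hmq) h1 e2
    refine D.add (D.mono (by simp) e1) (D.mono ?_ (e3.congr fun x _ => ?_))
    · simp
    · have a1 : (R3E_i5 hpm hmq (w := w) (v := v2)).π = R3E_rw 0 1 := rfl
      have a2 : (R3E_i6 hpm hmq (w := w) (v := v2)).π = R3E_rw 3 3 := rfl
      rw [a1, a2, R3E_L_rw, R3E_L_rw, R3E_tlN_upN]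
      exact R3E_ite Iff.rfl rfl
  | true, false, true =>
    have e0 := R3E_sad1 hN h1 (w2 := ⟨m, q, hmq, true⟩ :: ⟨p, m, hpm, true⟩ :: w)
      (v2 := true :: false :: v2) (by simp [h2]) ⟨p, m, hpm, true⟩ true (hk true true false)
    have e1 := R3E_pull (R3E_birth hpm hmq) h1 e0
    have e2 := R3E_sad1 hN h1 (w2 := ⟨m, q, hmq, true⟩ :: ⟨p, m, hpm, true⟩ :: w)
      (v2 := false :: false :: v2) (by simp [h2]) ⟨p, m, hpm, true⟩ true hL
    have e3 := R3E_sad2 hN h1 (w2 := ⟨p, m, hpm, true⟩ :: w) (v2 := false :: v2) (by simp [h2])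
      ⟨p, m, hpm, true⟩ ⟨m, q, hmq, true⟩ false false e2
    have e4 := R3E_pull (R3E_birth hpm hmq) h1 e3
    have c1 : ∀ a : Row N, Rel p m true a a ↔ a p = a m :=
      fun a => ⟨fun h => h.1, fun h => ⟨h, h, fun _ _ _ => rfl⟩⟩
    have f1 := e1.congr (g := fun x => if tlN w1.length x 0 p = tlN w1.length x 0 m then
        at3 (fun v' y => g (v1 ++ v') (csN w1.length x y)) true true false v2 (tlN w1.length x)
          (tlN w1.length x 0) (tlN w1.length x 3) else 0) fun x _ => by
      refine R3E_ite ?_ rfl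
      show Rel p m true (tlN w1.length (upN w1.length (R3E_rw 0 3) x) 0)
        (tlN w1.length (upN w1.length (R3E_rw 0 3) x) 1) ↔ _
      rw [R3E_tlN_upN]
      exact c1 _
    have f4 := e4.congr (g := fun x => if tlN w1.length x 0 = tlN w1.length x 3 then
        (if tlN w1.length x 0 p = tlN w1.length x 0 m then
          loop3 p m (fun v' y => g (v1 ++ v') (csN w1.length x y)) v2 (tlN w1.length x) else 0)
        else 0) fun x _ => by
      refine R3E_ite ?_ (R3E_ite ?_ ?_)
      · show Rel m q false (tlN w1.length (upN w1.length (R3E_rw 0 3) x) 1)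
          (tlN w1.length (upN w1.length (R3E_rw 0 3) x) 2) ↔ _
        rw [R3E_tlN_upN]
        exact Iff.rfl
      · show Rel p m true (tlN w1.length (upN w1.length (R3E_rw 0 3) x) 0)
          (tlN w1.length (upN w1.length (R3E_rw 0 3) x) 1) ↔ _
        rw [R3E_tlN_upN]
        exact c1 _
      · exact R3E_L_rw g w1.length 0 3 v1 v2 x
    have e5 := D.add (D.mono (show _ ≤ (dimK (w1 ++ w3' hpm hmq w)
      (v1 ++ true :: false :: true :: v2) : ℤ) + (C + 1) by simp) f1)
      (D.mono (show _ ≤ (dimK (w1 ++ w3' hpm hmq w)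
      (v1 ++ true :: false :: true :: v2) : ℤ) + (C + 1) by simp) f4)
    refine D.mono ?_ (e5.congr fun x _ => ?_)
    · simp
    · show _ = if tlN w1.length x 0 p = tlN w1.length x 0 m then
        at3 _ true true false v2 (tlN w1.length x) (tlN w1.length x 0) (tlN w1.length x 3) +
          (if tlN w1.length x 0 = tlN w1.length x 3 then
            loop3 p m _ v2 (tlN w1.length x) else 0)
        else 0
      by_cases d1 : tlN w1.length x 0 p = tlN w1.length x 0 m
      · rw [if_pos d1, if_pos d1, if_pos d1]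
      · rw [if_neg d1, if_neg d1, if_neg d1, ite_self, add_zero]

end Pool.Agent.HK
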