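import Pool.Agent.H.MP_cd3d06_an.K.R3B
import Pool.Agent.H.MP_cd3d06_an.K.R3C
import Pool.Agent.H.MP_cd3d06_an.K.R3D
import Pool.Agent.H.MP_cd3d06_an.K.R3E

/-!
Part A: the third Reidemeister move (positive letters),
`(p,m) (m,q) (p,m)  →  (m,q) (p,m) (m,q)`, three different positions `p, m, q`.  Conclusion.
-/

namespace Pool.Agent.HK

variable {N : ℕ}

variable {p m q : Fin N}

theorem phiR3_isMap (hpm : p ≠ m) (hmq : m ≠ q) (hpq : p ≠ q) (w : Word N) :
    IsMap (w3 hpm hmq w) (w3' hpm hmq w) (phiR3 p m) where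
  add g g' v x _ _ := phiR3_add g g' v x
  loc g g' v x hv hx h := phiR3_loc hpm hmq hpq w g g' v x hv hx h
  chain g v x hv hx := by
    match v, hv, hx with
    | s1 :: s2 :: false :: v, hv, hx =>
      exact phiR3_chainI hpm hmq hpq w g s1 s2 v x (by simpa [w3'] using hv) hx
    | s1 :: s2 :: true :: v, hv, hx =>
      exact phiR3_chainE hpm hmq hpq w g s1 s2 v x (by simpa [w3'] using hv) hx

theorem good_R3 (hN : Even N) (hpm : p ≠ m) (hmq : m ≠ q) (hpq : p ≠ q) (w1 w2 : Word N)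
    (r : Row N) (l : ℤ) (hg : Good (w1 ++ w3 hpm hmq w2) r l) : Good (w1 ++ w3' hpm hmq w2) r l := by
  simpa using Good.of_map (phiR3_isMap hpm hmq hpq w2) (phiR3_soMap hpm hmq hpq w2 _)
    (phiR3_levMap hN hpm hmq hpq w2 _) w1 r rfl l hg

end Pool.Agent.HK
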