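import Pool.Agent.H.MP_cd3d06_an.K.Sad

/-!
Part A: the moves that change the level: removal of a same type letter, crossing changes.
Same type means that the canonical labels at the two positions are different.
-/

namespace Pool.Agent.HK

variable {N : ℕ}

theorem movetype_dd_zero (w : Word N) (v : List Bool) (x : Col N) :
    dd w (fun _ _ => 0) v x = 0 := by
  induction w generalizing v x with
  | nil => simp [dd]
  | cons l w ih =>
    cases v with
    | nil => simp [dd]
    | cons e v =>
      simp only [dd, ih, ite_self, add_zero]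

theorem movetype_so_ne {w : Word N} {r : Row N} {v : List Bool} {x : Col N} (h : x 0 ≠ r) :
    so w r v x = 0 := by
  cases w with
  | nil => simp only [so, if_neg h]
  | cons l w =>
    cases v with
    | nil => simp only [so]
    | cons e v =>
      simp only [so]
      rw [if_neg fun h' => h h'.1]

theorem movetype_nv (w1 w2 : Word N) (L : Letter N) {v1 : List Bool} (e : Bool) (v2 : List Bool)
    (h : v1.length = w1.length) :
    nv (w1 ++ L :: w2) (v1 ++ e :: v2) = nv (w1 ++ w2) (v1 ++ v2) + (if e = !L.pos then 1 else 0) := by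
  induction w1 generalizing v1 with
  | nil =>
    obtain rfl : v1 = [] := List.length_eq_zero_iff.1 h
    simp only [List.nil_append, nv]
    ring
  | cons l w1 ih =>
    cases v1 with
    | nil => simp at h
    | cons a v1 =>
      simp only [List.cons_append, nv]
      rw [ih (by simpa using h)]
      ring

theorem movetype_sh (w1 w : Word N) (r : Row N) : sh (w1 ++ w) r = sh w1 r + sh w (fin w1 r) := by
  induction w1 generalizing r with
  | nil => simp [sh, fin]
  | cons l w1 ih =>
    simp only [List.cons_append, sh, fin]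
    rw [ih]
    ring

theorem movetype_csN (k : ℕ) (x : Col N) : csN k x (tlN k x) = x := by
  funext t
  by_cases h : t < k
  · simp only [csN, if_pos h]
  · simp only [csN, if_neg h, tlN]
    congr 1
    omega

theorem movetype_valid (w1 w2 : Word N) (p q : Fin N) (h : p ≠ q) (a b : Bool) (v : List Bool)
    (x : Col N) (hx : Valid (w1 ++ ⟨p, q, h, a⟩ :: w2) v x) :
    Valid (w1 ++ ⟨p, q, h, b⟩ :: w2) v x := by
  induction w1 generalizing v x with
  | nil =>
    cases v with
    | nil => exact hx
    | cons e v => exact hx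
  | cons l w1 ih =>
    cases v with
    | nil => exact hx
    | cons e v => exact ⟨hx.1, ih _ _ hx.2⟩

theorem movetype_K (w1 w2 : Word N) (p q : Fin N) (h : p ≠ q) (a b : Bool) (v : List Bool) :
    K (w1 ++ ⟨p, q, h, a⟩ :: w2) v = K (w1 ++ ⟨p, q, h, b⟩ :: w2) v := by
  ext x
  exact ⟨fun hx => ⟨hx.1, movetype_valid w1 w2 p q h a b v x hx.2⟩,
    fun hx => ⟨hx.1, movetype_valid w1 w2 p q h b a v x hx.2⟩⟩

theorem movetype_Lev {w : Word N} {r : Row N} {l : ℤ} {g : Coch N} (h : Lev w r l g)
    (v : List Bool) (hv : v.length = w.length) :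
    D (K w v) ((dimK w v : ℤ) + nv w v + sh w r - l) (g v) := h v hv

/-- The split of a state of `w1 ++ w`. -/
theorem movetype_split {w1 w : Word N} {v : List Bool} (hv : v.length = (w1 ++ w).length) :
    ∃ v1 v2 : List Bool, v = v1 ++ v2 ∧ v1.length = w1.length ∧ v2.length = w.length := by
  refine ⟨v.take w1.length, v.drop w1.length, (List.take_append_drop _ _).symm, ?_, ?_⟩
  · rw [List.length_take, hv, List.length_append]
    omega
  · rw [List.length_drop, hv, List.length_append]
    omega

/-- the product with the indicator of different labels -/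
theorem movetype_lam (k : ℕ) (p q : Fin N) (x : Col N) (a : ZMod 2) :
    (if x k p = x k q then 0 else a) = (lamI k p q x + 0) * a := by
  have h : lamI k p q x = x k p + x k q := rfl
  rw [h]
  generalize x k p = s
  generalize x k q = t
  revert s t a
  decide

/-- The duplication of the bottom row. -/
def movetype_fib (p q : Fin N) (h : p ≠ q) (a : Bool) (w2 : Word N) (v2 : List Bool) :
    Fib w2 v2 (⟨p, q, h, a⟩ :: w2) (false :: v2) 0 where
  π :=
    { toFun := fun x => cs (x 0) x
      map_add' := fun x y => by funext t; cases t <;> rfl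
      map_smul' := fun c x => by funext t; cases t <;> rfl }
  s :=
    { toFun := fun x => tl x
      map_add' := fun x y => rfl
      map_smul' := fun c x => rfl }
  c := 0
  hπ := fun x hx => ⟨rfl, hx⟩
  π0 := fun x _ => rfl
  hs := fun y hy => hy.2
  s0 := fun y hy => hy.1.symm
  πs := fun y hy => by
    have h1 : y 0 = y 1 := hy.1
    show cs (y 1) (tl y) = y
    rw [← h1, cs_tl]
  hc := Valid.zero
  c0 := rfl
  πc := map_zero _
  fib := fun x _ => Or.inl rfl
  ck := Or.inl ⟨rfl, rfl⟩

/-- remove a positive same type letter -/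
def phiSR (p q : Fin N) : Coch N → Coch N := fun g v x =>
  if x 0 p = x 0 q then 0 else g (false :: v) (cs (x 0) x)

theorem movetype_mapSR (p q : Fin N) (h : p ≠ q) (w2 : Word N) :
    IsMap (⟨p, q, h, true⟩ :: w2) w2 (phiSR p q) where
  add g g' v x hv hx := by
    simp only [phiSR]
    split_ifs <;> simp
  loc g g' v x hv hx hg := by
    simp only [phiSR]
    split_ifs with h1
    · rfl
    · exact hg _ _ (by simpa using hv) ⟨rfl, hx⟩ rfl
  chain g v x hv hx := by
    have h1 : dd w2 (phiSR p q g) v x =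
        dd w2 (fun v' y => if x 0 p = x 0 q then 0 else g (false :: v') (cs (x 0) y)) v x := by
      apply dd_loc hv hx
      intro v' y _ _ hy
      simp only [phiSR, hy]
    rw [h1]
    by_cases h2 : x 0 p = x 0 q
    · simp only [phiSR, if_pos h2]
      exact movetype_dd_zero _ _ _
    · simp only [phiSR, if_neg h2]
      simp only [dd, cs_zero, cs_succ, tl_cs]
      rw [if_neg fun h3 => h2 h3.2.1, zero_add]

theorem movetype_soSR (p q : Fin N) (h : p ≠ q) (w2 : Word N) (r : Row N) (hr : r p ≠ r q) :
    SoMap (⟨p, q, h, true⟩ :: w2) w2 r (phiSR p q) := by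
  refine ⟨fun _ _ => 0, fun _ _ _ => rfl, fun v x hv hx => ?_⟩
  rw [movetype_dd_zero, add_zero]
  simp only [phiSR, so, cs_zero, tl_cs]
  have h1 : nxt ⟨p, q, h, true⟩ r = r := if_neg hr
  have h2 : false = eo ⟨p, q, h, true⟩ r := by
    simp only [eo]
    exact (decide_eq_false hr).symm
  by_cases h3 : x 0 = r
  · rw [if_neg (by rw [h3]; exact hr), if_pos ⟨h3, h2⟩, h1]
  · have h5 : ¬ (x 0 = r ∧ false = eo ⟨p, q, h, true⟩ r) := fun h4 => h3 h4.1
    rw [movetype_so_ne h3, if_neg h5, ite_self]

theorem movetype_levSR (p q : Fin N) (h : p ≠ q) (w2 : Word N) (r : Row N) (hr : r p ≠ r q) :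
    LevMap 1 (⟨p, q, h, true⟩ :: w2) w2 r (phiSR p q) := by
  intro w1 r0 hr0 l g hg v hv
  obtain ⟨v1, v2, rfl, hv1, hv2⟩ := movetype_split hv
  have h1 := movetype_Lev hg (v1 ++ false :: v2) (by
    rw [List.length_append, List.length_append, List.length_cons, List.length_cons, hv1, hv2])
  have hdim := ((movetype_fib p q h true w2 v2).up w1 v1 hv1).dim
  have h2 := (D.pull ((movetype_fib p q h true w2 v2).up w1 v1 hv1) h1).mul_lin
    (lamI w1.length p q) 0
  have hnv := movetype_nv w1 w2 ⟨p, q, h, true⟩ false v2 hv1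
  have hsh : sh (w1 ++ ⟨p, q, h, true⟩ :: w2) r0 = sh (w1 ++ w2) r0 - 2 := by
    rw [movetype_sh, movetype_sh, hr0]
    have h3 : nxt ⟨p, q, h, true⟩ r = r := if_neg hr
    simp only [sh, h3]
    rw [if_neg (by simp [hr])]
    ring
  rw [hsh, hnv] at h2
  have h4 : D (K (w1 ++ w2) (v1 ++ v2))
      ((dimK (w1 ++ w2) (v1 ++ v2) : ℤ) + nv (w1 ++ w2) (v1 ++ v2) + sh (w1 ++ w2) r0 - (l - 1))
      (lftN w1.length (phiSR p q) g (v1 ++ v2)) := by
    refine D.congr ?_ (h2.mono (le_of_eq ?_))
    · intro x _
      rw [lftN_apply _ _ _ _ _ hv1, phiSR]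
      have h5 : ∀ s, tlN w1.length x 0 s = x w1.length s := by
        intro s
        simp only [tlN, zero_add]
      rw [h5, h5]
      exact (movetype_lam _ _ _ _ _).symm
    · rw [hdim]
      simp
      ring
  exact h4

/-- removal of a positive same type letter -/
theorem good_SR (w1 w2 : Word N) (p q : Fin N) (h : p ≠ q) (r : Row N) (l : ℤ)
    (ht : fin w1 r p ≠ fin w1 r q) (hg : Good (w1 ++ ⟨p, q, h, true⟩ :: w2) r l) :
    Good (w1 ++ w2) r (l - 1) :=
  Good.of_map (movetype_mapSR p q h w2) (movetype_soSR p q h w2 _ ht)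
    (movetype_levSR p q h w2 _ ht) w1 r rfl l hg

/-- same type crossing change from positive to negative -/
def phiCCs (p q : Fin N) : Coch N → Coch N := fun g v x =>
  match v with
  | false :: v => if x 0 p = x 0 q then 0 else g (false :: v) x
  | _ => 0

theorem movetype_CCs_true (p q : Fin N) (g : Coch N) (v : List Bool) (x : Col N) :
    phiCCs p q g (true :: v) x = 0 := rfl

theorem movetype_CCs_false (p q : Fin N) (g : Coch N) (v : List Bool) (x : Col N) :
    phiCCs p q g (false :: v) x = if x 0 p = x 0 q then 0 else g (false :: v) x := rfl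

theorem movetype_mapCCs (p q : Fin N) (h : p ≠ q) (w2 : Word N) :
    IsMap (⟨p, q, h, true⟩ :: w2) (⟨p, q, h, false⟩ :: w2) (phiCCs p q) where
  add g g' v x hv hx := by
    rcases v with _ | ⟨_ | _, v⟩
    · simp at hv
    · simp only [movetype_CCs_false]
      split_ifs <;> simp
    · simp only [movetype_CCs_true, add_zero]
  loc g g' v x hv hx hg := by
    rcases v with _ | ⟨_ | _, v⟩
    · simp at hv
    · simp only [movetype_CCs_false]
      split_ifs with h1
      · rfl
      · exact hg _ _ (by simpa using hv) hx rfl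
    · rfl
  chain g v x hv hx := by
    rcases v with _ | ⟨_ | _, v⟩
    · simp at hv
    · simp only [movetype_CCs_false]
      simp only [dd, movetype_CCs_false, cs_zero]
      rw [if_neg (by simp), zero_add]
      by_cases h2 : x 0 p = x 0 q
      · simp only [if_pos h2]
        exact movetype_dd_zero _ _ _
      · simp only [if_neg h2]
        rw [if_neg fun h3 => h2 h3.2.1, zero_add]
    · rw [movetype_CCs_true]
      simp only [dd, movetype_CCs_true, movetype_CCs_false, movetype_dd_zero, add_zero]
      have h1 : x 0 p = x 0 q := hx.1.1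
      simp only [if_pos h1, ite_self]

theorem movetype_soCCs (p q : Fin N) (h : p ≠ q) (w2 : Word N) (r : Row N) (hr : r p ≠ r q) :
    SoMap (⟨p, q, h, true⟩ :: w2) (⟨p, q, h, false⟩ :: w2) r (phiCCs p q) := by
  refine ⟨fun _ _ => 0, fun _ _ _ => rfl, fun v x hv hx => ?_⟩
  rw [movetype_dd_zero, add_zero]
  have h1 : ∀ a, nxt ⟨p, q, h, a⟩ r = r := fun a => if_neg hr
  have h2 : ∀ a, eo ⟨p, q, h, a⟩ r = false := fun a => decide_eq_false hr
  rcases v with _ | ⟨_ | _, v⟩
  · simp at hv
  · rw [movetype_CCs_false]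
    simp only [so, h1, h2]
    by_cases h3 : x 0 = r
    · rw [if_neg (by rw [h3]; exact hr)]
    · have h5 : ¬ (x 0 = r ∧ true) := fun h4 => h3 h4.1
      simp only [h3, false_and, if_false, ite_self]
  · rw [movetype_CCs_true]
    simp only [so, h2]
    simp

theorem movetype_levCCs (p q : Fin N) (h : p ≠ q) (w2 : Word N) (r : Row N) (hr : r p ≠ r q) :
    LevMap 0 (⟨p, q, h, true⟩ :: w2) (⟨p, q, h, false⟩ :: w2) r (phiCCs p q) := by
  intro w1 r0 hr0 l g hg v hv
  obtain ⟨v1, v2, rfl, hv1, hv2⟩ := movetype_split hv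
  have h1 := movetype_Lev hg (v1 ++ v2) (by
    rw [List.length_append, List.length_append, hv1, hv2]; rfl)
  have key : D (K (w1 ++ ⟨p, q, h, false⟩ :: w2) (v1 ++ v2))
      ((dimK (w1 ++ ⟨p, q, h, false⟩ :: w2) (v1 ++ v2) : ℤ)
        + nv (w1 ++ ⟨p, q, h, false⟩ :: w2) (v1 ++ v2) + sh (w1 ++ ⟨p, q, h, false⟩ :: w2) r0
        - (l - 0)) (lftN w1.length (phiCCs p q) g (v1 ++ v2)) := by
    rcases v2 with _ | ⟨_ | _, v2⟩
    · simp at hv2
    · have h2 := h1.mul_lin (lamI w1.length p q) 0
      refine D.congr (f := fun x => (lamI w1.length p q x + 0) * g (v1 ++ false :: v2) x) ?_ ?_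
      · intro x _
        rw [lftN_apply _ _ _ _ _ hv1, movetype_CCs_false, movetype_csN]
        have h5 : ∀ s, tlN w1.length x 0 s = x w1.length s := by
          intro s
          simp only [tlN, zero_add]
        rw [h5, h5]
        exact (movetype_lam _ _ _ _ _).symm
      · unfold dimK at h2 ⊢
        rw [movetype_K w1 w2 p q h false true]
        refine h2.mono (le_of_eq ?_)
        rw [movetype_nv w1 w2 ⟨p, q, h, true⟩ false v2 hv1,
          movetype_nv w1 w2 ⟨p, q, h, false⟩ false v2 hv1, movetype_sh, movetype_sh, hr0]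
        have h3 : ∀ a, nxt ⟨p, q, h, a⟩ r = r := fun a => if_neg hr
        simp only [sh, h3]
        simp [hr]
        ring
    · refine D.congr (f := fun _ => 0) ?_ D.zero
      intro x _
      rw [lftN_apply _ _ _ _ _ hv1, movetype_CCs_true]
  exact key

/-- same type crossing change -/
theorem good_CCs (w1 w2 : Word N) (p q : Fin N) (h : p ≠ q) (r : Row N) (l : ℤ)
    (ht : fin w1 r p ≠ fin w1 r q) (hg : Good (w1 ++ ⟨p, q, h, true⟩ :: w2) r l) :
    Good (w1 ++ ⟨p, q, h, false⟩ :: w2) r l := by
  have h1 := Good.of_map (movetype_mapCCs p q h w2) (movetype_soCCs p q h w2 _ ht)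
    (movetype_levCCs p q h w2 _ ht) w1 r rfl l hg
  rwa [sub_zero] at h1

/-- opposite type crossing change from positive to negative -/
def phiCCo : Coch N → Coch N := fun g v x =>
  match v with
  | true :: v => g (true :: v) x
  | _ => 0

theorem movetype_CCo_true (g : Coch N) (v : List Bool) (x : Col N) :
    phiCCo g (true :: v) x = g (true :: v) x := rfl

theorem movetype_CCo_false (g : Coch N) (v : List Bool) (x : Col N) :
    phiCCo g (false :: v) x = 0 := rfl

theorem movetype_mapCCo (p q : Fin N) (h : p ≠ q) (w2 : Word N) :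
    IsMap (⟨p, q, h, true⟩ :: w2) (⟨p, q, h, false⟩ :: w2) phiCCo where
  add g g' v x hv hx := by
    rcases v with _ | ⟨_ | _, v⟩
    · simp at hv
    · simp only [movetype_CCo_false, add_zero]
    · simp only [movetype_CCo_true]
  loc g g' v x hv hx hg := by
    rcases v with _ | ⟨_ | _, v⟩
    · simp at hv
    · rfl
    · simp only [movetype_CCo_true]
      exact hg _ _ (by simpa using hv) hx rfl
  chain g v x hv hx := by
    rcases v with _ | ⟨_ | _, v⟩
    · simp at hv
    · rw [movetype_CCo_false]
      simp only [dd, movetype_CCo_false, movetype_dd_zero, add_zero]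
      simp
    · rw [movetype_CCo_true]
      simp only [dd, movetype_CCo_true, movetype_CCo_false, ite_self, zero_add]
      simp

theorem movetype_soCCo (p q : Fin N) (h : p ≠ q) (w2 : Word N) (r : Row N) (hr : r p = r q) :
    SoMap (⟨p, q, h, true⟩ :: w2) (⟨p, q, h, false⟩ :: w2) r phiCCo := by
  refine ⟨fun _ _ => 0, fun _ _ _ => rfl, fun v x hv hx => ?_⟩
  rw [movetype_dd_zero, add_zero]
  have h1 : ∀ a, nxt ⟨p, q, h, a⟩ r = flip p q r := fun a => if_pos hr
  have h2 : ∀ a, eo ⟨p, q, h, a⟩ r = true := fun a => decide_eq_true hr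
  rcases v with _ | ⟨_ | _, v⟩
  · simp at hv
  · rw [movetype_CCo_false]
    simp only [so, h2]
    simp
  · rw [movetype_CCo_true]
    simp only [so, h1, h2]

theorem movetype_levCCo (p q : Fin N) (h : p ≠ q) (w2 : Word N) (r : Row N) (hr : r p = r q) :
    LevMap 2 (⟨p, q, h, true⟩ :: w2) (⟨p, q, h, false⟩ :: w2) r phiCCo := by
  intro w1 r0 hr0 l g hg v hv
  obtain ⟨v1, v2, rfl, hv1, hv2⟩ := movetype_split hv
  have h1 := movetype_Lev hg (v1 ++ v2) (by
    rw [List.length_append, List.length_append, hv1, hv2]; rfl)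
  have key : D (K (w1 ++ ⟨p, q, h, false⟩ :: w2) (v1 ++ v2))
      ((dimK (w1 ++ ⟨p, q, h, false⟩ :: w2) (v1 ++ v2) : ℤ)
        + nv (w1 ++ ⟨p, q, h, false⟩ :: w2) (v1 ++ v2) + sh (w1 ++ ⟨p, q, h, false⟩ :: w2) r0
        - (l - 2)) (lftN w1.length phiCCo g (v1 ++ v2)) := by
    rcases v2 with _ | ⟨_ | _, v2⟩
    · simp at hv2
    · refine D.congr (f := fun _ => 0) ?_ D.zero
      intro x _
      rw [lftN_apply _ _ _ _ _ hv1, movetype_CCo_false]
    · refine D.congr (f := g (v1 ++ true :: v2)) ?_ ?_
      · intro x _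
        rw [lftN_apply _ _ _ _ _ hv1, movetype_CCo_true, movetype_csN]
      · unfold dimK at h1 ⊢
        rw [movetype_K w1 w2 p q h false true]
        refine h1.mono (le_of_eq ?_)
        rw [movetype_nv w1 w2 ⟨p, q, h, true⟩ true v2 hv1,
          movetype_nv w1 w2 ⟨p, q, h, false⟩ true v2 hv1, movetype_sh, movetype_sh, hr0]
        have h3 : ∀ a, nxt ⟨p, q, h, a⟩ r = flip p q r := fun a => if_pos hr
        simp only [sh, h3]
        simp [hr]
        ring
  exact key

/-- opposite type crossing change -/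
theorem good_CCo (w1 w2 : Word N) (p q : Fin N) (h : p ≠ q) (r : Row N) (l : ℤ)
    (ht : fin w1 r p = fin w1 r q) (hg : Good (w1 ++ ⟨p, q, h, true⟩ :: w2) r l) :
    Good (w1 ++ ⟨p, q, h, false⟩ :: w2) r (l - 2) :=
  Good.of_map (movetype_mapCCo p q h w2) (movetype_soCCo p q h w2 _ ht)
    (movetype_levCCo p q h w2 _ ht) w1 r rfl l hg

end Pool.Agent.HK
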