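import Pool.Agent.H.MP_cd3d06_an.K.BrdA
import Pool.Agent.H.MP_cd3d06_an.K.MoveR2
import Pool.Agent.H.MP_cd3d06_an.K.MoveFar
import Pool.Agent.H.MP_cd3d06_an.K.MoveR3
import Pool.Agent.H.MP_cd3d06_an.K.MoveBottom
import Pool.Agent.H.MP_cd3d06_an.K.MoveType
import Pool.Agent.H.MP_cd3d06_an.K.Base

/-!
Part A: invariance under braid equivalence; the group versions.
-/

namespace Pool.Agent.HK

/-! Auxiliary lemmas. -/

/-- the letter `i` of a braid word, if it is not trivial -/
def Brd_let (N : ℕ) (i : ℕ) (h : i + 1 < N) (b : Bool) : Letter N :=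
  ⟨⟨i, by omega⟩, ⟨i + 1, h⟩, by simp [Fin.ext_iff], b⟩

theorem Brd_tw_pos {N i : ℕ} (h : i + 1 < N) (b : Bool) (w : BW) :
    tw N ((i, b) :: w) = Brd_let N i h b :: tw N w := by
  simp [tw, Brd_let, h]

theorem Brd_tw_neg {N i : ℕ} (h : N ≤ i + 1) (b : Bool) (w : BW) :
    tw N ((i, b) :: w) = tw N w := by
  simp [tw, not_lt.2 h]

theorem Brd_tw_nil {N : ℕ} : tw N [] = [] := rfl

theorem Brd_nxt {N : ℕ} (l : Letter N) (r : Row N) :
    nxt l r = fun j => if j = l.p then r l.q + 1 else if j = l.q then r l.p + 1 else r j := by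
  have key : ∀ a b : ZMod 2, a ≠ b → b + 1 = a := by decide
  funext j
  unfold nxt flip
  by_cases h : r l.p = r l.q
  · rw [if_pos h]
    by_cases h1 : j = l.p
    · simp [h1, h]
    · by_cases h2 : j = l.q
      · simp [h2, h]
      · simp [h1, h2]
  · rw [if_neg h]
    by_cases h1 : j = l.p
    · rw [if_pos h1, h1, key _ _ h]
    · by_cases h2 : j = l.q
      · rw [if_neg h1, if_pos h2, h2, key _ _ (Ne.symm h)]
      · rw [if_neg h1, if_neg h2]

/-- the last row and the writhe are invariant under braid equivalence -/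
theorem Brd_inv {N : ℕ} {w w' : BW} (h : BEq N w w') : ∀ r : Row N,
    fin (tw N w) r = fin (tw N w') r ∧ wr (tw N w) r = wr (tw N w') r := by
  have finapp : ∀ (w w' : Word N) (r : Row N), fin (w ++ w') r = fin w' (fin w r) := by
    intro w w' r
    induction w generalizing r with
    | nil => rfl
    | cons l w ih => exact ih _
  have wrapp : ∀ (w w' : Word N) (r : Row N), wr (w ++ w') r = wr w r + wr w' (fin w r) := by
    intro w w' r
    induction w generalizing r with
    | nil => simp [wr, fin]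
    | cons l w ih => simp only [List.cons_append, wr, fin, ih]; ring
  induction h with
  | refl w => exact fun r => ⟨rfl, rfl⟩
  | symm _ ih => exact fun r => ⟨(ih r).1.symm, (ih r).2.symm⟩
  | trans _ _ ih1 ih2 => exact fun r => ⟨(ih1 r).1.trans (ih2 r).1, (ih1 r).2.trans (ih2 r).2⟩
  | app _ _ ih1 ih2 =>
    intro r
    rw [tw_append, tw_append, finapp, finapp, wrapp, wrapp, (ih1 r).1, (ih1 r).2, (ih2 _).1,
      (ih2 _).2]
    exact ⟨rfl, rfl⟩
  | r2 i b =>
    intro r
    by_cases hi : i + 1 < N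
    · rw [Brd_tw_pos hi, Brd_tw_pos hi, Brd_tw_nil]
      have hne : (⟨i + 1, hi⟩ : Fin N) ≠ ⟨i, by omega⟩ := by simp [Fin.ext_iff]
      have key : ∀ a : ZMod 2, a + 1 + 1 = a := by decide
      constructor
      · simp only [fin, Brd_nxt, Brd_let]
        funext j
        by_cases h1 : j = ⟨i, by omega⟩
        · subst h1; simp [hne, key]
        · by_cases h2 : j = ⟨i + 1, hi⟩
          · subst h2; simp [hne, key]
          · simp [h1, h2]
      · simp only [wr, Brd_nxt, Brd_let]
        simp only [if_true, hne, if_false]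
        have key2 : ∀ (b : Bool) (a c : ZMod 2), (if a = c ↔ b = true then (1 : ℤ) else -1) +
            ((if c + 1 = a + 1 ↔ (!b) = true then 1 else -1) + 0) = 0 := by decide
        exact key2 b _ _
    · rw [Brd_tw_neg (by omega), Brd_tw_neg (by omega)]
      exact ⟨rfl, rfl⟩
  | triv i b h =>
    intro r
    rw [Brd_tw_neg h]
    exact ⟨rfl, rfl⟩
  | comm i j b b' h hj =>
    intro r
    have hi : i + 1 < N := by omega
    rw [Brd_tw_pos hi, Brd_tw_pos hj, Brd_tw_pos hj, Brd_tw_pos hi, Brd_tw_nil]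
    have h1 : (⟨i + 1, hi⟩ : Fin N) ≠ ⟨i, by omega⟩ := by simp [Fin.ext_iff]
    have h2 : (⟨j + 1, hj⟩ : Fin N) ≠ ⟨j, by omega⟩ := by simp [Fin.ext_iff]
    have h3 : (⟨i, by omega⟩ : Fin N) ≠ ⟨j, by omega⟩ := by simp [Fin.ext_iff]; omega
    have h4 : (⟨i + 1, hi⟩ : Fin N) ≠ ⟨j, by omega⟩ := by simp [Fin.ext_iff]; omega
    have h5 : (⟨i, by omega⟩ : Fin N) ≠ ⟨j + 1, hj⟩ := by simp [Fin.ext_iff]; omega
    have h6 : (⟨i + 1, hi⟩ : Fin N) ≠ ⟨j + 1, hj⟩ := by simp [Fin.ext_iff]; omega
    constructor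
    · simp only [fin, Brd_nxt, Brd_let]
      funext k
      simp only [h3, h4, h5, h6, h3.symm, h4.symm, h5.symm, h6.symm, if_false]
      by_cases k1 : k = ⟨i, by omega⟩
      · subst k1; simp [h3, h5]
      · by_cases k2 : k = ⟨i + 1, hi⟩
        · subst k2; simp [h1, h4, h6]
        · simp [k1, k2]
    · simp only [wr, Brd_nxt, Brd_let]
      simp only [h3, h4, h5, h6, h3.symm, h4.symm, h5.symm, h6.symm, if_false, add_zero]
      exact add_comm _ _
  | braid i h =>
    intro r
    have hi : i + 1 < N := by omega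
    rw [Brd_tw_pos hi, Brd_tw_pos h, Brd_tw_pos hi, Brd_tw_pos h, Brd_tw_pos hi, Brd_tw_pos h,
      Brd_tw_nil]
    have h1 : (⟨i + 1, hi⟩ : Fin N) ≠ ⟨i, by omega⟩ := by simp [Fin.ext_iff]
    have h2 : (⟨i + 1 + 1, h⟩ : Fin N) ≠ ⟨i + 1, hi⟩ := by simp [Fin.ext_iff]
    have h3 : (⟨i + 1 + 1, h⟩ : Fin N) ≠ ⟨i, by omega⟩ := by simp only [ne_eq, Fin.ext_iff]; omega
    constructor
    · simp only [fin, Brd_nxt, Brd_let]
      funext k
      simp only [h1, h2, h3, h1.symm, h2.symm, h3.symm, if_false, if_true]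
      by_cases k1 : k = ⟨i, by omega⟩
      · subst k1; simp [h1.symm, h3.symm]
      · by_cases k2 : k = ⟨i + 1, hi⟩
        · subst k2; simp [h1]
        · by_cases k3 : k = ⟨i + 1 + 1, h⟩
          · subst k3; simp [h2, h3]
          · simp [k1, k2, k3]
    · simp only [wr, Brd_nxt, Brd_let]
      simp only [h1, h2, h3, h1.symm, h2.symm, h3.symm, if_false, if_true]
      have key3 : ∀ a c d : ZMod 2, (if a = c ↔ True then (1 : ℤ) else -1) +
          ((if a + 1 = d ↔ True then 1 else -1) + ((if c + 1 = d + 1 ↔ True then 1 else -1) + 0)) =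
          (if c = d ↔ True then (1 : ℤ) else -1) +
          ((if a = d + 1 ↔ True then 1 else -1) + ((if a + 1 = c + 1 ↔ True then 1 else -1) + 0)) := by
        decide
      exact key3 _ _ _

/-- PROOF. Induction on `h`, for all `w1 w2`. `app`: two steps (with contexts `w1`, `tw u ++ w2`, and `w1 ++ tw w'`, `w2`). `r2`: if `i + 1 < N`: `good_R2_insert/remove`; otherwise `tw` of both sides is `[]`. `triv`: `tw = []`. `comm`: `good_far` in both directions (`Letter.Disj` both ways). `braid`: `tw [(i,true),(i+1,true),(i,true)] = w3 (p:=i) (m:=i+1) (q:=i+2)` and the other side is `w3'`: direction left to right is `good_R3`. Direction right to left: `good_R3` with `p = i+2`, `m = i+1`, `q = i`: it goes from `(i+2,i+1)(i+1,i)(i+2,i+1)` to `(i+1,i)(i+2,i+1)(i+1,i)`; use `good_swap` three times before and three times after. -/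
theorem good_of_bEq {N : ℕ} (hN : Even N) {w w' : BW} (h : BEq N w w') (w1 w2 : Word N) (r : Row N)
    (l : ℤ) : Good (w1 ++ tw N w ++ w2) r l ↔ Good (w1 ++ tw N w' ++ w2) r l := by
  induction h generalizing w1 w2 with
  | refl w => exact Iff.rfl
  | symm _ ih => exact (ih w1 w2).symm
  | trans _ _ ih1 ih2 => exact (ih1 w1 w2).trans (ih2 w1 w2)
  | @app w w' u u' _ _ ih1 ih2 =>
    rw [tw_append, tw_append]
    have e1 := ih1 w1 (tw N u ++ w2)
    have e2 := ih2 (w1 ++ tw N w') w2
    simp only [List.append_assoc] at e1 e2 ⊢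
    exact e1.trans e2
  | r2 i b =>
    by_cases hi : i + 1 < N
    · rw [Brd_tw_pos hi, Brd_tw_pos hi, Brd_tw_nil]
      have f1 := good_R2_insert hN w1 w2 ⟨i, by omega⟩ ⟨i + 1, hi⟩ (by simp [Fin.ext_iff]) b r l
      have f2 := good_R2_remove hN w1 w2 ⟨i, by omega⟩ ⟨i + 1, hi⟩ (by simp [Fin.ext_iff]) b r l
      simp only [List.append_assoc, List.nil_append, List.cons_append]
      exact ⟨f2, f1⟩
    · rw [Brd_tw_neg (by omega), Brd_tw_neg (by omega)]
  | triv i b h => rw [Brd_tw_neg h]
  | comm i j b b' h hj =>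
    have hi : i + 1 < N := by omega
    rw [Brd_tw_pos hi, Brd_tw_pos hj, Brd_tw_pos hj, Brd_tw_pos hi, Brd_tw_nil]
    have d1 : (Brd_let N i hi b).Disj (Brd_let N j hj b') := by
      refine ⟨?_, ?_, ?_, ?_⟩ <;> simp only [Brd_let, ne_eq, Fin.ext_iff] <;> omega
    have d2 : (Brd_let N j hj b').Disj (Brd_let N i hi b) := by
      refine ⟨?_, ?_, ?_, ?_⟩ <;> simp only [Brd_let, ne_eq, Fin.ext_iff] <;> omega
    simp only [List.append_assoc, List.nil_append, List.cons_append]
    exact ⟨good_far w1 w2 _ _ d1 r l, good_far w1 w2 _ _ d2 r l⟩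
  | braid i h =>
    have hi : i + 1 < N := by omega
    rw [Brd_tw_pos hi, Brd_tw_pos h, Brd_tw_pos hi, Brd_tw_pos h, Brd_tw_pos hi, Brd_tw_pos h,
      Brd_tw_nil]
    have h1 : (⟨i, by omega⟩ : Fin N) ≠ ⟨i + 1, hi⟩ := by simp [Fin.ext_iff]
    have h2 : (⟨i + 1, hi⟩ : Fin N) ≠ ⟨i + 1 + 1, h⟩ := by simp [Fin.ext_iff]
    have h3 : (⟨i, by omega⟩ : Fin N) ≠ ⟨i + 1 + 1, h⟩ := by simp only [ne_eq, Fin.ext_iff]; omega
    simp only [List.append_assoc, List.nil_append, List.cons_append, Brd_let]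
    constructor
    · exact good_R3 hN h1 h2 h3 w1 w2 r l
    · intro hg
      -- the word `(i+1,i+2) (i,i+1) (i+1,i+2)`
      have g1 := good_swap w1 _ _ _ _ _ r l hg
      have g2 := good_swap (w1 ++ [⟨⟨i + 1 + 1, h⟩, ⟨i + 1, hi⟩, h2.symm, true⟩]) _ _ _ _ _ r l
        (by simpa using g1)
      have g3 := good_swap (w1 ++ [⟨⟨i + 1 + 1, h⟩, ⟨i + 1, hi⟩, h2.symm, true⟩,
        ⟨⟨i + 1, hi⟩, ⟨i, Nat.lt_of_succ_lt hi⟩, h1.symm, true⟩]) _ _ _ _ _ r l (by simpa using g2)
      have g4 := good_R3 hN h2.symm h1.symm h3.symm w1 w2 r l (by simpa [w3] using g3)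
      have g5 := good_swap w1 _ _ _ _ _ r l g4
      have g6 := good_swap (w1 ++ [⟨⟨i, Nat.lt_of_succ_lt hi⟩, ⟨i + 1, hi⟩, h1, true⟩]) _ _ _ _ _ r l
        (by simpa using g5)
      have g7 := good_swap (w1 ++ [⟨⟨i, Nat.lt_of_succ_lt hi⟩, ⟨i + 1, hi⟩, h1, true⟩,
        ⟨⟨i + 1, hi⟩, ⟨i + 1 + 1, h⟩, h2, true⟩]) _ _ _ _ _ r l (by simpa using g6)
      simpa using g7

theorem good_of_el_eq {N : ℕ} (hN : Even N) {w w' : BW} (h : el N w = el N w') (r : Row N) (l : ℤ)
    (hg : Good (tw N w) r l) : Good (tw N w') r l := by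
  simpa using (good_of_bEq hN (bEq_of_el_eq h) [] [] r l).1 (by simpa using hg)

theorem fin_append {N : ℕ} (w w' : Word N) (r : Row N) : fin (w ++ w') r = fin w' (fin w r) := by
  induction w generalizing r with
  | nil => rfl
  | cons l w ih => exact ih _

/-- the last row and the writhe only depend on the braid
PROOF. By `bEq_of_el_eq` and induction on `BEq` (for all `r`; `fin_append`): one letter replaces `r` by `r` with the labels `a, b` at `i, i+1` replaced by `b + 1, a + 1` (in both cases: if `a = b` by the flip, if `a ≠ b` then `b + 1 = a`, `a + 1 = b`). So the letter acts as: exchange the two labels and add 1 to both. Twice the same letter: identity. Far letters commute. Braid relation: both sides send `(a, b, c)` to `(c, b, a)` (`c + 2, b + 2, a + 2`). Or by cases (`decide` on the labels). -/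
theorem fin_of_el_eq {N : ℕ} {w w' : BW} (h : el N w = el N w') (r : Row N) :
    fin (tw N w) r = fin (tw N w') r :=
  (Brd_inv (bEq_of_el_eq h) r).1

theorem wr_append {N : ℕ} (w w' : Word N) (r : Row N) :
    wr (w ++ w') r = wr w r + wr w' (fin w r) := by
  induction w generalizing r with
  | nil => simp [wr, fin]
  | cons l w ih => simp only [List.cons_append, wr, fin, ih]; ring

/-- PROOF. Same induction: `wr` is additive (`wr_append`), `r2`: the two letters have opposite signs and the same type (`r p = r q` iff the new labels are equal). `comm`: clear. `braid`: the multiset of types agrees: for labels `(a, b, c)`: the first letter compares `a, b`, the second (positions `i+1, i+2`) compares `a + 1, c`, the third compares `b + 1, c + 1`.. i.e. the three pairs of strands; on the other side the same three comparisons in the other order. Check the 8 cases. -/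
theorem wr_of_el_eq {N : ℕ} {w w' : BW} (h : el N w = el N w') (r : Row N) :
    wr (tw N w) r = wr (tw N w') r :=
  (Brd_inv (bEq_of_el_eq h) r).2

/-! The group versions. -/

/-- the row above a braid -/
noncomputable def fing {N : ℕ} (r : Row N) (g : Brd N) : Row N :=
  fin (tw N (el_surj N g).choose) r

/-- the writhe of a braid with bottom row `r` -/
noncomputable def wrg {N : ℕ} (r : Row N) (g : Brd N) : ℤ := wr (tw N (el_surj N g).choose) r

def GoodG {N : ℕ} (g : Brd N) (r : Row N) (l : ℤ) : Prop := ∃ w, el N w = g ∧ Good (tw N w) r l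

theorem fing_el {N : ℕ} (r : Row N) (w : BW) : fing r (el N w) = fin (tw N w) r :=
  fin_of_el_eq (el_surj N (el N w)).choose_spec r

theorem wrg_el {N : ℕ} (r : Row N) (w : BW) : wrg r (el N w) = wr (tw N w) r :=
  wr_of_el_eq (el_surj N (el N w)).choose_spec r

theorem fing_mul {N : ℕ} (r : Row N) (g h : Brd N) : fing r (g * h) = fing (fing r g) h := by
  obtain ⟨w, rfl⟩ := el_surj N g
  obtain ⟨w', rfl⟩ := el_surj N h
  rw [← el_append, fing_el, fing_el, fing_el, tw_append, fin_append]

theorem wrg_mul {N : ℕ} (r : Row N) (g h : Brd N) : wrg r (g * h) = wrg r g + wrg (fing r g) h := by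
  obtain ⟨w, rfl⟩ := el_surj N g
  obtain ⟨w', rfl⟩ := el_surj N h
  rw [← el_append, wrg_el, wrg_el, wrg_el, fing_el, tw_append, wr_append]

@[simp] theorem fing_one {N : ℕ} (r : Row N) : fing r 1 = r := by
  rw [← el_nil, fing_el]; rfl

@[simp] theorem wrg_one {N : ℕ} (r : Row N) : wrg r 1 = 0 := by
  rw [← el_nil, wrg_el]; rfl

end Pool.Agent.HK
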