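import Pool.Agent.H.MP_cd3d06_an.K.Defs

/-!
Part A: braid words and the braid group.
-/

namespace Pool.Agent.HK

/-- braid words: `(i, b)` is the generator number `i` (positions `i, i+1`), inverse if `b = false` -/
abbrev BW := List (ℕ × Bool)

/-- the relators of the braid group on `N` strands, with generators numbered by `ℕ`, those with
number `≥ N - 1` being trivial -/
inductive IsRel (N : ℕ) : FreeGroup ℕ → Prop
  | comm (i j : ℕ) (h : i + 2 ≤ j) (hj : j + 1 < N) :
      IsRel N (FreeGroup.of i * FreeGroup.of j * (FreeGroup.of i)⁻¹ * (FreeGroup.of j)⁻¹)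
  | braid (i : ℕ) (h : i + 2 < N) :
      IsRel N (FreeGroup.of i * FreeGroup.of (i + 1) * FreeGroup.of i *
        (FreeGroup.of (i + 1) * FreeGroup.of i * FreeGroup.of (i + 1))⁻¹)
  | triv (i : ℕ) (h : N ≤ i + 1) : IsRel N (FreeGroup.of i)

/-- the braid group -/
abbrev Brd (N : ℕ) := PresentedGroup ({x | IsRel N x})

/-- the generators -/
def sg (N : ℕ) (i : ℕ) : Brd N := PresentedGroup.of i

private theorem BrdA_rel {N : ℕ} {x : FreeGroup ℕ} (h : IsRel N x) :
    PresentedGroup.mk {x | IsRel N x} x = 1 := PresentedGroup.one_of_mem h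

private theorem BrdA_triv {N i : ℕ} (h : N ≤ i + 1) : sg N i = 1 := BrdA_rel (IsRel.triv i h)

/-- PROOF. If `j + 1 < N` this is the relator `comm` (`PresentedGroup.one_of_mem` or `QuotientGroup.eq`); otherwise `sg N j = 1` (`sg_triv`). -/
theorem sg_comm {N i j : ℕ} (h : i + 2 ≤ j) : sg N i * sg N j = sg N j * sg N i := by
  by_cases hj : j + 1 < N
  · have h1 := BrdA_rel (IsRel.comm i j h hj)
    simp only [map_mul, map_inv] at h1
    have h2 : sg N i * sg N j * (sg N i)⁻¹ * (sg N j)⁻¹ = 1 := h1
    rw [mul_inv_eq_one, mul_inv_eq_iff_eq_mul] at h2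
    exact h2
  · rw [BrdA_triv (by omega : N ≤ j + 1), one_mul, mul_one]

/-- PROOF. The relator `braid`. -/
theorem sg_braid {N i : ℕ} (h : i + 2 < N) :
    sg N i * sg N (i + 1) * sg N i = sg N (i + 1) * sg N i * sg N (i + 1) := by
  have h1 := BrdA_rel (IsRel.braid i h)
  rw [map_mul, map_inv, mul_inv_eq_one, map_mul, map_mul, map_mul, map_mul] at h1
  exact h1

/-- PROOF. The relator `triv`. -/
theorem sg_triv {N i : ℕ} (h : N ≤ i + 1) : sg N i = 1 := BrdA_triv h

/-- the element of a word -/
def el (N : ℕ) (w : BW) : Brd N := (w.map fun a => if a.2 then sg N a.1 else (sg N a.1)⁻¹).prod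

@[simp] theorem el_nil (N : ℕ) : el N [] = 1 := rfl

theorem el_append (N : ℕ) (w w' : BW) : el N (w ++ w') = el N w * el N w' := by
  simp [el]

theorem el_cons (N : ℕ) (a : ℕ × Bool) (w : BW) :
    el N (a :: w) = (if a.2 then sg N a.1 else (sg N a.1)⁻¹) * el N w := by
  simp [el]

/-- PROOF. `PresentedGroup.induction_on` and induction in the free group (`FreeGroup.induction_on`), with `el_append`; or use `FreeGroup.toWord`: the element is the product over the reduced word. -/
theorem el_surj (N : ℕ) (g : Brd N) : ∃ w : BW, el N w = g := by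
  induction g using PresentedGroup.induction_on with
  | _ z =>
    induction z using FreeGroup.induction_on with
    | C1 => exact ⟨[], by rw [el_nil, map_one]⟩
    | of x => exact ⟨[(x, true)], by rw [el_cons, el_nil, mul_one, if_pos rfl]; rfl⟩
    | inv_of x _ =>
      refine ⟨[(x, false)], ?_⟩
      rw [el_cons, el_nil, mul_one, if_neg (by simp), map_inv]
      rfl
    | mul x y hx hy =>
      obtain ⟨w, hw⟩ := hx
      obtain ⟨w', hw'⟩ := hy
      exact ⟨w ++ w', by rw [el_append, hw, hw', map_mul]⟩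

/-- the word in the sense of the algebraic part -/
def tw (N : ℕ) (w : BW) : Word N := w.filterMap fun a =>
  if h : a.1 + 1 < N then
    some ⟨⟨a.1, by omega⟩, ⟨a.1 + 1, h⟩, by simp [Fin.ext_iff], a.2⟩ else none

theorem tw_append (N : ℕ) (w w' : BW) : tw N (w ++ w') = tw N w ++ tw N w' := by
  simp [tw]

/-- elementary equivalence of braid words in context -/
inductive BEq (N : ℕ) : BW → BW → Prop
  | refl (w : BW) : BEq N w w
  | symm {w w' : BW} : BEq N w w' → BEq N w' w
  | trans {w w' w'' : BW} : BEq N w w' → BEq N w' w'' → BEq N w w''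
  | app {w w' u u' : BW} : BEq N w w' → BEq N u u' → BEq N (w ++ u) (w' ++ u')
  | r2 (i : ℕ) (b : Bool) : BEq N [(i, b), (i, !b)] []
  | triv (i : ℕ) (b : Bool) (h : N ≤ i + 1) : BEq N [(i, b)] []
  | comm (i j : ℕ) (b b' : Bool) (h : i + 2 ≤ j) (hj : j + 1 < N) :
      BEq N [(i, b), (j, b')] [(j, b'), (i, b)]
  | braid (i : ℕ) (h : i + 2 < N) :
      BEq N [(i, true), (i + 1, true), (i, true)] [(i + 1, true), (i, true), (i + 1, true)]

private def BrdA_inv (w : BW) : BW := (w.map fun a => (a.1, !a.2)).reverse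

private theorem BrdA_inv_cons (a : ℕ × Bool) (w : BW) :
    BrdA_inv (a :: w) = BrdA_inv w ++ [(a.1, !a.2)] := by
  simp [BrdA_inv]

private theorem BrdA_right (N : ℕ) (w : BW) : BEq N (w ++ BrdA_inv w) [] := by
  induction w with
  | nil => exact BEq.refl []
  | cons a w ih =>
    rw [BrdA_inv_cons]
    have h1 : (a :: w) ++ (BrdA_inv w ++ [(a.1, !a.2)]) =
        [a] ++ ((w ++ BrdA_inv w) ++ [(a.1, !a.2)]) := by simp
    rw [h1]
    refine BEq.trans (BEq.app (BEq.refl [a]) (BEq.app ih (BEq.refl _))) ?_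
    exact BEq.r2 a.1 a.2

private theorem BrdA_left (N : ℕ) (w : BW) : BEq N (BrdA_inv w ++ w) [] := by
  induction w with
  | nil => exact BEq.refl []
  | cons a w ih =>
    rw [BrdA_inv_cons]
    have h1 : (BrdA_inv w ++ [(a.1, !a.2)]) ++ (a :: w) =
        BrdA_inv w ++ ([(a.1, !a.2), (a.1, a.2)] ++ w) := by simp
    rw [h1]
    refine BEq.trans (BEq.app (BEq.refl _) (BEq.app (w' := []) ?_ (BEq.refl w))) ih
    have h2 := BEq.r2 (N := N) a.1 (!a.2)
    rw [Bool.not_not] at h2
    exact h2

private theorem BrdA_congr {N : ℕ} {w w' : BW} (h : BEq N w w') :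
    BEq N (BrdA_inv w) (BrdA_inv w') := by
  have h1 : BEq N (BrdA_inv w ++ (w ++ BrdA_inv w')) (BrdA_inv w) := by
    have h2 := BEq.app (BEq.refl (N := N) (BrdA_inv w))
      (BEq.trans (BEq.app h (BEq.refl (BrdA_inv w'))) (BrdA_right N w'))
    rwa [List.append_nil] at h2
  have h3 : BEq N (BrdA_inv w ++ (w ++ BrdA_inv w')) (BrdA_inv w') := by
    rw [← List.append_assoc]
    have h2 := BEq.app (BrdA_left N w) (BEq.refl (BrdA_inv w'))
    rwa [List.nil_append] at h2
  exact h1.symm.trans h3

private def BrdA_setoid (N : ℕ) : Setoid BW :=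
  ⟨BEq N, ⟨BEq.refl, BEq.symm, BEq.trans⟩⟩

private def BrdA_Q (N : ℕ) : Type := Quotient (BrdA_setoid N)

private instance BrdA_group (N : ℕ) : Group (BrdA_Q N) where
  mul := Quotient.map₂ (fun w w' => w ++ w') (fun _ _ h _ _ h' => BEq.app h h')
  one := Quotient.mk (BrdA_setoid N) []
  inv := Quotient.map BrdA_inv (fun _ _ h => BrdA_congr h)
  mul_assoc := by
    rintro ⟨a⟩ ⟨b⟩ ⟨c⟩
    exact congrArg (Quotient.mk (BrdA_setoid N)) (List.append_assoc a b c)
  one_mul := by
    rintro ⟨a⟩
    rfl
  mul_one := by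
    rintro ⟨a⟩
    exact congrArg (Quotient.mk (BrdA_setoid N)) (List.append_nil a)
  inv_mul_cancel := by
    rintro ⟨a⟩
    exact Quotient.sound (s := BrdA_setoid N) (BrdA_left N a)

private def BrdA_mk (N : ℕ) (w : BW) : BrdA_Q N := Quotient.mk (BrdA_setoid N) w

private theorem BrdA_mk_append (N : ℕ) (w w' : BW) :
    BrdA_mk N (w ++ w') = BrdA_mk N w * BrdA_mk N w' := rfl

private theorem BrdA_mk_inv (N : ℕ) (i : ℕ) : BrdA_mk N [(i, false)] = (BrdA_mk N [(i, true)])⁻¹ :=
  rfl

private theorem BrdA_sound {N : ℕ} {w w' : BW} (h : BEq N w w') : BrdA_mk N w = BrdA_mk N w' :=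
  Quotient.sound (s := BrdA_setoid N) h

private theorem BrdA_relQ (N : ℕ) : ∀ r ∈ {x | IsRel N x},
    FreeGroup.lift (fun i => BrdA_mk N [(i, true)]) r = 1 := by
  intro r hr
  have hr' : IsRel N r := hr
  cases hr' with
  | comm i j h hj =>
    have h1 : BrdA_mk N [(i, true)] * BrdA_mk N [(j, true)] =
        BrdA_mk N [(j, true)] * BrdA_mk N [(i, true)] :=
      BrdA_sound (BEq.comm i j true true h hj)
    simp only [map_mul, map_inv, FreeGroup.lift_apply_of]
    rw [h1, mul_inv_cancel_right, mul_inv_cancel]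
  | braid i h =>
    have h1 : BrdA_mk N [(i, true)] * BrdA_mk N [(i + 1, true)] * BrdA_mk N [(i, true)] =
        BrdA_mk N [(i + 1, true)] * BrdA_mk N [(i, true)] * BrdA_mk N [(i + 1, true)] :=
      BrdA_sound (BEq.braid i h)
    simp only [map_mul, map_inv, FreeGroup.lift_apply_of]
    rw [h1, mul_inv_cancel]
  | triv i h =>
    rw [FreeGroup.lift_apply_of]
    exact BrdA_sound (BEq.triv i true h)

/-- words with the same image in the braid group are equivalent
PROOF. `BEq N` is a congruence on the monoid `BW` (lists). Let `Q` be the quotient (`Quot`/`Quotient` by the setoid `BEq N`); it is a monoid and in fact a group: the inverse of `[w]` is the class of `(w.map (fun a => (a.1, !a.2))).reverse` (well defined because `r2` gives `w ++ w⁻¹ ~ []`, by induction on `w`, and inverses in a monoid are unique). The relators of `IsRel N` hold in `Q` for the classes of `[(i, true)]` (for `comm` use the constructor with `b = b' = true`). So `PresentedGroup.toGroup` gives a homomorphism `F : Brd N →* Q` with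 `F (sg N i) = [(i, true)]`, hence `F (el N w) = [w]` (induction on `w`; `[(i, false)]` is the inverse). From `el N w = el N w'` we get `[w] = [w']`. -/
theorem bEq_of_el_eq {N : ℕ} {w w' : BW} (h : el N w = el N w') : BEq N w w' := by
  let F : Brd N →* BrdA_Q N := PresentedGroup.toGroup (BrdA_relQ N)
  have hF : ∀ i, F (sg N i) = BrdA_mk N [(i, true)] := fun i =>
    PresentedGroup.toGroup.of (BrdA_relQ N)
  have h1 : ∀ u : BW, F (el N u) = BrdA_mk N u := by
    intro u
    induction u with
    | nil => rw [el_nil, map_one]; rfl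
    | cons a u ih =>
      have h2 : a :: u = [a] ++ u := rfl
      rw [el_cons, map_mul, ih, h2, BrdA_mk_append]
      congr 1
      obtain ⟨i, b⟩ := a
      cases b with
      | true => rw [if_pos rfl, hF]
      | false => rw [if_neg (by simp), map_inv, hF, BrdA_mk_inv]
  have h2 : BrdA_mk N w = BrdA_mk N w' := by rw [← h1 w, ← h1 w', h]
  exact Quotient.exact (s := BrdA_setoid N) h2

end Pool.Agent.HK
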