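import Pool.Agent.H.MP_cd3d06_an.K.CombA

/-!
Part A: the combinatorial interface.  `Bd n g r A` is the only quantity that is followed along the
sweep; it starts with `A = -n` for the trivial braid, and ends with `-2n ≤ A`.
-/

namespace Pool.Agent.HK

variable {n : ℕ}

/-- the word of the block twist `W`: rows `σ_{n-1+j} σ_{n-2+j} ... σ_j`, `j = 0, ..., n-1` -/
def Wd (n : ℕ) : BW :=
  (List.range n).flatMap fun j => (List.range n).map fun t => (n - 1 + j - t, true)

/-- the internal subgroup: all generators except the middle one -/
def intB (n : ℕ) : Subgroup (Brd (2 * n)) :=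
  Subgroup.closure {g | ∃ i, i ≠ n - 1 ∧ g = sg (2 * n) i}

/-- the canonical row when the first `n` points have type 0 and the last `n` points have type 1 -/
def rR (n : ℕ) : Row (2 * n) := fun j => (if (j : ℕ) < n then 0 else 1) + ((j : ℕ) : ZMod 2)

/-- shift of a colouring -/
private def CombC_sf (k : ℕ) (x : Col (2 * n)) : Col (2 * n) := fun t => x (t + k)

private theorem CombC_sf_apply (k : ℕ) (x : Col (2 * n)) (t : ℕ) : CombC_sf k x t = x (t + k) := rfl

private theorem CombC_sf_zero (x : Col (2 * n)) : CombC_sf 0 x = x := rfl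

private theorem CombC_sf_tl (k : ℕ) (x : Col (2 * n)) : CombC_sf k (tl x) = CombC_sf (k + 1) x := by
  funext t; simp [CombC_sf, add_assoc]

private theorem CombC_sf_sf (k l : ℕ) (x : Col (2 * n)) :
    CombC_sf k (CombC_sf l x) = CombC_sf (k + l) x := by
  funext t; simp [CombC_sf, add_assoc]

private theorem CombC_tw_lt {N : ℕ} (a : ℕ × Bool) (w : BW) (h : a.1 + 1 < N) :
    tw N (a :: w) = ⟨⟨a.1, by omega⟩, ⟨a.1 + 1, h⟩, by simp [Fin.ext_iff], a.2⟩ :: tw N w := by
  simp [tw, h]

private theorem CombC_tw_ge {N : ℕ} (a : ℕ × Bool) (w : BW) (h : ¬ a.1 + 1 < N) :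
    tw N (a :: w) = tw N w := by
  simp [tw, h]

/-- a word whose letters pass between different labels does nothing -/
private theorem CombC_int {r : Row (2 * n)}
    (hr : ∀ i, i ≠ n - 1 → ∀ h : i + 1 < 2 * n, r ⟨i, by omega⟩ ≠ r ⟨i + 1, h⟩) :
    ∀ (a : BW), (∀ x ∈ a, x.1 ≠ n - 1) → ∀ (w : Word (2 * n)) (x : Col (2 * n)),
      Valid (tw (2 * n) a ++ w) (co (tw (2 * n) a ++ w) r) x →
      (∀ t ≤ (tw (2 * n) a).length, x t = x 0) ∧
        Valid w (co w r) (CombC_sf (tw (2 * n) a).length x) := by
  intro a
  induction a with
  | nil =>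
    intro _ w x hx
    refine ⟨fun t ht => ?_, ?_⟩
    · have : t = 0 := by simpa [tw] using ht
      rw [this]
    · simpa [tw, CombC_sf_zero] using hx
  | cons b a ih =>
    intro ha w x hx
    have ha' : ∀ x ∈ a, x.1 ≠ n - 1 := fun y hy => ha y (List.mem_cons_of_mem _ hy)
    by_cases hb : b.1 + 1 < 2 * n
    · rw [CombC_tw_lt b a hb] at hx ⊢
      simp only [List.cons_append, co] at hx
      have hne : r ⟨b.1, by omega⟩ ≠ r ⟨b.1 + 1, hb⟩ := hr b.1 (ha b List.mem_cons_self) hb
      have he : eo (⟨⟨b.1, by omega⟩, ⟨b.1 + 1, hb⟩, by simp [Fin.ext_iff], b.2⟩ : Letter (2 * n)) r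
          = false := by simp [eo, hne]
      have hn : nxt (⟨⟨b.1, by omega⟩, ⟨b.1 + 1, hb⟩, by simp [Fin.ext_iff], b.2⟩ :
          Letter (2 * n)) r = r := by simp [nxt, hne]
      rw [he, hn] at hx
      obtain ⟨h1, h2⟩ := hx
      have h1' : x 0 = x 1 := h1
      obtain ⟨h3, h4⟩ := ih ha' w (tl x) h2
      refine ⟨fun t ht => ?_, ?_⟩
      · rcases t with _ | t
        · rfl
        · have := h3 t (by simpa using ht)
          simp only [tl_apply, zero_add] at this
          rw [this, h1']
      · rw [CombC_sf_tl] at h4
        simpa using h4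
    · rw [CombC_tw_ge b a hb] at hx ⊢
      exact ih ha' w x hx

/-- the canonical rows along the block twist -/
private def CombC_rw (n j t : ℕ) : Row (2 * n) := fun k =>
  (if (k : ℕ) < j then 1 else if (k : ℕ) < j + n - t then 0 else if (k : ℕ) = j + n - t then 1
    else if (k : ℕ) ≤ j + n then 0 else 1) + ((k : ℕ) : ZMod 2)

private theorem CombC_rw_zero : CombC_rw n 0 0 = rR n := by
  funext k
  unfold CombC_rw rR
  congr 1
  split_ifs <;> first | rfl | omega

private theorem CombC_rw_end {j : ℕ} : CombC_rw n j n = CombC_rw n (j + 1) 0 := by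
  funext k
  unfold CombC_rw
  congr 1
  split_ifs <;> first | rfl | omega

private theorem CombC_eq {j t : ℕ} (_ : j < n) (ht : t < n) (h : n - 1 + j - t + 1 < 2 * n) :
    CombC_rw n j t ⟨n - 1 + j - t, by omega⟩ = CombC_rw n j t ⟨n - 1 + j - t + 1, h⟩ := by
  unfold CombC_rw
  simp only
  rw [if_neg (by omega), if_pos (by omega), if_neg (by omega), if_neg (by omega), if_pos (by omega)]
  push_cast
  have h2 : (2 : ZMod 2) = 0 := rfl
  linear_combination (-1 : ZMod 2) * h2

private theorem CombC_nxt {j t : ℕ} (hj : j < n) (ht : t < n) (h : n - 1 + j - t + 1 < 2 * n)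
    (b : Bool) :
    nxt (⟨⟨n - 1 + j - t, by omega⟩, ⟨n - 1 + j - t + 1, h⟩, by simp [Fin.ext_iff], b⟩ :
      Letter (2 * n)) (CombC_rw n j t) = CombC_rw n j (t + 1) := by
  unfold nxt
  rw [if_pos (CombC_eq hj ht h)]
  funext k
  have h2 : (2 : ZMod 2) = 0 := rfl
  have h11 : (1 : ZMod 2) + 1 = 0 := rfl
  unfold flip CombC_rw
  simp only [Fin.ext_iff]
  by_cases h1 : (k : ℕ) = n - 1 + j - t
  · rw [if_pos (Or.inl h1), if_neg (by omega), if_pos (by omega), if_neg (by omega),
      if_neg (by omega), if_pos (by omega)]
    ring
  · by_cases h3 : (k : ℕ) = n - 1 + j - t + 1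
    · rw [if_pos (Or.inr h3), if_neg (by omega), if_neg (by omega), if_pos (by omega),
        if_neg (by omega), if_neg (by omega), if_neg (by omega), if_pos (by omega)]
      linear_combination h2
    · rw [if_neg (by tauto)]
      congr 1
      split_ifs <;> first | rfl | omega

private theorem CombC_row {j : ℕ} (hj : j < n) (w : Word (2 * n)) :
    ∀ (s t : ℕ), t + s = n → ∀ x : Col (2 * n),
      Valid (tw (2 * n) ((List.range s).map fun u => (n - 1 + j - t - u, true)) ++ w)
        (co (tw (2 * n) ((List.range s).map fun u => (n - 1 + j - t - u, true)) ++ w)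
          (CombC_rw n j t)) x →
      x 0 = 0 → x s ⟨j, by omega⟩ = 0 →
      (∀ u ≤ s, x u = 0) ∧ Valid w (co w (CombC_rw n j n)) (CombC_sf s x) := by
  intro s
  induction s with
  | zero =>
    intro t ht x hx h0 _
    refine ⟨fun u hu => by rw [Nat.le_zero.mp hu]; exact h0, ?_⟩
    have : t = n := by omega
    subst this
    simpa [tw, CombC_sf_zero] using hx
  | succ s ih =>
    intro t ht x hx h0 hs
    have hlist : (List.range (s + 1)).map (fun u => (n - 1 + j - t - u, true))
        = (n - 1 + j - t, true) :: (List.range s).map (fun u => (n - 1 + j - (t + 1) - u, true)) := by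
      rw [List.range_succ_eq_map, List.map_cons, List.map_map]
      congr 1
      apply List.map_congr_left
      intro u _
      simp only [Function.comp_apply, Prod.mk.injEq, and_true]
      omega
    have hlt : n - 1 + j - t + 1 < 2 * n := by omega
    rw [hlist, CombC_tw_lt _ _ hlt] at hx
    simp only [List.cons_append, co] at hx
    rw [CombC_nxt hj (by omega) hlt] at hx
    have he : eo (⟨⟨n - 1 + j - t, by omega⟩, ⟨n - 1 + j - t + 1, hlt⟩, by simp [Fin.ext_iff],
        true⟩ : Letter (2 * n)) (CombC_rw n j t) = true := by
      simp only [eo, decide_eq_true_eq]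
      exact CombC_eq hj (by omega) hlt
    rw [he] at hx
    obtain ⟨⟨h1, h2, h3⟩, h4⟩ := hx
    simp only at h1 h2 h3
    have hx1 : x 1 = 0 := by
      -- it suffices that the label at the letter vanishes
      have key : x 1 ⟨n - 1 + j - t, by omega⟩ = 0 → x 1 = 0 := by
        intro hk
        funext k
        by_cases e1 : k = ⟨n - 1 + j - t, by omega⟩
        · rw [e1]; exact hk
        · by_cases e2 : k = ⟨n - 1 + j - t + 1, hlt⟩
          · rw [e2, ← h2]; exact hk
          · rw [← h3 k e1 e2, h0]
      apply key
      rcases s with _ | s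
      · have e : n - 1 + j - t = j := by omega
        have : x 1 ⟨j, by omega⟩ = 0 := by simpa using hs
        have e' : (⟨n - 1 + j - t, by omega⟩ : Fin (2 * n)) = ⟨j, by omega⟩ := Fin.ext e
        rw [e']
        exact this
      · have hlist2 : (List.range (s + 1)).map (fun u => (n - 1 + j - (t + 1) - u, true))
            = (n - 1 + j - (t + 1), true) ::
              (List.range s).map (fun u => (n - 1 + j - (t + 1) - (u + 1), true)) := by
          rw [List.range_succ_eq_map, List.map_cons, List.map_map]
          rfl
        have hlt2 : n - 1 + j - (t + 1) + 1 < 2 * n := by omega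
        rw [hlist2, CombC_tw_lt _ _ hlt2] at h4
        simp only [List.cons_append, co] at h4
        have he2 : eo (⟨⟨n - 1 + j - (t + 1), by omega⟩, ⟨n - 1 + j - (t + 1) + 1, hlt2⟩,
            by simp [Fin.ext_iff], true⟩ : Letter (2 * n)) (CombC_rw n j (t + 1)) = true := by
          simp only [eo, decide_eq_true_eq]
          exact CombC_eq hj (by omega) hlt2
        rw [he2] at h4
        obtain ⟨⟨g1, _, _⟩, _⟩ := h4
        simp only [tl_apply, zero_add] at g1
        have e1 : x 1 ⟨n - 1 + j - (t + 1), by omega⟩ = 0 := by
          rw [← h3 _ (by simp only [ne_eq, Fin.mk.injEq]; omega)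
            (by simp only [ne_eq, Fin.mk.injEq]; omega), h0]
          rfl
        have e' : (⟨n - 1 + j - t, by omega⟩ : Fin (2 * n)) =
            ⟨n - 1 + j - (t + 1) + 1, hlt2⟩ := Fin.ext (by simp only; omega)
        rw [e', ← g1]
        exact e1
    obtain ⟨h5, h6⟩ := ih (t + 1) (by omega) (tl x) h4 (by simpa using hx1) (by simpa using hs)
    refine ⟨fun u hu => ?_, ?_⟩
    · rcases u with _ | u
      · exact h0
      · exact h5 u (by omega)
    · rw [CombC_sf_tl] at h6
      exact h6

private theorem CombC_rows (w : Word (2 * n)) :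
    ∀ (m j : ℕ) (hjm : j + m = n) (x : Col (2 * n)),
      Valid (tw (2 * n) ((List.range m).flatMap fun i =>
          (List.range n).map fun t => (n - 1 + (j + i) - t, true)) ++ w)
        (co (tw (2 * n) ((List.range m).flatMap fun i =>
          (List.range n).map fun t => (n - 1 + (j + i) - t, true)) ++ w) (CombC_rw n j 0)) x →
      x 0 = 0 → (∀ i, ∀ hi : i < m, x (n * (i + 1)) ⟨j + i, by omega⟩ = 0) →
      (∀ u ≤ n * m, x u = 0) ∧ Valid w (co w (CombC_rw n n 0)) (CombC_sf (n * m) x) := by
  intro m
  induction m with
  | zero =>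
    intro j hj x hx h0 _
    refine ⟨fun u hu => by rw [show u = 0 by simpa using hu]; exact h0, ?_⟩
    have : j = n := by omega
    subst this
    simpa [tw, CombC_sf_zero] using hx
  | succ m ih =>
    intro j hj x hx h0 hc
    have hlist : ((List.range (m + 1)).flatMap fun i =>
          (List.range n).map fun t => (n - 1 + (j + i) - t, true))
        = ((List.range n).map fun t => (n - 1 + j - 0 - t, true)) ++
          ((List.range m).flatMap fun i =>
            (List.range n).map fun t => (n - 1 + ((j + 1) + i) - t, true)) := by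
      rw [List.range_succ_eq_map, List.flatMap_cons, List.flatMap_map]
      congr 1
      congr 1
      funext i
      simp only [Nat.succ_eq_add_one]
      rw [show j + (i + 1) = j + 1 + i by omega]
    rw [hlist, tw_append, List.append_assoc] at hx
    obtain ⟨h1, h2⟩ := CombC_row (j := j) (by omega) _ n 0 (by omega) x hx h0
      (by simpa using hc 0 (by omega))
    rw [CombC_rw_end] at h2
    obtain ⟨h3, h4⟩ := ih (j + 1) (by omega) (CombC_sf n x) h2
      (by rw [CombC_sf_apply, zero_add]; exact h1 n le_rfl)
      (fun i hi => by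
        rw [CombC_sf_apply]
        have := hc (i + 1) (by omega)
        rw [show n * (i + 1) + n = n * (i + 1 + 1) by ring]
        convert this using 2
        apply Fin.ext
        simp only
        omega)
    refine ⟨fun u hu => ?_, ?_⟩
    · by_cases hun : u ≤ n
      · exact h1 u hun
      · have := h3 (u - n) (by
          have : n * (m + 1) = n * m + n := by ring
          omega)
        rw [CombC_sf_apply, Nat.sub_add_cancel (by omega)] at this
        exact this
    · rw [CombC_sf_sf] at h4
      rw [show n * (m + 1) = n * m + n by ring]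
      exact h4

private theorem CombC_valid_nil {v : List Bool} {x : Col (2 * n)} (h : Valid [] v x) (h0 : x 0 = 0)
    (t : ℕ) : x t = 0 := by
  rcases t with _ | t
  · exact h0
  · rw [h.2 t]; exact h0

/-- the number of circles of the canonical resolution of the last braid is at most `2 n`
PROOF. Row `rR n`: labels `j` for `j < n`, `j + 1` for `j ≥ n`: neighbours on the same side differ, so the letters of `a` (`i ≠ n-1`) have the canonical state `I` and do not change the row (letters with `i + 1 ≥ 2n` are dropped by `tw`). Along `Wd n` all letters have the canonical state `E` (a point of the left block is exchanged with a point of the right block: the labels are equal): more precisely the row above the first `j` rows `σ_{n-1+i} ... σ_i` (`i < j`) of `Wd n` is the canonical row of the type sequence `1^j 0^n 1^(n-j)`, and inside row `j` of the word, after `t` letters, of `1^j 0^(n-t) 1 0^t 1^(n-j-1)`. Above `Wd n` the types are `1^n 0^n`, and the letters of `a'` have state `I` again. Dimension: in the state `co`, along `a` and `a'` the rows are constant. Linear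 map from `K` to `(Fin n → ZMod 2) × (Fin n → ZMod 2)`: `x ↦` (the labels `j < n` of `x 0`; for each row `j` of `Wd n` the label at position `j` just after the last letter `σ_j` of this row). It is injective: `x 0` is symmetric, so it is known; inductively suppose the row `c` of labels before row `j` of `Wd n` is known (`= 0` for an element of the kernel). The letter `σ_i` (state `E`) requires the two labels at `i, i+1` below to be equal, keeps the others, and puts one new label `c_i` at `i, i+1`. The next letter `σ_{i-1}` requires the labels at `i-1` and `i` to be equal: so `c_i` is the label at `i-1`, which is an old one: known. Only the label `c_j` of the last letter is new, and it is a coordinate. So the kernel is zero and `dimK ≤ 2n`. (For an element of the kernel simply show by induction that all rows vanish.) -/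
theorem dimK_last (hn : 1 ≤ n) (a a' : BW) (ha : ∀ x ∈ a, x.1 ≠ n - 1) (ha' : ∀ x ∈ a', x.1 ≠ n - 1) :
    dimK (tw (2 * n) (a ++ Wd n ++ a')) (co (tw (2 * n) (a ++ Wd n ++ a')) (rR n)) ≤ 2 * n := by
  set w := tw (2 * n) (a ++ Wd n ++ a') with hw
  set v := co w (rR n) with hv
  set La := (tw (2 * n) a).length with hLa
  -- the coordinates
  let Φ : K w v →ₗ[ZMod 2] (Fin n → ZMod 2) × (Fin n → ZMod 2) :=
    { toFun := fun x => (fun j => x.1 0 ⟨j, by omega⟩, fun j => x.1 (La + n * (j + 1)) ⟨j, by omega⟩)
      map_add' := fun x y => rfl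
      map_smul' := fun c x => rfl }
  have hinj : Function.Injective Φ := by
    rw [← LinearMap.ker_eq_bot, LinearMap.ker_eq_bot']
    rintro ⟨x, hx⟩ hΦ
    have hΦ1 : ∀ j : Fin n, x 0 ⟨j, by omega⟩ = 0 := fun j => congrFun (congrArg Prod.fst hΦ) j
    have hΦ2 : ∀ j : Fin n, x (La + n * (j + 1)) ⟨j, by omega⟩ = 0 :=
      fun j => congrFun (congrArg Prod.snd hΦ) j
    obtain ⟨hs, hval⟩ := mem_K.mp hx
    have h0 : x 0 = 0 := by
      funext k
      by_cases hk : (k : ℕ) < n
      · exact hΦ1 ⟨k, hk⟩
      · have h1 := hs k
        have h2 := hΦ1 ⟨(k.rev : ℕ), by rw [Fin.val_rev]; omega⟩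
        rw [← h1]
        exact h2
    -- the first part
    have hw1 : w = tw (2 * n) a ++ (tw (2 * n) (Wd n) ++ tw (2 * n) a') := by
      rw [hw, tw_append, tw_append, List.append_assoc]
    have hr1 : ∀ i, i ≠ n - 1 → ∀ h : i + 1 < 2 * n, rR n ⟨i, by omega⟩ ≠ rR n ⟨i + 1, h⟩ := by
      intro i hi h he
      unfold rR at he
      simp only [Nat.cast_add, Nat.cast_one] at he
      have h10 : (1 : ZMod 2) ≠ 0 := one_ne_zero
      apply h10
      by_cases hin : i + 1 < n
      · rw [if_pos (by omega), if_pos hin] at he
        linear_combination (-1 : ZMod 2) * he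
      · rw [if_neg (by omega), if_neg hin] at he
        linear_combination (-1 : ZMod 2) * he
    rw [hv, hw1] at hval
    obtain ⟨h1, h2⟩ := CombC_int hr1 a ha _ x hval
    rw [← CombC_rw_zero] at h2
    -- the block twist
    have hWd : Wd n = (List.range n).flatMap fun i =>
        (List.range n).map fun t => (n - 1 + (0 + i) - t, true) := by
      unfold Wd
      simp only [zero_add]
    rw [hWd] at h2
    obtain ⟨h3, h4⟩ := CombC_rows (tw (2 * n) a') n 0 (by omega) (CombC_sf La x) h2
      (by rw [CombC_sf_apply, zero_add, h1 La le_rfl, h0])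
      (fun i hi => by
        rw [CombC_sf_apply]
        have := hΦ2 ⟨i, hi⟩
        rw [show n * (i + 1) + La = La + n * (i + 1) by ring]
        convert this using 2
        apply Fin.ext
        simp)
    -- the last part
    have hr2 : ∀ i, i ≠ n - 1 → ∀ h : i + 1 < 2 * n,
        CombC_rw n n 0 ⟨i, by omega⟩ ≠ CombC_rw n n 0 ⟨i + 1, h⟩ := by
      intro i hi h he
      unfold CombC_rw at he
      simp only [Nat.cast_add, Nat.cast_one] at he
      have h10 : (1 : ZMod 2) ≠ 0 := one_ne_zero
      apply h10
      by_cases hin : i + 1 < n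
      · rw [if_pos (by omega), if_pos hin] at he
        linear_combination (-1 : ZMod 2) * he
      · rw [if_neg (by omega), if_pos (by omega), if_neg hin, if_pos (by omega)] at he
        linear_combination (-1 : ZMod 2) * he
    have h4' : Valid (tw (2 * n) a' ++ []) (co (tw (2 * n) a' ++ []) (CombC_rw n n 0))
        (CombC_sf (n * n) (CombC_sf La x)) := by
      rw [List.append_nil]; exact h4
    obtain ⟨h5, h6⟩ := CombC_int hr2 a' ha' [] _ h4'
    have h7 : x (n * n + La) = 0 := by
      have := h3 (n * n) le_rfl
      rwa [CombC_sf_apply] at this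
    have h8 : ∀ t ≤ (tw (2 * n) a').length, x (t + (n * n + La)) = 0 := by
      intro t ht
      have := h5 t ht
      rw [CombC_sf_sf, CombC_sf_apply, CombC_sf_apply, zero_add, h7] at this
      exact this
    have h9 : ∀ t, x (t + ((tw (2 * n) a').length + (n * n + La))) = 0 := by
      intro t
      have hass : (tw (2 * n) a').length + n * n + La = (tw (2 * n) a').length + (n * n + La) := by
        ring
      have := CombC_valid_nil h6 (by
        rw [CombC_sf_sf, CombC_sf_sf, CombC_sf_apply, zero_add, hass]
        exact h8 _ le_rfl) t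
      rwa [CombC_sf_sf, CombC_sf_sf, CombC_sf_apply, hass] at this
    have hall : x = 0 := by
      funext t
      by_cases c1 : t ≤ La
      · rw [h1 t c1, h0]; rfl
      · by_cases c2 : t ≤ n * n + La
        · have := h3 (t - La) (by omega)
          rw [CombC_sf_apply, Nat.sub_add_cancel (by omega)] at this
          exact this
        · by_cases c3 : t ≤ (tw (2 * n) a').length + (n * n + La)
          · have := h8 (t - (n * n + La)) (by omega)
            rw [Nat.sub_add_cancel (by omega)] at this
            exact this
          · have := h9 (t - ((tw (2 * n) a').length + (n * n + La)))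
            rw [Nat.sub_add_cancel (by omega)] at this
            exact this
    exact Subtype.ext hall
  have h := LinearMap.finrank_le_finrank_of_injective hinj
  have h2 : Module.finrank (ZMod 2) ((Fin n → ZMod 2) × (Fin n → ZMod 2)) = 2 * n := by
    rw [Module.finrank_prod, Module.finrank_fintype_fun_eq_card, Fintype.card_fin]
    ring
  rw [h2] at h
  exact h

end Pool.Agent.HK
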