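import Pool.Agent.H.MP_cd3d06_an.K.Perm
import Pool.Agent.H.MP_cd3d06_an.K.CombC

/-!
MP_cd3d06_an, part C, module C4a: lists between lists, one step at the end of a positive permutation
braid, the mirror lemma (the transport along a real segment is in the symmetric subgroup).
-/

namespace Pool.Agent.HK

variable {α : Type*} [DecidableEq α]

/-- the list `μ` is between `ρ` and `π` -/
def Btw (ρ μ π : List α) : Prop :=
  ∀ x ∈ ρ, ∀ y ∈ ρ, ρ.idxOf x < ρ.idxOf y → π.idxOf x < π.idxOf y → μ.idxOf x < μ.idxOf y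

theorem Btw.left (ρ π : List α) : Btw ρ ρ π := fun _ _ _ _ h _ => h

theorem Btw.right (ρ π : List α) : Btw ρ π π := fun _ _ _ _ _ h => h

theorem bw_btw {N : ℕ} {ρ μ π : List α} (hρ : ρ.Nodup) (hN : ρ.length = N) (h1 : ρ.Perm μ)
    (h2 : ρ.Perm π) (hb : Btw ρ μ π) : bw N ρ π = bw N ρ μ * bw N μ π :=
  bw_mul hρ hN h1 h2 hb

/-- PROOF. Cases: `x, y ∈ L`: all indices are those in `L, L', L''` (`List.idxOf_append_of_mem`).
`x ∈ L`, `y ∈ R`: the index of `x` in `L' ++ R'` is `< L'.length`, that of `y` is at least this.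
`x ∈ R`, `y ∈ L`: the first hypothesis is false. `x, y ∈ R`: subtract the (equal) lengths. -/
theorem Btw.append {L L' L'' R R' R'' : List α} (hn : (L ++ R).Nodup) (hL : L.Perm L')
    (hL' : L.Perm L'') (hR : R.Perm R') (hR' : R.Perm R'') (h1 : Btw L L' L'')
    (h2 : Btw R R' R'') : Btw (L ++ R) (L' ++ R') (L'' ++ R'') := by
  intro x hx y hy h h'
  have lt : ∀ {l : List α} {w : α}, w ∈ l → l.idxOf w < l.length :=
    fun hw => List.idxOf_lt_length_of_mem hw
  have e1 := hL.length_eq
  have e2 := hL'.length_eq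
  by_cases x1 : x ∈ L
  · have x2 : x ∈ L' := hL.mem_iff.1 x1
    have x3 : x ∈ L'' := hL'.mem_iff.1 x1
    by_cases y1 : y ∈ L
    · have y2 : y ∈ L' := hL.mem_iff.1 y1
      have y3 : y ∈ L'' := hL'.mem_iff.1 y1
      simp only [List.idxOf_append, x1, y1, x2, y2, x3, y3, if_true] at h h' ⊢
      exact h1 x x1 y y1 h h'
    · have y2 : y ∉ L' := fun e => y1 (hL.mem_iff.2 e)
      simp only [List.idxOf_append, x2, y2, if_true, if_false]
      have := lt x2
      omega
  · have x2 : x ∉ L' := fun e => x1 (hL.mem_iff.2 e)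
    have x3 : x ∉ L'' := fun e => x1 (hL'.mem_iff.2 e)
    by_cases y1 : y ∈ L
    · simp only [List.idxOf_append, x1, y1, if_true, if_false] at h
      have := lt y1
      omega
    · have y2 : y ∉ L' := fun e => y1 (hL.mem_iff.2 e)
      have y3 : y ∉ L'' := fun e => y1 (hL'.mem_iff.2 e)
      simp only [List.idxOf_append, x1, y1, x2, y2, x3, y3, if_false] at h h' ⊢
      have hxR : x ∈ R := (List.mem_append.1 hx).resolve_left x1
      have hyR : y ∈ R := (List.mem_append.1 hy).resolve_left y1
      have := h2 x hxR y hyR (by omega) (by omega)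
      omega

omit [DecidableEq α] in
private theorem C4a_chain (R : α → α → Prop) : ∀ l : List α,
    List.IsChain R l ∨ ∃ l1 l2 x y, l = l1 ++ x :: y :: l2 ∧ ¬ R x y
  | [] => Or.inl List.IsChain.nil
  | [a] => Or.inl (List.IsChain.singleton a)
  | a :: b :: l => by
    by_cases h : R a b
    · rcases C4a_chain R (b :: l) with h1 | ⟨l1, l2, x, y, e, h2⟩
      · exact Or.inl (List.isChain_cons_cons.2 ⟨h, h1⟩)
      · exact Or.inr ⟨a :: l1, l2, x, y, by rw [e]; rfl, h2⟩
    · exact Or.inr ⟨[], l, a, b, rfl, h⟩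

private theorem C4a_adj {ρ μ : List α} (hρ : ρ.Nodup) (h : ρ.Perm μ) :
    ρ = μ ∨ ∃ l1 l2 x y, ρ = l1 ++ x :: y :: l2 ∧ μ.idxOf y < μ.idxOf x := by
  have hμ : μ.Nodup := h.nodup_iff.1 hρ
  rcases C4a_chain (fun a b => μ.idxOf a ≤ μ.idxOf b) ρ with h1 | ⟨l1, l2, x, y, e, h2⟩
  · left
    have p1 : ρ.Pairwise fun a b => μ.idxOf a ≤ μ.idxOf b := by
      have : IsTrans α fun a b => μ.idxOf a ≤ μ.idxOf b := ⟨fun a b c h h' => h.trans h'⟩
      exact List.isChain_iff_pairwise.1 h1
    have p2 : μ.Pairwise fun a b => μ.idxOf a ≤ μ.idxOf b := by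
      rw [List.pairwise_iff_getElem]
      intro i j hi hj hij
      rw [List.Nodup.idxOf_getElem hμ, List.Nodup.idxOf_getElem hμ]
      exact hij.le
    refine List.Perm.eq_of_pairwise ?_ p1 p2 h
    intro a b ha hb h1 h2
    exact ((List.idxOf_inj hb).1 (le_antisymm h2 h1)).symm
  · right
    exact ⟨l1, l2, x, y, e, not_le.1 h2⟩

private theorem C4a_ic (a b : α) (l : List α) :
    (a :: l).idxOf b = if a = b then 0 else l.idxOf b + 1 := by
  by_cases h : a = b
  · simp [h]
  · have e : (a == b) = false := by simpa using h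
    rw [List.idxOf_cons, e, if_neg h]
    rfl

/-- exchanging two neighbours changes the order of this pair only -/
private theorem C4a_order {l1 l2 : List α} {x y u v : α} (hn : (l1 ++ x :: y :: l2).Nodup)
    (h : (l1 ++ y :: x :: l2).idxOf u < (l1 ++ y :: x :: l2).idxOf v) :
    (u = y ∧ v = x) ∨ (l1 ++ x :: y :: l2).idxOf u < (l1 ++ x :: y :: l2).idxOf v := by
  rw [List.nodup_append] at hn
  obtain ⟨_, hn2, hn3⟩ := hn
  rw [List.nodup_cons, List.nodup_cons] at hn2
  obtain ⟨n1, n2, _⟩ := hn2
  have hxy : x ≠ y := fun e => n1 (by rw [e]; exact List.mem_cons_self)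
  have hx : x ∉ l1 := fun e => hn3 x e x (by simp) rfl
  have hy : y ∉ l1 := fun e => hn3 y e y (by simp) rfl
  have lt : ∀ w, w ∈ l1 → l1.idxOf w < l1.length := fun w hw => List.idxOf_lt_length_of_mem hw
  have cu := lt u
  have cv := lt v
  simp only [List.idxOf_append, C4a_ic] at h ⊢
  by_cases u1 : u ∈ l1
  · have cu' := cu u1
    by_cases v1 : v ∈ l1
    · simp only [u1, v1, if_true] at h ⊢; exact Or.inr h
    · right
      simp only [u1, v1, if_true, if_false]
      omega
  · by_cases v1 : v ∈ l1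
    · have cv' := cv v1
      simp only [u1, v1, if_true, if_false] at h
      omega
    · simp only [u1, v1, if_false] at h ⊢
      by_cases a1 : x = u
      · have a2 : ¬ y = u := fun e => hxy (a1.trans e.symm)
        simp only [a1, a2, if_true, if_false] at h ⊢
        by_cases b2 : y = v
        · simp only [b2, if_true] at h; omega
        · by_cases b1 : u = v
          · simp only [b1, b2, if_true, if_false] at h; omega
          · right; simp only [b1, if_false]; omega
      · by_cases a2 : y = u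
        · simp only [a1, a2, if_true, if_false] at h ⊢
          by_cases b1 : x = v
          · left; exact ⟨trivial, b1.symm⟩
          · by_cases b2 : u = v
            · simp only [b2, if_true] at h; omega
            · right; simp only [b1, b2, if_false]; omega
        · simp only [a1, a2, if_false] at h ⊢
          by_cases b2 : y = v
          · simp only [b2, if_true] at h; omega
          · by_cases b1 : x = v
            · simp only [b1, b2, if_true, if_false] at h; omega
            · simp only [b1, b2, if_false] at h ⊢; right; omega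

/-- the number of inversions -/
private def C4a_inv (ρ μ : List α) : ℕ :=
  ((ρ.toFinset ×ˢ ρ.toFinset).filter
    fun p => ρ.idxOf p.1 < ρ.idxOf p.2 ∧ μ.idxOf p.2 < μ.idxOf p.1).card

private theorem C4a_inv_lt {l1 l2 μ : List α} {x y : α} (hn : (l1 ++ x :: y :: l2).Nodup)
    (h : μ.idxOf y < μ.idxOf x) :
    C4a_inv (l1 ++ y :: x :: l2) μ < C4a_inv (l1 ++ x :: y :: l2) μ := by
  have hn' : (l1 ++ y :: x :: l2).Nodup :=
    (List.Perm.append_left l1 (List.Perm.swap y x l2)).nodup_iff.1 hn
  have hfs : (l1 ++ y :: x :: l2).toFinset = (l1 ++ x :: y :: l2).toFinset := by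
    apply List.toFinset_eq_of_perm
    exact (List.Perm.append_left l1 (List.Perm.swap x y l2))
  unfold C4a_inv
  rw [hfs]
  apply Finset.card_lt_card
  rw [Finset.ssubset_iff_of_subset]
  · refine ⟨(x, y), ?_, ?_⟩
    · simp only [Finset.mem_filter, Finset.mem_product, List.mem_toFinset]
      refine ⟨⟨by simp, by simp⟩, ?_, h⟩
      rw [List.nodup_append] at hn
      obtain ⟨_, hn2, hn3⟩ := hn
      rw [List.nodup_cons, List.nodup_cons] at hn2
      have hxy : x ≠ y := fun e => hn2.1 (by rw [e]; exact List.mem_cons_self)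
      have hx : x ∉ l1 := fun e => hn3 x e x (by simp) rfl
      have hy : y ∉ l1 := fun e => hn3 y e y (by simp) rfl
      simp only [List.idxOf_append, hx, hy, if_false, C4a_ic, if_true, hxy]
      omega
    · simp only [Finset.mem_filter, not_and, not_lt]
      intro _ h1
      rw [List.nodup_append] at hn
      obtain ⟨_, hn2, hn3⟩ := hn
      rw [List.nodup_cons, List.nodup_cons] at hn2
      have hxy : x ≠ y := fun e => hn2.1 (by rw [e]; exact List.mem_cons_self)
      have hx : x ∉ l1 := fun e => hn3 x e x (by simp) rfl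
      have hy : y ∉ l1 := fun e => hn3 y e y (by simp) rfl
      simp only [List.idxOf_append, hx, hy, if_false, C4a_ic, if_true, hxy, hxy.symm] at h1
      omega
  · intro p hp
    simp only [Finset.mem_filter] at hp ⊢
    obtain ⟨hp1, hp2, hp3⟩ := hp
    refine ⟨hp1, ?_, hp3⟩
    rcases C4a_order hn hp2 with ⟨e1, e2⟩ | h1
    · rw [e1, e2] at hp3; omega
    · exact h1

/-- in `ρ1 ++ x :: y :: ρ2` the element `x` is before `y` -/
private theorem C4a_lt {ρ1 ρ2 : List α} {x y : α} (hn : (ρ1 ++ x :: y :: ρ2).Nodup) :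
    (ρ1 ++ x :: y :: ρ2).idxOf x < (ρ1 ++ x :: y :: ρ2).idxOf y := by
  rw [List.nodup_append] at hn
  obtain ⟨_, hn2, hn3⟩ := hn
  rw [List.nodup_cons, List.nodup_cons] at hn2
  have hxy : x ≠ y := fun e => hn2.1 (by rw [e]; exact List.mem_cons_self)
  have hx : x ∉ ρ1 := fun e => hn3 x e x (by simp) rfl
  have hy : y ∉ ρ1 := fun e => hn3 y e y (by simp) rfl
  simp only [List.idxOf_append, hx, hy, if_false, C4a_ic, if_true, hxy]
  omega

/-- PROOF. `bw_step` (`π := ρ1 ++ y :: x :: ρ2`) and `bw_self`. -/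
theorem bw_adj {N : ℕ} {ρ1 ρ2 : List α} {x y : α} (hρ : (ρ1 ++ x :: y :: ρ2).Nodup)
    (hN : (ρ1 ++ x :: y :: ρ2).length = N) :
    bw N (ρ1 ++ x :: y :: ρ2) (ρ1 ++ y :: x :: ρ2) = sg N ρ1.length := by
  have hp : (ρ1 ++ x :: y :: ρ2).Perm (ρ1 ++ y :: x :: ρ2) :=
    List.Perm.append_left ρ1 (List.Perm.swap y x ρ2)
  have hn' : (ρ1 ++ y :: x :: ρ2).Nodup := hp.nodup_iff.1 hρ
  rw [bw_step hρ hN hp (C4a_lt hn'), bw_self N hn', mul_one]

/-- one step at the end: `x` is before `y` in the last list, `y` before `x` in the first list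
PROOF. `bw_mul` with `μ = π1 ++ y :: x :: π2` (only the order of the pair `x, y` is changed from `π` to
`μ`, see `PermB_order`), then `bw_adj`. -/
theorem bw_last {N : ℕ} {ρ π1 π2 : List α} {x y : α} (hρ : ρ.Nodup) (hN : ρ.length = N)
    (h : ρ.Perm (π1 ++ x :: y :: π2)) (hinv : ρ.idxOf y < ρ.idxOf x) :
    bw N ρ (π1 ++ x :: y :: π2) = bw N ρ (π1 ++ y :: x :: π2) * sg N π1.length := by
  have hp : (π1 ++ x :: y :: π2).Perm (π1 ++ y :: x :: π2) :=
    List.Perm.append_left π1 (List.Perm.swap y x π2)
  have hn : (π1 ++ x :: y :: π2).Nodup := h.nodup_iff.1 hρ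
  have hn' : (π1 ++ y :: x :: π2).Nodup := hp.nodup_iff.1 hn
  have hl : (π1 ++ y :: x :: π2).length = N := by rw [← hp.length_eq, ← h.length_eq, hN]
  rw [bw_mul hρ hN (h.trans hp) h, bw_adj hn' hl]
  intro a _ b _ hab hab'
  rcases C4a_order hn' hab' with ⟨e1, e2⟩ | h1
  · rw [e1, e2] at hab; omega
  · exact h1

/-- order in the reversed list -/
private theorem C4a_rev {l : List α} (hn : l.Nodup) {a b : α} (ha : a ∈ l) (hb : b ∈ l)
    (h : l.idxOf a < l.idxOf b) : l.reverse.idxOf b < l.reverse.idxOf a := by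
  have key : ∀ c ∈ l, l.reverse.idxOf c + l.idxOf c + 1 = l.length := by
    intro c hc
    have hi : l.idxOf c < l.length := List.idxOf_lt_length_of_mem hc
    have hlen : l.length - 1 - l.idxOf c < l.reverse.length := by
      rw [List.length_reverse]; omega
    have e : l.reverse[l.length - 1 - l.idxOf c] = c := by
      rw [List.getElem_reverse]
      have e1 : l.length - 1 - (l.length - 1 - l.idxOf c) = l.idxOf c := by omega
      simp only [e1]
      exact List.getElem_idxOf hi
    have h2 := List.Nodup.idxOf_getElem (List.nodup_reverse.2 hn) (l.length - 1 - l.idxOf c) hlen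
    rw [e] at h2
    omega
  have h1 := key a ha
  have h2 := key b hb
  omega

private theorem C4a_map {β : Type*} [DecidableEq β] {l : List α} {f : α → β} (hn : (l.map f).Nodup)
    {a : α} (ha : a ∈ l) : (l.map f).idxOf (f a) = l.idxOf a := by
  have hi : l.idxOf a < l.length := List.idxOf_lt_length_of_mem ha
  have hi' : l.idxOf a < (l.map f).length := by rw [List.length_map]; exact hi
  have e : (l.map f)[l.idxOf a] = f a := by
    rw [List.getElem_map]
    congr 1
    exact List.getElem_idxOf hi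
  have h2 := List.Nodup.idxOf_getElem hn (l.idxOf a) hi'
  rw [e] at h2
  exact h2

private theorem C4a_mirror {n : ℕ} (τ : α → α) {B : List α} : ∀ (k : ℕ) (A : List α),
    C4a_inv A B = k → A.length = n → ((A.map τ).reverse ++ A).Nodup → A.Perm B →
    bw (2 * n) ((A.map τ).reverse ++ A) ((A.map τ).reverse ++ B) *
      (bw (2 * n) ((B.map τ).reverse ++ B) ((A.map τ).reverse ++ B))⁻¹ ∈ symB n := by
  intro k
  induction k using Nat.strong_induction_on with
  | _ k ih =>
    intro A hk hl hn h
    have hA : A.Nodup := (List.nodup_append.1 hn).2.1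
    rcases C4a_adj hA h with e | ⟨A1, A2, x, y, e, hinv⟩
    · subst e
      rw [bw_self _ hn, inv_one, mul_one]
      exact (symB n).one_mem
    · subst e
      have hpA : (A1 ++ x :: y :: A2).Perm (A1 ++ y :: x :: A2) :=
        List.Perm.append_left A1 (List.Perm.swap y x A2)
      have hmA : ((A1 ++ x :: y :: A2).map τ).reverse =
          (A2.map τ).reverse ++ τ y :: τ x :: (A1.map τ).reverse := by simp
      have hmA' : ((A1 ++ y :: x :: A2).map τ).reverse =
          (A2.map τ).reverse ++ τ x :: τ y :: (A1.map τ).reverse := by simp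
      have hpm : ((A1 ++ x :: y :: A2).map τ).reverse.Perm ((A1 ++ y :: x :: A2).map τ).reverse :=
        (List.reverse_perm _).trans ((hpA.map τ).trans (List.reverse_perm _).symm)
      have hn' : (((A1 ++ y :: x :: A2).map τ).reverse ++ (A1 ++ y :: x :: A2)).Nodup :=
        (hpm.append hpA).nodup_iff.1 hn
      have hl' : (A1 ++ y :: x :: A2).length = n := by rw [← hpA.length_eq, hl]
      have h' : (A1 ++ y :: x :: A2).Perm B := hpA.symm.trans h
      have hlt : C4a_inv (A1 ++ y :: x :: A2) B < k := by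
        rw [← hk]; exact C4a_inv_lt hA hinv
      have IH := ih _ hlt (A1 ++ y :: x :: A2) rfl hl' hn' h'
      have hlen : A1.length + (A2.length + 2) = n := by
        rw [← hl]; simp
      -- the mirror list of B
      have hB : B.Nodup := h.nodup_iff.1 hA
      have hpmB : ((A1 ++ x :: y :: A2).map τ).reverse.Perm (B.map τ).reverse :=
        (List.reverse_perm _).trans ((h.map τ).trans (List.reverse_perm _).symm)
      have hnB : ((B.map τ).reverse ++ B).Nodup := (hpmB.append h).nodup_iff.1 hn
      have hlB : ((B.map τ).reverse ++ B).length = 2 * n := by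
        rw [List.length_append, List.length_reverse, List.length_map, ← h.length_eq, hl]; ring
      have hnMB : (B.map τ).Nodup := List.nodup_reverse.1 (List.nodup_append.1 hnB).1
      have hxB : x ∈ B := h.mem_iff.1 (by simp)
      have hyB : y ∈ B := h.mem_iff.1 (by simp)
      -- abbreviations
      have hmid : (((A1 ++ x :: y :: A2).map τ).reverse ++ (A1 ++ y :: x :: A2)).Nodup :=
        ((List.Perm.refl _).append hpA).nodup_iff.1 hn
      have hnAB : (((A1 ++ x :: y :: A2).map τ).reverse ++ B).Nodup :=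
        ((List.Perm.refl _).append h).nodup_iff.1 hn
      rw [hmA] at hn hmid hnAB hpm hpmB ⊢
      rw [hmA'] at hn' hpm IH
      set m1 := (A1.map τ).reverse with hm1
      set m2 := (A2.map τ).reverse with hm2
      set mB := (B.map τ).reverse with hmB
      have lm1 : m1.length = A1.length := by rw [hm1, List.length_reverse, List.length_map]
      have lm2 : m2.length = A2.length := by rw [hm2, List.length_reverse, List.length_map]
      -- (i)
      have hxm : x ∉ m2 ++ τ y :: τ x :: m1 := fun e =>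
        (List.nodup_append.1 hn).2.2 x e x (by simp) rfl
      have hym : y ∉ m2 ++ τ y :: τ x :: m1 := fun e =>
        (List.nodup_append.1 hn).2.2 y e y (by simp) rfl
      have i1 : bw (2 * n) ((m2 ++ τ y :: τ x :: m1) ++ (A1 ++ x :: y :: A2))
          ((m2 ++ τ y :: τ x :: m1) ++ B) = sg (2 * n) (n + A1.length) *
          bw (2 * n) ((m2 ++ τ y :: τ x :: m1) ++ (A1 ++ y :: x :: A2))
          ((m2 ++ τ y :: τ x :: m1) ++ B) := by
        have e1 : (m2 ++ τ y :: τ x :: m1) ++ (A1 ++ x :: y :: A2) =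
            ((m2 ++ τ y :: τ x :: m1) ++ A1) ++ x :: y :: A2 := by simp
        have e2 : (m2 ++ τ y :: τ x :: m1) ++ (A1 ++ y :: x :: A2) =
            ((m2 ++ τ y :: τ x :: m1) ++ A1) ++ y :: x :: A2 := by simp
        have e3 : ((m2 ++ τ y :: τ x :: m1) ++ A1).length = n + A1.length := by
          simp only [List.length_append, List.length_cons, lm1, lm2]; omega
        rw [e1, e2, ← e3]
        refine bw_step ?_ ?_ ?_ ?_
        · rw [← e1]; exact hn
        · rw [← e1]; simp only [List.length_append, List.length_cons, lm1, lm2]; omega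
        · rw [← e1]; exact (List.Perm.refl _).append h
        · rw [List.idxOf_append_of_notMem hxm, List.idxOf_append_of_notMem hym]
          omega
      -- (ii)
      have i2 : bw (2 * n) (mB ++ B) ((m2 ++ τ y :: τ x :: m1) ++ B) =
          bw (2 * n) (mB ++ B) ((m2 ++ τ x :: τ y :: m1) ++ B) * sg (2 * n) A2.length := by
        have e1 : (m2 ++ τ y :: τ x :: m1) ++ B = m2 ++ τ y :: τ x :: (m1 ++ B) := by simp
        have e2 : (m2 ++ τ x :: τ y :: m1) ++ B = m2 ++ τ x :: τ y :: (m1 ++ B) := by simp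
        rw [e1, e2, ← lm2]
        refine bw_last hnB hlB ?_ ?_
        · rw [← e1]; exact hpmB.symm.append (List.Perm.refl _)
        · have a1 : τ x ∈ mB := by rw [hmB, List.mem_reverse]; exact List.mem_map_of_mem hxB
          have a2 : τ y ∈ mB := by rw [hmB, List.mem_reverse]; exact List.mem_map_of_mem hyB
          rw [List.idxOf_append, List.idxOf_append, if_pos a1, if_pos a2, hmB]
          refine C4a_rev hnMB (List.mem_map_of_mem hyB) (List.mem_map_of_mem hxB) ?_
          rw [C4a_map hnMB hyB, C4a_map hnMB hxB]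
          exact hinv
      -- (iii)
      have i3 : sg (2 * n) A2.length *
          bw (2 * n) ((m2 ++ τ y :: τ x :: m1) ++ (A1 ++ y :: x :: A2))
            ((m2 ++ τ y :: τ x :: m1) ++ B) =
          bw (2 * n) ((m2 ++ τ x :: τ y :: m1) ++ (A1 ++ y :: x :: A2))
            ((m2 ++ τ x :: τ y :: m1) ++ B) * sg (2 * n) A2.length := by
        have e1 : ∀ T : List α, (m2 ++ τ y :: τ x :: m1) ++ T = m2 ++ τ y :: τ x :: (m1 ++ T) := by
          intro T; simp
        have e2 : ∀ T : List α, (m2 ++ τ x :: τ y :: m1) ++ T = m2 ++ τ x :: τ y :: (m1 ++ T) := by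
          intro T; simp
        have hlen2 : (m2 ++ τ x :: τ y :: (m1 ++ (A1 ++ y :: x :: A2))).length = 2 * n := by
          simp only [List.length_append, List.length_cons, lm1, lm2]; omega
        have hperm : (m2 ++ τ x :: τ y :: (m1 ++ (A1 ++ y :: x :: A2))).Perm
            (m2 ++ τ y :: τ x :: (m1 ++ B)) := by
          rw [← e1, ← e2]
          exact hpm.symm.append h'
        rw [e2] at hn'
        rw [e1] at hnAB
        rw [e1, e1, e2, e2]
        rw [← lm2, ← bw_step hn' hlen2 hperm (C4a_lt hnAB), ← bw_last hn' hlen2 hperm (C4a_lt hn')]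
      rw [i1, i2]
      have hg : sg (2 * n) (n + A1.length) * (sg (2 * n) A2.length)⁻¹ ∈ symB n := by
        have h1 : sg (2 * n) A2.length * (sg (2 * n) (2 * n - 2 - A2.length))⁻¹ ∈ symB n :=
          Subgroup.subset_closure ⟨A2.length, by omega, rfl⟩
        have h2 := (symB n).inv_mem h1
        rw [mul_inv_rev, inv_inv] at h2
        have e : 2 * n - 2 - A2.length = n + A1.length := by omega
        rw [e] at h2
        exact h2
      have := (symB n).mul_mem hg IH
      convert this using 1
      rw [eq_inv_mul_of_mul_eq i3]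
      group

/-- the mirror lemma
PROOF. Write `m A = (A.map τ).reverse`, `T A = bw (m A ++ A) (m A ++ B) * (bw (m B ++ B) (m A ++ B))⁻¹`.
Induction on the number of inversions between `A` and `B` (for all `A`). If `A = B` both factors are 1.
Otherwise `A = A1 ++ x :: y :: A2` with `y` before `x` in `B` (`PermB_adj`); put
`A' = A1 ++ y :: x :: A2`, `k = A1.length`, so `A2.length = n - 2 - k`, `σ = sg (n - 2 - k)`,
`σ' = sg (n + k)`. We have `m A = m A2 ++ τ y :: τ x :: m A1` and `m A' = m A2 ++ τ x :: τ y :: m A1`;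
in `m B` the element `τ x` is before `τ y`.
(i) `bw (m A ++ A) (m A ++ B) = σ' * P`, `P = bw (m A ++ A') (m A ++ B)` (`bw_step`).
(ii) `bw (m B ++ B) (m A ++ B) = Q * σ`, `Q = bw (m B ++ B) (m A' ++ B)` (`bw_last`).
(iii) `bw (m A' ++ A') (m A ++ B) = σ * P` (`bw_step`) and `= P' * σ` (`bw_last`) with
`P' = bw (m A' ++ A') (m A' ++ B)`.
So `T A = σ' * P * σ⁻¹ * Q⁻¹ = σ' * σ⁻¹ * P' * Q⁻¹ = σ' * σ⁻¹ * T A'`, and `σ' * σ⁻¹` is the inverse of
the generator number `i = n - 2 - k` of `symB n` (`2 n - 2 - i = n + k`). -/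
theorem mirror_symB {n : ℕ} (τ : α → α) {A B : List α} (hl : A.length = n)
    (hn : ((A.map τ).reverse ++ A).Nodup) (h : A.Perm B) :
    bw (2 * n) ((A.map τ).reverse ++ A) ((A.map τ).reverse ++ B) *
      (bw (2 * n) ((B.map τ).reverse ++ B) ((A.map τ).reverse ++ B))⁻¹ ∈ symB n :=
  C4a_mirror τ _ A rfl hl hn h

/-- PROOF. With `m A = (A.map τ).reverse` etc.: by `bw_btw` and `Btw.append`
`bw (L ++ A) (m B ++ B) = bw (L ++ A) (L ++ B) * bw (L ++ B) (m B ++ B)`,
`bw (L ++ B) (m A ++ B) = bw (L ++ B) (m B ++ B) * bw (m B ++ B) (m A ++ B)` (this uses `H`),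
`bw (L ++ A) (m A ++ B) = bw (L ++ A) (L ++ B) * bw (L ++ B) (m A ++ B)`
`= bw (L ++ A) (m A ++ A) * bw (m A ++ A) (m A ++ B)`.
So the element is `T` of `mirror_symB`. -/
theorem symB_of_btw {n : ℕ} (τ : α → α) {L A B : List α} (hl : A.length = n)
    (hn : ((A.map τ).reverse ++ A).Nodup) (hL : L.Perm (A.map τ).reverse) (h : A.Perm B)
    (H : Btw L (B.map τ).reverse (A.map τ).reverse) :
    (bw (2 * n) (L ++ A) ((A.map τ).reverse ++ A))⁻¹ *
      bw (2 * n) (L ++ A) ((B.map τ).reverse ++ B) ∈ symB n := by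
  have hm := mirror_symB τ hl hn h
  have hpm : ((A.map τ).reverse).Perm (B.map τ).reverse :=
    (List.reverse_perm _).trans ((h.map τ).trans (List.reverse_perm _).symm)
  have hnL : (L ++ A).Nodup := (hL.append (List.Perm.refl A)).nodup_iff.2 hn
  have hnLB : (L ++ B).Nodup := ((List.Perm.refl L).append h).nodup_iff.1 hnL
  have hlL : L.length = n := by rw [hL.length_eq, List.length_reverse, List.length_map, hl]
  have hlB : B.length = n := by rw [← h.length_eq, hl]
  have hLA : (L ++ A).length = 2 * n := by rw [List.length_append, hlL, hl]; ring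
  have hLB : (L ++ B).length = 2 * n := by rw [List.length_append, hlL, hlB]; ring
  have e1 : bw (2 * n) (L ++ A) ((B.map τ).reverse ++ B) =
      bw (2 * n) (L ++ A) (L ++ B) * bw (2 * n) (L ++ B) ((B.map τ).reverse ++ B) :=
    bw_btw hnL hLA ((List.Perm.refl L).append h) ((hL.trans hpm).append h)
      (Btw.append hnL (List.Perm.refl L) (hL.trans hpm) h h (Btw.left _ _) (Btw.right _ _))
  have e2 : bw (2 * n) (L ++ B) ((A.map τ).reverse ++ B) =
      bw (2 * n) (L ++ B) ((B.map τ).reverse ++ B) *
        bw (2 * n) ((B.map τ).reverse ++ B) ((A.map τ).reverse ++ B) :=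
    bw_btw hnLB hLB ((hL.trans hpm).append (List.Perm.refl B)) (hL.append (List.Perm.refl B))
      (Btw.append hnLB (hL.trans hpm) hL (List.Perm.refl B) (List.Perm.refl B) H (Btw.left _ _))
  have e3 : bw (2 * n) (L ++ A) ((A.map τ).reverse ++ B) =
      bw (2 * n) (L ++ A) (L ++ B) * bw (2 * n) (L ++ B) ((A.map τ).reverse ++ B) :=
    bw_btw hnL hLA ((List.Perm.refl L).append h) (hL.append h)
      (Btw.append hnL (List.Perm.refl L) hL h h (Btw.left _ _) (Btw.right _ _))
  have e4 : bw (2 * n) (L ++ A) ((A.map τ).reverse ++ B) =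
      bw (2 * n) (L ++ A) ((A.map τ).reverse ++ A) *
        bw (2 * n) ((A.map τ).reverse ++ A) ((A.map τ).reverse ++ B) :=
    bw_btw hnL hLA (hL.append (List.Perm.refl A)) (hL.append h)
      (Btw.append hnL hL hL (List.Perm.refl A) h (Btw.right _ _) (Btw.left _ _))
  convert hm using 1
  rw [e1, eq_mul_inv_iff_mul_eq, mul_assoc, mul_assoc, ← e2, ← e3, e4]
  group

end Pool.Agent.HK
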