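import Pool.Agent.H.MP_cd3d06_an.K.Perm
import Pool.Agent.H.MP_cd3d06_an.K.CombC

/-!
MP_cd3d06_an, part C, module C4b: positive permutation braids of concatenated lists, the internal
subgroup, the middle generator, the block twist.
-/

namespace Pool.Agent.HK

variable {α : Type*} [DecidableEq α]

/-- PROOF. Induction on `π1`, for all `ρ1`: for `y :: π1` we have `y ∈ ρ1`, so
`(ρ1 ++ ρ2).idxOf y = ρ1.idxOf y`, `(ρ1 ++ ρ2).erase y = ρ1.erase y ++ ρ2`
(`List.idxOf_append_of_mem`, `List.erase_append_left`), `(ρ1.erase y).length + 1 = ρ1.length`. -/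
theorem bwl_append {ρ1 ρ2 π1 π2 : List α} (h1 : ρ1.Perm π1) :
    bwl (ρ1 ++ ρ2) (π1 ++ π2) = bwl ρ1 π1 ++ (bwl ρ2 π2).map (· + ρ1.length) := by
  induction π1 generalizing ρ1 with
  | nil =>
    obtain rfl := h1.eq_nil
    simp [bwl]
  | cons y π1 ih =>
    have hy : y ∈ ρ1 := h1.symm.subset (by simp)
    have hp : (ρ1.erase y).Perm π1 := by simpa using h1.erase y
    have hlen : (ρ1.erase y).length + 1 = ρ1.length := by
      have := List.length_erase_of_mem hy
      have h0 : 0 < ρ1.length := List.length_pos_of_mem hy
      omega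
    rw [List.cons_append, bwl, bwl, List.idxOf_append_of_mem hy, List.erase_append_left _ hy,
      ih hp, List.map_append, List.append_assoc, List.map_map]
    congr 2
    apply List.map_congr_left
    intro i _
    simp only [Function.comp]
    omega

/-- PROOF. `bwl_append`; the letters of the first part are `< n - 1` (`bwl_length`), those of the
second part are `≥ n`. -/
theorem bw_mem_intB {n : ℕ} (h0 : 1 ≤ n) {ρ1 ρ2 π1 π2 : List α} (hn : (ρ1 ++ ρ2).Nodup)
    (h1 : ρ1.Perm π1) (h2 : ρ2.Perm π2) (hl : ρ1.length = n) :
    bw (2 * n) (ρ1 ++ ρ2) (π1 ++ π2) ∈ intB n := by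
  unfold bw
  apply Subgroup.list_prod_mem
  intro x hx
  rw [List.mem_map] at hx
  obtain ⟨i, hi, rfl⟩ := hx
  apply Subgroup.subset_closure
  refine ⟨i, ?_, rfl⟩
  rw [bwl_append h1, List.mem_append] at hi
  rcases hi with hi | hi
  · have := bwl_length (List.Nodup.of_append_left hn) h1 i hi
    omega
  · rw [List.mem_map] at hi
    obtain ⟨j, _, rfl⟩ := hi
    omega

private theorem C4b_comm_prod {G : Type*} [Group G] (s : G) (l : List G)
    (h : ∀ g ∈ l, s * g = g * s) : s * l.prod = l.prod * s := by
  induction l with
  | nil => simp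
  | cons a l ih =>
    rw [List.prod_cons, ← mul_assoc, h a (by simp), mul_assoc,
      ih (fun g hg => h g (List.mem_cons_of_mem _ hg)), mul_assoc]

/-- the middle generator commutes with the braids that leave the middle pair alone
PROOF. `bwl_append` twice (`v :: ρ2 = [v] ++ ρ2`, or unfold `bwl` for the heads `u`, `v`): the letters
are `i` with `i + 1 < n - 1` and `i + (n + 1)`; `sg_comm`. -/
theorem sg_mid_comm {n : ℕ} {ρ1 ρ2 π1 π2 : List α} {u v : α}
    (hn : (ρ1 ++ u :: v :: ρ2).Nodup) (h1 : ρ1.Perm π1) (h2 : ρ2.Perm π2)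
    (hl : ρ1.length + 1 = n) :
    sg (2 * n) (n - 1) * bw (2 * n) (ρ1 ++ u :: v :: ρ2) (π1 ++ u :: v :: π2) =
      bw (2 * n) (ρ1 ++ u :: v :: ρ2) (π1 ++ u :: v :: π2) * sg (2 * n) (n - 1) := by
  unfold bw
  apply C4b_comm_prod
  intro g hg
  rw [List.mem_map] at hg
  obtain ⟨i, hi, rfl⟩ := hg
  rw [bwl_append h1, List.mem_append] at hi
  rcases hi with hi | hi
  · have := bwl_length (List.Nodup.of_append_left hn) h1 i hi
    exact (sg_comm (by omega)).symm
  · rw [List.mem_map] at hi
    obtain ⟨j, hj, rfl⟩ := hi
    have hj2 : 2 ≤ j := by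
      simp only [bwl, List.idxOf_cons_self, List.range_zero, List.reverse_nil, List.nil_append,
        List.erase_cons_head, List.map_map, List.mem_map, Function.comp] at hj
      obtain ⟨k, _, rfl⟩ := hj
      omega
    exact sg_comm (by omega)

private theorem C4b_self : ∀ ρ : List α, bwl ρ ρ = [] := by
  intro ρ
  induction ρ with
  | nil => simp [bwl]
  | cons y π ih => simp [bwl, ih]

private theorem C4b_rev (n : ℕ) :
    (List.range n).reverse = (List.range n).map fun t => n - 1 - t := by
  apply List.ext_getElem
  · simp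
  · intro i h1 h2
    simp

private theorem C4b_twl {n : ℕ} {R : List α} (hR : R.length = n) :
    ∀ L : List α, (R ++ L).Nodup → bwl (R ++ L) (L ++ R) =
      (List.range L.length).flatMap fun j => (List.range n).map fun t => n - 1 + j - t := by
  intro L
  induction L with
  | nil => intro _; simp [C4b_self]
  | cons y L ih =>
    intro hn
    have hy : y ∉ R := by
      intro hy
      rw [List.nodup_append] at hn
      exact hn.2.2 y hy y (by simp) rfl
    have hn' : (R ++ L).Nodup := by
      have h := hn.erase y
      rwa [List.erase_append_right _ hy, List.erase_cons_head] at h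
    rw [List.cons_append, bwl, List.idxOf_append_of_notMem hy, List.idxOf_cons_self, add_zero,
      List.erase_append_right _ hy, List.erase_cons_head, ih hn', List.length_cons,
      List.range_succ_eq_map, List.flatMap_cons, List.flatMap_map, hR, C4b_rev, List.map_flatMap]
    congr 1
    apply List.flatMap_congr
    intro j _
    rw [List.map_map]
    apply List.map_congr_left
    intro t ht
    rw [List.mem_range] at ht
    simp only [Function.comp]
    omega

/-- the block twist: the last `n` positions are brought in front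
PROOF. `bwl (R ++ L) (L ++ R')` for `L.length = n`, `R.length = n`, nodup: by induction on `L`
`bwl (R ++ L) (L ++ R) = (range L.length).flatMap (fun j => (range n).map (fun t => n - 1 + j - t))`:
the first element `y` of `L` has index `n` in `R ++ y :: L1`, `(List.range n).reverse` is
`(List.range n).map (fun t => n - 1 - t)`, and `(R ++ y :: L1).erase y = R ++ L1`; at the end
`bwl R R = []`. Then `el`. -/
theorem bw_twist {n : ℕ} {L R : List α} (hn : (R ++ L).Nodup) (hL : L.length = n)
    (hR : R.length = n) : bw (2 * n) (R ++ L) (L ++ R) = el (2 * n) (Wd n) := by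
  unfold bw el Wd
  rw [C4b_twl hR L hn, hL, List.map_flatMap, List.map_flatMap]
  congr 1
  apply List.flatMap_congr
  intro j _
  rw [List.map_map, List.map_map]
  apply List.map_congr_left
  intro t _
  simp [Function.comp]

end Pool.Agent.HK
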