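import Pool.Agent.H.MP_cd3d06_an.K.Cprim
import Pool.Agent.H.MP_cd3d06_an.K.C4a
import Pool.Agent.H.MP_cd3d06_an.K.C4b

/-!
MP_cd3d06_an, part C, module C4c: sorted lists again, mirror symmetric configurations.
-/

namespace Pool.Agent.HK

open Complex Set Metric Filter Topology
open scoped ComplexConjugate

section lists

variable {N : ℕ} {β : Type*} [LinearOrder β]

theorem srt_pairwise {k : Fin N → β} (hk : Function.Injective k) :
    (srt k).Pairwise (fun i j => k i < k j) := by
  rw [List.pairwise_iff_getElem]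
  intro i j hi hj hij
  rw [← srt_idx hk, List.Nodup.idxOf_getElem (srt_nodup k), List.Nodup.idxOf_getElem (srt_nodup k)]
  exact hij

/-- PROOF. `List.Perm.eq_of_pairwise`. -/
theorem srt_eq {k : Fin N → β} (hk : Function.Injective k) {l : List (Fin N)}
    (hl : l.Perm (List.finRange N)) (h : l.Pairwise (fun i j => k i < k j)) : srt k = l := by
  exact List.Perm.eq_of_pairwise (le := fun i j => k i < k j)
    (fun a b _ _ h1 h2 => absurd h1 (not_lt.2 h2.le)) (srt_pairwise hk) h
    ((srt_perm k).trans hl.symm)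

/-- PROOF. `srt_eq`: the right side is a permutation (`List.filter_append_perm`) and pairwise sorted
(`List.pairwise_append`). -/
theorem srt_split {k : Fin N → β} (hk : Function.Injective k) (p : Fin N → Bool)
    (h : ∀ i j, p i = true → p j = false → k i < k j) :
    srt k = (srt k).filter p ++ (srt k).filter (fun i => !p i) := by
  refine srt_eq hk ((List.filter_append_perm p (srt k)).trans (srt_perm k)) ?_
  rw [List.pairwise_append]
  refine ⟨(srt_pairwise hk).filter _, (srt_pairwise hk).filter _, ?_⟩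
  intro a ha b hb
  rw [List.mem_filter] at ha hb
  exact h a b ha.2 (by simpa using hb.2)

/-- two keys that order the labels in `p` in the same way -/
theorem srt_filter_congr {β' : Type*} [LinearOrder β'] {k : Fin N → β} {k' : Fin N → β'}
    (hk : Function.Injective k) (hk' : Function.Injective k') (p : Fin N → Bool)
    (h : ∀ i j, p i = true → p j = true → k i < k j → k' i < k' j) :
    (srt k).filter p = (srt k').filter p := by
  refine List.Perm.eq_of_pairwise (le := fun i j => k' i < k' j)
    (fun a b _ _ h1 h2 => absurd h1 (not_lt.2 h2.le)) ?_ ((srt_pairwise hk').filter _)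
    (((srt_perm k).trans (srt_perm k').symm).filter p)
  refine List.Pairwise.imp_of_mem ?_ ((srt_pairwise hk).filter p)
  intro a b ha hb hab
  rw [List.mem_filter] at ha hb
  exact h a b ha.2 hb.2 hab

/-- in a list without repetition that is pairwise `R`, `R` holds for any two elements in order -/
theorem rel_of_idx {α : Type*} [DecidableEq α] {l : List α} {R : α → α → Prop} (h : l.Pairwise R)
    {x y : α} (hx : x ∈ l) (hy : y ∈ l) (hxy : l.idxOf x < l.idxOf y) : R x y := by
  have h1 := List.pairwise_iff_getElem.1 h (l.idxOf x) (l.idxOf y)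
    (List.idxOf_lt_length_of_mem hx) (List.idxOf_lt_length_of_mem hy) hxy
  rwa [List.getElem_idxOf, List.getElem_idxOf] at h1

end lists

/-- a mirror symmetric configuration without points on the imaginary axis -/
structure Mir {n : ℕ} (s : Fin (2 * n) → ℂ) (τ : Fin (2 * n) → Fin (2 * n)) : Prop where
  inj : Function.Injective s
  re : ∀ i, (s i).re ≠ 0
  mir : ∀ i, s (τ i) = -conj (s i)

/-- the right part of the canonical list -/
noncomputable def rt {n : ℕ} (s : Fin (2 * n) → ℂ) : List (Fin (2 * n)) :=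
  (srt (fun i => key (s i))).filter (fun i => decide (0 < (s i).re))

variable {n : ℕ}

theorem Mir.invol {s : Fin (2 * n) → ℂ} {τ : Fin (2 * n) → Fin (2 * n)} (h : Mir s τ)
    (i : Fin (2 * n)) : τ (τ i) = i := by
  apply h.inj
  rw [h.mir, h.mir, map_neg, Complex.conj_conj, neg_neg]

theorem C4c_re {s : Fin (2 * n) → ℂ} {τ : Fin (2 * n) → Fin (2 * n)} (h : Mir s τ)
    (i : Fin (2 * n)) : (s (τ i)).re = -(s i).re := by
  rw [h.mir, Complex.neg_re, Complex.conj_re]

theorem C4c_inj {s : Fin (2 * n) → ℂ} {τ : Fin (2 * n) → Fin (2 * n)} (h : Mir s τ) :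
    Function.Injective τ := fun i j hij => by rw [← h.invol i, hij, h.invol j]

theorem mem_rt {s : Fin (2 * n) → ℂ} {i : Fin (2 * n)} : i ∈ rt s ↔ 0 < (s i).re := by
  rw [rt, List.mem_filter]
  simp [mem_srt]

theorem C4c_rt_nodup (s : Fin (2 * n) → ℂ) : (rt s).Nodup := (srt_nodup _).filter _

/-- PROOF. `τ` exchanges the labels with positive and with negative real part. -/
theorem Mir.rt_length {s : Fin (2 * n) → ℂ} {τ : Fin (2 * n) → Fin (2 * n)} (h : Mir s τ) :
    (rt s).length = n := by
  classical
  have h1 : (rt s).toFinset = Finset.univ.filter (fun i => 0 < (s i).re) := by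
    ext i
    simp [mem_rt]
  have h2 : (rt s).length = (Finset.univ.filter (fun i => 0 < (s i).re)).card := by
    rw [← h1, List.toFinset_card_of_nodup (C4c_rt_nodup s)]
  have h3 : (Finset.univ.filter (fun i => 0 < (s i).re)).card =
      (Finset.univ.filter (fun i => ¬ 0 < (s i).re)).card := by
    refine Finset.card_nbij' τ τ ?_ ?_ ?_ ?_
    · intro i hi
      simp only [Finset.coe_filter, Finset.mem_univ, true_and, Set.mem_ofPred_eq] at hi ⊢
      rw [C4c_re h]
      linarith
    · intro i hi
      simp only [Finset.coe_filter, Finset.mem_univ, true_and, Set.mem_ofPred_eq] at hi ⊢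
      rw [C4c_re h]
      have := lt_of_le_of_ne (not_lt.1 hi) (h.re i)
      linarith
    · intro i _
      exact h.invol i
    · intro i _
      exact h.invol i
  have h4 : (Finset.univ.filter (fun i => 0 < (s i).re)).card +
      (Finset.univ.filter (fun i => ¬ 0 < (s i).re)).card = 2 * n := by
    rw [Finset.card_filter_add_card_filter_not, Finset.card_univ, Fintype.card_fin]
  omega

/-- PROOF. `srt_eq`: `((rt s).map τ).reverse` is pairwise sorted by `key_mirror`, its elements are the
labels with negative real part (`mem_rt`, `invol`). -/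
theorem Mir.can {s : Fin (2 * n) → ℂ} {τ : Fin (2 * n) → Fin (2 * n)} (h : Mir s τ) :
    srt (fun i => key (s i)) = ((rt s).map τ).reverse ++ rt s := by
  have hk : Function.Injective (fun i => key (s i)) := key_injective.comp h.inj
  have hτ := C4c_inj h
  have hnm : ((rt s).map τ).reverse.Nodup := by
    rw [List.nodup_reverse]
    exact (C4c_rt_nodup s).map hτ
  have hneg : ∀ x ∈ ((rt s).map τ).reverse, (s x).re < 0 := by
    intro x hx
    rw [List.mem_reverse, List.mem_map] at hx
    obtain ⟨i, hi, rfl⟩ := hx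
    rw [mem_rt] at hi
    rw [C4c_re h]
    linarith
  have hnod : (((rt s).map τ).reverse ++ rt s).Nodup := by
    rw [List.nodup_append]
    refine ⟨hnm, C4c_rt_nodup s, ?_⟩
    intro a ha b hb hab
    have h1 := hneg a ha
    rw [hab] at h1
    have h2 := mem_rt.1 hb
    linarith
  refine srt_eq hk ?_ ?_
  · rw [List.perm_ext_iff_of_nodup hnod (List.nodup_finRange _)]
    intro i
    simp only [List.mem_finRange, iff_true, List.mem_append, List.mem_reverse, List.mem_map]
    rcases lt_trichotomy (s i).re 0 with h1 | h1 | h1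
    · left
      refine ⟨τ i, ?_, h.invol i⟩
      rw [mem_rt, C4c_re h]
      linarith
    · exact absurd h1 (h.re i)
    · right
      exact mem_rt.2 h1
  · rw [List.pairwise_append]
    refine ⟨?_, (srt_pairwise hk).filter _, ?_⟩
    · rw [List.pairwise_reverse, List.pairwise_map]
      refine List.Pairwise.imp ?_ ((srt_pairwise hk).filter _)
      intro a b hab
      show key (s (τ b)) < key (s (τ a))
      rw [h.mir, h.mir, key_mirror (h.re b) (h.re a)]
      exact hab
    · intro a ha b hb
      have h1 := hneg a ha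
      have h2 := mem_rt.1 hb
      exact key_lt_of_re (by linarith)

/-- a mirror symmetric set of typed points: the involution of the labels
PROOF. `mir (s i, ty i) ∈ P` is `(s j, ty j)` for some `j`; choose `τ i = j`. If `(s i).re = 0` then
`-conj (s i) = s i`, so `τ i = i` and `ty i = ty i + 1`, impossible. -/
theorem exists_mir {P : Set TP} (hP : mir '' P = P) {s : Fin (2 * n) → ℂ}
    {ty : Fin (2 * n) → ZMod 2} (hi : Function.Injective s)
    (h : P = range (fun i => (s i, ty i))) :
    ∃ τ : Fin (2 * n) → Fin (2 * n), (∀ i, ty (τ i) = ty i + 1) ∧ Mir s τ := by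
  have h1 : ∀ i, ∃ j, s j = -conj (s i) ∧ ty j = ty i + 1 := by
    intro i
    have h2 : (s i, ty i) ∈ P := by
      rw [h]
      exact ⟨i, rfl⟩
    have h3 : mir (s i, ty i) ∈ P := by
      rw [← hP]
      exact ⟨_, h2, rfl⟩
    rw [h] at h3
    obtain ⟨j, hj⟩ := h3
    have hj' : (s j, ty j) = (-conj (s i), ty i + 1) := hj
    rw [Prod.mk.injEq] at hj'
    exact ⟨j, hj'.1, hj'.2⟩
  choose τ h2 h3 using h1
  refine ⟨τ, h3, hi, ?_, h2⟩
  intro i hre
  have h4 : -conj (s i) = s i := by
    apply Complex.ext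
    · rw [Complex.neg_re, Complex.conj_re, hre, neg_zero]
    · rw [Complex.neg_im, Complex.conj_im, neg_neg]
  have h5 : τ i = i := hi (by rw [h2, h4])
  have h6 := h3 i
  rw [h5] at h6
  have h7 : (1 : ZMod 2) = 0 := by
    have : ty i + 1 = ty i + 0 := by rw [← h6, add_zero]
    exact add_left_cancel this
  exact absurd h7 (by decide)

/-- a small number for a finite family -/
theorem exists_sep_conj (S0 : Fin (2 * n) → ℂ) :
    ∃ ε > 0, ∀ i j, S0 i ≠ -conj (S0 j) → 2 * ε ≤ dist (S0 i) (-conj (S0 j)) := by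
  have h : ∀ᶠ δ in nhdsWithin (0 : ℝ) (Ioi 0), ∀ i j, S0 i ≠ -conj (S0 j) →
      2 * δ ≤ dist (S0 i) (-conj (S0 j)) := by
    rw [Filter.eventually_all]
    intro i
    rw [Filter.eventually_all]
    intro j
    by_cases hij : S0 i ≠ -conj (S0 j)
    · have hd : 0 < dist (S0 i) (-conj (S0 j)) / 2 := by
        have := dist_pos.2 hij
        linarith
      filter_upwards [nhdsWithin_le_nhds (Iio_mem_nhds hd)] with δ hδ _
      have : δ < dist (S0 i) (-conj (S0 j)) / 2 := hδ
      linarith
    · exact Filter.Eventually.of_forall fun δ h => absurd h hij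
  obtain ⟨δ, h1, h2⟩ := (h.and self_mem_nhdsWithin).exists
  exact ⟨δ, h2, h1⟩

/-- PROOF. `dist (S0 (τ i)) (- conj (S0 i)) ≤ dist (S0 (τ i)) (s (τ i)) + dist (- conj (s i))
(- conj (S0 i)) < 2 ε`. -/
theorem Mir.close {s : Fin (2 * n) → ℂ} {τ : Fin (2 * n) → Fin (2 * n)} (h : Mir s τ)
    {S0 : Fin (2 * n) → ℂ} {ε : ℝ}
    (hε : ∀ i j, S0 i ≠ -conj (S0 j) → 2 * ε ≤ dist (S0 i) (-conj (S0 j)))
    (hs : ∀ i, dist (s i) (S0 i) < ε) (i : Fin (2 * n)) : S0 (τ i) = -conj (S0 i) := by
  by_contra hne
  have h1 := hε _ _ hne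
  have h2 := hs (τ i)
  have h3 : dist (s (τ i)) (-conj (S0 i)) < ε := by
    rw [h.mir, dist_neg_neg, Complex.dist_conj_conj]
    exact hs i
  have h4 := dist_triangle_left (S0 (τ i)) (-conj (S0 i)) (s (τ i))
  linarith

/-- the key statement on mirror symmetric configurations: the list `L ++ A` (left and right part) as
reference list
PROOF. `symB_of_btw` with `B = rt s`, `Mir.can`. `Btw L (m B) (m A)`: for `x, y ∈ L` in this order in
`L` and in `m A` we have `τ y` before `τ x` in `A`, so by `H` `key (s x) < key (s y)`, so `x` is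
before `y` in the canonical list `m B ++ B` (`srt_idx`), hence in `m B`. -/
theorem Mir.symB {s : Fin (2 * n) → ℂ} {τ : Fin (2 * n) → Fin (2 * n)} (h : Mir s τ)
    {L A : List (Fin (2 * n))} (hA : A.Nodup) (hA' : ∀ i, i ∈ A ↔ 0 < (s i).re)
    (hL : L.Nodup) (hL' : ∀ i, i ∈ L ↔ (s i).re < 0)
    (H : ∀ x ∈ L, ∀ y ∈ L, L.idxOf x < L.idxOf y → A.idxOf (τ y) < A.idxOf (τ x) →
      key (s x) < key (s y)) :
    (bw (2 * n) (L ++ A) ((A.map τ).reverse ++ A))⁻¹ *
      bw (2 * n) (L ++ A) (srt (fun i => key (s i))) ∈ symB n := by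
  have hk : Function.Injective (fun i => key (s i)) := key_injective.comp h.inj
  have hτ := C4c_inj h
  have hAB : A.Perm (rt s) :=
    (List.perm_ext_iff_of_nodup hA (C4c_rt_nodup s)).2 (fun i => by rw [hA', mem_rt])
  have hlA : A.length = n := by rw [hAB.length_eq, h.rt_length]
  have hnm : (A.map τ).reverse.Nodup := by
    rw [List.nodup_reverse]
    exact hA.map hτ
  have hmem : ∀ i, i ∈ (A.map τ).reverse ↔ (s i).re < 0 := by
    intro i
    rw [List.mem_reverse, List.mem_map]
    constructor
    · rintro ⟨a, ha, rfl⟩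
      rw [C4c_re h]
      have := (hA' a).1 ha
      linarith
    · intro hi
      refine ⟨τ i, (hA' _).2 ?_, h.invol i⟩
      rw [C4c_re h]
      linarith
  have hLp : L.Perm (A.map τ).reverse :=
    (List.perm_ext_iff_of_nodup hL hnm).2 (fun i => by rw [hL', hmem])
  have hn : ((A.map τ).reverse ++ A).Nodup := by
    rw [List.nodup_append]
    refine ⟨hnm, hA, ?_⟩
    intro a ha b hb hab
    have h1 := (hmem a).1 ha
    rw [hab] at h1
    have h2 := (hA' b).1 hb
    linarith
  rw [h.can]
  refine symB_of_btw τ hlA hn hLp hAB ?_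
  intro x hx y hy hxy hxy'
  have hxm : x ∈ (A.map τ).reverse := hLp.mem_iff.1 hx
  have hym : y ∈ (A.map τ).reverse := hLp.mem_iff.1 hy
  -- the order in `A`
  have hpA : A.Pairwise (fun a b => A.idxOf a < A.idxOf b) := by
    rw [List.pairwise_iff_getElem]
    intro i j hi hj hij
    rw [List.Nodup.idxOf_getElem hA, List.Nodup.idxOf_getElem hA]
    exact hij
  have hpm : (A.map τ).reverse.Pairwise (fun a b => A.idxOf (τ b) < A.idxOf (τ a)) := by
    rw [List.pairwise_reverse, List.pairwise_map]
    refine List.Pairwise.imp ?_ hpA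
    intro a b hab
    rw [h.invol, h.invol]
    exact hab
  have h1 : A.idxOf (τ y) < A.idxOf (τ x) := rel_of_idx hpm hxm hym hxy'
  have h2 := H x hx y hy hxy h1
  have h3 := (srt_idx (k := fun i => key (s i)) hk x y).2 h2
  rw [h.can] at h3
  have hmB : ∀ i, i ∈ (A.map τ).reverse → i ∈ ((rt s).map τ).reverse := by
    intro i hi
    rw [List.mem_reverse, List.mem_map] at hi ⊢
    obtain ⟨a, ha, rfl⟩ := hi
    exact ⟨a, hAB.mem_iff.1 ha, rfl⟩
  rwa [List.idxOf_append_of_mem (hmB x hxm), List.idxOf_append_of_mem (hmB y hym)] at h3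

end Pool.Agent.HK
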