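import Pool.Agent.H.MP_cd3d06_an.K.C4c

/-!
MP_cd3d06_an, part C, module C4d: real segments, rows of real parameters.
-/

namespace Pool.Agent.HK

open Complex Set Metric Filter Topology
open scoped ComplexConjugate

variable {n : ℕ} {Pts : ℂ → Set TP}

theorem mir_real (hm : ∀ ζ, Pts (conj ζ) = mir '' Pts ζ) (t : ℝ) : mir '' Pts t = Pts t := by
  rw [← hm, Complex.conj_ofReal]

/-- near a real parameter the involution of the labels is constant and the signs of the real parts do
not change -/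
theorem Chart.exists_mir (hm : ∀ ζ, Pts (conj ζ) = mir '' Pts ζ) {c : ℝ} (C : Chart n Pts c) :
    ∃ τ : Fin (2 * n) → Fin (2 * n), (∀ i, C.ty (τ i) = C.ty i + 1) ∧
      ∃ ε > 0, ∀ t : ℝ, |t - c| < ε → (t : ℂ) ∈ ball (c : ℂ) C.δ ∧ Mir (fun i => C.s i t) τ ∧
        ∀ i, 0 < (C.s i t).re ↔ 0 < (C.s i c).re := by
  have hc : (c : ℂ) ∈ ball (c : ℂ) C.δ := mem_ball_self C.hδ
  obtain ⟨τ, hτ, hM⟩ := Pool.Agent.HK.exists_mir (mir_real hm c) (C.inj _ hc) (C.pts _ hc)
  obtain ⟨ε0, hε0, hsep⟩ := exists_sep_conj (fun i => C.s i c)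
  have hat : ∀ i, ContinuousAt (C.s i) c := fun i => (C.cont i).continuousAt (ball_mem_nhds _ C.hδ)
  have h1 : ∀ᶠ ζ in 𝓝 (c : ℂ), ζ ∈ ball (c : ℂ) C.δ ∧ ∀ i, dist (C.s i ζ) (C.s i c) < ε0 ∧
      (0 < (C.s i ζ).re ↔ 0 < (C.s i c).re) := by
    have hball : ∀ᶠ ζ in 𝓝 (c : ℂ), ζ ∈ ball (c : ℂ) C.δ := ball_mem_nhds _ C.hδ
    refine hball.and (eventually_all.2 fun i => ?_)
    have h2 : ∀ᶠ ζ in 𝓝 (c : ℂ), dist (C.s i ζ) (C.s i c) < ε0 :=
      (hat i).eventually (ball_mem_nhds _ hε0)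
    have hre : ContinuousAt (fun ζ => (C.s i ζ).re) c :=
      Complex.continuous_re.continuousAt.comp (hat i)
    have h3 : ∀ᶠ ζ in 𝓝 (c : ℂ), (0 < (C.s i ζ).re ↔ 0 < (C.s i c).re) := by
      rcases lt_or_gt_of_ne (hM.re i) with h | h
      · filter_upwards [hre.eventually (gt_mem_nhds h)] with ζ hζ
        exact ⟨fun h' => absurd h' (not_lt.2 hζ.le), fun h' => absurd h' (not_lt.2 h.le)⟩
      · filter_upwards [hre.eventually (lt_mem_nhds h)] with ζ hζ
        exact ⟨fun _ => h, fun _ => hζ⟩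
    exact h2.and h3
  obtain ⟨ε, hε, hε'⟩ := Metric.eventually_nhds_iff.1 h1
  refine ⟨τ, hτ, ε, hε, fun t ht => ?_⟩
  have hd : dist (t : ℂ) c < ε := by
    rw [Complex.dist_of_im_eq (by simp), Complex.ofReal_re, Complex.ofReal_re, Real.dist_eq]
    exact ht
  obtain ⟨hb, hs⟩ := hε' hd
  obtain ⟨τ', -, hM'⟩ := Pool.Agent.HK.exists_mir (mir_real hm t) (C.inj _ hb) (C.pts _ hb)
  have he : τ' = τ := by
    funext i
    apply C.inj _ hc
    show C.s (τ' i) c = C.s (τ i) c
    have h4 := hM'.close (S0 := fun i => C.s i c) hsep (fun i => (hs i).1) i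
    have h5 := hM.mir i
    exact h4.trans h5.symm
  rw [he] at hM'
  exact ⟨hb, hM', fun i => (hs i).2⟩

theorem C4d_re {a b : ℂ} (ha : a.re < 0) (h1 : lkey a < lkey b) (h2 : key a < key b) :
    a.re < b.re := by
  rcases (re_le_of_key h2).lt_or_eq with h | h
  · exact h
  · exfalso
    have h3 : a.im < b.im := by
      rcases lkey_lt_iff.1 h1 with h4 | h4
      · exact absurd h4 (not_lt.2 h.ge)
      · exact h4.2
    unfold key at h2
    rw [if_pos ha, if_pos (h ▸ ha), Prod.Lex.toLex_lt_toLex] at h2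
    rcases h2 with h4 | h4
    · exact absurd h4 (not_lt.2 h.ge)
    · have := h4.2
      simp only at this
      linarith

/-- near a real parameter the transport is in the symmetric subgroup -/
theorem Chart.real_near (hm : ∀ ζ, Pts (conj ζ) = mir '' Pts ζ) {c : ℝ} (C : Chart n Pts c) :
    ∃ ε > 0, ∀ t : ℝ, |t - c| < ε → (C.β c)⁻¹ * C.β t ∈ symB n := by
  obtain ⟨τ, -, ε, hε, hmir⟩ := C.exists_mir hm
  refine ⟨ε, hε, fun t ht => ?_⟩
  have hc : (c : ℂ) ∈ ball (c : ℂ) C.δ := mem_ball_self C.hδ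
  obtain ⟨-, hMc, -⟩ := hmir c (by simpa using hε)
  obtain ⟨hb, hMt, hsign⟩ := hmir t ht
  have hinj : Function.Injective (fun i => C.s i c) := C.inj _ hc
  have hk : Function.Injective (fun i => key (C.s i c)) := key_injective.comp hinj
  have hlk : Function.Injective (fun i => lkey (C.s i c)) := lkey_injective.comp hinj
  set A : List (Fin (2 * n)) := rt (fun i => C.s i c) with hA
  set L : List (Fin (2 * n)) :=
    (srt (fun i => lkey (C.s i c))).filter (fun i => !decide (0 < (C.s i c).re)) with hL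
  have href : C.ref = L ++ A := by
    have h1 := srt_split hlk (fun i => !decide (0 < (C.s i c).re)) (by
      intro i j hi hj
      simp only [Bool.not_eq_true', decide_eq_false_iff_not] at hi
      simp only [Bool.not_eq_false', decide_eq_true_eq] at hj
      exact lkey_lt_iff.2 (Or.inl ((not_lt.1 hi).trans_lt hj)))
    have h2 : (srt (fun i => lkey (C.s i c))).filter (fun i => !(!decide (0 < (C.s i c).re))) = A := by
      simp only [Bool.not_not]
      rw [hA]
      unfold rt
      refine srt_filter_congr hlk hk _ fun i j hi hj hij => ?_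
      rw [decide_eq_true_eq] at hi hj
      rcases lkey_lt_iff.1 hij with h3 | h3
      · exact key_lt_of_re h3
      · unfold key
        rw [if_neg (not_lt.2 hi.le), if_neg (not_lt.2 hj.le), Prod.Lex.toLex_lt_toLex]
        exact Or.inr h3
    rw [h2] at h1
    exact h1
  have hordc : C.ord c = (A.map τ).reverse ++ A := hMc.can
  have hpairL : L.Pairwise (fun i j => lkey (C.s i c) < lkey (C.s j c)) :=
    (srt_pairwise hlk).filter _
  have hpairA : A.Pairwise (fun i j => key (C.s i c) < key (C.s j c)) :=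
    (srt_pairwise hk).filter _
  have hreτ : ∀ i, (C.s (τ i) c).re = -(C.s i c).re := by
    intro i
    have h : C.s (τ i) c = -conj (C.s i c) := hMc.mir i
    rw [h]
    simp
  have hmemL : ∀ i, i ∈ L ↔ (C.s i c).re < 0 := by
    intro i
    rw [hL, List.mem_filter]
    simp only [Bool.not_eq_true', decide_eq_false_iff_not, not_lt]
    exact ⟨fun h => lt_of_le_of_ne h.2 (hMc.re i), fun h => ⟨mem_srt _ _, h.le⟩⟩
  have key1 := hMt.symB (L := L) (A := A) ((srt_nodup _).filter _)
    (fun i => by rw [hA, mem_rt]; exact (hsign i).symm) ((srt_nodup _).filter _)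
    (fun i => by
      rw [hmemL]
      constructor
      · intro h
        refine lt_of_le_of_ne (not_lt.1 fun h' => ?_) (hMt.re i)
        exact absurd ((hsign i).1 h') (not_lt.2 h.le)
      · intro h
        refine lt_of_le_of_ne (not_lt.1 fun h' => ?_) (hMc.re i)
        exact absurd ((hsign i).2 h') (not_lt.2 h.le))
    (by
      intro x hx y hy hxy hxy'
      have hx0 := (hmemL x).1 hx
      have hy0 := (hmemL y).1 hy
      have h1 : lkey (C.s x c) < lkey (C.s y c) := rel_of_idx hpairL hx hy hxy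
      have hτx : τ x ∈ A := by
        rw [hA, mem_rt, hreτ]
        linarith
      have hτy : τ y ∈ A := by
        rw [hA, mem_rt, hreτ]
        linarith
      have h2 : key (C.s (τ y) c) < key (C.s (τ x) c) := rel_of_idx hpairA hτy hτx hxy'
      have e1 : C.s (τ x) c = -conj (C.s x c) := hMc.mir x
      have e2 : C.s (τ y) c = -conj (C.s y c) := hMc.mir y
      rw [e1, e2, key_mirror (hMc.re y) (hMc.re x)] at h2
      have h3 := C4d_re hx0 h1 h2
      exact key_lt_of_re (C.sepRe x y h3 t hb))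
  have e1 : C.β c = bw (2 * n) (L ++ A) ((A.map τ).reverse ++ A) := by
    rw [Chart.β, href, hordc]
  have e2 : C.β t = bw (2 * n) (L ++ A) (srt (fun i => key (C.s i t))) := by
    rw [Chart.β, href]
    rfl
  rw [e1, e2]
  exact key1

/-- C4: the transport along a real segment is in the symmetric subgroup -/
theorem real_seg (hm : ∀ ζ, Pts (conj ζ) = mir '' Pts ζ) {f : ℂ → Brd (2 * n)} {a b : ℝ}
    (hab : a ≤ b) (hf : IsPrim n Pts id f ((fun t : ℝ => (t : ℂ)) '' Icc a b)) :
    (f b)⁻¹ * f a ∈ symB n := by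
  have hY : IsPreconnected ((fun t : ℝ => (t : ℂ)) '' Icc a b) :=
    isPreconnected_Icc.image _ Complex.continuous_ofReal.continuousOn
  refine coset_of_local hY (symB n) ?_ b ⟨b, ⟨hab, le_rfl⟩, rfl⟩ a ⟨a, ⟨le_rfl, hab⟩, rfl⟩
  rintro x0 ⟨c, hc, rfl⟩
  obtain ⟨C, hC⟩ := hf (c : ℂ) ⟨c, hc, rfl⟩
  obtain ⟨ε, hε, hnear⟩ := Chart.real_near (c := c) hm C
  have h1 : ∀ᶠ x : ℂ in 𝓝[(fun t : ℝ => (t : ℂ)) '' Icc a b] (c : ℂ), dist x (c : ℂ) < ε :=
    mem_nhdsWithin_of_mem_nhds (ball_mem_nhds _ hε)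
  filter_upwards [hC, h1, self_mem_nhdsWithin] with x hx hd hxY
  obtain ⟨t, -, rfl⟩ := hxY
  have hd' : |t - c| < ε := by
    have h2 : dist (t : ℂ) c < ε := hd
    rw [Complex.dist_of_im_eq (by simp), Complex.ofReal_re, Complex.ofReal_re, Real.dist_eq] at h2
    exact h2
  have h3 : (f c)⁻¹ * f t = (C.β c)⁻¹ * C.β t := by
    rw [hx]
    simp only [id]
    group
  show (f c)⁻¹ * f t ∈ symB n
  rw [h3]
  exact hnear t hd'

/-- the canonical row of a real parameter is symmetric -/
theorem real_row (hm : ∀ ζ, Pts (conj ζ) = mir '' Pts ζ) {c : ℝ} (h : IsRegPt n Pts c) :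
    Sym (rowAt n Pts c) := by
  obtain ⟨C, -⟩ := exists_chart h one_pos
  rw [← C.row_eq_rowAt (mem_ball_self C.hδ)]
  obtain ⟨τ, hty, ε, hε, hmir⟩ := C.exists_mir hm
  obtain ⟨-, hM, -⟩ := hmir c (by simpa using hε)
  have hord : C.ord c = ((rt (fun i => C.s i c)).map τ).reverse ++ rt (fun i => C.s i c) := hM.can
  set A := rt (fun i => C.s i c) with hA
  have hττ : (A.map τ).map τ = A := by
    rw [List.map_map]
    have : (τ ∘ τ) = id := by
      funext i
      exact hM.invol i
    rw [this, List.map_id]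
  have hrev : ((C.ord c).map τ).reverse = C.ord c := by
    rw [hord, List.map_append, List.reverse_append, List.map_reverse, List.reverse_reverse, hττ]
  have hlen : (C.ord c).length = 2 * n := srt_length _
  intro j
  have hj : (j : ℕ) < (C.ord c).length := by rw [hlen]; exact j.2
  have hj' : ((j.rev : Fin (2 * n)) : ℕ) < (C.ord c).length := by rw [hlen]; exact j.rev.2
  have h1 : (C.ord c)[((j.rev : Fin (2 * n)) : ℕ)] = τ ((C.ord c)[(j : ℕ)]) := by
    have h2 : (C.ord c)[((j.rev : Fin (2 * n)) : ℕ)] =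
        (((C.ord c).map τ).reverse)[((j.rev : Fin (2 * n)) : ℕ)]'(by
          rw [hrev]; exact hj') := by
      congr 1
      exact hrev.symm
    rw [h2, List.getElem_reverse, List.getElem_map]
    congr 2
    rw [List.length_map, hlen, Fin.val_rev]
    have := j.2
    omega
  show C.ty ((C.ord c).get ((j.rev).cast hlen.symm)) + (((j.rev : Fin (2 * n)) : ℕ) : ZMod 2) =
    C.ty ((C.ord c).get (j.cast hlen.symm)) + ((j : ℕ) : ZMod 2)
  have e1 : (C.ord c).get ((j.rev).cast hlen.symm) = τ ((C.ord c)[(j : ℕ)]) := h1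
  have e2 : (C.ord c).get (j.cast hlen.symm) = (C.ord c)[(j : ℕ)] := rfl
  rw [e1, e2, hty, Fin.val_rev]
  have e3 : ((2 * n - (↑j + 1) : ℕ) : ZMod 2) = ((j : ℕ) : ZMod 2) + 1 := by
    have h5 : 2 * n - ((j : ℕ) + 1) + ((j : ℕ) + 1) = 2 * n := by
      have := j.2
      omega
    have h6 := congrArg (fun m : ℕ => (m : ZMod 2)) h5
    simp only [Nat.cast_add, Nat.cast_mul, Nat.cast_one] at h6
    have h7 : ((2 : ℕ) : ZMod 2) = 0 := rfl
    rw [h7, zero_mul] at h6
    have h8 : ((j : ℕ) : ZMod 2) + 1 + (((j : ℕ) : ZMod 2) + 1) = 0 := CharTwo.add_self_eq_zero _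
    exact add_right_cancel (h6.trans h8.symm)
  rw [e3]
  have h9 : (1 : ZMod 2) + 1 = 0 := rfl
  linear_combination h9

end Pool.Agent.HK
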