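import Pool.Agent.H.MP_cd3d06_an.K.ClA

/-! MP_cd3d06_an, part C, module ClB: powers of the generators of the pairs -/

namespace Pool.Agent.HK

open Complex Set Metric Filter Topology
open scoped ComplexConjugate

variable {n : ℕ} {Pts : ℂ → Set TP} {ζ0 : ℂ}

namespace LMod

theorem ClB_comm (L : LMod n Pts ζ0) (a b : Fin L.np) (i j : ℤ) :
    Commute (sg (2 * n) (L.pos a) ^ i) (sg (2 * n) (L.pos b) ^ j) := by
  have h : Commute (sg (2 * n) (L.pos a)) (sg (2 * n) (L.pos b)) := by
    by_cases hab : a = b
    · rw [hab]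
    · rcases L.pos_far hab with h | h
      · exact sg_comm h
      · exact (sg_comm h).symm
  exact h.zpow_zpow i j

theorem ClB_prod (L : LMod n Pts ζ0) (e e' : Fin L.np → ℤ) (l : List (Fin L.np)) :
    (l.map fun a => sg (2 * n) (L.pos a) ^ (e + e') a).prod =
      (l.map fun a => sg (2 * n) (L.pos a) ^ e a).prod *
        (l.map fun a => sg (2 * n) (L.pos a) ^ e' a).prod := by
  induction l with
  | nil => simp
  | cons a l ih =>
    simp only [List.map_cons, List.prod_cons]
    rw [ih, Pi.add_apply, zpow_add]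
    have h : Commute (sg (2 * n) (L.pos a) ^ e' a)
        (l.map fun a => sg (2 * n) (L.pos a) ^ e a).prod := by
      apply Commute.list_prod_right
      intro y hy
      obtain ⟨b, -, rfl⟩ := List.mem_map.1 hy
      exact L.ClB_comm a b _ _
    simp only [mul_assoc]
    rw [← mul_assoc (sg (2 * n) (L.pos a) ^ e' a), h.eq, mul_assoc]

/-- the generators of the pairs commute (`sg_comm`, `pos_far`) -/
theorem pw_add (L : LMod n Pts ζ0) (e e' : Fin L.np → ℤ) :
    L.pw (e + e') = L.pw e * L.pw e' := L.ClB_prod e e' _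

theorem ClB_one (L : LMod n Pts ζ0) (a : Fin L.np) (c : ℤ) (l : List (Fin L.np)) (h : a ∉ l) :
    (l.map fun b => sg (2 * n) (L.pos b) ^ (Pi.single a c : Fin L.np → ℤ) b).prod = 1 := by
  induction l with
  | nil => simp
  | cons b l ih =>
    simp only [List.mem_cons, not_or] at h
    simp only [List.map_cons, List.prod_cons]
    rw [ih h.2, Pi.single_eq_of_ne (Ne.symm h.1), zpow_zero, one_mul]

theorem ClB_single (L : LMod n Pts ζ0) (a : Fin L.np) (c : ℤ) (l : List (Fin L.np))
    (hl : l.Nodup) (h : a ∈ l) :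
    (l.map fun b => sg (2 * n) (L.pos b) ^ (Pi.single a c : Fin L.np → ℤ) b).prod =
      sg (2 * n) (L.pos a) ^ c := by
  induction l with
  | nil => simp at h
  | cons b l ih =>
    simp only [List.nodup_cons] at hl
    simp only [List.map_cons, List.prod_cons]
    by_cases hab : a = b
    · subst hab
      rw [L.ClB_one a c l hl.1, Pi.single_eq_same, mul_one]
    · have h' : a ∈ l := by
        rcases List.mem_cons.1 h with h | h
        · exact absurd h hab
        · exact h
      rw [ih hl.2 h', Pi.single_eq_of_ne (Ne.symm hab), zpow_zero, one_mul]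

theorem pw_update (L : LMod n Pts ζ0) (e : Fin L.np → ℤ) (a : Fin L.np) (c : ℤ) :
    L.pw (Function.update e a (e a + c)) = L.pw e * sg (2 * n) (L.pos a) ^ c := by
  have h1 : Function.update e a (e a + c) = e + Pi.single a c := by
    funext b
    by_cases hb : b = a
    · subst hb; simp
    · simp [hb]
  have h2 : L.pw (Pi.single a c) = sg (2 * n) (L.pos a) ^ c :=
    L.ClB_single a c _ (List.nodup_finRange _) (List.mem_finRange a)
  rw [h1, pw_add, h2]

theorem ClB_nodup (L : LMod n Pts ζ0) (e : Fin L.np → ℤ) : (L.ref e).Nodup :=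
  (L.ref_perm e).nodup_iff.2 (List.nodup_finRange _)

theorem ClB_length (L : LMod n Pts ζ0) (e : Fin L.np → ℤ) : (L.ref e).length = 2 * n := by
  rw [(L.ref_perm e).length_eq, List.length_finRange]

/-- `bw_step` for the pair: if `e a` is even, `c` odd and `y a` is before `x a` in `π`, then
`bw (ref e) π = sg (pos a) * bw (ref (update e a c)) π` -/
theorem bw_toggle (L : LMod n Pts ζ0) (e : Fin L.np → ℤ) (a : Fin L.np) (he : Even (e a)) {c : ℤ}
    (hc : Odd c) {π : List (Fin (2 * n))} (hπ : π.Perm (List.finRange (2 * n)))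
    (h : π.idxOf (L.y a) < π.idxOf (L.x a)) :
    bw (2 * n) (L.ref e) π = sg (2 * n) (L.pos a) *
      bw (2 * n) (L.ref (Function.update e a c)) π := by
  obtain ⟨l1, l2, h1, h2, h3⟩ := L.ref_toggle e a he hc
  have hn := L.ClB_nodup e
  have hl := L.ClB_length e
  have hp := (L.ref_perm e).trans hπ.symm
  rw [h2] at hn hl hp
  rw [h2, h3, ← h1]
  exact bw_step hn hl hp h

/-- the other direction: `e a` odd, `c` even, and `x a` before `y a` in `π` -/
theorem bw_toggle' (L : LMod n Pts ζ0) (e : Fin L.np → ℤ) (a : Fin L.np) (he : Odd (e a)) {c : ℤ}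
    (hc : Even c) {π : List (Fin (2 * n))} (hπ : π.Perm (List.finRange (2 * n)))
    (h : π.idxOf (L.x a) < π.idxOf (L.y a)) :
    bw (2 * n) (L.ref e) π = sg (2 * n) (L.pos a) *
      bw (2 * n) (L.ref (Function.update e a c)) π := by
  obtain ⟨l1, l2, h1, h2, h3⟩ := L.ref_toggle (Function.update e a c) a
    (by rw [Function.update_self]; exact hc) he
  rw [Function.update_idem, Function.update_eq_self] at h3
  have hn := L.ClB_nodup e
  have hl := L.ClB_length e
  have hp := (L.ref_perm e).trans hπ.symm
  rw [h3] at hn hl hp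
  rw [h2, h3, ← h1]
  exact bw_step hn hl hp h

end LMod

end Pool.Agent.HK
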