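import Pool.Agent.H.MP_cd3d06_an.K.ClDefs

/-! MP_cd3d06_an, part C, module ClC: the exponents -/

namespace Pool.Agent.HK

open Complex Set Metric Filter Topology
open scoped ComplexConjugate

variable {n : ℕ} {Pts : ℂ → Set TP} {ζ0 : ℂ}

namespace LMod

/-- real and imaginary part of the difference of the two points of a pair -/
theorem ClC_parts (L : LMod n Pts ζ0) {u : ℝ × ℝ} (hu : u.1 ∈ Ioo 0 L.δ) (a : Fin L.np) :
    ∃ r : ℝ, 0 < r ∧
      (L.s (L.y a) u.1 u.2).re - (L.s (L.x a) u.1 u.2).re = r * Real.cos (L.θ a u.1 u.2) ∧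
      (L.s (L.y a) u.1 u.2).im - (L.s (L.x a) u.1 u.2).im = r * Real.sin (L.θ a u.1 u.2) := by
  have h := L.θarg a u.1 hu u.2
  refine ⟨‖L.s (L.y a) u.1 u.2 - L.s (L.x a) u.1 u.2‖, ?_, ?_, ?_⟩
  · rw [norm_pos_iff, sub_ne_zero]
    intro hc
    exact L.xy a a (L.inj u.1 hu u.2 hc.symm)
  · have h2 := congrArg Complex.re h
    rwa [sub_re, re_ofReal_mul, exp_ofReal_mul_I_re] at h2
  · have h2 := congrArg Complex.im h
    rwa [sub_im, im_ofReal_mul, exp_ofReal_mul_I_im] at h2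

theorem ClC_cos_even {θ : ℝ} {e : ℤ} (he : Even e) :
    Real.cos (θ - Real.pi * e) = Real.cos θ := by
  have h := Real.cos_sub_int_mul_pi θ e
  rw [he.neg_one_zpow, one_mul] at h
  rwa [mul_comm]

theorem ClC_cos_odd {θ : ℝ} {e : ℤ} (he : Odd e) :
    Real.cos (θ - Real.pi * e) = -Real.cos θ := by
  have h := Real.cos_sub_int_mul_pi θ e
  rw [he.neg_one_zpow, neg_one_mul] at h
  rwa [mul_comm]

theorem ClC_sin_even {θ : ℝ} {e : ℤ} (he : Even e) :
    Real.sin (θ - Real.pi * e) = Real.sin θ := by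
  have h := Real.sin_sub_int_mul_pi θ e
  rw [he.neg_one_zpow, one_mul] at h
  rwa [mul_comm]

theorem ClC_sin_odd {θ : ℝ} {e : ℤ} (he : Odd e) :
    Real.sin (θ - Real.pi * e) = -Real.sin θ := by
  have h := Real.sin_sub_int_mul_pi θ e
  rw [he.neg_one_zpow, neg_one_mul] at h
  rwa [mul_comm]

theorem ClC_cos_nonneg {t : ℝ} (h : |t| ≤ Real.pi / 2) : 0 ≤ Real.cos t :=
  Real.cos_nonneg_of_neg_pi_div_two_le_of_le (abs_le.1 h).1 (abs_le.1 h).2

theorem ClC_cos_pos {t : ℝ} (h : |t| < Real.pi / 2) : 0 < Real.cos t :=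
  Real.cos_pos_of_mem_Ioo ⟨(abs_lt.1 h).1, (abs_lt.1 h).2⟩

/-- the nearest multiple of `π` -/
theorem ClC_round (θ : ℝ) : |θ - Real.pi * (round (θ / Real.pi) : ℤ)| ≤ Real.pi / 2 := by
  have h := abs_sub_round (θ / Real.pi)
  have hpi := Real.pi_pos
  have h2 : θ - Real.pi * (round (θ / Real.pi) : ℤ) =
      Real.pi * (θ / Real.pi - (round (θ / Real.pi) : ℤ)) := by
    field_simp
  rw [h2, abs_mul, abs_of_pos hpi]
  calc Real.pi * |θ / Real.pi - (round (θ / Real.pi) : ℤ)| ≤ Real.pi * (1 / 2) :=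
        mul_le_mul_of_nonneg_left h hpi.le
    _ = Real.pi / 2 := by ring

/-- the exponent exists -/
theorem ClC_exists (L : LMod n Pts ζ0) {u : ℝ × ℝ} (hu : u.1 ∈ Ioo 0 L.δ) (a : Fin L.np) :
    ∃ e : ℤ, |L.θ a u.1 u.2 - Real.pi * e| ≤ Real.pi / 2 ∧
      (Even e ↔ key (L.s (L.x a) u.1 u.2) < key (L.s (L.y a) u.1 u.2)) := by
  obtain ⟨r, hr, hre, -⟩ := L.ClC_parts hu a
  obtain ⟨e, he⟩ : ∃ e : ℤ, |L.θ a u.1 u.2 - Real.pi * e| ≤ Real.pi / 2 := ⟨_, ClC_round _⟩
  have hcn := ClC_cos_nonneg he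
  rcases lt_trichotomy (Real.cos (L.θ a u.1 u.2)) 0 with hc | hc | hc
  · refine ⟨e, he, ?_⟩
    have h1 : (L.s (L.y a) u.1 u.2).re < (L.s (L.x a) u.1 u.2).re := by
      have := mul_neg_of_pos_of_neg hr hc
      linarith
    have h2 : ¬ key (L.s (L.x a) u.1 u.2) < key (L.s (L.y a) u.1 u.2) :=
      not_lt.2 (key_lt_of_re h1).le
    refine iff_of_false (fun hev => ?_) h2
    rw [ClC_cos_even hev] at hcn
    linarith
  · by_cases hP : Even e ↔ key (L.s (L.x a) u.1 u.2) < key (L.s (L.y a) u.1 u.2)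
    · exact ⟨e, he, hP⟩
    · have h0 : Real.cos (L.θ a u.1 u.2 - Real.pi * e) = 0 := by
        rcases Int.even_or_odd e with h | h
        · rw [ClC_cos_even h, hc]
        · rw [ClC_cos_odd h, hc, neg_zero]
      have h1 : ¬ |L.θ a u.1 u.2 - Real.pi * e| < Real.pi / 2 := fun h =>
        (ClC_cos_pos h).ne' h0
      have h2 : |L.θ a u.1 u.2 - Real.pi * e| = Real.pi / 2 := le_antisymm he (not_lt.1 h1)
      have hpi := Real.pi_pos
      rcases abs_eq (by positivity : (0 : ℝ) ≤ Real.pi / 2) |>.1 h2 with h3 | h3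
      · refine ⟨e + 1, ?_, ?_⟩
        · have h4 : L.θ a u.1 u.2 - Real.pi * ((e + 1 : ℤ) : ℝ) = -(Real.pi / 2) := by
            push_cast
            linarith
          rw [h4, abs_neg, abs_of_pos (by positivity)]
        · rw [Int.even_add_one]
          tauto
      · refine ⟨e - 1, ?_, ?_⟩
        · have h4 : L.θ a u.1 u.2 - Real.pi * ((e - 1 : ℤ) : ℝ) = Real.pi / 2 := by
            push_cast
            linarith
          rw [h4, abs_of_pos (by positivity)]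
        · rw [Int.even_sub_one]
          tauto
  · refine ⟨e, he, ?_⟩
    have h1 : (L.s (L.x a) u.1 u.2).re < (L.s (L.y a) u.1 u.2).re := by
      have := mul_pos hr hc
      linarith
    refine iff_of_true ?_ (key_lt_of_re h1)
    by_contra hev
    rw [ClC_cos_odd (Int.not_even_iff_odd.1 hev)] at hcn
    linarith

/-- existence and uniqueness: `Re (s (y a) - s (x a)) = r cos θ` with `r > 0` -/
theorem ee_spec (L : LMod n Pts ζ0) {u : ℝ × ℝ} (hu : u.1 ∈ Ioo 0 L.δ) (a : Fin L.np) :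
    |L.θ a u.1 u.2 - Real.pi * L.ee u a| ≤ Real.pi / 2 ∧
    (Even (L.ee u a) ↔ key (L.s (L.x a) u.1 u.2) < key (L.s (L.y a) u.1 u.2)) := by
  have h := L.ClC_exists hu a
  unfold ee
  rw [dif_pos h]
  exact h.choose_spec

theorem ee_unique (L : LMod n Pts ζ0) {u : ℝ × ℝ} (a : Fin L.np) {e e' : ℤ}
    (h : |L.θ a u.1 u.2 - Real.pi * e| ≤ Real.pi / 2 ∧
      (Even e ↔ key (L.s (L.x a) u.1 u.2) < key (L.s (L.y a) u.1 u.2)))
    (h' : |L.θ a u.1 u.2 - Real.pi * e'| ≤ Real.pi / 2 ∧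
      (Even e' ↔ key (L.s (L.x a) u.1 u.2) < key (L.s (L.y a) u.1 u.2))) : e = e' := by
  have hpi := Real.pi_pos
  have h1 := abs_le.1 h.1
  have h2 := abs_le.1 h'.1
  have hpar : Even e ↔ Even e' := h.2.trans h'.2.symm
  have h3 : (e : ℝ) - e' ≤ 1 := by
    by_contra hc
    have : Real.pi * 1 < Real.pi * ((e : ℝ) - e') := mul_lt_mul_of_pos_left (not_le.1 hc) hpi
    nlinarith [h1.1, h2.2]
  have h4 : (e' : ℝ) - e ≤ 1 := by
    by_contra hc
    have : Real.pi * 1 < Real.pi * ((e' : ℝ) - e) := mul_lt_mul_of_pos_left (not_le.1 hc) hpi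
    nlinarith [h2.1, h1.2]
  have h5 : e - e' ≤ 1 := by exact_mod_cast h3
  have h6 : e' - e ≤ 1 := by exact_mod_cast h4
  rw [Int.even_iff, Int.even_iff] at hpar
  omega

/-- local behaviour of one exponent near `u0`: there is an integer `m` such that near `u0`
either (real parts different at `u0`) `ee u a = m` and the pair has the same order near `u0`, with
strictly ordered real parts;
or (equal real parts at `u0`) `ee u a ∈ {m, m + 1}` near `u0`, and if `m` is even then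
`Im (s (x a)) < Im (s (y a))` near `u0`, if `m` is odd then `Im (s (y a)) < Im (s (x a))` near `u0`. -/
theorem ee_local (L : LMod n Pts ζ0) {u0 : ℝ × ℝ} (hu : u0.1 ∈ Ioo 0 L.δ) (a : Fin L.np) :
    ∃ m : ℤ, ((∀ᶠ u in 𝓝 u0, L.ee u a = m) ∧
      ((Even m ∧ ∀ᶠ u in 𝓝 u0, (L.s (L.x a) u.1 u.2).re < (L.s (L.y a) u.1 u.2).re) ∨
       (Odd m ∧ ∀ᶠ u in 𝓝 u0, (L.s (L.y a) u.1 u.2).re < (L.s (L.x a) u.1 u.2).re))) ∨
      ((∀ᶠ u in 𝓝 u0, L.ee u a = m ∨ L.ee u a = m + 1) ∧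
      ((Even m ∧ ∀ᶠ u in 𝓝 u0, (L.s (L.x a) u.1 u.2).im < (L.s (L.y a) u.1 u.2).im) ∨
       (Odd m ∧ ∀ᶠ u in 𝓝 u0, (L.s (L.y a) u.1 u.2).im < (L.s (L.x a) u.1 u.2).im))) := by
  have hpi := Real.pi_pos
  have hopen : IsOpen (Ioo 0 L.δ ×ˢ (univ : Set ℝ)) := isOpen_Ioo.prod isOpen_univ
  have hmem : u0 ∈ Ioo 0 L.δ ×ˢ (univ : Set ℝ) := ⟨hu, mem_univ _⟩
  have hnb : ∀ᶠ u in 𝓝 u0, u.1 ∈ Ioo 0 L.δ := by
    filter_upwards [hopen.mem_nhds hmem] with u hu'
    exact hu'.1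
  have hcont : ContinuousAt (fun u : ℝ × ℝ => L.θ a u.1 u.2) u0 :=
    (L.θcont a).continuousAt (hopen.mem_nhds hmem)
  obtain ⟨m0, hm0⟩ : ∃ e : ℤ, |L.θ a u0.1 u0.2 - Real.pi * e| ≤ Real.pi / 2 := ⟨_, ClC_round _⟩
  rcases hm0.lt_or_eq with hlt | heq
  · refine ⟨m0, Or.inl ?_⟩
    have hev : ∀ᶠ u in 𝓝 u0, |L.θ a u.1 u.2 - Real.pi * m0| < Real.pi / 2 := by
      have h1 : ContinuousAt (fun u : ℝ × ℝ => |L.θ a u.1 u.2 - Real.pi * m0|) u0 :=
        (hcont.sub continuousAt_const).abs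
      exact h1.eventually_lt continuousAt_const hlt
    refine ⟨?_, ?_⟩
    · filter_upwards [hnb, hev] with u h1 h2
      have h3 := abs_le.1 (L.ee_spec h1 a).1
      have h4 := abs_lt.1 h2
      have h5 : ((L.ee u a : ℤ) : ℝ) - m0 < 1 := by
        by_contra hc
        have : Real.pi * 1 ≤ Real.pi * (((L.ee u a : ℤ) : ℝ) - m0) :=
          mul_le_mul_of_nonneg_left (not_lt.1 hc) hpi.le
        nlinarith [h3.1, h4.2]
      have h6 : (m0 : ℝ) - ((L.ee u a : ℤ) : ℝ) < 1 := by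
        by_contra hc
        have : Real.pi * 1 ≤ Real.pi * ((m0 : ℝ) - ((L.ee u a : ℤ) : ℝ)) :=
          mul_le_mul_of_nonneg_left (not_lt.1 hc) hpi.le
        nlinarith [h3.2, h4.1]
      have h7 : L.ee u a - m0 < 1 := by exact_mod_cast h5
      have h8 : m0 - L.ee u a < 1 := by exact_mod_cast h6
      omega
    · rcases Int.even_or_odd m0 with h | h
      · refine Or.inl ⟨h, ?_⟩
        filter_upwards [hnb, hev] with u h1 h2
        obtain ⟨r, hr, hre, -⟩ := L.ClC_parts h1 a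
        have h3 := ClC_cos_pos h2
        rw [ClC_cos_even h] at h3
        have := mul_pos hr h3
        linarith
      · refine Or.inr ⟨h, ?_⟩
        filter_upwards [hnb, hev] with u h1 h2
        obtain ⟨r, hr, hre, -⟩ := L.ClC_parts h1 a
        have h3 := ClC_cos_pos h2
        rw [ClC_cos_odd h] at h3
        have := mul_pos hr h3
        linarith
  · obtain ⟨m, hm⟩ : ∃ m : ℤ, L.θ a u0.1 u0.2 = Real.pi * m + Real.pi / 2 := by
      rcases abs_eq (by positivity : (0 : ℝ) ≤ Real.pi / 2) |>.1 heq with h3 | h3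
      · exact ⟨m0, by linarith⟩
      · refine ⟨m0 - 1, ?_⟩
        push_cast
        linarith
    refine ⟨m, Or.inr ?_⟩
    have hev1 : ∀ᶠ u in 𝓝 u0, Real.pi * m < L.θ a u.1 u.2 :=
      continuousAt_const.eventually_lt hcont (by rw [hm]; linarith)
    have hev2 : ∀ᶠ u in 𝓝 u0, L.θ a u.1 u.2 < Real.pi * m + Real.pi :=
      hcont.eventually_lt continuousAt_const (by rw [hm]; linarith)
    refine ⟨?_, ?_⟩
    · filter_upwards [hnb, hev1, hev2] with u h1 h2 h2'
      have h3 := abs_le.1 (L.ee_spec h1 a).1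
      have h5 : ((L.ee u a : ℤ) : ℝ) - m < 2 := by
        by_contra hc
        have : Real.pi * 2 ≤ Real.pi * (((L.ee u a : ℤ) : ℝ) - m) :=
          mul_le_mul_of_nonneg_left (not_lt.1 hc) hpi.le
        nlinarith [h3.1, h2']
      have h6 : (m : ℝ) - ((L.ee u a : ℤ) : ℝ) < 1 := by
        by_contra hc
        have : Real.pi * 1 ≤ Real.pi * ((m : ℝ) - ((L.ee u a : ℤ) : ℝ)) :=
          mul_le_mul_of_nonneg_left (not_lt.1 hc) hpi.le
        nlinarith [h3.2, h2]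
      have h7 : L.ee u a - m < 2 := by exact_mod_cast h5
      have h8 : m - L.ee u a < 1 := by exact_mod_cast h6
      omega
    · have hsin : ∀ᶠ u in 𝓝 u0, 0 < Real.sin (L.θ a u.1 u.2 - Real.pi * m) := by
        filter_upwards [hev1, hev2] with u h2 h2'
        exact Real.sin_pos_of_pos_of_lt_pi (by linarith) (by linarith)
      rcases Int.even_or_odd m with h | h
      · refine Or.inl ⟨h, ?_⟩
        filter_upwards [hnb, hsin] with u h1 h3
        obtain ⟨r, hr, -, him⟩ := L.ClC_parts h1 a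
        rw [ClC_sin_even h] at h3
        have := mul_pos hr h3
        linarith
      · refine Or.inr ⟨h, ?_⟩
        filter_upwards [hnb, hsin] with u h1 h3
        obtain ⟨r, hr, -, him⟩ := L.ClC_parts h1 a
        rw [ClC_sin_odd h] at h3
        have := mul_pos hr h3
        linarith

end LMod

end Pool.Agent.HK
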