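import Pool.Agent.H.MP_cd3d06_an.K.ClE1
import Pool.Agent.H.MP_cd3d06_an.K.ClB
import Pool.Agent.H.MP_cd3d06_an.K.ClC

/-! MP_cd3d06_an, part C, module ClE: the primitive after a full turn -/

namespace Pool.Agent.HK

open Complex Set Metric Filter Topology
open scoped ComplexConjugate

variable {n : ℕ} {Pts : ℂ → Set TP} {ζ0 : ℂ}

namespace LMod

theorem ClE_tb_x (L : LMod n Pts ζ0) (e : Fin L.np → ℤ) (a : Fin L.np) :
    L.tb e (L.x a) = open Classical in if Odd (e a) then 1 else 0 := by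
  unfold tb
  congr 1
  apply propext
  constructor
  · rintro ⟨b, ⟨h1, h2⟩ | ⟨h1, -⟩⟩
    · rwa [L.xinj h1]
    · exact absurd h1 (L.xy a b)
  · intro h
    exact ⟨a, Or.inl ⟨rfl, h⟩⟩

theorem ClE_tb_y (L : LMod n Pts ζ0) (e : Fin L.np → ℤ) (a : Fin L.np) :
    L.tb e (L.y a) = open Classical in if Even (e a) then 1 else 0 := by
  unfold tb
  congr 1
  apply propext
  constructor
  · rintro ⟨b, ⟨h1, -⟩ | ⟨h1, h2⟩⟩
    · exact absurd h1.symm (L.xy b a)
    · rwa [L.yinj h1]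
  · intro h
    exact ⟨a, Or.inr ⟨rfl, h⟩⟩

theorem ClE_tb_else (L : LMod n Pts ζ0) (e : Fin L.np → ℤ) (i : Fin (2 * n))
    (h : ∀ a, i ≠ L.x a ∧ i ≠ L.y a) : L.tb e i = 0 := by
  unfold tb
  rw [if_neg]
  rintro ⟨b, ⟨h1, -⟩ | ⟨h1, -⟩⟩
  · exact (h b).1 h1
  · exact (h b).2 h1

/-- the keys of the reference lists before and after a full turn -/
theorem ClE_rk (L : LMod n Pts ζ0) {τ : Fin (2 * n) ≃ Fin (2 * n)}
    (h1 : ∀ a, Odd (L.k a) → τ (L.x a) = L.y a ∧ τ (L.y a) = L.x a)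
    (h2 : ∀ a, Even (L.k a) → τ (L.x a) = L.x a ∧ τ (L.y a) = L.y a)
    (h3 : ∀ i, (∀ a, i ≠ L.x a ∧ i ≠ L.y a) → τ i = i) (e : Fin L.np → ℤ) (i : Fin (2 * n)) :
    L.rk ((fun a => (L.k a : ℤ)) + e) i = L.rk e (τ i) := by
  have hS : L.S0 (τ i) = L.S0 i := by
    by_cases h : ∀ a, i ≠ L.x a ∧ i ≠ L.y a
    · rw [h3 i h]
    · push Not at h
      obtain ⟨a, ha⟩ := h
      by_cases hx : i = L.x a
      · subst hx
        rcases Nat.even_or_odd (L.k a) with hk | hk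
        · rw [(h2 a hk).1]
        · rw [(h1 a hk).1, L.S0xy]
      · have hy := ha hx
        subst hy
        rcases Nat.even_or_odd (L.k a) with hk | hk
        · rw [(h2 a hk).2]
        · rw [(h1 a hk).2, L.S0xy]
  have ht : L.tb ((fun a => (L.k a : ℤ)) + e) i = L.tb e (τ i) := by
    by_cases h : ∀ a, i ≠ L.x a ∧ i ≠ L.y a
    · rw [h3 i h, L.ClE_tb_else _ i h, L.ClE_tb_else _ i h]
    · push Not at h
      obtain ⟨a, ha⟩ := h
      have hpe : Even (L.k a) → (Even ((L.k a : ℤ) + e a) ↔ Even (e a)) := fun hk => by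
        have : Even (L.k a : ℤ) := (Int.even_coe_nat _).2 hk
        rw [Int.even_add]
        tauto
      have hpo : Odd (L.k a) → (Even ((L.k a : ℤ) + e a) ↔ ¬ Even (e a)) := fun hk => by
        have : ¬ Even (L.k a : ℤ) := fun h => (Nat.not_even_iff_odd.2 hk) ((Int.even_coe_nat _).1 h)
        rw [Int.even_add]
        tauto
      by_cases hx : i = L.x a
      · subst hx
        rw [L.ClE_tb_x]
        rcases Nat.even_or_odd (L.k a) with hk | hk
        · rw [(h2 a hk).1, L.ClE_tb_x]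
          congr 1
          rw [Pi.add_apply, ← Int.not_even_iff_odd, ← Int.not_even_iff_odd, hpe hk]
        · rw [(h1 a hk).1, L.ClE_tb_y]
          congr 1
          rw [Pi.add_apply, ← Int.not_even_iff_odd, hpo hk, not_not]
      · have hy := ha hx
        subst hy
        rw [L.ClE_tb_y]
        rcases Nat.even_or_odd (L.k a) with hk | hk
        · rw [(h2 a hk).2, L.ClE_tb_y]
          congr 1
          rw [Pi.add_apply, hpe hk]
        · rw [(h1 a hk).2, L.ClE_tb_x]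
          congr 1
          rw [Pi.add_apply, hpo hk, Int.not_even_iff_odd]
  rw [rk, rk, hS, ht]

/-- the exponents after a full turn -/
theorem ClE_ee (L : LMod n Pts ζ0) {τ : Fin (2 * n) ≃ Fin (2 * n)} {ρ φ : ℝ} (hρ : ρ ∈ Ioo 0 L.δ)
    (hs : ∀ i, L.s i ρ (φ + 2 * Real.pi) = L.s (τ i) ρ φ)
    (h1 : ∀ a, Odd (L.k a) → τ (L.x a) = L.y a ∧ τ (L.y a) = L.x a)
    (h2 : ∀ a, Even (L.k a) → τ (L.x a) = L.x a ∧ τ (L.y a) = L.y a) :
    L.ee (ρ, φ + 2 * Real.pi) = (fun a => (L.k a : ℤ)) + L.ee (ρ, φ) := by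
  funext a
  refine L.ee_unique (u := (ρ, φ + 2 * Real.pi)) a (L.ee_spec (u := (ρ, φ + 2 * Real.pi)) hρ a) ?_
  have h := L.ee_spec (u := (ρ, φ)) hρ a
  constructor
  · have h3 := L.θper a ρ hρ φ
    have h4 : L.θ a ρ (φ + 2 * Real.pi) -
        Real.pi * ((((fun a => (L.k a : ℤ)) + L.ee (ρ, φ)) a : ℤ) : ℝ) =
        L.θ a ρ φ - Real.pi * ((L.ee (ρ, φ) a : ℤ) : ℝ) := by
      rw [h3, Pi.add_apply]
      push_cast
      ring
    simp only
    rw [h4]
    exact h.1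
  · simp only [Pi.add_apply]
    rw [hs, hs, Int.even_add]
    have h5 := h.2
    simp only at h5
    rcases Nat.even_or_odd (L.k a) with hk | hk
    · rw [(h2 a hk).1, (h2 a hk).2, ← h5]
      have : Even (L.k a : ℤ) := (Int.even_coe_nat _).2 hk
      tauto
    · rw [(h1 a hk).1, (h1 a hk).2]
      have h6 : ¬ Even (L.k a : ℤ) := fun h => (Nat.not_even_iff_odd.2 hk) ((Int.even_coe_nat _).1 h)
      have h7 : key (L.s (L.x a) ρ φ) ≠ key (L.s (L.y a) ρ φ) := fun hc =>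
        L.xy a a (L.inj ρ hρ φ (key_injective hc))
      have h8 : key (L.s (L.y a) ρ φ) < key (L.s (L.x a) ρ φ) ↔
          ¬ key (L.s (L.x a) ρ φ) < key (L.s (L.y a) ρ φ) :=
        ⟨fun h => not_lt.2 h.le, fun h => lt_of_le_of_ne (not_lt.1 h) h7.symm⟩
      rw [h8, ← h5]
      tauto

/-- C3f: `g` after a full turn.

Proof: by `monodromy`, `ee (ρ, φ + 2 π) a = ee (ρ, φ) a + k a` (`ee_unique`, `θper`);
`(ord (ρ, φ + 2 π)).map τ = ord (ρ, φ)` (`srt_map`), `(ref (e + k)).map τ = ref e`; `bw_relabel`, `pw_add`. -/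
theorem g_turn (L : LMod n Pts ζ0) : ∃ δ' > 0, δ' ≤ L.δ ∧ ∀ ρ ∈ Ioo 0 δ', ∀ φ : ℝ,
    L.g (ρ, φ + 2 * Real.pi) = L.pw (fun a => L.k a) * L.g (ρ, φ) := by
  obtain ⟨δ', hδ', hle, τ, hs, h1, h2, h3⟩ := L.monodromy
  refine ⟨δ', hδ', hle, fun ρ hρ φ => ?_⟩
  have hρ' : ρ ∈ Ioo 0 L.δ := ⟨hρ.1, hρ.2.trans_le hle⟩
  have hs' : ∀ i, L.s i ρ (φ + 2 * Real.pi) = L.s (τ i) ρ φ := fun i => hs ρ hρ φ i
  have hee := L.ClE_ee hρ' hs' h1 h2
  have hord : (L.ord (ρ, φ + 2 * Real.pi)).map τ = L.ord (ρ, φ) := by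
    have h4 := srt_map (k := fun i => key (L.s i ρ φ))
      (key_injective.comp (L.inj ρ hρ' φ)) τ
    unfold ord
    simp only
    rw [← h4]
    congr 2
    funext i
    rw [hs']
  have href : (L.ref ((fun a => (L.k a : ℤ)) + L.ee (ρ, φ))).map τ = L.ref (L.ee (ρ, φ)) := by
    have h4 := srt_map (L.rk_injective (L.ee (ρ, φ))) τ
    unfold ref
    rw [← h4]
    congr 2
    funext i
    exact L.ClE_rk h1 h2 h3 _ i
  have hperm : (L.ref (L.ee (ρ, φ + 2 * Real.pi))).Perm (L.ord (ρ, φ + 2 * Real.pi)) :=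
    (srt_perm _).trans (srt_perm _).symm
  have hbw := bw_relabel (2 * n) τ hperm
  unfold g
  rw [← hbw, hord, hee, href, L.pw_add, mul_assoc]

end LMod

end Pool.Agent.HK
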