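import Pool.Agent.H.MP_cd3d06_an.K.ClB

/-! MP_cd3d06_an, part C, module ClF: rows -/

namespace Pool.Agent.HK

open Complex Set Metric Filter Topology
open scoped ComplexConjugate

variable {n : ℕ} {Pts : ℂ → Set TP} {ζ0 : ℂ}

namespace LMod

/-- the canonical row of the reference list `ref 0` -/
noncomputable def row0 (L : LMod n Pts ζ0) : Row (2 * n) :=
  rowOf (2 * n) L.ty (L.ref 0) (srt_length _)

/-- an integral power of a generator exchanges two adjacent labels if the exponent is odd, and keeps the
row of the list if it is even.
PROOF. One factor `sg i` or its inverse: write it as `el N [(i, b)]`, `fing_el`, `fin`, `nxt`: if the types are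
different, the labels `ty x + i`, `ty y + i + 1` are equal and are flipped; if the types are equal the labels are
different and nothing happens; in both cases the result is the row of the exchanged list. Then induct on `c`. -/
theorem fing_sg_zpow {N : ℕ} {α : Type*} [DecidableEq α] (ty : α → ZMod 2) (l1 l2 : List α) (x y : α)
    (hN : (l1 ++ x :: y :: l2).length = N) (hN' : (l1 ++ y :: x :: l2).length = N) (c : ℤ) :
    (Even c → fing (rowOf N ty _ hN) (sg N l1.length ^ c) = rowOf N ty _ hN) ∧
    (Odd c → fing (rowOf N ty _ hN) (sg N l1.length ^ c) = rowOf N ty _ hN') := by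
  have hA : fing (rowOf N ty _ hN) (sg N l1.length) = rowOf N ty _ hN' := by
    have h := Perm_letter N (l1.map ty) (l2.map ty) (ty x) (ty y) (by rw [← hN]; simp)
    rw [List.length_map] at h
    rw [Perm_rowOf, Perm_rowOf]
    simpa using h
  have hB : fing (rowOf N ty _ hN') (sg N l1.length) = rowOf N ty _ hN := by
    have h := Perm_letter N (l1.map ty) (l2.map ty) (ty y) (ty x) (by rw [← hN]; simp)
    rw [List.length_map] at h
    rw [Perm_rowOf, Perm_rowOf]
    simpa using h
  have hA' : fing (rowOf N ty _ hN) (sg N l1.length)⁻¹ = rowOf N ty _ hN' := by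
    rw [← hB, ← fing_mul, mul_inv_cancel, fing_one]
  have hB' : fing (rowOf N ty _ hN') (sg N l1.length)⁻¹ = rowOf N ty _ hN := by
    rw [← hA, ← fing_mul, mul_inv_cancel, fing_one]
  induction c using Int.induction_on with
  | zero =>
    refine ⟨fun _ => by rw [zpow_zero, fing_one], fun h => ?_⟩
    exact absurd h (by decide)
  | succ c ih =>
    rw [zpow_add_one, fing_mul]
    constructor
    · intro h
      rw [ih.2 (by
        rcases Int.even_or_odd (c : ℤ) with h' | h'
        · exact absurd (h'.add_one) (Int.not_odd_iff_even.2 h)
        · exact h'), hB]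
    · intro h
      rw [ih.1 (by
        rcases Int.even_or_odd (c : ℤ) with h' | h'
        · exact h'
        · exact absurd (h'.add_one) (Int.not_even_iff_odd.2 h)), hA]
  | pred c ih =>
    rw [zpow_sub_one, fing_mul]
    constructor
    · intro h
      rw [ih.2 (by
        rcases Int.even_or_odd (-(c : ℤ)) with h' | h'
        · exact absurd (h'.sub_odd odd_one) (Int.not_odd_iff_even.2 h)
        · exact h'), hB']
    · intro h
      rw [ih.1 (by
        rcases Int.even_or_odd (-(c : ℤ)) with h' | h'
        · exact h'
        · exact absurd (h'.sub_odd odd_one) (Int.not_even_iff_odd.2 h)), hA']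

theorem ClF_rowOf_congr {N : ℕ} {α : Type*} (ty : α → ZMod 2) {l l' : List α} (h : l = l')
    (hN : l.length = N) (hN' : l'.length = N) : rowOf N ty l hN = rowOf N ty l' hN' := by
  subst h; rfl

theorem ClF_zpow_even {N : ℕ} {α : Type*} [DecidableEq α] (ty : α → ZMod 2) {l l1 l2 : List α}
    {x y : α} (h : l = l1 ++ x :: y :: l2) (hN : l.length = N) {c : ℤ} (hc : Even c) :
    fing (rowOf N ty l hN) (sg N l1.length ^ c) = rowOf N ty l hN := by
  subst h
  exact (fing_sg_zpow ty l1 l2 x y hN (by rw [← hN]; simp) c).1 hc

theorem ClF_zpow_odd {N : ℕ} {α : Type*} [DecidableEq α] (ty : α → ZMod 2) {l l' l1 l2 : List α}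
    {x y : α} (h : l = l1 ++ x :: y :: l2) (h' : l' = l1 ++ y :: x :: l2) (hN : l.length = N)
    (hN' : l'.length = N) {c : ℤ} (hc : Odd c) :
    fing (rowOf N ty l hN) (sg N l1.length ^ c) = rowOf N ty l' hN' := by
  subst h
  subst h'
  exact (fing_sg_zpow ty l1 l2 x y hN hN' c).2 hc

/-- `fing` of `pw e` carries the row of `ref 0` to the row of `ref e`.
PROOF. The set of all `e` with this property contains `0` (`pw 0 = 1`) and is closed under
`e ↦ update e a (e a + c)` (`pw_update`, `fing_mul`, `fing_sg_zpow`, `ref_toggle`, `ref_congr`); every `e` is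
reached in finitely many steps (induct over a `Finset` containing the support of `e`). -/
theorem fing_pw (L : LMod n Pts ζ0) (e : Fin L.np → ℤ) :
    fing L.row0 (L.pw e) = rowOf (2 * n) L.ty (L.ref e) (srt_length _) := by
  -- the property for one exponent vector
  have hstep : ∀ (e : Fin L.np → ℤ) (a : Fin L.np) (c : ℤ),
      fing L.row0 (L.pw e) = rowOf (2 * n) L.ty (L.ref e) (srt_length _) →
      fing L.row0 (L.pw (Function.update e a (e a + c))) =
        rowOf (2 * n) L.ty (L.ref (Function.update e a (e a + c))) (srt_length _) := by
    intro e a c he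
    rw [pw_update, fing_mul, he]
    rcases Int.even_or_odd c with hc | hc
    · -- nothing changes
      have hcong : L.ref (Function.update e a (e a + c)) = L.ref e := by
        apply L.ref_congr
        intro b
        by_cases hb : b = a
        · subst hb
          rw [Function.update_self]
          constructor
          · intro h
            have := h.sub hc
            simpa using this
          · intro h
            exact h.add hc
        · rw [Function.update_of_ne hb]
      obtain ⟨l1, l2, hl, h1, h2⟩ := L.ref_split e a
      rw [ClF_rowOf_congr L.ty hcong (srt_length _) (srt_length _), ← hl]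
      rcases Int.even_or_odd (e a) with hp | hp
      · exact ClF_zpow_even L.ty (h1 hp) _ hc
      · exact ClF_zpow_even L.ty (h2 hp) _ hc
    · rcases Int.even_or_odd (e a) with hp | hp
      · obtain ⟨l1, l2, hl, h1, h2⟩ := L.ref_toggle e a hp (c := e a + c) (hp.add_odd hc)
        rw [← hl]
        exact ClF_zpow_odd L.ty h1 h2 _ _ hc
      · have hev : Even (e a + c) := hp.add_odd hc
        obtain ⟨l1, l2, hl, h1, h2⟩ := L.ref_toggle (Function.update e a (e a + c)) a
          (by rw [Function.update_self]; exact hev) (c := e a) hp
        rw [Function.update_idem, Function.update_eq_self] at h2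
        rw [← hl]
        exact ClF_zpow_odd L.ty h2 h1 _ _ hc
  -- reach `e` from `0` one coordinate at a time
  have hall : ∀ s : Finset (Fin L.np), fing L.row0 (L.pw (fun a => if a ∈ s then e a else 0)) =
      rowOf (2 * n) L.ty (L.ref (fun a => if a ∈ s then e a else 0)) (srt_length _) := by
    intro s
    induction s using Finset.induction_on with
    | empty =>
      have h0 : (fun a => if a ∈ (∅ : Finset (Fin L.np)) then e a else 0) = (0 : Fin L.np → ℤ) := by
        funext a; simp
      have h1 : L.pw 0 = 1 := by
        simp [pw]
      rw [ClF_rowOf_congr L.ty (congrArg L.ref h0) (srt_length _) (srt_length _), h0, h1, fing_one]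
      rfl
    | insert b s hb ih =>
      have h := hstep (fun a => if a ∈ s then e a else 0) b (e b) ih
      have hfun : Function.update (fun a => if a ∈ s then e a else 0) b
          ((fun a => if a ∈ s then e a else 0) b + e b) =
          (fun a => if a ∈ insert b s then e a else 0) := by
        funext a
        by_cases ha : a = b
        · subst ha
          rw [Function.update_self]
          simp [hb]
        · rw [Function.update_of_ne ha]
          simp [ha]
      rw [ClF_rowOf_congr L.ty (congrArg L.ref hfun) (srt_length _) (srt_length _), hfun] at h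
      exact h
  have h := hall Finset.univ
  have hfun : (fun a => if a ∈ (Finset.univ : Finset (Fin L.np)) then e a else 0) = e := by
    funext a; simp
  rw [ClF_rowOf_congr L.ty (congrArg L.ref hfun) (srt_length _) (srt_length _), hfun] at h
  exact h

/-- the entries of `row0` at a pair: different iff the types are equal -/
theorem row0_pos (L : LMod n Pts ζ0) (a : Fin L.np) :
    L.row0 ⟨L.pos a, by have := L.pos_lt a; omega⟩ ≠ L.row0 ⟨L.pos a + 1, L.pos_lt a⟩ ↔
      L.ty (L.x a) = L.ty (L.y a) := by
  obtain ⟨l1, l2, hl, h1, -⟩ := L.ref_split 0 a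
  have h1' : L.ref 0 = l1 ++ L.x a :: L.y a :: l2 := h1 (by simp)
  have hd1 : ∀ h : L.pos a < 2 * n, L.row0 ⟨L.pos a, h⟩ = L.ty (L.x a) + ((L.pos a : ℕ) : ZMod 2) := by
    intro h
    unfold row0
    rw [Perm_rowOf, h1']
    simp only [Perm_row]
    rw [← hl]
    simp
  have hd2 : L.row0 ⟨L.pos a + 1, L.pos_lt a⟩ =
      L.ty (L.y a) + (((L.pos a : ℕ) : ZMod 2) + 1) := by
    unfold row0
    rw [Perm_rowOf, h1']
    simp only [Perm_row]
    rw [← hl]
    push_cast
    simp
  rw [hd1, hd2]
  generalize L.ty (L.x a) = u
  generalize L.ty (L.y a) = v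
  generalize ((L.pos a : ℕ) : ZMod 2) = w
  revert u v w
  decide

end LMod

end Pool.Agent.HK
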