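import Pool.Agent.H.MP_cd3d06_an.K.ClD
import Pool.Agent.H.MP_cd3d06_an.K.ClE
import Pool.Agent.H.MP_cd3d06_an.K.ClF

/-! MP_cd3d06_an, part C, module Clmod: rows of the primitive -/

namespace Pool.Agent.HK

open Complex Set Metric Filter Topology
open scoped ComplexConjugate

variable {n : ℕ} {Pts : ℂ → Set TP} {ζ0 : ℂ}

namespace LMod

/-- C3g: rows. `fing` of `pw e` carries the row of `ref 0` to the row of `ref e` (each factor
`sg (pos a) ^ (e a)` exchanges or keeps the two types), then `fing_bw`. -/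
theorem g_row (L : LMod n Pts ζ0) (hreg : ∀ᶠ ζ in 𝓝[≠] ζ0, IsRegPt n Pts ζ) :
    ∃ δ' > 0, δ' ≤ L.δ ∧ ∀ u : ℝ × ℝ, u.1 ∈ Ioo 0 δ' →
      fing L.row0 (L.g u) = rowAt n Pts (pol ζ0 u.1 u.2) := by
  rw [eventually_nhdsWithin_iff] at hreg
  obtain ⟨ε, hε, hball⟩ := Metric.eventually_nhds_iff_ball.1 hreg
  refine ⟨min ε L.δ, lt_min hε L.hδ, min_le_right _ _, fun u hu => ?_⟩
  have hu0 : 0 < u.1 := hu.1
  have huε : u.1 < ε := hu.2.trans_le (min_le_left _ _)
  have huδ : u.1 ∈ Ioo 0 L.δ := ⟨hu0, hu.2.trans_le (min_le_right _ _)⟩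
  have hd : dist (pol ζ0 u.1 u.2) ζ0 = u.1 := by
    rw [dist_eq_norm, pol, add_sub_cancel_left, norm_mul, Complex.norm_exp_ofReal_mul_I, mul_one,
      Complex.norm_real, Real.norm_eq_abs, abs_of_pos hu0]
  have hne : pol ζ0 u.1 u.2 ≠ ζ0 := by
    intro h
    rw [h, dist_self] at hd
    exact hu0.ne hd
  have hr : IsRegPt n Pts (pol ζ0 u.1 u.2) := by
    apply hball _ _ hne
    rw [mem_ball, hd]
    exact huε
  have h1 : ((L.ref (L.ee u)).Perm (L.ord u)) := (srt_perm _).trans (srt_perm _).symm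
  have h2 := row_eq_rowAt hr (s := fun i => L.s i u.1 u.2) (ty := L.ty)
    (L.inj u.1 huδ u.2) (L.pts u.1 huδ u.2)
  rw [g, fing_mul, fing_pw, ← h2]
  exact fing_bw L.ty (srt_nodup _) (srt_length _) (srt_length _) h1

end LMod

end Pool.Agent.HK
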