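import Pool.Agent.H.MP_cd3d06_an.K.C4c
import Pool.Agent.H.MP_cd3d06_an.K.Clmod

/-!
MP_cd3d06_an, part C, module C5: the half turn around a zero.
-/

namespace Pool.Agent.HK

open Complex Set Metric Filter Topology
open scoped ComplexConjugate

variable {n : ℕ} {Pts : ℂ → Set TP}

/-- the canonical list of a configuration with a distinguished middle pair -/
private theorem C5_split {l1 l2 : List (Fin (2 * n))} {u v : Fin (2 * n)}
    (hp : (l1 ++ u :: v :: l2).Perm (List.finRange (2 * n))) {s0 : Fin (2 * n) → ℂ}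
    (hi : Function.Injective s0)
    (h1 : ∀ i ∈ l1, (s0 i).re < (s0 u).re) (h2 : ∀ i ∈ l2, (s0 v).re < (s0 i).re)
    (huv : (s0 u).re < (s0 v).re) :
    ∃ π1 π2 : List (Fin (2 * n)), l1.Perm π1 ∧ l2.Perm π2 ∧
      srt (fun i => key (s0 i)) = π1 ++ u :: v :: π2 := by
  have hk : Function.Injective (fun i => key (s0 i)) := key_injective.comp hi
  have hn : (l1 ++ u :: v :: l2).Nodup := hp.nodup_iff.2 (List.nodup_finRange _)
  rw [List.nodup_append] at hn
  obtain ⟨n1, n2, n3⟩ := hn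
  rw [List.nodup_cons, List.nodup_cons] at n2
  set c := srt (fun i => key (s0 i)) with hc
  have hcn : c.Nodup := srt_nodup _
  have hcm : ∀ i, i ∈ c := fun i => mem_srt _ i
  have hcp : c.Pairwise (fun i j => key (s0 i) < key (s0 j)) := srt_pairwise hk
  have p1 : l1.Perm (c.filter (fun i => decide (i ∈ l1))) := by
    rw [List.perm_ext_iff_of_nodup n1 (hcn.filter _)]
    intro i
    simp [hcm i]
  have p2 : l2.Perm (c.filter (fun i => decide (i ∈ l2))) := by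
    rw [List.perm_ext_iff_of_nodup n2.2.2 (hcn.filter _)]
    intro i
    simp [hcm i]
  refine ⟨_, _, p1, p2, ?_⟩
  have hperm : (c.filter (fun i => decide (i ∈ l1)) ++ u :: v :: c.filter (fun i => decide (i ∈ l2))).Perm
      (List.finRange (2 * n)) :=
    (p1.symm.append ((p2.symm.cons v).cons u)).trans hp
  refine srt_eq hk hperm ?_
  rw [List.pairwise_append, List.pairwise_cons, List.pairwise_cons]
  refine ⟨hcp.filter _, ⟨?_, ?_, hcp.filter _⟩, ?_⟩
  · intro j hj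
    rcases List.mem_cons.1 hj with e | hj
    · subst e; exact key_lt_of_re huv
    · have : j ∈ l2 := by simpa using (List.mem_filter.1 hj).2
      exact key_lt_of_re (huv.trans (h2 j this))
  · intro j hj
    have : j ∈ l2 := by simpa using (List.mem_filter.1 hj).2
    exact key_lt_of_re (h2 j this)
  · intro i hi' j hj
    have hi1 : i ∈ l1 := by simpa using (List.mem_filter.1 hi').2
    rcases List.mem_cons.1 hj with e | hj
    · subst e; exact key_lt_of_re (h1 i hi1)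
    rcases List.mem_cons.1 hj with e | hj
    · subst e; exact key_lt_of_re ((h1 i hi1).trans huv)
    · have : j ∈ l2 := by simpa using (List.mem_filter.1 hj).2
      exact key_lt_of_re ((h1 i hi1).trans (huv.trans (h2 j this)))

/-- one configuration -/
private theorem C5_one {l1 l2 : List (Fin (2 * n))} {u v : Fin (2 * n)}
    (hp : (l1 ++ u :: v :: l2).Perm (List.finRange (2 * n))) {s0 : Fin (2 * n) → ℂ}
    {τ : Fin (2 * n) → Fin (2 * n)} (m0 : Mir s0 τ) (huv : τ u = v)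
    (h1 : ∀ i ∈ l1, (s0 i).re < (s0 u).re) (h2 : ∀ i ∈ l2, (s0 v).re < (s0 i).re)
    (hu : (s0 u).re < 0)
    (H : ∀ p ∈ l1, ∀ q ∈ l1, l1.idxOf p < l1.idxOf q → (v :: l2).idxOf (τ q) < (v :: l2).idxOf (τ p) →
      (s0 p).re < (s0 q).re) :
    l1.length + 1 = n ∧
    (bw (2 * n) (l1 ++ u :: v :: l2) (((v :: l2).map τ).reverse ++ v :: l2))⁻¹ *
      bw (2 * n) (l1 ++ u :: v :: l2) (srt (fun i => key (s0 i))) ∈ symB n := by
  have hn : (l1 ++ u :: v :: l2).Nodup := hp.nodup_iff.2 (List.nodup_finRange _)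
  have hv : (s0 v).re = -(s0 u).re := by
    rw [← huv, m0.mir u]
    simp
  have hv0 : 0 < (s0 v).re := by rw [hv]; linarith
  have e1 : l1 ++ u :: v :: l2 = (l1 ++ [u]) ++ (v :: l2) := by simp
  have hall : ∀ i, i ∈ l1 ++ [u] ∨ i ∈ v :: l2 := by
    intro i
    have : i ∈ l1 ++ u :: v :: l2 := hp.mem_iff.2 (List.mem_finRange i)
    rw [e1] at this
    exact List.mem_append.1 this
  have hn' := hn
  rw [e1] at hn'
  have hA : (v :: l2).Nodup := (List.nodup_append.1 hn').2.1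
  have hL : (l1 ++ [u]).Nodup := (List.nodup_append.1 hn').1
  have hneg : ∀ i ∈ l1 ++ [u], (s0 i).re < 0 := by
    intro i hi
    rcases List.mem_append.1 hi with hi | hi
    · exact (h1 i hi).trans hu
    · rw [List.mem_singleton.1 hi]; exact hu
  have hpos : ∀ i ∈ v :: l2, 0 < (s0 i).re := by
    intro i hi
    rcases List.mem_cons.1 hi with hi | hi
    · rw [hi]; exact hv0
    · exact hv0.trans (h2 i hi)
  have hA' : ∀ i, i ∈ v :: l2 ↔ 0 < (s0 i).re := by
    intro i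
    refine ⟨hpos i, fun hi => ?_⟩
    rcases hall i with h | h
    · have := hneg i h; linarith
    · exact h
  have hL' : ∀ i, i ∈ l1 ++ [u] ↔ (s0 i).re < 0 := by
    intro i
    refine ⟨hneg i, fun hi => ?_⟩
    rcases hall i with h | h
    · exact h
    · have := hpos i h; linarith
  constructor
  · have hrt : (rt s0).Nodup := (srt_nodup _).filter _
    have hpA : (v :: l2).Perm (rt s0) := by
      rw [List.perm_ext_iff_of_nodup hA hrt]
      intro i
      rw [hA' i, mem_rt]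
    have h3 := hpA.length_eq
    rw [m0.rt_length, List.length_cons] at h3
    have h4 := hp.length_eq
    rw [List.length_finRange, List.length_append, List.length_cons, List.length_cons] at h4
    omega
  · rw [e1]
    refine m0.symB hA hA' hL hL' ?_
    intro p hp' q hq' hpq hqp
    apply key_lt_of_re
    have hul : u ∉ l1 := by
      intro h
      exact (List.nodup_append.1 hL).2.2 u h u (by simp) rfl
    rcases List.mem_append.1 hq' with hq | hq
    · have hpl : p ∈ l1 := by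
        rcases List.mem_append.1 hp' with hp | hp
        · exact hp
        · exfalso
          rw [List.mem_singleton.1 hp, List.idxOf_append_of_notMem hul,
            List.idxOf_append_of_mem hq] at hpq
          have := List.idxOf_lt_length_of_mem hq
          omega
      rw [List.idxOf_append_of_mem hpl, List.idxOf_append_of_mem hq] at hpq
      exact H p hpl q hq hpq hqp
    · rw [List.mem_singleton.1 hq] at hpq ⊢
      rcases List.mem_append.1 hp' with hp | hp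
      · exact h1 p hp
      · rw [List.mem_singleton.1 hp] at hpq
        exact absurd hpq (lt_irrefl _)

/-- the combinatorial core of the half turn -/
private theorem C5_core {l1 l2 : List (Fin (2 * n))} {u v : Fin (2 * n)}
    (hp : (l1 ++ u :: v :: l2).Perm (List.finRange (2 * n))) {s0 s1 : Fin (2 * n) → ℂ}
    {τ : Fin (2 * n) → Fin (2 * n)} (m0 : Mir s0 τ) (m1 : Mir s1 τ) (huv : τ u = v)
    (h1 : ∀ i ∈ l1, (s0 i).re < (s0 u).re ∧ (s1 i).re < (s1 u).re)
    (h2 : ∀ i ∈ l2, (s0 v).re < (s0 i).re ∧ (s1 v).re < (s1 i).re)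
    (hu : (s0 u).re < 0 ∧ (s1 u).re < 0)
    (H : ∀ p ∈ l1, ∀ q ∈ l1, l1.idxOf p < l1.idxOf q → (v :: l2).idxOf (τ q) < (v :: l2).idxOf (τ p) →
      (s0 p).re < (s0 q).re ∧ (s1 p).re < (s1 q).re) :
    ∃ s ∈ symB n, (bw (2 * n) (l1 ++ u :: v :: l2) (srt (fun i => key (s0 i))))⁻¹ *
      sg (2 * n) l1.length * bw (2 * n) (l1 ++ u :: v :: l2) (srt (fun i => key (s1 i))) =
      sg (2 * n) (n - 1) * s := by
  have hn : (l1 ++ u :: v :: l2).Nodup := hp.nodup_iff.2 (List.nodup_finRange _)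
  obtain ⟨hl, X0⟩ := C5_one hp m0 huv (fun i hi => (h1 i hi).1) (fun i hi => (h2 i hi).1) hu.1
    (fun p hp q hq h h' => (H p hp q hq h h').1)
  obtain ⟨_, X1⟩ := C5_one hp m1 huv (fun i hi => (h1 i hi).2) (fun i hi => (h2 i hi).2) hu.2
    (fun p hp q hq h h' => (H p hp q hq h h').2)
  have hv : (s0 v).re = -(s0 u).re := by
    rw [← huv, m0.mir u]
    simp
  obtain ⟨π1, π2, p1, p2, e⟩ := C5_split hp m0.inj (fun i hi => (h1 i hi).1)
    (fun i hi => (h2 i hi).1) (by rw [hv]; linarith [hu.1])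
  have hc := sg_mid_comm hn p1 p2 hl
  have hl' : l1.length = n - 1 := by omega
  refine ⟨_, (symB n).mul_mem ((symB n).inv_mem X0) X1, ?_⟩
  rw [e, hl']
  have hc' : (bw (2 * n) (l1 ++ u :: v :: l2) (π1 ++ u :: v :: π2))⁻¹ * sg (2 * n) (n - 1) =
      sg (2 * n) (n - 1) * (bw (2 * n) (l1 ++ u :: v :: l2) (π1 ++ u :: v :: π2))⁻¹ := by
    rw [inv_mul_eq_iff_eq_mul, ← mul_assoc, ← hc, mul_inv_cancel_right]
  rw [hc']
  group

/-- the reference list around the pair, before and after one step of the exponent -/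
private theorem C5_ref {ζ0 : ℂ} (L : LMod n Pts ζ0) (a : Fin L.np) (e : Fin L.np → ℤ) :
    ∃ (u v : Fin (2 * n)) (l1 l2 : List (Fin (2 * n))), l1.length = L.pos a ∧
      L.ref e = l1 ++ u :: v :: l2 ∧
      L.ref (Function.update e a (e a + 1)) = l1 ++ v :: u :: l2 ∧
      ((Even (e a) ∧ u = L.x a ∧ v = L.y a) ∨ (¬ Even (e a) ∧ u = L.y a ∧ v = L.x a)) := by
  by_cases he : Even (e a)
  · obtain ⟨l1, l2, h1, h2, h3⟩ := L.ref_toggle e a he (c := e a + 1) he.add_one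
    exact ⟨_, _, l1, l2, h1, h2, h3, Or.inl ⟨he, rfl, rfl⟩⟩
  · have ho : Odd (e a) := Int.not_even_iff_odd.1 he
    have he' : Even (Function.update e a (e a + 1) a) := by
      rw [Function.update_self]; exact ho.add_one
    obtain ⟨l1, l2, h1, h2, h3⟩ := L.ref_toggle (Function.update e a (e a + 1)) a he' (c := e a) ho
    rw [Function.update_idem, Function.update_eq_self] at h3
    exact ⟨_, _, l1, l2, h1, h3, h2, Or.inr ⟨he, rfl, rfl⟩⟩

private theorem C5_tau {ζ0 : ℂ} (L : LMod n Pts ζ0) (a : Fin L.np)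
    (hty : ∀ b, L.ty (L.x b) ≠ L.ty (L.y b)) (hre : ∀ b, (L.S0 (L.x b)).re = 0)
    {τ : Fin (2 * n) → Fin (2 * n)} (h : ∀ i, L.ty (τ i) = L.ty i + 1)
    (hS : ∀ i, L.S0 (τ i) = -conj (L.S0 i)) : τ (L.x a) = L.y a ∧ τ (L.y a) = L.x a := by
  have hne : ∀ t : ZMod 2, t + 1 ≠ t := by decide
  have hc : ∀ z : ℂ, z.re = 0 → -conj z = z := by
    intro z hz
    apply Complex.ext
    · simp [hz]
    · simp
  have hy : (L.S0 (L.y a)).re = 0 := by rw [← L.S0xy a]; exact hre a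
  constructor
  · have e1 : L.S0 (τ (L.x a)) = L.S0 (L.x a) := by rw [hS, hc _ (hre a)]
    rcases L.S0inj _ _ e1 with e2 | ⟨b, ⟨e2, e3⟩ | ⟨e2, e3⟩⟩
    · exfalso
      have := h (L.x a)
      rw [e2] at this
      exact hne _ this.symm
    · exact absurd e3 (L.xy a b)
    · rw [e2, L.xinj e3]
  · have e1 : L.S0 (τ (L.y a)) = L.S0 (L.y a) := by rw [hS, hc _ hy]
    rcases L.S0inj _ _ e1 with e2 | ⟨b, ⟨e2, e3⟩ | ⟨e2, e3⟩⟩
    · exfalso
      have := h (L.y a)
      rw [e2] at this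
      exact hne _ this.symm
    · rw [e2, L.yinj e3]
    · exact absurd e3.symm (L.xy b a)

private theorem C5_tau_unique {ζ0 : ℂ} (L : LMod n Pts ζ0)
    (hty : ∀ b, L.ty (L.x b) ≠ L.ty (L.y b))
    {τ τ' : Fin (2 * n) → Fin (2 * n)} (h : ∀ i, L.ty (τ i) = L.ty i + 1)
    (h' : ∀ i, L.ty (τ' i) = L.ty i + 1)
    (hS : ∀ i, L.S0 (τ i) = -conj (L.S0 i)) (hS' : ∀ i, L.S0 (τ' i) = -conj (L.S0 i)) :
    τ = τ' := by
  funext i
  have e1 : L.S0 (τ i) = L.S0 (τ' i) := by rw [hS, hS']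
  have e2 : L.ty (τ i) = L.ty (τ' i) := by rw [h, h']
  rcases L.S0inj _ _ e1 with e3 | ⟨b, ⟨e3, e4⟩ | ⟨e3, e4⟩⟩
  · exact e3
  · rw [e3, e4] at e2
    exact absurd e2 (hty b)
  · rw [e3, e4] at e2
    exact absurd e2.symm (hty b)

private theorem C5_rk {ζ0 : ℂ} (L : LMod n Pts ζ0) {e : Fin L.np → ℤ} {i j : Fin (2 * n)}
    (h : L.rk e i < L.rk e j) : (L.S0 i).re < (L.S0 j).re ∨
      ((L.S0 i).re = (L.S0 j).re ∧ (L.S0 i).im ≤ (L.S0 j).im) := by
  rw [LMod.rk, LMod.rk, Prod.Lex.toLex_lt_toLex] at h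
  rcases h with h | ⟨h1, h2⟩
  · exact Or.inl h
  · right
    refine ⟨h1, ?_⟩
    rw [Prod.Lex.toLex_lt_toLex] at h2
    rcases h2 with h2 | ⟨h2, _⟩
    · exact h2.le
    · exact h2.le

private theorem C5_main {c : ℝ} (hm : ∀ ζ, Pts (conj ζ) = mir '' Pts ζ) (L : LMod n Pts c)
    (a : Fin L.np) (ha : ∀ b, b = a)
    (hty : ∀ b, L.ty (L.x b) ≠ L.ty (L.y b)) (hre : ∀ b, (L.S0 (L.x b)).re = 0)
    (him : ∀ i, (L.S0 i).re = 0 → ∃ b, i = L.x b ∨ i = L.y b)
    (hθ : ∀ b, ∀ ρ ∈ Ioo 0 L.δ, L.θ b ρ Real.pi = L.θ b ρ 0 + Real.pi)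
    {ε : ℝ} (hε : ∀ i j, L.S0 i ≠ -conj (L.S0 j) → 2 * ε ≤ dist (L.S0 i) (-conj (L.S0 j)))
    {ρ : ℝ} (hρ : ρ ∈ Ioo 0 L.δ) (hlim : ∀ (φ : ℝ) i, dist (L.s i ρ φ) (L.S0 i) < ε)
    (hsep : ∀ φ : ℝ, ∀ i j, (L.S0 i).re < (L.S0 j).re → (L.s i ρ φ).re < (L.s j ρ φ).re) :
    ∃ s ∈ symB n, (L.g (ρ, 0))⁻¹ * L.g (ρ, Real.pi) = sg (2 * n) (n - 1) * s := by
  have hy : ∀ b, (L.S0 (L.y b)).re = 0 := fun b => by rw [← L.S0xy b]; exact hre b
  -- the involutions
  have r0 : pol c ρ 0 = ((c + ρ : ℝ) : ℂ) := by simp [pol]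
  have r1 : pol c ρ Real.pi = ((c - ρ : ℝ) : ℂ) := by
    simp [pol, Complex.exp_pi_mul_I]; ring
  have P0 : mir '' Pts (pol c ρ 0) = Pts (pol c ρ 0) := by
    rw [← hm, r0, Complex.conj_ofReal]
  have P1 : mir '' Pts (pol c ρ Real.pi) = Pts (pol c ρ Real.pi) := by
    rw [← hm, r1, Complex.conj_ofReal]
  obtain ⟨τ, ht0, m0⟩ := exists_mir P0 (L.inj ρ hρ 0) (L.pts ρ hρ 0)
  obtain ⟨τ1, ht1, m1⟩ := exists_mir P1 (L.inj ρ hρ Real.pi) (L.pts ρ hρ Real.pi)
  have hS : ∀ i, L.S0 (τ i) = -conj (L.S0 i) := m0.close hε (hlim 0)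
  have hS1 : ∀ i, L.S0 (τ1 i) = -conj (L.S0 i) := m1.close hε (hlim Real.pi)
  have hττ : τ1 = τ := C5_tau_unique L hty ht1 ht0 hS1 hS
  subst hττ
  obtain ⟨txy, tyx⟩ := C5_tau L a hty hre ht0 hS
  -- the order of the pair is decided by the sign of the real part
  have kxy : ∀ φ : ℝ, Mir (fun i => L.s i ρ φ) τ1 →
      ((L.s (L.y a) ρ φ).re = -(L.s (L.x a) ρ φ).re ∧
      (key (L.s (L.x a) ρ φ) < key (L.s (L.y a) ρ φ) ↔ (L.s (L.x a) ρ φ).re < 0)) := by
    intro φ m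
    have e1 : (L.s (L.y a) ρ φ).re = -(L.s (L.x a) ρ φ).re := by
      have := m.mir (L.x a)
      simp only [txy] at this
      rw [this]; simp
    refine ⟨e1, fun h => ?_, fun h => key_lt_of_re (by rw [e1]; linarith)⟩
    have h1 := re_le_of_key h
    rw [e1] at h1
    exact lt_of_le_of_ne (by linarith) (m.re (L.x a))
  obtain ⟨y0, k0⟩ := kxy 0 m0
  obtain ⟨y1, k1⟩ := kxy Real.pi m1
  have hcos : ∀ φ : ℝ, (L.s (L.y a) ρ φ).re - (L.s (L.x a) ρ φ).re =
      ‖L.s (L.y a) ρ φ - L.s (L.x a) ρ φ‖ * Real.cos (L.θ a ρ φ) := by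
    intro φ
    have h1 := congrArg Complex.re (L.θarg a ρ hρ φ)
    rw [Complex.sub_re, Complex.re_ofReal_mul, Complex.exp_ofReal_mul_I_re] at h1
    exact h1
  have hpos : ∀ φ : ℝ, 0 < ‖L.s (L.y a) ρ φ - L.s (L.x a) ρ φ‖ := by
    intro φ
    rw [norm_pos_iff, sub_ne_zero]
    exact fun h => L.xy a a (L.inj ρ hρ φ h).symm
  have hflip : (L.s (L.x a) ρ Real.pi).re < 0 ↔ ¬ (L.s (L.x a) ρ 0).re < 0 := by
    have c0 := hcos 0
    have c1 := hcos Real.pi
    rw [hθ a ρ hρ, Real.cos_add_pi] at c1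
    rw [y0] at c0
    rw [y1] at c1
    have p0 := hpos 0
    have p1 := hpos Real.pi
    have n0 : (L.s (L.x a) ρ 0).re ≠ 0 := m0.re (L.x a)
    constructor
    · intro h h'
      have a1 : 0 < Real.cos (L.θ a ρ 0) := by
        by_contra hcon
        push Not at hcon
        nlinarith
      have a2 : 0 < ‖L.s (L.y a) ρ Real.pi - L.s (L.x a) ρ Real.pi‖ * Real.cos (L.θ a ρ 0) :=
        mul_pos p1 a1
      nlinarith
    · intro h
      have h' : 0 < (L.s (L.x a) ρ 0).re := lt_of_le_of_ne (not_lt.1 h) (Ne.symm n0)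
      have a1 : Real.cos (L.θ a ρ 0) < 0 := by
        by_contra hcon
        push Not at hcon
        nlinarith
      have a2 : 0 < ‖L.s (L.y a) ρ Real.pi - L.s (L.x a) ρ Real.pi‖ * -Real.cos (L.θ a ρ 0) :=
        mul_pos p1 (by linarith)
      nlinarith
  -- the exponents
  obtain ⟨b0, q0⟩ := L.ee_spec (u := (ρ, 0)) hρ a
  have he1 : L.ee (ρ, Real.pi) a = L.ee (ρ, 0) a + 1 := by
    refine L.ee_unique a (L.ee_spec (u := (ρ, Real.pi)) hρ a) ⟨?_, ?_⟩
    · simp only at b0 ⊢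
      rw [hθ a ρ hρ]
      push_cast
      have e : L.θ a ρ 0 + Real.pi - Real.pi * ((L.ee (ρ, 0) a : ℝ) + 1) =
        L.θ a ρ 0 - Real.pi * (L.ee (ρ, 0) a : ℝ) := by ring
      rw [e]; exact b0
    · simp only at q0 ⊢
      rw [Int.even_add_one, q0, k0, k1, hflip]
  have he : L.ee (ρ, Real.pi) = Function.update (L.ee (ρ, 0)) a (L.ee (ρ, 0) a + 1) := by
    funext b
    rw [ha b, Function.update_self, he1]
  obtain ⟨u, v, l1, l2, hl1, f0, f1, huv⟩ := C5_ref L a (L.ee (ρ, 0))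
  have g0 : L.g (ρ, 0) = L.pw (L.ee (ρ, 0)) *
      bw (2 * n) (l1 ++ u :: v :: l2) (srt (fun i => key (L.s i ρ 0))) := by
    rw [LMod.g, f0]; rfl
  have g1 : L.g (ρ, Real.pi) = L.pw (L.ee (ρ, 0)) * sg (2 * n) (L.pos a) *
      bw (2 * n) (l1 ++ v :: u :: l2) (srt (fun i => key (L.s i ρ Real.pi))) := by
    rw [LMod.g, he, f1, L.pw_update, zpow_one]; rfl
  have hp : (l1 ++ u :: v :: l2).Perm (List.finRange (2 * n)) := by
    rw [← f0]; exact L.ref_perm _
  have hn : (l1 ++ u :: v :: l2).Nodup := hp.nodup_iff.2 (List.nodup_finRange _)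
  -- the pair
  obtain ⟨τu, τv⟩ : τ1 u = v ∧ τ1 v = u := by
    rcases huv with ⟨_, rfl, rfl⟩ | ⟨_, rfl, rfl⟩
    · exact ⟨txy, tyx⟩
    · exact ⟨tyx, txy⟩
  have hSu : (L.S0 u).re = 0 := by
    rcases huv with ⟨_, rfl, rfl⟩ | ⟨_, rfl, rfl⟩
    · exact hre a
    · exact hy a
  have hSv : (L.S0 v).re = 0 := by
    rcases huv with ⟨_, rfl, rfl⟩ | ⟨_, rfl, rfl⟩
    · exact hy a
    · exact hre a
  have hSuv : L.S0 u = L.S0 v := by
    rcases huv with ⟨_, rfl, rfl⟩ | ⟨_, rfl, rfl⟩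
    · exact L.S0xy a
    · exact (L.S0xy a).symm
  have hu0 : (L.s u ρ 0).re < 0 := by
    rcases huv with ⟨h, rfl, rfl⟩ | ⟨h, rfl, rfl⟩
    · exact k0.1 (q0.1 h)
    · have h1 : ¬ (L.s (L.x a) ρ 0).re < 0 := fun h2 => h (q0.2 (k0.2 h2))
      have h3 : (L.s (L.x a) ρ 0).re ≠ 0 := m0.re (L.x a)
      have h4 : 0 < (L.s (L.x a) ρ 0).re := lt_of_le_of_ne (not_lt.1 h1) (Ne.symm h3)
      rw [y0]; linarith
  have hv1 : (L.s v ρ Real.pi).re < 0 := by
    rcases huv with ⟨h, rfl, rfl⟩ | ⟨h, rfl, rfl⟩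
    · have h1 : ¬ (L.s (L.x a) ρ Real.pi).re < 0 := fun h2 => hflip.1 h2 hu0
      have h3 : (L.s (L.x a) ρ Real.pi).re ≠ 0 := m1.re (L.x a)
      have h4 : 0 < (L.s (L.x a) ρ Real.pi).re := lt_of_le_of_ne (not_lt.1 h1) (Ne.symm h3)
      rw [y1]; linarith
    · have h1 : ¬ (L.s (L.x a) ρ 0).re < 0 := fun h2 => h (q0.2 (k0.2 h2))
      exact hflip.2 h1
  have huv' : ∀ i, (L.S0 i).re = 0 → i = u ∨ i = v := by
    intro i hi
    obtain ⟨b, hb⟩ := him i hi
    rw [ha b] at hb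
    rcases huv with ⟨_, rfl, rfl⟩ | ⟨_, rfl, rfl⟩
    · exact hb
    · exact hb.symm
  have hpw : (l1 ++ u :: v :: l2).Pairwise
      (fun i j => L.rk (L.ee (ρ, 0)) i < L.rk (L.ee (ρ, 0)) j) := by
    rw [← f0]; exact srt_pairwise (L.rk_injective _)
  have hn2 := hn
  rw [List.nodup_append, List.nodup_cons, List.nodup_cons] at hn2
  obtain ⟨nl1, ⟨nu, nv, nl2⟩, n12⟩ := hn2
  have hl1u : ∀ i ∈ l1, i ≠ u ∧ i ≠ v := fun i hi =>
    ⟨n12 i hi u (by simp), n12 i hi v (by simp)⟩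
  have hl2u : ∀ i ∈ l2, i ≠ u ∧ i ≠ v := fun i hi =>
    ⟨fun e => nu (by rw [← e]; exact List.mem_cons_of_mem _ hi), fun e => nv (by rw [← e]; exact hi)⟩
  have huvne : u ≠ v := fun e => nu (by rw [e]; exact List.mem_cons_self)
  have hl1re : ∀ i ∈ l1, (L.S0 i).re < 0 := by
    intro i hi
    have h1 := (List.pairwise_append.1 hpw).2.2 i hi u (by simp)
    rcases C5_rk L h1 with h2 | ⟨h2, _⟩
    · rw [hSu] at h2; exact h2
    · rw [hSu] at h2
      rcases huv' i h2 with h3 | h3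
      · exact absurd h3 (hl1u i hi).1
      · exact absurd h3 (hl1u i hi).2
  have hl2re : ∀ i ∈ l2, 0 < (L.S0 i).re := by
    intro i hi
    have h0 := (List.pairwise_append.1 hpw).2.1
    rw [List.pairwise_cons] at h0
    have h1 := h0.1 i (by simp [hi])
    rcases C5_rk L h1 with h2 | ⟨h2, _⟩
    · rw [hSu] at h2; exact h2
    · rw [hSu] at h2
      rcases huv' i h2.symm with h3 | h3
      · exact absurd h3 (hl2u i hi).1
      · exact absurd h3 (hl2u i hi).2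
  have hall : ∀ i, i ∈ l1 ∨ i = u ∨ i ∈ v :: l2 := by
    intro i
    have : i ∈ l1 ++ u :: v :: l2 := hp.mem_iff.2 (List.mem_finRange i)
    rcases List.mem_append.1 this with h | h
    · exact Or.inl h
    · rcases List.mem_cons.1 h with h | h
      · exact Or.inr (Or.inl h)
      · exact Or.inr (Or.inr h)
  -- relabelling
  set sw : Fin (2 * n) ≃ Fin (2 * n) := Equiv.swap u v with hsw
  have swu : sw u = v := Equiv.swap_apply_left u v
  have swv : sw v = u := Equiv.swap_apply_right u v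
  have swi : ∀ i, i ≠ u → i ≠ v → sw i = i := fun i h h' => Equiv.swap_apply_of_ne_of_ne h h'
  have hmap : (l1 ++ u :: v :: l2).map sw = l1 ++ v :: u :: l2 := by
    rw [List.map_append, List.map_cons, List.map_cons, swu, swv]
    congr 1
    · conv_rhs => rw [← List.map_id l1]
      exact List.map_congr_left fun i hi => swi i (hl1u i hi).1 (hl1u i hi).2
    · congr 2
      conv_rhs => rw [← List.map_id l2]
      exact List.map_congr_left fun i hi => swi i (hl2u i hi).1 (hl2u i hi).2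
  have hk1 : Function.Injective (fun i => key (L.s i ρ Real.pi)) :=
    key_injective.comp (L.inj ρ hρ Real.pi)
  have hbw : bw (2 * n) (l1 ++ v :: u :: l2) (srt (fun i => key (L.s i ρ Real.pi))) =
      bw (2 * n) (l1 ++ u :: v :: l2) (srt (fun i => key (L.s (sw i) ρ Real.pi))) := by
    rw [← hmap, ← srt_map hk1 sw]
    exact bw_relabel _ sw (hp.trans (srt_perm _).symm)
  have hS0sw : ∀ i, L.S0 (sw i) = L.S0 i := by
    intro i
    by_cases h : i = u
    · rw [h, swu, hSuv]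
    · by_cases h' : i = v
      · rw [h', swv, hSuv]
      · rw [swi i h h']
  have hinv : ∀ i, τ1 (τ1 i) = i := m0.invol
  have hcomm : ∀ i, sw (τ1 i) = τ1 (sw i) := by
    intro i
    by_cases h : i = u
    · rw [h, τu, swv, swu, τv]
    · by_cases h' : i = v
      · rw [h', τv, swu, swv, τu]
      · rw [swi i h h']
        apply swi
        · intro e
          apply h'
          rw [← hinv i, e, τu]
        · intro e
          apply h
          rw [← hinv i, e, τv]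
  have m1' : Mir (fun i => L.s (sw i) ρ Real.pi) τ1 := by
    refine ⟨fun i j h => sw.injective (L.inj ρ hρ Real.pi h), fun i => m1.re (sw i), fun i => ?_⟩
    rw [hcomm i]
    exact m1.mir (sw i)
  obtain ⟨s, hs, hs'⟩ := C5_core (s0 := fun i => L.s i ρ 0) (s1 := fun i => L.s (sw i) ρ Real.pi)
    hp m0 m1' τu
    (fun i hi => ⟨hsep 0 i u (by rw [hSu]; exact hl1re i hi),
      hsep Real.pi _ _ (by rw [hS0sw, hS0sw, hSu]; exact hl1re i hi)⟩)
    (fun i hi => ⟨hsep 0 v i (by rw [hSv]; exact hl2re i hi),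
      hsep Real.pi _ _ (by rw [hS0sw, hS0sw, hSv]; exact hl2re i hi)⟩)
    ⟨hu0, by simp only [swu]; exact hv1⟩
    (by
      intro p hp' q hq' hpq hqp
      have hlt : (L.S0 p).re < (L.S0 q).re := by
        have a1 := (List.pairwise_append.1 hpw).1
        have a2 := (List.pairwise_cons.1 (List.pairwise_append.1 hpw).2.1).2
        have a3 := C5_rk L (rel_of_idx a1 hp' hq' hpq)
        have hmem : ∀ i ∈ l1, τ1 i ∈ v :: l2 := by
          intro i hi
          have h1 : 0 < (L.S0 (τ1 i)).re := by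
            rw [hS i]; simp; exact hl1re i hi
          rcases hall (τ1 i) with h | h | h
          · have := hl1re _ h; linarith
          · rw [h, hSu] at h1; exact absurd h1 (lt_irrefl _)
          · exact h
        have a4 := C5_rk L (rel_of_idx a2 (hmem q hq') (hmem p hp') hqp)
        rw [hS p, hS q] at a4
        simp only [Complex.neg_re, Complex.conj_re, Complex.neg_im, Complex.conj_im, neg_neg] at a4
        rcases a3 with a3 | ⟨a3, a3'⟩
        · exact a3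
        · exfalso
          rcases a4 with a4 | ⟨a4, a4'⟩
          · linarith
          · have e : L.S0 p = L.S0 q := Complex.ext a3 (le_antisymm a3' a4')
            have hpq' : p ≠ q := fun h => by rw [h] at hpq; exact lt_irrefl _ hpq
            rcases L.S0inj p q e with h | ⟨b, ⟨h, _⟩ | ⟨h, _⟩⟩
            · exact hpq' h
            · have := hl1re p hp'
              rw [h, hre b] at this
              exact lt_irrefl _ this
            · have := hl1re p hp'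
              rw [h, hy b] at this
              exact lt_irrefl _ this
      exact ⟨hsep 0 p q hlt, hsep Real.pi _ _ (by rw [hS0sw, hS0sw]; exact hlt)⟩)
  refine ⟨s, hs, ?_⟩
  rw [← hs', g0, g1, hbw, hl1]
  group

private theorem C5_reg (hm : ∀ ζ, Pts (conj ζ) = mir '' Pts ζ) {c δ : ℝ} (hδ : 0 < δ)
    {f : ℝ × ℝ → Brd (2 * n)}
    (hf : IsPrim n Pts (fun u : ℝ × ℝ => pol c u.1 u.2) f (Ioo 0 δ ×ˢ Icc 0 Real.pi)) :
    ∀ᶠ ζ in 𝓝[≠] (c : ℂ), IsRegPt n Pts ζ := by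
  have key : ∀ ζ : ℂ, ζ ∈ ball (c : ℂ) δ → ζ ≠ c → 0 ≤ ζ.im → IsRegPt n Pts ζ := by
    intro ζ hζ hne him
    have h0 : 0 < ‖ζ - c‖ := norm_pos_iff.2 (sub_ne_zero.2 hne)
    have h1 : ‖ζ - c‖ < δ := by rw [← dist_eq_norm]; exact hζ
    have h2 : pol c ‖ζ - c‖ (Complex.arg (ζ - c)) = ζ := by
      rw [pol, Complex.norm_mul_exp_arg_mul_I]; ring
    have h3 : (‖ζ - c‖, Complex.arg (ζ - c)) ∈ Ioo 0 δ ×ˢ Icc 0 Real.pi := by
      refine ⟨⟨h0, h1⟩, ?_, Complex.arg_le_pi _⟩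
      rw [Complex.arg_nonneg_iff]
      simpa using him
    obtain ⟨C, _⟩ := hf _ h3
    have h4 := C.isRegPt (mem_ball_self C.hδ)
    simp only [h2] at h4
    exact h4
  have hb : ball (c : ℂ) δ ∈ 𝓝 (c : ℂ) := ball_mem_nhds _ hδ
  filter_upwards [mem_nhdsWithin_of_mem_nhds hb, self_mem_nhdsWithin] with ζ hζ hne
  rcases le_or_gt 0 ζ.im with h | h
  · exact key ζ hζ hne h
  · have h1 : conj ζ ∈ ball (c : ℂ) δ := by
      rw [mem_ball, dist_eq_norm] at hζ ⊢
      rw [← Complex.norm_conj, map_sub, Complex.conj_conj, Complex.conj_ofReal]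
      exact hζ
    have h2 : conj ζ ≠ c := by
      intro e
      apply hne
      have := congrArg (starRingEnd ℂ) e
      rwa [Complex.conj_conj, Complex.conj_ofReal] at this
    have h3 := (key (conj ζ) h1 h2 (by simp; linarith)).conj hm
    rwa [Complex.conj_conj] at h3

/-- C5 -/
theorem zero_half (hn : 1 ≤ n) (hm : ∀ ζ, Pts (conj ζ) = mir '' Pts ζ) {c : ℝ}
    (h : IsZeroPt n Pts c) :
    ∃ δ0 > 0, ∀ δ : ℝ, 0 < δ → δ ≤ δ0 → ∀ f : ℝ × ℝ → Brd (2 * n), ∀ ρ ∈ Ioo 0 δ,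
      IsPrim n Pts (fun u : ℝ × ℝ => pol c u.1 u.2) f (Ioo 0 δ ×ˢ Icc 0 Real.pi) →
      ∃ s ∈ symB n, (f (ρ, 0))⁻¹ * f (ρ, Real.pi) = sg (2 * n) (n - 1) * s := by
  obtain ⟨L, hnp, hty, hre, him, hθ⟩ := h
  by_cases hreg : ∀ᶠ ζ in 𝓝[≠] (c : ℂ), IsRegPt n Pts ζ
  · obtain ⟨δ1, hδ1, hδ1L, hprim⟩ := L.g_prim hreg
    obtain ⟨δ2, hδ2, hδ2L, hsep⟩ := L.sep
    obtain ⟨ε, hε, hεs⟩ := exists_sep_conj L.S0
    obtain ⟨δ3, hδ3, hlim⟩ := L.lim ε hε
    refine ⟨min δ1 (min δ2 δ3), lt_min hδ1 (lt_min hδ2 hδ3), fun δ hδ hδ' f ρ hρ hf => ?_⟩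
    have d1 : δ ≤ δ1 := hδ'.trans (min_le_left _ _)
    have d2 : δ ≤ δ2 := hδ'.trans ((min_le_right _ _).trans (min_le_left _ _))
    have d3 : δ ≤ δ3 := hδ'.trans ((min_le_right _ _).trans (min_le_right _ _))
    have hY : IsPreconnected (Ioo 0 δ ×ˢ Icc 0 Real.pi) :=
      isPreconnected_Ioo.prod isPreconnected_Icc
    have hγ : ContinuousOn (fun u : ℝ × ℝ => pol c u.1 u.2) (Ioo 0 δ ×ˢ Icc 0 Real.pi) := by
      apply Continuous.continuousOn
      unfold pol
      fun_prop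
    obtain ⟨g0, hg0⟩ := IsPrim.unique hY hγ
      (hprim.mono (prod_mono (Ioo_subset_Ioo_right d1) (subset_univ _))) hf
    have e0 := hg0 (ρ, 0) ⟨hρ, le_refl _, Real.pi_pos.le⟩
    have e1 := hg0 (ρ, Real.pi) ⟨hρ, Real.pi_pos.le, le_refl _⟩
    have e : (f (ρ, 0))⁻¹ * f (ρ, Real.pi) = (L.g (ρ, 0))⁻¹ * L.g (ρ, Real.pi) := by
      rw [e0, e1]; group
    rw [e]
    have hρL : ρ ∈ Ioo 0 L.δ := ⟨hρ.1, hρ.2.trans_le (d1.trans hδ1L)⟩
    have hpos : 0 < L.np := by rw [hnp]; exact one_pos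
    refine C5_main hm L ⟨0, hpos⟩ (fun b => ?_) hty hre him hθ hεs hρL
      (fun φ i => hlim ρ ⟨hρ.1, hρ.2.trans_le d3⟩ hρL.2 φ i)
      (fun φ i j h => (hsep ρ ⟨hρ.1, hρ.2.trans_le d2⟩ φ i j).1 h)
    apply Fin.ext
    have := b.2
    simp only
    omega
  · exact ⟨1, one_pos, fun δ hδ _ f ρ _ hf => absurd (C5_reg hm hδ hf) hreg⟩

end Pool.Agent.HK
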