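import Pool.Agent.H.MP_cd3d06_an.K.C6b

/-!
MP_cd3d06_an, part C, module C6: the upper half circle of large radius.
-/

namespace Pool.Agent.HK

open Complex Set Metric Filter Topology
open scoped ComplexConjugate

variable {n : ℕ} {Pts : ℂ → Set TP}

/-- the separation of the types far away, in charts: `C.pts` at the centre gives
`(C.s i ζ0, C.ty i) ∈ Pts ζ0`; `|re|, |im| ≤ ‖ ‖` -/
theorem Chart.far_bounds {ζ0 : ℂ} (C : Chart n Pts ζ0)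
    (h : ∀ a ∈ Pts ζ0, (a.2 = 1 → ‖a.1 - ζ0‖ ≤ ‖ζ0‖ / 10) ∧ (a.2 = 0 → ‖a.1 + ζ0‖ ≤ ‖ζ0‖ / 10))
    (i j : Fin (2 * n)) (hi : C.ty i = 0) (hj : C.ty j = 1) :
    (‖ζ0‖ / 10 < ζ0.re → (C.s i ζ0).re < (C.s j ζ0).re) ∧
    (ζ0.re < -(‖ζ0‖ / 10) → (C.s j ζ0).re < (C.s i ζ0).re) ∧
    (‖ζ0‖ / 10 < ζ0.im → (C.s i ζ0).im < (C.s j ζ0).im) := by
  have hP := C.pts ζ0 (mem_ball_self C.hδ)
  have hi' : ‖C.s i ζ0 + ζ0‖ ≤ ‖ζ0‖ / 10 :=
    (h (C.s i ζ0, C.ty i) (by rw [hP]; exact ⟨i, rfl⟩)).2 hi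
  have hj' : ‖C.s j ζ0 - ζ0‖ ≤ ‖ζ0‖ / 10 :=
    (h (C.s j ζ0, C.ty j) (by rw [hP]; exact ⟨j, rfl⟩)).1 hj
  have a1 := (abs_le.1 ((Complex.abs_re_le_norm _).trans hi'))
  have a2 := (abs_le.1 ((Complex.abs_im_le_norm _).trans hi'))
  have b1 := (abs_le.1 ((Complex.abs_re_le_norm _).trans hj'))
  have b2 := (abs_le.1 ((Complex.abs_im_le_norm _).trans hj'))
  rw [Complex.add_re] at a1
  rw [Complex.add_im] at a2
  rw [Complex.sub_re] at b1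
  rw [Complex.sub_im] at b2
  refine ⟨fun h => by linarith [a1.1, a1.2, b1.1, b1.2], fun h => by linarith [a1.1, a1.2, b1.1, b1.2],
    fun h => by linarith [a2.1, a2.2, b2.1, b2.2]⟩

theorem C6_two (x : ZMod 2) (h : x ≠ 0) : x = 1 := by
  revert x
  decide

theorem C6_two' (x : ZMod 2) (h : x ≠ 1) : x = 0 := by
  revert x
  decide

theorem C6_card_one {ζ0 : ℂ} (C : Chart n Pts ζ0) (hc : cnt Pts ζ0 = n) :
    (Finset.univ.filter (fun i => C.ty i = 1)).card = n := by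
  rw [← C.cnt_eq (mem_ball_self C.hδ), hc]

/-- the local statement far from the imaginary axis -/
theorem C6_local (hn : 1 ≤ n) {ζ0 ζ : ℂ} (C : Chart n Pts ζ0) (hc : cnt Pts ζ0 = n)
    (h : ∀ a ∈ Pts ζ0, (a.2 = 1 → ‖a.1 - ζ0‖ ≤ ‖ζ0‖ / 10) ∧ (a.2 = 0 → ‖a.1 + ζ0‖ ≤ ‖ζ0‖ / 10))
    (hre : ‖ζ0‖ / 10 < ζ0.re ∨ ζ0.re < -(‖ζ0‖ / 10)) (hζ : ζ ∈ ball ζ0 C.δ) :
    C.β ζ ∈ intB n := by
  rcases hre with hre | hre
  · refine C.β_mem_intB hn (fun i => decide (C.ty i = 0)) ?_ ?_ hζ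
    · simpa using C.card_zero hc
    · intro i j hi hj
      have hi' : C.ty i = 0 := by simpa using hi
      have hj' : C.ty j ≠ 0 := by simpa using hj
      exact (C.far_bounds h i j hi' (C6_two _ hj')).1 hre
  · refine C.β_mem_intB hn (fun i => decide (C.ty i = 1)) ?_ ?_ hζ
    · simpa using C6_card_one C hc
    · intro i j hi hj
      have hi' : C.ty i = 1 := by simpa using hi
      have hj' : C.ty j ≠ 1 := by simpa using hj
      exact (C.far_bounds h j i (C6_two' _ hj') hi').2.1 hre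

theorem C6_re (R φ : ℝ) : (pol 0 R φ).re = R * Real.cos φ := by
  rw [pol, zero_add, Complex.re_ofReal_mul, Complex.exp_ofReal_mul_I_re]

theorem C6_im (R φ : ℝ) : (pol 0 R φ).im = R * Real.sin φ := by
  rw [pol, zero_add, Complex.im_ofReal_mul, Complex.exp_ofReal_mul_I_im]

theorem C6_norm {R : ℝ} (hR : 0 < R) (φ : ℝ) : ‖pol 0 R φ‖ = R := by
  rw [pol, zero_add, norm_mul, Complex.norm_exp_ofReal_mul_I, mul_one, Complex.norm_real,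
    Real.norm_eq_abs, abs_of_pos hR]

theorem C6_zero (R : ℝ) : pol 0 R 0 = (R : ℂ) := by
  simp [pol]

theorem C6_cont (R : ℝ) : Continuous (fun φ : ℝ => pol 0 R φ) := by
  unfold pol
  fun_prop

theorem C6_cos : (1 : ℝ) / 10 < Real.cos (Real.pi / 4) := by
  rw [Real.cos_pi_div_four]
  have : (1 : ℝ) < √2 := by
    rw [show (1 : ℝ) = √1 by simp]
    exact Real.sqrt_lt_sqrt (by norm_num) (by norm_num)
  linarith

theorem C6_cos1 {φ : ℝ} (h : φ ∈ Icc 0 (Real.pi / 4)) : (1 : ℝ) / 10 < Real.cos φ :=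
  C6_cos.trans_le (Real.cos_le_cos_of_nonneg_of_le_pi h.1 (by linarith [Real.pi_pos]) h.2)

theorem C6_cos2 {φ : ℝ} (h : φ ∈ Icc (3 * Real.pi / 4) Real.pi) : Real.cos φ < -(1 / 10 : ℝ) := by
  have h1 := C6_cos1 (φ := Real.pi - φ) ⟨by linarith [h.2], by linarith [h.1]⟩
  rw [Real.cos_pi_sub] at h1
  linarith

theorem C6_sin {φ : ℝ} (h : φ ∈ Icc (Real.pi / 4) (3 * Real.pi / 4)) :
    (1 : ℝ) / 10 < Real.sin φ := by
  rw [← Real.cos_sub_pi_div_two, ← Real.cos_abs]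
  exact C6_cos1 ⟨abs_nonneg _, abs_le.2 ⟨by linarith [h.1], by linarith [h.2]⟩⟩

/-- C6. PROOF. `R0 = max 1` (the constant of `hfar`). Let `γ φ = pol 0 R φ`, so `‖γ φ‖ = R`,
`Re = R cos φ`, `Im = R sin φ`. All points `γ φ`, `φ ∈ [0, π]`, have charts (from `PrimAt`), hence are
regular; `cnt = n` on the whole arc (`cnt_real` at `γ 0 = R`, `cnt_const`), so `Chart.card_zero`.
(1) `[0, π / 4]`: `Re > R / 10`. For `x0` in the interval, with the chart `C` of `PrimAt` at `x0`: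
`(f x0)⁻¹ * f x = (C.β (γ x0))⁻¹ * C.β (γ x) ∈ intB n` near `x0` (`Chart.β_mem_intB`,
`p i = decide (C.ty i = 0)`); `coset_of_local`: `(f 0)⁻¹ * f (π/4) ∈ intB n`. The same on
`[3 π / 4, π]` with `p i = decide (C.ty i = 1)`.
(2) `[π / 4, 3 π / 4]`: `Im > R / 10`; `F x = f x * (hh (rowAt n Pts (γ x)))⁻¹`, `Chart.upper`,
`coset_of_local`: `(F (π/4))⁻¹ * F (3π/4) ∈ intB n`. By `Chart.rowAt_rR`, `hh_rR` `F (π/4) = f (π/4)`;
by `Chart.rowAt_rL`, `hh_rL` `F (3π/4) = f (3π/4) * (el (Wd n))⁻¹`.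
So `(f 0)⁻¹ * f π = a1 * (b * el (Wd n)) * a2`. The row at `R = γ 0`: `Chart.rowAt_rR`. -/
theorem far_half (hn : 1 ≤ n) (hm : ∀ ζ, Pts (conj ζ) = mir '' Pts ζ) (hfar : IsFar Pts) :
    ∃ R0 > 0, ∀ R : ℝ, R0 ≤ R → ∀ f : ℝ → Brd (2 * n),
      IsPrim n Pts (fun φ : ℝ => pol 0 R φ) f (Icc 0 Real.pi) →
      rowAt n Pts (R : ℂ) = rR n ∧ ∃ a ∈ intB n, ∃ a' ∈ intB n,
        (f 0)⁻¹ * f Real.pi = a * el (2 * n) (Wd n) * a' := by
  obtain ⟨R1, hR1⟩ := hfar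
  refine ⟨max 1 R1, lt_max_of_lt_left one_pos, fun R hR f hf => ?_⟩
  have hR0 : 0 < R := lt_of_lt_of_le (lt_max_of_lt_left one_pos) hR
  have hpi := Real.pi_pos
  have hnorm := fun φ => C6_norm hR0 φ
  have hF : ∀ φ, ∀ a ∈ Pts (pol 0 R φ), (a.2 = 1 → ‖a.1 - pol 0 R φ‖ ≤ ‖pol 0 R φ‖ / 10) ∧
      (a.2 = 0 → ‖a.1 + pol 0 R φ‖ ≤ ‖pol 0 R φ‖ / 10) := fun φ =>
    hR1 _ (by rw [hnorm]; exact (le_max_right _ _).trans hR)
  have hreg : ∀ φ ∈ Icc 0 Real.pi, IsRegPt n Pts (pol 0 R φ) := by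
    intro φ hφ
    obtain ⟨C, -⟩ := hf φ hφ
    exact C.isRegPt (mem_ball_self C.hδ)
  have hcnt : ∀ φ ∈ Icc 0 Real.pi, cnt Pts (pol 0 R φ) = n := by
    intro φ hφ
    have h0 := hreg 0 ⟨le_rfl, hpi.le⟩
    rw [cnt_const (γ := fun φ : ℝ => pol 0 R φ) hpi.le (C6_cont R).continuousOn hreg φ hφ]
    show cnt Pts (pol 0 R 0) = n
    rw [C6_zero] at h0 ⊢
    exact cnt_real hm h0
  have hball : ∀ (Y : Set ℝ) (x0 : ℝ) (C : Chart n Pts (pol 0 R x0)),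
      ∀ᶠ x in 𝓝[Y] x0, pol 0 R x ∈ ball (pol 0 R x0) C.δ := by
    intro Y x0 C
    exact ((C6_cont R).continuousWithinAt (s := Y) (x := x0)).eventually (ball_mem_nhds _ C.hδ)
  -- the parts far from the imaginary axis
  have hside : ∀ Y : Set ℝ, IsPreconnected Y → Y ⊆ Icc 0 Real.pi →
      (∀ φ ∈ Y, ‖pol 0 R φ‖ / 10 < (pol 0 R φ).re ∨ (pol 0 R φ).re < -(‖pol 0 R φ‖ / 10)) →
      ∀ x ∈ Y, ∀ x' ∈ Y, (f x)⁻¹ * f x' ∈ intB n := by
    intro Y hY hYs hre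
    refine coset_of_local hY _ fun x0 hx0 => ?_
    obtain ⟨C, hC⟩ := hf x0 (hYs hx0)
    filter_upwards [hC.filter_mono (nhdsWithin_mono _ hYs), hball Y x0 C] with x h1 h2
    rw [h1]
    have h3 := C6_local hn C (hcnt x0 (hYs hx0)) (hF x0) (hre x0 hx0) h2
    have h4 := C6_local hn C (hcnt x0 (hYs hx0)) (hF x0) (hre x0 hx0) (mem_ball_self C.hδ)
    have h5 := (intB n).mul_mem ((intB n).inv_mem h4) h3
    convert h5 using 1
    group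
  -- the upper part
  have hup : ∀ x ∈ Icc (Real.pi / 4) (3 * Real.pi / 4), ∀ x' ∈ Icc (Real.pi / 4) (3 * Real.pi / 4),
      (f x * (hh (rowAt n Pts (pol 0 R x)))⁻¹)⁻¹ * (f x' * (hh (rowAt n Pts (pol 0 R x')))⁻¹) ∈
        intB n := by
    have hYs : Icc (Real.pi / 4) (3 * Real.pi / 4) ⊆ Icc 0 Real.pi :=
      Icc_subset_Icc (by linarith) (by linarith)
    refine coset_of_local (f := fun x => f x * (hh (rowAt n Pts (pol 0 R x)))⁻¹) isPreconnected_Icc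
      _ fun x0 hx0 => ?_
    obtain ⟨C, hC⟩ := hf x0 (hYs hx0)
    filter_upwards [hC.filter_mono (nhdsWithin_mono _ hYs), hball _ x0 C] with x h1 h2
    have h3 := C.upper hn (C.card_zero (hcnt x0 (hYs hx0)))
      (fun i j hi hj => (C.far_bounds (hF x0) i j hi hj).2.2 (by
        rw [hnorm, C6_im]
        nlinarith [C6_sin hx0])) h2
    convert h3 using 1
    rw [h1]
    group
  have m0 : (0 : ℝ) ∈ Icc 0 (Real.pi / 4) := ⟨le_rfl, by linarith⟩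
  have m1 : (Real.pi / 4) ∈ Icc 0 (Real.pi / 4) := ⟨by linarith, le_rfl⟩
  have m2 : (3 * Real.pi / 4) ∈ Icc (3 * Real.pi / 4) Real.pi := ⟨le_rfl, by linarith⟩
  have m3 : Real.pi ∈ Icc (3 * Real.pi / 4) Real.pi := ⟨by linarith, le_rfl⟩
  have e1 : ∀ φ ∈ Icc 0 (Real.pi / 4), ‖pol 0 R φ‖ / 10 < (pol 0 R φ).re := by
    intro φ hφ
    rw [hnorm, C6_re]
    nlinarith [C6_cos1 hφ]
  have e2 : ∀ φ ∈ Icc (3 * Real.pi / 4) Real.pi, (pol 0 R φ).re < -(‖pol 0 R φ‖ / 10) := by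
    intro φ hφ
    rw [hnorm, C6_re]
    nlinarith [C6_cos2 hφ]
  have A1 := hside (Icc 0 (Real.pi / 4)) isPreconnected_Icc (Icc_subset_Icc le_rfl (by linarith))
    (fun φ hφ => Or.inl (e1 φ hφ)) 0 m0 _ m1
  have A2 := hside (Icc (3 * Real.pi / 4) Real.pi) isPreconnected_Icc
    (Icc_subset_Icc (by linarith) le_rfl) (fun φ hφ => Or.inr (e2 φ hφ)) _ m2 _ m3
  have A3 := hup (Real.pi / 4) ⟨le_rfl, by linarith⟩ (3 * Real.pi / 4) ⟨by linarith, le_rfl⟩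
  -- the rows
  have row1 : ∀ φ ∈ Icc 0 (Real.pi / 4), rowAt n Pts (pol 0 R φ) = rR n := by
    intro φ hφ
    have hφ' : φ ∈ Icc 0 Real.pi := Icc_subset_Icc le_rfl (by linarith) hφ
    obtain ⟨C, -⟩ := hf φ hφ'
    exact C.rowAt_rR (C.card_zero (hcnt φ hφ'))
      (fun i j hi hj => (C.far_bounds (hF φ) i j hi hj).1 (e1 φ hφ))
  have row2 : rowAt n Pts (pol 0 R (3 * Real.pi / 4)) = rL n := by
    have hφ' : (3 * Real.pi / 4) ∈ Icc 0 Real.pi := ⟨by linarith, by linarith⟩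
    obtain ⟨C, -⟩ := hf _ hφ'
    exact C.rowAt_rL (C.card_zero (hcnt _ hφ'))
      (fun i j hi hj => (C.far_bounds (hF _) j i hj hi).2.1 (e2 _ m2))
  rw [row1 _ m1, row2, hh_rR, hh_rL, inv_one, mul_one] at A3
  refine ⟨by rw [← C6_zero]; exact row1 0 m0, (f 0)⁻¹ * f (Real.pi / 4) *
    ((f (Real.pi / 4))⁻¹ * (f (3 * Real.pi / 4) * (el (2 * n) (Wd n))⁻¹)),
    (intB n).mul_mem A1 A3, (f (3 * Real.pi / 4))⁻¹ * f Real.pi, A2, ?_⟩
  group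

end Pool.Agent.HK
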