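import Pool.Agent.H.MP_cd3d06_an.K.C4c

/-!
MP_cd3d06_an, part C, module C6a: the number of points of type 1, rows and blocks.
-/

namespace Pool.Agent.HK

open Complex Set Metric Filter Topology
open scoped ComplexConjugate

variable {n : ℕ} {Pts : ℂ → Set TP}

/-- number of points of type 1 -/
noncomputable def cnt (Pts : ℂ → Set TP) (ζ : ℂ) : ℕ := {a | a ∈ Pts ζ ∧ a.2 = 1}.ncard

private theorem C6a_cnt {ζ : ℂ} {s : Fin (2 * n) → ℂ} {ty : Fin (2 * n) → ZMod 2}
    (hi : Function.Injective s) (hp : Pts ζ = range (fun i => (s i, ty i))) :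
    cnt Pts ζ = (Finset.univ.filter (fun i => ty i = 1)).card := by
  have h1 : {a | a ∈ Pts ζ ∧ a.2 = 1} =
      (((Finset.univ.filter (fun i => ty i = 1)).image (fun i => (s i, ty i)) : Finset TP) :
        Set TP) := by
    ext a
    rw [hp]
    simp only [mem_range, Set.mem_ofPred_eq, Finset.coe_image, Finset.coe_filter, Finset.mem_univ,
      true_and, Set.mem_image]
    constructor
    · rintro ⟨⟨i, rfl⟩, h⟩
      exact ⟨i, h, rfl⟩
    · rintro ⟨i, h, rfl⟩
      exact ⟨⟨i, rfl⟩, h⟩
  rw [cnt, h1, Set.ncard_coe_finset, Finset.card_image_of_injective]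
  intro i j hij
  exact hi (Prod.ext_iff.1 hij).1

private theorem C6a_zmod (a : ZMod 2) : ¬ a = 1 ↔ a = 0 := by
  revert a; decide

private theorem C6a_two (ty : Fin (2 * n) → ZMod 2) :
    (Finset.univ.filter (fun i => ty i = 1)).card +
      (Finset.univ.filter (fun i => ty i = 0)).card = 2 * n := by
  have h := Finset.card_filter_add_card_filter_not (s := (Finset.univ : Finset (Fin (2 * n))))
    (fun i => ty i = 1)
  rw [Finset.card_univ, Fintype.card_fin] at h
  have h2 : (Finset.univ.filter (fun i => ¬ ty i = 1)) = Finset.univ.filter (fun i => ty i = 0) :=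
    Finset.filter_congr (fun i _ => C6a_zmod (ty i))
  rw [h2] at h
  exact h

theorem Chart.cnt_eq {ζ0 ζ : ℂ} (C : Chart n Pts ζ0) (h : ζ ∈ ball ζ0 C.δ) :
    cnt Pts ζ = (Finset.univ.filter (fun i => C.ty i = 1)).card :=
  C6a_cnt (C.inj ζ h) (C.pts ζ h)

/-- PROOF. A chart at `c` (`exists_chart`), the involution `exists_mir` exchanges the two types. -/
theorem cnt_real (hm : ∀ ζ, Pts (conj ζ) = mir '' Pts ζ) {c : ℝ} (h : IsRegPt n Pts c) :
    cnt Pts c = n := by
  obtain ⟨δ, s, ty, hδ, -, hs⟩ := h
  obtain ⟨hi, hp⟩ := hs (c : ℂ) (mem_ball_self hδ)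
  have hm' : mir '' Pts (c : ℂ) = Pts (c : ℂ) := by
    rw [← hm (c : ℂ), conj_ofReal]
  obtain ⟨τ, hτ, hM⟩ := exists_mir (s := fun i => s i (c : ℂ)) hm' hi hp
  rw [C6a_cnt hi hp]
  have h2 := C6a_two ty
  have h3 : (Finset.univ.filter (fun i => ty i = 0)).card =
      (Finset.univ.filter (fun i => ty i = 1)).card := by
    refine Finset.card_bij' (fun i _ => τ i) (fun i _ => τ i) ?_ ?_ ?_ ?_
    · intro i hi'
      simp only [Finset.mem_filter, Finset.mem_univ, true_and] at hi' ⊢
      rw [hτ, hi', zero_add]
    · intro i hi'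
      simp only [Finset.mem_filter, Finset.mem_univ, true_and] at hi' ⊢
      rw [hτ, hi']
      rfl
    · intro i _
      exact hM.invol i
    · intro i _
      exact hM.invol i
  omega

/-- PROOF. `ζ ↦ cnt Pts ζ` is constant on the balls of charts; `IsPreconnected.constant` for the
discrete space `ℕ`. -/
theorem cnt_const {γ : ℝ → ℂ} {a b : ℝ} (hab : a ≤ b) (hγ : ContinuousOn γ (Icc a b))
    (hreg : ∀ x ∈ Icc a b, IsRegPt n Pts (γ x)) : ∀ x ∈ Icc a b, cnt Pts (γ x) = cnt Pts (γ a) := by
  intro x hx
  refine const_of_local (f := fun x => cnt Pts (γ x)) (isPreconnected_Icc (a := a) (b := b))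
    (fun x0 hx0 => ?_) x hx a (left_mem_Icc.2 hab)
  obtain ⟨C, -⟩ := exists_chart (hreg x0 hx0) one_pos
  have h0 := C.cnt_eq (mem_ball_self C.hδ)
  have hev : ∀ᶠ y in 𝓝[Icc a b] x0, γ y ∈ ball (γ x0) C.δ :=
    (hγ x0 hx0).eventually (ball_mem_nhds _ C.hδ)
  filter_upwards [hev] with y hy
  show cnt Pts (γ y) = cnt Pts (γ x0)
  rw [C.cnt_eq hy, h0]

/-- PROOF. `Chart.cnt_eq`, and `2 n` labels in all. -/
theorem Chart.card_zero {ζ0 : ℂ} (C : Chart n Pts ζ0) (h : cnt Pts ζ0 = n) :
    (Finset.univ.filter (fun i => C.ty i = 0)).card = n := by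
  have h0 := C.cnt_eq (mem_ball_self C.hδ)
  have h2 := C6a_two C.ty
  omega

/-- the canonical row when the first `n` points have type 1 and the last `n` points have type 0 -/
def rL (n : ℕ) : Row (2 * n) := fun j => (if (j : ℕ) < n then 1 else 0) + ((j : ℕ) : ZMod 2)

/-- the list of the positions with type 0, then those of type 1 -/
def blk {n : ℕ} (r : Row (2 * n)) : List (Fin (2 * n)) :=
  (List.finRange (2 * n)).filter (fun j => decide (r j + ((j : ℕ) : ZMod 2) = 0)) ++
    (List.finRange (2 * n)).filter (fun j => !decide (r j + ((j : ℕ) : ZMod 2) = 0))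

/-- the braid from the separated order (type 0 first) to the canonical order -/
def hh {n : ℕ} (r : Row (2 * n)) : Brd (2 * n) := bw (2 * n) (blk r) (List.finRange (2 * n))

private theorem C6a_split {α : Type*} (p : α → Bool) : ∀ {l : List α},
    l.Pairwise (fun a b => p b = true → p a = true) →
      l.filter p ++ l.filter (fun a => !p a) = l
  | [], _ => rfl
  | a :: l, h => by
    rw [List.pairwise_cons] at h
    have ih := C6a_split p h.2
    by_cases hp : p a = true
    · rw [List.filter_cons_of_pos hp, List.filter_cons_of_neg (by simp [hp]), List.cons_append, ih]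
    · have h1 : l.filter p = [] := by
        rw [List.filter_eq_nil_iff]
        intro b hb hpb
        exact hp (h.1 b hb hpb)
      rw [h1, List.nil_append] at ih
      rw [List.filter_cons_of_neg hp, List.filter_cons_of_pos (by simpa using hp), h1, ih,
        List.nil_append]

private theorem C6a_two_add (a b : ZMod 2) : a + b + b = a := by
  revert a b; decide

private theorem C6a_rR (n : ℕ) (j : Fin (2 * n)) :
    decide (rR n j + ((j : ℕ) : ZMod 2) = 0) = decide ((j : ℕ) < n) := by
  unfold rR
  rw [C6a_two_add]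
  by_cases h : (j : ℕ) < n
  · simp [h]
  · simp [h]

private theorem C6a_rL (n : ℕ) (j : Fin (2 * n)) :
    decide (rL n j + ((j : ℕ) : ZMod 2) = 0) = !decide ((j : ℕ) < n) := by
  unfold rL
  rw [C6a_two_add]
  by_cases h : (j : ℕ) < n
  · simp [h]
  · simp [h]

private theorem C6a_fin (n : ℕ) :
    (List.finRange (2 * n)).filter (fun j : Fin (2 * n) => decide ((j : ℕ) < n)) ++
      (List.finRange (2 * n)).filter (fun j : Fin (2 * n) => !decide ((j : ℕ) < n)) = List.finRange (2 * n) := by
  refine C6a_split (fun j : Fin (2 * n) => decide ((j : ℕ) < n)) ?_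
  refine (List.pairwise_lt_finRange (2 * n)).imp ?_
  intro a b hab h
  simp only [decide_eq_true_eq] at h ⊢
  have : (a : ℕ) < b := hab
  omega

/-- PROOF. `rR n j + j = 0` iff `j < n`; so `blk (rR n) = finRange (2 n)`, `bw_self`. -/
theorem hh_rR (n : ℕ) : hh (rR n) = 1 := by
  have h : blk (rR n) = List.finRange (2 * n) := by
    unfold blk
    simp only [C6a_rR]
    exact C6a_fin n
  unfold hh
  rw [h]
  exact bw_self (2 * n) (List.nodup_finRange (2 * n))

/-- PROOF. `rL n j + j = 0` iff `n ≤ j`; `blk (rL n) = R ++ L` with `L ++ R = finRange (2 n)`, `L` the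
positions `< n`; `bw_twist`. -/
theorem hh_rL (n : ℕ) : hh (rL n) = el (2 * n) (Wd n) := by
  have h : blk (rL n) = (List.finRange (2 * n)).filter (fun j : Fin (2 * n) => !decide ((j : ℕ) < n)) ++
      (List.finRange (2 * n)).filter (fun j : Fin (2 * n) => decide ((j : ℕ) < n)) := by
    unfold blk
    simp only [C6a_rL, Bool.not_not]
  have hf := C6a_fin n
  have hL : ((List.finRange (2 * n)).filter (fun j : Fin (2 * n) => decide ((j : ℕ) < n))).length = n := by
    have h1 : ((List.finRange (2 * n)).filter (fun j : Fin (2 * n) => decide ((j : ℕ) < n))).Nodup :=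
      (List.nodup_finRange (2 * n)).filter _
    rw [← List.toFinset_card_of_nodup h1]
    have h2 : ((List.finRange (2 * n)).filter (fun j : Fin (2 * n) => decide ((j : ℕ) < n))).toFinset =
        Finset.univ.filter (fun j : Fin (2 * n) => (j : ℕ) < n) := by
      ext j
      simp
    rw [h2, Fin.card_filter_val_lt]
    omega
  have hR : ((List.finRange (2 * n)).filter (fun j : Fin (2 * n) => !decide ((j : ℕ) < n))).length = n := by
    have h1 := congrArg List.length hf
    rw [List.length_append, hL, List.length_finRange] at h1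
    omega
  have hn : ((List.finRange (2 * n)).filter (fun j : Fin (2 * n) => !decide ((j : ℕ) < n)) ++
      (List.finRange (2 * n)).filter (fun j : Fin (2 * n) => decide ((j : ℕ) < n))).Nodup := by
    refine (List.perm_append_comm.nodup_iff).1 ?_
    rw [hf]
    exact List.nodup_finRange (2 * n)
  unfold hh
  rw [h]
  have := bw_twist hn hL hR
  rw [hf] at this
  exact this

/-- PROOF. Relabelling `bw_map` by `g j = l.get j`: `(finRange (2 n)).map g = l`, and
`rowOf _ ty l _ j + j = ty (g j)` (`j + j = 0` in `ZMod 2`), so `(blk r).map g` is the left list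
(`List.filter_map`). -/
theorem hh_rowOf (ty : Fin (2 * n) → ZMod 2) {l : List (Fin (2 * n))}
    (hl : l.Perm (List.finRange (2 * n))) (hlen : l.length = 2 * n) :
    hh (rowOf (2 * n) ty l hlen) =
      bw (2 * n) (l.filter (fun i => decide (ty i = 0)) ++ l.filter (fun i => !decide (ty i = 0)))
        l := by
  set g : Fin (2 * n) → Fin (2 * n) := fun j => l.get (j.cast hlen.symm) with hg
  have hmap : (List.finRange (2 * n)).map g = l := by
    apply List.ext_getElem
    · rw [List.length_map, List.length_finRange, hlen]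
    · intro i h1 h2
      simp [hg]
  have hnd : l.Nodup := hl.nodup_iff.2 (List.nodup_finRange (2 * n))
  have hinj : Function.Injective g := by
    intro i j hij
    have h1 := List.nodup_iff_injective_get.1 hnd hij
    exact Fin.cast_injective _ h1
  have hr : ∀ j : Fin (2 * n), decide (rowOf (2 * n) ty l hlen j + ((j : ℕ) : ZMod 2) = 0) =
      decide (ty (g j) = 0) := by
    intro j
    unfold rowOf
    rw [C6a_two_add]
  have hblk : (blk (rowOf (2 * n) ty l hlen)).map g =
      l.filter (fun i => decide (ty i = 0)) ++ l.filter (fun i => !decide (ty i = 0)) := by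
    unfold blk
    simp only [hr]
    rw [List.map_append]
    have h1 : ((List.finRange (2 * n)).filter (fun j => decide (ty (g j) = 0))).map g =
        l.filter (fun i => decide (ty i = 0)) := by
      conv_rhs => rw [← hmap, List.filter_map]
      rfl
    have h2 : ((List.finRange (2 * n)).filter (fun j => !decide (ty (g j) = 0))).map g =
        l.filter (fun i => !decide (ty i = 0)) := by
      conv_rhs => rw [← hmap, List.filter_map]
      rfl
    rw [h1, h2]
  have hperm : (blk (rowOf (2 * n) ty l hlen)).Perm (List.finRange (2 * n)) := by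
    unfold blk
    exact List.filter_append_perm _ _
  unfold hh
  rw [← bw_map (2 * n) g (fun x _ y _ h => hinj h) hperm, hblk, hmap]

/-- PROOF. `j < n`: the entry number `j` of `l1 ++ l2` is in `l1`. -/
theorem rowOf_rR (ty : Fin (2 * n) → ZMod 2) {l1 l2 : List (Fin (2 * n))} (h1 : l1.length = n)
    (hlen : (l1 ++ l2).length = 2 * n) (ht1 : ∀ i ∈ l1, ty i = 0) (ht2 : ∀ i ∈ l2, ty i = 1) :
    rowOf (2 * n) ty (l1 ++ l2) hlen = rR n := by
  funext j
  unfold rowOf rR
  congr 1
  rw [List.get_eq_getElem]
  by_cases hj : (j : ℕ) < n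
  · rw [if_pos hj]
    apply ht1
    have : (l1 ++ l2)[(j : ℕ)]'(by rw [hlen]; exact j.2) = l1[(j : ℕ)]'(by rw [h1]; exact hj) :=
      List.getElem_append_left (by rw [h1]; exact hj)
    simp only [Fin.val_cast]
    rw [this]
    exact List.getElem_mem _
  · rw [if_neg hj]
    apply ht2
    have : (l1 ++ l2)[(j : ℕ)]'(by rw [hlen]; exact j.2) =
        l2[(j : ℕ) - l1.length]'(by
          have := j.2
          rw [List.length_append] at hlen
          omega) :=
      List.getElem_append_right (by rw [h1]; exact not_lt.1 hj)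
    simp only [Fin.val_cast]
    rw [this]
    exact List.getElem_mem _

theorem rowOf_rL (ty : Fin (2 * n) → ZMod 2) {l1 l2 : List (Fin (2 * n))} (h1 : l1.length = n)
    (hlen : (l1 ++ l2).length = 2 * n) (ht1 : ∀ i ∈ l1, ty i = 1) (ht2 : ∀ i ∈ l2, ty i = 0) :
    rowOf (2 * n) ty (l1 ++ l2) hlen = rL n := by
  funext j
  unfold rowOf rL
  congr 1
  rw [List.get_eq_getElem]
  by_cases hj : (j : ℕ) < n
  · rw [if_pos hj]
    apply ht1
    have : (l1 ++ l2)[(j : ℕ)]'(by rw [hlen]; exact j.2) = l1[(j : ℕ)]'(by rw [h1]; exact hj) :=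
      List.getElem_append_left (by rw [h1]; exact hj)
    simp only [Fin.val_cast]
    rw [this]
    exact List.getElem_mem _
  · rw [if_neg hj]
    apply ht2
    have : (l1 ++ l2)[(j : ℕ)]'(by rw [hlen]; exact j.2) =
        l2[(j : ℕ) - l1.length]'(by
          have := j.2
          rw [List.length_append] at hlen
          omega) :=
      List.getElem_append_right (by rw [h1]; exact not_lt.1 hj)
    simp only [Fin.val_cast]
    rw [this]
    exact List.getElem_mem _

end Pool.Agent.HK
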