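import Pool.Agent.H.MP_cd3d06_an.K.C6a

/-!
MP_cd3d06_an, part C, module C6b: separated configurations.
-/

namespace Pool.Agent.HK

open Complex Set Metric Filter Topology
open scoped ComplexConjugate

variable {n : ℕ} {Pts : ℂ → Set TP}

/-- the number of labels in `p` -/
theorem C6b_length {N : ℕ} {l : List (Fin N)} (hl : l.Perm (List.finRange N))
    (p : Fin N → Bool) : (l.filter p).length = (Finset.univ.filter (fun i => p i = true)).card := by
  have h1 : l.Nodup := hl.nodup_iff.2 (List.nodup_finRange N)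
  have h2 : (l.filter p).toFinset = Finset.univ.filter (fun i => p i = true) := by
    ext i
    have h3 : i ∈ l := hl.mem_iff.2 (List.mem_finRange i)
    simp [h3]
  rw [← h2, List.toFinset_card_of_nodup (h1.filter _)]

/-- the labels in `p` come first -/
def C6bR {N : ℕ} {β : Type*} [LT β] (p : Fin N → Bool) (k : Fin N → β) (x y : Fin N) : Prop :=
  (p x = true ∧ p y = false) ∨ (p x = p y ∧ k x < k y)

section lists

variable {N : ℕ} {β : Type*} [LinearOrder β] {k : Fin N → β}

theorem C6b_perm (k : Fin N → β) (p : Fin N → Bool) :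
    ((srt k).filter p ++ (srt k).filter (fun i => !p i)).Perm (List.finRange N) :=
  (List.filter_append_perm p (srt k)).trans (srt_perm k)

theorem C6b_nodup (k : Fin N → β) (p : Fin N → Bool) :
    ((srt k).filter p ++ (srt k).filter (fun i => !p i)).Nodup :=
  (C6b_perm k p).nodup_iff.2 (List.nodup_finRange N)

theorem C6b_mem (k : Fin N → β) (p : Fin N → Bool) (i : Fin N) :
    i ∈ (srt k).filter p ++ (srt k).filter (fun i => !p i) :=
  (C6b_perm k p).mem_iff.2 (List.mem_finRange i)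

theorem C6b_pairwise (hk : Function.Injective k) (p : Fin N → Bool) :
    ((srt k).filter p ++ (srt k).filter (fun i => !p i)).Pairwise (C6bR p k) := by
  rw [List.pairwise_append]
  refine ⟨?_, ?_, fun x hx y hy => ?_⟩
  · refine List.Pairwise.imp_of_mem ?_ ((srt_pairwise hk).filter _)
    intro x y hx hy hxy
    rw [List.mem_filter] at hx hy
    exact Or.inr ⟨hx.2.trans hy.2.symm, hxy⟩
  · refine List.Pairwise.imp_of_mem ?_ ((srt_pairwise hk).filter _)
    intro x y hx hy hxy
    rw [List.mem_filter] at hx hy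
    have h1 : p x = false := by simpa using hx.2
    have h2 : p y = false := by simpa using hy.2
    exact Or.inr ⟨h1.trans h2.symm, hxy⟩
  · rw [List.mem_filter] at hx hy
    exact Or.inl ⟨hx.2, by simpa using hy.2⟩

theorem C6b_idx (hk : Function.Injective k) (p : Fin N → Bool) (x y : Fin N) :
    ((srt k).filter p ++ (srt k).filter (fun i => !p i)).idxOf x <
      ((srt k).filter p ++ (srt k).filter (fun i => !p i)).idxOf y ↔ C6bR p k x y := by
  have hx := C6b_mem k p x
  have hy := C6b_mem k p y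
  refine ⟨rel_of_idx (C6b_pairwise hk p) hx hy, fun h => ?_⟩
  have hne : x ≠ y := by
    rintro rfl
    rcases h with ⟨h1, h2⟩ | ⟨-, h1⟩
    · rw [h1] at h2
      exact Bool.noConfusion h2
    · exact lt_irrefl _ h1
  rcases lt_trichotomy (((srt k).filter p ++ (srt k).filter (fun i => !p i)).idxOf x)
    (((srt k).filter p ++ (srt k).filter (fun i => !p i)).idxOf y) with h1 | h1 | h1
  · exact h1
  · exact absurd ((List.idxOf_inj hx).1 h1) hne
  · have h2 := rel_of_idx (C6b_pairwise hk p) hy hx h1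
    rcases h with ⟨h3, h4⟩ | ⟨h3, h4⟩
    · rcases h2 with ⟨h5, -⟩ | ⟨h5, -⟩
      · rw [h4] at h5
        exact Bool.noConfusion h5
      · rw [h3, h4] at h5
        exact Bool.noConfusion h5
    · rcases h2 with ⟨h5, h6⟩ | ⟨-, h5⟩
      · rw [h6, h5] at h3
        exact Bool.noConfusion h3
      · exact absurd h4 (not_lt.2 h5.le)

end lists

theorem C6b_rowOf {N : ℕ} (ty : Fin N → ZMod 2) {l l' : List (Fin N)} (h : l = l')
    (hl : l.length = N) : rowOf N ty l hl = rowOf N ty l' (h ▸ hl) := by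
  subst h
  rfl

theorem C6b_ty {a : ZMod 2} (h : a ≠ 0) : a = 1 := by
  revert a
  decide

theorem C6b_kref {ζ0 : ℂ} (C : Chart n Pts ζ0) :
    Function.Injective (fun i => lkey (C.s i ζ0)) :=
  lkey_injective.comp (C.inj ζ0 (mem_ball_self C.hδ))

theorem C6b_kord {ζ0 ζ : ℂ} (C : Chart n Pts ζ0) (hζ : ζ ∈ ball ζ0 C.δ) :
    Function.Injective (fun i => key (C.s i ζ)) := key_injective.comp (C.inj ζ hζ)

/-- `n` labels `p` are to the left of the others: the transport is internal
PROOF. `C.ref = C.ref.filter p ++ C.ref.filter (!p)` (`srt_split`, key `lkey` at `ζ0`), and the same for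
`C.ord ζ` (key `key` at `ζ`, `C.sepRe`); `bw_mem_intB`. -/
theorem Chart.β_mem_intB (h0 : 1 ≤ n) {ζ0 ζ : ℂ} (C : Chart n Pts ζ0) (p : Fin (2 * n) → Bool)
    (hp : (Finset.univ.filter (fun i => p i = true)).card = n)
    (h : ∀ i j, p i = true → p j = false → (C.s i ζ0).re < (C.s j ζ0).re)
    (hζ : ζ ∈ ball ζ0 C.δ) : C.β ζ ∈ intB n := by
  have h1 := srt_split (C6b_kref C) p fun i j hi hj => lkey_lt_iff.2 (Or.inl (h i j hi hj))
  have h2 := srt_split (C6b_kord C hζ) p fun i j hi hj =>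
    key_lt_of_re (C.sepRe i j (h i j hi hj) ζ hζ)
  have h3 : C.β ζ = bw (2 * n) (C.ref.filter p ++ C.ref.filter (fun i => !p i))
      ((C.ord ζ).filter p ++ (C.ord ζ).filter (fun i => !p i)) := congrArg₂ (bw (2 * n)) h1 h2
  have h4 : C.ref.Perm (C.ord ζ) := (srt_perm _).trans (srt_perm _).symm
  have h5 : C.ref.Perm (List.finRange (2 * n)) := srt_perm _
  rw [h3]
  refine bw_mem_intB h0 (C6b_nodup _ p) (h4.filter _) (h4.filter _) ?_
  rw [C6b_length h5 p, hp]

/-- PROOF. `Chart.row_eq_rowAt`, `srt_split` with `p i = decide (C.ty i = 0)`, `rowOf_rR`. -/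
theorem Chart.rowAt_rR {ζ0 : ℂ} (C : Chart n Pts ζ0)
    (hc : (Finset.univ.filter (fun i => C.ty i = 0)).card = n)
    (h : ∀ i j, C.ty i = 0 → C.ty j = 1 → (C.s i ζ0).re < (C.s j ζ0).re) :
    rowAt n Pts ζ0 = rR n := by
  have hζ := mem_ball_self (x := ζ0) C.hδ
  rw [← C.row_eq_rowAt hζ, Chart.row]
  have h2 := srt_split (C6b_kord C hζ) (fun i => decide (C.ty i = 0)) fun i j hi hj =>
    key_lt_of_re (h i j (by simpa using hi) (C6b_ty (by simpa using hj)))
  refine (C6b_rowOf C.ty h2 (srt_length _)).trans ?_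
  refine rowOf_rR C.ty ?_ _ (fun i hi => ?_) (fun i hi => ?_)
  · rw [C6b_length (srt_perm _) _]
    simpa using hc
  · rw [List.mem_filter] at hi
    simpa using hi.2
  · rw [List.mem_filter] at hi
    exact C6b_ty (by simpa using hi.2)

theorem Chart.rowAt_rL {ζ0 : ℂ} (C : Chart n Pts ζ0)
    (hc : (Finset.univ.filter (fun i => C.ty i = 0)).card = n)
    (h : ∀ i j, C.ty i = 1 → C.ty j = 0 → (C.s i ζ0).re < (C.s j ζ0).re) :
    rowAt n Pts ζ0 = rL n := by
  have hζ := mem_ball_self (x := ζ0) C.hδ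
  rw [← C.row_eq_rowAt hζ, Chart.row]
  have h2 := srt_split (C6b_kord C hζ) (fun i => decide (C.ty i = 1)) fun i j hi hj =>
    key_lt_of_re (h i j (by simpa using hi) (by
      by_contra h3
      exact (by simpa using hj : ¬C.ty j = 1) (C6b_ty h3)))
  have h4 : ∀ l : List (Fin (2 * n)), l.Perm (List.finRange (2 * n)) →
      (l.filter (fun i => decide (C.ty i = 1))).length = n := by
    intro l hl
    have h5 := C6b_length hl (fun i => decide (C.ty i = 0))
    have h6 := (List.filter_append_perm (fun i => decide (C.ty i = 0)) l).length_eq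
    have h7 : (fun i => !decide (C.ty i = 0)) = fun i => decide (C.ty i = 1) := by
      funext i
      by_cases h8 : C.ty i = 0
      · simp [h8]
      · simp [C6b_ty h8]
    rw [h7, List.length_append, h5, hl.length_eq, List.length_finRange] at h6
    have h8 : (Finset.univ.filter (fun i => decide (C.ty i = 0) = true)).card = n := by
      simpa using hc
    omega
  refine (C6b_rowOf C.ty h2 (srt_length _)).trans ?_
  refine rowOf_rL C.ty (h4 _ (srt_perm _)) _ (fun i hi => ?_) (fun i hi => ?_)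
  · rw [List.mem_filter] at hi
    simpa using hi.2
  · rw [List.mem_filter] at hi
    by_contra h3
    exact (by simpa using hi.2 : ¬C.ty i = 1) (C6b_ty h3)

/-- the element of `Chart.upper` at one parameter -/
theorem C6b_aux {ζ0 ζ : ℂ} (C : Chart n Pts ζ0)
    (h : ∀ i j, C.ty i = 0 → C.ty j = 1 → (C.s i ζ0).im < (C.s j ζ0).im)
    (hζ : ζ ∈ ball ζ0 C.δ) :
    C.β ζ * (hh (rowAt n Pts ζ))⁻¹ =
      (bw (2 * n) (C.ref.filter (fun i => decide (C.ty i = 0)) ++
        C.ref.filter (fun i => !decide (C.ty i = 0))) C.ref)⁻¹ *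
      bw (2 * n) (C.ref.filter (fun i => decide (C.ty i = 0)) ++
        C.ref.filter (fun i => !decide (C.ty i = 0)))
        ((C.ord ζ).filter (fun i => decide (C.ty i = 0)) ++
          (C.ord ζ).filter (fun i => !decide (C.ty i = 0))) := by
  set p : Fin (2 * n) → Bool := fun i => decide (C.ty i = 0) with hp
  have hk0 := C6b_kref C
  have hkz := C6b_kord C hζ
  have hh1 : hh (rowAt n Pts ζ) = bw (2 * n)
      ((C.ord ζ).filter p ++ (C.ord ζ).filter (fun i => !p i)) (C.ord ζ) := by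
    rw [← C.row_eq_rowAt hζ]
    exact hh_rowOf C.ty (srt_perm _) (srt_length _)
  have n0 : (C.ref.filter p ++ C.ref.filter (fun i => !p i)).Nodup := C6b_nodup _ p
  have p0 : (C.ref.filter p ++ C.ref.filter (fun i => !p i)).Perm (List.finRange (2 * n)) :=
    C6b_perm _ p
  have l0 : (C.ref.filter p ++ C.ref.filter (fun i => !p i)).length = 2 * n := by
    rw [p0.length_eq, List.length_finRange]
  have p1 : ((C.ord ζ).filter p ++ (C.ord ζ).filter (fun i => !p i)).Perm
      (List.finRange (2 * n)) := C6b_perm _ p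
  have p2 : C.ref.Perm (List.finRange (2 * n)) := srt_perm _
  have p3 : (C.ord ζ).Perm (List.finRange (2 * n)) := srt_perm _
  have e1 : bw (2 * n) (C.ref.filter p ++ C.ref.filter (fun i => !p i)) (C.ord ζ) =
      bw (2 * n) (C.ref.filter p ++ C.ref.filter (fun i => !p i)) C.ref * C.β ζ := by
    refine bw_mul n0 l0 (p0.trans p2.symm) (p0.trans p3.symm) ?_
    intro x _ y _ hxy hxy'
    have h1 : C6bR p (fun i => lkey (C.s i ζ0)) x y := (C6b_idx hk0 p x y).1 hxy
    have h2 : key (C.s x ζ) < key (C.s y ζ) := (srt_idx hkz x y).1 hxy'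
    refine (srt_idx hk0 x y).2 ?_
    rcases h1 with ⟨h3, h4⟩ | ⟨-, h3⟩
    · have h5 : C.ty x = 0 := by simpa [hp] using h3
      have h6 : C.ty y = 1 := C6b_ty (by simpa [hp] using h4)
      have h7 : (C.s x ζ0).re ≤ (C.s y ζ0).re := by
        by_contra h8
        have h9 := C.sepRe y x (not_le.1 h8) ζ hζ
        exact absurd h9 (not_lt.2 (re_le_of_key h2))
      rcases h7.lt_or_eq with h8 | h8
      · exact lkey_lt_iff.2 (Or.inl h8)
      · exact lkey_lt_iff.2 (Or.inr ⟨h8, h x y h5 h6⟩)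
    · exact h3
  have e2 : bw (2 * n) (C.ref.filter p ++ C.ref.filter (fun i => !p i)) (C.ord ζ) =
      bw (2 * n) (C.ref.filter p ++ C.ref.filter (fun i => !p i))
        ((C.ord ζ).filter p ++ (C.ord ζ).filter (fun i => !p i)) *
      bw (2 * n) ((C.ord ζ).filter p ++ (C.ord ζ).filter (fun i => !p i)) (C.ord ζ) := by
    refine bw_mul n0 l0 (p0.trans p1.symm) (p0.trans p3.symm) ?_
    intro x _ y _ hxy hxy'
    have h1 : C6bR p (fun i => lkey (C.s i ζ0)) x y := (C6b_idx hk0 p x y).1 hxy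
    have h2 : key (C.s x ζ) < key (C.s y ζ) := (srt_idx hkz x y).1 hxy'
    refine (C6b_idx hkz p x y).2 ?_
    rcases h1 with h3 | ⟨h3, -⟩
    · exact Or.inl h3
    · exact Or.inr ⟨h3, h2⟩
  rw [hh1]
  have h2 : ∀ a b c d : Brd (2 * n), a * b = c * d → b * d⁻¹ = a⁻¹ * c := by
    intro a b c d h3
    rw [mul_inv_eq_iff_eq_mul, mul_assoc, eq_inv_mul_iff_mul_eq, h3]
  exact h2 _ _ _ _ (e1.symm.trans e2)

/-- type 0 below type 1
PROOF. Write `p i = decide (C.ty i = 0)`, `l0 = C.ref.filter p ++ C.ref.filter (!p)`,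
`l ζ = (C.ord ζ).filter p ++ (C.ord ζ).filter (!p)`. `hh (rowAt n Pts ζ) = bw (l ζ) (C.ord ζ)`
(`Chart.row_eq_rowAt`, `hh_rowOf`).
(i) `bw l0 (ord ζ) = bw l0 ref * bw ref (ord ζ)`: let `x` be before `y` in `l0` and in `ord ζ`. Same
type: same order in `ref`. Otherwise `x` has type 0, `y` type 1 (in `l0` the type 0 comes first).
`Re (s x ζ0) > Re (s y ζ0)` is impossible: `C.sepRe` and `key (s x ζ) < key (s y ζ)`. So
`Re (s x ζ0) ≤ Re (s y ζ0)`, and in case of equality `Im (s x ζ0) < Im (s y ζ0)` by `h`: `x` is before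
`y` in `ref`.
(ii) `bw l0 (ord ζ) = bw l0 (l ζ) * bw (l ζ) (ord ζ)`: same type: same order in `l ζ` as in `ord ζ`;
different types: type 0 first in `l0` and in `l ζ`.
So `C.β ζ * (hh (rowAt ζ))⁻¹ = (bw l0 ref)⁻¹ * bw l0 (l ζ)`, the same at `ζ0`, and the element is
`(bw l0 (l ζ0))⁻¹ * bw l0 (l ζ)`, in `intB n` by `bw_mem_intB`. -/
theorem Chart.upper (h0 : 1 ≤ n) {ζ0 ζ : ℂ} (C : Chart n Pts ζ0)
    (hc : (Finset.univ.filter (fun i => C.ty i = 0)).card = n)
    (h : ∀ i j, C.ty i = 0 → C.ty j = 1 → (C.s i ζ0).im < (C.s j ζ0).im)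
    (hζ : ζ ∈ ball ζ0 C.δ) :
    (C.β ζ0 * (hh (rowAt n Pts ζ0))⁻¹)⁻¹ * (C.β ζ * (hh (rowAt n Pts ζ))⁻¹) ∈ intB n := by
  have hint : ∀ z : ℂ, bw (2 * n) (C.ref.filter (fun i => decide (C.ty i = 0)) ++
      C.ref.filter (fun i => !decide (C.ty i = 0)))
      ((C.ord z).filter (fun i => decide (C.ty i = 0)) ++
        (C.ord z).filter (fun i => !decide (C.ty i = 0))) ∈ intB n := by
    intro z
    have h4 : C.ref.Perm (C.ord z) := (srt_perm _).trans (srt_perm _).symm
    have h5 : C.ref.Perm (List.finRange (2 * n)) := srt_perm _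
    refine bw_mem_intB h0 (C6b_nodup _ _) (h4.filter _) (h4.filter _) ?_
    rw [C6b_length h5 _]
    simpa using hc
  rw [C6b_aux C h hζ, C6b_aux C h (mem_ball_self C.hδ)]
  have h1 := (intB n).mul_mem ((intB n).inv_mem (hint ζ0)) (hint ζ)
  have h2 : ∀ a b c : Brd (2 * n), (a⁻¹ * b)⁻¹ * (a⁻¹ * c) = b⁻¹ * c := fun a b c => by group
  rw [h2]
  exact h1

end Pool.Agent.HK
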