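import Pool.Agent.H.MP_cd3d06_an.K.Ckey

/-! MP_cd3d06_an, part C, module Cmatch: matching of sections -/

namespace Pool.Agent.HK

open Complex Set Metric Filter Topology
open scoped ComplexConjugate

/-- matching at one point. PROOF. The map `i ↦` the unique `j` with `(s' j, ty' j) = (s i, ty i)` is injective,
hence bijective (`Finite.injective_iff_bijective`, `Equiv.ofBijective`). -/
theorem match_at {N : ℕ} {s s' : Fin N → ℂ} {ty ty' : Fin N → ZMod 2} (hi : Function.Injective s)
    (h : range (fun i => (s i, ty i)) = range (fun i => (s' i, ty' i))) :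
    ∃ τ : Fin N ≃ Fin N, ∀ i, s i = s' (τ i) ∧ ty i = ty' (τ i) := by
  have h1 : ∀ i, ∃ j, s i = s' j ∧ ty i = ty' j := by
    intro i
    have h2 : (s i, ty i) ∈ range (fun i => (s' i, ty' i)) := h ▸ mem_range_self i
    obtain ⟨j, hj⟩ := h2
    exact ⟨j, (congrArg Prod.fst hj).symm, (congrArg Prod.snd hj).symm⟩
  choose f hf using h1
  have hinj : Function.Injective f := by
    intro i j hij
    apply hi
    rw [(hf i).1, (hf j).1, hij]
  exact ⟨Equiv.ofBijective f (Finite.injective_iff_bijective.1 hinj), hf⟩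

/-- C2c: matching. Two families of typed sections of the same sets, continuous at `x0` within `Y`,
agree near `x0` up to a relabelling.

Proof: at `x0` both `i ↦ (s i x0, ty i)` and `i ↦ (s' i x0, ty' i)` have the same range; `match_at` gives `τ`
with `s i x0 = s' (τ i) x0`, `ty i = ty' (τ i)`. Let `3 r` be at most the smallest distance of different
points `s' i x0`. For `x` near `x0` in `Y` all sections of both families move by less than `r` (finitely many:
`Filter.eventually_all`). For such an `x` and `i`, the point `(s i x, ty i)` is `(s' j x, ty' j)` for some `j`;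
`dist (s' (τ i) x0) (s' j x0) < 2 r`, hence `j = τ i`. -/
theorem match_sections {X : Type*} [TopologicalSpace X] {N : ℕ} {Y : Set X} {x0 : X}
    {P : X → Set TP} {s s' : Fin N → X → ℂ} {ty ty' : Fin N → ZMod 2} (hx0 : x0 ∈ Y)
    (hs : ∀ i, ContinuousWithinAt (s i) Y x0) (hs' : ∀ i, ContinuousWithinAt (s' i) Y x0)
    (hi : Function.Injective (fun i => s i x0)) (hi' : Function.Injective (fun i => s' i x0))
    (hP : ∀ᶠ x in 𝓝[Y] x0, P x = range (fun i => (s i x, ty i)))
    (hP' : ∀ᶠ x in 𝓝[Y] x0, P x = range (fun i => (s' i x, ty' i))) :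
    ∃ τ : Fin N ≃ Fin N, (∀ i, ty i = ty' (τ i)) ∧ ∀ᶠ x in 𝓝[Y] x0, ∀ i, s i x = s' (τ i) x := by
  have h0 : range (fun i => (s i x0, ty i)) = range (fun i => (s' i x0, ty' i)) := by
    rw [← hP.self_of_nhdsWithin hx0, ← hP'.self_of_nhdsWithin hx0]
  obtain ⟨τ, hτ⟩ := match_at hi h0
  refine ⟨τ, fun i => (hτ i).2, ?_⟩
  have h1 : ∀ᶠ x in 𝓝[Y] x0, ∀ i j, j ≠ τ i → s i x ≠ s' j x := by
    rw [Filter.eventually_all]
    intro i
    rw [Filter.eventually_all]
    intro j
    by_cases hj : j = τ i
    · exact Filter.Eventually.of_forall fun x h => absurd hj h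
    · have h2 : s i x0 ≠ s' j x0 := by
        intro h3
        exact hj (hi' (h3.symm.trans (hτ i).1))
      have h4 : ∀ᶠ x in 𝓝[Y] x0, s i x - s' j x ≠ 0 :=
        ((hs i).sub (hs' j)).eventually_ne (sub_ne_zero.2 h2)
      filter_upwards [h4] with x hx _
      exact sub_ne_zero.1 hx
  filter_upwards [hP, hP', h1] with x hx hx' hx1 i
  have h5 : (s i x, ty i) ∈ range (fun i => (s' i x, ty' i)) := by
    rw [← hx', hx]
    exact mem_range_self i
  obtain ⟨j, hj⟩ := h5
  have h6 : s' j x = s i x := congrArg Prod.fst hj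
  by_cases h7 : j = τ i
  · rw [← h7, h6]
  · exact absurd h6.symm (hx1 i j h7)

end Pool.Agent.HK
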