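import Pool.Agent.H.MP_cd3d06_an.K.Cchart
import Pool.Agent.H.MP_cd3d06_an.K.Cmatch

/-! MP_cd3d06_an, part C, module Cadm: admissible lists -/

namespace Pool.Agent.HK

open Complex Set Metric Filter Topology
open scoped ComplexConjugate

variable {n : ℕ} {Pts : ℂ → Set TP}

/-- the real parts of `s i`, `s j` at `x0` are different: then the keys keep their order near `x0` -/
theorem eventually_not_key_lt {X : Type*} [TopologicalSpace X] {Y : Set X} {x0 : X}
    {s s' : X → ℂ} (hs : ContinuousWithinAt s Y x0) (hs' : ContinuousWithinAt s' Y x0)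
    (h : (s' x0).re < (s x0).re) : ∀ᶠ x in 𝓝[Y] x0, ¬ key (s x) < key (s' x) := by
  have h1 : Tendsto (fun x => (s x).re) (𝓝[Y] x0) (𝓝 (s x0).re) :=
    (Complex.continuous_re.tendsto _).comp hs
  have h2 : Tendsto (fun x => (s' x).re) (𝓝[Y] x0) (𝓝 (s' x0).re) :=
    (Complex.continuous_re.tendsto _).comp hs'
  filter_upwards [h2.eventually_lt h1 h] with x hx hk
  exact lt_asymm hk (key_lt_of_re hx)

/-- C2d: near a regular parameter the canonical braid of an admissible list changes exactly as the
coordinate of a chart.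

`s` are sections along `γ`, continuous at `x0` within `Y`; the list `l` is admissible near `x0`: for `i`
before `j` either `Re s i < Re s j` or `Im s i < Im s j` throughout. Then
`x ↦ bw l (canonical list at x)` is a primitive at `x0`.

Proof: let `C` be a chart at `γ x0`, `τ` the matching of `s i` with `C.s i ∘ γ` (`match_sections`; `C.s i ∘ γ`
is continuous at `x0` within `Y` because the ball is open). By `bw_relabel`, `srt_map`:
`C.β (γ x) = bw ref (ord x)` for `x` near `x0`, with `ref = srt (lkey (s i x0))`, `ord x = srt (key (s i x))`.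
Claim: `bw l (ord x) = bw l ref * bw ref (ord x)` near `x0` and at `x0` (`bw_mul` with `μ = ref`). Let `i` be
before `j` in `l` and in `ord x`; we need `lkey (s i x0) < lkey (s j x0)`. If `Re s i < Re s j` throughout:
clear. Otherwise `Im s i < Im s j` throughout; if `Re s i x0 ≤ Re s j x0` clear; if `Re s i x0 > Re s j x0`,
then this is so at `x`, too (only finitely many such conditions, `x` near `x0`), contradicting
`key (s i x) < key (s j x)`.  Finally
`f x = bw l ref * C.β (γ x)`, `f x0 = bw l ref * C.β (γ x0)`, so `f x = f x0 * (C.β (γ x0))⁻¹ * C.β (γ x)`. -/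
theorem primAt_of_adm {X : Type*} [TopologicalSpace X] {γ : X → ℂ} {Y : Set X} {x0 : X}
    (hx0 : x0 ∈ Y) (hγ : ContinuousWithinAt γ Y x0) (hreg : IsRegPt n Pts (γ x0))
    {s : Fin (2 * n) → X → ℂ} {ty : Fin (2 * n) → ZMod 2}
    (hs : ∀ i, ContinuousWithinAt (s i) Y x0) (hi : Function.Injective (fun i => s i x0))
    (hP : ∀ᶠ x in 𝓝[Y] x0, Pts (γ x) = range (fun i => (s i x, ty i)))
    {l : List (Fin (2 * n))} (hl : l.Perm (List.finRange (2 * n)))
    (hadm : ∀ i j, l.idxOf i < l.idxOf j →
      (∀ᶠ x in 𝓝[Y] x0, (s i x).re < (s j x).re) ∨ (∀ᶠ x in 𝓝[Y] x0, (s i x).im < (s j x).im)) :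
    PrimAt n Pts γ (fun x => bw (2 * n) l (srt (fun i => key (s i x)))) Y x0 := by
  obtain ⟨C, -⟩ := exists_chart hreg one_pos
  have hball : ∀ᶠ x in 𝓝[Y] x0, γ x ∈ ball (γ x0) C.δ := hγ (ball_mem_nhds _ C.hδ)
  have hs' : ∀ i, ContinuousWithinAt (fun x => C.s i (γ x)) Y x0 := fun i =>
    ((C.cont i).continuousAt (ball_mem_nhds _ C.hδ)).comp_continuousWithinAt hγ
  have hP' : ∀ᶠ x in 𝓝[Y] x0, Pts (γ x) = range (fun i => (C.s i (γ x), C.ty i)) := by
    filter_upwards [hball] with x hx
    exact C.pts _ hx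
  obtain ⟨τ, -, hτ⟩ := match_sections (P := fun x => Pts (γ x))
    (s' := fun i x => C.s i (γ x)) hx0 hs hs' hi (C.inj _ (mem_ball_self C.hδ)) hP hP'
  have hτ0 : ∀ i, s i x0 = C.s (τ i) (γ x0) := hτ.self_of_nhdsWithin hx0
  -- the reference list
  set ref := srt (fun i => lkey (s i x0)) with href
  have hCref : C.ref = ref.map τ := by
    rw [href, Chart.ref, ← srt_map (k := fun i => lkey (C.s i (γ x0)))
      (lkey_injective.comp (C.inj _ (mem_ball_self C.hδ))) τ]
    simp only [hτ0]
  -- the chart coordinate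
  have hβ : ∀ᶠ x in 𝓝[Y] x0, C.β (γ x) = bw (2 * n) ref (srt (fun i => key (s i x))) ∧
      Function.Injective (fun i => key (s i x)) := by
    filter_upwards [hball, hτ] with x hx hx'
    have hinj : Function.Injective (fun i => key (C.s i (γ x))) :=
      key_injective.comp (C.inj _ hx)
    have hord : C.ord (γ x) = (srt (fun i => key (s i x))).map τ := by
      rw [Chart.ord, ← srt_map (k := fun i => key (C.s i (γ x))) hinj τ]
      simp only [hx']
    refine ⟨?_, ?_⟩
    · rw [Chart.β, hCref, hord]
      exact bw_relabel (2 * n) τ ((srt_perm _).trans (srt_perm _).symm)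
    · have : (fun i => key (s i x)) = (fun i => key (C.s i (γ x))) ∘ τ := by
        funext i
        simp only [Function.comp, hx']
      rw [this]
      exact hinj.comp τ.injective
  have hadm' : ∀ᶠ x in 𝓝[Y] x0, ∀ i j, l.idxOf i < l.idxOf j → key (s i x) < key (s j x) →
      lkey (s i x0) < lkey (s j x0) := by
    rw [Filter.eventually_all]
    intro i
    rw [Filter.eventually_all]
    intro j
    by_cases hij : l.idxOf i < l.idxOf j
    · rcases hadm i j hij with h | h
      · have h0 := h.self_of_nhdsWithin hx0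
        exact Filter.Eventually.of_forall fun x _ _ => lkey_lt_iff.2 (Or.inl h0)
      · have h0 := h.self_of_nhdsWithin hx0
        rcases lt_trichotomy (s i x0).re (s j x0).re with h1 | h1 | h1
        · exact Filter.Eventually.of_forall fun x _ _ => lkey_lt_iff.2 (Or.inl h1)
        · exact Filter.Eventually.of_forall fun x _ _ => lkey_lt_iff.2 (Or.inr ⟨h1, h0⟩)
        · filter_upwards [eventually_not_key_lt (hs i) (hs j) h1] with x hx _ hk
          exact absurd hk hx
    · exact Filter.Eventually.of_forall fun x h _ => absurd h hij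
  have hmain : ∀ᶠ x in 𝓝[Y] x0,
      bw (2 * n) l (srt (fun i => key (s i x))) = bw (2 * n) l ref * C.β (γ x) := by
    filter_upwards [hβ, hadm'] with x hx hx'
    rw [hx.1]
    refine bw_mul (hl.nodup_iff.2 (List.nodup_finRange _)) ?_ (hl.trans (srt_perm _).symm)
      (hl.trans (srt_perm _).symm) ?_
    · rw [hl.length_eq, List.length_finRange]
    · intro i _ j _ h1 h2
      rw [href, srt_idx (k := fun i => lkey (s i x0)) (lkey_injective.comp hi)]
      rw [srt_idx (k := fun i => key (s i x)) hx.2] at h2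
      exact hx' i j h1 h2
  have hmain0 := hmain.self_of_nhdsWithin hx0
  refine ⟨C, ?_⟩
  filter_upwards [hmain] with x hx
  rw [hx, hmain0, mul_inv_cancel_right]

/-- left multiples of primitives are primitives, locally -/
theorem PrimAt.mul_left {X : Type*} [TopologicalSpace X] {γ : X → ℂ} {f f' : X → Brd (2 * n)}
    {Y : Set X} {x0 : X} (hx0 : x0 ∈ Y) (h : PrimAt n Pts γ f Y x0) (g : Brd (2 * n))
    (hf' : ∀ᶠ x in 𝓝[Y] x0, f' x = g * f x) : PrimAt n Pts γ f' Y x0 := by
  obtain ⟨C, hC⟩ := h
  refine ⟨C, ?_⟩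
  have h0 := hf'.self_of_nhdsWithin hx0
  filter_upwards [hC, hf'] with x h1 h2
  rw [h2, h1, h0]
  simp only [mul_assoc]

end Pool.Agent.HK
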