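import Pool.Agent.H.MP_cd3d06_an.K.Cadm

/-! MP_cd3d06_an, part C, module Cany: independence of the chart -/

namespace Pool.Agent.HK

open Complex Set Metric Filter Topology
open scoped ComplexConjugate

variable {n : ℕ} {Pts : ℂ → Set TP}

/-- charts with the same centre have the same coordinate near the centre.
PROOF. Match the sections of `C` and `C'` near `ζ0` (`match_sections`, `X = ℂ`, `Y = univ`): `C.s i ζ = C'.s (τ i) ζ`
near `ζ0` and at `ζ0`; so `C.ref.map τ = C'.ref` and `(C.ord ζ).map τ = C'.ord ζ` (`srt_map`), `bw_relabel`. -/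
theorem Chart.β_eq {ζ0 : ℂ} (C C' : Chart n Pts ζ0) : ∀ᶠ ζ in 𝓝 ζ0, C.β ζ = C'.β ζ := by
  have hb : ∀ᶠ ζ in 𝓝 ζ0, ζ ∈ ball ζ0 C.δ := ball_mem_nhds _ C.hδ
  have hb' : ∀ᶠ ζ in 𝓝 ζ0, ζ ∈ ball ζ0 C'.δ := ball_mem_nhds _ C'.hδ
  obtain ⟨τ, -, hτ⟩ := match_sections (P := Pts) (s := C.s) (s' := C'.s) (Y := univ) (x0 := ζ0)
    (mem_univ _)
    (fun i => ((C.cont i).continuousAt (ball_mem_nhds _ C.hδ)).continuousWithinAt)
    (fun i => ((C'.cont i).continuousAt (ball_mem_nhds _ C'.hδ)).continuousWithinAt)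
    (C.inj _ (mem_ball_self C.hδ)) (C'.inj _ (mem_ball_self C'.hδ))
    (by
      rw [nhdsWithin_univ]
      filter_upwards [hb] with ζ hζ
      exact C.pts ζ hζ)
    (by
      rw [nhdsWithin_univ]
      filter_upwards [hb'] with ζ hζ
      exact C'.pts ζ hζ)
  rw [nhdsWithin_univ] at hτ
  have hτ0 : ∀ i, C.s i ζ0 = C'.s (τ i) ζ0 := hτ.self_of_nhds
  have href : C'.ref = C.ref.map τ := by
    rw [Chart.ref, Chart.ref, ← srt_map (k := fun i => lkey (C'.s i ζ0))
      (lkey_injective.comp (C'.inj _ (mem_ball_self C'.hδ))) τ]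
    simp only [hτ0]
  filter_upwards [hb', hτ] with ζ hζ hζ'
  have hord : C'.ord ζ = (C.ord ζ).map τ := by
    rw [Chart.ord, Chart.ord, ← srt_map (k := fun i => key (C'.s i ζ))
      (key_injective.comp (C'.inj _ hζ)) τ]
    simp only [hζ']
  rw [Chart.β, Chart.β, href, hord]
  exact (bw_relabel (2 * n) τ ((srt_perm _).trans (srt_perm _).symm)).symm

/-- C2e: the chart does not matter. (`Chart.β_eq`, pulled back by `γ`, continuous at `x0` within `Y`.) -/
theorem PrimAt.any {X : Type*} [TopologicalSpace X] {γ : X → ℂ} {f : X → Brd (2 * n)}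
    {Y : Set X} {x0 : X} (hx0 : x0 ∈ Y) (hγ : ContinuousWithinAt γ Y x0)
    (h : PrimAt n Pts γ f Y x0) (C : Chart n Pts (γ x0)) :
    ∀ᶠ x in 𝓝[Y] x0, f x = f x0 * (C.β (γ x0))⁻¹ * C.β (γ x) := by
  obtain ⟨C', hC'⟩ := h
  have h1 : ∀ᶠ x in 𝓝[Y] x0, C.β (γ x) = C'.β (γ x) := hγ.eventually (Chart.β_eq C C')
  filter_upwards [hC', h1] with x hx hx1
  rw [hx, hx1, (Chart.β_eq C C').self_of_nhds]

/-- C2f: the coordinate of a chart is a primitive on the ball. (`primAt_of_adm` with `γ = id`, `l = C.ref`;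
admissibility from `C.sepRe`, `C.sepIm`, `lkey_lt_iff`, `srt_idx`; regularity from `Chart.isRegPt`.) -/
theorem Chart.isPrim {ζ0 : ℂ} (C : Chart n Pts ζ0) : IsPrim n Pts id C.β (ball ζ0 C.δ) := by
  intro ζ1 hζ1
  have hlk : Function.Injective (fun i => lkey (C.s i ζ0)) :=
    lkey_injective.comp (C.inj _ (mem_ball_self C.hδ))
  refine primAt_of_adm (γ := id) (s := C.s) (ty := C.ty) (l := C.ref) hζ1
    continuousWithinAt_id (C.isRegPt hζ1) (fun i => C.cont i ζ1 hζ1) (C.inj _ hζ1) ?_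
    (srt_perm _) ?_
  · filter_upwards [self_mem_nhdsWithin] with ζ hζ
    exact C.pts ζ hζ
  · intro i j hij
    have h1 : lkey (C.s i ζ0) < lkey (C.s j ζ0) := (srt_idx hlk i j).1 hij
    rcases lkey_lt_iff.1 h1 with h2 | ⟨h2, h3⟩
    · left
      filter_upwards [self_mem_nhdsWithin] with ζ hζ
      exact C.sepRe i j h2 ζ hζ
    · right
      filter_upwards [self_mem_nhdsWithin] with ζ hζ
      exact C.sepIm i j h2 h3 ζ hζ

/-- the canonical row does not depend on the chart.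
PROOF. `match_at` for the values of the sections at `ζ` gives `τ` with `(C.ord ζ).map τ = C'.ord ζ`
(`srt_map`) and `C.ty i = C'.ty (τ i)`; compare the entries of `rowOf`. -/
theorem Chart.row_eq {ζ0 ζ1 ζ : ℂ} (C : Chart n Pts ζ0) (C' : Chart n Pts ζ1)
    (h : ζ ∈ ball ζ0 C.δ) (h' : ζ ∈ ball ζ1 C'.δ) : C.row ζ = C'.row ζ := by
  have h0 : range (fun i => (C.s i ζ, C.ty i)) = range (fun i => (C'.s i ζ, C'.ty i)) := by
    rw [← C.pts ζ h, ← C'.pts ζ h']
  obtain ⟨τ, hτ⟩ := match_at (C.inj ζ h) h0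
  have hord : C'.ord ζ = (C.ord ζ).map τ := by
    rw [Chart.ord, Chart.ord, ← srt_map (k := fun i => key (C'.s i ζ))
      (key_injective.comp (C'.inj _ h')) τ]
    simp only [fun i => (hτ i).1]
  rw [Chart.row, Chart.row, Perm_rowOf, Perm_rowOf, hord, List.map_map]
  congr 1
  refine List.map_congr_left fun i _ => ?_
  exact (hτ i).2

end Pool.Agent.HK
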