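import Pool.Agent.H.MP_cd3d06_an.K.Ckey

/-! MP_cd3d06_an, part C, module Cchart: charts exist -/

namespace Pool.Agent.HK

open Complex Set Metric Filter Topology
open scoped ComplexConjugate

variable {n : ℕ} {Pts : ℂ → Set TP}

/-- C2b: charts exist, as small as we like.

Proof: take `δ, s, ty` from `IsRegPt`. For each pair `i, j` with `(s i ζ0).re < (s j ζ0).re` the set
where this holds is a neighbourhood of `ζ0` (continuity of `s i, s j` at the centre of the ball), and
similarly for `im`; intersect the finitely many neighbourhoods (`Filter.eventually_all` for `Fin`),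
get a ball of radius `δ' ≤ min δ ε` and restrict everything. -/
theorem exists_chart {ζ0 : ℂ} (h : IsRegPt n Pts ζ0) {ε : ℝ} (hε : 0 < ε) :
    ∃ C : Chart n Pts ζ0, C.δ ≤ ε := by
  obtain ⟨δ, s, ty, hδ, hc, hp⟩ := h
  have hat : ∀ i, ContinuousAt (s i) ζ0 := fun i => (hc i).continuousAt (ball_mem_nhds ζ0 hδ)
  have h1 : ∀ᶠ ζ in 𝓝 ζ0, ∀ i j, (s i ζ0).re < (s j ζ0).re → (s i ζ).re < (s j ζ).re := by
    rw [eventually_all]
    intro i
    rw [eventually_all]
    intro j
    by_cases hij : (s i ζ0).re < (s j ζ0).re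
    · have ci : ContinuousAt (fun ζ => (s i ζ).re) ζ0 :=
        Complex.continuous_re.continuousAt.comp (hat i)
      have cj : ContinuousAt (fun ζ => (s j ζ).re) ζ0 :=
        Complex.continuous_re.continuousAt.comp (hat j)
      filter_upwards [ci.eventually_lt cj hij] with ζ hζ _
      exact hζ
    · exact Eventually.of_forall fun ζ h => absurd h hij
  have h2 : ∀ᶠ ζ in 𝓝 ζ0, ∀ i j, (s i ζ0).im < (s j ζ0).im → (s i ζ).im < (s j ζ).im := by
    rw [eventually_all]
    intro i
    rw [eventually_all]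
    intro j
    by_cases hij : (s i ζ0).im < (s j ζ0).im
    · have ci : ContinuousAt (fun ζ => (s i ζ).im) ζ0 :=
        Complex.continuous_im.continuousAt.comp (hat i)
      have cj : ContinuousAt (fun ζ => (s j ζ).im) ζ0 :=
        Complex.continuous_im.continuousAt.comp (hat j)
      filter_upwards [ci.eventually_lt cj hij] with ζ hζ _
      exact hζ
    · exact Eventually.of_forall fun ζ h => absurd h hij
  obtain ⟨r, hr, hball⟩ := Metric.eventually_nhds_iff_ball.1 (h1.and h2)
  have hsub : ball ζ0 (min (min δ ε) r) ⊆ ball ζ0 δ :=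
    ball_subset_ball ((min_le_left _ _).trans (min_le_left _ _))
  have hsub2 : ball ζ0 (min (min δ ε) r) ⊆ ball ζ0 r := ball_subset_ball (min_le_right _ _)
  refine ⟨{ δ := min (min δ ε) r
            hδ := lt_min (lt_min hδ hε) hr
            s := s
            ty := ty
            cont := fun i => (hc i).mono hsub
            inj := fun ζ hζ => (hp ζ (hsub hζ)).1
            pts := fun ζ hζ => (hp ζ (hsub hζ)).2
            sepRe := fun i j hij ζ hζ => (hball ζ (hsub2 hζ)).1 i j hij
            sepIm := fun i j _ hij ζ hζ => (hball ζ (hsub2 hζ)).2 i j hij }, ?_⟩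
  exact (min_le_left _ _).trans (min_le_right _ _)

/-- a point in the ball of a chart is regular -/
theorem Chart.isRegPt {ζ0 : ℂ} (C : Chart n Pts ζ0) {ζ1 : ℂ} (h : ζ1 ∈ ball ζ0 C.δ) :
    IsRegPt n Pts ζ1 := by
  have hd : 0 < C.δ - dist ζ1 ζ0 := by
    have := mem_ball.1 h
    linarith
  have hsub : ball ζ1 (C.δ - dist ζ1 ζ0) ⊆ ball ζ0 C.δ :=
    ball_subset_ball' (by linarith)
  exact ⟨C.δ - dist ζ1 ζ0, C.s, C.ty, hd, fun i => (C.cont i).mono hsub,
    fun ζ hζ => ⟨C.inj ζ (hsub hζ), C.pts ζ (hsub hζ)⟩⟩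

/-- the mirror image of a regular point is regular: `s' i ζ = - conj (s i (conj ζ))`,
`ty' i = ty i + 1` -/
theorem IsRegPt.conj (hm : ∀ ζ, Pts (conj ζ) = mir '' Pts ζ) {ζ0 : ℂ} (h : IsRegPt n Pts ζ0) :
    IsRegPt n Pts (conj ζ0) := by
  obtain ⟨δ, s, ty, hδ, hc, hp⟩ := h
  have hmem : ∀ ζ ∈ ball (conj ζ0) δ, conj ζ ∈ ball ζ0 δ := by
    intro ζ hζ
    rw [mem_ball] at hζ ⊢
    have e : dist (conj ζ) ζ0 = dist ζ (conj ζ0) := by
      rw [← Complex.dist_conj_conj, Complex.conj_conj]
    rw [e]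
    exact hζ
  refine ⟨δ, fun i ζ => -conj (s i (conj ζ)), fun i => ty i + 1, hδ, fun i => ?_,
    fun ζ hζ => ⟨?_, ?_⟩⟩
  · have h1 : ContinuousOn (fun ζ => s i (conj ζ)) (ball (conj ζ0) δ) :=
      (hc i).comp Complex.continuous_conj.continuousOn hmem
    exact (Complex.continuous_conj.comp_continuousOn h1).neg
  · intro i j hij
    have h2 : s i (conj ζ) = s j (conj ζ) := by
      have h3 : conj (s i (conj ζ)) = conj (s j (conj ζ)) := neg_injective hij
      exact (starRingEnd ℂ).injective h3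
    exact (hp _ (hmem ζ hζ)).1 h2
  · have h4 : Pts ζ = mir '' Pts (conj ζ) := by
      rw [← hm (conj ζ), Complex.conj_conj]
    rw [h4, (hp _ (hmem ζ hζ)).2, ← range_comp]
    rfl

end Pool.Agent.HK
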