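import Pool.Agent.H.MP_cd3d06_an.K.PermB
import Pool.Agent.H.MP_cd3d06_an.K.Brd

/-!
Part B: the positive permutation braids `bw ρ π` that rearrange the list `ρ` into the list `π`.
-/

namespace Pool.Agent.HK

variable {α : Type*} [DecidableEq α]

theorem Perm_idxOf_map {β : Type*} [DecidableEq β] (f : α → β) :
    ∀ {ρ : List α} {y : α}, (∀ x ∈ ρ, f x = f y → x = y) → y ∈ ρ →
      (ρ.map f).idxOf (f y) = ρ.idxOf y
  | [], y, _, hy => by simp at hy
  | x :: ρ, y, hf, hy => by
    by_cases hxy : x = y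
    · subst hxy
      simp
    · have h1 : f x ≠ f y := fun h => hxy (hf x (by simp) h)
      have h2 : y ∈ ρ := by
        rcases List.mem_cons.1 hy with h | h
        · exact absurd h.symm hxy
        · exact h
      rw [List.map_cons, List.idxOf_cons_ne _ h1, List.idxOf_cons_ne _ hxy,
        Perm_idxOf_map f (fun z hz => hf z (List.mem_cons_of_mem _ hz)) h2]

theorem Perm_map_erase {β : Type*} [DecidableEq β] (f : α → β) :
    ∀ {ρ : List α} {y : α}, (∀ x ∈ ρ, f x = f y → x = y) → y ∈ ρ →
      (ρ.map f).erase (f y) = (ρ.erase y).map f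
  | [], y, _, hy => by simp at hy
  | x :: ρ, y, hf, hy => by
    by_cases hxy : x = y
    · subst hxy
      simp
    · have h1 : f x ≠ f y := fun h => hxy (hf x (by simp) h)
      have h2 : y ∈ ρ := by
        rcases List.mem_cons.1 hy with h | h
        · exact absurd h.symm hxy
        · exact h
      rw [List.map_cons, List.erase_cons_tail (by simpa using h1),
        List.erase_cons_tail (by simpa using hxy), List.map_cons,
        Perm_map_erase f (fun z hz => hf z (List.mem_cons_of_mem _ hz)) h2]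

theorem Perm_bwl_map {β : Type*} [DecidableEq β] (f : α → β) :
    ∀ {π ρ : List α}, (∀ x ∈ ρ, ∀ y ∈ ρ, f x = f y → x = y) → ρ.Perm π →
      bwl (ρ.map f) (π.map f) = bwl ρ π
  | [], ρ, _, _ => rfl
  | y :: π, ρ, hf, h => by
    have hy : y ∈ ρ := h.symm.subset (by simp)
    have h1 : (ρ.erase y).Perm π := by
      have := h.erase y
      rwa [List.erase_cons_head] at this
    rw [List.map_cons, bwl, bwl, Perm_idxOf_map f (fun x hx => hf x hx y hy) hy,
      Perm_map_erase f (fun x hx => hf x hx y hy) hy,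
      Perm_bwl_map f (fun x hx z hz => hf x (List.mem_of_mem_erase hx) z (List.mem_of_mem_erase hz))
        h1]

/-- PROOF. Show `bwl (ρ.map f) (π.map f) = bwl ρ π` by induction on `π`: `idxOf` and `erase` commute with an injective map (on the elements of the list). -/
theorem bw_map {β : Type*} [DecidableEq β] (N : ℕ) (f : α → β) {ρ π : List α}
    (hf : ∀ x ∈ ρ, ∀ y ∈ ρ, f x = f y → x = y) (h : ρ.Perm π) :
    bw N (ρ.map f) (π.map f) = bw N ρ π := by
  unfold bw
  rw [Perm_bwl_map f hf h]

/-- the canonical row of a list of typed points -/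
def rowOf (N : ℕ) (ty : α → ZMod 2) (ρ : List α) (hρ : ρ.length = N) : Row N :=
  fun j => ty (ρ.get (j.cast hρ.symm)) + ((j : ℕ) : ZMod 2)

/-- the row of a list of types -/
def Perm_row (N : ℕ) (τ : List (ZMod 2)) : Row N := fun j => τ.getD j 0 + ((j : ℕ) : ZMod 2)

omit [DecidableEq α] in
theorem Perm_rowOf (N : ℕ) (ty : α → ZMod 2) (ρ : List α) (hρ : ρ.length = N) :
    rowOf N ty ρ hρ = Perm_row N (ρ.map ty) := by
  funext j
  unfold rowOf Perm_row
  have hj : (j : ℕ) < (ρ.map ty).length := by rw [List.length_map, hρ]; exact j.2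
  rw [List.getD_eq_getElem _ _ hj, List.getElem_map]
  rfl

theorem Perm_letter (N : ℕ) (τ1 τ2 : List (ZMod 2)) (a b : ZMod 2)
    (hN : (τ1 ++ a :: b :: τ2).length = N) :
    fing (Perm_row N (τ1 ++ a :: b :: τ2)) (sg N τ1.length) =
      Perm_row N (τ1 ++ b :: a :: τ2) := by
  have hi : τ1.length + 1 < N := by
    rw [← hN]; simp
  have h1 : sg N τ1.length = el N [(τ1.length, true)] := by simp [el]
  rw [h1, fing_el]
  have h2 : tw N [(τ1.length, true)] = [⟨⟨τ1.length, by omega⟩, ⟨τ1.length + 1, hi⟩,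
      by simp [Fin.ext_iff], true⟩] := by
    simp [tw, hi]
  rw [h2]
  unfold Pool.Agent.HK.fin
  unfold Pool.Agent.HK.fin
  have ga : ∀ (c d : ZMod 2), (τ1 ++ c :: d :: τ2).getD τ1.length 0 = c := by
    intro c d
    rw [List.getD_append_right _ _ _ _ le_rfl, Nat.sub_self]
    rfl
  have gb : ∀ (c d : ZMod 2), (τ1 ++ c :: d :: τ2).getD (τ1.length + 1) 0 = d := by
    intro c d
    rw [List.getD_append_right _ _ _ _ (Nat.le_add_right _ 1), Nat.add_sub_cancel_left]
    rfl
  have gc : ∀ (c d : ZMod 2) (j : ℕ), j ≠ τ1.length → j ≠ τ1.length + 1 →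
      (τ1 ++ c :: d :: τ2).getD j 0 = (τ1 ++ a :: b :: τ2).getD j 0 := by
    intro c d j hj hj'
    rcases Nat.lt_or_ge j τ1.length with h | h
    · rw [List.getD_append _ _ _ _ h, List.getD_append _ _ _ _ h]
    · rw [List.getD_append_right _ _ _ _ h, List.getD_append_right _ _ _ _ h]
      obtain ⟨m, hm⟩ : ∃ m, j - τ1.length = m + 2 := ⟨j - τ1.length - 2, by omega⟩
      rw [hm]
      rfl
  have d1 : ∀ a b L : ZMod 2, a + L = b + (L + 1) → a + L + 1 = b + L := by decide
  have d2 : ∀ a b L : ZMod 2, ¬ a + L = b + (L + 1) → a + L = b + L := by decide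
  have d3 : ∀ a b L : ZMod 2, a + L = b + (L + 1) → b + (L + 1) + 1 = a + (L + 1) := by decide
  have d4 : ∀ a b L : ZMod 2, ¬ a + L = b + (L + 1) → b + (L + 1) = a + (L + 1) := by decide
  funext j
  have hc1 : Perm_row N (τ1 ++ a :: b :: τ2) ⟨τ1.length, by omega⟩ =
      a + ((τ1.length : ℕ) : ZMod 2) := by
    simp only [Perm_row, ga]
  have hc2 : Perm_row N (τ1 ++ a :: b :: τ2) ⟨τ1.length + 1, hi⟩ =
      b + (((τ1.length : ℕ) : ZMod 2) + 1) := by
    simp only [Perm_row, gb]
    push_cast
    rfl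
  have hi' : τ1.length < N := by omega
  by_cases hj : (j : ℕ) = τ1.length
  · have hj1 : j = ⟨τ1.length, hi'⟩ := Fin.ext hj
    rw [hj1]
    have hr : Perm_row N (τ1 ++ b :: a :: τ2) ⟨τ1.length, by omega⟩ =
        b + ((τ1.length : ℕ) : ZMod 2) := by
      simp only [Perm_row, ga]
    rw [hr]
    simp only [nxt]
    rw [hc1, hc2]
    split_ifs with hc
    · rw [flip, if_pos (Or.inl rfl), hc1]
      exact d1 _ _ _ hc
    · rw [hc1]
      exact d2 _ _ _ hc
  · by_cases hj' : (j : ℕ) = τ1.length + 1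
    · have hj1 : j = ⟨τ1.length + 1, hi⟩ := Fin.ext hj'
      rw [hj1]
      have hr : Perm_row N (τ1 ++ b :: a :: τ2) ⟨τ1.length + 1, hi⟩ =
          a + (((τ1.length : ℕ) : ZMod 2) + 1) := by
        simp only [Perm_row, gb]
        push_cast
        rfl
      rw [hr]
      simp only [nxt]
      rw [hc1, hc2]
      split_ifs with hc
      · rw [flip, if_pos (Or.inr rfl), hc2]
        exact d3 _ _ _ hc
      · rw [hc2]
        exact d4 _ _ _ hc
    · have hn : ¬ (j = (⟨τ1.length, by omega⟩ : Fin N) ∨ j = (⟨τ1.length + 1, hi⟩ : Fin N)) := by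
        rintro (h | h)
        · exact hj (by rw [h])
        · exact hj' (by rw [h])
      have hr : Perm_row N (τ1 ++ b :: a :: τ2) j = Perm_row N (τ1 ++ a :: b :: τ2) j := by
        simp only [Perm_row]
        rw [gc b a j hj hj']
      rw [hr]
      simp only [nxt]
      split_ifs
      · rw [flip, if_neg hn]
      · rfl

theorem Perm_front (N : ℕ) (δ : List (ZMod 2)) (y : ZMod 2) :
    ∀ (σ1 σ2 : List (ZMod 2)), (δ ++ (σ1 ++ y :: σ2)).length = N →
    fing (Perm_row N (δ ++ (σ1 ++ y :: σ2)))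
      (((List.range σ1.length).reverse.map fun i => sg N (i + δ.length)).prod) =
      Perm_row N (δ ++ y :: (σ1 ++ σ2)) := by
  intro σ1
  induction σ1 using List.reverseRecOn with
  | nil =>
    intro σ2 _
    simp
  | append_singleton σ1 x ih =>
    intro σ2 hN
    rw [List.length_append, List.length_singleton, List.range_succ, List.reverse_append,
      List.reverse_singleton, List.singleton_append, List.map_cons, List.prod_cons, fing_mul]
    have h1 : δ ++ (σ1 ++ [x] ++ y :: σ2) = (δ ++ σ1) ++ x :: y :: σ2 := by simp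
    have h2 : σ1.length + δ.length = (δ ++ σ1).length := by simp [add_comm]
    rw [h1, h2, Perm_letter N (δ ++ σ1) σ2 x y (by rw [← h1]; exact hN)]
    have h3 : (δ ++ σ1) ++ y :: x :: σ2 = δ ++ (σ1 ++ y :: (x :: σ2)) := by simp
    rw [h3, ih (x :: σ2) (by
      rw [← hN]; simp)]
    simp

theorem Perm_shift (N : ℕ) (ty : α → ZMod 2) :
    ∀ (π ρ : List α) (δ : List (ZMod 2)), ρ.Perm π → (δ ++ ρ.map ty).length = N →
    fing (Perm_row N (δ ++ ρ.map ty)) (((bwl ρ π).map fun i => sg N (i + δ.length)).prod) =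
      Perm_row N (δ ++ π.map ty) := by
  intro π
  induction π with
  | nil =>
    intro ρ δ h _
    rw [List.Perm.eq_nil h]
    simp [bwl]
  | cons y π ih =>
    intro ρ δ h hN
    have hy : y ∈ ρ := h.symm.subset (by simp)
    obtain ⟨ρ1, ρ2, hy1, hρ⟩ : ∃ ρ1 ρ2, y ∉ ρ1 ∧ ρ = ρ1 ++ y :: ρ2 := by
      obtain ⟨l1, l2, h1, h2, -⟩ := List.exists_erase_eq hy
      exact ⟨l1, l2, h1, h2⟩
    have h1 : (ρ.erase y).Perm π := by
      have := h.erase y
      rwa [List.erase_cons_head] at this
    subst hρ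
    have hidx : (ρ1 ++ y :: ρ2).idxOf y = ρ1.length := by
      rw [List.idxOf_append_of_notMem hy1]; simp
    have her : (ρ1 ++ y :: ρ2).erase y = ρ1 ++ ρ2 := by
      rw [List.erase_append_right _ hy1]; simp
    rw [bwl, hidx, her, List.map_append (f := fun i => sg N (i + δ.length)), List.prod_append,
      fing_mul]
    have hN' : (δ ++ (ρ1.map ty ++ ty y :: ρ2.map ty)).length = N := by
      rw [← hN]; simp
    have h2 := Perm_front N δ (ty y) (ρ1.map ty) (ρ2.map ty) hN'
    rw [List.length_map] at h2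
    have h3 : δ ++ (ρ1 ++ y :: ρ2).map ty = δ ++ (ρ1.map ty ++ ty y :: ρ2.map ty) := by simp
    rw [h3, h2]
    rw [her] at h1
    have h4 := ih (ρ1 ++ ρ2) (δ ++ [ty y]) h1 (by rw [← hN]; simp; omega)
    have h5 : δ ++ ty y :: (ρ1.map ty ++ ρ2.map ty) = δ ++ [ty y] ++ (ρ1 ++ ρ2).map ty := by simp
    have h6 : (((bwl (ρ1 ++ ρ2) π).map (· + 1)).map fun i => sg N (i + δ.length)) =
        ((bwl (ρ1 ++ ρ2) π).map fun i => sg N (i + (δ ++ [ty y]).length)) := by
      rw [List.map_map]
      apply List.map_congr_left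
      intro i _
      simp only [Function.comp, List.length_append, List.length_singleton]
      congr 1
      omega
    rw [h5, h6, h4]
    simp

/-- PROOF. Write `bw` as `el N` of the word `(bwl ρ π).map (·, true)` and use `fing_el`; one positive letter at `i` changes the row `rowOf ty ρ` into the row of the list with the entries `i, i+1` exchanged: the labels `a = ty (ρ i) + i`, `b = ty (ρ (i+1)) + i + 1` become `b + 1 = ty (ρ (i+1)) + i` and `a + 1 = ty (ρ i) + i + 1` (in both cases of `nxt`: if `a = b` flip; if `a ≠ b` nothing changes and `b + 1 = a`, `a + 1 = b`). The word `(range j).reverse` moves the entry number `j` to the front. Induction on `π` with the first entries fixed: statement for `δ ++ ρ`, `δ ++ π` and the letters shifted by `δ.length`. Alternatively induct with `bw_step` on the number of inversions. -/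
theorem fing_bw {N : ℕ} (ty : α → ZMod 2) {ρ π : List α} (hρ : ρ.Nodup) (hN : ρ.length = N)
    (hπ : π.length = N) (h : ρ.Perm π) :
    fing (rowOf N ty ρ hN) (bw N ρ π) = rowOf N ty π hπ := by
  have h1 := Perm_shift N ty π ρ [] h (by simpa using hN)
  simp only [List.nil_append, List.length_nil, add_zero] at h1
  rw [Perm_rowOf, Perm_rowOf, ← h1]
  rfl

end Pool.Agent.HK
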