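import Pool.Agent.H.MP_cd3d06_an.K.Iface
import Pool.Agent.H.MP_cd3d06_an.K.Perm

/-!
MP_cd3d06_an, part C, definitions: canonical order of the points, charts, primitives.
-/

namespace Pool.Agent.HK

open Complex Set Metric Filter Topology
open scoped ComplexConjugate

/-- the labels `0, ..., N - 1` sorted by a key -/
noncomputable def srt {N : ℕ} {β : Type*} [LinearOrder β] (k : Fin N → β) : List (Fin N) :=
  (List.finRange N).insertionSort (fun i j => k i ≤ k j)

theorem srt_length {N : ℕ} {β : Type*} [LinearOrder β] (k : Fin N → β) : (srt k).length = N := by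
  rw [srt, List.length_insertionSort, List.length_finRange]

/-- the canonical key: lexicographic in `(Re, ± Im)`, the sign being that of `Re`; it makes mirror
symmetric configurations exactly symmetric -/
noncomputable def key (a : ℂ) : ℝ ×ₗ ℝ := toLex (a.re, if a.re < 0 then -a.im else a.im)

/-- the reference key: lexicographic in `(Re, Im)` -/
noncomputable def lkey (a : ℂ) : ℝ ×ₗ ℝ := toLex (a.re, a.im)

/-- a chart at a regular parameter: typed continuous sections on a small ball; different real parts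
at the centre stay in the same order; for equal real parts at the centre the imaginary parts stay
in the same order -/
structure Chart (n : ℕ) (Pts : ℂ → Set TP) (ζ0 : ℂ) where
  δ : ℝ
  hδ : 0 < δ
  s : Fin (2 * n) → ℂ → ℂ
  ty : Fin (2 * n) → ZMod 2
  cont : ∀ i, ContinuousOn (s i) (ball ζ0 δ)
  inj : ∀ ζ ∈ ball ζ0 δ, Function.Injective (fun i => s i ζ)
  pts : ∀ ζ ∈ ball ζ0 δ, Pts ζ = range (fun i => (s i ζ, ty i))
  sepRe : ∀ i j, (s i ζ0).re < (s j ζ0).re → ∀ ζ ∈ ball ζ0 δ, (s i ζ).re < (s j ζ).re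
  sepIm : ∀ i j, (s i ζ0).re = (s j ζ0).re → (s i ζ0).im < (s j ζ0).im →
    ∀ ζ ∈ ball ζ0 δ, (s i ζ).im < (s j ζ).im

namespace Chart

variable {n : ℕ} {Pts : ℂ → Set TP} {ζ0 : ℂ}

/-- the reference list of a chart -/
noncomputable def ref (C : Chart n Pts ζ0) : List (Fin (2 * n)) := srt (fun i => lkey (C.s i ζ0))

/-- the canonical list at the parameter `ζ` -/
noncomputable def ord (C : Chart n Pts ζ0) (ζ : ℂ) : List (Fin (2 * n)) :=
  srt (fun i => key (C.s i ζ))

/-- the coordinate of the local system: the positive permutation braid from the reference list to the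
canonical list -/
noncomputable def β (C : Chart n Pts ζ0) (ζ : ℂ) : Brd (2 * n) := bw (2 * n) C.ref (C.ord ζ)

end Chart

/-- `f` is a primitive, at `x0 ∈ Y`, of the local system of `Pts` pulled back by `γ` -/
def PrimAt {X : Type*} [TopologicalSpace X] (n : ℕ) (Pts : ℂ → Set TP) (γ : X → ℂ)
    (f : X → Brd (2 * n)) (Y : Set X) (x0 : X) : Prop :=
  ∃ C : Chart n Pts (γ x0), ∀ᶠ x in 𝓝[Y] x0, f x = f x0 * (C.β (γ x0))⁻¹ * C.β (γ x)

/-- `f` is a primitive on `Y` -/
def IsPrim {X : Type*} [TopologicalSpace X] (n : ℕ) (Pts : ℂ → Set TP) (γ : X → ℂ)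
    (f : X → Brd (2 * n)) (Y : Set X) : Prop := ∀ x0 ∈ Y, PrimAt n Pts γ f Y x0

/-- the canonical row at a parameter -/
noncomputable def Chart.row {n : ℕ} {Pts : ℂ → Set TP} {ζ0 : ℂ} (C : Chart n Pts ζ0) (ζ : ℂ) :
    Row (2 * n) := rowOf (2 * n) C.ty (C.ord ζ) (srt_length _)

end Pool.Agent.HK
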