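import Pool.Agent.H.MP_cd3d06_an.K.Csrt

/-! MP_cd3d06_an, part C, module Ckey: facts on the keys -/

namespace Pool.Agent.HK

open Complex

theorem Ckey_key_lt {a b : ℂ} : key a < key b ↔ a.re < b.re ∨
    (a.re = b.re ∧ (if a.re < 0 then -a.im else a.im) < (if b.re < 0 then -b.im else b.im)) := by
  unfold key
  rw [Prod.Lex.toLex_lt_toLex]

theorem key_injective : Function.Injective key := by
  intro a b h
  unfold key at h
  have h1 := toLex_inj.mp h
  rw [Prod.mk.injEq] at h1
  obtain ⟨h1, h2⟩ := h1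
  rw [h1] at h2
  refine Complex.ext h1 ?_
  split_ifs at h2 with h3
  · exact neg_injective h2
  · exact h2

theorem lkey_injective : Function.Injective lkey := by
  intro a b h
  unfold lkey at h
  have h1 := toLex_inj.mp h
  rw [Prod.mk.injEq] at h1
  exact Complex.ext h1.1 h1.2

theorem key_lt_of_re {a b : ℂ} (h : a.re < b.re) : key a < key b :=
  Ckey_key_lt.mpr (Or.inl h)

theorem re_le_of_key {a b : ℂ} (h : key a < key b) : a.re ≤ b.re := by
  rcases Ckey_key_lt.mp h with h1 | h1
  · exact h1.le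
  · exact h1.1.le

theorem lkey_lt_iff {a b : ℂ} : lkey a < lkey b ↔ a.re < b.re ∨ (a.re = b.re ∧ a.im < b.im) := by
  unfold lkey
  rw [Prod.Lex.toLex_lt_toLex]

/-- mirror symmetry of the canonical key off the imaginary axis -/
theorem key_mirror {a b : ℂ} (ha : a.re ≠ 0) (hb : b.re ≠ 0) :
    key (-(starRingEnd ℂ) a) < key (-(starRingEnd ℂ) b) ↔ key b < key a := by
  rw [Ckey_key_lt, Ckey_key_lt]
  simp only [Complex.neg_re, Complex.conj_re, Complex.neg_im, Complex.conj_im, neg_neg,
    neg_lt_neg_iff, neg_inj, Left.neg_neg_iff]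
  rcases lt_trichotomy b.re a.re with h | h | h
  · simp only [h, true_or]
  · rw [← h]
    simp only [lt_irrefl, true_and, false_or]
    rcases lt_or_gt_of_ne hb with h1 | h1
    · rw [if_neg (not_lt.mpr h1.le), if_neg (not_lt.mpr h1.le), if_pos h1, if_pos h1,
        neg_lt_neg_iff]
    · rw [if_pos h1, if_pos h1, if_neg (not_lt.mpr h1.le), if_neg (not_lt.mpr h1.le),
        neg_lt_neg_iff]
  · have h1 : ¬ b.re < a.re := not_lt.mpr h.le
    have h2 : ¬ a.re = b.re := h.ne
    have h3 : ¬ b.re = a.re := h.ne'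
    simp only [h1, h2, h3, false_and, or_self]

end Pool.Agent.HK
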