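import Pool.Agent.H.MP_cd3d06_an.K.ClDefs

/-! MP_cd3d06_an, part C, module ClA: the reference lists -/

namespace Pool.Agent.HK

open Complex Set Metric Filter Topology
open scoped ComplexConjugate

variable {n : ℕ} {Pts : ℂ → Set TP} {ζ0 : ℂ}

theorem ClA_pairwise {N : ℕ} {β : Type*} [LinearOrder β] (k : Fin N → β) :
    (srt k).Pairwise (fun i j => k i ≤ k j) := by
  have : Std.Total (fun i j : Fin N => k i ≤ k j) := ⟨fun i j => le_total (k i) (k j)⟩
  have : IsTrans (Fin N) (fun i j : Fin N => k i ≤ k j) := ⟨fun _ _ _ h1 h2 => le_trans h1 h2⟩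
  exact List.pairwise_insertionSort _ _

theorem ClA_pairwise_lt {N : ℕ} {β : Type*} [LinearOrder β] {k : Fin N → β}
    (hk : Function.Injective k) : (srt k).Pairwise (fun i j => k i < k j) :=
  ((ClA_pairwise k).and (srt_nodup k)).imp fun {_ _} h => lt_of_le_of_ne h.1 fun h' => h.2 (hk h')

/-- split of a sorted list at two neighbours -/
theorem ClA_split {N : ℕ} {β : Type*} [LinearOrder β] {k : Fin N → β}
    (hk : Function.Injective k) {i j : Fin N} (hij : k i < k j)
    (hno : ∀ m, k i < k m → ¬ k m < k j) :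
    ∃ l1 l2 : List (Fin N), l1.length = (Finset.univ.filter (fun m => k m < k i)).card ∧
      srt k = l1 ++ i :: j :: l2 := by
  obtain ⟨l1, t, ht⟩ := List.append_of_mem (mem_srt k i)
  have hp := ClA_pairwise k
  have hn := srt_nodup k
  rw [ht] at hp hn
  rw [List.pairwise_append] at hp
  obtain ⟨hp1, hp2, hp3⟩ := hp
  rw [List.pairwise_cons] at hp2
  have hn2 := List.nodup_append.1 hn
  obtain ⟨hn3, hn4, hn5⟩ := hn2
  rw [List.nodup_cons] at hn4
  have hlt1 : ∀ m ∈ l1, k m < k i := fun m hm =>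
    lt_of_le_of_ne (hp3 m hm i (by simp)) fun h => hn5 m hm i (by simp) (hk h)
  have hlt2 : ∀ m ∈ t, k i < k m := fun m hm =>
    lt_of_le_of_ne (hp2.1 m hm) fun h => hn4.1 (by rw [hk h]; exact hm)
  have hjt : j ∈ t := by
    have h1 := mem_srt k j
    rw [ht] at h1
    rcases List.mem_append.1 h1 with h | h
    · exact absurd (hlt1 j h) (not_lt.2 hij.le)
    · rcases List.mem_cons.1 h with h | h
      · exact absurd (h ▸ hij) (lt_irrefl _)
      · exact h
  obtain ⟨t1, l2, ht1⟩ := List.append_of_mem hjt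
  have ht0 : t1 = [] := by
    rcases t1 with _ | ⟨m, t1⟩
    · rfl
    · exfalso
      have hm : m ∈ t := by rw [ht1]; simp
      have h2 : k m ≤ k j := by
        have h3 := hp2.2
        rw [ht1, List.cons_append, List.pairwise_cons] at h3
        exact h3.1 j (by simp)
      have h4 : k m ≠ k j := by
        intro h
        have h5 := hn4.2
        rw [ht1, List.cons_append, List.nodup_cons] at h5
        exact h5.1 (by rw [hk h]; simp)
      exact hno m (hlt2 m hm) (lt_of_le_of_ne h2 h4)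
  refine ⟨l1, l2, ?_, by rw [ht, ht1, ht0]; rfl⟩
  have hset : (Finset.univ.filter (fun m => k m < k i)) = l1.toFinset := by
    ext m
    simp only [Finset.mem_filter, Finset.mem_univ, true_and, List.mem_toFinset]
    constructor
    · intro hm
      have h1 := mem_srt k m
      rw [ht] at h1
      rcases List.mem_append.1 h1 with h | h
      · exact h
      · rcases List.mem_cons.1 h with h | h
        · exact absurd (h ▸ hm) (lt_irrefl _)
        · exact absurd (hlt2 m h) (not_lt.2 hm.le)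
    · exact hlt1 m
  rw [hset, List.toFinset_card_of_nodup hn3]

theorem ClA_len {N : ℕ} {β : Type*} [LinearOrder β] {k : Fin N → β}
    (hk : Function.Injective k) (i : Fin N) :
    (srt k).idxOf i = (Finset.univ.filter (fun m => k m < k i)).card := by
  obtain ⟨l1, t, ht⟩ := List.append_of_mem (mem_srt k i)
  have hp := ClA_pairwise k
  have hn := srt_nodup k
  rw [ht] at hp hn
  rw [List.pairwise_append] at hp
  obtain ⟨hp1, hp2, hp3⟩ := hp
  rw [List.pairwise_cons] at hp2
  have hn2 := List.nodup_append.1 hn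
  obtain ⟨hn3, hn4, hn5⟩ := hn2
  rw [List.nodup_cons] at hn4
  have hlt1 : ∀ m ∈ l1, k m < k i := fun m hm =>
    lt_of_le_of_ne (hp3 m hm i (by simp)) fun h => hn5 m hm i (by simp) (hk h)
  have hlt2 : ∀ m ∈ t, k i < k m := fun m hm =>
    lt_of_le_of_ne (hp2.1 m hm) fun h => hn4.1 (by rw [hk h]; exact hm)
  have hset : (Finset.univ.filter (fun m => k m < k i)) = l1.toFinset := by
    ext m
    simp only [Finset.mem_filter, Finset.mem_univ, true_and, List.mem_toFinset]
    constructor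
    · intro hm
      have h1 := mem_srt k m
      rw [ht] at h1
      rcases List.mem_append.1 h1 with h | h
      · exact h
      · rcases List.mem_cons.1 h with h | h
        · exact absurd (h ▸ hm) (lt_irrefl _)
        · exact absurd (hlt2 m h) (not_lt.2 hm.le)
    · exact hlt1 m
  have hni : i ∉ l1 := fun h => absurd (hlt1 i h) (lt_irrefl _)
  rw [hset, List.toFinset_card_of_nodup hn3, ht, List.idxOf_append_of_notMem hni,
    List.idxOf_cons_self, Nat.add_zero]

namespace LMod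

theorem ClA_tb_x (L : LMod n Pts ζ0) (e : Fin L.np → ℤ) (a : Fin L.np) :
    L.tb e (L.x a) = 1 ↔ Odd (e a) := by
  unfold tb
  split_ifs with h
  · refine ⟨fun _ => ?_, fun _ => rfl⟩
    obtain ⟨a', h1 | h1⟩ := h
    · rw [L.xinj h1.1]; exact h1.2
    · exact absurd h1.1 (L.xy a a')
  · refine ⟨fun h1 => absurd h1 (by norm_num), fun h1 => absurd ⟨a, Or.inl ⟨rfl, h1⟩⟩ h⟩

theorem ClA_tb_y (L : LMod n Pts ζ0) (e : Fin L.np → ℤ) (a : Fin L.np) :
    L.tb e (L.y a) = 1 ↔ Even (e a) := by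
  unfold tb
  split_ifs with h
  · refine ⟨fun _ => ?_, fun _ => rfl⟩
    obtain ⟨a', h1 | h1⟩ := h
    · exact absurd h1.1.symm (L.xy a' a)
    · rw [L.yinj h1.1]; exact h1.2
  · refine ⟨fun h1 => absurd h1 (by norm_num), fun h1 => absurd ⟨a, Or.inr ⟨rfl, h1⟩⟩ h⟩

theorem ClA_tb_le (L : LMod n Pts ζ0) (e : Fin L.np → ℤ) (i : Fin (2 * n)) :
    L.tb e i = 0 ∨ L.tb e i = 1 := by
  unfold tb
  split_ifs <;> simp

theorem ClA_rk_eq (L : LMod n Pts ζ0) (e : Fin L.np → ℤ) (i j : Fin (2 * n)) :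
    L.rk e i = L.rk e j ↔ L.S0 i = L.S0 j ∧ L.tb e i = L.tb e j := by
  unfold rk
  simp only [EmbeddingLike.apply_eq_iff_eq, Prod.mk.injEq, Complex.ext_iff]
  tauto

theorem ClA_rk_lt (L : LMod n Pts ζ0) (e : Fin L.np → ℤ) (i j : Fin (2 * n)) :
    L.rk e i < L.rk e j ↔ ((L.S0 i).re < (L.S0 j).re ∨ ((L.S0 i).re = (L.S0 j).re ∧
      (L.S0 i).im < (L.S0 j).im)) ∨ (L.S0 i = L.S0 j ∧ L.tb e i < L.tb e j) := by
  unfold rk
  rw [Prod.Lex.toLex_lt_toLex]
  simp only [Prod.Lex.toLex_lt_toLex, Complex.ext_iff]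
  tauto

theorem rk_injective (L : LMod n Pts ζ0) (e : Fin L.np → ℤ) : Function.Injective (L.rk e) := by
  intro i j hij
  obtain ⟨h1, h2⟩ := (L.ClA_rk_eq e i j).1 hij
  rcases L.S0inj i j h1 with h | ⟨a, ⟨rfl, rfl⟩ | ⟨rfl, rfl⟩⟩
  · exact h
  · exfalso
    have h3 := L.ClA_tb_x e a
    have h4 := L.ClA_tb_y e a
    rw [h2, h4] at h3
    rcases Int.even_or_odd (e a) with h5 | h5
    · exact (Int.not_odd_iff_even.2 h5) (h3.1 h5)
    · exact (Int.not_even_iff_odd.2 h5) (h3.2 h5)
  · exfalso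
    have h3 := L.ClA_tb_x e a
    have h4 := L.ClA_tb_y e a
    rw [← h2, h4] at h3
    rcases Int.even_or_odd (e a) with h5 | h5
    · exact (Int.not_odd_iff_even.2 h5) (h3.1 h5)
    · exact (Int.not_even_iff_odd.2 h5) (h3.2 h5)

theorem ref_perm (L : LMod n Pts ζ0) (e : Fin L.np → ℤ) :
    (L.ref e).Perm (List.finRange (2 * n)) := srt_perm _

theorem ClA_lt_of_even (L : LMod n Pts ζ0) {e : Fin L.np → ℤ} {a : Fin L.np} (he : Even (e a)) :
    L.tb e (L.x a) = 0 ∧ L.tb e (L.y a) = 1 ∧ L.rk e (L.x a) < L.rk e (L.y a) := by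
  have h1 : L.tb e (L.x a) = 0 := (L.ClA_tb_le e _).resolve_right
    fun h => (Int.not_odd_iff_even.2 he) ((L.ClA_tb_x e a).1 h)
  have h2 : L.tb e (L.y a) = 1 := (L.ClA_tb_y e a).2 he
  refine ⟨h1, h2, (L.ClA_rk_lt e _ _).2 (Or.inr ⟨L.S0xy a, ?_⟩)⟩
  rw [h1, h2]; norm_num

theorem ClA_lt_of_odd (L : LMod n Pts ζ0) {e : Fin L.np → ℤ} {a : Fin L.np} (he : Odd (e a)) :
    L.tb e (L.y a) = 0 ∧ L.tb e (L.x a) = 1 ∧ L.rk e (L.y a) < L.rk e (L.x a) := by
  have h1 : L.tb e (L.y a) = 0 := (L.ClA_tb_le e _).resolve_right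
    fun h => (Int.not_even_iff_odd.2 he) ((L.ClA_tb_y e a).1 h)
  have h2 : L.tb e (L.x a) = 1 := (L.ClA_tb_x e a).2 he
  refine ⟨h1, h2, (L.ClA_rk_lt e _ _).2 (Or.inr ⟨(L.S0xy a).symm, ?_⟩)⟩
  rw [h1, h2]; norm_num

/-- nothing lies between the two labels of a pair -/
theorem ClA_no (L : LMod n Pts ζ0) (e : Fin L.np → ℤ) (a : Fin L.np) {i j : Fin (2 * n)}
    (hij : (i = L.x a ∧ j = L.y a) ∨ (i = L.y a ∧ j = L.x a)) (m : Fin (2 * n))
    (h1 : L.rk e i < L.rk e m) : ¬ L.rk e m < L.rk e j := by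
  intro h2
  have hS : L.S0 i = L.S0 j := by
    rcases hij with ⟨rfl, rfl⟩ | ⟨rfl, rfl⟩
    · exact L.S0xy a
    · exact (L.S0xy a).symm
  rw [L.ClA_rk_lt] at h1 h2
  rw [hS] at h1
  have hm : L.S0 m = L.S0 j := by
    rcases h1 with (h1 | h1) | h1
    · rcases h2 with (h2 | h2) | h2
      · exact absurd h2 (not_lt.2 h1.le)
      · exact absurd h2.1 h1.ne'
      · exact h2.1
    · rcases h2 with (h2 | h2) | h2
      · exact absurd h1.1 h2.ne'
      · exact absurd h2.2 (not_lt.2 h1.2.le)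
      · exact h2.1
    · exact h1.1.symm
  have h3 : m = i ∨ m = j := by
    rcases L.S0inj m j hm with h | ⟨b, ⟨h, h'⟩ | ⟨h, h'⟩⟩
    · exact Or.inr h
    · left
      rcases hij with ⟨e1, e2⟩ | ⟨e1, e2⟩
      · rw [h, e1, L.yinj (h'.symm.trans e2)]
      · exact absurd (e2.symm.trans h') (L.xy a b)
    · left
      rcases hij with ⟨e1, e2⟩ | ⟨e1, e2⟩
      · exact absurd (h'.symm.trans e2) (L.xy b a)
      · rw [h, e1, L.xinj (h'.symm.trans e2)]
  rcases h3 with rfl | rfl
  · rw [hS] at h1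
    rcases h1 with (h1 | h1) | h1
    · exact lt_irrefl _ h1
    · exact lt_irrefl _ h1.2
    · exact lt_irrefl _ h1.2
  · rcases h2 with (h2 | h2) | h2
    · exact lt_irrefl _ h2
    · exact lt_irrefl _ h2.2
    · exact lt_irrefl _ h2.2

/-- the number of labels before a pair -/
theorem ClA_card (L : LMod n Pts ζ0) (e : Fin L.np → ℤ) {i : Fin (2 * n)} (h0 : L.tb e i = 0) :
    (Finset.univ.filter (fun m => L.rk e m < L.rk e i)).card =
      (Finset.univ.filter (fun m => (L.S0 m).re < (L.S0 i).re ∨ ((L.S0 m).re = (L.S0 i).re ∧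
        (L.S0 m).im < (L.S0 i).im))).card := by
  congr 1
  ext m
  simp only [Finset.mem_filter, Finset.mem_univ, true_and, L.ClA_rk_lt, h0, Nat.not_lt_zero,
    and_false, or_false]

theorem ClA_pos (L : LMod n Pts ζ0) (a : Fin L.np) :
    L.pos a = (Finset.univ.filter (fun m => (L.S0 m).re < (L.S0 (L.x a)).re ∨
      ((L.S0 m).re = (L.S0 (L.x a)).re ∧ (L.S0 m).im < (L.S0 (L.x a)).im))).card := by
  have h1 : Even ((0 : Fin L.np → ℤ) a) := by simp
  unfold pos ref
  rw [ClA_len (L.rk_injective 0), L.ClA_card 0 (L.ClA_lt_of_even h1).1]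

/-- `x a` is immediately before `y a` if `e a` is even, immediately after it if `e a` is odd; the pair
occupies the positions `pos a`, `pos a + 1`. (No other label has the limit `S0 (x a) = S0 (y a)`, so
nothing lies between them, and the set of labels before the pair does not depend on `e`.) -/
theorem ref_split (L : LMod n Pts ζ0) (e : Fin L.np → ℤ) (a : Fin L.np) :
    ∃ l1 l2 : List (Fin (2 * n)), l1.length = L.pos a ∧
      (Even (e a) → L.ref e = l1 ++ L.x a :: L.y a :: l2) ∧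
      (Odd (e a) → L.ref e = l1 ++ L.y a :: L.x a :: l2) := by
  rcases Int.even_or_odd (e a) with he | he
  · obtain ⟨h1, h2, h3⟩ := L.ClA_lt_of_even he
    obtain ⟨l1, l2, hl, h4⟩ := ClA_split (L.rk_injective e) h3
      (L.ClA_no e a (Or.inl ⟨rfl, rfl⟩))
    refine ⟨l1, l2, ?_, fun _ => h4, fun h => absurd he (Int.not_even_iff_odd.2 h)⟩
    rw [hl, L.ClA_card e h1, L.ClA_pos]
  · obtain ⟨h1, h2, h3⟩ := L.ClA_lt_of_odd he
    obtain ⟨l1, l2, hl, h4⟩ := ClA_split (L.rk_injective e) h3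
      (L.ClA_no e a (Or.inr ⟨rfl, rfl⟩))
    refine ⟨l1, l2, ?_, fun h => absurd he (Int.not_odd_iff_even.2 h), fun _ => h4⟩
    rw [hl, L.ClA_card e h1, L.ClA_pos, L.S0xy]

/-- the reference list only depends on the parities -/
theorem ref_congr (L : LMod n Pts ζ0) {e e' : Fin L.np → ℤ} (h : ∀ a, Even (e a) ↔ Even (e' a)) :
    L.ref e = L.ref e' := by
  have h1 : L.rk e = L.rk e' := by
    funext i
    unfold rk tb
    have h2 : ∀ a, Odd (e a) ↔ Odd (e' a) := fun a => by
      rw [← Int.not_even_iff_odd, ← Int.not_even_iff_odd, h a]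
    simp only [h, h2]
  unfold ref
  rw [h1]

theorem ClA_tb_update (L : LMod n Pts ζ0) (e : Fin L.np → ℤ) (a : Fin L.np) (c : ℤ)
    {m : Fin (2 * n)} (hx : m ≠ L.x a) (hy : m ≠ L.y a) :
    L.tb (Function.update e a c) m = L.tb e m := by
  have h1 : (∃ b, (m = L.x b ∧ Odd (Function.update e a c b)) ∨
      (m = L.y b ∧ Even (Function.update e a c b))) ↔
      ∃ b, (m = L.x b ∧ Odd (e b)) ∨ (m = L.y b ∧ Even (e b)) := by
    apply exists_congr
    intro b
    by_cases hb : b = a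
    · subst hb
      simp [hx, hy]
    · rw [Function.update_of_ne hb]
  unfold tb
  simp only [h1]

/-- the order of the labels different from the pair does not change -/
theorem ClA_lt_update (L : LMod n Pts ζ0) (e : Fin L.np → ℤ) (a : Fin L.np) (c : ℤ)
    {i j : Fin (2 * n)} (hi : i ≠ L.x a ∧ i ≠ L.y a ∨ j ≠ L.x a ∧ j ≠ L.y a)
    (h : L.rk e i < L.rk e j) :
    L.rk (Function.update e a c) i < L.rk (Function.update e a c) j := by
  rw [ClA_rk_lt] at h ⊢
  rcases h with h | ⟨h1, h2⟩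
  · exact Or.inl h
  · right
    refine ⟨h1, ?_⟩
    rcases L.S0inj i j h1 with h | ⟨b, ⟨h, h'⟩ | ⟨h, h'⟩⟩
    · rw [h] at h2; exact absurd h2 (lt_irrefl _)
    · have hb : b ≠ a := by
        rintro rfl
        rcases hi with hi | hi
        · exact hi.1 h
        · exact hi.2 h'
      rw [L.ClA_tb_update e a c (m := i) (by rw [h]; exact fun h3 => hb (L.xinj h3))
        (by rw [h]; exact L.xy b a),
        L.ClA_tb_update e a c (m := j) (by rw [h']; exact fun h3 => L.xy a b h3.symm)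
        (by rw [h']; exact fun h3 => hb (L.yinj h3))]
      exact h2
    · have hb : b ≠ a := by
        rintro rfl
        rcases hi with hi | hi
        · exact hi.2 h
        · exact hi.1 h'
      rw [L.ClA_tb_update e a c (m := i) (by rw [h]; exact fun h3 => L.xy a b h3.symm)
        (by rw [h]; exact fun h3 => hb (L.yinj h3)),
        L.ClA_tb_update e a c (m := j) (by rw [h']; exact fun h3 => hb (L.xinj h3))
        (by rw [h']; exact L.xy b a)]
      exact h2

/-- changing `e a` to `e' a` of the other parity exchanges the two labels, everything else stays -/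
theorem ref_toggle (L : LMod n Pts ζ0) (e : Fin L.np → ℤ) (a : Fin L.np) (he : Even (e a)) {c : ℤ}
    (hc : Odd c) : ∃ l1 l2 : List (Fin (2 * n)), l1.length = L.pos a ∧
      L.ref e = l1 ++ L.x a :: L.y a :: l2 ∧
      L.ref (Function.update e a c) = l1 ++ L.y a :: L.x a :: l2 := by
  obtain ⟨l1, l2, hl, h1, -⟩ := L.ref_split e a
  have h2 := h1 he
  refine ⟨l1, l2, hl, h2, ?_⟩
  have hs := ClA_pairwise_lt (L.rk_injective e)
  have hn := srt_nodup (L.rk e)
  have h3 : srt (L.rk e) = l1 ++ L.x a :: L.y a :: l2 := h2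
  rw [h3] at hs hn
  have hn' := List.nodup_append.1 hn
  obtain ⟨-, hn2, hn3⟩ := hn'
  rw [List.nodup_cons, List.nodup_cons] at hn2
  have hl1 : ∀ m ∈ l1, m ≠ L.x a ∧ m ≠ L.y a := fun m hm =>
    ⟨hn3 m hm _ (by simp), hn3 m hm _ (by simp)⟩
  have hl2 : ∀ m ∈ l2, m ≠ L.x a ∧ m ≠ L.y a := fun m hm =>
    ⟨fun h => hn2.1 (by rw [← h]; simp [hm]), fun h => hn2.2.1 (by rw [← h]; exact hm)⟩
  rw [List.pairwise_append, List.pairwise_cons, List.pairwise_cons] at hs
  obtain ⟨hs1, ⟨hs2, hs3, hs4⟩, hs5⟩ := hs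
  have hnew : (l1 ++ L.y a :: L.x a :: l2).Pairwise
      (fun i j => L.rk (Function.update e a c) i < L.rk (Function.update e a c) j) := by
    rw [List.pairwise_append, List.pairwise_cons, List.pairwise_cons]
    refine ⟨hs1.imp_of_mem fun {i j} hi hj h => L.ClA_lt_update e a c (Or.inl (hl1 i hi)) h,
      ⟨?_, ?_, hs4.imp_of_mem fun {i j} hi hj h => L.ClA_lt_update e a c (Or.inl (hl2 i hi)) h⟩,
      ?_⟩
    · intro m hm
      rcases List.mem_cons.1 hm with rfl | hm
      · exact (L.ClA_lt_of_odd (e := Function.update e a c) (a := a) (by simpa using hc)).2.2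
      · exact L.ClA_lt_update e a c (Or.inr (hl2 m hm)) (hs3 m hm)
    · intro m hm
      exact L.ClA_lt_update e a c (Or.inr (hl2 m hm)) (hs2 m (by simp [hm]))
    · intro i hi j hj
      refine L.ClA_lt_update e a c (Or.inl (hl1 i hi)) (hs5 i hi j ?_)
      rcases List.mem_cons.1 hj with rfl | hj
      · simp
      · rcases List.mem_cons.1 hj with rfl | hj
        · simp
        · simp [hj]
  have hperm : (L.ref (Function.update e a c)).Perm (l1 ++ L.y a :: L.x a :: l2) := by
    refine (L.ref_perm _).trans ((L.ref_perm e).symm.trans ?_)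
    rw [h2]
    exact (List.Perm.swap _ _ _).append_left l1
  exact hperm.eq_of_pairwise (fun i j _ _ h h' => absurd h (lt_asymm h'))
    (ClA_pairwise_lt (L.rk_injective _)) hnew

theorem pos_lt (L : LMod n Pts ζ0) (a : Fin L.np) : L.pos a + 1 < 2 * n := by
  obtain ⟨l1, l2, hl, h1, -⟩ := L.ref_split 0 a
  have h2 := h1 (by simp)
  have h3 : (L.ref 0).length = 2 * n := srt_length _
  rw [h2] at h3
  simp only [List.length_append, List.length_cons] at h3
  omega

theorem ClA_get (L : LMod n Pts ζ0) (a : Fin L.np) :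
    (L.ref 0)[L.pos a]? = some (L.x a) ∧ (L.ref 0)[L.pos a + 1]? = some (L.y a) := by
  obtain ⟨l1, l2, hl, h1, -⟩ := L.ref_split 0 a
  have h2 := h1 (by simp)
  rw [h2, ← hl]
  constructor
  · simp
  · rw [List.getElem?_append_right (by omega)]
    simp

theorem pos_far (L : LMod n Pts ζ0) {a b : Fin L.np} (h : a ≠ b) :
    L.pos a + 2 ≤ L.pos b ∨ L.pos b + 2 ≤ L.pos a := by
  obtain ⟨h1, h2⟩ := L.ClA_get a
  obtain ⟨h3, h4⟩ := L.ClA_get b
  by_contra hcon
  push Not at hcon
  have h5 : L.pos a = L.pos b ∨ L.pos b = L.pos a + 1 ∨ L.pos a = L.pos b + 1 := by omega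
  rcases h5 with h5 | h5 | h5
  · rw [h5, h3] at h1
    exact h (L.xinj (Option.some.inj h1).symm)
  · rw [h5, h2] at h3
    exact L.xy b a (Option.some.inj h3).symm
  · rw [h5, h4] at h1
    exact L.xy a b (Option.some.inj h1).symm

end LMod

end Pool.Agent.HK
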