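import Pool.Agent.H.MP_cd3d06_an.K.ClD1

/-! MP_cd3d06_an, part C, module ClD: the primitive -/

namespace Pool.Agent.HK

open Complex Set Metric Filter Topology
open scoped ComplexConjugate

variable {n : ℕ} {Pts : ℂ → Set TP} {ζ0 : ℂ}

namespace LMod

theorem ClD_tb_x (L : LMod n Pts ζ0) (e : Fin L.np → ℤ) (a : Fin L.np) :
    L.tb e (L.x a) = 1 ↔ Odd (e a) := by
  classical
  unfold tb
  constructor
  · intro h
    split_ifs at h with h1
    · obtain ⟨b, h2 | h2⟩ := h1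
      · rw [L.xinj h2.1]; exact h2.2
      · exact absurd h2.1 (L.xy a b)
  · intro h
    rw [if_pos ⟨a, Or.inl ⟨rfl, h⟩⟩]

theorem ClD_tb_le (L : LMod n Pts ζ0) (e : Fin L.np → ℤ) (i : Fin (2 * n)) : L.tb e i ≤ 1 := by
  classical
  unfold tb
  split_ifs
  · exact le_rfl
  · exact Nat.zero_le _

theorem ClD_rk_lt (L : LMod n Pts ζ0) (e : Fin L.np → ℤ) {i j : Fin (2 * n)}
    (h : L.rk e i < L.rk e j) : (L.S0 i).re < (L.S0 j).re ∨ (L.S0 i).im < (L.S0 j).im ∨
      (∃ a, i = L.x a ∧ j = L.y a ∧ Even (e a)) ∨ (∃ a, i = L.y a ∧ j = L.x a ∧ Odd (e a)) := by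
  unfold rk at h
  rw [Prod.Lex.toLex_lt_toLex] at h
  rcases h with h | ⟨h1, h⟩
  · exact Or.inl h
  · simp only at h1 h
    rw [Prod.Lex.toLex_lt_toLex] at h
    rcases h with h | ⟨h2, h⟩
    · exact Or.inr (Or.inl h)
    · simp only at h2 h
      have hS : L.S0 i = L.S0 j := Complex.ext h1 h2
      rcases L.S0inj i j hS with hij | ⟨a, ⟨hi, hj⟩ | ⟨hi, hj⟩⟩
      · rw [hij] at h; exact absurd h (lt_irrefl _)
      · refine Or.inr (Or.inr (Or.inl ⟨a, hi, hj, ?_⟩))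
        rw [← Int.not_odd_iff_even, ← L.ClD_tb_x e a, ← hi]
        have := L.ClD_tb_le e j
        omega
      · refine Or.inr (Or.inr (Or.inr ⟨a, hi, hj, ?_⟩))
        rw [← L.ClD_tb_x e a, ← hj]
        have := L.ClD_tb_le e j
        omega

/-- C3d: `g` is a primitive.

Proof: `m` from `ee_local`, `g_local`; the list `ref m` is admissible near `u0`: for `i` before `j` in `ref m`
either `Re S0 i < Re S0 j`, or equality and `Im S0 i < Im S0 j` (both by `sep`), or `{i, j} = {x a, y a}`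
(`ee_local`). Then `primAt_of_adm` and `PrimAt.mul_left`. -/
theorem g_prim (L : LMod n Pts ζ0) (hreg : ∀ᶠ ζ in 𝓝[≠] ζ0, IsRegPt n Pts ζ) :
    ∃ δ' > 0, δ' ≤ L.δ ∧
      IsPrim n Pts (fun u : ℝ × ℝ => pol ζ0 u.1 u.2) L.g (Ioo 0 δ' ×ˢ univ) := by
  rw [eventually_nhdsWithin_iff, Metric.eventually_nhds_iff] at hreg
  obtain ⟨δ1, hδ1, hreg1⟩ := hreg
  obtain ⟨δ2, hδ2, hδ2L, hsep⟩ := L.sep
  refine ⟨min δ1 δ2, lt_min hδ1 hδ2, (min_le_right _ _).trans hδ2L, ?_⟩
  intro u0 hu0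
  have hu01 : u0.1 ∈ Ioo 0 (min δ1 δ2) := hu0.1
  have hopen : IsOpen (Ioo 0 (min δ1 δ2) ×ˢ (univ : Set ℝ)) := isOpen_Ioo.prod isOpen_univ
  have hnhds : 𝓝[Ioo 0 (min δ1 δ2) ×ˢ (univ : Set ℝ)] u0 = 𝓝 u0 := hopen.nhdsWithin_eq hu0
  have huL : u0.1 ∈ Ioo 0 L.δ :=
    ⟨hu01.1, hu01.2.trans_le ((min_le_right _ _).trans hδ2L)⟩
  have hLopen : IsOpen (Ioo 0 L.δ ×ˢ (univ : Set ℝ)) := isOpen_Ioo.prod isOpen_univ
  have hLmem : (Ioo 0 L.δ ×ˢ (univ : Set ℝ)) ∈ 𝓝 u0 := hLopen.mem_nhds ⟨huL, mem_univ _⟩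
  have h2mem : ∀ᶠ u in 𝓝 u0, u.1 ∈ Ioo 0 δ2 := by
    have : (Ioo 0 (min δ1 δ2) ×ˢ (univ : Set ℝ)) ∈ 𝓝 u0 := hopen.mem_nhds hu0
    filter_upwards [this] with u hu
    exact ⟨hu.1.1, hu.1.2.trans_le (min_le_right _ _)⟩
  choose m hm using fun a => L.ee_local huL a
  have hm' : ∀ a, ∀ᶠ u in 𝓝 u0, L.ee u a = m a ∨ L.ee u a = m a + 1 := by
    intro a
    rcases hm a with h | h
    · filter_upwards [h.1] with u hu
      exact Or.inl hu
    · exact h.1
  have hg := L.g_local huL hm'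
  have hregu : IsRegPt n Pts (pol ζ0 u0.1 u0.2) := by
    have hnorm : ‖Complex.exp (u0.2 * Complex.I)‖ = 1 := Complex.norm_exp_ofReal_mul_I _
    apply hreg1
    · unfold pol
      rw [dist_eq_norm, add_sub_cancel_left, norm_mul, hnorm, mul_one, Complex.norm_real,
        Real.norm_of_nonneg hu01.1.le]
      exact hu01.2.trans_le (min_le_left _ _)
    · intro h
      unfold pol at h
      have h1 : (u0.1 : ℂ) * Complex.exp (u0.2 * Complex.I) = 0 := by
        have := h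
        simpa using this
      rcases mul_eq_zero.mp h1 with h2 | h2
      · exact hu01.1.ne' (by exact_mod_cast h2)
      · exact Complex.exp_ne_zero _ h2
  have hcont : ContinuousAt (fun u : ℝ × ℝ => pol ζ0 u.1 u.2) u0 := by
    unfold pol
    fun_prop
  have hscont : ∀ i, ContinuousAt (fun u : ℝ × ℝ => L.s i u.1 u.2) u0 := fun i =>
    (L.cont i).continuousAt hLmem
  have hprim : PrimAt n Pts (fun u : ℝ × ℝ => pol ζ0 u.1 u.2)
      (fun u => bw (2 * n) (L.ref m) (L.ord u)) (Ioo 0 (min δ1 δ2) ×ˢ univ) u0 := by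
    refine primAt_of_adm (s := fun i u => L.s i u.1 u.2) (ty := L.ty) hu0
      hcont.continuousWithinAt hregu (fun i => (hscont i).continuousWithinAt)
      (L.inj u0.1 huL u0.2) ?_ (L.ref_perm m) ?_
    · rw [hnhds]
      filter_upwards [hLmem] with u hu
      exact L.pts u.1 hu.1 u.2
    · intro i j hij
      rw [hnhds]
      have hlt : L.rk m i < L.rk m j := (srt_idx (L.rk_injective m) i j).1 hij
      rcases L.ClD_rk_lt m hlt with h | h | ⟨a, rfl, rfl, ha⟩ | ⟨a, rfl, rfl, ha⟩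
      · left
        filter_upwards [h2mem] with u hu
        exact (hsep u.1 hu u.2 i j).1 h
      · right
        filter_upwards [h2mem] with u hu
        exact (hsep u.1 hu u.2 i j).2 h
      · rcases hm a with ⟨_, h | h⟩ | ⟨_, h | h⟩
        · exact Or.inl h.2
        · exact absurd ha (Int.not_even_iff_odd.2 h.1)
        · exact Or.inr h.2
        · exact absurd ha (Int.not_even_iff_odd.2 h.1)
      · rcases hm a with ⟨_, h | h⟩ | ⟨_, h | h⟩
        · exact absurd ha (Int.not_odd_iff_even.2 h.1)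
        · exact Or.inl h.2
        · exact absurd ha (Int.not_odd_iff_even.2 h.1)
        · exact Or.inr h.2
  refine PrimAt.mul_left hu0 hprim (L.pw m) ?_
  rw [hnhds]
  exact hg

end LMod

end Pool.Agent.HK
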