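import Pool.Agent.H.MP_cd3d06_an.K.ClB
import Pool.Agent.H.MP_cd3d06_an.K.ClC

/-! MP_cd3d06_an, part C, module ClD1: the primitive, locally -/

namespace Pool.Agent.HK

open Complex Set Metric Filter Topology
open scoped ComplexConjugate

variable {n : ℕ} {Pts : ℂ → Set TP} {ζ0 : ℂ}

namespace LMod

/-- separation near `ζ0`, uniform in `φ` (from `lim` and the finitely many pairs) -/
theorem sep (L : LMod n Pts ζ0) : ∃ δ' > 0, δ' ≤ L.δ ∧ ∀ ρ ∈ Ioo 0 δ', ∀ φ : ℝ, ∀ i j,
    ((L.S0 i).re < (L.S0 j).re → (L.s i ρ φ).re < (L.s j ρ φ).re) ∧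
    ((L.S0 i).im < (L.S0 j).im → (L.s i ρ φ).im < (L.s j ρ φ).im) := by
  have key1 : ∀ (f : ℂ → ℝ), (∀ z w : ℂ, |f z - f w| ≤ dist z w) → ∀ i j,
      ∀ᶠ d in 𝓝[>] (0 : ℝ), ∀ ρ ∈ Ioo 0 d, ∀ φ : ℝ,
        (f (L.S0 i) < f (L.S0 j) → f (L.s i ρ φ) < f (L.s j ρ φ)) := by
    intro f hf i j
    by_cases h : f (L.S0 i) < f (L.S0 j)
    · obtain ⟨d, hd, hL⟩ := L.lim ((f (L.S0 j) - f (L.S0 i)) / 2) (by linarith)
      have h1 : Ioo (0 : ℝ) (min d L.δ) ∈ 𝓝[>] (0 : ℝ) := Ioo_mem_nhdsGT (lt_min hd L.hδ)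
      filter_upwards [h1] with d' hd' ρ hρ φ _
      have h2 : ρ ∈ Ioo 0 d := ⟨hρ.1, hρ.2.trans (hd'.2.trans_le (min_le_left _ _))⟩
      have h3 : ρ < L.δ := hρ.2.trans (hd'.2.trans_le (min_le_right _ _))
      have h4 := (hf _ _).trans_lt (hL ρ h2 h3 φ i)
      have h5 := (hf _ _).trans_lt (hL ρ h2 h3 φ j)
      rw [abs_lt] at h4 h5
      linarith [h4.2, h5.1]
    · exact Eventually.of_forall fun d ρ _ φ h' => absurd h' h
  have hre : ∀ z w : ℂ, |z.re - w.re| ≤ dist z w := fun z w => by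
    rw [Complex.dist_eq, ← Complex.sub_re]
    exact Complex.abs_re_le_norm _
  have him : ∀ z w : ℂ, |z.im - w.im| ≤ dist z w := fun z w => by
    rw [Complex.dist_eq, ← Complex.sub_im]
    exact Complex.abs_im_le_norm _
  have h1 : ∀ᶠ d in 𝓝[>] (0 : ℝ), ∀ i j, ∀ ρ ∈ Ioo 0 d, ∀ φ : ℝ,
      ((L.S0 i).re < (L.S0 j).re → (L.s i ρ φ).re < (L.s j ρ φ).re) :=
    eventually_all.2 fun i => eventually_all.2 fun j => key1 Complex.re hre i j
  have h2 : ∀ᶠ d in 𝓝[>] (0 : ℝ), ∀ i j, ∀ ρ ∈ Ioo 0 d, ∀ φ : ℝ,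
      ((L.S0 i).im < (L.S0 j).im → (L.s i ρ φ).im < (L.s j ρ φ).im) :=
    eventually_all.2 fun i => eventually_all.2 fun j => key1 Complex.im him i j
  have h3 : Ioo (0 : ℝ) L.δ ∈ 𝓝[>] (0 : ℝ) := Ioo_mem_nhdsGT L.hδ
  obtain ⟨d, ⟨h4, h5⟩, h6⟩ := ((h1.and h2).and (eventually_mem_set.2 h3)).exists
  exact ⟨d, h6.1, h6.2.le, fun ρ hρ φ i j => ⟨h4 i j ρ hρ φ, h5 i j ρ hρ φ⟩⟩

/-- C3c: near `u0` the function `g` is `pw m * bw (ref m) (ord u)` with constant `m`, where `m` is given
by `ee_local`.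

Proof: induct over the pairs (or change the `e a` one after the other): if `ee u a = m a + 1` (only in
the second case of `ee_local`), then the pair has in `ord u` the order of `ref (m + 1)`, i.e. the opposite of
that of `ref m`, and `bw_toggle` / `bw_toggle'` give
`sg (pos a) ^ (m a + 1) * bw (ref (.. m a + 1 ..)) π = sg (pos a) ^ (m a) * bw (ref (.. m a ..)) π`. -/
theorem g_local (L : LMod n Pts ζ0) {u0 : ℝ × ℝ} (hu : u0.1 ∈ Ioo 0 L.δ) {m : Fin L.np → ℤ}
    (hm : ∀ a, ∀ᶠ u in 𝓝 u0, L.ee u a = m a ∨ L.ee u a = m a + 1) :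
    ∀ᶠ u in 𝓝 u0, L.g u = L.pw m * bw (2 * n) (L.ref m) (L.ord u) := by
  classical
  have h1 : ∀ᶠ u : ℝ × ℝ in 𝓝 u0, u.1 ∈ Ioo 0 L.δ :=
    continuous_fst.continuousAt.eventually (isOpen_Ioo.mem_nhds hu)
  filter_upwards [h1, eventually_all.2 hm] with u hu1 hu2
  have hinj : Function.Injective (fun i => key (L.s i u.1 u.2)) := fun i j hij =>
    L.inj u.1 hu1 u.2 (key_injective hij)
  have hperm : (L.ord u).Perm (List.finRange (2 * n)) := srt_perm _
  have hidx : ∀ i j, (L.ord u).idxOf i < (L.ord u).idxOf j ↔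
      key (L.s i u.1 u.2) < key (L.s j u.1 u.2) := fun i j => srt_idx hinj i j
  have main : ∀ S : Finset (Fin L.np),
      L.pw (fun a => if a ∈ S then L.ee u a else m a) *
        bw (2 * n) (L.ref (fun a => if a ∈ S then L.ee u a else m a)) (L.ord u) =
      L.pw m * bw (2 * n) (L.ref m) (L.ord u) := by
    intro S
    induction S using Finset.induction_on with
    | empty => simp
    | insert a S ha ih =>
      set e : Fin L.np → ℤ := fun b => if b ∈ S then L.ee u b else m b with he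
      have hea : e a = m a := by simp [he, ha]
      have hup : (fun b => if b ∈ insert a S then L.ee u b else m b) =
          Function.update e a (L.ee u a) := by
        funext b
        by_cases hb : b = a
        · subst hb
          simp
        · simp [he, hb]
      rw [hup]
      obtain ⟨-, hk⟩ := L.ee_spec hu1 a
      rcases hu2 a with h | h
      · rw [h, ← hea, Function.update_eq_self, ih]
      · rcases Int.even_or_odd (m a) with h2 | h2
        · have h3 : Odd (m a + 1) := h2.add_one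
          have h4 : ¬ key (L.s (L.x a) u.1 u.2) < key (L.s (L.y a) u.1 u.2) := by
            rw [← hk, h]
            exact Int.not_even_iff_odd.2 h3
          have h5 : key (L.s (L.y a) u.1 u.2) < key (L.s (L.x a) u.1 u.2) := by
            refine lt_of_le_of_ne (not_lt.1 h4) fun h6 => ?_
            exact L.xy a a (hinj h6).symm
          have h6 := L.bw_toggle e a (by rw [hea]; exact h2) h3 hperm ((hidx _ _).2 h5)
          have h7 := L.pw_update e a 1
          rw [hea, zpow_one] at h7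
          rw [h, h7, mul_assoc, ← h6, ih]
        · have h3 : Even (m a + 1) := h2.add_one
          have h5 : key (L.s (L.x a) u.1 u.2) < key (L.s (L.y a) u.1 u.2) := by
            rw [← hk, h]
            exact h3
          have h6 := L.bw_toggle' e a (by rw [hea]; exact h2) h3 hperm ((hidx _ _).2 h5)
          have h7 := L.pw_update e a 1
          rw [hea, zpow_one] at h7
          rw [h, h7, mul_assoc, ← h6, ih]
  have h2 := main Finset.univ
  simp only [Finset.mem_univ, if_true] at h2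
  exact h2

end LMod

end Pool.Agent.HK
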