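import Pool.Agent.H.MP_cd3d06_an.K.Cprim

/-! MP_cd3d06_an, part C, module ClDefs: definitions of the explicit primitive near a special parameter -/

namespace Pool.Agent.HK

open Complex Set Metric Filter Topology
open scoped ComplexConjugate

variable {n : ℕ} {Pts : ℂ → Set TP} {ζ0 : ℂ}

namespace LMod

/-- tie breaker: in each pair the second point has value `1` -/
noncomputable def tb (L : LMod n Pts ζ0) (e : Fin L.np → ℤ) (i : Fin (2 * n)) : ℕ :=
  open Classical in
  if ∃ a, (i = L.x a ∧ Odd (e a)) ∨ (i = L.y a ∧ Even (e a)) then 1 else 0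

/-- the key of the reference list -/
noncomputable def rk (L : LMod n Pts ζ0) (e : Fin L.np → ℤ) (i : Fin (2 * n)) : ℝ ×ₗ ℝ ×ₗ ℕ :=
  toLex ((L.S0 i).re, toLex ((L.S0 i).im, L.tb e i))

/-- the reference list -/
noncomputable def ref (L : LMod n Pts ζ0) (e : Fin L.np → ℤ) : List (Fin (2 * n)) := srt (L.rk e)

/-- the position of the pair number `a` -/
noncomputable def pos (L : LMod n Pts ζ0) (a : Fin L.np) : ℕ := (L.ref 0).idxOf (L.x a)

/-- the canonical list -/
noncomputable def ord (L : LMod n Pts ζ0) (u : ℝ × ℝ) : List (Fin (2 * n)) :=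
  srt (fun i => key (L.s i u.1 u.2))

/-- the exponent of the pair number `a` -/
noncomputable def ee (L : LMod n Pts ζ0) (u : ℝ × ℝ) (a : Fin L.np) : ℤ :=
  open Classical in
  if h : ∃ e : ℤ, |L.θ a u.1 u.2 - Real.pi * e| ≤ Real.pi / 2 ∧
    (Even e ↔ key (L.s (L.x a) u.1 u.2) < key (L.s (L.y a) u.1 u.2)) then h.choose else 0

/-- the product of the powers of the generators of the pairs -/
noncomputable def pw (L : LMod n Pts ζ0) (e : Fin L.np → ℤ) : Brd (2 * n) :=
  ((List.finRange L.np).map fun a => sg (2 * n) (L.pos a) ^ e a).prod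

/-- the primitive -/
noncomputable def g (L : LMod n Pts ζ0) (u : ℝ × ℝ) : Brd (2 * n) :=
  L.pw (L.ee u) * bw (2 * n) (L.ref (L.ee u)) (L.ord u)

end LMod

end Pool.Agent.HK
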