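import Pool.Agent.H.MP_cd3d06_an.K.ClDefs

/-! MP_cd3d06_an, part C, module ClE1: monodromy -/

namespace Pool.Agent.HK

open Complex Set Metric Filter Topology
open scoped ComplexConjugate

variable {n : ℕ} {Pts : ℂ → Set TP} {ζ0 : ℂ}

namespace LMod

/-- the monodromy permutation as a function -/
noncomputable def ClE1_t (L : LMod n Pts ζ0) (i : Fin (2 * n)) : Fin (2 * n) :=
  open Classical in
  if h : ∃ a, i = L.x a ∧ Odd (L.k a) then L.y h.choose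
  else if h : ∃ a, i = L.y a ∧ Odd (L.k a) then L.x h.choose else i

theorem ClE1_t_x_odd (L : LMod n Pts ζ0) {a : Fin L.np} (h : Odd (L.k a)) :
    L.ClE1_t (L.x a) = L.y a := by
  have h1 : ∃ b, L.x a = L.x b ∧ Odd (L.k b) := ⟨a, rfl, h⟩
  unfold ClE1_t
  rw [dif_pos h1, ← L.xinj h1.choose_spec.1]

theorem ClE1_t_y_odd (L : LMod n Pts ζ0) {a : Fin L.np} (h : Odd (L.k a)) :
    L.ClE1_t (L.y a) = L.x a := by
  have h0 : ¬ ∃ b, L.y a = L.x b ∧ Odd (L.k b) := fun ⟨b, hb, _⟩ => L.xy b a hb.symm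
  have h1 : ∃ b, L.y a = L.y b ∧ Odd (L.k b) := ⟨a, rfl, h⟩
  unfold ClE1_t
  rw [dif_neg h0, dif_pos h1, ← L.yinj h1.choose_spec.1]

theorem ClE1_t_x_even (L : LMod n Pts ζ0) {a : Fin L.np} (h : Even (L.k a)) :
    L.ClE1_t (L.x a) = L.x a := by
  have h0 : ¬ ∃ b, L.x a = L.x b ∧ Odd (L.k b) := by
    rintro ⟨b, hb, ho⟩
    rw [← L.xinj hb] at ho
    exact (Nat.not_odd_iff_even.mpr h) ho
  have h1 : ¬ ∃ b, L.x a = L.y b ∧ Odd (L.k b) := fun ⟨b, hb, _⟩ => L.xy a b hb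
  unfold ClE1_t
  rw [dif_neg h0, dif_neg h1]

theorem ClE1_t_y_even (L : LMod n Pts ζ0) {a : Fin L.np} (h : Even (L.k a)) :
    L.ClE1_t (L.y a) = L.y a := by
  have h0 : ¬ ∃ b, L.y a = L.x b ∧ Odd (L.k b) := fun ⟨b, hb, _⟩ => L.xy b a hb.symm
  have h1 : ¬ ∃ b, L.y a = L.y b ∧ Odd (L.k b) := by
    rintro ⟨b, hb, ho⟩
    rw [← L.yinj hb] at ho
    exact (Nat.not_odd_iff_even.mpr h) ho
  unfold ClE1_t
  rw [dif_neg h0, dif_neg h1]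

theorem ClE1_t_other (L : LMod n Pts ζ0) {i : Fin (2 * n)} (h : ∀ a, i ≠ L.x a ∧ i ≠ L.y a) :
    L.ClE1_t i = i := by
  have h0 : ¬ ∃ b, i = L.x b ∧ Odd (L.k b) := fun ⟨b, hb, _⟩ => (h b).1 hb
  have h1 : ¬ ∃ b, i = L.y b ∧ Odd (L.k b) := fun ⟨b, hb, _⟩ => (h b).2 hb
  unfold ClE1_t
  rw [dif_neg h0, dif_neg h1]

theorem ClE1_t_invol (L : LMod n Pts ζ0) : Function.Involutive L.ClE1_t := by
  intro i
  by_cases hx : ∃ a, i = L.x a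
  · obtain ⟨a, rfl⟩ := hx
    rcases Nat.even_or_odd (L.k a) with h | h
    · rw [L.ClE1_t_x_even h, L.ClE1_t_x_even h]
    · rw [L.ClE1_t_x_odd h, L.ClE1_t_y_odd h]
  · by_cases hy : ∃ a, i = L.y a
    · obtain ⟨a, rfl⟩ := hy
      rcases Nat.even_or_odd (L.k a) with h | h
      · rw [L.ClE1_t_y_even h, L.ClE1_t_y_even h]
      · rw [L.ClE1_t_y_odd h, L.ClE1_t_x_odd h]
    · have h : ∀ a, i ≠ L.x a ∧ i ≠ L.y a := fun a => ⟨fun e => hx ⟨a, e⟩, fun e => hy ⟨a, e⟩⟩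
      rw [L.ClE1_t_other h, L.ClE1_t_other h]

theorem ClE1_exists_sep (L : LMod n Pts ζ0) :
    ∃ ε > 0, ∀ i j, L.S0 i ≠ L.S0 j → 2 * ε ≤ dist (L.S0 i) (L.S0 j) := by
  classical
  let F : Finset (Fin (2 * n) × Fin (2 * n)) :=
    Finset.univ.filter (fun p => L.S0 p.1 ≠ L.S0 p.2)
  by_cases hF : F.Nonempty
  · obtain ⟨p, hp, hmin⟩ := F.exists_min_image (fun p => dist (L.S0 p.1) (L.S0 p.2)) hF
    refine ⟨dist (L.S0 p.1) (L.S0 p.2) / 2, ?_, ?_⟩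
    · have := dist_pos.mpr (Finset.mem_filter.mp hp).2
      linarith
    · intro i j hij
      have := hmin (i, j) (Finset.mem_filter.mpr ⟨Finset.mem_univ _, hij⟩)
      simp only at this
      linarith
  · refine ⟨1, one_pos, fun i j hij => ?_⟩
    exact absurd ⟨(i, j), Finset.mem_filter.mpr ⟨Finset.mem_univ _, hij⟩⟩ hF

theorem ClE1_pol (ζ0 : ℂ) (ρ φ : ℝ) : pol ζ0 ρ (φ + 2 * Real.pi) = pol ζ0 ρ φ := by
  unfold pol
  congr 2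
  push_cast
  rw [add_mul, Complex.exp_add, Complex.exp_two_pi_mul_I, mul_one]

theorem ClE1_exp (t : ℝ) (k : ℕ) :
    Complex.exp (((t + k * Real.pi : ℝ) : ℂ) * Complex.I) =
      Complex.exp ((t : ℂ) * Complex.I) * (-1) ^ k := by
  push_cast
  rw [add_mul, Complex.exp_add]
  congr 1
  rw [mul_assoc, Complex.exp_nat_mul, Complex.exp_pi_mul_I]

/-- C3e: the monodromy: after a full turn `s i` becomes `s (τ i)`, `τ` exchanges `x a, y a` if `k a` is odd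
and fixes all other labels.

Proof: the sets `Pts` agree; `s i ρ (φ + 2 π)` is `s j ρ φ` for some `j`, and `S0 i = S0 j` by `lim` as
soon as `ρ` is small; hence `j = i` or `{i, j} = {x a, y a}`; in the latter case `θ a (φ + 2 π) - θ a φ =
k a π` decides. -/
theorem monodromy (L : LMod n Pts ζ0) : ∃ δ' > 0, δ' ≤ L.δ ∧ ∃ τ : Fin (2 * n) ≃ Fin (2 * n),
    (∀ ρ ∈ Ioo 0 δ', ∀ φ : ℝ, ∀ i, L.s i ρ (φ + 2 * Real.pi) = L.s (τ i) ρ φ) ∧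
    (∀ a, Odd (L.k a) → τ (L.x a) = L.y a ∧ τ (L.y a) = L.x a) ∧
    (∀ a, Even (L.k a) → τ (L.x a) = L.x a ∧ τ (L.y a) = L.y a) ∧
    (∀ i, (∀ a, i ≠ L.x a ∧ i ≠ L.y a) → τ i = i) := by
  obtain ⟨ε, hε, hsep⟩ := L.ClE1_exists_sep
  obtain ⟨δ1, hδ1, hlim⟩ := L.lim ε hε
  refine ⟨min δ1 L.δ, lt_min hδ1 L.hδ, min_le_right _ _, L.ClE1_t_invol.toPerm, ?_,
    fun a h => ⟨L.ClE1_t_x_odd h, L.ClE1_t_y_odd h⟩,
    fun a h => ⟨L.ClE1_t_x_even h, L.ClE1_t_y_even h⟩, fun i h => L.ClE1_t_other h⟩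
  intro ρ hρ φ
  have hρ1 : ρ ∈ Ioo 0 δ1 := ⟨hρ.1, lt_of_lt_of_le hρ.2 (min_le_left _ _)⟩
  have hρ2 : ρ ∈ Ioo 0 L.δ := ⟨hρ.1, lt_of_lt_of_le hρ.2 (min_le_right _ _)⟩
  -- some label
  have hex : ∀ i, ∃ j, L.s i ρ (φ + 2 * Real.pi) = L.s j ρ φ ∧ L.S0 i = L.S0 j := by
    intro i
    have h1 := L.pts ρ hρ2 (φ + 2 * Real.pi)
    have h2 := L.pts ρ hρ2 φ
    rw [ClE1_pol] at h1
    have h3 : (L.s i ρ (φ + 2 * Real.pi), L.ty i) ∈ range (fun i => (L.s i ρ φ, L.ty i)) := by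
      rw [← h2, h1]
      exact ⟨i, rfl⟩
    obtain ⟨j, hj⟩ := h3
    have hj1 : L.s j ρ φ = L.s i ρ (φ + 2 * Real.pi) := congrArg Prod.fst hj
    refine ⟨j, hj1.symm, ?_⟩
    by_contra hne
    have h4 := hsep i j hne
    have h5 := hlim ρ hρ1 hρ2.2 (φ + 2 * Real.pi) i
    have h6 := hlim ρ hρ1 hρ2.2 φ j
    have h7 : dist (L.S0 i) (L.S0 j) ≤ dist (L.s i ρ (φ + 2 * Real.pi)) (L.S0 i) +
        dist (L.s j ρ φ) (L.S0 j) := by
      rw [← hj1, dist_comm (L.s j ρ φ) (L.S0 i)]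
      exact dist_triangle _ _ _
    linarith
  -- pairs
  have hpair : ∀ a, (Odd (L.k a) → L.s (L.x a) ρ (φ + 2 * Real.pi) = L.s (L.y a) ρ φ ∧
      L.s (L.y a) ρ (φ + 2 * Real.pi) = L.s (L.x a) ρ φ) ∧
      (Even (L.k a) → L.s (L.x a) ρ (φ + 2 * Real.pi) = L.s (L.x a) ρ φ ∧
      L.s (L.y a) ρ (φ + 2 * Real.pi) = L.s (L.y a) ρ φ) := by
    intro a
    have hx : L.s (L.x a) ρ (φ + 2 * Real.pi) = L.s (L.x a) ρ φ ∨
        L.s (L.x a) ρ (φ + 2 * Real.pi) = L.s (L.y a) ρ φ := by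
      obtain ⟨j, hj1, hj2⟩ := hex (L.x a)
      rcases L.S0inj _ _ hj2 with h | ⟨b, ⟨hb1, hb2⟩ | ⟨hb1, hb2⟩⟩
      · left; rw [hj1, ← h]
      · right; rw [hj1, hb2, ← L.xinj hb1]
      · exact absurd hb1 (L.xy a b)
    have hy : L.s (L.y a) ρ (φ + 2 * Real.pi) = L.s (L.y a) ρ φ ∨
        L.s (L.y a) ρ (φ + 2 * Real.pi) = L.s (L.x a) ρ φ := by
      obtain ⟨j, hj1, hj2⟩ := hex (L.y a)
      rcases L.S0inj _ _ hj2 with h | ⟨b, ⟨hb1, hb2⟩ | ⟨hb1, hb2⟩⟩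
      · left; rw [hj1, ← h]
      · exact absurd hb1.symm (L.xy b a)
      · right; rw [hj1, hb2, ← L.yinj hb1]
    have hne : L.s (L.x a) ρ (φ + 2 * Real.pi) ≠ L.s (L.y a) ρ (φ + 2 * Real.pi) := fun h =>
      L.xy a a (L.inj ρ hρ2 _ h)
    have hne0 : L.s (L.x a) ρ φ ≠ L.s (L.y a) ρ φ := fun h => L.xy a a (L.inj ρ hρ2 _ h)
    have hcases : (L.s (L.x a) ρ (φ + 2 * Real.pi) = L.s (L.x a) ρ φ ∧
        L.s (L.y a) ρ (φ + 2 * Real.pi) = L.s (L.y a) ρ φ) ∨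
        (L.s (L.x a) ρ (φ + 2 * Real.pi) = L.s (L.y a) ρ φ ∧
        L.s (L.y a) ρ (φ + 2 * Real.pi) = L.s (L.x a) ρ φ) := by
      rcases hx with hx | hx <;> rcases hy with hy | hy
      · exact Or.inl ⟨hx, hy⟩
      · exact absurd (hx.trans hy.symm) hne
      · exact absurd (hx.trans hy.symm) hne
      · exact Or.inr ⟨hx, hy⟩
    have hA := L.θarg a ρ hρ2 φ
    have hB := L.θarg a ρ hρ2 (φ + 2 * Real.pi)
    rw [L.θper a ρ hρ2 φ, ClE1_exp] at hB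
    have hd : L.s (L.y a) ρ φ - L.s (L.x a) ρ φ ≠ 0 := sub_ne_zero.mpr hne0.symm
    rcases hcases with ⟨h1, h2⟩ | ⟨h1, h2⟩
    · rw [h1, h2, ← mul_assoc, ← hA] at hB
      refine ⟨fun ho => ?_, fun _ => ⟨h1, h2⟩⟩
      rw [ho.neg_one_pow] at hB
      exfalso
      apply hd
      linear_combination (1 / 2 : ℂ) * hB
    · rw [h1, h2, norm_sub_rev, ← mul_assoc, ← hA] at hB
      refine ⟨fun _ => ⟨h1, h2⟩, fun he => ?_⟩
      rw [he.neg_one_pow] at hB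
      exfalso
      apply hd
      linear_combination (-1 / 2 : ℂ) * hB
  intro i
  change L.s i ρ (φ + 2 * Real.pi) = L.s (L.ClE1_t i) ρ φ
  by_cases hx : ∃ a, i = L.x a
  · obtain ⟨a, rfl⟩ := hx
    rcases Nat.even_or_odd (L.k a) with h | h
    · rw [L.ClE1_t_x_even h, ((hpair a).2 h).1]
    · rw [L.ClE1_t_x_odd h, ((hpair a).1 h).1]
  · by_cases hy : ∃ a, i = L.y a
    · obtain ⟨a, rfl⟩ := hy
      rcases Nat.even_or_odd (L.k a) with h | h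
      · rw [L.ClE1_t_y_even h, ((hpair a).2 h).2]
      · rw [L.ClE1_t_y_odd h, ((hpair a).1 h).2]
    · have h : ∀ a, i ≠ L.x a ∧ i ≠ L.y a := fun a => ⟨fun e => hx ⟨a, e⟩, fun e => hy ⟨a, e⟩⟩
      rw [L.ClE1_t_other h]
      obtain ⟨j, hj1, hj2⟩ := hex i
      rcases L.S0inj _ _ hj2 with e | ⟨b, ⟨hb1, hb2⟩ | ⟨hb1, hb2⟩⟩
      · rw [hj1, ← e]
      · exact absurd hb1 (h b).1
      · exact absurd hb1 (h b).2

end LMod

end Pool.Agent.HK
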