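import Pool.Agent.H.MP_cd3d06_an.K.CombB
import Pool.Agent.H.MP_cd3d06_an.K.CombC

/-!
Part A: the combinatorial interface.  `Bd n g r A` is the only quantity that is followed along the
sweep; it starts with `A = -n` for the trivial braid, and ends with `-2n ≤ A`.
-/

namespace Pool.Agent.HK

variable {n : ℕ}

/-- Elements of the internal subgroup (and their inverses) are values of words without the letter `n - 1`. -/
theorem Comb_int {a : Brd (2 * n)} (ha : a ∈ intB n) :
    ∃ α β : BW, (∀ x ∈ α, x.1 ≠ n - 1) ∧ (∀ x ∈ β, x.1 ≠ n - 1) ∧ el (2 * n) α = a ∧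
      el (2 * n) β = a⁻¹ := by
  refine Subgroup.closure_induction ?_ ?_ ?_ ?_ ha
  · rintro x ⟨i, hi, rfl⟩
    refine ⟨[(i, true)], [(i, false)], ?_, ?_, ?_, ?_⟩
    · intro x hx
      rw [List.mem_singleton] at hx
      rw [hx]; exact hi
    · intro x hx
      rw [List.mem_singleton] at hx
      rw [hx]; exact hi
    · simp [el]
    · simp [el]
  · exact ⟨[], [], by simp, by simp, el_nil _, by rw [el_nil, inv_one]⟩
  · rintro x y - - ⟨α, β, h1, h2, h3, h4⟩ ⟨α', β', h1', h2', h3', h4'⟩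
    refine ⟨α ++ α', β' ++ β, ?_, ?_, ?_, ?_⟩
    · intro z hz
      rcases List.mem_append.1 hz with hz | hz
      · exact h1 z hz
      · exact h1' z hz
    · intro z hz
      rcases List.mem_append.1 hz with hz | hz
      · exact h2' z hz
      · exact h2 z hz
    · rw [el_append, h3, h3']
    · rw [el_append, h4, h4', mul_inv_rev]
  · rintro x - ⟨α, β, h1, h2, h3, h4⟩
    exact ⟨β, α, h2, h1, h4, by rw [h3, inv_inv]⟩

theorem Comb_good_mono {N : ℕ} {w : Word N} {r : Row N} {l l' : ℤ} (h : Good w r l) (hl : l' ≤ l) :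
    Good w r l' := by
  obtain ⟨y, hy⟩ := h
  exact ⟨y, fun v hv e he => hy v hv e (by omega)⟩

/-- PROOF. `a ∈ intB n` is `el` of a word with letters `i ≠ n-1` (closure induction), same for `a'`. By `good_self` `Good (tw (α ++ Wd n ++ α')) (rR n) (wr - dimK)` and by `dimK_last` and monotonicity of `Good` in the level (`Lev` for `l` implies `Lev` for `l' ≤ l`: the condition on `e` becomes stronger) `GoodG (a * el (Wd n) * a') (rR n) (wrg - 2n)`. Now `h` gives `wrg - 2n ≤ wrg + A`. -/
theorem Bd.last (hn : 1 ≤ n) {a a' : Brd (2 * n)} (ha : a ∈ intB n) (ha' : a' ∈ intB n) {A : ℤ}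
    (h : Bd n (a * el (2 * n) (Wd n) * a') (rR n) A) : -(2 * n : ℤ) ≤ A := by
  obtain ⟨α, -, h1, -, h2, -⟩ := Comb_int ha
  obtain ⟨α', -, h1', -, h2', -⟩ := Comb_int ha'
  have hel : el (2 * n) (α ++ Wd n ++ α') = a * el (2 * n) (Wd n) * a' := by
    rw [el_append, el_append, h2, h2']
  have hd := dimK_last hn α α' h1 h1'
  have hg := good_self (tw (2 * n) (α ++ Wd n ++ α')) (rR n)
  have hl := h (wr (tw (2 * n) (α ++ Wd n ++ α')) (rR n) - 2 * n)
    ⟨α ++ Wd n ++ α', hel, Comb_good_mono hg (by omega)⟩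
  rw [← hel, wrg_el] at hl
  linarith

end Pool.Agent.HK
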