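import Pool.Agent.H.MP_cd3d06_an.K.Brd

/-!
Part A: the combinatorial interface.  `Bd n g r A` is the only quantity that is followed along the
sweep; it starts with `A = -n` for the trivial braid, and ends with `-2n ≤ A`.
-/

namespace Pool.Agent.HK

/-! ### Letters, rows and the writhe in the group version -/

/-- the letter of a generator -/
def CombA_lt {N : ℕ} (i : ℕ) (hi : i + 1 < N) (b : Bool) : Letter N :=
  ⟨⟨i, by omega⟩, ⟨i + 1, hi⟩, by simp [Fin.ext_iff], b⟩

theorem CombA_tw_cons {N : ℕ} {i : ℕ} (hi : i + 1 < N) (b : Bool) (w : BW) :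
    tw N ((i, b) :: w) = CombA_lt i hi b :: tw N w := by
  simp only [tw, List.filterMap_cons]
  rw [dif_pos (show (i, b).1 + 1 < N from hi)]
  rfl

theorem CombA_nxt_sign {N : ℕ} (p q : Fin N) (h : p ≠ q) (b b' : Bool) (r : Row N) :
    nxt ⟨p, q, h, b⟩ r = nxt ⟨p, q, h, b'⟩ r := rfl

theorem CombA_nxt_swap {N : ℕ} (p q : Fin N) (h : p ≠ q) (b : Bool) (r : Row N) :
    nxt ⟨q, p, h.symm, b⟩ r = nxt ⟨p, q, h, b⟩ r := by
  have hf : flip q p r = flip p q r := by
    funext j
    simp only [flip, or_comm]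
  show (if r q = r p then flip q p r else r) = if r p = r q then flip p q r else r
  rw [hf]
  by_cases hr : r p = r q
  · rw [if_pos hr, if_pos hr.symm]
  · rw [if_neg hr, if_neg fun h' => hr h'.symm]

theorem CombA_el_single {N : ℕ} (i : ℕ) (b : Bool) :
    el N [(i, b)] = if b then sg N i else (sg N i)⁻¹ := by
  simp [el]

theorem CombA_fing_sg {N : ℕ} {i : ℕ} (hi : i + 1 < N) (b : Bool) (r : Row N) :
    fing r (sg N i) = nxt (CombA_lt i hi b) r := by
  have h := fing_el r (N := N) [(i, true)]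
  rw [CombA_el_single, if_pos rfl, CombA_tw_cons hi] at h
  rw [h]
  rfl

theorem CombA_fing_sg_inv {N : ℕ} {i : ℕ} (hi : i + 1 < N) (b : Bool) (r : Row N) :
    fing r (sg N i)⁻¹ = nxt (CombA_lt i hi b) r := by
  have h := fing_el r (N := N) [(i, false)]
  rw [CombA_el_single, if_neg (by simp), CombA_tw_cons hi] at h
  rw [h]
  rfl

theorem CombA_wrg_sg {N : ℕ} {i : ℕ} (hi : i + 1 < N) (r : Row N) :
    wrg r (sg N i) = if r ⟨i, by omega⟩ = r ⟨i + 1, hi⟩ then 1 else -1 := by
  have h := wrg_el r (N := N) [(i, true)]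
  rw [CombA_el_single, if_pos rfl, CombA_tw_cons hi] at h
  rw [h]
  simp [wr, CombA_lt, tw]

theorem CombA_wrg_sg_inv {N : ℕ} {i : ℕ} (hi : i + 1 < N) (r : Row N) :
    wrg r (sg N i)⁻¹ = if r ⟨i, by omega⟩ = r ⟨i + 1, hi⟩ then -1 else 1 := by
  have h := wrg_el r (N := N) [(i, false)]
  rw [CombA_el_single, if_neg (by simp), CombA_tw_cons hi] at h
  rw [h]
  by_cases hr : r ⟨i, by omega⟩ = r ⟨i + 1, hi⟩
  · simp [wr, CombA_lt, tw, hr]
  · simp [wr, CombA_lt, tw, hr]

variable {n : ℕ}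

def Bd (n : ℕ) (g : Brd (2 * n)) (r : Row (2 * n)) (A : ℤ) : Prop :=
  ∀ l : ℤ, GoodG g r l → l ≤ wrg r g + A

/-- the symmetric subgroup: generated by `σ_i σ_{2n-2-i}⁻¹`, `i < n - 1` -/
def symB (n : ℕ) : Subgroup (Brd (2 * n)) :=
  Subgroup.closure {g | ∃ i, i + 1 < n ∧ g = sg (2 * n) i * (sg (2 * n) (2 * n - 2 - i))⁻¹}

theorem Bd.one {r : Row (2 * n)} (hr : Sym r) : Bd n 1 r (-(n : ℤ)) := by
  rintro l ⟨w, hw, hg⟩
  have h1 : Good (tw (2 * n) []) r l :=
    good_of_el_eq (even_two_mul n) (w' := []) (by rw [hw, el_nil]) r l hg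
  have h2 := good_nil n r hr l h1
  rw [wrg_one]
  linarith

/-- a pair of mirror letters keeps symmetric rows symmetric -/
private theorem CombA_sym_pair {a b : ℕ} (hab : a + b + 2 = 2 * n) (ha : a + 1 ≠ n)
    {r : Row (2 * n)} (hr : Sym r) : Sym (fing r (sg (2 * n) a * (sg (2 * n) b)⁻¹)) ∧
      wrg r (sg (2 * n) a * (sg (2 * n) b)⁻¹) = 0 := by
  have ha1 : a + 1 < 2 * n := by omega
  have hb1 : b + 1 < 2 * n := by omega
  rw [fing_mul, wrg_mul, CombA_fing_sg ha1 true, CombA_fing_sg_inv hb1 true, CombA_wrg_sg ha1,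
    CombA_wrg_sg_inv hb1]
  set p : Fin (2 * n) := ⟨a, by omega⟩ with hp
  set q : Fin (2 * n) := ⟨a + 1, ha1⟩ with hq
  have hb0 : (⟨b, by omega⟩ : Fin (2 * n)) = q.rev := by
    ext; simp [hq, Fin.val_rev]; omega
  have hb2 : (⟨b + 1, hb1⟩ : Fin (2 * n)) = p.rev := by
    ext; simp [hp, Fin.val_rev]; omega
  have n1 : q.rev ≠ p := by
    intro h; have := congrArg Fin.val h; simp [hp, hq, Fin.val_rev] at this; omega
  have n2 : q.rev ≠ q := by
    intro h; have := congrArg Fin.val h; simp [hq, Fin.val_rev] at this; omega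
  have n3 : p.rev ≠ p := by
    intro h; have := congrArg Fin.val h; simp [hp, Fin.val_rev] at this; omega
  have n4 : p.rev ≠ q := by
    intro h; have := congrArg Fin.val h; simp [hp, hq, Fin.val_rev] at this; omega
  have e1 : r q.rev = r q := hr q
  have e2 : r p.rev = r p := hr p
  have hl1 : nxt (CombA_lt a ha1 true) r = if r p = r q then flip p q r else r := rfl
  by_cases hA : r p = r q
  · rw [if_pos hA] at hl1
    have f1 : (flip p q r) q.rev = r q.rev := by simp [flip, n1, n2]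
    have f2 : (flip p q r) p.rev = r p.rev := by simp [flip, n3, n4]
    have hB : (flip p q r) q.rev = (flip p q r) p.rev := by rw [f1, f2, e1, e2, hA]
    have hl2 : nxt (CombA_lt b hb1 true) (flip p q r) = flip q.rev p.rev (flip p q r) := by
      show (if (flip p q r) ⟨b, by omega⟩ = (flip p q r) ⟨b + 1, hb1⟩ then
        flip ⟨b, by omega⟩ ⟨b + 1, hb1⟩ (flip p q r) else flip p q r) = _
      rw [hb0, hb2, if_pos hB]
    rw [hl1, hl2]
    refine ⟨?_, ?_⟩
    · intro j
      simp only [flip]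
      have c1 : j.rev = q.rev ↔ j = q := by
        constructor
        · intro h; exact Fin.rev_injective h
        · rintro rfl; rfl
      have c2 : j.rev = p.rev ↔ j = p := by
        constructor
        · intro h; exact Fin.rev_injective h
        · rintro rfl; rfl
      have c3 : j.rev = q ↔ j = q.rev := by
        constructor
        · intro h; rw [← h, Fin.rev_rev]
        · rintro rfl; exact Fin.rev_rev q
      have c4 : j.rev = p ↔ j = p.rev := by
        constructor
        · intro h; rw [← h, Fin.rev_rev]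
        · rintro rfl; exact Fin.rev_rev p
      simp only [c1, c2, c3, c4, hr j]
      by_cases d1 : j = q
      · subst d1
        simp [n2.symm, n4.symm]
      · by_cases d2 : j = p
        · subst d2
          simp [n1.symm, n3.symm]
        · by_cases d3 : j = q.rev
          · simp [d3, n1, n2]
          · by_cases d4 : j = p.rev
            · simp [d4, n3, n4]
            · simp [d1, d2, d3, d4]
    · rw [if_pos hA, hb0, hb2, if_pos hB]
      norm_num
  · rw [if_neg hA] at hl1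
    have hB : r q.rev ≠ r p.rev := by rw [e1, e2]; exact fun h => hA h.symm
    have hl2 : nxt (CombA_lt b hb1 true) r = r := by
      show (if r ⟨b, by omega⟩ = r ⟨b + 1, hb1⟩ then _ else _) = _
      rw [hb0, hb2, if_neg hB]
    rw [hl1, hl2]
    refine ⟨hr, ?_⟩
    rw [if_neg hA, hb0, hb2, if_neg hB]
    norm_num

/-- the inverse of a generator of the symmetric subgroup is of the same kind -/
private theorem CombA_inv (a b : ℕ) :
    (sg (2 * n) a * (sg (2 * n) b)⁻¹)⁻¹ = sg (2 * n) b * (sg (2 * n) a)⁻¹ := by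
  rw [mul_inv_rev, inv_inv]

theorem sym_fing {s : Brd (2 * n)} (hs : s ∈ symB n) {r : Row (2 * n)} (hr : Sym r) :
    Sym (fing r s) := by
  have key : ∀ r : Row (2 * n), Sym r → Sym (fing r s) ∧ Sym (fing r s⁻¹) := by
    refine Subgroup.closure_induction
      (p := fun s _ => ∀ r : Row (2 * n), Sym r → Sym (fing r s) ∧ Sym (fing r s⁻¹)) ?_ ?_ ?_ ?_ hs
    · rintro x ⟨i, hi, rfl⟩ r hr
      refine ⟨(CombA_sym_pair (by omega) (by omega) hr).1, ?_⟩
      rw [CombA_inv]
      exact (CombA_sym_pair (by omega) (by omega) hr).1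
    · intro r hr
      rw [inv_one, fing_one]
      exact ⟨hr, hr⟩
    · intro x y _ _ hx hy r hr
      rw [mul_inv_rev, fing_mul, fing_mul]
      exact ⟨(hy _ (hx _ hr).1).1, (hx _ (hy _ hr).2).2⟩
    · intro x _ hx r hr
      rw [inv_inv]
      exact ⟨(hx _ hr).2, (hx _ hr).1⟩
  exact (key r hr).1

/-- the bound does not change under a pair of mirror letters on the left -/
private theorem CombA_bd_pair {a b : ℕ} (hab : a + b + 2 = 2 * n) (ha : a + 1 ≠ n)
    {g : Brd (2 * n)} {r : Row (2 * n)} (hr : Sym r) {A : ℤ}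
    (h : Bd n g (fing r (sg (2 * n) a * (sg (2 * n) b)⁻¹)) A) :
    Bd n (sg (2 * n) a * (sg (2 * n) b)⁻¹ * g) r A := by
  have ha1 : a + 1 < 2 * n := by omega
  have hb1 : b + 1 < 2 * n := by omega
  obtain ⟨hsym, hwr⟩ := CombA_sym_pair hab ha hr
  set s := sg (2 * n) a * (sg (2 * n) b)⁻¹ with hs
  have hsinv : s⁻¹ = sg (2 * n) b * (sg (2 * n) a)⁻¹ := CombA_inv a b
  intro l hl
  obtain ⟨w, hw, hg⟩ := hl
  -- the mirror positions
  set p : Fin (2 * n) := ⟨b, by omega⟩ with hp
  set q : Fin (2 * n) := ⟨b + 1, hb1⟩ with hq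
  have hpr : p.rev = ⟨a + 1, ha1⟩ := by
    ext; simp [hp, Fin.val_rev]; omega
  have hqr : q.rev = ⟨a, by omega⟩ := by
    ext; simp [hq, Fin.val_rev]; omega
  have hpq : p ≠ q := by simp [hp, hq, Fin.ext_iff]
  have k1 : q ≠ p.rev := by rw [hpr, hq]; simp [Fin.ext_iff]; omega
  have k2 : p ≠ p.rev := by rw [hpr, hp]; simp [Fin.ext_iff]; omega
  have k3 : q ≠ q.rev := by rw [hqr, hq]; simp [Fin.ext_iff]; omega
  set r' := fing r s with hr'
  have hne : (⟨a + 1, ha1⟩ : Fin (2 * n)) ≠ ⟨a, by omega⟩ := by simp [Fin.ext_iff]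
  have hword : ∀ w : Word (2 * n), wB2 p q hpq true w =
      CombA_lt b hb1 true :: ⟨⟨a + 1, ha1⟩, ⟨a, by omega⟩, hne, false⟩ :: w := by
    intro w
    simp only [wB2, hpr, hqr]
    rfl
  have hfin : fin (wB2 p q hpq true []) r' = r := by
    rw [hword]
    show nxt ⟨⟨a + 1, ha1⟩, ⟨a, by omega⟩, hne, false⟩ (nxt (CombA_lt b hb1 true) r') = r
    rw [CombA_nxt_swap ⟨a, by omega⟩ ⟨a + 1, ha1⟩ hne.symm false, ← CombA_fing_sg hb1 true]
    have h1 := CombA_fing_sg_inv ha1 false (fing r' (sg (2 * n) b))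
    have h2 : nxt ⟨⟨a, by omega⟩, ⟨a + 1, ha1⟩, hne.symm, false⟩ (fing r' (sg (2 * n) b)) =
        fing (fing r' (sg (2 * n) b)) (sg (2 * n) a)⁻¹ := h1.symm
    rw [h2, ← fing_mul, ← hsinv, hr', ← fing_mul, mul_inv_cancel, fing_one]
  have hB2 := good_B2 (even_two_mul n) p q hpq k1 k2 k3 true (tw (2 * n) w) r' hsym l
    (by rw [hfin]; exact hg)
  rw [hword] at hB2
  have hsw := good_swap [CombA_lt b hb1 true] (tw (2 * n) w) _ _ hne false r' l hB2
  have hgood : Good (tw (2 * n) ((b, true) :: (a, false) :: w)) r' l := by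
    rw [CombA_tw_cons hb1, CombA_tw_cons ha1]
    exact hsw
  have hGG : GoodG g r' l := by
    refine ⟨(b, true) :: (a, false) :: w, ?_, hgood⟩
    rw [el_cons, el_cons, hw, ← mul_assoc]
    simp only [if_true, Bool.false_eq_true, if_false]
    rw [← hsinv, ← mul_assoc, inv_mul_cancel, one_mul]
  have h3 := h l hGG
  rw [wrg_mul, hwr, zero_add]
  exact h3

theorem Bd.sym {s g : Brd (2 * n)} (hs : s ∈ symB n) {r : Row (2 * n)} (hr : Sym r) {A : ℤ}
    (h : Bd n g (fing r s) A) : Bd n (s * g) r A := by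
  have key : ∀ (g : Brd (2 * n)) (r : Row (2 * n)), Sym r →
      (Bd n g (fing r s) A → Bd n (s * g) r A) ∧ (Bd n g (fing r s⁻¹) A → Bd n (s⁻¹ * g) r A) := by
    refine Subgroup.closure_induction
      (p := fun s _ => ∀ (g : Brd (2 * n)) (r : Row (2 * n)), Sym r →
      (Bd n g (fing r s) A → Bd n (s * g) r A) ∧ (Bd n g (fing r s⁻¹) A → Bd n (s⁻¹ * g) r A))
      ?_ ?_ ?_ ?_ hs
    · rintro x ⟨i, hi, rfl⟩ g r hr
      refine ⟨CombA_bd_pair (by omega) (by omega) hr, ?_⟩
      rw [CombA_inv]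
      exact CombA_bd_pair (by omega) (by omega) hr
    · intro g r hr
      rw [inv_one, fing_one, one_mul]
      exact ⟨id, id⟩
    · intro x y hxm hym hx hy g r hr
      rw [mul_inv_rev, fing_mul, fing_mul, mul_assoc, mul_assoc]
      refine ⟨fun h => ?_, fun h => ?_⟩
      · exact (hx _ _ hr).1 ((hy _ _ (sym_fing hxm hr)).1 h)
      · exact (hy _ _ hr).2 ((hx _ _ (sym_fing ((symB n).inv_mem hym) hr)).2 h)
    · intro x _ hx g r hr
      rw [inv_inv]
      exact ⟨(hx _ _ hr).2, (hx _ _ hr).1⟩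
  exact (key g r hr).1 h

theorem Bd.zero (hn : 1 ≤ n) {g : Brd (2 * n)} {r : Row (2 * n)} (hr : Sym r) {A : ℤ}
    (h : Bd n g (fing r (sg (2 * n) (n - 1))) A) : Bd n (sg (2 * n) (n - 1) * g) r (A - 1) := by
  have h1 : n - 1 + 1 < 2 * n := by omega
  set s := sg (2 * n) (n - 1) with hs
  set p : Fin (2 * n) := ⟨n - 1, by omega⟩ with hp
  set q : Fin (2 * n) := ⟨n - 1 + 1, h1⟩ with hq
  have hpr : p.rev = q := by
    ext; simp [hp, hq, Fin.val_rev]; omega
  have hpq : p ≠ q := by simp [hp, hq, Fin.ext_iff]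
  have hppr : p ≠ p.rev := by rw [hpr]; exact hpq
  have hrpq : r p = r q := by rw [← hpr]; exact (hr p).symm
  set r' := fing r s with hr'
  have hr'e : r' = flip p q r := by
    rw [hr', hs, CombA_fing_sg h1 true]
    show (if r p = r q then flip p q r else r) = _
    rw [if_pos hrpq]
  have hsym : Sym r' := by
    rw [hr'e]
    intro j
    simp only [flip]
    have c1 : j.rev = q ↔ j = p := by
      rw [← hpr]
      constructor
      · intro h; exact Fin.rev_injective h
      · rintro rfl; rfl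
    have c2 : j.rev = p ↔ j = q := by
      rw [← hpr]
      constructor
      · intro h; rw [← h, Fin.rev_rev]
      · rintro rfl; exact Fin.rev_rev p
    simp only [c1, c2, hr j, or_comm]
  rintro l ⟨w, hw, hg⟩
  have hlet : ∀ b, (⟨p, p.rev, hppr, b⟩ : Letter (2 * n)) = CombA_lt (n - 1) h1 b := by
    intro b
    simp only [hpr]
    rfl
  have hnx : nxt ⟨p, p.rev, hppr, false⟩ r' = r := by
    rw [hlet, ← CombA_fing_sg_inv h1 false, hr', ← fing_mul, hs, mul_inv_cancel, fing_one]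
  have hB1 := good_B1 p hppr (tw (2 * n) w) r' hsym l (by rw [hnx]; exact hg)
  have hGG : GoodG g r' l := by
    refine ⟨(n - 1, false) :: w, ?_, ?_⟩
    · rw [el_cons, hw]
      simp only [Bool.false_eq_true, if_false]
      rw [← mul_assoc, inv_mul_cancel, one_mul]
    · rw [CombA_tw_cons h1, ← hlet]
      exact hB1
  have h3 := h l hGG
  have h4 : wrg r s = 1 := by
    rw [hs, CombA_wrg_sg h1, if_pos hrpq]
  rw [wrg_mul, h4]
  linarith

end Pool.Agent.HK
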