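import Pool.Agent.H.MP_cd3d06_an.K.CombA

/-!
Part A: the combinatorial interface.  `Bd n g r A` is the only quantity that is followed along the
sweep; it starts with `A = -n` for the trivial braid, and ends with `-2n ≤ A`.
-/

namespace Pool.Agent.HK

variable {n : ℕ}

/-- words around one positive letter -/
private theorem CombB_split {X Y : Brd (2 * n)} {r : Row (2 * n)} {i : ℕ} (hi : i + 1 < 2 * n)
    {l : ℤ} (hg : GoodG (X * sg (2 * n) i * Y) r l) :
    ∃ wx wy : BW, el (2 * n) wx = X ∧ el (2 * n) wy = Y ∧ fin (tw (2 * n) wx) r = fing r X ∧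
      Good (tw (2 * n) wx ++ CombA_lt i hi true :: tw (2 * n) wy) r l := by
  obtain ⟨wx, hwx⟩ := el_surj (2 * n) X
  obtain ⟨wy, hwy⟩ := el_surj (2 * n) Y
  refine ⟨wx, wy, hwx, hwy, ?_, ?_⟩
  · rw [← hwx, fing_el]
  · obtain ⟨w, hw, hgood⟩ := hg
    have h1 : el (2 * n) w = el (2 * n) (wx ++ (i, true) :: wy) := by
      rw [hw, el_append, el_cons, hwx, hwy, if_pos rfl, mul_assoc]
    have h2 := good_of_el_eq (even_two_mul n) h1 r l hgood
    rw [tw_append, CombA_tw_cons hi] at h2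
    exact h2

private theorem CombB_sr {X Y : Brd (2 * n)} {r : Row (2 * n)} {i : ℕ} (hi : i + 1 < 2 * n)
    (ht : fing r X ⟨i, by omega⟩ ≠ fing r X ⟨i + 1, hi⟩) {l : ℤ}
    (hg : GoodG (X * sg (2 * n) i * Y) r l) : GoodG (X * Y) r (l - 1) := by
  obtain ⟨wx, wy, hx, hy, hf, h⟩ := CombB_split hi hg
  have h1 := good_SR (tw (2 * n) wx) (tw (2 * n) wy) ⟨i, by omega⟩ ⟨i + 1, hi⟩
    (by simp [Fin.ext_iff]) r l (by rw [hf]; exact ht) h
  refine ⟨wx ++ wy, by rw [el_append, hx, hy], ?_⟩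
  rw [tw_append]
  exact h1

private theorem CombB_ccs {X Y : Brd (2 * n)} {r : Row (2 * n)} {i : ℕ} (hi : i + 1 < 2 * n)
    (ht : fing r X ⟨i, by omega⟩ ≠ fing r X ⟨i + 1, hi⟩) {l : ℤ}
    (hg : GoodG (X * sg (2 * n) i * (sg (2 * n) i * Y)) r l) : GoodG (X * Y) r l := by
  obtain ⟨wx, wy, hx, hy, hf, h⟩ := CombB_split hi hg
  have h1 := good_CCs (tw (2 * n) wx) (tw (2 * n) wy) ⟨i, by omega⟩ ⟨i + 1, hi⟩
    (by simp [Fin.ext_iff]) r l (by rw [hf]; exact ht) h
  refine ⟨wx ++ (i, false) :: wy, ?_, ?_⟩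
  · rw [el_append, el_cons, hx, hy, if_neg (by simp), inv_mul_cancel_left]
  · rw [tw_append, CombA_tw_cons hi]
    exact h1

private theorem CombB_cco {X Y : Brd (2 * n)} {r : Row (2 * n)} {i : ℕ} (hi : i + 1 < 2 * n)
    (ht : fing r X ⟨i, by omega⟩ = fing r X ⟨i + 1, hi⟩) {l : ℤ}
    (hg : GoodG (X * sg (2 * n) i * (sg (2 * n) i * Y)) r l) : GoodG (X * Y) r (l - 2) := by
  obtain ⟨wx, wy, hx, hy, hf, h⟩ := CombB_split hi hg
  have h1 := good_CCo (tw (2 * n) wx) (tw (2 * n) wy) ⟨i, by omega⟩ ⟨i + 1, hi⟩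
    (by simp [Fin.ext_iff]) r l (by rw [hf]; exact ht) h
  refine ⟨wx ++ (i, false) :: wy, ?_, ?_⟩
  · rw [el_append, el_cons, hx, hy, if_neg (by simp), inv_mul_cancel_left]
  · rw [tw_append, CombA_tw_cons hi]
    exact h1

/-- same type letters do not change the row -/
private theorem CombB_row_same {r : Row (2 * n)} {i : ℕ} (hi : i + 1 < 2 * n)
    (ht : r ⟨i, by omega⟩ ≠ r ⟨i + 1, hi⟩) (k : ℕ) :
    fing r (sg (2 * n) i ^ k) = r ∧ wrg r (sg (2 * n) i ^ k) = -(k : ℤ) := by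
  have h1 : fing r (sg (2 * n) i) = r := by
    rw [CombA_fing_sg hi true]
    show (if r ⟨i, _⟩ = r ⟨i + 1, hi⟩ then _ else r) = r
    rw [if_neg ht]
  have h2 : wrg r (sg (2 * n) i) = -1 := by
    rw [CombA_wrg_sg hi, if_neg ht]
  induction k with
  | zero => simp
  | succ k ih =>
    rw [pow_succ, fing_mul, wrg_mul, ih.1, ih.2, h1, h2]
    refine ⟨rfl, ?_⟩
    push_cast
    ring

/-- two opposite type letters do not change the row -/
private theorem CombB_row_opp {r : Row (2 * n)} {i : ℕ} (hi : i + 1 < 2 * n)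
    (ht : r ⟨i, by omega⟩ = r ⟨i + 1, hi⟩) (k : ℕ) :
    fing r (sg (2 * n) i ^ (2 * k)) = r ∧ wrg r (sg (2 * n) i ^ (2 * k)) = 2 * (k : ℤ) := by
  set p : Fin (2 * n) := ⟨i, by omega⟩ with hp
  set q : Fin (2 * n) := ⟨i + 1, hi⟩ with hq
  have h0 : fing r (sg (2 * n) i) = flip p q r := by
    rw [CombA_fing_sg hi true]
    show (if r p = r q then flip p q r else r) = _
    rw [if_pos ht]
  have ht' : flip p q r p = flip p q r q := by simp [flip, ht]
  have h1 : fing r (sg (2 * n) i ^ 2) = r := by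
    rw [pow_two, fing_mul, h0, CombA_fing_sg hi true]
    show (if flip p q r p = flip p q r q then flip p q (flip p q r) else flip p q r) = r
    rw [if_pos ht']
    funext j
    simp only [flip]
    have h2 : (1 : ZMod 2) + 1 = 0 := by decide
    split_ifs with h
    · rw [add_assoc, h2, add_zero]
    · rfl
  have h2 : wrg r (sg (2 * n) i ^ 2) = 2 := by
    rw [pow_two, wrg_mul, h0, CombA_wrg_sg hi, CombA_wrg_sg hi, if_pos ht, if_pos ht']
    norm_num
  induction k with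
  | zero => simp
  | succ k ih =>
    rw [Nat.mul_succ, pow_add, fing_mul, wrg_mul, ih.1, ih.2, h1, h2]
    refine ⟨rfl, ?_⟩
    push_cast
    ring

private theorem CombB_good_same {X Y : Brd (2 * n)} {r : Row (2 * n)} {i : ℕ} (hi : i + 1 < 2 * n)
    (ht : fing r X ⟨i, by omega⟩ ≠ fing r X ⟨i + 1, hi⟩) {l : ℤ} : ∀ k : ℕ,
    GoodG (X * sg (2 * n) i ^ k * Y) r l → GoodG (X * Y) r (l - (k % 2 : ℕ))
  | 0, h => by simpa using h
  | 1, h => by
      rw [pow_one] at h
      simpa using CombB_sr hi ht h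
  | k + 2, h => by
      have h1 : X * sg (2 * n) i ^ (k + 2) * Y =
          X * sg (2 * n) i * (sg (2 * n) i * (sg (2 * n) i ^ k * Y)) := by
        rw [pow_add, pow_two, (Commute.pow_self (sg (2 * n) i) k |>.mul_right
          (Commute.pow_self (sg (2 * n) i) k)).eq]
        simp only [mul_assoc]
      rw [h1] at h
      have h2 := CombB_ccs hi ht h
      rw [← mul_assoc] at h2
      have h3 := CombB_good_same hi ht k h2
      have h4 : (k + 2) % 2 = k % 2 := by omega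
      rw [h4]
      exact h3

private theorem CombB_good_opp {X Y : Brd (2 * n)} {r : Row (2 * n)} {i : ℕ} (hi : i + 1 < 2 * n)
    (ht : fing r X ⟨i, by omega⟩ = fing r X ⟨i + 1, hi⟩) : ∀ (k : ℕ) (l : ℤ),
    GoodG (X * sg (2 * n) i ^ (2 * k) * Y) r l → GoodG (X * Y) r (l - 2 * k)
  | 0, l, h => by simpa using h
  | k + 1, l, h => by
      have h1 : X * sg (2 * n) i ^ (2 * (k + 1)) * Y =
          X * sg (2 * n) i * (sg (2 * n) i * (sg (2 * n) i ^ (2 * k) * Y)) := by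
        rw [Nat.mul_succ, pow_add, pow_two, (Commute.pow_self (sg (2 * n) i) (2 * k) |>.mul_right
          (Commute.pow_self (sg (2 * n) i) (2 * k))).eq]
        simp only [mul_assoc]
      rw [h1] at h
      have h2 := CombB_cco hi ht h
      rw [← mul_assoc] at h2
      have h3 := CombB_good_opp hi ht k _ h2
      have h4 : l - 2 - 2 * (k : ℤ) = l - 2 * ((k + 1 : ℕ) : ℤ) := by push_cast; ring
      rw [h4] at h3
      exact h3

theorem Bd.same {X Y : Brd (2 * n)} {r : Row (2 * n)} {i : ℕ} (hi : i + 1 < 2 * n) (k : ℕ)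
    (ht : fing r X ⟨i, by omega⟩ ≠ fing r X ⟨i + 1, hi⟩) {A : ℤ} (h : Bd n (X * Y) r A) :
    Bd n (X * sg (2 * n) i ^ k * Y) r (A + k + (k % 2 : ℕ)) := by
  intro l hl
  have h1 := h _ (CombB_good_same hi ht k hl)
  obtain ⟨h2, h3⟩ := CombB_row_same hi ht k
  rw [mul_assoc, wrg_mul, wrg_mul, h2, h3]
  rw [wrg_mul] at h1
  linarith

/-- an opposite type collision -/
theorem Bd.opp {X Y : Brd (2 * n)} {r : Row (2 * n)} {i : ℕ} (hi : i + 1 < 2 * n) (k : ℕ)
    (ht : fing r X ⟨i, by omega⟩ = fing r X ⟨i + 1, hi⟩) {A : ℤ} (h : Bd n (X * Y) r A) :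
    Bd n (X * sg (2 * n) i ^ (2 * k) * Y) r A := by
  intro l hl
  have h1 := h _ (CombB_good_opp hi ht k l hl)
  obtain ⟨h2, h3⟩ := CombB_row_opp hi ht k
  rw [mul_assoc, wrg_mul, wrg_mul, h2, h3]
  rw [wrg_mul] at h1
  linarith

end Pool.Agent.HK
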