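import Pool.Agent.H.MP_cd3d06_an.K.CprimB

/-! MP_cd3d06_an, part C, module Cprim: rows of primitives -/

namespace Pool.Agent.HK

open Complex Set Metric Filter Topology
open scoped ComplexConjugate

variable {n : ℕ} {Pts : ℂ → Set TP} {X : Type*} [TopologicalSpace X]

/-- the canonical row of a regular parameter -/
noncomputable def rowAt (n : ℕ) (Pts : ℂ → Set TP) (ζ : ℂ) : Row (2 * n) :=
  open Classical in if h : Nonempty (Chart n Pts ζ) then h.some.row ζ else 0

/-- `Chart.row_eq` -/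
theorem Chart.row_eq_rowAt {ζ0 ζ : ℂ} (C : Chart n Pts ζ0) (h : ζ ∈ ball ζ0 C.δ) :
    C.row ζ = rowAt n Pts ζ := by
  have hne : Nonempty (Chart n Pts ζ) := (exists_chart (C.isRegPt h) one_pos).nonempty
  rw [rowAt, dif_pos hne]
  exact C.row_eq hne.some h (mem_ball_self hne.some.hδ)

/-- the row of any injective typed enumeration of `Pts ζ`, sorted by the canonical key.
PROOF. `match_at` with a chart at `ζ` (`exists_chart`), `srt_map`; compare the entries of `rowOf`. -/
theorem row_eq_rowAt {ζ : ℂ} (hreg : IsRegPt n Pts ζ) {s : Fin (2 * n) → ℂ} {ty : Fin (2 * n) → ZMod 2}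
    (hi : Function.Injective s) (hP : Pts ζ = range (fun i => (s i, ty i))) :
    rowOf (2 * n) ty (srt (fun i => key (s i))) (srt_length _) = rowAt n Pts ζ := by
  obtain ⟨C, -⟩ := exists_chart hreg one_pos
  have hζ : ζ ∈ ball ζ C.δ := mem_ball_self C.hδ
  rw [← C.row_eq_rowAt hζ]
  obtain ⟨τ, hτ⟩ := match_at (s' := fun i => C.s i ζ) (ty' := C.ty) (ty := ty) hi
    (hP.symm.trans (C.pts ζ hζ))
  have hk : Function.Injective (fun i => key (C.s i ζ)) := key_injective.comp (C.inj ζ hζ)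
  have h1 := srt_map hk τ
  have h2 : (fun i => key (s i)) = fun i => key (C.s (τ i) ζ) := by
    funext i
    rw [(hτ i).1]
  have h3 : ty = C.ty ∘ τ := by
    funext i
    exact (hτ i).2
  have h4 : C.row ζ = Perm_row (2 * n) ((srt (fun i => key (C.s i ζ))).map C.ty) :=
    Perm_rowOf _ _ _ _
  rw [h4, Perm_rowOf, ← h1, List.map_map, h2, h3]

/-- the coordinate of a chart carries the row of the reference list to the canonical row (`fing_bw`) -/
theorem Chart.fing_β {ζ0 ζ : ℂ} (C : Chart n Pts ζ0) :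
    Pool.Agent.HK.fing (rowOf (2 * n) C.ty C.ref (srt_length _)) (C.β ζ) = C.row ζ :=
  fing_bw C.ty (srt_nodup _) (srt_length _) (srt_length _) ((srt_perm _).trans (srt_perm _).symm)

/-- C7: primitives carry canonical rows to canonical rows.
PROOF. The relation `fing (rowAt (γ x)) ((f x)⁻¹ * f x') = rowAt (γ x')` holds for `x' ` near `x` within `Y`:
`(f x)⁻¹ * f x' = (C.β (γ x))⁻¹ * C.β (γ x')` by `PrimAt.any`, `fing_mul`, `Chart.fing_β` (`fing` of
the inverse: `fing (fing r g) g⁻¹ = r`). Fix `x`; `x' ↦ fing (rowAt (γ x')) ((f x')⁻¹)` is locally constant on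
`Y`, because `fing (rowAt (γ x')) ((f x')⁻¹ ) = fing (rowAt (γ x'')) ((f x'')⁻¹)` for `x''` near `x'`:
`const_of_local`. -/
theorem IsPrim.fing {γ : X → ℂ} {f : X → Brd (2 * n)} {Y : Set X} (hY : IsPreconnected Y)
    (hγ : ContinuousOn γ Y) (h : IsPrim n Pts γ f Y) {x x' : X} (hx : x ∈ Y) (hx' : x' ∈ Y) :
    Pool.Agent.HK.fing (rowAt n Pts (γ x)) ((f x)⁻¹ * f x') = rowAt n Pts (γ x') := by
  have hc := const_of_local (f := fun y => Pool.Agent.HK.fing (rowAt n Pts (γ y)) (f y)⁻¹) hY (by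
    intro x0 hx0
    obtain ⟨C, hC⟩ := h x0 hx0
    have hb : ∀ᶠ y in 𝓝[Y] x0, γ y ∈ ball (γ x0) C.δ :=
      (hγ x0 hx0).eventually (ball_mem_nhds _ C.hδ)
    have key : ∀ y, f y = f x0 * (C.β (γ x0))⁻¹ * C.β (γ y) → γ y ∈ ball (γ x0) C.δ →
        Pool.Agent.HK.fing (rowAt n Pts (γ y)) (f y)⁻¹ =
          Pool.Agent.HK.fing (rowOf (2 * n) C.ty C.ref (srt_length _))
            (C.β (γ x0) * (f x0)⁻¹) := by
      intro y h1 h2
      rw [← C.row_eq_rowAt h2, ← C.fing_β, ← fing_mul, h1]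
      congr 1
      group
    filter_upwards [hC, hb] with y h1 h2
    rw [key y h1 h2, key x0 (by group) (mem_ball_self C.hδ)])
  have h1 : Pool.Agent.HK.fing (rowAt n Pts (γ x)) (f x)⁻¹ =
      Pool.Agent.HK.fing (rowAt n Pts (γ x')) (f x')⁻¹ := hc x hx x' hx'
  rw [fing_mul, h1, ← fing_mul, inv_mul_cancel, fing_one]

end Pool.Agent.HK
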