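import Pool.Agent.H.MP_cd3d06_an.K.Cany

/-! MP_cd3d06_an, part C, module CprimA: formal properties and uniqueness of primitives -/

namespace Pool.Agent.HK

open Complex Set Metric Filter Topology
open scoped ComplexConjugate

variable {n : ℕ} {Pts : ℂ → Set TP} {X : Type*} [TopologicalSpace X]

theorem IsPrim.mono {γ : X → ℂ} {f : X → Brd (2 * n)} {Y Y' : Set X} (h : IsPrim n Pts γ f Y)
    (hY : Y' ⊆ Y) : IsPrim n Pts γ f Y' := by
  intro x0 hx0
  obtain ⟨C, hC⟩ := h x0 (hY hx0)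
  exact ⟨C, hC.filter_mono (nhdsWithin_mono _ hY)⟩

/-- pull back -/
theorem IsPrim.comp {X' : Type*} [TopologicalSpace X'] {γ : X → ℂ} {f : X → Brd (2 * n)}
    {Y : Set X} (h : IsPrim n Pts γ f Y) {φ : X' → X} {Y' : Set X'} (hφ : ContinuousOn φ Y')
    (hm : MapsTo φ Y' Y) : IsPrim n Pts (γ ∘ φ) (f ∘ φ) Y' := by
  intro x0 hx0
  obtain ⟨C, hC⟩ := h (φ x0) (hm hx0)
  exact ⟨C, ((hφ x0 hx0).tendsto_nhdsWithin hm).eventually hC⟩

theorem IsPrim.mul_left {γ : X → ℂ} {f : X → Brd (2 * n)} {Y : Set X} (h : IsPrim n Pts γ f Y)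
    (g : Brd (2 * n)) : IsPrim n Pts γ (fun x => g * f x) Y := by
  intro x0 hx0
  obtain ⟨C, hC⟩ := h x0 hx0
  refine ⟨C, hC.mono fun x hx => ?_⟩
  show g * f x = g * f x0 * (C.β (γ x0))⁻¹ * C.β (γ x)
  rw [hx, mul_assoc, mul_assoc, mul_assoc]

/-- a function that is locally constant on a preconnected set (in the sense of `𝓝[Y]`) is constant there -/
theorem const_of_local {G : Type*} {f : X → G} {Y : Set X} (hY : IsPreconnected Y)
    (h : ∀ x0 ∈ Y, ∀ᶠ x in 𝓝[Y] x0, f x = f x0) : ∀ x ∈ Y, ∀ x' ∈ Y, f x = f x' := by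
  intro x hx x' hx'
  have : PreconnectedSpace Y := isPreconnected_iff_preconnectedSpace.1 hY
  have hl : IsLocallyConstant (fun y : Y => f y) := by
    rw [IsLocallyConstant.iff_eventually_eq]
    intro y
    exact (eventually_nhds_subtype_iff Y y (fun z => f z = f y)).2 (h y y.2)
  exact hl.apply_eq_of_preconnectedSpace ⟨x, hx⟩ ⟨x', hx'⟩

/-- C1a: uniqueness. PROOF. `x ↦ f' x * (f x)⁻¹` is locally constant on `Y` (`PrimAt.any`: use the same chart for
`f` and `f'`): `const_of_local`. -/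
theorem IsPrim.unique {γ : X → ℂ} {f f' : X → Brd (2 * n)} {Y : Set X} (hY : IsPreconnected Y)
    (hγ : ContinuousOn γ Y) (h : IsPrim n Pts γ f Y) (h' : IsPrim n Pts γ f' Y) :
    ∃ g, ∀ x ∈ Y, f' x = g * f x := by
  have hc := const_of_local (f := fun x => f' x * (f x)⁻¹) hY (by
    intro x0 hx0
    obtain ⟨C, hC⟩ := h x0 hx0
    have hC' := (h' x0 hx0).any hx0 (hγ x0 hx0) C
    filter_upwards [hC, hC'] with x h1 h2
    rw [h1, h2]
    group)
  rcases Y.eq_empty_or_nonempty with rfl | ⟨x1, hx1⟩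
  · exact ⟨1, fun x hx => absurd hx (notMem_empty x)⟩
  · refine ⟨f' x1 * (f x1)⁻¹, fun x hx => ?_⟩
    have h2 : f' x * (f x)⁻¹ = f' x1 * (f x1)⁻¹ := hc x hx x1 hx1
    rw [← h2, inv_mul_cancel_right]

/-- C1b: the coset lemma: if the local transports lie in a subgroup, so do all transports.
PROOF. `const_of_local` for `x ↦ (f x : G ⧸ H)` (`QuotientGroup.eq`). -/
theorem coset_of_local {G : Type*} [Group G] {f : X → G} {Y : Set X} (hY : IsPreconnected Y)
    (H : Subgroup G) (h : ∀ x0 ∈ Y, ∀ᶠ x in 𝓝[Y] x0, (f x0)⁻¹ * f x ∈ H) :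
    ∀ x ∈ Y, ∀ x' ∈ Y, (f x)⁻¹ * f x' ∈ H := by
  intro x hx x' hx'
  apply QuotientGroup.eq.1
  refine const_of_local (f := fun x => (f x : G ⧸ H)) hY (fun x0 hx0 => ?_) x hx x' hx'
  filter_upwards [h x0 hx0] with y hy
  exact (QuotientGroup.eq.2 hy).symm

end Pool.Agent.HK
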