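import Pool.Agent.H.MP_cd3d06_an.K.CprimA

/-! MP_cd3d06_an, part C, module CprimB: existence of primitives -/

namespace Pool.Agent.HK

open Complex Set Metric Filter Topology
open scoped ComplexConjugate

variable {n : ℕ} {Pts : ℂ → Set TP} {X : Type*} [TopologicalSpace X]

/-- A locally constant cocycle on a simply connected, locally path connected space is trivial. -/
theorem CprimB_cocycle {G : Type*} [Group G] [SimplyConnectedSpace X]
    [LocallyPathConnectedSpace X] (U : X → Set X) (b : X → X → G) (hU : ∀ x, IsOpen (U x))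
    (hxU : ∀ x, x ∈ U x)
    (hb : ∀ x y z, z ∈ U x → z ∈ U y →
      ∀ᶠ z' in 𝓝 z, b x z' * (b y z')⁻¹ = b x z * (b y z)⁻¹) :
    ∃ f : X → G, ∀ x0, ∀ᶠ x in 𝓝 x0, f x * (b x0 x)⁻¹ = f x0 * (b x0 x0)⁻¹ := by
  let _ : TopologicalSpace G := ⊥
  have _ : DiscreteTopology G := ⟨rfl⟩
  let Z : FiberBundleCore X X G :=
    { baseSet := U
      isOpen_baseSet := hU
      indexAt := id
      mem_baseSet_at := hxU
      coordChange := fun x y z v => v * b x z * (b y z)⁻¹
      coordChange_self := fun x z _ v => by group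
      continuousOn_coordChange := by
        intro x y
        rintro ⟨z, v⟩ ⟨hz, -⟩
        apply ContinuousAt.continuousWithinAt
        suffices h : ∀ᶠ p : X × G in 𝓝 (z, v), p.2 * b x p.1 * (b y p.1)⁻¹ =
            v * b x z * (b y z)⁻¹ by
          exact (continuousAt_const (y := v * b x z * (b y z)⁻¹)).congr
            (h.mono fun p hp => hp.symm)
        have h1 : ∀ᶠ p : X × G in 𝓝 (z, v), b x p.1 * (b y p.1)⁻¹ = b x z * (b y z)⁻¹ :=
          (continuous_fst.tendsto (z, v)).eventually (hb x y z hz.1 hz.2)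
        have h2 : ∀ᶠ p : X × G in 𝓝 (z, v), p.2 = v := by
          have h3 : Tendsto Prod.snd (𝓝 ((z, v) : X × G)) (𝓝 v) := continuous_snd.tendsto _
          have h4 : ∀ᶠ g in 𝓝 v, g = v := by
            rw [nhds_discrete G]
            simp
          exact h3.eventually h4
        filter_upwards [h1, h2] with p hp1 hp2
        rw [hp2, mul_assoc, hp1, mul_assoc]
      coordChange_comp := fun i j k x _ v => by group }
  obtain ⟨x0⟩ : Nonempty X := inferInstance
  have hcov : IsCoveringMap (Bundle.TotalSpace.proj : Bundle.TotalSpace G Z.Fiber → X) :=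
    FiberBundle.isCoveringMap
  obtain ⟨F, ⟨-, hF⟩, -⟩ := hcov.existsUnique_continuousMap_lifts (ContinuousMap.id X) x0
    (⟨x0, (1 : G)⟩ : Bundle.TotalSpace G Z.Fiber) rfl
  have hF' : ∀ x, (F x).proj = x := fun x => congrFun hF x
  refine ⟨fun x => (show G from (F x).2) * b (F x).1 (F x).1, fun x1 => ?_⟩
  have hmem : F x1 ∈ (Z.localTriv x1).source := by
    rw [Z.mem_localTriv_source]
    show (F x1).proj ∈ U x1
    rw [hF']
    exact hxU x1
  have hc : ContinuousAt (fun x => (Z.localTriv x1 (F x)).2) x1 := by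
    have h1 : ContinuousAt (Z.localTriv x1) (F x1) :=
      ((Z.localTriv x1).continuousOn_toFun).continuousAt ((Z.localTriv x1).open_source.mem_nhds hmem)
    exact (continuous_snd.continuousAt).comp (h1.comp F.continuous.continuousAt)
  have hc' : ∀ᶠ x in 𝓝 x1, (Z.localTriv x1 (F x)).2 = (Z.localTriv x1 (F x1)).2 := by
    have h5 : ∀ᶠ g in 𝓝 ((Z.localTriv x1 (F x1)).2), g = (Z.localTriv x1 (F x1)).2 := by
      rw [nhds_discrete G]
      simp
    exact hc.tendsto.eventually h5
  filter_upwards [hc'] with x hx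
  have h2 : ∀ x, (Z.localTriv x1 (F x)).2 =
      (show G from (F x).2) * b (F x).1 (F x).1 * (b x1 (F x).1)⁻¹ := fun x => rfl
  rw [h2, h2] at hx
  have h3 : ∀ x, b x1 x = b x1 (F x).1 := fun x => by
    show b x1 x = b x1 (F x).proj
    rw [hF']
  rw [h3 x, h3 x1]
  exact hx

/-- C1c: existence on simply connected, locally path connected spaces.

Proof: choose a chart `C x` at `γ x` for every `x : X` (`exists_chart`). `FiberBundleCore X X G`, `G =
Brd (2n)` with the discrete topology: `baseSet x = γ ⁻¹' ball (γ x) (C x).δ`, `indexAt = id`,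
`coordChange x y z v = v * (C x).β (γ z) * ((C y).β (γ z))⁻¹`; the coordinate changes are locally
constant in `z` by `Chart.isPrim` (with `PrimAt.any`) and group algebra. The projection of the total
space is a covering map (`FiberBundle.isCoveringMap`), hence the identity of `X` has a lift
(`IsCoveringMap.existsUnique_continuousMap_lifts`). If `F` is the lift, `v x` its coordinate in the
trivialisation at `x` (i.e. the fibre component), put `f x = v x * (C x).β (γ x)`. Continuity of `F` at
`x0` in the trivialisation at `x0`: `v x * (C x).β (γ x) * ((C x0).β (γ x))⁻¹` is constant near `x0`. -/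
theorem exists_prim [SimplyConnectedSpace X] [LocallyPathConnectedSpace X] {γ : X → ℂ}
    (hγ : Continuous γ) (hreg : ∀ x, IsRegPt n Pts (γ x)) :
    ∃ f : X → Brd (2 * n), IsPrim n Pts γ f univ := by
  have hC : ∀ x, ∃ C : Chart n Pts (γ x), C.δ ≤ 1 := fun x => exists_chart (hreg x) one_pos
  choose C _ using hC
  have key : ∀ x z, γ z ∈ ball (γ x) (C x).δ → ∀ᶠ z' in 𝓝 z,
      (C x).β (γ z') = (C x).β (γ z) * ((C z).β (γ z))⁻¹ * (C z).β (γ z') := by
    intro x z hz
    have h1 := PrimAt.any (γ := (id : ℂ → ℂ)) hz continuousWithinAt_id ((C x).isPrim _ hz) (C z)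
    rw [isOpen_ball.nhdsWithin_eq hz] at h1
    exact (hγ.tendsto z).eventually h1
  obtain ⟨f, hf⟩ := CprimB_cocycle (fun x => γ ⁻¹' ball (γ x) (C x).δ)
    (fun x z => (C x).β (γ z)) (fun x => isOpen_ball.preimage hγ)
    (fun x => mem_ball_self (C x).hδ) (by
      intro x y z hx hy
      filter_upwards [key x z hx, key y z hy] with z' h1 h2
      rw [h1, h2]
      group)
  refine ⟨f, fun x0 _ => ⟨C x0, ?_⟩⟩
  rw [nhdsWithin_univ]
  filter_upwards [hf x0] with x hx
  rw [← hx]
  group

/-- C1d: the version for subsets of the plane. PROOF. `exists_prim` for the subtype, `γ = Subtype.val`; extend `f`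
by `1`; `nhdsWithin_eq_map_subtype_coe` (`𝓝[Y] x0 = map Subtype.val (𝓝 ⟨x0, _⟩)`). -/
theorem exists_prim_on {Y : Set ℂ} [SimplyConnectedSpace Y] [LocallyPathConnectedSpace Y]
    (hreg : ∀ ζ ∈ Y, IsRegPt n Pts ζ) : ∃ f : ℂ → Brd (2 * n), IsPrim n Pts id f Y := by
  classical
  obtain ⟨f, hf⟩ := exists_prim (X := Y) (n := n) (Pts := Pts) (γ := Subtype.val)
    continuous_subtype_val (fun x => hreg x x.2)
  refine ⟨fun ζ => if h : ζ ∈ Y then f ⟨ζ, h⟩ else 1, fun ζ0 h0 => ?_⟩
  obtain ⟨C, hC⟩ := hf ⟨ζ0, h0⟩ (mem_univ _)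
  refine ⟨C, ?_⟩
  rw [nhdsWithin_univ] at hC
  rw [nhdsWithin_eq_map_subtype_coe h0, eventually_map]
  filter_upwards [hC] with x hx
  simp only [id, x.2, h0, dif_pos]
  exact hx

end Pool.Agent.HK
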