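import Pool.Agent.H.MP_cd3d06_an.K.Cdefs

/-! MP_cd3d06_an, part C, module Csrt: facts on sorted lists -/

namespace Pool.Agent.HK

variable {N : ℕ} {β β' : Type*} [LinearOrder β] [LinearOrder β']

theorem Csrt_rel {α : Type*} [DecidableEq α] {R : α → α → Prop} {l : List α}
    (h : l.Pairwise R) {i j : α} (hi : i ∈ l) (hj : j ∈ l) (hlt : l.idxOf i < l.idxOf j) :
    R i j := by
  have h1 := List.pairwise_iff_getElem.1 h (l.idxOf i) (l.idxOf j)
    (List.idxOf_lt_length_of_mem hi) (List.idxOf_lt_length_of_mem hj) hlt
  rwa [List.getElem_idxOf, List.getElem_idxOf] at h1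

/-- `List.perm_insertionSort` -/
theorem srt_perm (k : Fin N → β) : (srt k).Perm (List.finRange N) := by
  exact List.perm_insertionSort _ _

theorem srt_nodup (k : Fin N → β) : (srt k).Nodup := by
  exact (srt_perm k).nodup_iff.2 (List.nodup_finRange N)

theorem mem_srt (k : Fin N → β) (i : Fin N) : i ∈ srt k := by
  exact (srt_perm k).mem_iff.2 (List.mem_finRange i)

/-- the position in the sorted list is monotone in the key.
PROOF. `srt k` is pairwise `k i ≤ k j` (`List.pairwise_insertionSort` / `sorted_insertionSort`), without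
repetition, so pairwise `k i < k j` by injectivity; compare with the positions (`List.idxOf_lt_length`,
`List.getElem_idxOf`, `List.pairwise_iff_getElem`). -/
theorem srt_idx {k : Fin N → β} (hk : Function.Injective k) (i j : Fin N) :
    (srt k).idxOf i < (srt k).idxOf j ↔ k i < k j := by
  have hp : (srt k).Pairwise (fun i j => k i ≤ k j) := by
    have : Std.Total (fun i j : Fin N => k i ≤ k j) := ⟨fun a b => le_total _ _⟩
    have : IsTrans (Fin N) (fun i j : Fin N => k i ≤ k j) := ⟨fun a b c h1 h2 => le_trans h1 h2⟩
    exact List.pairwise_insertionSort _ _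
  constructor
  · intro h
    have h1 := Csrt_rel hp (mem_srt k i) (mem_srt k j) h
    refine lt_of_le_of_ne h1 fun h2 => ?_
    rw [hk h2] at h
    exact lt_irrefl _ h
  · intro h
    by_contra hcon
    rcases (not_lt.1 hcon).lt_or_eq with h1 | h1
    · exact absurd h (not_lt.2 (Csrt_rel hp (mem_srt k j) (mem_srt k i) h1))
    · have h2 : j = i := (List.idxOf_inj (mem_srt k j)).1 h1
      rw [h2] at h
      exact lt_irrefl _ h

/-- a list without repetition is determined by the order of the indices: two permutations of
`finRange N` with the same comparisons are equal.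
PROOF. `l` and `l'` are permutations of each other, and both are sorted (`Pairwise`) for the strict relation
`l'.idxOf i < l'.idxOf j`: `List.Perm.eq_of_pairwise` (or `eq_of_perm_of_sorted`). -/
theorem list_eq_of_idx {l l' : List (Fin N)} (h : l.Perm (List.finRange N))
    (h' : l'.Perm (List.finRange N))
    (hh : ∀ i j, l.idxOf i < l.idxOf j → l'.idxOf i < l'.idxOf j) : l = l' := by
  have hn : l.Nodup := h.nodup_iff.2 (List.nodup_finRange N)
  have hn' : l'.Nodup := h'.nodup_iff.2 (List.nodup_finRange N)
  refine List.Perm.eq_of_pairwise (le := fun i j => l'.idxOf i < l'.idxOf j)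
    (fun a b _ _ h1 h2 => absurd h1 (not_lt.2 h2.le)) ?_ ?_ (h.trans h'.symm)
  · rw [List.pairwise_iff_getElem]
    intro a b ha hb hab
    apply hh
    rw [hn.idxOf_getElem, hn.idxOf_getElem]
    exact hab
  · rw [List.pairwise_iff_getElem]
    intro a b ha hb hab
    show l'.idxOf l'[a] < l'.idxOf l'[b]
    rw [hn'.idxOf_getElem, hn'.idxOf_getElem]
    exact hab

theorem srt_congr {k : Fin N → β} {k' : Fin N → β'} (hk : Function.Injective k)
    (hk' : Function.Injective k') (h : ∀ i j, k i < k j → k' i < k' j) : srt k = srt k' := by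
  exact list_eq_of_idx (srt_perm k) (srt_perm k') fun i j hij =>
    (srt_idx hk' i j).2 (h i j ((srt_idx hk i j).1 hij))

/-- relabelling.
PROOF. `list_eq_of_idx`: the index of `j = τ i` in `l.map τ` is the index of `i` in `l` (`List.idxOf_map`-like,
by injectivity of `τ`). -/
theorem srt_map {k : Fin N → β} (hk : Function.Injective k) (τ : Fin N ≃ Fin N) :
    (srt (fun i => k (τ i))).map τ = srt k := by
  have hk' : Function.Injective (fun i => k (τ i)) := hk.comp τ.injective
  refine list_eq_of_idx (((srt_perm _).map τ).trans (Equiv.Perm.map_finRange_perm τ)) (srt_perm k) ?_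
  intro i j hij
  obtain ⟨i', rfl⟩ := τ.surjective i
  obtain ⟨j', rfl⟩ := τ.surjective j
  rw [Perm_idxOf_map τ (fun x _ h => τ.injective h) (mem_srt _ _),
    Perm_idxOf_map τ (fun x _ h => τ.injective h) (mem_srt _ _), srt_idx hk'] at hij
  exact (srt_idx hk _ _).2 hij

/-- relabelling of positive permutation braids (`bw_map`) -/
theorem bw_relabel (M : ℕ) (τ : Fin N ≃ Fin N) {ρ π : List (Fin N)} (h : ρ.Perm π) :
    bw M (ρ.map τ) (π.map τ) = bw M ρ π := by
  exact bw_map M τ (fun x _ y _ h => τ.injective h) h

end Pool.Agent.HK
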