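import Mathlib

/-!
MP_cd3d06_an, part A (algebra): the filtered complex over F_2 of a word in the letters
`(p, q, sign)`, `p, q : Fin N` two different positions, closed by the reflection `Fin.rev`
at both ends, in its function model.

A state is a list of booleans: `true` is the resolution `E` (the labels at `p, q` are equal below
and equal above), `false` is the resolution `I` (labels pass through).  A colouring is a sequence of
rows `x 0, x 1, ...` in `Fin N → ZMod 2`, where the row `x t` is below the letter number `t`, and the
rows are constant after the last letter.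
-/

namespace Pool.Agent.HK

open Function

variable {N : ℕ}

abbrev Row (N : ℕ) := Fin N → ZMod 2

/-- A letter: two different positions and a sign (`pos = true` is the positive letter). -/
structure Letter (N : ℕ) where
  p : Fin N
  q : Fin N
  ne : p ≠ q
  pos : Bool

abbrev Word (N : ℕ) := List (Letter N)

/-- Colourings: sequences of rows. -/
abbrev Col (N : ℕ) := ℕ → Row N

/-- Cochains: functions of the state and of the colouring. Only the values at valid pairs matter. -/
abbrev Coch (N : ℕ) := List Bool → Col N → ZMod 2

def tl (x : Col N) : Col N := fun t => x (t + 1)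

def cs (a : Row N) (x : Col N) : Col N := fun t => Nat.casesOn t a x

@[simp] theorem tl_apply (x : Col N) (t : ℕ) : tl x t = x (t + 1) := rfl
@[simp] theorem cs_zero (a : Row N) (x : Col N) : cs a x 0 = a := rfl
@[simp] theorem cs_succ (a : Row N) (x : Col N) (t : ℕ) : cs a x (t + 1) = x t := rfl
@[simp] theorem tl_cs (a : Row N) (x : Col N) : tl (cs a x) = x := rfl
@[simp] theorem cs_tl (x : Col N) : cs (x 0) (tl x) = x := by
  funext t; cases t <;> rfl

/-- Symmetric rows. -/
def Sym (a : Row N) : Prop := ∀ j, a j.rev = a j

/-- The relation between the row below and the row above a letter in a given state. -/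
def Rel (p q : Fin N) (e : Bool) (a b : Row N) : Prop :=
  match e with
  | false => a = b
  | true => a p = a q ∧ b p = b q ∧ ∀ j, j ≠ p → j ≠ q → a j = b j

/-- Valid colourings (open at the bottom, closed at the top). -/
def Valid : Word N → List Bool → Col N → Prop
  | [], _, x => Sym (x 0) ∧ ∀ t, x (t + 1) = x 0
  | _ :: _, [], x => x = 0
  | l :: w, e :: v, x => Rel l.p l.q e (x 0) (x 1) ∧ Valid w v (tl x)

/-- The differential: the letter `l` goes from the state `l.pos` to the state `!l.pos`, and the
function is restricted to the colourings that are valid for both states and extended by zero. -/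
noncomputable def dd : Word N → Coch N → Coch N
  | [], _, _, _ => 0
  | _ :: _, _, [], _ => 0
  | l :: w, g, e :: v, x =>
      (open Classical in
        if e = !l.pos ∧ Rel l.p l.q l.pos (x 0) (x 1) then g (l.pos :: v) x else 0) +
      dd w (fun v' y => g (e :: v') (cs (x 0) y)) v (tl x)

/-- flip the labels at the two positions -/
def flip (p q : Fin N) (r : Row N) : Row N := fun j => if j = p ∨ j = q then r j + 1 else r j

/-- The row above a letter in the canonical colouring. -/
def nxt (l : Letter N) (r : Row N) : Row N := if r l.p = r l.q then flip l.p l.q r else r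

/-- The canonical state of a letter (`true = E` iff the labels below are equal). -/
def eo (l : Letter N) (r : Row N) : Bool := decide (r l.p = r l.q)

/-- The last row of the canonical colouring. -/
def fin : Word N → Row N → Row N
  | [], r => r
  | l :: w, r => fin w (nxt l r)

/-- The canonical generator with bottom row `r`. -/
noncomputable def so : Word N → Row N → Coch N
  | [], r, _, x => open Classical in if x 0 = r then 1 else 0
  | _ :: _, _, [], _ => 0
  | l :: w, r, e :: v, x =>
      open Classical in if x 0 = r ∧ e = eo l r then so w (nxt l r) v (tl x) else 0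

/-- `n_+ - 2 n_-` -/
def sh : Word N → Row N → ℤ
  | [], _ => 0
  | l :: w, r => (if (r l.p = r l.q) ↔ l.pos = true then 1 else -2) + sh w (nxt l r)

/-- number of letters in the target state -/
def nv : Word N → List Bool → ℤ
  | [], _ => 0
  | _ :: _, [] => 0
  | l :: w, e :: v => (if e = !l.pos then 1 else 0) + nv w v

/-- the writhe: sum of the signs, with a minus sign for the letters whose labels differ -/
def wr : Word N → Row N → ℤ
  | [], _ => 0
  | l :: w, r => (if (r l.p = r l.q) ↔ l.pos = true then 1 else -1) + wr w (nxt l r)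

theorem Sym.add {a b : Row N} (ha : Sym a) (hb : Sym b) : Sym (a + b) := fun j => by
  simp [ha j, hb j]

theorem Sym.smul {a : Row N} (c : ZMod 2) (ha : Sym a) : Sym (c • a) := fun j => by
  simp [ha j]

theorem Sym.zero : Sym (0 : Row N) := fun _ => rfl

theorem Rel.add {p q : Fin N} {e : Bool} {a b a' b' : Row N} (h : Rel p q e a b)
    (h' : Rel p q e a' b') : Rel p q e (a + a') (b + b') := by
  cases e
  · simp only [Rel] at *; rw [h, h']
  · refine ⟨by simp [h.1, h'.1], by simp [h.2.1, h'.2.1], fun j hj hj' => ?_⟩
    simp [h.2.2 j hj hj', h'.2.2 j hj hj']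

theorem Rel.smul {p q : Fin N} {e : Bool} {a b : Row N} (c : ZMod 2) (h : Rel p q e a b) :
    Rel p q e (c • a) (c • b) := by
  cases e
  · simp only [Rel] at *; rw [h]
  · refine ⟨by simp [h.1], by simp [h.2.1], fun j hj hj' => ?_⟩
    simp [h.2.2 j hj hj']

theorem Rel.zero {p q : Fin N} {e : Bool} : Rel p q e 0 0 := by
  cases e
  · rfl
  · exact ⟨rfl, rfl, fun _ _ _ => rfl⟩

theorem Valid.add : ∀ {w : Word N} {v : List Bool} {x y : Col N}, Valid w v x → Valid w v y →
    Valid w v (x + y)
  | [], _, x, y, hx, hy => ⟨hx.1.add hy.1, fun t => by simp [hx.2 t, hy.2 t]⟩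
  | _ :: _, [], x, y, hx, hy => by
      simp only [Valid] at *; rw [hx, hy]; simp
  | _ :: _, _ :: _, x, y, hx, hy => ⟨hx.1.add hy.1, Valid.add hx.2 hy.2⟩

theorem Valid.smul : ∀ {w : Word N} {v : List Bool} {x : Col N} (c : ZMod 2), Valid w v x →
    Valid w v (c • x)
  | [], _, x, c, hx => ⟨hx.1.smul c, fun t => by simp [hx.2 t]⟩
  | _ :: _, [], x, c, hx => by
      simp only [Valid] at *; rw [hx]; simp
  | _ :: _, _ :: _, x, c, hx => ⟨hx.1.smul c, Valid.smul c hx.2⟩

theorem Valid.zero : ∀ {w : Word N} {v : List Bool}, Valid w v (0 : Col N)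
  | [], _ => ⟨Sym.zero, fun _ => rfl⟩
  | _ :: _, [] => rfl
  | _ :: _, _ :: _ => ⟨Rel.zero, Valid.zero⟩

/-- Colourings closed at both ends. -/
def K (w : Word N) (v : List Bool) : Submodule (ZMod 2) (Col N) where
  carrier := {x | Sym (x 0) ∧ Valid w v x}
  add_mem' := fun ha hb => ⟨ha.1.add hb.1, ha.2.add hb.2⟩
  zero_mem' := ⟨Sym.zero, Valid.zero⟩
  smul_mem' := fun c _ hx => ⟨hx.1.smul c, hx.2.smul c⟩

theorem mem_K {w : Word N} {v : List Bool} {x : Col N} : x ∈ K w v ↔ Sym (x 0) ∧ Valid w v x :=
  Iff.rfl

noncomputable def dimK (w : Word N) (v : List Bool) : ℕ := Module.finrank (ZMod 2) (K w v)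

/-- The degree of a function on a subspace is `< e` : all `e`-fold differences vanish. -/
def DegLT {M : Type*} [AddCommGroup M] [Module (ZMod 2) M] (V : Submodule (ZMod 2) M) :
    ℕ → (M → ZMod 2) → Prop
  | 0, f => ∀ x ∈ V, f x = 0
  | e + 1, f => ∀ h ∈ V, DegLT V e (fun x => f (x + h) + f x)

/-- The cochain `g` has level `≥ l`. -/
def Lev (w : Word N) (r : Row N) (l : ℤ) (g : Coch N) : Prop :=
  ∀ v : List Bool, v.length = w.length → ∀ e : ℕ,
    (dimK w v : ℤ) + nv w v + sh w r - l < 2 * e → DegLT (K w v) e (g v)

/-- Some cochain homologous to the canonical generator has level `≥ l`. -/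
def Good (w : Word N) (r : Row N) (l : ℤ) : Prop :=
  ∃ y : Coch N, Lev w r l (fun v x => so w r v x + dd w y v x)

end Pool.Agent.HK
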