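import Pool.Agent.H.MP_cd3d06_an.K.Defs

/-!
Part A: the degree of functions on F_2 vector spaces, defined by iterated differences.
-/

namespace Pool.Agent.HK

variable {M M' : Type*} [AddCommGroup M] [Module (ZMod 2) M] [AddCommGroup M'] [Module (ZMod 2) M']
variable {V : Submodule (ZMod 2) M} {V' : Submodule (ZMod 2) M'} {e : ℕ} {f g : M → ZMod 2}

/-- PROOF. Induction on `e` generalizing `f g`. For `e + 1`: for `h ∈ V` the functions `f (x+h) + f x` and `g (x+h) + g x` agree on `V`. -/
theorem DegLT.congr (h : ∀ x ∈ V, f x = g x) (hf : DegLT V e f) : DegLT V e g := by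
  induction e generalizing f g with
  | zero => exact fun x hx => by rw [← h x hx]; exact hf x hx
  | succ e ih =>
    intro u hu
    refine ih (fun x hx => ?_) (hf u hu)
    rw [h x hx, h (x + u) (V.add_mem hx hu)]

/-- PROOF. Induction on `e`; `0 + 0 = 0`. -/
theorem DegLT.zero : DegLT V e (fun _ => (0 : ZMod 2)) := by
  induction e with
  | zero => exact fun x _ => rfl
  | succ e ih =>
    intro u _
    exact ih.congr (fun x _ => by simp)

/-- PROOF. Induction on `e` generalizing `f g`: the difference of `f + g` is the sum of the differences (rearrange with `ring`/`DegLT.congr`). -/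
theorem DegLT.add (hf : DegLT V e f) (hg : DegLT V e g) : DegLT V e (fun x => f x + g x) := by
  induction e generalizing f g with
  | zero =>
    intro x hx
    show f x + g x = 0
    rw [hf x hx, hg x hx, add_zero]
  | succ e ih =>
    intro u hu
    exact (ih (hf u hu) (hg u hu)).congr (fun x _ => by ring)

/-- PROOF. Induction on `e` generalizing `f`: `e = 0`: `f = 0` on `V`, so all differences vanish on `V`. Step: immediate from the definition. -/
theorem DegLT.succ (hf : DegLT V e f) : DegLT V (e + 1) f := by
  induction e generalizing f with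
  | zero =>
    intro u hu x hx
    show f (x + u) + f x = 0
    rw [hf x hx, hf (x + u) (V.add_mem hx hu), add_zero]
  | succ e ih => exact fun u hu => ih (hf u hu)

/-- PROOF. Iterate `DegLT.succ`. -/
theorem DegLT.mono {e' : ℕ} (h : e ≤ e') (hf : DegLT V e f) : DegLT V e' f := by
  induction h with
  | refl => exact hf
  | step _ ih => exact ih.succ

/-- PROOF. Induction on `e` generalizing `f`: `f (x + c + h) + f (x + c)` is the translate of the difference (`add_right_comm`). -/
theorem DegLT.translate {c : M} (hc : c ∈ V) (hf : DegLT V e f) :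
    DegLT V e (fun x => f (x + c)) := by
  induction e generalizing f with
  | zero => exact fun x hx => hf _ (V.add_mem hx hc)
  | succ e ih =>
    intro u hu
    exact (ih (hf u hu)).congr (fun x _ => by rw [add_right_comm x c u])

/-- pullback under an affine map `x ↦ φ x + c`
PROOF. Induction on `e` generalizing `f` and `c`. Case `0`: clear. Step: for `h ∈ V'`, `f (φ (x+h) + c) + f (φ x + c) = F (φ x + c)` with `F y = f (y + φ h) + f y`; here `φ h ∈ V` because `φ h = (φ h + c) - (φ 0 + c)` and both are in `V`. Apply the induction hypothesis to `F`. -/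
theorem DegLT.comp (φ : M' →ₗ[ZMod 2] M) (c : M) (hφ : ∀ x ∈ V', φ x + c ∈ V)
    (hf : DegLT V e f) : DegLT V' e (fun x => f (φ x + c)) := by
  induction e generalizing f c with
  | zero => exact fun x hx => hf _ (hφ x hx)
  | succ e ih =>
    intro u hu
    have h1 : φ u ∈ V := by
      have h2 := V.sub_mem (hφ u hu) (hφ 0 V'.zero_mem)
      simpa using h2
    refine (ih c hφ (hf (φ u) h1)).congr (fun x _ => ?_)
    show f (φ x + c + φ u) + f (φ x + c) = f (φ (x + u) + c) + f (φ x + c)
    rw [map_add, add_right_comm (φ x) c (φ u)]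

/-- pullback under a linear map
PROOF. `DegLT.comp` with `c = 0`. -/
theorem DegLT.comp' (φ : M' →ₗ[ZMod 2] M) (hφ : ∀ x ∈ V', φ x ∈ V)
    (hf : DegLT V e f) : DegLT V' e (fun x => f (φ x)) := by
  refine (DegLT.comp φ 0 (fun x hx => by rw [add_zero]; exact hφ x hx) hf).congr (fun x _ => ?_)
  rw [add_zero]

theorem deg_zmod2 (a : ZMod 2) : a = 0 ∨ a = 1 := by
  revert a; decide

theorem deg_add_self (a : ZMod 2) : a + a = 0 := by
  revert a; decide

theorem deg_add_self' (x : M) : x + x = 0 := by
  have h : (1 : ZMod 2) + 1 = 0 := by decide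
  have h2 : ((1 : ZMod 2) + 1) • x = x + x := by rw [add_smul, one_smul]
  rw [← h2, h, zero_smul]

theorem DegLT.const_mul (a : ZMod 2) (hf : DegLT V e f) : DegLT V e (fun x => a * f x) := by
  rcases deg_zmod2 a with rfl | rfl
  · exact DegLT.zero.congr (fun x _ => by simp)
  · exact hf.congr (fun x _ => by simp)

/-- multiplication by an affine function
PROOF. Induction on `e` generalizing `f` (and `a`). Difference in the direction `h ∈ V`: `(lam (x+h) + a) f (x+h) + (lam x + a) f x = (lam x + a) (f (x+h) + f x) + lam h * f (x+h)`. For `e = 0`: everything vanishes on `V`. For `e + 1`: the first summand is `DegLT (e+1)` by induction (the difference is `DegLT e`); the second one is a constant times a translate of `f`, hence `DegLT (e+1)` (the constant is 0 or 1). -/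
theorem DegLT.mul_lin (lam : M →ₗ[ZMod 2] ZMod 2) (a : ZMod 2) (hf : DegLT V e f) :
    DegLT V (e + 1) (fun x => (lam x + a) * f x) := by
  induction e generalizing f with
  | zero => exact DegLT.zero.congr (fun x hx => by rw [hf x hx, mul_zero])
  | succ e ih =>
    intro u hu
    have h1 := ih (hf u hu)
    have h2 : DegLT V (e + 1) (fun x => lam u * f (x + u)) := (hf.translate hu).const_mul (lam u)
    refine (h1.add h2).congr (fun x _ => ?_)
    show (lam x + a) * (f (x + u) + f x) + lam u * f (x + u) =
      (lam (x + u) + a) * f (x + u) + (lam x + a) * f x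
    rw [map_add]
    ring

theorem DegLT.diff {c : M} (hc : c ∈ V) (hf : DegLT V (e + 1) f) :
    DegLT V e (fun x => f (x + c) + f x) := hf c hc

/-- extension by zero from a subspace `W = V ∩ ker lam`
PROOF. If `lam` vanishes on `V`, then `W = V` and the function is `f` on `V`: use `DegLT.succ` and `DegLT.congr`. Otherwise choose `x0 ∈ V` with `lam x0 = 1` (the only nonzero value of `ZMod 2`). Let `π x = x + lam x • x0`, a linear map `M → M`; it maps `V` into `W` (`lam (π x) = lam x + lam x = 0`). `f ∘ π` is `DegLT V e` by `comp'`; `(lam x + 1) * f (π x)` is `DegLT V (e+1)` by `mul_lin`, and it agrees with `(lam x + 1) * f x`, because `π x = x` where `lam x = 0`, and `lam x + 1 = 0` where `lam x = 1`. -/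
theorem DegLT.ext {W : Submodule (ZMod 2) M} (lam : M →ₗ[ZMod 2] ZMod 2)
    (hW : ∀ x, x ∈ W ↔ x ∈ V ∧ lam x = 0) (hf : DegLT W e f) :
    DegLT V (e + 1) (fun x => (lam x + 1) * f x) := by
  by_cases h : ∀ x ∈ V, lam x = 0
  · have h1 : W = V := by
      apply Submodule.ext
      intro x
      rw [hW x]
      exact ⟨fun h2 => h2.1, fun h2 => ⟨h2, h x h2⟩⟩
    subst h1
    exact hf.succ.congr (fun x hx => by rw [h x hx, zero_add, one_mul])
  · push Not at h
    obtain ⟨x0, hx0, h0⟩ := h
    have h1 : lam x0 = 1 := (deg_zmod2 _).resolve_left h0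
    have h2 : ∀ x ∈ V, (LinearMap.id + lam.smulRight x0 : M →ₗ[ZMod 2] M) x ∈ W := by
      intro x hx
      rw [hW]
      refine ⟨V.add_mem hx (V.smul_mem _ hx0), ?_⟩
      show lam (x + lam x • x0) = 0
      rw [map_add, map_smul, h1, smul_eq_mul, mul_one]
      exact deg_add_self _
    refine ((hf.comp' _ h2).mul_lin lam 1).congr (fun x _ => ?_)
    show (lam x + 1) * f (x + lam x • x0) = (lam x + 1) * f x
    rcases deg_zmod2 (lam x) with h3 | h3
    · rw [h3, zero_smul, add_zero]
    · rw [h3, deg_add_self, zero_mul, zero_mul]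

theorem deg_exists_lam {x0 : M} (h0 : x0 ≠ 0) : ∃ lam : M →ₗ[ZMod 2] ZMod 2, lam x0 = 1 := by
  by_contra hcon
  apply h0
  apply (Module.forall_dual_apply_eq_zero_iff (ZMod 2) x0).1
  intro lam
  rcases deg_zmod2 (lam x0) with h | h
  · exact h
  · exact absurd ⟨lam, h⟩ hcon

theorem deg_finrank [Module.Finite (ZMod 2) V] {x0 : M} (hx0 : x0 ∈ V)
    {lam : M →ₗ[ZMod 2] ZMod 2} (h1 : lam x0 = 1) :
    Module.finrank (ZMod 2) (V ⊓ LinearMap.ker lam : Submodule (ZMod 2) M) + 1 =
      Module.finrank (ZMod 2) V := by
  have h2 := LinearMap.finrank_range_add_finrank_ker (lam.domRestrict V)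
  have h3 : LinearMap.range (lam.domRestrict V) = ⊤ := by
    rw [LinearMap.range_eq_top]
    intro a
    refine ⟨a • ⟨x0, hx0⟩, ?_⟩
    rw [map_smul]
    show a • lam x0 = a
    rw [h1, smul_eq_mul, mul_one]
  rw [h3, finrank_top, Module.finrank_self] at h2
  have h4 : Module.finrank (ZMod 2) (V ⊓ LinearMap.ker lam : Submodule (ZMod 2) M) =
      Module.finrank (ZMod 2) (LinearMap.ker (lam.domRestrict V)) := by
    rw [← Submodule.map_comap_subtype, Submodule.finrank_map_subtype_eq]
    rfl
  omega

/-- every function on a space of dimension `k` has degree `≤ k`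
PROOF. Induction on `k = finrank V` generalizing `V` and `f`. `k = 0`: `V = ⊥`, so `h = 0` and the difference is `f x + f x = 0` (char 2). Step: choose a linear functional `lam` on `M` not vanishing on `V` (`V ≠ ⊥`, take `x0 ∈ V`, `x0 ≠ 0`, and extend; e.g. `Submodule.exists_le_ker_of_notMem` or `exists_dual_forall_apply_eq_zero_iff`, or `Module.exists_dual_map_eq_bot...`; over a field `(Module.forall_dual_apply_eq_zero_iff _ _)`), `lam x0 = 1`. `W = V ⊓ ker lam` has `finrank = k - 1`. On `V`: `f x = (lam x + 1) * f x + lam x * f x`. First summand: `DegLT.ext` and induction. Second: the first one for the function `x ↦ f (x + x0)`, translated by `x0`. Alternative: every function on `V` is a sum of indicator functions of points, and an indicator function is a product of `k` affine functions (dual basis) times the constant 1, use `mul_lin` `k` times. -/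
theorem degLT_finrank [Module.Finite (ZMod 2) V] (f : M → ZMod 2) :
    DegLT V (Module.finrank (ZMod 2) V + 1) f := by
  induction hk : Module.finrank (ZMod 2) V generalizing V f with
  | zero =>
    have h0 : V = ⊥ := by
      rwa [Submodule.finrank_eq_zero] at hk
    subst h0
    intro u hu x hx
    rw [Submodule.mem_bot] at hu hx
    subst hu hx
    show f (0 + 0) + f 0 = 0
    rw [add_zero]
    exact deg_add_self _
  | succ k ih =>
    have h0 : V ≠ ⊥ := by
      rintro rfl
      rw [finrank_bot] at hk
      omega
    obtain ⟨x0, hx0, hne⟩ := V.exists_mem_ne_zero_of_ne_bot h0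
    obtain ⟨lam, hlam⟩ := deg_exists_lam hne
    have h1 := deg_finrank hx0 hlam
    have hW : ∀ x, x ∈ (V ⊓ LinearMap.ker lam : Submodule (ZMod 2) M) ↔ x ∈ V ∧ lam x = 0 :=
      fun x => by rw [Submodule.mem_inf, LinearMap.mem_ker]
    have h2 : ∀ g : M → ZMod 2, DegLT V (k + 1 + 1) (fun x => (lam x + 1) * g x) := by
      intro g
      exact DegLT.ext lam hW (ih (V := V ⊓ LinearMap.ker lam) g (by omega))
    have h3 := (h2 (fun x => f (x + x0))).translate hx0
    refine ((h2 f).add h3).congr (fun x _ => ?_)
    show (lam x + 1) * f x + (lam (x + x0) + 1) * f (x + x0 + x0) = f x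
    rw [map_add, hlam, add_assoc x x0 x0, deg_add_self', add_zero, add_assoc (lam x) 1 1,
      deg_add_self (1 : ZMod 2), add_zero, add_mul, one_mul, add_right_comm,
      deg_add_self (lam x * f x), zero_add]

/-- the indicator function of a point has degree exactly the dimension
PROOF. Induction on the dimension `k`, or directly: claim: if `DegLT V e f` and `v_1, ..., v_e ∈ V`, then the sum of `f (x + sum of a subset of the v_i)` over all subsets is 0 for all `x ∈ V` (induction on `e`). For a basis `v_1, ..., v_k` of `V` the sum is the sum of `f` over all points of `V`, which is `1` by `hf`, contradiction. Possible set-up by induction on `k` generalizing `V, f, x0`: for `k + 1` take `c ∈ V`, `c ≠ 0`, and `lam` with `lam c = 1`, `W = V ⊓ ker lam` of dimension `k`; the difference `g x = f (x + c) + f x` restricted to `W` is the indicator function of the point `π x0 ∈ W` (the one of `x0, x0 + c` which is in `W`), and `DegLT W k g` by `DegLT.comp'` (inclusion), contradiction with the induction hypothesis. -/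
theorem not_degLT_point [Module.Finite (ZMod 2) V] {x0 : M} (hx0 : x0 ∈ V)
    (hf : ∀ x ∈ V, f x = 1 ↔ x = x0) : ¬ DegLT V (Module.finrank (ZMod 2) V) f := by
  induction hk : Module.finrank (ZMod 2) V generalizing V f x0 with
  | zero =>
    intro h
    have h1 := h x0 hx0
    rw [(hf x0 hx0).2 rfl] at h1
    exact one_ne_zero h1
  | succ k ih =>
    intro h
    have h0 : V ≠ ⊥ := by
      rintro rfl
      rw [finrank_bot] at hk
      omega
    obtain ⟨c, hc, hne⟩ := V.exists_mem_ne_zero_of_ne_bot h0
    obtain ⟨lam, hlam⟩ := deg_exists_lam hne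
    have h1 := deg_finrank hc hlam
    have hW : ∀ x, x ∈ (V ⊓ LinearMap.ker lam : Submodule (ZMod 2) M) ↔ x ∈ V ∧ lam x = 0 :=
      fun x => by rw [Submodule.mem_inf, LinearMap.mem_ker]
    have h2 : DegLT (V ⊓ LinearMap.ker lam : Submodule (ZMod 2) M) k
        (fun x => f (x + c) + f x) :=
      (h c hc).comp' LinearMap.id (fun x hx => ((hW x).1 hx).1)
    have hf0 : ∀ x ∈ V, x ≠ x0 → f x = 0 := fun x hx hxx =>
      (deg_zmod2 (f x)).resolve_right (fun h3 => hxx ((hf x hx).1 h3))
    rcases deg_zmod2 (lam x0) with h3 | h3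
    · refine ih (V := V ⊓ LinearMap.ker lam) (x0 := x0) ((hW x0).2 ⟨hx0, h3⟩) ?_ (by omega) h2
      intro x hx
      obtain ⟨hx1, hx2⟩ := (hW x).1 hx
      have h4 : f (x + c) = 0 := by
        apply hf0 _ (V.add_mem hx1 hc)
        rintro rfl
        rw [map_add, hx2, hlam, zero_add] at h3
        exact one_ne_zero h3
      rw [h4, zero_add]
      exact hf x hx1
    · refine ih (V := V ⊓ LinearMap.ker lam) (x0 := x0 + c)
        ((hW _).2 ⟨V.add_mem hx0 hc, ?_⟩) ?_ (by omega) h2
      · rw [map_add, h3, hlam]
        exact deg_add_self _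
      · intro x hx
        obtain ⟨hx1, hx2⟩ := (hW x).1 hx
        have h4 : f x = 0 := by
          apply hf0 _ hx1
          rintro rfl
          rw [hx2] at h3
          exact zero_ne_one h3
        rw [h4, add_zero, hf _ (V.add_mem hx1 hc)]
        constructor
        · rintro rfl
          rw [add_assoc, deg_add_self', add_zero]
        · rintro rfl
          rw [add_assoc, deg_add_self', add_zero]

/-- `2 * deg f ≤ A` -/
def D (V : Submodule (ZMod 2) M) (A : ℤ) (f : M → ZMod 2) : Prop :=
  ∀ e : ℕ, A < 2 * e → DegLT V e f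

theorem D.congr {A : ℤ} (h : ∀ x ∈ V, f x = g x) (hf : D V A f) : D V A g :=
  fun e he => (hf e he).congr h

theorem D.add {A : ℤ} (hf : D V A f) (hg : D V A g) : D V A (fun x => f x + g x) :=
  fun e he => (hf e he).add (hg e he)

theorem D.zero {A : ℤ} : D V A (fun _ => (0 : ZMod 2)) := fun _ _ => DegLT.zero

theorem D.mono {A A' : ℤ} (h : A ≤ A') (hf : D V A f) : D V A' f :=
  fun e he => hf e (by omega)

theorem D.comp' {A : ℤ} (φ : M' →ₗ[ZMod 2] M) (hφ : ∀ x ∈ V', φ x ∈ V)
    (hf : D V A f) : D V' A (fun x => f (φ x)) := fun e he => (hf e he).comp' φ hφ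

/-- PROOF. For `A + 2 < 2 e`: if `e = 0` then `A < 0 = 2 * 0`, so `f = 0` on `V` and the product is 0; if `e = e' + 1` then `A < 2 e'`, use `DegLT.mul_lin`. -/
theorem D.mul_lin {A : ℤ} (lam : M →ₗ[ZMod 2] ZMod 2) (a : ZMod 2) (hf : D V A f) :
    D V (A + 2) (fun x => (lam x + a) * f x) := by
  intro e he
  cases e with
  | zero =>
    have h1 : DegLT V 0 f := hf 0 (by push_cast at he ⊢; omega)
    intro x hx
    show (lam x + a) * f x = 0
    rw [h1 x hx, mul_zero]
  | succ e =>
    have h1 : DegLT V e f := hf e (by push_cast at he ⊢; omega)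
    exact h1.mul_lin lam a

/-- PROOF. For `A - 2 < 2 e` we have `A < 2 (e + 1)`; use `DegLT.diff`. -/
theorem D.diff {A : ℤ} {c : M} (hc : c ∈ V) (hf : D V A f) :
    D V (A - 2) (fun x => f (x + c) + f x) := by
  intro e he
  exact DegLT.diff hc (hf (e + 1) (by push_cast; omega))

end Pool.Agent.HK
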