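import Pool.Agent.H.MP_cd3d06_an.K.DiscD

/-!
MP_cd3d06_an, part G: the polynomial `R` that counts the same type collisions: the theorem.
-/

namespace Pool.Agent.HK

open Polynomial Filter

theorem natDegree_le_of_growth {R : ℂ[X]} {D : ℕ} {C R1 : ℝ}
    (h : ∀ z : ℂ, R1 ≤ ‖z‖ → ‖R.eval z‖ ≤ C * ‖z‖ ^ D) : R.natDegree ≤ D := by
  by_contra hlt
  rw [not_le] at hlt
  have hR : R ≠ 0 := by
    rintro rfl
    simp at hlt
  have hdeg : (X ^ D : ℂ[X]).degree < R.degree := by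
    rw [degree_X_pow, degree_eq_natDegree hR]
    exact_mod_cast hlt
  have h1 := isLittleO_cobounded_of_degree_lt hdeg
  have h2 := h1.def (c := 1 / (2 * (|C| + 1))) (by positivity)
  have h3 : ∀ᶠ z in Bornology.cobounded ℂ, max R1 1 ≤ ‖z‖ := by
    exact tendsto_norm_cobounded_atTop.eventually_ge_atTop _
  obtain ⟨z, hz2, hz3⟩ := (h2.and h3).exists
  have hz4 : R1 ≤ ‖z‖ := (le_max_left _ _).trans hz3
  have hz5 : 1 ≤ ‖z‖ := (le_max_right _ _).trans hz3
  have h4 := h z hz4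
  simp only [eval_pow, eval_X, norm_pow] at hz2
  have h5 : 1 ≤ ‖z‖ ^ D := one_le_pow₀ hz5
  have h6 : C * ‖z‖ ^ D ≤ (|C| + 1) * ‖z‖ ^ D := by
    apply mul_le_mul_of_nonneg_right _ (by positivity)
    linarith [le_abs_self C]
  have h7 : (|C| + 1) * ‖z‖ ^ D ≤ (|C| + 1) * (1 / (2 * (|C| + 1)) * ‖R.eval z‖) :=
    mul_le_mul_of_nonneg_left hz2 (by positivity)
  have h8 : (|C| + 1) * (1 / (2 * (|C| + 1)) * ‖R.eval z‖) = ‖R.eval z‖ / 2 := by
    field_simp
  have h9 : ‖R.eval z‖ ≤ 0 := by linarith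
  have h10 : (|C| + 1) * ‖z‖ ^ D ≤ 0 := by
    rw [h8] at h7
    linarith
  have h11 : 0 < (|C| + 1) * ‖z‖ ^ D := by positivity
  linarith

/-- the growth of the discriminant polynomial -/
theorem RR_growth {H q : ℂ[X]} (hn : 1 ≤ H.natDegree) (hm : 1 ≤ q.natDegree) :
    ∃ C R1 : ℝ, ∀ z : ℂ, R1 ≤ ‖z‖ → ‖(RR H q).eval z‖ ≤
      C * ‖z‖ ^ (q.natDegree * (H.natDegree - 1) - (Nat.gcd q.natDegree H.natDegree - 1)) := by
  obtain ⟨c, hc0, _, hcs⟩ := DiscC_exists_sep (nthRootsFinset H.natDegree (1 : ℂ))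
  have hc : ∀ ω ω' : ℂ, ω ^ H.natDegree = 1 → ω' ^ H.natDegree = 1 → ω ≠ ω' →
      2 * c ≤ ‖ω - ω'‖ := fun ω ω' h1 h2 h3 =>
    hcs ω ((mem_nthRootsFinset (by omega) _).2 h1) ω' ((mem_nthRootsFinset (by omega) _).2 h2) h3
  obtain ⟨K, hK1, hK⟩ := fiber_le hn
  obtain ⟨R1, hR1, hR⟩ := exists_root_near hn hc0 hc
  obtain ⟨C4, hC40, hC4⟩ := root_close hn hK1 hc0 hc
  obtain ⟨C6, hC60, hC6⟩ := near_bound q hK1 hC40 hm
  obtain ⟨C7, hC70, hC7⟩ := fiber_lower hK1 q q.natDegree le_rfl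
  set n := H.natDegree with hndef
  set m := q.natDegree with hmdef
  set g := Nat.gcd m n with hgdef
  have hg0 : 0 < g := Nat.gcd_pos_of_pos_left _ (by omega)
  have hgm : g ∣ m := Nat.gcd_dvd_left _ _
  have hgn : g ∣ n := Nat.gcd_dvd_right _ _
  have hgn' : g ≤ n := Nat.le_of_dvd (by omega) hgn
  refine ⟨‖H.leadingCoeff ^ m‖ * (C6 ^ (g - 1) * C7 ^ (n - 1 - (g - 1))), R1, fun z hz => ?_⟩
  have hz1 : 1 ≤ ‖z‖ := hR1.trans hz
  have hzpos : 0 < ‖z‖ := by linarith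
  have hgpow : ∀ ω : ℂ, ω ∈ (nthRootsFinset g (1 : ℂ)).erase 1 → ω ^ n = 1 ∧ ω ^ m = 1 ∧ ω ≠ 1 := by
    intro ω hω
    rw [Finset.mem_erase, mem_nthRootsFinset hg0] at hω
    obtain ⟨a, ha⟩ := hgn
    obtain ⟨b, hb⟩ := hgm
    refine ⟨?_, ?_, hω.1⟩
    · rw [ha, pow_mul, hω.2, one_pow]
    · rw [hb, pow_mul, hω.2, one_pow]
  choose! wf hwf1 hwf2 using fun ω (hω : ω ∈ (nthRootsFinset g (1 : ℂ)).erase 1) =>
    hR z hz ω (hgpow ω hω).1 (hgpow ω hω).2.2
  set T : Finset ℂ := ((nthRootsFinset g (1 : ℂ)).erase 1).image wf with hT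
  have hTcard : T.card = g - 1 := by
    rw [hT, Finset.card_image_of_injOn, Finset.card_erase_of_mem,
      (Complex.isPrimitiveRoot_exp g (by omega)).card_nthRootsFinset]
    · rw [mem_nthRootsFinset hg0]
      exact one_pow _
    · intro ω hω ω' hω' heq
      by_contra hne
      have h1 := hwf2 ω hω
      have h2 := hwf2 ω' hω'
      rw [← heq] at h2
      have h3 := hc ω ω' (hgpow ω hω).1 (hgpow ω' hω').1 hne
      have h4 : 2 * c * ‖z‖ ≤ ‖ω * z - ω' * z‖ := by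
        rw [← sub_mul, norm_mul]
        exact mul_le_mul_of_nonneg_right h3 (norm_nonneg _)
      have h5 : ‖ω * z - ω' * z‖ ≤ ‖wf ω - ω * z‖ + ‖wf ω - ω' * z‖ := by
        have : ω * z - ω' * z = (wf ω - ω' * z) - (wf ω - ω * z) := by ring
        rw [this]
        have := norm_sub_le (wf ω - ω' * z) (wf ω - ω * z)
        linarith
      linarith
  have hTle : T.val ≤ (Fz H z).roots := by
    rw [Multiset.le_iff_subset T.nodup]
    intro x hx
    rw [Finset.mem_val, hT, Finset.mem_image] at hx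
    obtain ⟨ω, hω, rfl⟩ := hx
    exact hwf1 ω hω
  have hcard : (Fz H z).roots.card = n - 1 := by
    rw [hndef, ← Fz_natDegree hn z]
    exact ((IsAlgClosed.splits (Fz H z)).natDegree_eq_card_roots).symm
  have hfib : ∀ w ∈ (Fz H z).roots, H.eval w = H.eval z := fun w hw =>
    Fz_root_imp (isRoot_of_mem_roots hw)
  have hroots : (Fz H z).roots = T.val + ((Fz H z).roots - T.val) :=
    (add_tsub_cancel_of_le hTle).symm
  have h1 : ‖(T.val.map (fun w => q.eval w - q.eval z)).prod‖ ≤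
      (C6 * ‖z‖ ^ (m - 1)) ^ (g - 1) := by
    rw [← hTcard]
    apply norm_prod_map_le _ _ (by positivity)
    intro x hx
    have hx' := hfib x (Multiset.mem_of_le hTle hx)
    rw [Finset.mem_val, hT, Finset.mem_image] at hx
    obtain ⟨ω, hω, rfl⟩ := hx
    have hwz := hK z (wf ω) hz1 hx'
    exact hC6 z (wf ω) ω hz1 hwz (hgpow ω hω).2.1
      (hC4 z (wf ω) ω hz1 hwz hx' (hgpow ω hω).1 (hwf2 ω hω))
  have h2 : ‖(((Fz H z).roots - T.val).map (fun w => q.eval w - q.eval z)).prod‖ ≤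
      (C7 * ‖z‖ ^ m) ^ (n - 1 - (g - 1)) := by
    have hc2 : ((Fz H z).roots - T.val).card = n - 1 - (g - 1) := by
      rw [Multiset.card_sub hTle, hcard, ← hTcard]
      rfl
    rw [← hc2]
    apply norm_prod_map_le _ _ (by positivity)
    intro x hx
    have hx' := hfib x (Multiset.mem_of_le (Multiset.sub_le_self _ _) hx)
    exact hC7 z x hz1 (hK z x hz1 hx')
  rw [RR_eval hn, norm_mul, hroots, Multiset.map_add, Multiset.prod_add, norm_mul]
  have hexp : (m - 1) * (g - 1) + m * (n - 1 - (g - 1)) = m * (n - 1) - (g - 1) := by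
    obtain ⟨a, ha⟩ : ∃ a, g = a + 1 := ⟨g - 1, by omega⟩
    obtain ⟨b, hb⟩ : ∃ b, n = a + b + 1 := ⟨n - 1 - a, by omega⟩
    obtain ⟨m', hm'⟩ : ∃ m', m = m' + 1 := ⟨m - 1, by omega⟩
    rw [ha, hb, hm']
    simp only [Nat.add_sub_cancel, Nat.add_sub_cancel_left]
    apply Nat.eq_sub_of_add_eq
    ring
  calc ‖H.leadingCoeff ^ m‖ * (‖(T.val.map (fun w => q.eval w - q.eval z)).prod‖ *
        ‖(((Fz H z).roots - T.val).map (fun w => q.eval w - q.eval z)).prod‖)
      ≤ ‖H.leadingCoeff ^ m‖ * ((C6 * ‖z‖ ^ (m - 1)) ^ (g - 1) *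
          (C7 * ‖z‖ ^ m) ^ (n - 1 - (g - 1))) := by
        apply mul_le_mul_of_nonneg_left _ (norm_nonneg _)
        exact mul_le_mul h1 h2 (norm_nonneg _) (by positivity)
    _ = ‖H.leadingCoeff ^ m‖ * (C6 ^ (g - 1) * C7 ^ (n - 1 - (g - 1))) *
          ‖z‖ ^ (m * (n - 1) - (g - 1)) := by
        rw [← hexp, mul_pow, mul_pow, ← pow_mul, ← pow_mul, pow_add]
        ring

/-- the degree of the discriminant polynomial -/
theorem RR_natDegree {H q : ℂ[X]} (hn : 1 ≤ H.natDegree) (hm : 1 ≤ q.natDegree) :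
    (RR H q).natDegree ≤
      q.natDegree * (H.natDegree - 1) - (Nat.gcd q.natDegree H.natDegree - 1) := by
  obtain ⟨C, R1, h⟩ := RR_growth hn hm
  exact natDegree_le_of_growth h

/-- PART G -/
theorem exists_isDisc {p q H S : ℂ[X]} {n m : ℕ} (hp : p.natDegree = n) (hq : q.natDegree = m)
    (hm : 1 ≤ m) (hmn : m < n) (hG : Gen p q H S) :
    ∃ R : ℂ[X], IsDisc H S R (m * (n - 1) - (Nat.gcd m n - 1)) := by
  have hHn : H.natDegree = n := by
    rw [hG.hH, natDegree_sub_eq_left_of_natDegree_lt (by omega), hp]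
  have hn1 : 1 ≤ H.natDegree := by omega
  have hSq : ∀ z w : ℂ, H.eval w = H.eval z →
      S.eval w - S.eval z = 2 * (q.eval w - q.eval z) := by
    intro z w h
    rw [hG.hH] at h
    simp only [eval_sub] at h
    rw [hG.hS, eval_add, eval_add]
    linear_combination h
  have hne : RR H q ≠ 0 := by
    intro h0
    have hfin : ({z | ∃ w, w ≠ z ∧ H.eval w = H.eval z ∧ S.eval w = S.eval z} ∪
        {z | H.derivative.eval z = 0} : Set ℂ).Finite := by
      apply hG.fin_nodes.union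
      have hd : H.derivative ≠ 0 := by
        intro hd
        have := Polynomial.derivative_eq_zero.1 hd
        omega
      exact Polynomial.finite_setOfPred_isRoot hd
    obtain ⟨z, hz⟩ := hfin.infinite_compl.nonempty
    simp only [Set.mem_compl_iff, Set.mem_union, Set.mem_ofPred_eq, not_or] at hz
    have hroot : (RR H q).IsRoot z := by rw [h0]; simp
    rw [RR_root hn1] at hroot
    obtain ⟨w, hw1, hw2⟩ := hroot
    have hwz : w ≠ z := by
      rintro rfl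
      rw [IsRoot.def, Fz_self] at hw1
      exact hz.2 hw1
    have hHw := Fz_root_imp hw1
    apply hz.1
    refine ⟨w, hwz, hHw, ?_⟩
    have h1 := hSq z w hHw
    rw [hw2, sub_self, mul_zero] at h1
    exact sub_eq_zero.1 h1
  refine ⟨RR H q, hne, ?_, ?_, ?_⟩
  · have h1 := RR_natDegree hn1 (q := q) (by omega)
    rw [hHn, hq] at h1
    exact h1
  · intro z hz
    rw [RR_root hn1]
    exact ⟨z, by rw [IsRoot.def, Fz_self]; exact hz, rfl⟩
  · intro z1 z2 w j C hz hw hH hS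
    have hS' : ∀ᶠ z in nhds z1, ‖q.eval (w z) - q.eval z‖ ≤ C * ‖z - z1‖ ^ j := by
      filter_upwards [hH, hS] with z h1 h2
      rw [hSq z (w z) h1, norm_mul, Complex.norm_ofNat] at h2
      linarith [norm_nonneg (q.eval (w z) - q.eval z)]
    obtain ⟨C', hC'⟩ := RR_node_bound hn1 hz hw hH hS'
    exact le_mult_of_bound hne hC'

end Pool.Agent.HK
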