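import Pool.Agent.H.MP_cd3d06_an.K.Iface

/-!
MP_cd3d06_an, part G: the polynomial `R` that counts the same type collisions: the resultant over
`C[z]` of `(H(w) - H(z)) / (w - z)` and `q(w) - q(z)`.  Algebra.
-/

namespace Pool.Agent.HK

open Polynomial

/-- `(H(w) - H(z)) / (w - z)` as a polynomial in `w` over `C[z]` -/
noncomputable def quo (H : ℂ[X]) : ℂ[X][X] := (H.map C - C H) /ₘ (X - C X)

theorem quo_mul (H : ℂ[X]) : (X - C X) * quo H = H.map C - C H := by
  rw [quo, mul_divByMonic_eq_iff_isRoot]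
  simp [IsRoot, eval_map]

/-- its specialization at `z` -/
noncomputable def Fz (H : ℂ[X]) (z : ℂ) : ℂ[X] := (quo H).map (evalRingHom z)

theorem map_C_eval (H : ℂ[X]) (z : ℂ) : (H.map C).map (evalRingHom z) = H := by
  rw [Polynomial.map_map]
  have h : (evalRingHom z).comp C = RingHom.id ℂ := by
    ext x
    simp
  rw [h, Polynomial.map_id]

theorem Fz_mul (H : ℂ[X]) (z : ℂ) : (X - C z) * Fz H z = H - C (H.eval z) := by
  have h := congrArg (fun P => Polynomial.map (evalRingHom z) P) (quo_mul H)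
  simp only [Polynomial.map_mul, Polynomial.map_sub, Polynomial.map_X, Polynomial.map_C,
    coe_evalRingHom, eval_X, map_C_eval] at h
  exact h

theorem Fz_eval (H : ℂ[X]) (z w : ℂ) : (w - z) * (Fz H z).eval w = H.eval w - H.eval z := by
  have h := congrArg (fun P => Polynomial.eval w P) (Fz_mul H z)
  simpa using h

theorem sub_C_ne_zero {H : ℂ[X]} (hn : 1 ≤ H.natDegree) (c : ℂ) : H - C c ≠ 0 := by
  intro h
  have h' := congrArg Polynomial.natDegree h
  rw [natDegree_sub_C] at h'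
  simp at h'
  omega

theorem Fz_ne_zero {H : ℂ[X]} (hn : 1 ≤ H.natDegree) (z : ℂ) : Fz H z ≠ 0 := by
  intro h
  have h' := Fz_mul H z
  rw [h, mul_zero] at h'
  exact sub_C_ne_zero hn _ h'.symm

theorem Fz_natDegree {H : ℂ[X]} (hn : 1 ≤ H.natDegree) (z : ℂ) :
    (Fz H z).natDegree = H.natDegree - 1 := by
  have h := congrArg Polynomial.natDegree (Fz_mul H z)
  rw [natDegree_mul (X_sub_C_ne_zero z) (Fz_ne_zero hn z), natDegree_X_sub_C, natDegree_sub_C] at h
  omega

theorem Fz_leadingCoeff {H : ℂ[X]} (hn : 1 ≤ H.natDegree) (z : ℂ) :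
    (Fz H z).leadingCoeff = H.leadingCoeff := by
  have h := congrArg Polynomial.leadingCoeff (Fz_mul H z)
  rw [leadingCoeff_mul, leadingCoeff_X_sub_C, one_mul] at h
  rw [h]
  apply leadingCoeff_sub_of_degree_lt
  calc (C (H.eval z)).degree ≤ 0 := degree_C_le
    _ < H.degree := by
        rw [← natDegree_pos_iff_degree_pos]
        omega

theorem Fz_root_imp {H : ℂ[X]} {z w : ℂ} (h : (Fz H z).IsRoot w) : H.eval w = H.eval z := by
  have h' := Fz_eval H z w
  rw [IsRoot.def] at h
  rw [h, mul_zero] at h'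
  exact (sub_eq_zero.1 h'.symm)

theorem Fz_root {H : ℂ[X]} {z w : ℂ} (hw : w ≠ z) (h : H.eval w = H.eval z) :
    (Fz H z).IsRoot w := by
  have h' := Fz_eval H z w
  rw [h, sub_self] at h'
  exact (mul_eq_zero.1 h').resolve_left (sub_ne_zero.2 hw)

theorem Fz_self (H : ℂ[X]) (z : ℂ) : (Fz H z).eval z = H.derivative.eval z := by
  have h := congrArg (fun P => Polynomial.eval z (Polynomial.derivative P)) (Fz_mul H z)
  simpa [derivative_mul] using h

/-- the discriminant polynomial -/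
noncomputable def RR (H q : ℂ[X]) : ℂ[X] :=
  resultant (quo H) (q.map C - C q) (H.natDegree - 1) q.natDegree

theorem RR_eval {H q : ℂ[X]} (hn : 1 ≤ H.natDegree) (z : ℂ) :
    (RR H q).eval z = H.leadingCoeff ^ q.natDegree *
      ((Fz H z).roots.map (fun w => q.eval w - q.eval z)).prod := by
  have h1 : (RR H q).eval z = resultant (Fz H z) (q - C (q.eval z)) (H.natDegree - 1)
      q.natDegree := by
    have h := resultant_map_map (quo H) (q.map C - C q) (H.natDegree - 1) q.natDegree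
      (evalRingHom z)
    rw [Polynomial.map_sub, map_C_eval, Polynomial.map_C, coe_evalRingHom] at h
    exact h.symm
  rw [h1, ← Fz_natDegree hn z, resultant_eq_prod_eval _ _ _ (by rw [natDegree_sub_C])
    (IsAlgClosed.splits _), Fz_leadingCoeff hn]
  simp

theorem RR_root {H q : ℂ[X]} (hn : 1 ≤ H.natDegree) (z : ℂ) :
    (RR H q).IsRoot z ↔ ∃ w, (Fz H z).IsRoot w ∧ q.eval w = q.eval z := by
  rw [IsRoot.def, RR_eval hn, mul_eq_zero]
  have h0 : H.leadingCoeff ^ q.natDegree ≠ 0 := by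
    apply pow_ne_zero
    rw [leadingCoeff_ne_zero]
    rintro rfl
    simp at hn
  simp only [h0, false_or, Multiset.prod_eq_zero_iff, Multiset.mem_map, mem_roots',
    sub_eq_zero]
  constructor
  · rintro ⟨w, ⟨_, h1⟩, h2⟩
    exact ⟨w, h1, h2⟩
  · rintro ⟨w, h1, h2⟩
    exact ⟨w, ⟨Fz_ne_zero hn z, h1⟩, h2⟩

end Pool.Agent.HK
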