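import Pool.Agent.H.MP_cd3d06_an.K.DiscA

/-!
MP_cd3d06_an, part G: the polynomial `R` that counts the same type collisions: local estimates.
-/

namespace Pool.Agent.HK

open Polynomial Filter

theorem poly_bound (P : ℂ[X]) (k : ℕ) (h : P.natDegree ≤ k) :
    ∃ C : ℝ, 0 < C ∧ ∀ w : ℂ, ‖P.eval w‖ ≤ C * (1 + ‖w‖) ^ k := by
  refine ⟨1 + ∑ i ∈ Finset.range (k + 1), ‖P.coeff i‖, ?_, fun w => ?_⟩
  · have : 0 ≤ ∑ i ∈ Finset.range (k + 1), ‖P.coeff i‖ :=
      Finset.sum_nonneg fun i _ => norm_nonneg _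
    linarith
  · rw [eval_eq_sum_range' (Nat.lt_succ_of_le h)]
    have h1 : (1 : ℝ) ≤ 1 + ‖w‖ := by linarith [norm_nonneg w]
    calc ‖∑ i ∈ Finset.range (k + 1), P.coeff i * w ^ i‖
        ≤ ∑ i ∈ Finset.range (k + 1), ‖P.coeff i‖ * (1 + ‖w‖) ^ k := by
          apply (norm_sum_le _ _).trans
          apply Finset.sum_le_sum
          intro i hi
          rw [norm_mul, norm_pow]
          apply mul_le_mul_of_nonneg_left _ (norm_nonneg _)
          calc ‖w‖ ^ i ≤ (1 + ‖w‖) ^ i :=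
                pow_le_pow_left₀ (norm_nonneg _) (by linarith) _
            _ ≤ (1 + ‖w‖) ^ k :=
                pow_le_pow_right₀ h1 (by have := Finset.mem_range.1 hi; omega)
      _ = (∑ i ∈ Finset.range (k + 1), ‖P.coeff i‖) * (1 + ‖w‖) ^ k := by
          rw [Finset.sum_mul]
      _ ≤ (1 + ∑ i ∈ Finset.range (k + 1), ‖P.coeff i‖) * (1 + ‖w‖) ^ k := by
          apply mul_le_mul_of_nonneg_right _ (by positivity)
          linarith

theorem le_mult_of_bound {R : ℂ[X]} (hR : R ≠ 0) {z1 : ℂ} {j : ℕ} {C : ℝ}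
    (h : ∀ᶠ z in nhds z1, ‖R.eval z‖ ≤ C * ‖z - z1‖ ^ j) : j ≤ R.rootMultiplicity z1 := by
  by_contra hk
  rw [not_le] at hk
  set k := R.rootMultiplicity z1 with hkdef
  set T := R /ₘ (X - Polynomial.C z1) ^ k with hT
  have hTR : (X - Polynomial.C z1) ^ k * T = R := pow_mul_divByMonic_rootMultiplicity_eq R z1
  have hT0 : T.eval z1 ≠ 0 := eval_divByMonic_pow_rootMultiplicity_ne_zero z1 hR
  apply hT0
  have h1 : ∀ᶠ z in nhdsWithin z1 {z1}ᶜ, ‖T.eval z‖ ≤ C * ‖z - z1‖ ^ (j - k) := by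
    filter_upwards [nhdsWithin_le_nhds h, self_mem_nhdsWithin] with z hz hz1
    have hz1' : 0 < ‖z - z1‖ := norm_pos_iff.2 (sub_ne_zero.2 hz1)
    have h2 : ‖R.eval z‖ = ‖z - z1‖ ^ k * ‖T.eval z‖ := by
      rw [← hTR]
      simp
    rw [h2, show j = k + (j - k) by omega, pow_add] at hz
    have h3 : ‖z - z1‖ ^ k * ‖T.eval z‖ ≤ ‖z - z1‖ ^ k * (C * ‖z - z1‖ ^ (j - k)) := by
      linarith
    exact le_of_mul_le_mul_left h3 (by positivity)
  have h2 : Tendsto (fun z => ‖T.eval z‖) (nhdsWithin z1 {z1}ᶜ) (nhds ‖T.eval z1‖) :=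
    (T.continuous.norm.tendsto z1).mono_left nhdsWithin_le_nhds
  have h3 : Tendsto (fun z : ℂ => C * ‖z - z1‖ ^ (j - k)) (nhdsWithin z1 {z1}ᶜ) (nhds 0) := by
    have h4 : Tendsto (fun z : ℂ => C * ‖z - z1‖ ^ (j - k)) (nhds z1)
        (nhds (C * ‖z1 - z1‖ ^ (j - k))) := by
      apply Continuous.tendsto
      fun_prop
    rw [sub_self, norm_zero, zero_pow (by omega), mul_zero] at h4
    exact h4.mono_left nhdsWithin_le_nhds
  have h4 : ‖T.eval z1‖ ≤ 0 := le_of_tendsto_of_tendsto h2 h3 h1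
  exact norm_le_zero_iff.1 h4

theorem norm_prod_map_le (s : Multiset ℂ) (f : ℂ → ℂ) {M : ℝ} (hM : 0 ≤ M)
    (h : ∀ x ∈ s, ‖f x‖ ≤ M) : ‖(s.map f).prod‖ ≤ M ^ s.card := by
  induction s using Multiset.induction_on with
  | empty => simp
  | cons a s ih =>
    rw [Multiset.map_cons, Multiset.prod_cons, norm_mul, Multiset.card_cons, pow_succ, mul_comm]
    apply mul_le_mul (ih fun x hx => h x (Multiset.mem_cons_of_mem hx))
      (h a (Multiset.mem_cons_self a s)) (norm_nonneg _) (by positivity)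

theorem bounded_fiber {H : ℂ[X]} (hn : 1 ≤ H.natDegree) (B : ℝ) :
    ∃ M : ℝ, ∀ w : ℂ, ‖H.eval w‖ ≤ B → ‖w‖ ≤ M := by
  have h1 : Tendsto (fun w : ℂ => ‖H.eval w‖) (Bornology.cobounded ℂ) atTop := by
    apply Polynomial.tendsto_norm_atTop
    · rwa [← natDegree_pos_iff_degree_pos]
    · exact tendsto_norm_cobounded_atTop
  have h2 := h1.eventually_gt_atTop B
  rw [← comap_norm_atTop, eventually_comap] at h2
  obtain ⟨M, hM⟩ := eventually_atTop.1 h2
  refine ⟨M, fun w hw => ?_⟩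
  by_contra h3
  rw [not_le] at h3
  exact absurd (hM ‖w‖ h3.le w rfl) (not_lt.2 hw)

/-- near a node the polynomial is small -/
theorem RR_node_bound {H q : ℂ[X]} (hn : 1 ≤ H.natDegree) {z1 z2 : ℂ} {w : ℂ → ℂ} {j : ℕ} {C : ℝ}
    (hz : z1 ≠ z2) (hw : Tendsto w (nhds z1) (nhds z2))
    (hH : ∀ᶠ z in nhds z1, H.eval (w z) = H.eval z)
    (hS : ∀ᶠ z in nhds z1, ‖q.eval (w z) - q.eval z‖ ≤ C * ‖z - z1‖ ^ j) :
    ∃ C' : ℝ, ∀ᶠ z in nhds z1, ‖(RR H q).eval z‖ ≤ C' * ‖z - z1‖ ^ j := by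
  obtain ⟨M, hM⟩ := bounded_fiber hn (‖H.eval z1‖ + 1)
  obtain ⟨Cq, hCq0, hCq⟩ := poly_bound q q.natDegree le_rfl
  have hH1 : ∀ᶠ z in nhds z1, ‖H.eval z‖ < ‖H.eval z1‖ + 1 :=
    (H.continuous.norm.tendsto z1).eventually_lt_const (by linarith)
  have hM0 : 0 ≤ M := (norm_nonneg z1).trans (hM z1 (by linarith))
  set M' : ℝ := 1 + 2 * (Cq * (1 + M) ^ q.natDegree) with hM'
  have hM'1 : 1 ≤ M' := by
    have : 0 ≤ 2 * (Cq * (1 + M) ^ q.natDegree) := by positivity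
    linarith
  refine ⟨‖H.leadingCoeff ^ q.natDegree‖ * (C * M' ^ (H.natDegree - 1)), ?_⟩
  have hne : ∀ᶠ z in nhds z1, w z ≠ z := by
    have h1 : Tendsto (fun z => w z - z) (nhds z1) (nhds (z2 - z1)) := hw.sub tendsto_id
    have h2 : z2 - z1 ≠ 0 := sub_ne_zero.2 hz.symm
    filter_upwards [h1.eventually_ne h2] with z hz'
    exact sub_ne_zero.1 hz'
  filter_upwards [hH, hS, hH1, hne] with z h1 h2 h3 h4
  have hb : ∀ u : ℂ, H.eval u = H.eval z → ‖q.eval u‖ ≤ Cq * (1 + M) ^ q.natDegree := by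
    intro u hu
    have hu' : ‖u‖ ≤ M := hM u (by rw [hu]; exact h3.le)
    refine (hCq u).trans ?_
    apply mul_le_mul_of_nonneg_left _ hCq0.le
    exact pow_le_pow_left₀ (by positivity) (by linarith) _
  have hb2 : ∀ u : ℂ, H.eval u = H.eval z → ‖q.eval u - q.eval z‖ ≤ M' := by
    intro u hu
    have h5 := hb u hu
    have h6 := hb z rfl
    have h7 := norm_sub_le (q.eval u) (q.eval z)
    linarith
  have hmem : w z ∈ (Fz H z).roots := (mem_roots (Fz_ne_zero hn z)).2 (Fz_root h4 h1)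
  have hcard : (Fz H z).roots.card = H.natDegree - 1 := by
    rw [← Fz_natDegree hn z]
    exact ((IsAlgClosed.splits (Fz H z)).natDegree_eq_card_roots).symm
  rw [RR_eval hn, norm_mul, ← Multiset.cons_erase hmem, Multiset.map_cons, Multiset.prod_cons,
    norm_mul]
  have h5 : ‖(((Fz H z).roots.erase (w z)).map (fun w => q.eval w - q.eval z)).prod‖ ≤
      M' ^ (H.natDegree - 1) := by
    refine (norm_prod_map_le _ _ (by linarith) (M := M') ?_).trans ?_
    · intro u hu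
      exact hb2 u (Fz_root_imp (isRoot_of_mem_roots (Multiset.mem_of_mem_erase hu)))
    · apply pow_le_pow_right₀ hM'1
      rw [← hcard]
      exact Multiset.card_le_card (Multiset.erase_le _ _)
  calc ‖H.leadingCoeff ^ q.natDegree‖ * (‖q.eval (w z) - q.eval z‖ *
        ‖(((Fz H z).roots.erase (w z)).map (fun w => q.eval w - q.eval z)).prod‖)
      ≤ ‖H.leadingCoeff ^ q.natDegree‖ * ((C * ‖z - z1‖ ^ j) * M' ^ (H.natDegree - 1)) := by
        apply mul_le_mul_of_nonneg_left _ (norm_nonneg _)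
        exact mul_le_mul h2 h5 (norm_nonneg _) ((norm_nonneg _).trans h2)
    _ = ‖H.leadingCoeff ^ q.natDegree‖ * (C * M' ^ (H.natDegree - 1)) * ‖z - z1‖ ^ j := by ring

end Pool.Agent.HK
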