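import Pool.Agent.H.MP_cd3d06_an.K.DiscB

/-!
MP_cd3d06_an, part G: the polynomial `R` that counts the same type collisions: growth estimates.
-/

namespace Pool.Agent.HK

open Polynomial Filter

theorem eval_eraseLead (P : ℂ[X]) (w : ℂ) :
    P.eval w = P.eraseLead.eval w + P.leadingCoeff * w ^ P.natDegree := by
  have h := congrArg (fun Q => Polynomial.eval w Q) (eraseLead_add_C_mul_X_pow P)
  simp only [eval_add, eval_mul, eval_C, eval_pow, eval_X] at h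
  exact h.symm

theorem norm_pow_sub_pow_bound (x y : ℂ) (m : ℕ) {M : ℝ} (hx : ‖x‖ ≤ M) (hy : ‖y‖ ≤ M) :
    ‖x ^ m - y ^ m‖ ≤ m * M ^ (m - 1) * ‖x - y‖ := by
  rw [← (Commute.all x y).geom_sum₂_mul, norm_mul]
  apply mul_le_mul_of_nonneg_right _ (norm_nonneg _)
  calc ‖∑ i ∈ Finset.range m, x ^ i * y ^ (m - 1 - i)‖
      ≤ ∑ i ∈ Finset.range m, M ^ (m - 1) := by
        apply (norm_sum_le _ _).trans
        apply Finset.sum_le_sum
        intro i hi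
        have hi' := Finset.mem_range.1 hi
        rw [norm_mul, norm_pow, norm_pow]
        calc ‖x‖ ^ i * ‖y‖ ^ (m - 1 - i) ≤ M ^ i * M ^ (m - 1 - i) := by
              apply mul_le_mul (pow_le_pow_left₀ (norm_nonneg _) hx _)
                (pow_le_pow_left₀ (norm_nonneg _) hy _) (by positivity)
              exact pow_nonneg ((norm_nonneg x).trans hx) _
          _ = M ^ (m - 1) := by rw [← pow_add]; congr 1; omega
    _ = m * M ^ (m - 1) := by simp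

theorem norm_prod_map_ge (s : Multiset ℂ) (f : ℂ → ℂ) {M : ℝ} (hM : 0 ≤ M)
    (h : ∀ x ∈ s, M ≤ ‖f x‖) : M ^ s.card ≤ ‖(s.map f).prod‖ := by
  induction s using Multiset.induction_on with
  | empty => simp
  | cons a s ih =>
    rw [Multiset.map_cons, Multiset.prod_cons, norm_mul, Multiset.card_cons, pow_succ, mul_comm]
    apply mul_le_mul (h a (Multiset.mem_cons_self a s))
      (ih fun x hx => h x (Multiset.mem_cons_of_mem hx)) (by positivity) (norm_nonneg _)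

theorem DiscC_exists_sep (s : Finset ℂ) : ∃ c : ℝ, 0 < c ∧ c ≤ 1 ∧ ∀ x ∈ s, ∀ y ∈ s, x ≠ y →
    2 * c ≤ ‖x - y‖ := by
  by_cases hs : s.offDiag.Nonempty
  · obtain ⟨a, ha, hmin⟩ := s.offDiag.exists_min_image (fun a => ‖a.1 - a.2‖) hs
    rw [Finset.mem_offDiag] at ha
    have h0 : 0 < ‖a.1 - a.2‖ := norm_pos_iff.2 (sub_ne_zero.2 ha.2.2)
    refine ⟨min 1 (‖a.1 - a.2‖ / 2), by positivity, min_le_left _ _, fun x hx y hy hxy => ?_⟩
    have h1 := hmin (x, y) (Finset.mem_offDiag.2 ⟨hx, hy, hxy⟩)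
    have h2 := min_le_right 1 (‖a.1 - a.2‖ / 2)
    simp only at h1
    linarith
  · refine ⟨1, one_pos, le_rfl, fun x hx y hy hxy => ?_⟩
    exact absurd ⟨(x, y), Finset.mem_offDiag.2 ⟨hx, hy, hxy⟩⟩ hs

/-- the fibre of `z` is contained in the disc of radius `K * ‖z‖` -/
theorem fiber_le {H : ℂ[X]} (hn : 1 ≤ H.natDegree) :
    ∃ K : ℝ, 1 ≤ K ∧ ∀ z w : ℂ, 1 ≤ ‖z‖ → H.eval w = H.eval z → ‖w‖ ≤ K * ‖z‖ := by
  obtain ⟨CL, hCL0, hCL⟩ := poly_bound H.eraseLead (H.natDegree - 1) (eraseLead_natDegree_le H)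
  obtain ⟨CH, hCH0, hCH⟩ := poly_bound H H.natDegree le_rfl
  have ha : 0 < ‖H.leadingCoeff‖ := by
    rw [norm_pos_iff, leadingCoeff_ne_zero]
    rintro rfl
    simp at hn
  obtain ⟨n, hn'⟩ : ∃ n, H.natDegree = n + 1 := ⟨H.natDegree - 1, by omega⟩
  rw [hn'] at hCL hCH
  simp only [Nat.add_sub_cancel] at hCL
  set A : ℝ := CH * 2 ^ (n + 1) + CL * 2 ^ n with hA
  have hA0 : 0 < A := by positivity
  refine ⟨1 + A / ‖H.leadingCoeff‖, by have := div_pos hA0 ha; linarith, fun z w hz hw => ?_⟩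
  by_contra hlt
  rw [not_le] at hlt
  set K : ℝ := 1 + A / ‖H.leadingCoeff‖ with hK
  have hK1 : 1 < K := by have := div_pos hA0 ha; linarith
  have hw1 : K < ‖w‖ := by nlinarith
  have hzw : K * ‖z‖ ≤ ‖w‖ := hlt.le
  have hw0 : 0 < ‖w‖ := by linarith
  have h1 : ‖H.leadingCoeff‖ * ‖w‖ ^ (n + 1) ≤ CH * (2 * ‖z‖) ^ (n + 1) + CL * (2 * ‖w‖) ^ n := by
    have h2 := eval_eraseLead H w
    have h3 : H.leadingCoeff * w ^ (n + 1) = H.eval z - H.eraseLead.eval w := by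
      rw [← hw, h2, hn']
      ring
    calc ‖H.leadingCoeff‖ * ‖w‖ ^ (n + 1) = ‖H.leadingCoeff * w ^ (n + 1)‖ := by
          rw [norm_mul, norm_pow]
      _ ≤ ‖H.eval z‖ + ‖H.eraseLead.eval w‖ := by rw [h3]; exact norm_sub_le _ _
      _ ≤ CH * (1 + ‖z‖) ^ (n + 1) + CL * (1 + ‖w‖) ^ n := add_le_add (hCH z) (hCL w)
      _ ≤ CH * (2 * ‖z‖) ^ (n + 1) + CL * (2 * ‖w‖) ^ n := by
          apply add_le_add
          · apply mul_le_mul_of_nonneg_left _ hCH0.le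
            exact pow_le_pow_left₀ (by positivity) (by linarith) _
          · apply mul_le_mul_of_nonneg_left _ hCL0.le
            exact pow_le_pow_left₀ (by positivity) (by linarith) _
  -- `K * ‖z‖ ^ (n+1) ≤ ‖w‖ ^ (n+1)` and `K * ‖w‖ ^ n ≤ ‖w‖ ^ (n+1)`
  have h3 : K * ‖z‖ ^ (n + 1) ≤ ‖w‖ ^ (n + 1) := by
    calc K * ‖z‖ ^ (n + 1) ≤ K ^ (n + 1) * ‖z‖ ^ (n + 1) := by
          apply mul_le_mul_of_nonneg_right _ (by positivity)
          exact le_self_pow₀ hK1.le (by omega)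
      _ = (K * ‖z‖) ^ (n + 1) := by rw [mul_pow]
      _ ≤ ‖w‖ ^ (n + 1) := pow_le_pow_left₀ (by positivity) hzw _
  have h4 : K * ‖w‖ ^ n ≤ ‖w‖ ^ (n + 1) := by
    rw [pow_succ, mul_comm]
    exact mul_le_mul_of_nonneg_left hw1.le (by positivity)
  have h5 : K * (‖H.leadingCoeff‖ * ‖w‖ ^ (n + 1)) ≤ A * ‖w‖ ^ (n + 1) := by
    calc K * (‖H.leadingCoeff‖ * ‖w‖ ^ (n + 1))
        ≤ K * (CH * (2 * ‖z‖) ^ (n + 1) + CL * (2 * ‖w‖) ^ n) :=
          mul_le_mul_of_nonneg_left h1 (by linarith)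
      _ = CH * 2 ^ (n + 1) * (K * ‖z‖ ^ (n + 1)) + CL * 2 ^ n * (K * ‖w‖ ^ n) := by
          rw [mul_pow, mul_pow]; ring
      _ ≤ CH * 2 ^ (n + 1) * ‖w‖ ^ (n + 1) + CL * 2 ^ n * ‖w‖ ^ (n + 1) := by
          apply add_le_add
          · exact mul_le_mul_of_nonneg_left h3 (by positivity)
          · exact mul_le_mul_of_nonneg_left h4 (by positivity)
      _ = A * ‖w‖ ^ (n + 1) := by rw [hA]; ring
  have h6 : K * ‖H.leadingCoeff‖ ≤ A := by
    have : 0 < ‖w‖ ^ (n + 1) := by positivity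
    nlinarith
  have h7 : K * ‖H.leadingCoeff‖ = ‖H.leadingCoeff‖ + A := by
    rw [hK, add_mul, one_mul, div_mul_cancel₀ _ ha.ne']
  linarith

/-- on the fibre the lower order terms are `O(‖z‖ ^ (n-1))` -/
theorem fiber_lower {K : ℝ} (hK : 1 ≤ K) (P : ℂ[X]) (k : ℕ)
    (hP : P.natDegree ≤ k) : ∃ C : ℝ, 0 < C ∧ ∀ z w : ℂ, 1 ≤ ‖z‖ → ‖w‖ ≤ K * ‖z‖ →
      ‖P.eval w - P.eval z‖ ≤ C * ‖z‖ ^ k := by
  obtain ⟨C, hC0, hC⟩ := poly_bound P k hP
  refine ⟨2 * (C * (2 * K) ^ k), by positivity, fun z w hz hw => ?_⟩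
  have hb : ∀ u : ℂ, ‖u‖ ≤ K * ‖z‖ → ‖P.eval u‖ ≤ C * (2 * K) ^ k * ‖z‖ ^ k := by
    intro u hu
    calc ‖P.eval u‖ ≤ C * (1 + ‖u‖) ^ k := hC u
      _ ≤ C * (2 * K * ‖z‖) ^ k := by
          apply mul_le_mul_of_nonneg_left _ hC0.le
          apply pow_le_pow_left₀ (by positivity)
          nlinarith
      _ = C * (2 * K) ^ k * ‖z‖ ^ k := by rw [mul_pow]; ring
  have h1 := hb w hw
  have h2 := hb z (by nlinarith [norm_nonneg z])
  have h3 := norm_sub_le (P.eval w) (P.eval z)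
  linarith

end Pool.Agent.HK
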