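import Pool.Agent.H.MP_cd3d06_an.K.DiscC

/-!
MP_cd3d06_an, part G: the polynomial `R` that counts the same type collisions: the roots near
`ω * z`.
-/

namespace Pool.Agent.HK

open Polynomial Filter

theorem lead_pos {H : ℂ[X]} (hn : 1 ≤ H.natDegree) : 0 < ‖H.leadingCoeff‖ := by
  rw [norm_pos_iff, leadingCoeff_ne_zero]
  rintro rfl
  simp at hn

theorem norm_rou {ω : ℂ} {n : ℕ} (hn : 1 ≤ n) (h : ω ^ n = 1) : ‖ω‖ = 1 :=
  Complex.norm_eq_one_of_pow_eq_one h (by omega)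

/-- every `ω ≠ 1` has a root close to `ω * z` -/
theorem exists_root_near {H : ℂ[X]} (hn : 1 ≤ H.natDegree) {c : ℝ} (hc0 : 0 < c)
    (hc : ∀ ω ω' : ℂ, ω ^ H.natDegree = 1 → ω' ^ H.natDegree = 1 → ω ≠ ω' → 2 * c ≤ ‖ω - ω'‖) :
    ∃ R1 : ℝ, 1 ≤ R1 ∧ ∀ z : ℂ, R1 ≤ ‖z‖ → ∀ ω : ℂ, ω ^ H.natDegree = 1 → ω ≠ 1 →
      ∃ w, w ∈ (Fz H z).roots ∧ ‖w - ω * z‖ < c * ‖z‖ := by
  obtain ⟨C, hC0, hC⟩ := fiber_lower (K := 1) le_rfl H.eraseLead (H.natDegree - 1)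
    (eraseLead_natDegree_le H)
  have ha := lead_pos hn
  set n := H.natDegree with hndef
  set B : ℝ := 2 * ‖H.leadingCoeff‖ * c ^ n with hB
  have hB0 : 0 < B := by positivity
  refine ⟨1 + C / B, by have := div_pos hC0 hB0; linarith, fun z hz ω hω hω1 => ?_⟩
  by_contra hno
  push Not at hno
  have hz1 : 1 ≤ ‖z‖ := by have := div_pos hC0 hB0; linarith
  have hωn := norm_rou hn hω
  have h1 := hC z (ω * z) hz1 (by rw [norm_mul, hωn])
  have h2 : H.eval (ω * z) - H.eval z = H.eraseLead.eval (ω * z) - H.eraseLead.eval z := by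
    rw [eval_eraseLead H (ω * z), eval_eraseLead H z, ← hndef, mul_pow, hω]
    ring
  have h3 := Fz_eval H z (ω * z)
  have h4 : (Fz H z).eval (ω * z) = H.leadingCoeff *
      ((Fz H z).roots.map (fun w => ω * z - w)).prod := by
    rw [(IsAlgClosed.splits (Fz H z)).eval_eq_prod_roots, Fz_leadingCoeff hn]
  have hcard : (Fz H z).roots.card = n - 1 := by
    rw [hndef, ← Fz_natDegree hn z]
    exact ((IsAlgClosed.splits (Fz H z)).natDegree_eq_card_roots).symm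
  have h5 : (c * ‖z‖) ^ (n - 1) ≤ ‖((Fz H z).roots.map (fun w => ω * z - w)).prod‖ := by
    rw [← hcard]
    apply norm_prod_map_ge _ _ (by positivity)
    intro w hw
    rw [norm_sub_rev]
    exact hno w hw
  have h6 : 2 * c * ‖z‖ ≤ ‖ω * z - z‖ := by
    have := hc ω 1 hω (one_pow _) hω1
    calc 2 * c * ‖z‖ ≤ ‖ω - 1‖ * ‖z‖ := mul_le_mul_of_nonneg_right this (norm_nonneg _)
      _ = ‖ω * z - z‖ := by rw [← norm_mul]; congr 1; ring
  have h7 : (2 * c * ‖z‖) * (‖H.leadingCoeff‖ * (c * ‖z‖) ^ (n - 1)) ≤ C * ‖z‖ ^ (n - 1) := by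
    calc (2 * c * ‖z‖) * (‖H.leadingCoeff‖ * (c * ‖z‖) ^ (n - 1))
        ≤ ‖ω * z - z‖ * (‖H.leadingCoeff‖ *
            ‖((Fz H z).roots.map (fun w => ω * z - w)).prod‖) := by
          apply mul_le_mul h6 _ (by positivity) (norm_nonneg _)
          exact mul_le_mul_of_nonneg_left h5 (norm_nonneg _)
      _ = ‖H.eval (ω * z) - H.eval z‖ := by
          rw [← norm_mul, ← norm_mul, ← h4, h3]
      _ ≤ C * ‖z‖ ^ (n - 1) := by rw [h2]; exact h1
  have h8 : (2 * c * ‖z‖) * (‖H.leadingCoeff‖ * (c * ‖z‖) ^ (n - 1)) =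
      (B * ‖z‖) * ‖z‖ ^ (n - 1) := by
    rw [hB, mul_pow]
    have : c ^ n = c * c ^ (n - 1) := by rw [← pow_succ']; congr 1; omega
    rw [this]
    ring
  rw [h8] at h7
  have h9 : B * ‖z‖ ≤ C := le_of_mul_le_mul_right h7 (by positivity)
  have h10 : B * (1 + C / B) ≤ C := (mul_le_mul_of_nonneg_left hz hB0.le).trans h9
  have h11 : B * (1 + C / B) = B + C := by field_simp
  linarith

/-- such roots are very close -/
theorem root_close {H : ℂ[X]} (hn : 1 ≤ H.natDegree) {K : ℝ} (hK : 1 ≤ K) {c : ℝ} (hc0 : 0 < c)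
    (hc : ∀ ω ω' : ℂ, ω ^ H.natDegree = 1 → ω' ^ H.natDegree = 1 → ω ≠ ω' → 2 * c ≤ ‖ω - ω'‖) :
    ∃ C4 : ℝ, 0 < C4 ∧ ∀ z w ω : ℂ, 1 ≤ ‖z‖ → ‖w‖ ≤ K * ‖z‖ → H.eval w = H.eval z →
      ω ^ H.natDegree = 1 → ‖w - ω * z‖ < c * ‖z‖ → ‖w - ω * z‖ ≤ C4 := by
  obtain ⟨C, hC0, hC⟩ := fiber_lower hK H.eraseLead (H.natDegree - 1) (eraseLead_natDegree_le H)
  have ha := lead_pos hn
  set n := H.natDegree with hndef
  refine ⟨C / (‖H.leadingCoeff‖ * c ^ (n - 1)), by positivity, fun z w ω hz hw hwz hω hnear => ?_⟩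
  rw [le_div_iff₀ (by positivity)]
  have h1 := hC z w hz hw
  have h2 : H.leadingCoeff * (w ^ n - z ^ n) = -(H.eraseLead.eval w - H.eraseLead.eval z) := by
    have e1 := eval_eraseLead H w
    have e2 := eval_eraseLead H z
    rw [hwz, e2, ← hndef] at e1
    linear_combination -e1
  have h3 : ‖H.leadingCoeff‖ * ‖w ^ n - z ^ n‖ ≤ C * ‖z‖ ^ (n - 1) := by
    rw [← norm_mul, h2, norm_neg]
    exact h1
  have hprim : IsPrimitiveRoot (Complex.exp (2 * Real.pi * Complex.I / n)) n :=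
    Complex.isPrimitiveRoot_exp n (by omega)
  have h4 := hprim.pow_sub_pow_eq_prod_sub_mul w z (by omega)
  have hmem : ω ∈ nthRootsFinset n (1 : ℂ) := (mem_nthRootsFinset (by omega) _).2 hω
  rw [← Finset.mul_prod_erase _ _ hmem] at h4
  have hcard : ((nthRootsFinset n (1 : ℂ)).erase ω).card = n - 1 := by
    rw [Finset.card_erase_of_mem hmem, hprim.card_nthRootsFinset]
  have h5 : (c * ‖z‖) ^ (n - 1) ≤ ‖∏ x ∈ (nthRootsFinset n (1 : ℂ)).erase ω, (w - x * z)‖ := by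
    rw [norm_prod, ← hcard, ← Finset.prod_const]
    apply Finset.prod_le_prod
    · intro i _
      positivity
    · intro x hx
      rw [Finset.mem_erase, mem_nthRootsFinset (by omega)] at hx
      have h6 := hc ω x hω hx.2 (Ne.symm hx.1)
      have h7 : 2 * c * ‖z‖ ≤ ‖ω * z - x * z‖ := by
        rw [← sub_mul, norm_mul]
        exact mul_le_mul_of_nonneg_right h6 (norm_nonneg _)
      have h8 : ‖ω * z - x * z‖ ≤ ‖w - ω * z‖ + ‖w - x * z‖ := by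
        have : ω * z - x * z = (w - x * z) - (w - ω * z) := by ring
        rw [this]
        have := norm_sub_le (w - x * z) (w - ω * z)
        linarith
      linarith
  have h6 : ‖w - ω * z‖ * (c * ‖z‖) ^ (n - 1) ≤ ‖w ^ n - z ^ n‖ := by
    rw [h4, norm_mul]
    exact mul_le_mul_of_nonneg_left h5 (norm_nonneg _)
  have h7 : (‖w - ω * z‖ * (‖H.leadingCoeff‖ * c ^ (n - 1))) * ‖z‖ ^ (n - 1) ≤
      C * ‖z‖ ^ (n - 1) := by
    calc (‖w - ω * z‖ * (‖H.leadingCoeff‖ * c ^ (n - 1))) * ‖z‖ ^ (n - 1)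
        = ‖H.leadingCoeff‖ * (‖w - ω * z‖ * (c * ‖z‖) ^ (n - 1)) := by rw [mul_pow]; ring
      _ ≤ ‖H.leadingCoeff‖ * ‖w ^ n - z ^ n‖ := mul_le_mul_of_nonneg_left h6 (norm_nonneg _)
      _ ≤ C * ‖z‖ ^ (n - 1) := h3
  exact le_of_mul_le_mul_right h7 (by positivity)

/-- for `ω ^ m = 1` the difference of the values of `q` is `O(‖z‖ ^ (m - 1))` -/
theorem near_bound (q : ℂ[X]) {K : ℝ} (hK : 1 ≤ K) {C4 : ℝ} (hC4 : 0 < C4) (hm : 1 ≤ q.natDegree) :
    ∃ C6 : ℝ, 0 < C6 ∧ ∀ z w ω : ℂ, 1 ≤ ‖z‖ → ‖w‖ ≤ K * ‖z‖ → ω ^ q.natDegree = 1 →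
      ‖w - ω * z‖ ≤ C4 → ‖q.eval w - q.eval z‖ ≤ C6 * ‖z‖ ^ (q.natDegree - 1) := by
  obtain ⟨C, hC0, hC⟩ := fiber_lower hK q.eraseLead (q.natDegree - 1) (eraseLead_natDegree_le q)
  set m := q.natDegree with hmdef
  refine ⟨C + ‖q.leadingCoeff‖ * (m * K ^ (m - 1) * C4), by positivity,
    fun z w ω hz hw hω hclose => ?_⟩
  have h1 := hC z w hz hw
  have h2 : q.eval w - q.eval z = (q.eraseLead.eval w - q.eraseLead.eval z) +
      q.leadingCoeff * (w ^ m - (ω * z) ^ m) := by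
    have e1 := eval_eraseLead q w
    have e2 := eval_eraseLead q z
    rw [← hmdef] at e1 e2
    rw [mul_pow, hω]
    linear_combination e1 - e2
  have hωn := norm_rou hm hω
  have h3 := norm_pow_sub_pow_bound w (ω * z) m hw
    (by rw [norm_mul, hωn]; nlinarith [norm_nonneg z])
  rw [h2]
  calc ‖(q.eraseLead.eval w - q.eraseLead.eval z) + q.leadingCoeff * (w ^ m - (ω * z) ^ m)‖
      ≤ C * ‖z‖ ^ (m - 1) + ‖q.leadingCoeff‖ * (m * (K * ‖z‖) ^ (m - 1) * C4) := by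
        apply (norm_add_le _ _).trans
        apply add_le_add h1
        rw [norm_mul]
        apply mul_le_mul_of_nonneg_left _ (norm_nonneg _)
        exact h3.trans (mul_le_mul_of_nonneg_left hclose (by positivity))
    _ = (C + ‖q.leadingCoeff‖ * (m * K ^ (m - 1) * C4)) * ‖z‖ ^ (m - 1) := by
        rw [mul_pow]; ring

end Pool.Agent.HK
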