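import Pool.Agent.H.MP_cd3d06_an.K.Comb

/-!
Part F: crossing a special parameter with several pairs.
-/

namespace Pool.Agent.HK

variable {n : ℕ}

/-- The power of a generator changes the labels at two positions only. -/
theorem fing_sg_pow_of_ne (r : Row (2 * n)) (i k : ℕ) (j : Fin (2 * n)) (h1 : (j : ℕ) ≠ i)
    (h2 : (j : ℕ) ≠ i + 1) : fing r (sg (2 * n) i ^ k) j = r j := by
  induction k with
  | zero => rw [pow_zero, fing_one]
  | succ k ih =>
    rw [pow_succ, fing_mul]
    by_cases hi : i + 1 < 2 * n
    · rw [CombA_fing_sg hi true]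
      rw [← ih]
      generalize fing r (sg (2 * n) i ^ k) = r'
      unfold nxt
      have h3 : flip (CombA_lt i hi true).p (CombA_lt i hi true).q r' j = r' j := by
        unfold flip
        rw [if_neg]
        rintro (h | h)
        · exact h1 (congrArg Fin.val h)
        · exact h2 (congrArg Fin.val h)
      split_ifs
      · exact h3
      · rfl
    · rw [sg_triv (by omega), fing_one]
      rw [sg_triv (by omega)] at ih
      exact ih

theorem fprod_fing {np : ℕ} (pos k : Fin np → ℕ) (j : Fin (2 * n)) (L : List (Fin np))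
    (hL : ∀ a ∈ L, (j : ℕ) ≠ pos a ∧ (j : ℕ) ≠ pos a + 1) (r : Row (2 * n)) :
    fing r (L.map fun a => sg (2 * n) (pos a) ^ k a).prod j = r j := by
  induction L generalizing r with
  | nil => rw [List.map_nil, List.prod_nil, fing_one]
  | cons a L ih =>
    rw [List.map_cons, List.prod_cons, fing_mul, ih fun b hb => hL b (List.mem_cons_of_mem _ hb)]
    have h := hL a List.mem_cons_self
    exact fing_sg_pow_of_ne r _ _ j h.1 h.2

theorem fprod_list {np : ℕ} (pos k : Fin np → ℕ) (sm : Fin np → Prop) [DecidablePred sm]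
    (hpos : ∀ a, pos a + 1 < 2 * n)
    (hsep : ∀ a b, a ≠ b → pos a + 2 ≤ pos b ∨ pos b + 2 ≤ pos a) {X Y : Brd (2 * n)}
    {r : Row (2 * n)}
    (hr : ∀ a, fing r X ⟨pos a, by have := hpos a; omega⟩ = fing r X ⟨pos a + 1, hpos a⟩ ↔ ¬ sm a)
    (hev : ∀ a, ¬ sm a → Even (k a)) {A : ℤ} (h : Bd n (X * Y) r A) (L : List (Fin np))
    (hL : L.Nodup) :
    Bd n (X * (L.map fun a => sg (2 * n) (pos a) ^ k a).prod * Y) r
      (A + (L.map fun a => if sm a then (k a : ℤ) else 0).sum +
        (L.map fun a => if Odd (k a) then (1 : ℤ) else 0).sum) := by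
  induction L using List.reverseRecOn with
  | nil =>
    simpa using h
  | append_singleton L b ih =>
    have hL' := List.nodup_append.1 hL
    have hb : ∀ a ∈ L, a ≠ b := fun a ha => hL'.2.2 a ha b List.mem_cons_self
    have h1 := ih hL'.1
    set X' : Brd (2 * n) := X * (L.map fun a => sg (2 * n) (pos a) ^ k a).prod with hX'
    have hp : ∀ j : Fin (2 * n), ((j : ℕ) = pos b ∨ (j : ℕ) = pos b + 1) →
        fing r X' j = fing r X j := by
      intro j hj
      rw [hX', fing_mul]
      refine fprod_fing pos k j L (fun a ha => ?_) _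
      have := hsep a b (hb a ha)
      omega
    have hp1 := hp ⟨pos b, by have := hpos b; omega⟩ (Or.inl rfl)
    have hp2 := hp ⟨pos b + 1, hpos b⟩ (Or.inr rfl)
    have hX2 : X * ((L ++ [b]).map fun a => sg (2 * n) (pos a) ^ k a).prod * Y
        = X' * sg (2 * n) (pos b) ^ k b * Y := by
      rw [List.map_append, List.prod_append, hX', List.map_singleton, List.prod_singleton]
      simp only [mul_assoc]
    rw [hX2, List.map_append, List.sum_append, List.map_append, List.sum_append,
      List.map_singleton, List.sum_singleton, List.map_singleton, List.sum_singleton]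
    by_cases hs : sm b
    · have ht : fing r X' ⟨pos b, by have := hpos b; omega⟩ ≠ fing r X' ⟨pos b + 1, hpos b⟩ := by
        rw [hp1, hp2]
        exact fun he => (hr b).1 he hs
      have h2 := Bd.same (hpos b) (k b) ht h1
      rw [if_pos hs]
      have h3 : (if Odd (k b) then (1 : ℤ) else 0) = ((k b % 2 : ℕ) : ℤ) := by
        by_cases ho : Odd (k b)
        · rw [if_pos ho, Nat.odd_iff.1 ho]; rfl
        · rw [if_neg ho, Nat.even_iff.1 (Nat.not_odd_iff_even.1 ho)]; rfl
      rw [h3]
      convert h2 using 1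
      ring
    · have ht : fing r X' ⟨pos b, by have := hpos b; omega⟩ = fing r X' ⟨pos b + 1, hpos b⟩ := by
        rw [hp1, hp2]
        exact (hr b).2 hs
      obtain ⟨c, hc⟩ := hev b hs
      have h2 := Bd.opp (hpos b) c ht h1
      have hodd : ¬ Odd (k b) := Nat.not_odd_iff_even.2 ⟨c, hc⟩
      rw [if_neg hs, if_neg hodd]
      rw [show 2 * c = k b by omega] at h2
      convert h2 using 1
      ring

/-- Crossing several pairs at once: `pos a` are the positions, `k a` the orders, `sm a` means that the
two points have the same type; opposite type pairs have even order. -/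
theorem Bd.prod {np : ℕ} (pos k : Fin np → ℕ) (sm : Fin np → Prop) [DecidablePred sm]
    (hpos : ∀ a, pos a + 1 < 2 * n)
    (hsep : ∀ a b, a ≠ b → pos a + 2 ≤ pos b ∨ pos b + 2 ≤ pos a) {X Y : Brd (2 * n)}
    {r : Row (2 * n)}
    (hr : ∀ a, fing r X ⟨pos a, by have := hpos a; omega⟩ = fing r X ⟨pos a + 1, hpos a⟩ ↔ ¬ sm a)
    (hev : ∀ a, ¬ sm a → Even (k a)) {A : ℤ} (h : Bd n (X * Y) r A) :
    Bd n (X * (List.ofFn fun a => sg (2 * n) (pos a) ^ k a).prod * Y) r
      (A + ((∑ a ∈ Finset.univ.filter sm, k a : ℕ) : ℤ) +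
        ((Finset.univ.filter fun a => Odd (k a)).card : ℤ)) := by
  have h1 := fprod_list pos k sm hpos hsep hr hev h (List.finRange np) (List.nodup_finRange np)
  rw [List.ofFn_eq_map]
  have e1 : ((∑ a ∈ Finset.univ.filter sm, k a : ℕ) : ℤ) =
      ((List.finRange np).map fun a => if sm a then (k a : ℤ) else 0).sum := by
    rw [← Fin.sum_univ_def, Finset.sum_filter]
    push_cast
    rfl
  have e2 : ((Finset.univ.filter fun a => Odd (k a)).card : ℤ) =
      ((List.finRange np).map fun a => if Odd (k a) then (1 : ℤ) else 0).sum := by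
    rw [← Fin.sum_univ_def, Finset.card_filter]
    push_cast
    rfl
  rw [e1, e2]
  exact h1

/-- `Bd` is monotone in `A` -/
theorem Bd.mono {g : Brd (2 * n)} {r : Row (2 * n)} {A A' : ℤ} (hA : A ≤ A') (h : Bd n g r A) :
    Bd n g r A' := fun l hl => (h l hl).trans (by linarith)

end Pool.Agent.HK
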