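import Pool.Agent.H.MP_cd3d06_an.K.FC3
import Pool.Agent.H.MP_cd3d06_an.K.FProd
import Pool.Agent.H.MP_cd3d06_an.K.C4d
import Pool.Agent.H.MP_cd3d06_an.K.C5
import Pool.Agent.H.MP_cd3d06_an.K.C6

/-!
Part F: the statements of part C that are used: C3 (`exists_covPrim`, `exists_prim_convex`: FC3),
C4 (`real_seg`, `real_row`: C4d), C5 (`zero_half`), C6 (`far_half`).
-/
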