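import Pool.Agent.H.MP_cd3d06_an.K.Clmod

/-!
MP_cd3d06_an, parts C1 and C3 in the form used by part F.
-/

namespace Pool.Agent.HK

open Complex Set Metric Filter Topology
open scoped ComplexConjugate

variable {n : ℕ} {Pts : ℂ → Set TP}

/-- the data produced by C3 -/
structure CovPrim (n : ℕ) (Pts : ℂ → Set TP) (ζ0 : ℂ) (L : LMod n Pts ζ0) where
  δ : ℝ
  hδ : 0 < δ
  g : ℝ × ℝ → Brd (2 * n)
  pos : Fin L.np → ℕ
  r0 : Row (2 * n)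
  prim : IsPrim n Pts (fun u : ℝ × ℝ => pol ζ0 u.1 u.2) g (Ioo 0 δ ×ˢ univ)
  hpos : ∀ a, pos a + 1 < 2 * n
  hsep : ∀ a b, a ≠ b → pos a + 2 ≤ pos b ∨ pos b + 2 ≤ pos a
  per : ∀ ρ ∈ Ioo 0 δ, ∀ φ : ℝ,
    g (ρ, φ + 2 * Real.pi) = (List.ofFn fun a => sg (2 * n) (pos a) ^ L.k a).prod * g (ρ, φ)
  row : ∀ ρ ∈ Ioo 0 δ, ∀ φ : ℝ, fing r0 (g (ρ, φ)) = rowAt n Pts (pol ζ0 ρ φ)
  typ : ∀ a, r0 ⟨pos a, by have := hpos a; omega⟩ = r0 ⟨pos a + 1, hpos a⟩ ↔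
    L.ty (L.x a) ≠ L.ty (L.y a)

theorem FC3_reg {ζ0 : ℂ} {δ : ℝ} (hδ : 0 < δ)
    (hreg : ∀ ρ ∈ Ioo 0 δ, ∀ φ : ℝ, IsRegPt n Pts (pol ζ0 ρ φ)) :
    ∀ᶠ ζ in 𝓝[≠] ζ0, IsRegPt n Pts ζ := by
  rw [eventually_nhdsWithin_iff]
  filter_upwards [ball_mem_nhds ζ0 hδ] with ζ hζ hne
  have h1 : pol ζ0 ‖ζ - ζ0‖ (Complex.arg (ζ - ζ0)) = ζ := by
    unfold pol
    rw [Complex.norm_mul_exp_arg_mul_I]
    ring
  rw [← h1]
  refine hreg _ ⟨?_, ?_⟩ _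
  · exact norm_pos_iff.2 (sub_ne_zero.2 hne)
  · rwa [mem_ball, dist_eq_norm] at hζ

theorem exists_covPrim {ζ0 : ℂ} (L : LMod n Pts ζ0) {δ : ℝ} (hδ : 0 < δ)
    (hreg : ∀ ρ ∈ Ioo 0 δ, ∀ φ : ℝ, IsRegPt n Pts (pol ζ0 ρ φ)) : Nonempty (CovPrim n Pts ζ0 L) := by
  have hr := FC3_reg hδ hreg
  obtain ⟨δ1, h1, h1', hprim⟩ := L.g_prim hr
  obtain ⟨δ2, h2, h2', hturn⟩ := L.g_turn
  obtain ⟨δ3, h3, h3', hrow⟩ := L.g_row hr
  refine ⟨{ δ := min δ1 (min δ2 δ3)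
            hδ := lt_min h1 (lt_min h2 h3)
            g := L.g
            pos := L.pos
            r0 := L.row0
            prim := hprim.mono ?_
            hpos := L.pos_lt
            hsep := fun a b hab => L.pos_far hab
            per := ?_
            row := ?_
            typ := ?_ }⟩
  · rintro ⟨ρ, φ⟩ ⟨hρ, -⟩
    exact ⟨⟨hρ.1, hρ.2.trans_le (min_le_left _ _)⟩, mem_univ _⟩
  · intro ρ hρ φ
    have hρ2 : ρ < δ2 := hρ.2.trans_le ((min_le_right _ _).trans (min_le_left _ _))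
    rw [hturn ρ ⟨hρ.1, hρ2⟩ φ]
    unfold LMod.pw
    rw [List.ofFn_eq_map]
    simp only [zpow_natCast]
  · intro ρ hρ φ
    have hρ3 : ρ < δ3 := hρ.2.trans_le ((min_le_right _ _).trans (min_le_right _ _))
    exact hrow (ρ, φ) ⟨hρ.1, hρ3⟩
  · intro a
    have := L.row0_pos a
    rw [ne_eq, not_iff_comm] at this
    exact this.symm

theorem exists_prim_convex {Y : Set ℂ} (hY : IsOpen Y) (hc : Convex ℝ Y)
    (hreg : ∀ ζ ∈ Y, IsRegPt n Pts ζ) : ∃ f : ℂ → Brd (2 * n), IsPrim n Pts id f Y := by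
  rcases Y.eq_empty_or_nonempty with rfl | hne
  · exact ⟨1, fun x hx => absurd hx (notMem_empty x)⟩
  · have h1 : ContractibleSpace Y := hc.contractibleSpace hne
    have h2 : LocallyPathConnectedSpace Y := hY.locallyPathConnectedSpace
    exact exists_prim_on hreg

end Pool.Agent.HK
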