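import Pool.Agent.H.MP_cd3d06_an.K.FCrossA

/-!
Part F: crossing one special parameter.
-/

namespace Pool.Agent.HK

open Complex Set Metric Filter Topology
open scoped ComplexConjugate

variable {n : ℕ} {Pts : ℂ → Set TP}

theorem FCross_isLinear (s : ℝ) : IsLinearMap ℝ (foot s) :=
  ⟨FGeo_foot_add s, fun c x => by rw [FGeo_foot_smul, smul_eq_mul]⟩

theorem FCross_foot_cont (s : ℝ) : Continuous (foot s) := by
  unfold foot
  exact continuous_re.add (continuous_const.mul continuous_im)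

theorem FCross_pol_cont (z : ℂ) : Continuous (fun u : ℝ × ℝ => pol z u.1 u.2) := by
  unfold pol
  fun_prop

theorem FCross_isOpen_Lo (s : ℝ) (z : ℂ) (η : ℝ) : IsOpen (Lo s z η) := by
  have h1 : IsOpen {ζ : ℂ | |foot s ζ - foot s z| < η} :=
    isOpen_lt (((FCross_foot_cont s).sub continuous_const).abs) continuous_const
  have h2 : IsOpen {ζ : ℂ | -η < ζ.im} := isOpen_lt continuous_const continuous_im
  have h3 : IsOpen {ζ : ℂ | ζ.im < z.im} := isOpen_lt continuous_im continuous_const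
  exact h1.inter (h2.inter h3)

theorem FCross_Lo_mono {s : ℝ} {z : ℂ} {η η' : ℝ} (h : η ≤ η') : Lo s z η ⊆ Lo s z η' :=
  fun _ hζ => ⟨hζ.1.trans_le h, by linarith [hζ.2.1], hζ.2.2⟩

theorem FCross_real_mem_Lo {s : ℝ} {z : ℂ} {η c : ℝ} (hη : 0 < η) (hz0 : 0 < z.im)
    (h1 : foot s z - η < c) (h2 : c < foot s z + η) : (c : ℂ) ∈ Lo s z η := by
  refine ⟨?_, ?_, ?_⟩
  · simp only [foot, ofReal_re, ofReal_im, mul_zero, add_zero] at *
    rw [abs_lt]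
    constructor <;> linarith
  · simpa using hη
  · simpa using hz0

/-- `foot` of a point in polar coordinates around `z` -/
theorem FCross_foot_pol (s : ℝ) (z : ℂ) (ρ t : ℝ) :
    foot s (pol z ρ (alf s - Real.pi + t)) - foot s z = ρ * (‖dirv s‖ * Real.sin t) := by
  obtain ⟨hc, hsn⟩ := FGeo_dirv s
  have h1 : foot s (pol z ρ (alf s - Real.pi + t)) - foot s z =
      ρ * (Real.cos (alf s - Real.pi + t) + s * Real.sin (alf s - Real.pi + t)) := by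
    rw [foot, FGeo_pol_re, FGeo_pol_im, foot]
    ring
  have h2 : Real.cos (alf s - Real.pi + t) + s * Real.sin (alf s - Real.pi + t) =
      ‖dirv s‖ * Real.sin t := by
    set φ := alf s - Real.pi + t with hφ
    have h3 : Real.sin t = Real.sin (alf s - φ) := by
      rw [hφ, show alf s - (alf s - Real.pi + t) = Real.pi - t by ring, Real.sin_pi_sub]
    rw [h3, Real.sin_sub, mul_sub, ← mul_assoc, ← mul_assoc, hc, hsn]
    ring
  rw [h1, h2]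

theorem FCross_dirv_pos (s : ℝ) : 0 < ‖dirv s‖ := by
  obtain ⟨-, hsn⟩ := FGeo_dirv s
  refine lt_of_le_of_ne (norm_nonneg _) ?_
  intro h
  rw [← h, zero_mul] at hsn
  exact zero_ne_one hsn

theorem FCross_foot_abs {s : ℝ} (hs : 0 < s) (hs' : s < 1) (z : ℂ) {ρ : ℝ} (hρ : 0 < ρ) (φ : ℝ) :
    |foot s (pol z ρ φ) - foot s z| ≤ 2 * ρ := by
  have h1 : foot s (pol z ρ φ) - foot s z = ρ * (Real.cos φ + s * Real.sin φ) := by
    rw [foot, FGeo_pol_re, FGeo_pol_im, foot]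
    ring
  have h4 : |Real.cos φ + s * Real.sin φ| ≤ 2 := by
    refine (abs_add_le _ _).trans ?_
    rw [abs_mul, abs_of_pos hs]
    have a1 := Real.abs_cos_le_one φ
    have a2 := Real.abs_sin_le_one φ
    have a3 := abs_nonneg (Real.sin φ)
    nlinarith
  rw [h1, abs_mul, abs_of_pos hρ]
  nlinarith

theorem FCross_pol_mem_Lo {s : ℝ} (hs : 0 < s) (hs' : s < 1) {z : ℂ} (hz0 : 0 < z.im) {η ρ φ : ℝ}
    (hρ : 0 < ρ) (hρη : ρ < η / 2) (h1 : -Real.pi < φ) (h2 : φ < 0) : pol z ρ φ ∈ Lo s z η := by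
  have hsin : Real.sin φ < 0 := Real.sin_neg_of_neg_of_neg_pi_lt h2 h1
  refine ⟨?_, ?_, ?_⟩
  · have := FCross_foot_abs hs hs' z hρ φ
    linarith
  · rw [FGeo_pol_im]
    have h3 := Real.neg_one_le_sin φ
    nlinarith
  · rw [FGeo_pol_im]
    nlinarith

theorem FCross_periodic (z : ℂ) (ρ φ : ℝ) : pol z ρ (φ + 2 * Real.pi) = pol z ρ φ := by
  unfold pol
  push_cast
  rw [add_mul, Complex.exp_add, Complex.exp_two_pi_mul_I, mul_one]

theorem FCross_mem_dbl {Sp : Finset ℂ} {w : ℂ} (hw : w ∈ Sp) : w ∈ dbl Sp := by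
  classical
  unfold dbl
  exact Finset.mem_union_left _ hw

/-- the algebra of the four constants -/
theorem FCross_alg {G : Type*} [Group G] {C0 C1 Cp Cm P g1 g2 h1 h2 f1 f2 : G}
    (e1 : f1 = C0 * g1) (e2 : f1 = Cp * h1) (e3 : h1 = C1 * g1)
    (e4 : f2 = C0 * (P * g2)) (e5 : f2 = Cm * h2) (e6 : h2 = C1 * g2) :
    Cp = C0 * C1⁻¹ ∧ Cm = C0 * P * C1⁻¹ := by
  constructor
  · have h : C0 * g1 = Cp * C1 * g1 := by rw [← e1, e2, e3, mul_assoc]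
    rw [mul_right_cancel h]
    group
  · have h : C0 * P * g2 = Cm * C1 * g2 := by rw [mul_assoc, ← e4, e5, e6, mul_assoc]
    rw [mul_right_cancel h]
    group

/-- Crossing a special parameter `z` of the open upper half plane.

PROOF (blueprint, section 5 (F2)).  Let `v = dirv s`, `α = alf s`, `c0 = foot s z`, `L` the model at `z`,
`g` its `CovPrim`, `P` its period.
(1) For small `ρ1 > 0` and `ε1 > 0`: for `ρ ∈ (0, ρ1)` and `|φ - (α - π)| < ε1` the point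
`pol z ρ φ` is in `Lo s z η`, and `foot` of it is `> c0` iff `φ > α - π`, `< c0` iff `φ < α - π`
(`foot (pol z ρ φ) - c0 = ρ (cos φ + s sin φ) = ρ * sqrt (1 + s ^ 2) * sin (α - φ)`... use that
`dirv s = sqrt (1 + s ^ 2) * exp (i α)`, i.e. `-s = sqrt(1+s^2) cos α`, `1 = sqrt(1+s^2) sin α`;
`im - z.im = ρ sin φ < 0`).
(2) `h` := primitive on `Lo s z η` (`exists_prim_convex`, no special points there).
On `W = Ioo 0 ρ1 ×ˢ Ioo (α-π-ε1) (α-π+ε1)` both `h ∘ pol` (`IsPrim.comp`) and `g` are primitives: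
`h (pol z ρ φ) = C1 * g (ρ, φ)` (`IsPrim.unique`; convex, so preconnected).
(3) On `Ioo 0 ρ1 ×ˢ Ioo (α - π) (α + π)` both `f ∘ pol` (`disc_mem_Ys`) and `g` are primitives:
`f (pol z ρ φ) = C0 * g (ρ, φ)`.
(4) On the right part of `Lo` (convex, in `Ys`): `f = Cp * h`; on the left part `f = Cm * h`.
Evaluate at `pol z ρ (α - π + ε1/2)`: `Cp = C0 * C1⁻¹`; at `pol z ρ (α + π - ε1/2) =
pol z ρ (α - π - ε1/2)`: `Cm = C0 * P * C1⁻¹`.
(5) `cp > c0 > cm` real with `|cp - c0|, |cm - c0| < η`; they are in `Lo` (as `0 < z.im`).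
`X = (h cp)⁻¹ * C1`, `Y = P⁻¹ * C0⁻¹ * F` with `F = f (-R)` (any element):
`(f cp)⁻¹ * F = X * P * Y` and `X * Y = s1 * ((f cm)⁻¹ * F)` with `s1 = (h cp)⁻¹ * h cm ∈ symB n`
(`real_seg` for `h` on `[cm, cp]`).
(6) rows: `fing (rowAt cp) X = r0`: with `u = (ρ, α - π + ε1/2)`: `IsPrim.fing` for `h` between `cp` and
`pol u`: `fing (rowAt cp) ((h cp)⁻¹ * (C1 * g u)) = rowAt (pol u) = fing r0 (g u)`; `fing_injective`.
(7) `Bd n ((f cm)⁻¹ * F) (rowAt cm) A` gives by `Bd.sym` `Bd n (X * Y) (rowAt cp) A` (the row: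
`fing (rowAt cp) s1 = rowAt cm` by `IsPrim.fing` for `h`), and `Bd.prod` gives the claim with
`sm a := L.ty (L.x a) = L.ty (L.y a)`; `Bd.mono` with the bounds in `IsSpecial`. -/
theorem cross_special (hn : 1 ≤ n) (hm : ∀ ζ, Pts (conj ζ) = mir '' Pts ζ) {Sp : Finset ℂ}
    (hSp : ∀ z ∈ Sp, 0 ≤ z.im) (hreg : ∀ ζ ∉ dbl Sp, IsRegPt n Pts ζ) {s : ℝ} (hs : 0 < s)
    (hs' : s < 1) (hZ : ∀ z ∈ dbl Sp, ∀ w ∈ dbl Sp, foot s z = foot s w → z = w)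
    {f : ℂ → Brd (2 * n)} (hf : IsPrim n Pts id f (Ys s (dbl Sp))) {z : ℂ} (hz : z ∈ Sp)
    (hz0 : 0 < z.im) {EE BB : ℕ} (hL : IsSpecial n Pts z EE BB) :
    ∃ η > 0, ∀ cm cp : ℝ, foot s z - η < cm → cm < foot s z → foot s z < cp → cp < foot s z + η →
      ∀ (F : Brd (2 * n)) (A : ℤ), Bd n ((f cm)⁻¹ * F) (rowAt n Pts cm) A →
        Bd n ((f cp)⁻¹ * F) (rowAt n Pts cp) (A + EE + BB) := by
  obtain ⟨L, hev, hEE, hBB⟩ := hL
  have hpi := Real.pi_pos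
  obtain ⟨hα0, hα1⟩ := alf_mem s
  have hzd : z ∈ dbl Sp := FCross_mem_dbl hz
  -- the covering primitive
  obtain ⟨δ0, hδ0, hd0⟩ := FGeo_small (dbl Sp) (fun w => dist w z)
  have hreg0 : ∀ ρ ∈ Ioo 0 δ0, ∀ φ : ℝ, IsRegPt n Pts (pol z ρ φ) := by
    intro ρ hρ φ
    refine hreg _ fun hmem => ?_
    have hdist : dist (pol z ρ φ) z = ρ := by
      rw [pol, dist_eq_norm, add_sub_cancel_left, norm_mul, Complex.norm_exp_ofReal_mul_I, mul_one,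
        Complex.norm_real, Real.norm_of_nonneg hρ.1.le]
    have h1 := hd0 _ hmem (by rw [hdist]; exact hρ.1)
    rw [hdist] at h1
    exact absurd hρ.2 (not_lt.2 h1)
  obtain ⟨CP⟩ := exists_covPrim L hδ0 hreg0
  set P : Brd (2 * n) := (List.ofFn fun a => sg (2 * n) (CP.pos a) ^ L.k a).prod with hP
  -- the radii
  obtain ⟨δ1, hδ1, hd1⟩ := disc_mem_Ys hs hs' hZ hzd
  obtain ⟨η1, hη1, hL1⟩ := Lo_disjoint hSp
    (fun w hw w' hw' h => hZ w (FCross_mem_dbl hw) w' (FCross_mem_dbl hw') h) hz hz0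
  obtain ⟨η2, hη2, hL2⟩ := FGeo_small Sp (fun w => |foot s w - foot s z|)
  obtain ⟨η3, hη3, hL3⟩ := FGeo_small Sp (fun w => w.im)
  obtain ⟨η, hη, hηη1, hηη2, hηη3⟩ : ∃ η > 0, η ≤ η1 ∧ η ≤ η2 ∧ η ≤ η3 :=
    ⟨min η1 (min η2 η3), lt_min hη1 (lt_min hη2 hη3), min_le_left _ _,
      (min_le_right _ _).trans (min_le_left _ _), (min_le_right _ _).trans (min_le_right _ _)⟩
  obtain ⟨ρ1, hρ1, hρa, hρb, hρc⟩ : ∃ ρ1 > 0, ρ1 ≤ CP.δ ∧ ρ1 ≤ δ1 ∧ ρ1 ≤ η / 2 :=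
    ⟨min CP.δ (min δ1 (η / 2)), lt_min CP.hδ (lt_min hδ1 (by positivity)), min_le_left _ _,
      (min_le_right _ _).trans (min_le_left _ _), (min_le_right _ _).trans (min_le_right _ _)⟩
  obtain ⟨ε1, hε1, hεa, hεb⟩ : ∃ ε1 > 0, ε1 ≤ alf s ∧ ε1 ≤ Real.pi - alf s :=
    ⟨min (alf s) (Real.pi - alf s), lt_min hα0 (by linarith), min_le_left _ _, min_le_right _ _⟩
  refine ⟨η, hη, ?_⟩
  -- the parallelogram
  have hLreg : ∀ ζ ∈ Lo s z η, IsRegPt n Pts ζ := fun ζ hζ =>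
    hreg ζ fun hmem => hL1 ζ hmem (FCross_Lo_mono hηη1 hζ)
  obtain ⟨h, hh⟩ := exists_prim_convex (FCross_isOpen_Lo s z η) (convex_Lo s z η) hLreg
  have hLopre : IsPreconnected (Lo s z η) := (convex_Lo s z η).isPreconnected
  -- step 2
  have hWL : MapsTo (fun u : ℝ × ℝ => pol z u.1 u.2)
      (Ioo 0 ρ1 ×ˢ Ioo (alf s - Real.pi - ε1) (alf s - Real.pi + ε1)) (Lo s z η) := by
    rintro ⟨ρ, φ⟩ ⟨hρ, hφ⟩
    simp only at hρ hφ ⊢
    exact FCross_pol_mem_Lo hs hs' hz0 hρ.1 (by linarith [hρ.2]) (by linarith [hφ.1])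
      (by linarith [hφ.2])
  have hW1 : IsPrim n Pts (fun u : ℝ × ℝ => pol z u.1 u.2)
      (fun u : ℝ × ℝ => h (pol z u.1 u.2))
      (Ioo 0 ρ1 ×ˢ Ioo (alf s - Real.pi - ε1) (alf s - Real.pi + ε1)) :=
    hh.comp (FCross_pol_cont z).continuousOn hWL
  have hW2 : IsPrim n Pts (fun u : ℝ × ℝ => pol z u.1 u.2) CP.g
      (Ioo 0 ρ1 ×ˢ Ioo (alf s - Real.pi - ε1) (alf s - Real.pi + ε1)) :=
    CP.prim.mono fun u hu => ⟨⟨hu.1.1, hu.1.2.trans_le hρa⟩, mem_univ _⟩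
  obtain ⟨C1, hC1⟩ := IsPrim.unique
    (((convex_Ioo (0 : ℝ) ρ1).prod
      (convex_Ioo (alf s - Real.pi - ε1) (alf s - Real.pi + ε1))).isPreconnected)
    (FCross_pol_cont z).continuousOn hW2 hW1
  -- step 3
  have hVY : MapsTo (fun u : ℝ × ℝ => pol z u.1 u.2)
      (Ioo 0 ρ1 ×ˢ Ioo (alf s - Real.pi) (alf s + Real.pi)) (Ys s (dbl Sp)) := by
    rintro ⟨ρ, φ⟩ ⟨hρ, hφ⟩
    exact hd1 ρ ⟨hρ.1, hρ.2.trans_le hρb⟩ φ hφ
  have hV1 : IsPrim n Pts (fun u : ℝ × ℝ => pol z u.1 u.2)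
      (fun u : ℝ × ℝ => f (pol z u.1 u.2))
      (Ioo 0 ρ1 ×ˢ Ioo (alf s - Real.pi) (alf s + Real.pi)) :=
    hf.comp (FCross_pol_cont z).continuousOn hVY
  have hV2 : IsPrim n Pts (fun u : ℝ × ℝ => pol z u.1 u.2) CP.g
      (Ioo 0 ρ1 ×ˢ Ioo (alf s - Real.pi) (alf s + Real.pi)) :=
    CP.prim.mono fun u hu => ⟨⟨hu.1.1, hu.1.2.trans_le hρa⟩, mem_univ _⟩
  obtain ⟨C0, hC0⟩ := IsPrim.unique
    (((convex_Ioo (0 : ℝ) ρ1).prod
      (convex_Ioo (alf s - Real.pi) (alf s + Real.pi))).isPreconnected)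
    (FCross_pol_cont z).continuousOn hV2 hV1
  -- step 4
  obtain ⟨hRY, hLY⟩ := Lo_sub_Ys hSp (s := s) (z := z) (η := η) hz
    (fun w hw hwz => by
      have h3 : foot s w - foot s z ≠ 0 := fun h0 =>
        hwz (hZ w (FCross_mem_dbl hw) z hzd (by linarith))
      exact hηη2.trans (hL2 w hw (abs_pos.2 h3)))
    (fun w hw hw0 => hηη3.trans (hL3 w hw hw0))
  have hRc : Convex ℝ {ζ ∈ Lo s z η | foot s z < foot s ζ} :=
    (convex_Lo s z η).inter (convex_halfSpace_gt (FCross_isLinear s) (foot s z))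
  have hLc : Convex ℝ {ζ ∈ Lo s z η | foot s ζ < foot s z} :=
    (convex_Lo s z η).inter (convex_halfSpace_lt (FCross_isLinear s) (foot s z))
  obtain ⟨Cp, hCp⟩ := IsPrim.unique hRc.isPreconnected continuousOn_id
    (hh.mono fun ζ hζ => hζ.1) (hf.mono hRY)
  obtain ⟨Cm, hCm⟩ := IsPrim.unique hLc.isPreconnected continuousOn_id
    (hh.mono fun ζ hζ => hζ.1) (hf.mono hLY)
  -- the two test points
  have hn := FCross_dirv_pos s
  have hρ0 : ρ1 / 2 ∈ Ioo 0 ρ1 := ⟨by linarith, by linarith⟩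
  have hu1W : ((ρ1 / 2, alf s - Real.pi + ε1 / 2) : ℝ × ℝ) ∈
      (Ioo 0 ρ1 ×ˢ Ioo (alf s - Real.pi - ε1) (alf s - Real.pi + ε1)) :=
    ⟨hρ0, ⟨by simp only; linarith, by simp only; linarith⟩⟩
  have hu2W : ((ρ1 / 2, alf s - Real.pi + -(ε1 / 2)) : ℝ × ℝ) ∈
      (Ioo 0 ρ1 ×ˢ Ioo (alf s - Real.pi - ε1) (alf s - Real.pi + ε1)) :=
    ⟨hρ0, ⟨by simp only; linarith, by simp only; linarith⟩⟩
  have hu1V : ((ρ1 / 2, alf s - Real.pi + ε1 / 2) : ℝ × ℝ) ∈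
      (Ioo 0 ρ1 ×ˢ Ioo (alf s - Real.pi) (alf s + Real.pi)) :=
    ⟨hρ0, ⟨by simp only; linarith, by simp only; linarith⟩⟩
  have hu2V : ((ρ1 / 2, (alf s - Real.pi + -(ε1 / 2)) + 2 * Real.pi) : ℝ × ℝ) ∈
      (Ioo 0 ρ1 ×ˢ Ioo (alf s - Real.pi) (alf s + Real.pi)) :=
    ⟨hρ0, ⟨by simp only; linarith, by simp only; linarith⟩⟩
  have hs1 : 0 < Real.sin (ε1 / 2) := Real.sin_pos_of_pos_of_lt_pi (by linarith) (by linarith)
  have hR1 : pol z (ρ1 / 2) (alf s - Real.pi + ε1 / 2) ∈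
      {ζ ∈ Lo s z η | foot s z < foot s ζ} := by
    refine ⟨hWL hu1W, ?_⟩
    have h1 := FCross_foot_pol s z (ρ1 / 2) (ε1 / 2)
    have h2 : 0 < ρ1 / 2 * (‖dirv s‖ * Real.sin (ε1 / 2)) :=
      mul_pos (by linarith) (mul_pos hn hs1)
    linarith
  have hR2 : pol z (ρ1 / 2) (alf s - Real.pi + -(ε1 / 2)) ∈
      {ζ ∈ Lo s z η | foot s ζ < foot s z} := by
    refine ⟨hWL hu2W, ?_⟩
    have h1 := FCross_foot_pol s z (ρ1 / 2) (-(ε1 / 2))
    rw [Real.sin_neg] at h1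
    have h2 : 0 < ρ1 / 2 * (‖dirv s‖ * Real.sin (ε1 / 2)) :=
      mul_pos (by linarith) (mul_pos hn hs1)
    have h3 : ρ1 / 2 * (‖dirv s‖ * -Real.sin (ε1 / 2)) =
      -(ρ1 / 2 * (‖dirv s‖ * Real.sin (ε1 / 2))) := by ring
    linarith
  have hf2 := hC0 _ hu2V
  simp only [FCross_periodic] at hf2
  rw [CP.per (ρ1 / 2) ⟨hρ0.1, hρ0.2.trans_le hρa⟩ (alf s - Real.pi + -(ε1 / 2))] at hf2
  obtain ⟨eCp, eCm⟩ := FCross_alg (hC0 _ hu1V) (hCp _ hR1) (hC1 _ hu1W) hf2 (hCm _ hR2)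
    (hC1 _ hu2W)
  rw [← hP] at eCm
  -- step 5
  intro cm cp hcm1 hcm2 hcp1 hcp2 F A hB
  have hcpL : (cp : ℂ) ∈ Lo s z η := FCross_real_mem_Lo hη hz0 (by linarith) hcp2
  have hcmL : (cm : ℂ) ∈ Lo s z η := FCross_real_mem_Lo hη hz0 hcm1 (by linarith)
  have hfc : ∀ c : ℝ, foot s (c : ℂ) = c := fun c => by simp [foot]
  have hfp : f cp = Cp * h cp := hCp _ ⟨hcpL, by rw [hfc]; exact hcp1⟩
  have hfm : f cm = Cm * h cm := hCm _ ⟨hcmL, by rw [hfc]; exact hcm2⟩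
  have hsym : (h cp)⁻¹ * h cm ∈ symB n := by
    refine real_seg hm (by linarith : cm ≤ cp) (hh.mono ?_)
    rintro _ ⟨t, ht, rfl⟩
    exact FCross_real_mem_Lo hη hz0 (by linarith [ht.1]) (by linarith [ht.2])
  have hX : (f cp)⁻¹ * F = (h cp)⁻¹ * C1 * P * (P⁻¹ * C0⁻¹ * F) := by
    rw [hfp, eCp]
    group
  have hXY : (h cp)⁻¹ * C1 * (P⁻¹ * C0⁻¹ * F) = (h cp)⁻¹ * h cm * ((f cm)⁻¹ * F) := by
    rw [hfm, eCm]
    group
  -- step 6
  have hrow1 : fing (rowAt n Pts cp) ((h cp)⁻¹ * C1) = CP.r0 := by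
    have h1 := IsPrim.fing hLopre continuousOn_id hh hcpL (hWL hu1W)
    have h2 := hC1 _ hu1W
    simp only at h2
    simp only [id] at h1
    rw [h2, ← mul_assoc, fing_mul, ← CP.row (ρ1 / 2) ⟨hρ0.1, hρ0.2.trans_le hρa⟩] at h1
    exact fing_injective _ h1
  have hrow2 : fing (rowAt n Pts cp) ((h cp)⁻¹ * h cm) = rowAt n Pts cm :=
    IsPrim.fing hLopre continuousOn_id hh hcpL hcmL
  -- step 7
  have hB1 : Bd n ((h cp)⁻¹ * h cm * ((f cm)⁻¹ * F)) (rowAt n Pts cp) A := by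
    refine Bd.sym hsym (real_row hm (hLreg _ hcpL)) ?_
    rw [hrow2]
    exact hB
  rw [← hXY] at hB1
  have hB2 := Bd.prod CP.pos L.k (fun a => L.ty (L.x a) = L.ty (L.y a)) CP.hpos CP.hsep
    (fun a => by rw [hrow1]; exact CP.typ a) hev hB1
  rw [hX]
  refine Bd.mono ?_ hB2
  have e1 : ((∑ a ∈ Finset.univ.filter (fun a => L.ty (L.x a) = L.ty (L.y a)), L.k a : ℕ) : ℤ) ≤
      (EE : ℤ) := by exact_mod_cast hEE
  have e2 : (((Finset.univ.filter fun a => Odd (L.k a)).card : ℕ) : ℤ) ≤ (BB : ℤ) := by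
    exact_mod_cast hBB
  linarith

end Pool.Agent.HK
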