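import Pool.Agent.H.MP_cd3d06_an.K.FGeoB

/-!
Part F: the geometry of the sweep.  `foot s ζ` is the real point below `ζ` in the direction
`-(I - s)`; `Ys s Z` is the plane minus the downward closed rays from the points of `Z`.
-/

namespace Pool.Agent.HK

open Complex Set Metric
open scoped ComplexConjugate

theorem FGeo_small {ι : Type*} (S : Finset ι) (d : ι → ℝ) :
    ∃ δ > 0, ∀ w ∈ S, 0 < d w → δ ≤ d w := by
  have h : ∀ᶠ δ in nhdsWithin (0 : ℝ) (Ioi 0), ∀ w ∈ S, 0 < d w → δ ≤ d w := by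
    rw [Filter.eventually_all_finset]
    intro w _
    by_cases hw : 0 < d w
    · filter_upwards [nhdsWithin_le_nhds (Iio_mem_nhds hw)] with δ hδ _
      exact le_of_lt hδ
    · exact Filter.Eventually.of_forall fun δ h => absurd h hw
  obtain ⟨δ, h1, h2⟩ := (h.and self_mem_nhdsWithin).exists
  exact ⟨δ, h2, h1⟩

theorem FGeo_foot_add (s : ℝ) (z w : ℂ) : foot s (z + w) = foot s z + foot s w := by
  simp only [foot, add_re, add_im]
  ring

theorem FGeo_foot_smul (s a : ℝ) (z : ℂ) : foot s (a • z) = a * foot s z := by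
  simp only [foot, real_smul, re_ofReal_mul, im_ofReal_mul]
  ring

theorem FGeo_pol_re (z : ℂ) (ρ φ : ℝ) : (pol z ρ φ).re = z.re + ρ * Real.cos φ := by
  simp [pol, exp_ofReal_mul_I_re]

theorem FGeo_pol_im (z : ℂ) (ρ φ : ℝ) : (pol z ρ φ).im = z.im + ρ * Real.sin φ := by
  simp [pol, exp_ofReal_mul_I_im]

theorem FGeo_dirv (s : ℝ) : ‖dirv s‖ * Real.cos (alf s) = -s ∧ ‖dirv s‖ * Real.sin (alf s) = 1 := by
  have h0 : dirv s ≠ 0 := by
    intro h
    have := congrArg Complex.im h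
    simp [dirv] at this
  have hn : ‖dirv s‖ ≠ 0 := norm_ne_zero_iff.2 h0
  constructor
  · rw [alf, Complex.cos_arg h0]
    field_simp
    simp [dirv]
  · rw [alf, Complex.sin_arg]
    field_simp
    simp [dirv]

/-- near a special point `z` the punctured disc minus the downward ray is in `Ys`.
PROOF. `ζ = z + ρ exp (i φ)` with `φ ∈ (alf s - π, alf s + π)` is not of the form `z - t * dirv s`,
`t ≥ 0`, as `dirv s = ‖dirv s‖ exp (i alf s)`; so if `foot s ζ = foot s z` then `ζ - z = t * dirv s`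
with `t > 0` and `ζ.im > z.im`. For the other `w ∈ Z`: `foot s w ≠ foot s z`, and
`|foot s ζ - foot s z| ≤ 2 ρ` is smaller than the distance for small `ρ`. -/
theorem disc_mem_Ys {Z : Finset ℂ} {s : ℝ} (hs : 0 < s) (hs' : s < 1)
    (hZ : ∀ z ∈ Z, ∀ w ∈ Z, foot s z = foot s w → z = w) {z : ℂ} (hz : z ∈ Z) :
    ∃ δ > 0, ∀ ρ ∈ Ioo 0 δ, ∀ φ ∈ Ioo (alf s - Real.pi) (alf s + Real.pi), pol z ρ φ ∈ Ys s Z := by
  obtain ⟨δ, hδ, hd⟩ := FGeo_small Z (fun w => |foot s w - foot s z| / 2)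
  refine ⟨δ, hδ, fun ρ hρ φ hφ w hw he => ?_⟩
  have hfoot : foot s (pol z ρ φ) = foot s z + ρ * (Real.cos φ + s * Real.sin φ) := by
    rw [foot, FGeo_pol_re, FGeo_pol_im, foot]
    ring
  by_cases hwz : w = z
  · subst hwz
    have h1 : Real.cos φ + s * Real.sin φ = 0 := by
      have h2 : ρ * (Real.cos φ + s * Real.sin φ) = 0 := by
        rw [hfoot] at he
        linarith
      rcases mul_eq_zero.1 h2 with h3 | h3
      · exact absurd h3 (ne_of_gt hρ.1)
      · exact h3
    obtain ⟨hc, hsn⟩ := FGeo_dirv s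
    have hn : ‖dirv s‖ ≠ 0 := by
      intro h
      rw [h, zero_mul] at hsn
      exact zero_ne_one hsn
    have h2 : ‖dirv s‖ * Real.sin (alf s - φ) = 0 := by
      rw [Real.sin_sub, mul_sub, ← mul_assoc, ← mul_assoc, hc, hsn]
      linarith
    have h3 : Real.sin (alf s - φ) = 0 := by
      rcases mul_eq_zero.1 h2 with h4 | h4
      · exact absurd h4 hn
      · exact h4
    have h4 : alf s - φ = 0 := by
      rwa [Real.sin_eq_zero_iff_of_lt_of_lt (by linarith [hφ.2]) (by linarith [hφ.1])] at h3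
    have h5 : 0 < Real.sin φ := by
      rw [show φ = alf s by linarith]
      exact Real.sin_pos_of_pos_of_lt_pi (alf_mem s).1 (alf_mem s).2
    rw [FGeo_pol_im]
    have := mul_pos hρ.1 h5
    linarith
  · exfalso
    have h1 : foot s w - foot s z ≠ 0 := fun h => hwz (hZ w hw z hz (by linarith))
    have h2 := hd w hw (by have := abs_pos.2 h1; positivity)
    have h3 : foot s w - foot s z = ρ * (Real.cos φ + s * Real.sin φ) := by
      rw [← he, hfoot]
      ring
    have h4 : |Real.cos φ + s * Real.sin φ| ≤ 2 := by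
      refine (abs_add_le _ _).trans ?_
      rw [abs_mul, abs_of_pos hs]
      have a1 := Real.abs_cos_le_one φ
      have a2 := Real.abs_sin_le_one φ
      have a3 := abs_nonneg (Real.sin φ)
      nlinarith
    rw [h3, abs_mul, abs_of_pos hρ.1] at h2
    have h5 := hρ.2
    have h6 := hρ.1
    nlinarith

/-- the open parallelogram below `z`: `|foot - foot z| < η`, `-η < im < im z` -/
def Lo (s : ℝ) (z : ℂ) (η : ℝ) : Set ℂ :=
  {ζ | |foot s ζ - foot s z| < η ∧ -η < ζ.im ∧ ζ.im < z.im}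

/-- PROOF. Intersection of half planes. -/
theorem convex_Lo (s : ℝ) (z : ℂ) (η : ℝ) : Convex ℝ (Lo s z η) := by
  intro x hx y hy a b ha hb hab
  obtain ⟨hx1, hx2, hx3⟩ := hx
  obtain ⟨hy1, hy2, hy3⟩ := hy
  rw [abs_lt] at hx1 hy1
  have hf : foot s (a • x + b • y) = a * foot s x + b * foot s y := by
    rw [FGeo_foot_add, FGeo_foot_smul, FGeo_foot_smul]
  have him : (a • x + b • y).im = a * x.im + b * y.im := by simp
  refine ⟨?_, ?_, ?_⟩
  · rw [hf, abs_lt]
    have h1 := (convex_Ioi (foot s z - η)) (mem_Ioi.2 (show foot s z - η < foot s x by linarith [hx1.1]))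
      (mem_Ioi.2 (show foot s z - η < foot s y by linarith [hy1.1])) ha hb hab
    have h2 := (convex_Iio (foot s z + η)) (mem_Iio.2 (show foot s x < foot s z + η by linarith [hx1.2]))
      (mem_Iio.2 (show foot s y < foot s z + η by linarith [hy1.2])) ha hb hab
    simp only [smul_eq_mul, mem_Ioi, mem_Iio] at h1 h2
    constructor <;> linarith
  · rw [him]
    have h1 := (convex_Ioi (-η)) (mem_Ioi.2 hx2) (mem_Ioi.2 hy2) ha hb hab
    simpa using h1
  · rw [him]
    have h1 := (convex_Iio z.im) (mem_Iio.2 hx3) (mem_Iio.2 hy3) ha hb hab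
    simpa using h1

theorem FGeo_mem_dbl {Sp : Finset ℂ} {w : ℂ} (hw : w ∈ dbl Sp) :
    w ∈ Sp ∨ ∃ w' ∈ Sp, w = starRingEnd ℂ w' := by
  classical
  unfold dbl at hw
  rw [Finset.mem_union, Finset.mem_image] at hw
  rcases hw with h | ⟨w', h1, h2⟩
  · exact Or.inl h
  · exact Or.inr ⟨w', h1, h2.symm⟩

/-- for small `η` the parallelogram contains no point of `Z = dbl Sp`.
PROOF. The feet of the other points of `Sp` have positive distance from `foot s z`; a point
`conj w`, `w ∈ Sp`, with `w.im > 0` has imaginary part `-w.im < 0`, excluded for `η ≤` the minimum of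
the positive `w.im`; a real point of `Sp` is a point of `Sp`; `z` itself has `im = z.im`, excluded. -/
theorem Lo_disjoint {Sp : Finset ℂ} (hSp : ∀ z ∈ Sp, 0 ≤ z.im) {s : ℝ}
    (hZ : ∀ z ∈ Sp, ∀ w ∈ Sp, foot s z = foot s w → z = w) {z : ℂ} (hz : z ∈ Sp) (hz' : 0 < z.im) :
    ∃ η > 0, ∀ w ∈ dbl Sp, w ∉ Lo s z η := by
  obtain ⟨η1, h1, h1'⟩ := FGeo_small Sp (fun w => |foot s w - foot s z|)
  obtain ⟨η2, h2, h2'⟩ := FGeo_small Sp (fun w => w.im)
  refine ⟨min η1 η2, lt_min h1 h2, fun w hw hL => ?_⟩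
  obtain ⟨hL1, hL2, hL3⟩ := hL
  have key : w ∉ Sp := by
    intro hwS
    by_cases hwz : w = z
    · rw [hwz] at hL3
      exact lt_irrefl _ hL3
    · have h3 : foot s w - foot s z ≠ 0 := fun h => hwz (hZ w hwS z hz (by linarith))
      have h4 := h1' w hwS (abs_pos.2 h3)
      have h5 := min_le_left η1 η2
      linarith
  rcases FGeo_mem_dbl hw with h | ⟨w', hw', rfl⟩
  · exact key h
  · rcases (hSp w' hw').lt_or_eq with h3 | h3
    · have h4 := h2' w' hw' h3
      have h5 := min_le_right η1 η2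
      simp only [conj_im] at hL2 h4
      linarith
    · apply key
      rwa [Complex.conj_eq_iff_im.2 h3.symm]

/-- the right part of the parallelogram is convex and contained in `Ys`, and so is the left part.
PROOF. A point `ζ ∈ Lo` with `foot s ζ ≠ foot s z`: let `w ∈ dbl Sp`, `foot s w = foot s ζ`; `w` is
not in `Lo` (hypothesis), so `w.im ≤ -η < ζ.im` (fine) or `w.im ≥ z.im`; exclude the latter by the
hypothesis `hfeet`. -/
theorem Lo_sub_Ys {Sp : Finset ℂ} (hSp : ∀ z ∈ Sp, 0 ≤ z.im) {s : ℝ} {z : ℂ} {η : ℝ} (hz : z ∈ Sp)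
    (hfeet : ∀ w ∈ Sp, w ≠ z → η ≤ |foot s w - foot s z|)
    (hlow : ∀ w ∈ Sp, 0 < w.im → η ≤ w.im) :
    {ζ ∈ Lo s z η | foot s z < foot s ζ} ⊆ Ys s (dbl Sp) ∧
      {ζ ∈ Lo s z η | foot s ζ < foot s z} ⊆ Ys s (dbl Sp) := by
  have main : ∀ ζ ∈ Lo s z η, foot s ζ ≠ foot s z → ζ ∈ Ys s (dbl Sp) := by
    intro ζ hζ hne w hw he
    obtain ⟨hL1, hL2, hL3⟩ := hζ
    have key : w ∉ Sp := by
      intro hwS
      by_cases hwz : w = z
      · rw [hwz] at he
        exact hne he
      · have h3 := hfeet w hwS hwz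
        rw [← he] at h3
        linarith
    rcases FGeo_mem_dbl hw with h | ⟨w', hw', rfl⟩
    · exact absurd h key
    · rcases (hSp w' hw').lt_or_eq with h3 | h3
      · have h4 := hlow w' hw' h3
        simp only [conj_im]
        linarith
      · exfalso
        apply key
        rwa [Complex.conj_eq_iff_im.2 h3.symm]
  exact ⟨fun ζ hζ => main ζ hζ.1 (ne_of_gt hζ.2), fun ζ hζ => main ζ hζ.1 (ne_of_lt hζ.2)⟩

end Pool.Agent.HK
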