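import Pool.Agent.H.MP_cd3d06_an.K.FC
import Pool.Agent.H.MP_cd3d06_an.K.FGeo

/-!
Part F: crossing one special parameter.
-/

namespace Pool.Agent.HK

open Complex Set Metric Filter Topology
open scoped ComplexConjugate

variable {n : ℕ} {Pts : ℂ → Set TP}

theorem fing_injective (g : Brd (2 * n)) {r r' : Row (2 * n)} (h : fing r g = fing r' g) :
    r = r' := by
  have h1 : fing (fing r g) g⁻¹ = fing (fing r' g) g⁻¹ := by rw [h]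
  rwa [← fing_mul, ← fing_mul, mul_inv_cancel, fing_one, fing_one] at h1

/-- PROOF. The two middle labels of a symmetric row are equal; `fing r (sg (n-1))` exchanges the two
labels and adds 1 to both (`fing_el` with the word `[(n-1, true)]`): symmetric. -/
theorem sym_mid (hn : 1 ≤ n) {r : Row (2 * n)} (hr : Sym r) : Sym (fing r (sg (2 * n) (n - 1))) := by
  have h1 : n - 1 + 1 < 2 * n := by omega
  set p : Fin (2 * n) := ⟨n - 1, by omega⟩ with hp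
  set q : Fin (2 * n) := ⟨n - 1 + 1, h1⟩ with hq
  have hpr : p.rev = q := by
    ext; simp [hp, hq, Fin.val_rev]; omega
  have hrpq : r p = r q := by rw [← hpr]; exact (hr p).symm
  have hr'e : fing r (sg (2 * n) (n - 1)) = flip p q r := by
    rw [CombA_fing_sg h1 true]
    show (if r p = r q then flip p q r else r) = _
    rw [if_pos hrpq]
  rw [hr'e]
  intro j
  simp only [flip]
  have c1 : j.rev = q ↔ j = p := by
    rw [← hpr]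
    constructor
    · intro h; exact Fin.rev_injective h
    · rintro rfl; rfl
  have c2 : j.rev = p ↔ j = q := by
    rw [← hpr]
    constructor
    · intro h; rw [← h, Fin.rev_rev]
    · rintro rfl; exact Fin.rev_rev p
  simp only [c1, c2, hr j, or_comm]

theorem FCrossA_notMem {s : ℝ} {Z : Finset ℂ} {ζ : ℂ} (h : ζ ∈ Ys s Z) : ζ ∉ Z :=
  fun hz => lt_irrefl _ (h ζ hz rfl)

theorem FCrossA_dbl {Sp : Finset ℂ} {z : ℂ} (hz : z ∈ Sp) : z ∈ dbl Sp := by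
  classical
  unfold dbl
  exact Finset.mem_union_left _ hz

theorem FCrossA_pol_cont (c : ℂ) : Continuous (fun u : ℝ × ℝ => pol c u.1 u.2) := by
  unfold pol
  fun_prop

/-- Crossing a real special parameter.

PROOF (blueprint, section 5 (F3)).  `z = c0` real, `foot s z = c0`.  `δ` from `zero_half` and from
`disc_mem_Ys` (minimum).  For `ρ < δ`: `f ∘ pol` is a primitive on `Ioo 0 δ ×ˢ Icc 0 π` since
`Icc 0 π ⊆ Ioo (alf s - π) (alf s + π)`; so `(f (c0 + ρ))⁻¹ * f (c0 - ρ) = sg (n-1) * s1` with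
`s1 ∈ symB n` (`pol c0 ρ 0 = c0 + ρ`, `pol c0 ρ π = c0 - ρ`).  Take `cm = c0 - ρ`, `cp = c0 + ρ`:
`(f cp)⁻¹ * F = sg (n-1) * (s1 * ((f cm)⁻¹ * F))`.  `Bd.zero` and `Bd.sym`; the rows:
`fing (rowAt cp) (sg (n-1) * s1) = rowAt cm` by `IsPrim.fing`; `Sym (rowAt cp)` by `real_row`,
`Sym (fing (rowAt cp) (sg (n-1)))` by `sym_mid`. -/
theorem cross_zero (hn : 1 ≤ n) (hm : ∀ ζ, Pts (conj ζ) = mir '' Pts ζ) {Sp : Finset ℂ}
    (hSp : ∀ z ∈ Sp, 0 ≤ z.im) (hreg : ∀ ζ ∉ dbl Sp, IsRegPt n Pts ζ) {s : ℝ} (hs : 0 < s)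
    (hs' : s < 1) (hZ : ∀ z ∈ dbl Sp, ∀ w ∈ dbl Sp, foot s z = foot s w → z = w)
    {f : ℂ → Brd (2 * n)} (hf : IsPrim n Pts id f (Ys s (dbl Sp))) {z : ℂ} (hz : z ∈ Sp)
    (hz0 : z.im = 0) (hL : IsZeroPt n Pts z) :
    ∃ η > 0, ∀ ρ : ℝ, 0 < ρ → ρ < η → ∀ (F : Brd (2 * n)) (A : ℤ),
      Bd n ((f ((foot s z - ρ : ℝ) : ℂ))⁻¹ * F) (rowAt n Pts ((foot s z - ρ : ℝ) : ℂ)) A →
        Bd n ((f ((foot s z + ρ : ℝ) : ℂ))⁻¹ * F) (rowAt n Pts ((foot s z + ρ : ℝ) : ℂ)) (A - 1) := by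
  have hzc : z = ((foot s z : ℝ) : ℂ) := by
    apply Complex.ext
    · simp [foot, hz0]
    · simp [hz0]
  generalize hc0 : foot s z = c0 at hzc ⊢
  subst hzc
  obtain ⟨δ1, hδ1, H1⟩ := zero_half hn hm hL
  obtain ⟨δ2, hδ2, H2⟩ := disc_mem_Ys hs hs' hZ (FCrossA_dbl hz)
  refine ⟨min δ1 δ2, lt_min hδ1 hδ2, fun ρ hρ0 hρ F A hB => ?_⟩
  have hη : 0 < min δ1 δ2 := lt_min hδ1 hδ2
  have hal := alf_mem s
  have hpi := Real.pi_pos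
  have hmaps : MapsTo (fun u : ℝ × ℝ => pol (c0 : ℂ) u.1 u.2)
      (Ioo 0 (min δ1 δ2) ×ˢ Icc 0 Real.pi) (Ys s (dbl Sp)) := by
    rintro ⟨ρ', φ⟩ ⟨h1, h2⟩
    refine H2 ρ' ⟨h1.1, h1.2.trans_le (min_le_right _ _)⟩ φ ⟨?_, ?_⟩
    · have := h2.1; have := hal.2; simp only at *; linarith
    · have := h2.2; have := hal.1; simp only at *; linarith
  have hp : IsPrim n Pts (fun u : ℝ × ℝ => pol (c0 : ℂ) u.1 u.2)
      (fun u : ℝ × ℝ => f (pol (c0 : ℂ) u.1 u.2)) (Ioo 0 (min δ1 δ2) ×ˢ Icc 0 Real.pi) :=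
    hf.comp (FCrossA_pol_cont _).continuousOn hmaps
  obtain ⟨s1, hs1, he⟩ := H1 (min δ1 δ2) hη (min_le_left _ _) _ ρ ⟨hρ0, hρ⟩ hp
  have hY : IsPreconnected (Ioo 0 (min δ1 δ2) ×ˢ Icc 0 Real.pi : Set (ℝ × ℝ)) :=
    ((convex_Ioo _ _).prod (convex_Icc _ _)).isPreconnected
  have m0 : ((ρ, 0) : ℝ × ℝ) ∈ (Ioo 0 (min δ1 δ2) ×ˢ Icc 0 Real.pi : Set (ℝ × ℝ)) :=
    ⟨⟨hρ0, hρ⟩, ⟨le_rfl, hpi.le⟩⟩
  have m1 : ((ρ, Real.pi) : ℝ × ℝ) ∈ (Ioo 0 (min δ1 δ2) ×ˢ Icc 0 Real.pi : Set (ℝ × ℝ)) :=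
    ⟨⟨hρ0, hρ⟩, ⟨hpi.le, le_rfl⟩⟩
  have hrow := IsPrim.fing hY (FCrossA_pol_cont _).continuousOn hp m0 m1
  have hcp : pol (c0 : ℂ) ρ 0 = ((c0 + ρ : ℝ) : ℂ) := by simp [pol]
  have hcm : pol (c0 : ℂ) ρ Real.pi = ((c0 - ρ : ℝ) : ℂ) := by
    simp [pol, Complex.exp_pi_mul_I, sub_eq_add_neg]
  have hcpY : ((c0 + ρ : ℝ) : ℂ) ∈ Ys s (dbl Sp) := by
    rw [← hcp]; exact hmaps m0
  simp only at hrow he
  rw [hcp, hcm] at hrow he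
  have hsym : Sym (rowAt n Pts ((c0 + ρ : ℝ) : ℂ)) :=
    real_row hm (hreg _ (FCrossA_notMem hcpY))
  rw [he, fing_mul] at hrow
  have h2 := Bd.sym (g := (f ((c0 - ρ : ℝ) : ℂ))⁻¹ * F) (A := A) hs1 (sym_mid hn hsym)
    (by rw [hrow]; exact hB)
  have h3 := Bd.zero hn hsym h2
  have e : sg (2 * n) (n - 1) * (s1 * ((f ((c0 - ρ : ℝ) : ℂ))⁻¹ * F)) =
      (f ((c0 + ρ : ℝ) : ℂ))⁻¹ * F := by
    rw [← mul_assoc, ← he]; group
  rwa [e] at h3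

/-- No foot in `[a, b]`.

PROOF. The real segment `[a, b]` is contained in `Ys s (dbl Sp)` (`real_mem_Ys`), `real_seg` gives
`s1 = (f b)⁻¹ * f a ∈ symB n`, `(f b)⁻¹ * F = s1 * ((f a)⁻¹ * F)`, `Bd.sym` with
`fing (rowAt b) s1 = rowAt a` (`IsPrim.fing`), `real_row`. -/
theorem cross_none (hm : ∀ ζ, Pts (conj ζ) = mir '' Pts ζ) {Sp : Finset ℂ}
    (hSp : ∀ z ∈ Sp, 0 ≤ z.im) (hreg : ∀ ζ ∉ dbl Sp, IsRegPt n Pts ζ) {s : ℝ}
    {f : ℂ → Brd (2 * n)} (hf : IsPrim n Pts id f (Ys s (dbl Sp))) {a b : ℝ} (hab : a ≤ b)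
    (h : ∀ z ∈ Sp, foot s z ∉ Icc a b) (F : Brd (2 * n)) (A : ℤ)
    (hB : Bd n ((f a)⁻¹ * F) (rowAt n Pts a) A) : Bd n ((f b)⁻¹ * F) (rowAt n Pts b) A := by
  have hsub : (fun t : ℝ => (t : ℂ)) '' Icc a b ⊆ Ys s (dbl Sp) := by
    rintro _ ⟨t, ht, rfl⟩
    exact real_mem_Ys hSp fun z hz he => h z hz (by rw [he]; exact ht)
  have hf' := hf.mono hsub
  have h1 := real_seg hm hab hf'
  have hmb : (b : ℂ) ∈ (fun t : ℝ => (t : ℂ)) '' Icc a b := ⟨b, ⟨hab, le_rfl⟩, rfl⟩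
  have hma : (a : ℂ) ∈ (fun t : ℝ => (t : ℂ)) '' Icc a b := ⟨a, ⟨le_rfl, hab⟩, rfl⟩
  have hY : IsPreconnected ((fun t : ℝ => (t : ℂ)) '' Icc a b) :=
    isPreconnected_Icc.image _ continuous_ofReal.continuousOn
  have hrow := IsPrim.fing hY continuousOn_id hf' hmb hma
  simp only [id_eq] at hrow
  have hsym : Sym (rowAt n Pts (b : ℂ)) := real_row hm (hreg _ (FCrossA_notMem (hsub hmb)))
  have h2 := Bd.sym (g := (f a)⁻¹ * F) (A := A) h1 hsym (by rw [hrow]; exact hB)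
  have e : (f b)⁻¹ * f a * ((f a)⁻¹ * F) = (f b)⁻¹ * F := by group
  rwa [e] at h2

end Pool.Agent.HK
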