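import Pool.Agent.H.MP_cd3d06_an.K.Iface

/-!
Part F: the geometry of the sweep.  `foot s ζ` is the real point below `ζ` in the direction
`-(I - s)`; `Ys s Z` is the plane minus the downward closed rays from the points of `Z`.
-/

namespace Pool.Agent.HK

open Complex Set Metric
open scoped ComplexConjugate

/-- the foot of the slanted line through `ζ` on the real axis -/
def foot (s : ℝ) (ζ : ℂ) : ℝ := ζ.re + s * ζ.im

/-- the direction of the slanted lines -/
noncomputable def dirv (s : ℝ) : ℂ := I - s

/-- the plane minus the downward rays -/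
def Ys (s : ℝ) (Z : Finset ℂ) : Set ℂ := {ζ | ∀ z ∈ Z, foot s ζ = foot s z → z.im < ζ.im}

theorem foot_add (s : ℝ) (ζ : ℂ) (t : ℝ) : foot s (ζ + t * dirv s) = foot s ζ := by
  simp only [foot, dirv, add_re, mul_re, ofReal_re, sub_re, I_re, zero_sub, ofReal_im, sub_im, I_im,
    sub_zero, mul_one, add_im, mul_im]
  ring

theorem im_add (s : ℝ) (ζ : ℂ) (t : ℝ) : (ζ + t * dirv s).im = ζ.im + t := by
  simp [dirv]

/-- PROOF. The complement is a finite union of closed sets `{ζ | foot s ζ = foot s z ∧ ζ.im ≤ z.im}`
(`foot s` and `im` are continuous). -/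
theorem isOpen_Ys (s : ℝ) (Z : Finset ℂ) : IsOpen (Ys s Z) := by
  have hf : Continuous (foot s) := by
    unfold foot
    exact continuous_re.add (continuous_const.mul continuous_im)
  have e : Ys s Z = ⋂ z ∈ Z, ({ζ | foot s ζ ≠ foot s z} ∪ {ζ | z.im < ζ.im}) := by
    ext ζ
    simp only [Ys, mem_ofPred_eq, mem_iInter, mem_union]
    constructor
    · intro h z hz
      by_cases hc : foot s ζ = foot s z
      · exact Or.inr (h z hz hc)
      · exact Or.inl hc
    · intro h z hz hc
      rcases h z hz with h1 | h1
      · exact absurd hc h1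
      · exact h1
  rw [e]
  refine isOpen_biInter_finset fun z _ => IsOpen.union ?_ ?_
  · exact isOpen_ne_fun hf continuous_const
  · exact isOpen_lt continuous_const continuous_im

theorem FGeoA_mem_of_lt {s : ℝ} {Z : Finset ℂ} {M : ℝ} (hM : ∀ z ∈ Z, z.im ≤ M) {ζ : ℂ}
    (h : M < ζ.im) : ζ ∈ Ys s Z := fun z hz _ => (hM z hz).trans_lt h

theorem FGeoA_mem_up {s : ℝ} {Z : Finset ℂ} {ζ : ℂ} (hζ : ζ ∈ Ys s Z) {t : ℝ} (ht : 0 ≤ t) :
    ζ + t * dirv s ∈ Ys s Z := by
  intro z hz h
  rw [foot_add] at h
  rw [im_add]
  have := hζ z hz h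
  linarith

/-- PROOF. Let `M` be larger than all `z.im`, `z ∈ Z`, and `T ζ = max 0 (M + 1 - ζ.im)`, continuous.
`(t, ζ) ↦ ζ + (t * T ζ) • dirv s`, `t ∈ [0,1]`, is a homotopy inside `Ys s Z` (`foot` is constant and
`im` does not decrease) from the identity to a map with values in the half plane
`{M < im}`, which is convex, contained in `Ys s Z` and nonempty; followed by the straight homotopy
to the constant map with value `(M + 1) * I`.  (`ContractibleSpace` from
`id_nullhomotopic`/`contractible_iff_id_nullhomotopic`.) -/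
theorem contractible_Ys (s : ℝ) (Z : Finset ℂ) : ContractibleSpace (Ys s Z) := by
  obtain ⟨M, hM⟩ : ∃ M : ℝ, ∀ z ∈ Z, z.im ≤ M := by
    obtain ⟨B, hB⟩ := (Z.image Complex.im).bddAbove
    refine ⟨B, fun z hz => hB ?_⟩
    simp only [Finset.coe_image, mem_image, Finset.mem_coe]
    exact ⟨z, hz, rfl⟩
  rw [contractible_iff_id_nullhomotopic]
  have hT : Continuous (fun ζ : ℂ => max 0 (M + 1 - ζ.im)) :=
    continuous_const.max (continuous_const.sub continuous_im)
  -- the map into the half plane
  have hgim : ∀ ζ : ℂ, M + 1 ≤ (ζ + ((max 0 (M + 1 - ζ.im) : ℝ) : ℂ) * dirv s).im := by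
    intro ζ
    rw [im_add]
    have := le_max_right 0 (M + 1 - ζ.im)
    linarith
  let g : C(Ys s Z, Ys s Z) :=
    ⟨fun ζ => ⟨ζ.1 + ((max 0 (M + 1 - ζ.1.im) : ℝ) : ℂ) * dirv s,
      FGeoA_mem_up ζ.2 (le_max_left _ _)⟩, by
      refine Continuous.subtype_mk ?_ _
      exact continuous_subtype_val.add
        ((continuous_ofReal.comp (hT.comp continuous_subtype_val)).mul continuous_const)⟩
  have hpt : ((M + 1 : ℝ) : ℂ) * I ∈ Ys s Z := by
    refine FGeoA_mem_of_lt hM ?_
    simp
  let c0 : Ys s Z := ⟨((M + 1 : ℝ) : ℂ) * I, hpt⟩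
  -- first homotopy
  let H1 : ContinuousMap.Homotopy (ContinuousMap.id (Ys s Z)) g :=
    { toFun := fun p => ⟨p.2.1 + ((((p.1 : ℝ) * max 0 (M + 1 - p.2.1.im) : ℝ)) : ℂ) * dirv s,
        FGeoA_mem_up p.2.2 (mul_nonneg p.1.2.1 (le_max_left _ _))⟩
      continuous_toFun := by
        refine Continuous.subtype_mk ?_ _
        have h2 : Continuous (fun p : unitInterval × Ys s Z => (p.2 : ℂ)) :=
          continuous_subtype_val.comp continuous_snd
        have h1 : Continuous (fun p : unitInterval × Ys s Z => (p.1 : ℝ)) :=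
          continuous_subtype_val.comp continuous_fst
        exact h2.add ((continuous_ofReal.comp (h1.mul (hT.comp h2))).mul continuous_const)
      map_zero_left := by
        intro x
        apply Subtype.ext
        simp
      map_one_left := by
        intro x
        apply Subtype.ext
        simp [g] }
  -- second homotopy
  let H2 : ContinuousMap.Homotopy g (ContinuousMap.const (Ys s Z) c0) :=
    { toFun := fun p => ⟨((1 - (p.1 : ℝ) : ℝ) : ℂ) * (g p.2).1 + ((p.1 : ℝ) : ℂ) * c0.1, by
          refine FGeoA_mem_of_lt hM ?_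
          have h1 : M + 1 ≤ ((g p.2).1).im := hgim p.2.1
          have h2 : (c0.1).im = M + 1 := by simp [c0]
          rw [add_im, im_ofReal_mul, im_ofReal_mul, h2]
          have h3 := p.1.2.1
          have h4 := p.1.2.2
          nlinarith [mul_nonneg (sub_nonneg.2 h4) (sub_nonneg.2 h1)]⟩
      continuous_toFun := by
        refine Continuous.subtype_mk ?_ _
        have h2 : Continuous (fun p : unitInterval × Ys s Z => ((g p.2 : Ys s Z) : ℂ)) :=
          continuous_subtype_val.comp (g.continuous.comp continuous_snd)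
        have h1 : Continuous (fun p : unitInterval × Ys s Z => (p.1 : ℝ)) :=
          continuous_subtype_val.comp continuous_fst
        exact ((continuous_ofReal.comp (continuous_const.sub h1)).mul h2).add
          ((continuous_ofReal.comp h1).mul continuous_const)
      map_zero_left := by
        intro x
        apply Subtype.ext
        simp
      map_one_left := by
        intro x
        apply Subtype.ext
        simp }
  exact ⟨c0, ⟨H1.trans H2⟩⟩

theorem simplyConnected_Ys (s : ℝ) (Z : Finset ℂ) : SimplyConnectedSpace (Ys s Z) := by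
  have := contractible_Ys s Z
  infer_instance

/-- PROOF. An open subset of a locally path connected space is locally path connected. -/
theorem locPathConnected_Ys (s : ℝ) (Z : Finset ℂ) : LocallyPathConnectedSpace (Ys s Z) :=
  (isOpen_Ys s Z).locallyPathConnectedSpace

end Pool.Agent.HK
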