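import Pool.Agent.H.MP_cd3d06_an.K.FGeoA

/-!
Part F: the geometry of the sweep.  `foot s ζ` is the real point below `ζ` in the direction
`-(I - s)`; `Ys s Z` is the plane minus the downward closed rays from the points of `Z`.
-/

namespace Pool.Agent.HK

open Complex Set Metric
open scoped ComplexConjugate

/-- The finite set `Sp` together with the conjugate points. -/
noncomputable def dbl (Sp : Finset ℂ) : Finset ℂ :=
  open Classical in Sp ∪ Sp.image (starRingEnd ℂ)

/-- PROOF. For two different points `z, w` the condition `foot s z = foot s w` means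
`re z - re w = -s (im z - im w)`: it excludes at most one `s` if `im z ≠ im w`, and none if
`im z = im w` (then `re z ≠ re w`). So only finitely many `s ∈ (0,1)` are excluded. -/
theorem exists_slope (Z : Finset ℂ) :
    ∃ s : ℝ, 0 < s ∧ s < 1 ∧ ∀ z ∈ Z, ∀ w ∈ Z, foot s z = foot s w → z = w := by
  classical
  obtain ⟨s, hs, hsb⟩ := (Ioo_infinite (zero_lt_one (α := ℝ))).exists_notMem_finset
    ((Z ×ˢ Z).image fun v : ℂ × ℂ => -(v.1.re - v.2.re) / (v.1.im - v.2.im))
  refine ⟨s, hs.1, hs.2, ?_⟩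
  intro z hz w hw h
  unfold foot at h
  by_cases him : z.im = w.im
  · rw [him] at h
    exact Complex.ext (by linarith) him
  · exfalso
    apply hsb
    rw [Finset.mem_image]
    refine ⟨(z, w), Finset.mem_product.2 ⟨hz, hw⟩, ?_⟩
    have h1 : z.im - w.im ≠ 0 := sub_ne_zero.2 him
    simp only
    rw [div_eq_iff h1]
    linarith

theorem FGeoB_mem {Sp : Finset ℂ} {z : ℂ} (hz : z ∈ dbl Sp) :
    z ∈ Sp ∨ ∃ w ∈ Sp, conj w = z := by
  classical
  unfold dbl at hz
  rw [Finset.mem_union, Finset.mem_image] at hz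
  exact hz

theorem FGeoB_norm {Sp : Finset ℂ} {z : ℂ} (hz : z ∈ dbl Sp) : ‖z‖ ≤ ∑ w ∈ Sp, ‖w‖ := by
  rcases FGeoB_mem hz with hz1 | ⟨w, hw, rfl⟩
  · exact Finset.single_le_sum (f := fun w : ℂ => ‖w‖) (fun _ _ => norm_nonneg _) hz1
  · rw [Complex.norm_conj]
    exact Finset.single_le_sum (f := fun w : ℂ => ‖w‖) (fun _ _ => norm_nonneg _) hw

/-- a real point which is not a foot of a point of `Sp` (all of them in the closed upper half plane)
belongs to `Ys s (dbl Sp)`.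
PROOF. Let `z ∈ dbl Sp` with `foot s c = c = foot s z`; if `z ∈ Sp` this is excluded; if `z = conj w`,
`w ∈ Sp`, then `z.im = -w.im ≤ 0`; if `z.im < 0 = c.im` fine; if `z.im = 0` then `z = w ∈ Sp`. -/
theorem real_mem_Ys {Sp : Finset ℂ} (hSp : ∀ z ∈ Sp, 0 ≤ z.im) {s c : ℝ}
    (hc : ∀ z ∈ Sp, foot s z ≠ c) : (c : ℂ) ∈ Ys s (dbl Sp) := by
  classical
  have hfc : foot s (c : ℂ) = c := by simp [foot]
  intro z hz hf
  rw [hfc] at hf
  rcases FGeoB_mem hz with hz1 | ⟨w, hw, rfl⟩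
  · exact absurd hf.symm (hc z hz1)
  · have hw0 := hSp w hw
    rw [conj_im, ofReal_im]
    rcases hw0.lt_or_eq with h1 | h1
    · linarith
    · exfalso
      have h2 : conj w = w := Complex.ext (by simp) (by rw [conj_im, ← h1]; simp)
      rw [h2] at hf
      exact hc w hw hf.symm

/-- the closed upper half circle of large radius is contained in `Ys`.
PROOF. `R` larger than `2 * (‖z‖ + 1)` for all `z ∈ Sp`.  Let `ζ = R exp (i φ)`, `im ζ ≥ 0`,
`foot s ζ = foot s z`.  Suppose `ζ.im ≤ z.im`; then `0 ≤ ζ.im ≤ z.im ≤ ‖z‖` and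
`|ζ.re| = |foot s z - s * ζ.im| ≤ ‖z‖ + ‖z‖ + ‖z‖`..., so `R ≤ |re| + |im| ≤ 4 ‖z‖`: take
`R > 4 ‖z‖ + 4`. -/
theorem circle_mem_Ys {Sp : Finset ℂ} (hSp : ∀ z ∈ Sp, 0 ≤ z.im) {s : ℝ} (hs : 0 < s) (hs' : s < 1) :
    ∃ R0 : ℝ, ∀ R : ℝ, R0 ≤ R → ∀ φ ∈ Icc 0 Real.pi, pol 0 R φ ∈ Ys s (dbl Sp) := by
  refine ⟨4 * ∑ w ∈ Sp, ‖w‖ + 5, ?_⟩
  intro R hR φ hφ z hz hf
  have hK0 : 0 ≤ ∑ w ∈ Sp, ‖w‖ := Finset.sum_nonneg fun _ _ => norm_nonneg _
  have hz1 := FGeoB_norm hz
  generalize (∑ w ∈ Sp, ‖w‖) = K at hR hK0 hz1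
  have hR0 : 0 < R := by linarith
  have hpol : pol 0 R φ = (R * Real.cos φ : ℝ) + (R * Real.sin φ : ℝ) * I := by
    unfold pol
    rw [Complex.exp_mul_I]
    push_cast
    ring
  have him : (pol 0 R φ).im = R * Real.sin φ := by
    rw [hpol, add_im, ofReal_im, im_ofReal_mul, I_im, mul_one, zero_add]
  have hnorm : ‖pol 0 R φ‖ = R := by
    unfold pol
    rw [zero_add, norm_mul, Complex.norm_exp_ofReal_mul_I, mul_one, Complex.norm_real,
      Real.norm_of_nonneg hR0.le]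
  have him0 : 0 ≤ (pol 0 R φ).im := by
    rw [him]
    exact mul_nonneg hR0.le (Real.sin_nonneg_of_nonneg_of_le_pi hφ.1 hφ.2)
  by_contra hcon
  have hle : (pol 0 R φ).im ≤ z.im := not_lt.1 hcon
  have h1 : |z.re| ≤ K := (Complex.abs_re_le_norm z).trans hz1
  have h2 : |z.im| ≤ K := (Complex.abs_im_le_norm z).trans hz1
  have h3 : z.im ≤ K := (le_abs_self _).trans h2
  unfold foot at hf
  have h4 : |(pol 0 R φ).im| ≤ K := by
    rw [abs_of_nonneg him0]
    linarith
  have h5 : |(pol 0 R φ).re| ≤ 3 * K := by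
    have h6 : (pol 0 R φ).re = z.re + s * z.im - s * (pol 0 R φ).im := by linarith
    rw [h6]
    have h7 : |s * z.im| ≤ K := by
      rw [abs_mul, abs_of_pos hs]
      nlinarith [abs_nonneg z.im]
    have h8 : |s * (pol 0 R φ).im| ≤ K := by
      rw [abs_mul, abs_of_pos hs]
      nlinarith [abs_nonneg (pol 0 R φ).im]
    calc |z.re + s * z.im - s * (pol 0 R φ).im|
        ≤ |z.re + s * z.im| + |s * (pol 0 R φ).im| := abs_sub _ _
      _ ≤ |z.re| + |s * z.im| + |s * (pol 0 R φ).im| := by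
          have := abs_add_le z.re (s * z.im)
          linarith
      _ ≤ 3 * K := by linarith
  have h9 := Complex.norm_le_abs_re_add_abs_im (pol 0 R φ)
  rw [hnorm] at h9
  linarith

/-- The argument `alf s ∈ (0, π)` of `dirv s`. -/
noncomputable def alf (s : ℝ) : ℝ := Complex.arg (dirv s)

theorem alf_mem (s : ℝ) : alf s ∈ Ioo 0 Real.pi := by
  have him : (dirv s).im = 1 := by simp [dirv]
  unfold alf
  constructor
  · have h1 : 0 ≤ (dirv s).arg := Complex.arg_nonneg_iff.2 (by rw [him]; norm_num)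
    rcases h1.lt_or_eq with h2 | h2
    · exact h2
    · exfalso
      have h3 := (Complex.arg_eq_zero_iff.1 h2.symm).2
      rw [him] at h3
      norm_num at h3
  · exact Complex.arg_lt_pi_iff.2 (Or.inr (by rw [him]; norm_num))

end Pool.Agent.HK
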