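import Pool.Agent.H.MP_cd3d06_an.K.FSweep

/-!
Part F: the sweep, and Theorem F.
-/

namespace Pool.Agent.HK

open Complex Set Metric Filter Topology
open scoped ComplexConjugate

variable {n : ℕ} {Pts : ℂ → Set TP}

/-- all points outside of `dbl Sp` are regular -/
theorem FMain_reg (hm : ∀ ζ, Pts (conj ζ) = mir '' Pts ζ) {Sp : Finset ℂ}
    (hreg0 : ∀ ζ : ℂ, 0 ≤ ζ.im → ζ ∉ Sp → IsRegPt n Pts ζ) : ∀ ζ ∉ dbl Sp, IsRegPt n Pts ζ := by
  classical
  intro ζ hζ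
  have hd : ∀ w ∈ Sp, w ∈ dbl Sp ∧ conj w ∈ dbl Sp := by
    intro w hw
    unfold dbl
    exact ⟨Finset.mem_union_left _ hw, Finset.mem_union_right _ (Finset.mem_image_of_mem _ hw)⟩
  rcases le_or_gt 0 ζ.im with h | h
  · exact hreg0 ζ h (fun hc => hζ (hd ζ hc).1)
  · have h3 : IsRegPt n Pts (conj ζ) := by
      apply hreg0
      · rw [conj_im]
        linarith
      · intro hc
        apply hζ
        have := (hd _ hc).2
        rwa [Complex.conj_conj] at this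
    have h4 := h3.conj hm
    rwa [Complex.conj_conj] at h4

theorem FMain_pol_zero (R : ℝ) : pol 0 R 0 = (R : ℂ) := by
  simp [pol]

theorem FMain_pol_pi (R : ℝ) : pol 0 R Real.pi = ((-R : ℝ) : ℂ) := by
  simp [pol, Complex.exp_pi_mul_I]

/-- Theorem F when all special points are in the closed upper half plane. -/
theorem FMain_core (hn : 1 ≤ n) (hm : ∀ ζ, Pts (conj ζ) = mir '' Pts ζ) {Sp : Finset ℂ}
    (hSp : ∀ z ∈ Sp, 0 ≤ z.im) (hreg0 : ∀ ζ : ℂ, 0 ≤ ζ.im → ζ ∉ Sp → IsRegPt n Pts ζ)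
    (EE BB : ℂ → ℕ) (h1 : ∀ z ∈ Sp, 0 < z.im → IsSpecial n Pts z (EE z) (BB z))
    (h2 : ∀ z ∈ Sp, z.im = 0 → IsZeroPt n Pts z) (hfar : IsFar Pts) :
    (Sp.filter (fun ζ => ζ.im = 0)).card ≤
      n + ∑ ζ ∈ Sp.filter (fun ζ => 0 < ζ.im), (EE ζ + BB ζ) := by
  classical
  have hreg := FMain_reg hm hreg0
  obtain ⟨s, hs, hs', hZ⟩ := exists_slope (dbl Sp)
  obtain ⟨M, hM⟩ : ∃ M : ℝ, ∀ z ∈ dbl Sp, z.im ≤ M := by
    obtain ⟨B, hB⟩ := ((dbl Sp).image Complex.im).bddAbove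
    refine ⟨B, fun z hz => hB ?_⟩
    simp only [Finset.coe_image, mem_image, Finset.mem_coe]
    exact ⟨z, hz, rfl⟩
  have : SimplyConnectedSpace (Ys s (dbl Sp)) := simplyConnected_Ys s (dbl Sp)
  have : LocallyPathConnectedSpace (Ys s (dbl Sp)) := locPathConnected_Ys s (dbl Sp)
  obtain ⟨f, hf⟩ := exists_prim_on (n := n) (Pts := Pts) (Y := Ys s (dbl Sp))
    (fun ζ hζ => hreg ζ (fun hc => lt_irrefl _ (hζ ζ hc rfl)))
  obtain ⟨Ra, hRa, hfh⟩ := far_half hn hm hfar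
  obtain ⟨Rb, hcirc⟩ := circle_mem_Ys hSp hs hs'
  obtain ⟨Rc, hRc⟩ : ∃ Rc : ℝ, ∀ z ∈ Sp, |foot s z| ≤ Rc := by
    obtain ⟨B, hB⟩ := (Sp.image (fun z => |foot s z|)).bddAbove
    refine ⟨B, fun z hz => hB ?_⟩
    simp only [Finset.coe_image, mem_image, Finset.mem_coe]
    exact ⟨z, hz, rfl⟩
  obtain ⟨R, hR1, hR2, hR3⟩ : ∃ R : ℝ, Ra ≤ R ∧ Rb ≤ R ∧ Rc + 1 ≤ R :=
    ⟨max Ra (max Rb (Rc + 1)), le_max_left _ _, (le_max_left _ _).trans (le_max_right _ _),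
      (le_max_right _ _).trans (le_max_right _ _)⟩
  have hlt : ∀ z ∈ Sp, -R < foot s z ∧ foot s z < R := by
    intro z hz
    have h3 := abs_le.1 (hRc z hz)
    constructor <;> linarith [h3.1, h3.2]
  have hsw := sweep hn hm hSp hreg hs hs' hZ EE BB h1 h2 hf (fun z hz => (hlt z hz).1) R
    (by linarith) (fun z hz => ne_of_lt (hlt z hz).2)
  have hcont : Continuous (fun φ : ℝ => pol 0 R φ) := by
    unfold pol
    fun_prop
  have hfc : IsPrim n Pts (fun φ : ℝ => pol 0 R φ) (f ∘ fun φ : ℝ => pol 0 R φ)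
      (Icc 0 Real.pi) :=
    hf.comp (φ := fun φ : ℝ => pol 0 R φ) hcont.continuousOn (fun φ hφ => hcirc R hR2 φ hφ)
  obtain ⟨hrow, a, ha, a', ha', he⟩ := hfh R hR1 _ hfc
  simp only [Function.comp_apply] at he
  rw [FMain_pol_zero, FMain_pol_pi] at he
  rw [hrow, he] at hsw
  have hlast := Bd.last hn ha ha' hsw
  have e1 : Sp.filter (fun z => z.im = 0 ∧ foot s z < R) = Sp.filter (fun z => z.im = 0) :=
    Finset.filter_congr (fun z hz => ⟨fun h => h.1, fun h => ⟨h, (hlt z hz).2⟩⟩)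
  have e2 : Sp.filter (fun z => 0 < z.im ∧ foot s z < R) = Sp.filter (fun z => 0 < z.im) :=
    Finset.filter_congr (fun z hz => ⟨fun h => h.1, fun h => ⟨h, (hlt z hz).2⟩⟩)
  rw [pot, e1, e2] at hlast
  have h3 : ((Sp.filter (fun ζ => ζ.im = 0)).card : ℤ) ≤
      (n : ℤ) + ((∑ ζ ∈ Sp.filter (fun ζ => 0 < ζ.im), (EE ζ + BB ζ) : ℕ) : ℤ) := by linarith
  exact_mod_cast h3

/-- THEOREM F.

PROOF. Replace `Sp` by `Sp.filter (0 ≤ im)`: the hypotheses and the conclusion do not change; so assume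
`hSp`. All points outside of `dbl Sp` are regular (`IsRegPt.conj` for the lower half plane).
`s` from `exists_slope (dbl Sp)`, `f` from `exists_prim_on` for `Y = Ys s (dbl Sp)`.
`R` larger than the bounds of `far_half`, `circle_mem_Ys` and all `|foot s z|`. `sweep` at `c = R`:
all feet are `< R`, so `pot = -n - #real + sum (EE + BB)`. `f ∘ pol 0 R` is a primitive on `Icc 0 π`
(`circle_mem_Ys`), so by `far_half` `(f R)⁻¹ * f (-R) = a * el (Wd n) * a'` and `rowAt R = rR n`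
(`pol 0 R 0 = R`, `pol 0 R π = -R`). `Bd.last`: `-2n ≤ pot`. -/
theorem theoremF : TheoremF := by
  classical
  intro n hn Pts hm Sp hreg EE BB h1 h2 hfar
  have key := FMain_core hn hm (Sp := Sp.filter (fun ζ => 0 ≤ ζ.im))
    (fun z hz => (Finset.mem_filter.1 hz).2)
    (fun ζ h0 hζ => hreg ζ h0 (fun hc => hζ (Finset.mem_filter.2 ⟨hc, h0⟩))) EE BB
    (fun z hz => h1 z (Finset.mem_filter.1 hz).1) (fun z hz => h2 z (Finset.mem_filter.1 hz).1) hfar
  have e1 : (Sp.filter (fun ζ => 0 ≤ ζ.im)).filter (fun ζ => ζ.im = 0) =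
      Sp.filter (fun ζ => ζ.im = 0) := by
    rw [Finset.filter_filter]
    exact Finset.filter_congr (fun z _ => ⟨fun h => h.2, fun h => ⟨h.ge, h⟩⟩)
  have e2 : (Sp.filter (fun ζ => 0 ≤ ζ.im)).filter (fun ζ => 0 < ζ.im) =
      Sp.filter (fun ζ => 0 < ζ.im) := by
    rw [Finset.filter_filter]
    exact Finset.filter_congr (fun z _ => ⟨fun h => h.2, fun h => ⟨h.le, h⟩⟩)
  rw [e1, e2] at key
  exact key

end Pool.Agent.HK
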