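import Pool.Agent.H.MP_cd3d06_an.K.FCross

/-!
Part F: the sweep, and Theorem F.
-/

namespace Pool.Agent.HK

open Complex Set Metric Filter Topology
open scoped ComplexConjugate

variable {n : ℕ} {Pts : ℂ → Set TP}

/-- the value of the potential at the real point `c` -/
noncomputable def pot (n : ℕ) (Sp : Finset ℂ) (EE BB : ℂ → ℕ) (s c : ℝ) : ℤ :=
  -(n : ℤ) - ((Sp.filter (fun z => z.im = 0 ∧ foot s z < c)).card : ℤ) +
    ((∑ z ∈ Sp.filter (fun z => 0 < z.im ∧ foot s z < c), (EE z + BB z) : ℕ) : ℤ)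

theorem FSweep_pot_bot (n : ℕ) {Sp : Finset ℂ} (EE BB : ℂ → ℕ) {s c : ℝ}
    (h : ∀ w ∈ Sp, c < foot s w) : pot n Sp EE BB s c = -(n : ℤ) := by
  have h1 : Sp.filter (fun z => z.im = 0 ∧ foot s z < c) = ∅ := by
    rw [Finset.filter_eq_empty_iff]
    intro w hw hh
    exact absurd hh.2 (not_lt.2 (h w hw).le)
  have h2 : Sp.filter (fun z => 0 < z.im ∧ foot s z < c) = ∅ := by
    rw [Finset.filter_eq_empty_iff]
    intro w hw hh
    exact absurd hh.2 (not_lt.2 (h w hw).le)
  rw [pot, h1, h2]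
  simp

theorem FSweep_pot_special (n : ℕ) {Sp : Finset ℂ} (EE BB : ℂ → ℕ) {s c cm : ℝ} {z : ℂ}
    (hz : z ∈ Sp) (hz0 : 0 < z.im) (hzc : ¬ foot s z < cm)
    (h : ∀ w ∈ Sp, foot s w < c ↔ (w = z ∨ foot s w < cm)) :
    pot n Sp EE BB s c = pot n Sp EE BB s cm + EE z + BB z := by
  classical
  have h1 : Sp.filter (fun z => z.im = 0 ∧ foot s z < c) =
      Sp.filter (fun z => z.im = 0 ∧ foot s z < cm) := by
    apply Finset.filter_congr
    intro w hw
    constructor
    · rintro ⟨a, b⟩
      rcases (h w hw).1 b with rfl | b'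
      · exact absurd a hz0.ne'
      · exact ⟨a, b'⟩
    · rintro ⟨a, b⟩
      exact ⟨a, (h w hw).2 (Or.inr b)⟩
  have h2 : Sp.filter (fun z => 0 < z.im ∧ foot s z < c) =
      insert z (Sp.filter (fun z => 0 < z.im ∧ foot s z < cm)) := by
    ext w
    simp only [Finset.mem_filter, Finset.mem_insert]
    constructor
    · rintro ⟨a, b, d⟩
      rcases (h w a).1 d with rfl | d'
      · exact Or.inl rfl
      · exact Or.inr ⟨a, b, d'⟩
    · rintro (rfl | ⟨a, b, d⟩)
      · exact ⟨hz, hz0, (h w hz).2 (Or.inl rfl)⟩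
      · exact ⟨a, b, (h w a).2 (Or.inr d)⟩
  have h3 : z ∉ Sp.filter (fun z => 0 < z.im ∧ foot s z < cm) := by
    intro hh
    exact hzc (Finset.mem_filter.1 hh).2.2
  rw [pot, pot, h1, h2, Finset.sum_insert h3]
  push_cast
  ring

theorem FSweep_pot_zero (n : ℕ) {Sp : Finset ℂ} (EE BB : ℂ → ℕ) {s c cm : ℝ} {z : ℂ}
    (hz : z ∈ Sp) (hz0 : z.im = 0) (hzc : ¬ foot s z < cm)
    (h : ∀ w ∈ Sp, foot s w < c ↔ (w = z ∨ foot s w < cm)) :
    pot n Sp EE BB s c = pot n Sp EE BB s cm - 1 := by
  classical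
  have h1 : Sp.filter (fun z => 0 < z.im ∧ foot s z < c) =
      Sp.filter (fun z => 0 < z.im ∧ foot s z < cm) := by
    apply Finset.filter_congr
    intro w hw
    constructor
    · rintro ⟨a, b⟩
      rcases (h w hw).1 b with rfl | b'
      · exact absurd hz0 a.ne'
      · exact ⟨a, b'⟩
    · rintro ⟨a, b⟩
      exact ⟨a, (h w hw).2 (Or.inr b)⟩
  have h2 : Sp.filter (fun z => z.im = 0 ∧ foot s z < c) =
      insert z (Sp.filter (fun z => z.im = 0 ∧ foot s z < cm)) := by
    ext w
    simp only [Finset.mem_filter, Finset.mem_insert]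
    constructor
    · rintro ⟨a, b, d⟩
      rcases (h w a).1 d with rfl | d'
      · exact Or.inl rfl
      · exact Or.inr ⟨a, b, d'⟩
    · rintro (rfl | ⟨a, b, d⟩)
      · exact ⟨hz, hz0, (h w hz).2 (Or.inl rfl)⟩
      · exact ⟨a, b, (h w a).2 (Or.inr d)⟩
  have h3 : z ∉ Sp.filter (fun z => z.im = 0 ∧ foot s z < cm) := by
    intro hh
    exact hzc (Finset.mem_filter.1 hh).2.2
  rw [pot, pot, h1, h2, Finset.card_insert_of_notMem h3]
  push_cast
  ring

/-- The sweep.

PROOF. Strong induction on the number `k` of the points of `Sp` with foot in `[-R, c)`.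
`k = 0`: `Bd.one` at `-R` (`(f (-R))⁻¹ * f (-R) = 1`, `real_row`), `cross_none` from `-R` to `c`;
the potentials at `-R` and `c` are both `-n` (all feet are `> -R`).
`k > 0`: let `z` be the point of `Sp` with the largest foot `< c` (unique by `hZ`). Take `η` from
`cross_special` or `cross_zero`, and `ρ < η` so small that `foot z + ρ ≤ c`, `-R < foot z - ρ` and no
other foot is in `[foot z - ρ, foot z + ρ]`. Induction hypothesis at `cm = foot z - ρ` (fewer feet), then
`cross_special`/`cross_zero` to `cp = foot z + ρ`, then `cross_none` from `cp` to `c`. The potential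
changes by `EE z + BB z` resp. `-1` (the filters at `cp` are the filters at `cm` with `z` inserted),
and it is the same at `cp` and `c`. -/
theorem sweep (hn : 1 ≤ n) (hm : ∀ ζ, Pts (conj ζ) = mir '' Pts ζ) {Sp : Finset ℂ}
    (hSp : ∀ z ∈ Sp, 0 ≤ z.im) (hreg : ∀ ζ ∉ dbl Sp, IsRegPt n Pts ζ) {s : ℝ} (hs : 0 < s)
    (hs' : s < 1) (hZ : ∀ z ∈ dbl Sp, ∀ w ∈ dbl Sp, foot s z = foot s w → z = w)
    (EE BB : ℂ → ℕ) (h1 : ∀ z ∈ Sp, 0 < z.im → IsSpecial n Pts z (EE z) (BB z))
    (h2 : ∀ z ∈ Sp, z.im = 0 → IsZeroPt n Pts z)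
    {f : ℂ → Brd (2 * n)} (hf : IsPrim n Pts id f (Ys s (dbl Sp))) {R : ℝ}
    (hR : ∀ z ∈ Sp, -R < foot s z) (c : ℝ) (hc : -R ≤ c) (hc' : ∀ z ∈ Sp, foot s z ≠ c) :
    Bd n ((f c)⁻¹ * f ((-R : ℝ) : ℂ)) (rowAt n Pts c) (pot n Sp EE BB s c) := by
  classical
  have hsub : ∀ z ∈ Sp, z ∈ dbl Sp := fun z hz => by
    unfold dbl
    exact Finset.mem_union_left _ hz
  suffices H : ∀ k : ℕ, ∀ c : ℝ, (Sp.filter (fun z => foot s z < c)).card = k → -R ≤ c →
      (∀ z ∈ Sp, foot s z ≠ c) →
      Bd n ((f c)⁻¹ * f ((-R : ℝ) : ℂ)) (rowAt n Pts c) (pot n Sp EE BB s c) from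
    H _ c rfl hc hc'
  intro k
  induction k using Nat.strong_induction_on with
  | _ k ih =>
    intro c hk hc hc'
    by_cases hemp : Sp.filter (fun z => foot s z < c) = ∅
    · have hlt : ∀ w ∈ Sp, c < foot s w := by
        intro w hw
        rw [Finset.filter_eq_empty_iff] at hemp
        exact lt_of_le_of_ne (not_lt.1 (hemp hw)) (hc' w hw).symm
      rw [FSweep_pot_bot n EE BB hlt]
      have hY := real_mem_Ys hSp (s := s) (c := -R) (fun z hz => (hR z hz).ne')
      have hnot : ((-R : ℝ) : ℂ) ∉ dbl Sp := fun hh => lt_irrefl _ (hY _ hh rfl)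
      have hB : Bd n ((f ((-R : ℝ) : ℂ))⁻¹ * f ((-R : ℝ) : ℂ)) (rowAt n Pts ((-R : ℝ) : ℂ))
          (-(n : ℤ)) := by
        rw [inv_mul_cancel]
        exact Bd.one (real_row hm (hreg _ hnot))
      exact cross_none hm hSp hreg hf hc (fun z hz hh => absurd (hlt z hz) (not_lt.2 hh.2)) _ _ hB
    · obtain ⟨z, hzf, hmax⟩ := Finset.exists_max_image _ (fun z => foot s z)
        (Finset.nonempty_iff_ne_empty.2 hemp)
      obtain ⟨hz, hzc⟩ := Finset.mem_filter.1 hzf
      obtain ⟨δ, hδ, hd⟩ := FGeo_small Sp (fun w => |foot s w - foot s z|)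
      -- the crossing, for all small `ρ`
      have hcross : ∃ η > 0, ∀ ρ : ℝ, 0 < ρ → ρ < η → ∀ cm cp : ℝ, cm = foot s z - ρ →
          cp = foot s z + ρ → (∀ w ∈ Sp, foot s w < c ↔ (w = z ∨ foot s w < cm)) →
          ∀ F : Brd (2 * n),
          Bd n ((f cm)⁻¹ * F) (rowAt n Pts cm) (pot n Sp EE BB s cm) →
            Bd n ((f cp)⁻¹ * F) (rowAt n Pts cp) (pot n Sp EE BB s c) := by
        rcases (hSp z hz).lt_or_eq with hz0 | hz0
        · obtain ⟨η, hη, hx⟩ := cross_special hn hm hSp hreg hs hs' hZ hf hz hz0 (h1 z hz hz0)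
          refine ⟨η, hη, fun ρ hρ hρη cm cp hcm hcp hiff F hB => ?_⟩
          rw [FSweep_pot_special n EE BB hz hz0 (by rw [hcm]; linarith) hiff]
          exact hx cm cp (by rw [hcm]; linarith) (by rw [hcm]; linarith) (by rw [hcp]; linarith)
            (by rw [hcp]; linarith) F _ hB
        · obtain ⟨η, hη, hx⟩ := cross_zero hn hm hSp hreg hs hs' hZ hf hz hz0.symm
            (h2 z hz hz0.symm)
          refine ⟨η, hη, fun ρ hρ hρη cm cp hcm hcp hiff F hB => ?_⟩
          rw [FSweep_pot_zero n EE BB hz hz0.symm (by rw [hcm]; linarith) hiff]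
          subst hcm hcp
          exact hx ρ hρ hρη F _ hB
      obtain ⟨η, hη, hx⟩ := hcross
      have hRz := hR z hz
      obtain ⟨ρ, hρ0, hρ⟩ : ∃ ρ : ℝ, 0 < ρ ∧
          ρ < min (min η δ) (min (c - foot s z) (foot s z + R)) :=
        exists_between (lt_min (lt_min hη hδ) (lt_min (by linarith) (by linarith)))
      have hρη : ρ < η := hρ.trans_le ((min_le_left _ _).trans (min_le_left _ _))
      have hρδ : ρ < δ := hρ.trans_le ((min_le_left _ _).trans (min_le_right _ _))
      have hρc : ρ < c - foot s z := hρ.trans_le ((min_le_right _ _).trans (min_le_left _ _))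
      have hρR : ρ < foot s z + R := hρ.trans_le ((min_le_right _ _).trans (min_le_right _ _))
      have hfar : ∀ w ∈ Sp, w ≠ z → δ ≤ |foot s w - foot s z| := by
        intro w hw hwz
        apply hd w hw
        apply abs_pos.2
        intro h0
        exact hwz (hZ w (hsub w hw) z (hsub z hz) (by linarith))
      have hiff : ∀ w ∈ Sp, foot s w < c ↔ (w = z ∨ foot s w < foot s z - ρ) := by
        intro w hw
        constructor
        · intro hwc
          by_cases hwz : w = z
          · exact Or.inl hwz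
          · right
            have h3 := hmax w (Finset.mem_filter.2 ⟨hw, hwc⟩)
            have h4 := hfar w hw hwz
            rw [abs_sub_comm, abs_of_nonneg (by linarith)] at h4
            linarith
        · rintro (rfl | h3)
          · exact hzc
          · linarith
      have hcm' : ∀ w ∈ Sp, foot s w ≠ foot s z - ρ := by
        intro w hw h0
        by_cases hwz : w = z
        · rw [hwz] at h0
          linarith
        · have h4 := hfar w hw hwz
          rw [h0] at h4
          have h5 : |foot s z - ρ - foot s z| = ρ := by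
            rw [show foot s z - ρ - foot s z = -ρ by ring, abs_neg, abs_of_pos hρ0]
          rw [h5] at h4
          linarith
      have hlt : (Sp.filter (fun w => foot s w < foot s z - ρ)).card < k := by
        rw [← hk]
        apply Finset.card_lt_card
        rw [Finset.ssubset_iff_of_subset]
        · exact ⟨z, hzf, fun hh => by
            have := (Finset.mem_filter.1 hh).2
            linarith⟩
        · intro w hw
          obtain ⟨a, b⟩ := Finset.mem_filter.1 hw
          exact Finset.mem_filter.2 ⟨a, by linarith⟩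
      have hB := ih _ hlt (foot s z - ρ) rfl (by linarith) hcm'
      have hB2 := hx ρ hρ0 hρη _ _ rfl rfl hiff _ hB
      refine cross_none hm hSp hreg hf (a := foot s z + ρ) (b := c) (by linarith) ?_ _ _ hB2
      intro w hw hh
      have h3 := hmax w (Finset.mem_filter.2 ⟨hw, lt_of_le_of_ne hh.2 (hc' w hw)⟩)
      have h4 := hh.1
      linarith

end Pool.Agent.HK
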