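import Pool.Agent.H.MP_cd3d06_an.K.FinK

/-!
Part A: linear maps between spaces of colourings of different words.
-/

namespace Pool.Agent.HK

variable {N : ℕ}

/-- `x ↦ (x 0, ..., x (k-1), θ (x k, x (k+1), ...))` -/
def upN (k : ℕ) (θ : Col N →ₗ[ZMod 2] Col N) : Col N →ₗ[ZMod 2] Col N where
  toFun x := csN k x (θ (tlN k x))
  map_add' x y := by
    have h : tlN k (x + y) = tlN k x + tlN k y := rfl
    funext t
    rw [h, map_add]
    by_cases ht : t < k <;> simp [ht, csN]
  map_smul' c x := by
    have h : tlN k (c • x) = c • tlN k x := rfl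
    funext t
    rw [h, map_smul]
    by_cases ht : t < k <;> simp [ht, csN]

@[simp] theorem upN_apply (k : ℕ) (θ : Col N →ₗ[ZMod 2] Col N) (x : Col N) :
    upN k θ x = csN k x (θ (tlN k x)) := rfl

theorem Fib_csN_zero (x y : Col N) : csN 0 x y = y := by
  funext t; simp [csN]

theorem Fib_tlN_zero (x : Col N) : tlN 0 x = x := rfl

theorem Fib_csN_succ (k : ℕ) (x y : Col N) : csN (k + 1) x y = cs (x 0) (csN k (tl x) y) := by
  funext t
  cases t with
  | zero => simp [csN]
  | succ t =>
    by_cases ht : t < k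
    · simp [csN, ht]
    · simp [csN, ht]

theorem Fib_tlN_succ (k : ℕ) (x : Col N) : tlN (k + 1) x = tlN k (tl x) := rfl

theorem Fib_tlN_csN (k : ℕ) (x y : Col N) : tlN k (csN k x y) = y := by
  funext t; simp [csN, tlN]

theorem Fib_csN_tlN (k : ℕ) (x : Col N) : csN k x (tlN k x) = x := by
  funext t
  by_cases ht : t < k
  · simp [csN, ht]
  · simp only [csN, ht, if_false, tlN]
    congr 1; omega

theorem Fib_csN_csN (k : ℕ) (x y z : Col N) : csN k (csN k x y) z = csN k x z := by
  funext t
  by_cases ht : t < k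
  · simp [csN, ht]
  · simp [csN, ht]

theorem Fib_csN_add (k : ℕ) (x x' y y' : Col N) :
    csN k x y + csN k x' y' = csN k (x + x') (y + y') := by
  funext t
  by_cases ht : t < k
  · simp [csN, ht]
  · simp [csN, ht]

theorem Fib_csN_head (k : ℕ) (x y : Col N) (h : y 0 = x k) : csN k x y 0 = x 0 := by
  by_cases ht : 0 < k
  · simp [csN, ht]
  · have : k = 0 := by omega
    subst this
    simp [csN, h]

theorem Fib_tl {w : Word N} {v : List Bool} (w1 : Word N) (v1 : List Bool)
    (h : v1.length = w1.length) (x : Col N) (hx : Valid (w1 ++ w) (v1 ++ v) x) :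
    Valid w v (tlN w1.length x) := by
  induction w1 generalizing v1 x with
  | nil =>
    have : v1 = [] := by simpa using h
    subst this
    exact hx
  | cons l w1 ih =>
    cases v1 with
    | nil => simp at h
    | cons e v1 =>
      have h' : v1.length = w1.length := by simpa using h
      rw [List.length_cons, Fib_tlN_succ]
      exact ih v1 h' (tl x) hx.2

theorem Fib_valid {w' w : Word N} {v' v : List Bool} (w1 : Word N) (v1 : List Bool)
    (h : v1.length = w1.length) (x y : Col N) (hx : Valid (w1 ++ w') (v1 ++ v') x)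
    (hy : Valid w v y) (h0 : y 0 = x w1.length) :
    Valid (w1 ++ w) (v1 ++ v) (csN w1.length x y) := by
  induction w1 generalizing v1 x with
  | nil =>
    have : v1 = [] := by simpa using h
    subst this
    rw [List.length_nil, Fib_csN_zero]
    exact hy
  | cons l w1 ih =>
    cases v1 with
    | nil => simp at h
    | cons e v1 =>
      have h' : v1.length = w1.length := by simpa using h
      rw [List.length_cons, Fib_csN_succ]
      refine ⟨?_, ih v1 h' (tl x) hx.2 h0⟩
      have h1 : cs (x 0) (csN w1.length (tl x) y) 1 = x 1 :=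
        Fib_csN_head w1.length (tl x) y h0
      rw [h1]
      exact hx.1

/-- `π` maps the colourings of `(w', v')` onto those of `(w, v)`, with section `s` and kernel
`{0, c}`, of dimension `k = 0` or `1`. All maps preserve the bottom row. -/
structure Fib (w' : Word N) (v' : List Bool) (w : Word N) (v : List Bool) (k : ℕ) where
  π : Col N →ₗ[ZMod 2] Col N
  s : Col N →ₗ[ZMod 2] Col N
  c : Col N
  hπ : ∀ x, Valid w' v' x → Valid w v (π x)
  π0 : ∀ x, Valid w' v' x → (π x) 0 = x 0
  hs : ∀ y, Valid w v y → Valid w' v' (s y)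
  s0 : ∀ y, Valid w v y → (s y) 0 = y 0
  πs : ∀ y, Valid w v y → π (s y) = y
  hc : Valid w' v' c
  c0 : c 0 = 0
  πc : π c = 0
  fib : ∀ x, Valid w' v' x → x = s (π x) ∨ x = s (π x) + c
  ck : (c = 0 ∧ k = 0) ∨ (c ≠ 0 ∧ k = 1)

/-- lift of a fibration over the letters `w1` added at the bottom.
PROOF. Induction on `w1` (generalizing `v1`) is the simplest way for each field separately; useful:
`csN (k+1) x y = cs (x 0) (csN k (tl x) y)`, `tlN (k+1) x = tlN k (tl x)`, `csN 0 x y = y`,
`tlN 0 x = x`, `tlN k (csN k x y) = y`, `(csN k x y) t = x t` for `t < k`, and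
`(csN k x y) k = y 0`. Validity: `Valid (w1 ++ w) (v1 ++ v) x` means the relations along `w1` for
`x 0, ..., x k` and `Valid w v (tlN k x)`; replacing the tail by another one with the same row number
`0` keeps the relations. For `c`: `upN` keeps the first rows; the colouring `csN k 0 c` is zero in the
rows `< k`, and row `k` is `c 0 = 0`. -/
def Fib.up {w' w : Word N} {v' v : List Bool} {k : ℕ} (F : Fib w' v' w v k) (w1 : Word N)
    (v1 : List Bool) (h : v1.length = w1.length) :
    Fib (w1 ++ w') (v1 ++ v') (w1 ++ w) (v1 ++ v) k where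
  π := upN w1.length F.π
  s := upN w1.length F.s
  c := csN w1.length 0 F.c
  hπ := by
    intro x hx
    have ht := Fib_tl w1 v1 h x hx
    refine Fib_valid w1 v1 h x _ hx (F.hπ _ ht) ?_
    rw [F.π0 _ ht]
    simp [tlN]
  π0 := by
    intro x hx
    have ht := Fib_tl w1 v1 h x hx
    refine Fib_csN_head _ x _ ?_
    rw [F.π0 _ ht]
    simp [tlN]
  hs := by
    intro x hx
    have ht := Fib_tl w1 v1 h x hx
    refine Fib_valid w1 v1 h x _ hx (F.hs _ ht) ?_
    rw [F.s0 _ ht]
    simp [tlN]
  s0 := by
    intro x hx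
    have ht := Fib_tl w1 v1 h x hx
    refine Fib_csN_head _ x _ ?_
    rw [F.s0 _ ht]
    simp [tlN]
  πs := by
    intro y hy
    have ht := Fib_tl w1 v1 h y hy
    rw [upN_apply, upN_apply, Fib_tlN_csN, Fib_csN_csN, F.πs _ ht, Fib_csN_tlN]
  hc := by
    refine Fib_valid (w' := w') (v' := v') w1 v1 h 0 _ Valid.zero F.hc ?_
    rw [F.c0]; rfl
  c0 := Fib_csN_head _ 0 _ F.c0
  πc := by
    rw [upN_apply, Fib_tlN_csN, Fib_csN_csN, F.πc]
    funext t
    simp [csN]
  fib := by
    intro x hx
    have ht := Fib_tl w1 v1 h x hx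
    have e : upN w1.length F.s (upN w1.length F.π x) =
        csN w1.length x (F.s (F.π (tlN w1.length x))) := by
      rw [upN_apply, upN_apply, Fib_tlN_csN, Fib_csN_csN]
    rw [e]
    rcases F.fib _ ht with h1 | h1
    · left
      rw [← h1, Fib_csN_tlN]
    · right
      rw [Fib_csN_add, add_zero, ← h1, Fib_csN_tlN]
  ck := by
    rcases F.ck with ⟨h1, h2⟩ | ⟨h1, h2⟩
    · left
      refine ⟨?_, h2⟩
      rw [h1]
      funext t
      simp [csN]
    · right
      refine ⟨fun h3 => h1 ?_, h2⟩
      have h4 := Fib_tlN_csN w1.length 0 F.c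
      rw [h3] at h4
      exact h4.symm

theorem Fib.mapsK {w' w : Word N} {v' v : List Bool} {k : ℕ} (F : Fib w' v' w v k) :
    ∀ x ∈ K w' v', F.π x ∈ K w v := by
  rintro x ⟨h1, h2⟩
  exact ⟨by rw [F.π0 x h2]; exact h1, F.hπ x h2⟩

theorem Fib.mapsK' {w' w : Word N} {v' v : List Bool} {k : ℕ} (F : Fib w' v' w v k) :
    ∀ y ∈ K w v, F.s y ∈ K w' v' := by
  rintro x ⟨h1, h2⟩
  exact ⟨by rw [F.s0 x h2]; exact h1, F.hs x h2⟩

theorem Fib.cK {w' w : Word N} {v' v : List Bool} {k : ℕ} (F : Fib w' v' w v k) :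
    F.c ∈ K w' v' := ⟨by rw [F.c0]; exact Sym.zero, F.hc⟩

/-- PROOF. If `c = 0`, `k = 0`: `π` and `s` restrict to inverse linear maps between `K w' v'` and `K w v` (`fib` gives `x = s (π x)`), so the dimensions agree (`LinearEquiv.finrank_eq`). If `c ≠ 0`, `k = 1`: the linear map `K w v × ZMod 2 → K w' v'`, `(y, a) ↦ s y + a • c`, is bijective: injective, because `π (s y + a • c) = y` and `c ≠ 0`; surjective by `fib`. `finrank (K × ZMod 2) = finrank K + 1`. -/
theorem Fib.dim {w' w : Word N} {v' v : List Bool} {k : ℕ} (F : Fib w' v' w v k) :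
    dimK w' v' = dimK w v + k := by
  unfold dimK
  rcases F.ck with ⟨hc, rfl⟩ | ⟨hc, rfl⟩
  · rw [add_zero]
    refine LinearEquiv.finrank_eq (LinearEquiv.ofLinearMap (F.π.restrict F.mapsK)
      (F.s.restrict F.mapsK') ?_ ?_)
    · apply LinearMap.ext
      intro y
      apply Subtype.ext
      exact F.πs y.1 y.2.2
    · apply LinearMap.ext
      intro x
      apply Subtype.ext
      have h := F.fib x.1 x.2.2
      rw [hc, add_zero, or_self] at h
      exact h.symm
  · let c' : K w' v' := ⟨F.c, F.cK⟩
    let L : (K w v × ZMod 2) →ₗ[ZMod 2] K w' v' :=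
      (F.s.restrict F.mapsK').coprod (LinearMap.toSpanSingleton (ZMod 2) (K w' v') c')
    have hL : ∀ y : K w v × ZMod 2, ((L y : K w' v') : Col N) = F.s y.1.1 + y.2 • F.c := by
      intro y
      simp [L, c', LinearMap.coprod_apply]
    have hb : Function.Bijective L := by
      constructor
      · rw [← LinearMap.ker_eq_bot, LinearMap.ker_eq_bot']
        intro y hy
        have h1 : F.s y.1.1 + y.2 • F.c = 0 := by
          rw [← hL, hy]; rfl
        have h2 : F.π (F.s y.1.1 + y.2 • F.c) = y.1.1 := by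
          rw [map_add, map_smul, F.πc, smul_zero, add_zero, F.πs _ y.1.2.2]
        rw [h1, map_zero] at h2
        have h3 : y.1 = 0 := Subtype.ext h2.symm
        rw [h3] at h1
        have h4 : y.2 • F.c = 0 := by
          have : F.s ((0 : K w v) : Col N) = 0 := map_zero F.s
          rwa [this, zero_add] at h1
        have h5 : y.2 = 0 := by
          rcases smul_eq_zero.1 h4 with h | h
          · exact h
          · exact absurd h hc
        exact Prod.ext h3 h5
      · intro x
        rcases F.fib x.1 x.2.2 with h | h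
        · refine ⟨(⟨F.π x.1, F.mapsK _ x.2⟩, 0), Subtype.ext ?_⟩
          rw [hL, zero_smul, add_zero]
          exact h.symm
        · refine ⟨(⟨F.π x.1, F.mapsK _ x.2⟩, 1), Subtype.ext ?_⟩
          rw [hL, one_smul]
          exact h.symm
    have h1 := (LinearEquiv.ofBijective L hb).finrank_eq
    rw [← h1, Module.finrank_prod, Module.finrank_self]

/-- pull back along a fibration -/
theorem D.pull {w' w : Word N} {v' v : List Bool} {k : ℕ} (F : Fib w' v' w v k) {A : ℤ}
    {f : Col N → ZMod 2} (hf : D (K w v) A f) : D (K w' v') A (fun x => f (F.π x)) :=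
  hf.comp' F.π F.mapsK

/-- sum over the fibres of a fibration -/
theorem D.push {w' w : Word N} {v' v : List Bool} {k : ℕ} (F : Fib w' v' w v k) {A : ℤ}
    {f : Col N → ZMod 2} (hf : D (K w' v') A f) :
    D (K w v) (A - 2) (fun y => f (F.s y + F.c) + f (F.s y)) := by
  have h := (D.diff F.cK hf).comp' F.s F.mapsK'
  exact h

end Pool.Agent.HK
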