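import Pool.Agent.H.MP_cd3d06_an.K.Deg

/-!
Part A: maps between complexes, lifting over letters added at the bottom.
-/

namespace Pool.Agent.HK

variable {N : ℕ}

/-- Lift of a map of cochains over one more letter at the bottom. -/
def lft (φ : Coch N → Coch N) : Coch N → Coch N := fun g v x =>
  match v with
  | [] => 0
  | e :: v => φ (fun v' y => g (e :: v') (cs (x 0) y)) v (tl x)

def lftN : ℕ → (Coch N → Coch N) → (Coch N → Coch N)
  | 0, φ => φ
  | k + 1, φ => lft (lftN k φ)

/-- rows `x 0, ..., x (k-1)` followed by the rows of `y` -/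
def csN (k : ℕ) (x y : Col N) : Col N := fun t => if t < k then x t else y (t - k)

def tlN (k : ℕ) (x : Col N) : Col N := fun t => x (t + k)

structure IsMap (w w' : Word N) (φ : Coch N → Coch N) : Prop where
  add : ∀ (g g' : Coch N) (v : List Bool) (x : Col N), v.length = w'.length → Valid w' v x →
    φ (fun v y => g v y + g' v y) v x = φ g v x + φ g' v x
  loc : ∀ (g g' : Coch N) (v : List Bool) (x : Col N), v.length = w'.length → Valid w' v x →
    (∀ v' y, v'.length = w.length → Valid w v' y → y 0 = x 0 → g v' y = g' v' y) →
    φ g v x = φ g' v x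
  chain : ∀ (g : Coch N) (v : List Bool) (x : Col N), v.length = w'.length → Valid w' v x →
    dd w' (φ g) v x = φ (dd w g) v x

def SoMap (w w' : Word N) (r : Row N) (φ : Coch N → Coch N) : Prop :=
  ∃ z : Coch N, (∀ v y, y 0 ≠ r → z v y = 0) ∧ ∀ v x, v.length = w'.length → Valid w' v x →
    φ (so w r) v x = so w' r v x + dd w' z v x

def LevMap (c : ℤ) (w w' : Word N) (r : Row N) (φ : Coch N → Coch N) : Prop :=
  ∀ (w1 : Word N) (r0 : Row N), fin w1 r0 = r → ∀ (l : ℤ) (g : Coch N),
    Lev (w1 ++ w) r0 l g → Lev (w1 ++ w') r0 (l - c) (lftN w1.length φ g)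

theorem dd_add (w : Word N) (g g' : Coch N) (v : List Bool) (x : Col N) :
    dd w (fun v y => g v y + g' v y) v x = dd w g v x + dd w g' v x := by
  induction w generalizing g g' v x with
  | nil => simp [dd]
  | cons l w ih =>
    cases v with
    | nil => simp [dd]
    | cons e v =>
      simp only [dd]
      rw [ih]
      split_ifs <;> ring

/-- the differential only depends on the values at valid pairs with the same bottom row -/
theorem dd_loc {w : Word N} {g g' : Coch N} {v : List Bool} {x : Col N} (hv : v.length = w.length)
    (hx : Valid w v x)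
    (h : ∀ v' y, v'.length = w.length → Valid w v' y → y 0 = x 0 → g v' y = g' v' y) :
    dd w g v x = dd w g' v x := by
  induction w generalizing g g' v x with
  | nil => simp [dd]
  | cons l w ih =>
    cases v with
    | nil => simp at hv
    | cons e v =>
      simp only [dd]
      have hv' : v.length = w.length := by simpa using hv
      congr 1
      · split_ifs with h1
        · exact h _ _ (by simpa using hv) ⟨h1.2, hx.2⟩ rfl
        · rfl
      · apply ih hv' hx.2
        intro v' y hv'' hy hy0
        apply h (e :: v') (cs (x 0) y) (by simpa using hv'')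
        · refine ⟨?_, hy⟩
          simp only [cs_zero, cs_succ, hy0]
          exact hx.1
        · rfl

theorem Maps_so_bottom {w : Word N} {r : Row N} {v : List Bool} {x : Col N}
    (h : so w r v x ≠ 0) : x 0 = r := by
  classical
  cases w with
  | nil =>
    by_contra hn
    exact h (by simp [so, hn])
  | cons l w =>
    cases v with
    | nil => exact absurd rfl h
    | cons e v =>
      by_contra hn
      exact h (by simp [so, hn])

/-- two valid states of a letter at the same place are impossible for the canonical colouring -/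
theorem Maps_no_both {l : Letter N} {r a b : Row N} (ha : a = r) (hb : b = nxt l r)
    (h1 : Rel l.p l.q (!l.pos) a b) (h2 : Rel l.p l.q l.pos a b) : False := by
  have hab : a = b := by
    cases hl : l.pos with
    | false => rw [hl] at h2; exact h2
    | true => rw [hl] at h1; exact h1
  have hpq : a l.p = a l.q := by
    cases hl : l.pos with
    | false => rw [hl] at h1; exact h1.1
    | true => rw [hl] at h2; exact h2.1
  have h3 : r l.p = r l.q := by rw [← ha]; exact hpq
  have h4 : r = flip l.p l.q r := by
    rw [ha, hb] at hab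
    rw [nxt, if_pos h3] at hab
    exact hab
  have h5 := congrFun h4 l.p
  simp [flip] at h5

theorem Maps_dd_zero (w : Word N) (v : List Bool) (x : Col N) :
    dd w (fun _ _ => (0 : ZMod 2)) v x = 0 := by
  induction w generalizing v x with
  | nil => simp [dd]
  | cons l w ih =>
    cases v with
    | nil => simp [dd]
    | cons e v =>
      simp only [dd]
      rw [ih]
      simp

theorem Maps_map_zero {w w' : Word N} {φ : Coch N → Coch N} (h : IsMap w w' φ) {v : List Bool}
    {x : Col N} (hv : v.length = w'.length) (hx : Valid w' v x) :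
    φ (fun _ _ => (0 : ZMod 2)) v x = 0 := by
  have h1 := h.add (fun _ _ => (0 : ZMod 2)) (fun _ _ => (0 : ZMod 2)) v x hv hx
  simp only [add_zero] at h1
  have h2 : φ (fun _ _ => (0 : ZMod 2)) v x + φ (fun _ _ => (0 : ZMod 2)) v x = 0 :=
    CharTwo.add_self_eq_zero _
  rw [h1]; exact h2

/-- the canonical generator is a cycle
PROOF. Induction on `w` generalizing `r v x`. For `l :: w`, `e :: v`: the second summand is `dd w (if x 0 = r ∧ e = eo l r then so w (nxt l r) else 0) v (tl x)` (unfold `so` at `cs (x 0) y`; `tl (cs a y) = y`), so it is 0 by the induction hypothesis. The first summand: suppose `e = !l.pos`, `Rel l.p l.q l.pos (x 0) (x 1)` and `so (l :: w) r (l.pos :: v) x ≠ 0`; then `x 0 = r`, `l.pos = eo l r`, and `x 1 = nxt l r` (a nonzero value of `so w r' _ (tl x)` forces `(tl x) 0 = r'`, small lemma by cases on `w`). Also `Rel l.p l.q (!l.pos) (x 0) (x 1)` as `x` is valid. So both relations hold: `x 0 = x 1` and `x 0 p = x 0 q`. If `eo l r = true` then `r p = r q` and `nxt l r = flip r ≠ r`, contradiction with `x 0 = x 1`. If `eo l r = false` then `r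 p ≠ r q`, contradiction. -/
theorem dd_so {w : Word N} {r : Row N} {v : List Bool} {x : Col N} (hv : v.length = w.length)
    (hx : Valid w v x) : dd w (so w r) v x = 0 := by
  classical
  induction w generalizing r v x with
  | nil => simp [dd]
  | cons l w ih =>
    cases v with
    | nil => simp at hv
    | cons e v =>
      have hv' : v.length = w.length := by simpa using hv
      simp only [dd]
      have h2 : dd w (fun v' y => so (l :: w) r (e :: v') (cs (x 0) y)) v (tl x) = 0 := by
        by_cases hc : x 0 = r ∧ e = eo l r
        · have : (fun v' y => so (l :: w) r (e :: v') (cs (x 0) y)) = so w (nxt l r) := by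
            funext v' y
            simp only [so, cs_zero, tl_cs]
            rw [if_pos hc]
          rw [this]
          exact ih hv' hx.2
        · have : (fun v' y => so (l :: w) r (e :: v') (cs (x 0) y)) =
              fun _ _ => (0 : ZMod 2) := by
            funext v' y
            simp only [so, cs_zero, tl_cs]
            rw [if_neg hc]
          rw [this]
          exact Maps_dd_zero w v (tl x)
      rw [h2, add_zero]
      split_ifs with h1
      · by_contra hn
        simp only [so] at hn
        split_ifs at hn with h3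
        · have h4 := Maps_so_bottom hn
          have h5 := hx.1
          rw [h1.1] at h5
          exact Maps_no_both h3.1 h4 h5 h1.2
        · exact hn rfl
      · rfl

/-- PROOF. `add`, `loc`: apply the property of `φ` at `(v, tl x)`; in `loc`, for `v', y` valid with `y 0 = (tl x) 0 = x 1`, the colouring `cs (x 0) y` is valid for `l :: w`, `e :: v'` (the relation only involves `x 0` and `y 0 = x 1`). `chain` at `(e :: v, x)`: LHS `= [e = !l.pos ∧ Rel (x 0) (x 1)] φ G_s v (tl x) + dd w' (fun v' y => φ G_e v' y) v (tl x)` where `G_b = fun v' y => g (b :: v') (cs (x 0) y)` and `s = l.pos`; (for the second summand note `lft φ g (e :: v') (cs (x 0) y) = φ G_e v' y` definitionally). By `chain` of `φ` the second summand is `φ (dd w G_e) v (tl x)`. RHS `= φ (fun v' y => dd (l :: w) g (e :: v') (cs (x 0) y)) v (tl x)` and the inner function is `[e = !l.pos ∧ Rel (x 0) (y 0)] G_s v' y + dd w G_e v' y`; by `loc` one may replace `y 0` by `x 1`; then use `add`, and if the condition fails that the zero function is mapped to 0 (from `add` with `g = g' = 0` in characteristic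 2). -/
theorem IsMap.lft {w w' : Word N} {φ : Coch N → Coch N} (h : IsMap w w' φ) (l : Letter N) :
    IsMap (l :: w) (l :: w') (lft φ) := by
  classical
  constructor
  · intro g g' v x hv hx
    cases v with
    | nil => simp at hv
    | cons e v =>
      exact h.add (fun v' y => g (e :: v') (cs (x 0) y)) (fun v' y => g' (e :: v') (cs (x 0) y))
        v (tl x) (by simpa using hv) hx.2
  · intro g g' v x hv hx hg
    cases v with
    | nil => simp at hv
    | cons e v =>
      refine h.loc (fun v' y => g (e :: v') (cs (x 0) y)) (fun v' y => g' (e :: v') (cs (x 0) y))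
        v (tl x) (by simpa using hv) hx.2 ?_
      intro v' y hv' hy hy0
      refine hg (e :: v') (cs (x 0) y) (by simpa using hv') ⟨?_, hy⟩ rfl
      simp only [cs_zero, cs_succ, hy0]
      exact hx.1
  · intro g v x hv hx
    cases v with
    | nil => simp at hv
    | cons e v =>
      have hv' : v.length = w'.length := by simpa using hv
      have hR : Pool.Agent.HK.lft φ (dd (l :: w) g) (e :: v) x =
          φ (fun v' y => (if e = !l.pos ∧ Rel l.p l.q l.pos (x 0) (x 1) then
            g (l.pos :: v') (cs (x 0) y) else 0) +
            dd w (fun v'' z => g (e :: v'') (cs (x 0) z)) v' y) v (tl x) := by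
        refine h.loc _ _ v (tl x) hv' hx.2 ?_
        intro v' y _ _ hy0
        simp only [tl_apply, zero_add] at hy0
        simp only [dd, cs_zero, tl_cs]
        have : cs (x 0) y 1 = x 1 := by rw [← hy0]; rfl
        rw [this]
        split_ifs <;> rfl
      rw [hR, h.add _ _ v (tl x) hv' hx.2, ← h.chain _ v (tl x) hv' hx.2]
      have hL : dd (l :: w') (Pool.Agent.HK.lft φ g) (e :: v) x =
          (if e = !l.pos ∧ Rel l.p l.q l.pos (x 0) (x 1) then
            φ (fun v' y => g (l.pos :: v') (cs (x 0) y)) v (tl x) else 0) +
          dd w' (φ (fun v'' z => g (e :: v'') (cs (x 0) z))) v (tl x) := by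
        rfl
      rw [hL]
      congr 1
      by_cases hc : e = !l.pos ∧ Rel l.p l.q l.pos (x 0) (x 1)
      · rw [if_pos hc]
        congr 1
        funext v' y
        rw [if_pos hc]
      · rw [if_neg hc]
        have : (fun (v' : List Bool) (y : Col N) =>
            if e = !l.pos ∧ Rel l.p l.q l.pos (x 0) (x 1) then
            g (l.pos :: v') (cs (x 0) y) else 0) = fun _ _ => (0 : ZMod 2) := by
          funext v' y
          rw [if_neg hc]
        rw [this, Maps_map_zero h hv' hx.2]

/-- PROOF. Let `z` be as in `h`. Put `z' [] = 0`, `z' (e :: v) x = if x 0 = r ∧ e = eo l r then z v (tl x) else 0`. It vanishes for `x 0 ≠ r`. At `(e :: v, x)` valid for `l :: w'`: `lft φ (so (l :: w) r) (e :: v) x = φ (fun v' y => if x 0 = r ∧ e = eo l r then so w r1 v' y else 0) v (tl x)`, `r1 = nxt l r`, and by `h` (or `φ 0 = 0`) this is `[cond] (so w' r1 v (tl x) + dd w' z v (tl x))`. `dd (l :: w') z' (e :: v) x = [e = !l.pos ∧ Rel l.pos (x 0) (x 1)] z' (l.pos :: v) x + dd w' (fun v' y => z' (e :: v') (cs (x 0) y)) v (tl x)`; the second summand is `[cond] dd w' z v (tl x)`.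 The first one vanishes: otherwise `x 0 = r`, `l.pos = eo l r`, `z v (tl x) ≠ 0`, so `x 1 = r1`; and `Rel` holds for both states, so `x 0 = x 1` and `x 0 p = x 0 q`: contradiction as in `dd_so`. -/
theorem SoMap.lft {w w' : Word N} {r : Row N} {φ : Coch N → Coch N} (hm : IsMap w w' φ)
    (l : Letter N) (h : SoMap w w' (nxt l r) φ) : SoMap (l :: w) (l :: w') r (lft φ) := by
  classical
  obtain ⟨z, hz0, hz⟩ := h
  refine ⟨fun v x => match v with
    | [] => 0
    | e :: v => if x 0 = r ∧ e = eo l r then z v (tl x) else 0, ?_, ?_⟩
  · intro v y hy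
    cases v with
    | nil => rfl
    | cons e v => exact if_neg (fun hc => hy hc.1)
  · intro v x hv hx
    cases v with
    | nil => simp at hv
    | cons e v =>
      have hv' : v.length = w'.length := by simpa using hv
      have hL : Pool.Agent.HK.lft φ (so (l :: w) r) (e :: v) x =
          φ (fun v' y => if x 0 = r ∧ e = eo l r then so w (nxt l r) v' y else 0) v (tl x) := rfl
      rw [hL]
      have hD : ∀ ζ : Coch N, dd (l :: w') ζ (e :: v) x =
          (if e = !l.pos ∧ Rel l.p l.q l.pos (x 0) (x 1) then ζ (l.pos :: v) x else 0) +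
          dd w' (fun v' y => ζ (e :: v') (cs (x 0) y)) v (tl x) := fun ζ => by
        simp only [dd]
      rw [hD]
      have h0 : (if e = !l.pos ∧ Rel l.p l.q l.pos (x 0) (x 1) then
          (if x 0 = r ∧ l.pos = eo l r then z v (tl x) else 0) else (0 : ZMod 2)) = 0 := by
        split_ifs with h1 h2
        · by_contra hn
          have h4 : (tl x) 0 = nxt l r := by
            by_contra hne
            exact hn (hz0 _ _ hne)
          have h5 := hx.1
          rw [h1.1] at h5
          exact Maps_no_both h2.1 h4 h5 h1.2
        · rfl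
        · rfl
      simp only [h0, zero_add]
      have hS : so (l :: w') r (e :: v) x =
          if x 0 = r ∧ e = eo l r then so w' (nxt l r) v (tl x) else 0 := by
        simp only [so]
      rw [hS]
      by_cases hc : x 0 = r ∧ e = eo l r
      · have e1 : (fun (v' : List Bool) (y : Col N) =>
            if x 0 = r ∧ e = eo l r then so w (nxt l r) v' y else 0) = so w (nxt l r) := by
          funext v' y
          rw [if_pos hc]
        have e2 : (fun (v' : List Bool) (y : Col N) =>
            if (cs (x 0) y) 0 = r ∧ e = eo l r then z v' (tl (cs (x 0) y)) else 0) = z := by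
          funext v' y
          rw [cs_zero, tl_cs, if_pos hc]
        rw [e1, e2, if_pos hc]
        exact hz v (tl x) hv' hx.2
      · have e1 : (fun (v' : List Bool) (y : Col N) =>
            if x 0 = r ∧ e = eo l r then so w (nxt l r) v' y else 0) =
            fun _ _ => (0 : ZMod 2) := by
          funext v' y
          rw [if_neg hc]
        have e2 : (fun (v' : List Bool) (y : Col N) =>
            if (cs (x 0) y) 0 = r ∧ e = eo l r then z v' (tl (cs (x 0) y)) else 0) =
            fun _ _ => (0 : ZMod 2) := by
          funext v' y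
          rw [cs_zero, if_neg hc]
        rw [e1, e2, if_neg hc, Maps_map_zero hm hv' hx.2, Maps_dd_zero, add_zero]

/-- a map of the closed complexes (used for moves at the bottom, which use the closing condition) -/
structure IsMapK (w w' : Word N) (φ : Coch N → Coch N) : Prop where
  add : ∀ (g g' : Coch N) (v : List Bool) (x : Col N), v.length = w'.length → x ∈ K w' v →
    φ (fun v y => g v y + g' v y) v x = φ g v x + φ g' v x
  loc : ∀ (g g' : Coch N) (v : List Bool) (x : Col N), v.length = w'.length → x ∈ K w' v →
    (∀ v' y, v'.length = w.length → y ∈ K w v' → g v' y = g' v' y) → φ g v x = φ g' v x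
  chain : ∀ (g : Coch N) (v : List Bool) (x : Col N), v.length = w'.length → x ∈ K w' v →
    dd w' (φ g) v x = φ (dd w g) v x

theorem IsMap.toK {w w' : Word N} {φ : Coch N → Coch N} (h : IsMap w w' φ) : IsMapK w w' φ where
  add g g' v x hv hx := h.add g g' v x hv hx.2
  loc g g' v x hv hx hg := h.loc g g' v x hv hx.2
    (fun v' y h1 h2 h3 => hg v' y h1 ⟨by rw [h3]; exact hx.1, h2⟩)
  chain g v x hv hx := h.chain g v x hv hx.2

/-- PROOF. Let `Lev w r l (so + dd y)`. Take `y' = z + φ y`. For `x ∈ K w' v`: `φ (so w r + dd w y) v x = φ (so w r) v x + φ (dd w y) v x` (`add`) `= so w' r' v x + dd w' z v x + dd w' (φ y) v x` (`hs`, `chain`) `= so w' r' v x + dd w' y' v x` (`dd_add`). `hl` gives the level of the left hand side; conclude with `DegLT.congr` (import the file Deg; see there) for each `v`. -/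
theorem Good.of_bottom {w w' : Word N} {r r' : Row N} {φ : Coch N → Coch N} {l c : ℤ}
    (hm : IsMapK w w' φ) (hs : ∃ z : Coch N, ∀ v x, v.length = w'.length → x ∈ K w' v →
      φ (so w r) v x = so w' r' v x + dd w' z v x)
    (hl : ∀ g, Lev w r l g → Lev w' r' (l - c) (φ g)) (h : Good w r l) : Good w' r' (l - c) := by
  obtain ⟨y, hy⟩ := h
  obtain ⟨z, hz⟩ := hs
  refine ⟨fun v x => z v x + φ y v x, ?_⟩
  have h1 := hl _ hy
  intro v hv e he
  refine DegLT.congr ?_ (h1 v hv e he)
  intro x hx
  rw [hm.add (so w r) (dd w y) v x hv hx, hz v x hv hx, ← hm.chain y v x hv hx]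
  simp only [dd_add]
  ring

/-- PROOF. By induction on `w1` (generalizing `r0`) `lftN w1.length φ` is a map `IsMap (w1 ++ w) (w1 ++ w')` and `SoMap (w1 ++ w) (w1 ++ w') r0` (`IsMap.lft`, `SoMap.lft`; `fin (l :: w1) r0 = fin w1 (nxt l r0)` definitionally). Then `Good.of_bottom` with `IsMap.toK` and `hl w1 r0 hr l`; the `z` of `SoMap` works for all `x ∈ K`. -/
theorem Good.of_map {w w' : Word N} {r : Row N} {φ : Coch N → Coch N} {c : ℤ} (hm : IsMap w w' φ)
    (hs : SoMap w w' r φ) (hl : LevMap c w w' r φ) (w1 : Word N) (r0 : Row N)
    (hr : fin w1 r0 = r) (l : ℤ) (h : Good (w1 ++ w) r0 l) : Good (w1 ++ w') r0 (l - c) := by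
  have key : ∀ (w1 : Word N) (r0 : Row N), fin w1 r0 = r →
      IsMap (w1 ++ w) (w1 ++ w') (lftN w1.length φ) ∧
      SoMap (w1 ++ w) (w1 ++ w') r0 (lftN w1.length φ) := by
    intro w1
    induction w1 with
    | nil =>
      intro r0 h0
      simp only [fin] at h0
      subst h0
      exact ⟨hm, hs⟩
    | cons a w1 ih =>
      intro r0 h0
      have h2 := ih (nxt a r0) h0
      exact ⟨h2.1.lft a, SoMap.lft h2.1 a h2.2⟩
  obtain ⟨k1, k2⟩ := key w1 r0 hr
  obtain ⟨z, _, hz⟩ := k2
  exact Good.of_bottom k1.toK ⟨z, fun v x hv hx => hz v x hv hx.2⟩ (hl w1 r0 hr l) h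

/-- PROOF. Induction on `k`, `v1 = e :: v1'`: `lft (lftN k φ) g (e :: (v1' ++ v)) x = lftN k φ (fun v' y => g (e :: v') (cs (x 0) y)) (v1' ++ v) (tl x) = φ (fun v' y => g (e :: (v1' ++ v')) (cs (x 0) (csN k (tl x) y))) v (tlN k (tl x))` and `cs (x 0) (csN k (tl x) y) = csN (k+1) x y`, `tlN k (tl x) = tlN (k+1) x` by `funext` (cases of the index, `omega`). -/
theorem lftN_apply (k : ℕ) (φ : Coch N → Coch N) (g : Coch N) (v1 v : List Bool)
    (hk : v1.length = k) (x : Col N) :
    lftN k φ g (v1 ++ v) x = φ (fun v' y => g (v1 ++ v') (csN k x y)) v (tlN k x) := by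
  induction k generalizing g v1 x with
  | zero =>
    have h1 : v1 = [] := List.eq_nil_of_length_eq_zero hk
    subst h1
    have h2 : tlN 0 x = x := by funext t; rfl
    have h3 : (fun (v' : List Bool) (y : Col N) => g ([] ++ v') (csN 0 x y)) = g := by
      funext v' y
      rfl
    rw [h2, h3]
    rfl
  | succ k ih =>
    cases v1 with
    | nil => simp at hk
    | cons e v1 =>
      have hk' : v1.length = k := by simpa using hk
      have h1 : lftN (k + 1) φ g (e :: v1 ++ v) x =
          lftN k φ (fun v' y => g (e :: v') (cs (x 0) y)) (v1 ++ v) (tl x) := rfl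
      rw [h1, ih _ v1 hk' (tl x)]
      have h2 : tlN k (tl x) = tlN (k + 1) x := by
        funext t
        simp only [tlN, tl]
        rw [show t + k + 1 = t + (k + 1) by omega]
      rw [h2]
      congr 1
      funext v' y
      have h3 : cs (x 0) (csN k (tl x) y) = csN (k + 1) x y := by
        funext t
        cases t with
        | zero => simp [csN]
        | succ t =>
          simp only [cs_succ, csN, tl]
          by_cases ht : t < k
          · rw [if_pos ht, if_pos (by omega)]
          · rw [if_neg ht, if_neg (by omega)]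
            rw [show t + 1 - (k + 1) = t - k by omega]
      rw [h3]
      rfl

end Pool.Agent.HK
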