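import Pool.Agent.H.MP_cd3d06_an.K.Deg
import Pool.Agent.H.MP_cd3d06_an.K.Maps

/-!
Part A: the spaces of colourings are finite dimensional.
-/

namespace Pool.Agent.HK

variable {N : ℕ}

theorem FinK_const {w : Word N} {v : List Bool} {x : Col N}
    (hx : Valid w v x) (t : ℕ) (ht : w.length ≤ t) : x t = x w.length := by
  induction w generalizing v x t with
  | nil =>
    have hx' : Sym (x 0) ∧ ∀ t, x (t + 1) = x 0 := hx
    cases t with
    | zero => rfl
    | succ t => exact hx'.2 t
  | cons l w ih =>
    cases v with
    | nil =>
      have hx' : x = 0 := hx
      rw [hx']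
      rfl
    | cons e v =>
      have hx' : Rel l.p l.q e (x 0) (x 1) ∧ Valid w v (tl x) := hx
      cases t with
      | zero => simp at ht
      | succ t =>
        have h1 := ih hx'.2 t (by simpa using ht)
        simpa using h1

/-- PROOF. Induction on `w` generalizing `v x t`. `[]`: `x t = x 0` for all `t` (from
`∀ t, x (t+1) = x 0`, case `t = 0` trivial). `l :: w`, `e :: v`: apply the induction hypothesis to
`tl x` and `t - 1`. -/
theorem valid_const {w : Word N} {v : List Bool} {x : Col N} (hv : v.length = w.length)
    (hx : Valid w v x) (t : ℕ) (ht : w.length ≤ t) : x t = x w.length :=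
  FinK_const hx t ht

/-- PROOF. If `v.length = w.length`, the linear map `K w v → (Fin (w.length + 1) → Row N)`,
`x ↦ (x 0, ..., x w.length)` is injective by `valid_const`; the target is finite
(`Module.Finite.of_injective`, the base ring is a field). In general (other lengths) prove by
induction on `w` that every valid `x` satisfies `x t = x (w.length)` for `t ≥ w.length` (if `v` is too
short then `x = 0` from some row on; if `v` is too long the rest is ignored), so the same map is
injective. -/
instance finite_K (w : Word N) (v : List Bool) : Module.Finite (ZMod 2) (K w v) := by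
  let F : K w v →ₗ[ZMod 2] (Fin (w.length + 1) → Row N) :=
    { toFun := fun x i => x.1 i
      map_add' := fun _ _ => rfl
      map_smul' := fun _ _ => rfl }
  refine Module.Finite.of_injective F ?_
  intro x y hxy
  apply Subtype.ext
  funext t
  have hF : ∀ i : Fin (w.length + 1), x.1 i = y.1 i := fun i => congrFun hxy i
  by_cases ht : t ≤ w.length
  · exact hF ⟨t, by omega⟩
  · rw [FinK_const x.2.2 t (by omega), FinK_const y.2.2 t (by omega)]
    exact hF ⟨w.length, by omega⟩

end Pool.Agent.HK
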