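import Mathlib

/-!
MP_cd3d06_an: the interface between the parts.

`Pts ζ` is a set of `2n` typed points of the plane, type `1` for the points `S z`, `H z = ζ`
(C-points), type `0` for the points `- conj (S z)`, `H z = conj ζ` (tau-points).
Theorem F is stated for an abstract family `Pts`.
-/

namespace Pool.Agent.HK

open Polynomial Complex Set Metric
open scoped ComplexConjugate

/-- typed points -/
abbrev TP := ℂ × ZMod 2

/-- the mirror image `(σ, t) ↦ (-conj σ, t + 1)` -/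
def mir (a : TP) : TP := (-conj a.1, a.2 + 1)

/-- near `ζ0` the family consists of `2n` different continuous typed sections -/
def IsRegPt (n : ℕ) (Pts : ℂ → Set TP) (ζ0 : ℂ) : Prop :=
  ∃ (δ : ℝ) (s : Fin (2 * n) → ℂ → ℂ) (ty : Fin (2 * n) → ZMod 2), 0 < δ ∧
    (∀ i, ContinuousOn (s i) (ball ζ0 δ)) ∧
    ∀ ζ ∈ ball ζ0 δ, Function.Injective (fun i => s i ζ) ∧ Pts ζ = range (fun i => (s i ζ, ty i))

/-- The point `ζ0 + ρ exp (i φ)`. -/
noncomputable def pol (ζ0 : ℂ) (ρ φ : ℝ) : ℂ := ζ0 + ρ * Complex.exp (φ * Complex.I)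

/-- Local model at a special parameter `ζ0`, in polar coordinates `ζ = ζ0 + ρ exp (i φ)`, `φ : ℝ`
(universal cover of the punctured disc): continuous sections `s i ρ φ`, which tend to `S0 i` for
`ρ → 0`; the only coincidences of the limits are the pairs `x a, y a`; `θ a` is a continuous argument
of `s (y a) - s (x a)`, and it grows by `k a * π` along a full turn. -/
structure LMod (n : ℕ) (Pts : ℂ → Set TP) (ζ0 : ℂ) where
  δ : ℝ
  hδ : 0 < δ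
  s : Fin (2 * n) → ℝ → ℝ → ℂ
  ty : Fin (2 * n) → ZMod 2
  S0 : Fin (2 * n) → ℂ
  np : ℕ
  x : Fin np → Fin (2 * n)
  y : Fin np → Fin (2 * n)
  k : Fin np → ℕ
  θ : Fin np → ℝ → ℝ → ℝ
  cont : ∀ i, ContinuousOn (fun u : ℝ × ℝ => s i u.1 u.2) (Ioo 0 δ ×ˢ univ)
  inj : ∀ ρ ∈ Ioo 0 δ, ∀ φ : ℝ, Function.Injective (fun i => s i ρ φ)
  pts : ∀ ρ ∈ Ioo 0 δ, ∀ φ : ℝ, Pts (pol ζ0 ρ φ) = range (fun i => (s i ρ φ, ty i))
  lim : ∀ ε > 0, ∃ δ' > 0, ∀ ρ ∈ Ioo 0 δ', ρ < δ → ∀ φ : ℝ, ∀ i, dist (s i ρ φ) (S0 i) < ε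
  xinj : Function.Injective x
  yinj : Function.Injective y
  xy : ∀ a b, x a ≠ y b
  S0xy : ∀ a, S0 (x a) = S0 (y a)
  S0inj : ∀ i j, S0 i = S0 j → i = j ∨ ∃ a, (i = x a ∧ j = y a) ∨ (i = y a ∧ j = x a)
  θcont : ∀ a, ContinuousOn (fun u : ℝ × ℝ => θ a u.1 u.2) (Ioo 0 δ ×ˢ univ)
  θarg : ∀ a, ∀ ρ ∈ Ioo 0 δ, ∀ φ : ℝ,
    s (y a) ρ φ - s (x a) ρ φ =
      (‖s (y a) ρ φ - s (x a) ρ φ‖ : ℂ) * Complex.exp (θ a ρ φ * Complex.I)
  θper : ∀ a, ∀ ρ ∈ Ioo 0 δ, ∀ φ : ℝ, θ a ρ (φ + 2 * Real.pi) = θ a ρ φ + k a * Real.pi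

/-- Local model at a special parameter in the open upper half plane: `EE` bounds the sum of the
orders of the same type pairs, `BB` the number of pairs of odd order; opposite type pairs have even
order. -/
def IsSpecial (n : ℕ) (Pts : ℂ → Set TP) (ζ0 : ℂ) (EE BB : ℕ) : Prop :=
  ∃ L : LMod n Pts ζ0,
    (∀ a, L.ty (L.x a) ≠ L.ty (L.y a) → Even (L.k a)) ∧
    ∑ a ∈ Finset.univ.filter (fun a => L.ty (L.x a) = L.ty (L.y a)), L.k a ≤ EE ∧
    (Finset.univ.filter (fun a => Odd (L.k a))).card ≤ BB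

/-- Local model at a real special parameter (a zero of `h`): exactly one pair, of opposite types, on
the imaginary axis; no other limit point on the imaginary axis; the argument grows by `π` along the
upper half turn. -/
def IsZeroPt (n : ℕ) (Pts : ℂ → Set TP) (ζ0 : ℂ) : Prop :=
  ∃ L : LMod n Pts ζ0, L.np = 1 ∧ (∀ a, L.ty (L.x a) ≠ L.ty (L.y a)) ∧
    (∀ a, (L.S0 (L.x a)).re = 0) ∧
    (∀ i, (L.S0 i).re = 0 → ∃ a, i = L.x a ∨ i = L.y a) ∧
    (∀ a, ∀ ρ ∈ Ioo 0 L.δ, L.θ a ρ Real.pi = L.θ a ρ 0 + Real.pi)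

/-- far away the C-points are close to `ζ` and the tau-points are close to `-ζ` -/
def IsFar (Pts : ℂ → Set TP) : Prop :=
  ∃ R0 : ℝ, ∀ ζ : ℂ, R0 ≤ ‖ζ‖ → ∀ a ∈ Pts ζ,
    (a.2 = 1 → ‖a.1 - ζ‖ ≤ ‖ζ‖ / 10) ∧ (a.2 = 0 → ‖a.1 + ζ‖ ≤ ‖ζ‖ / 10)

/-- THEOREM F (topology + algebra, abstract family). -/
def TheoremF : Prop :=
  ∀ (n : ℕ) (_ : 1 ≤ n) (Pts : ℂ → Set TP) (_ : ∀ ζ, Pts (conj ζ) = mir '' Pts ζ)
    (Sp : Finset ℂ) (_ : ∀ ζ : ℂ, 0 ≤ ζ.im → ζ ∉ Sp → IsRegPt n Pts ζ) (EE BB : ℂ → ℕ)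
    (_ : ∀ ζ ∈ Sp, 0 < ζ.im → IsSpecial n Pts ζ (EE ζ) (BB ζ))
    (_ : ∀ ζ ∈ Sp, ζ.im = 0 → IsZeroPt n Pts ζ) (_ : IsFar Pts),
    (Sp.filter (fun ζ => ζ.im = 0)).card ≤
      n + ∑ ζ ∈ Sp.filter (fun ζ => 0 < ζ.im), (EE ζ + BB ζ)

/-! ### Polynomials -/

/-- the family of a pair of polynomials -/
def PtsOf (H S : ℂ[X]) (ζ : ℂ) : Set TP :=
  {a | (∃ z, H.eval z = ζ ∧ a = (S.eval z, 1)) ∨
    (∃ z, H.eval z = conj ζ ∧ a = (-conj (S.eval z), 0))}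

/-- the generic conditions, `H = p - q`, `S = p + q` -/
structure Gen (p q H S : ℂ[X]) : Prop where
  hH : H = p - q
  hS : S = p + q
  /-- branch points are simple, immersed, and do not lie over the real axis -/
  g1 : ∀ z, H.derivative.eval z = 0 → H.derivative.derivative.eval z ≠ 0 ∧
    S.derivative.eval z ≠ 0 ∧ (H.eval z).im ≠ 0
  /-- nodes: not branch points, not over the real axis, no triple points -/
  g2 : ∀ z w, z ≠ w → H.eval z = H.eval w → S.eval z = S.eval w →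
    H.derivative.eval z ≠ 0 ∧ (H.eval z).im ≠ 0 ∧
      ∀ u, H.eval u = H.eval z → S.eval u = S.eval z → u = z ∨ u = w
  /-- collisions of the curve with its mirror image -/
  g3 : ∀ z w, H.eval z = conj (H.eval w) → S.eval z = -conj (S.eval w) →
    H.derivative.eval z ≠ 0 ∧ (z ≠ w → (H.eval z).im ≠ 0) ∧
      ∀ u, u ≠ z → H.eval u = H.eval z → S.eval u ≠ S.eval z
  /-- the zeros of `p + conj q` are regular and lie over different real parameters -/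
  g4 : ∀ z, p.eval z + conj (q.eval z) = 0 →
    ‖p.derivative.eval z‖ ≠ ‖q.derivative.eval z‖ ∧
      ∀ w, p.eval w + conj (q.eval w) = 0 → H.eval z = H.eval w → z = w
  fin_nodes : {z | ∃ w, w ≠ z ∧ H.eval w = H.eval z ∧ S.eval w = S.eval z}.Finite
  fin_coll : {z | ∃ w, H.eval z = conj (H.eval w) ∧ S.eval z = -conj (S.eval w)}.Finite

/-- PART G: the polynomial that counts the same type collisions. -/
structure IsDisc (H S R : ℂ[X]) (D : ℕ) : Prop where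
  ne : R ≠ 0
  deg : R.natDegree ≤ D
  branch : ∀ z, H.derivative.eval z = 0 → R.IsRoot z
  /-- near a node `z1 ≠ z2`: if the difference of the two sheets is `O(|z - z1|^j)`, then `z1` is a
  root of `R` of multiplicity at least `j` -/
  node : ∀ (z1 z2 : ℂ) (w : ℂ → ℂ) (j : ℕ) (C : ℝ), z1 ≠ z2 → Filter.Tendsto w (nhds z1) (nhds z2) →
    (∀ᶠ z in nhds z1, H.eval (w z) = H.eval z) →
    (∀ᶠ z in nhds z1, ‖S.eval (w z) - S.eval z‖ ≤ C * ‖z - z1‖ ^ j) →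
    j ≤ R.rootMultiplicity z1

end Pool.Agent.HK
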