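import Pool.Agent.H.MP_cd3d06_an.K.FMain
import Pool.Agent.H.MP_cd3d06_an.K.Disc
import Pool.Agent.H.MP_cd3d06_an.K.D.End
import Pool.Agent.H.MP_cd3d06_an.T.Rot

/-!
MP_cd3d06_an: the sharp upper bound for the number of zeros of `p(z) + conj (q(z))`.
-/

namespace Pool.Agent.HK

open Polynomial Complex Set
open scoped ComplexConjugate

theorem sharp_upper {p q : ℂ[X]} {n m : ℕ} (hp : p.natDegree = n) (hq : q.natDegree = m)
    (hm : 1 ≤ m) (hmn : m < n) :
    {z : ℂ | p.eval z + conj (q.eval z) = 0}.Finite ∧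
      {z : ℂ | p.eval z + conj (q.eval z) = 0}.ncard + m + Nat.gcd m n ≤ (m + 2) * n := by
  refine ⟨(Pool.Agent.H.MP_cd3d06_an.upper_one hp hq hm hmn).1, ?_⟩
  obtain ⟨P, Q, hP, hQ, hG, hle⟩ := HZ.exists_gen (p := p) (q := q) (by omega) (by omega)
  rw [hp] at hP
  rw [hq] at hQ
  have hfin : {z : ℂ | P.eval z + conj (Q.eval z) = 0}.Finite :=
    (Pool.Agent.H.MP_cd3d06_an.upper_one hP hQ hm hmn).1
  obtain ⟨R, hR⟩ := exists_isDisc hP hQ hm hmn hG
  have h1 := partD theoremF (by omega) hP (degree_lt_degree (by omega)) hG hR hfin.toFinset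
    (fun z hz => by simpa using hz)
  rw [← Set.ncard_eq_toFinset_card _ hfin] at h1
  have h2 : Nat.gcd m n ≤ m := Nat.gcd_le_left n (by omega)
  have h3 : 1 ≤ Nat.gcd m n := Nat.gcd_pos_of_pos_left n (by omega)
  have h4 : m ≤ m * (n - 1) := Nat.le_mul_of_pos_right m (by omega)
  have h5 : m * (n - 1) + m = m * n := by
    obtain ⟨k, rfl⟩ : ∃ k, n = k + 1 := ⟨n - 1, by omega⟩
    simp
    ring
  have h6 : (m + 2) * n = m * n + 2 * n := by ring
  omega

end Pool.Agent.HK
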