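import Pool.Agent.H.MP_cd3d06_an.K.BrdA

/-!
Part B: the positive permutation braids `bw ρ π` that rearrange the list `ρ` into the list `π`.
-/

namespace Pool.Agent.HK

variable {α : Type*} [DecidableEq α]

/-- positions of the letters of the positive permutation braid from `ρ` to `π`: bring the first
element of `π` to the front of `ρ`, and continue with the remaining lists -/
def bwl (ρ : List α) : List α → List ℕ
  | [] => []
  | y :: π => (List.range (ρ.idxOf y)).reverse ++ (bwl (ρ.erase y) π).map (· + 1)

/-- the positive permutation braid -/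
def bw (N : ℕ) (ρ π : List α) : Brd N := ((bwl ρ π).map (sg N)).prod

/-- PROOF. Induction on `π` (generalizing `ρ`): `i ∈ range (idxOf y)` satisfies `i + 1 ≤ idxOf y < ρ.length` (as `y ∈ ρ`); for the second part `i' + 1 < (ρ.erase y).length = ρ.length - 1`, so `i' + 1 + 1 < ρ.length`. -/
theorem bwl_length {ρ π : List α} (hρ : ρ.Nodup) (h : ρ.Perm π) : ∀ i ∈ bwl ρ π, i + 1 < ρ.length := by
  induction π generalizing ρ with
  | nil => simp [bwl]
  | cons y π ih =>
    intro i hi
    have hy : y ∈ ρ := h.symm.subset (by simp)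
    have hp : (ρ.erase y).Perm π := by simpa using h.erase y
    have hlen : (ρ.erase y).length + 1 = ρ.length := by
      have := List.length_erase_of_mem hy
      have h0 : 0 < ρ.length := List.length_pos_of_mem hy
      omega
    rw [bwl, List.mem_append] at hi
    rcases hi with hi | hi
    · simp only [List.mem_reverse, List.mem_range] at hi
      have := List.idxOf_lt_length_of_mem hy
      omega
    · simp only [List.mem_map] at hi
      obtain ⟨j, hj, rfl⟩ := hi
      have := ih (hρ.erase y) hp j hj
      omega

/-- PROOF. Induction: `idxOf` of the head is 0, `(y :: π).erase y = π`; note that `bwl` of the rest is mapped by `(· + 1)`: prove `bwl ρ ρ = []` for nodup `ρ`. -/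
theorem bw_self (N : ℕ) {ρ : List α} (hρ : ρ.Nodup) : bw N ρ ρ = 1 := by
  have key : ∀ ρ : List α, bwl ρ ρ = [] := by
    intro ρ
    induction ρ with
    | nil => simp [bwl]
    | cons y π ih => simp [bwl, ih]
  simp [bw, key]

/-- descending product of generators, shifted by `d` -/
private def permADn (N j d : ℕ) : Brd N := ((List.range j).reverse.map fun i => sg N (i + d)).prod

private theorem permADn_zero (N d : ℕ) : permADn N 0 d = 1 := by simp [permADn]

private theorem permADn_succ (N j d : ℕ) : permADn N (j + 1) d = sg N (j + d) * permADn N j d := by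
  simp [permADn, List.range_succ]

private theorem permADn_comm {N j d i : ℕ} (h : j + 1 ≤ i) :
    permADn N j d * sg N (i + d) = sg N (i + d) * permADn N j d := by
  induction j with
  | zero => simp [permADn_zero]
  | succ j ih =>
    rw [permADn_succ, mul_assoc, ih (by omega), ← mul_assoc, ← mul_assoc,
      sg_comm (N := N) (i := j + d) (j := i + d) (by omega)]

private theorem permADn_slide {N j d i : ℕ} (h : i + 2 ≤ j) (hN : j + d < N) :
    permADn N j d * sg N (i + 1 + d) = sg N (i + d) * permADn N j d := by
  induction j with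
  | zero => omega
  | succ j ih =>
    rcases Nat.lt_or_ge (i + 1) j with h1 | h1
    · rw [permADn_succ, mul_assoc, ih (by omega) (by omega), ← mul_assoc, ← mul_assoc,
        sg_comm (N := N) (i := i + d) (j := j + d) (by omega)]
    · obtain rfl : j = i + 1 := by omega
      rw [permADn_succ, permADn_succ]
      have h2 : i + 1 + d = (i + d) + 1 := by omega
      have h3 : permADn N i d * sg N (i + 1 + d) = sg N (i + 1 + d) * permADn N i d :=
        permADn_comm (by omega)
      have h4 := sg_braid (N := N) (i := i + d) (by omega)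
      rw [← h2] at h4
      calc sg N (i + 1 + d) * (sg N (i + d) * permADn N i d) * sg N (i + 1 + d)
          = sg N (i + 1 + d) * sg N (i + d) * (permADn N i d * sg N (i + 1 + d)) := by
            simp only [mul_assoc]
        _ = sg N (i + 1 + d) * sg N (i + d) * sg N (i + 1 + d) * permADn N i d := by
            rw [h3]; simp only [mul_assoc]
        _ = sg N (i + d) * sg N (i + 1 + d) * sg N (i + d) * permADn N i d := by rw [h4]
        _ = _ := by simp only [mul_assoc]

private def permAShl (N : ℕ) (ρ π : List α) (d : ℕ) : Brd N :=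
  ((bwl ρ π).map fun i => sg N (i + d)).prod

private theorem permAShl_cons (N : ℕ) (ρ : List α) (z : α) (π : List α) (d : ℕ) :
    permAShl N ρ (z :: π) d = permADn N (ρ.idxOf z) d * permAShl N (ρ.erase z) π (d + 1) := by
  simp only [permAShl, bwl, List.map_append, List.prod_append, permADn, List.map_map]
  congr 2
  apply List.map_congr_left
  intro i _
  simp only [Function.comp]
  congr 1
  omega

private theorem permAShl_step {N : ℕ} {x y : α} (π : List α) :
    ∀ (ρ1 ρ2 : List α) (d : ℕ), (ρ1 ++ x :: y :: ρ2).Nodup →
      (ρ1 ++ x :: y :: ρ2).length + d = N → (ρ1 ++ x :: y :: ρ2).Perm π →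
      π.idxOf y < π.idxOf x →
      permAShl N (ρ1 ++ x :: y :: ρ2) π d =
        sg N (ρ1.length + d) * permAShl N (ρ1 ++ y :: x :: ρ2) π d := by
  induction π with
  | nil =>
    intro ρ1 ρ2 d _ _ hp _
    have := hp.length_eq
    simp at this
  | cons z π ih =>
    intro ρ1 ρ2 d hnd hN hp hinv
    have hz : z ∈ ρ1 ++ x :: y :: ρ2 := hp.symm.subset (by simp)
    have hnd' := hnd
    rw [List.nodup_append] at hnd'
    obtain ⟨hn1, hn2, hdis⟩ := hnd'
    have hxy : x ≠ y := by
      intro e
      rw [e] at hn2
      simp at hn2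
    have hx1 : x ∉ ρ1 := fun hx => hdis x hx x (by simp) rfl
    have hy1 : y ∉ ρ1 := fun hy => hdis y hy y (by simp) rfl
    have hx2 : x ∉ ρ2 := by
      intro hx
      simp [hx] at hn2
    have hy2 : y ∉ ρ2 := by
      intro hy
      simp [hy] at hn2
    have hpe : ((ρ1 ++ x :: y :: ρ2).erase z).Perm π := by simpa using hp.erase z
    rcases eq_or_ne z x with rfl | hzx
    · simp at hinv
    rcases eq_or_ne z y with rfl | hzy
    · rw [permAShl_cons, permAShl_cons]
      have e1 : (ρ1 ++ x :: z :: ρ2).idxOf z = ρ1.length + 1 := by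
        rw [List.idxOf_append_of_notMem hy1, List.idxOf_cons_ne _ hxy, List.idxOf_cons_self]
      have e2 : (ρ1 ++ z :: x :: ρ2).idxOf z = ρ1.length := by
        rw [List.idxOf_append_of_notMem hy1, List.idxOf_cons_self, add_zero]
      have e3 : (ρ1 ++ x :: z :: ρ2).erase z = ρ1 ++ x :: ρ2 := by
        rw [List.erase_append_right _ hy1, List.erase_cons_tail (by simpa using hxy), List.erase_cons_head]
      have e4 : (ρ1 ++ z :: x :: ρ2).erase z = ρ1 ++ x :: ρ2 := by
        rw [List.erase_append_right _ hy1, List.erase_cons_head]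
      rw [e1, e2, e3, e4, permADn_succ, mul_assoc]
    have hinv' : π.idxOf y < π.idxOf x := by
      rw [List.idxOf_cons_ne _ hzy, List.idxOf_cons_ne _ hzx] at hinv
      omega
    have hlen : (ρ1 ++ x :: y :: ρ2).length = ρ1.length + (ρ2.length + 2) := by
      simp
    rw [permAShl_cons, permAShl_cons]
    by_cases hz1 : z ∈ ρ1
    · have e1 : (ρ1 ++ x :: y :: ρ2).idxOf z = ρ1.idxOf z := List.idxOf_append_of_mem hz1
      have e2 : (ρ1 ++ y :: x :: ρ2).idxOf z = ρ1.idxOf z := List.idxOf_append_of_mem hz1
      have e3 : (ρ1 ++ x :: y :: ρ2).erase z = ρ1.erase z ++ x :: y :: ρ2 :=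
        List.erase_append_left _ hz1
      have e4 : (ρ1 ++ y :: x :: ρ2).erase z = ρ1.erase z ++ y :: x :: ρ2 :=
        List.erase_append_left _ hz1
      have hl : (ρ1.erase z).length + 1 = ρ1.length := by
        have := List.length_erase_of_mem hz1
        have h0 : 0 < ρ1.length := List.length_pos_of_mem hz1
        omega
      have hj : ρ1.idxOf z < ρ1.length := List.idxOf_lt_length_of_mem hz1
      rw [e1, e2, e3, e4]
      have hih := ih (ρ1.erase z) ρ2 (d + 1) (by rw [← e3]; exact hnd.erase z)
        (by simp only [List.length_append, List.length_cons] at hN ⊢; omega)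
        (by rw [← e3]; exact hpe) hinv'
      have e5 : (ρ1.erase z).length + (d + 1) = ρ1.length + d := by omega
      rw [hih, e5, ← mul_assoc, permADn_comm (by omega), mul_assoc]
    · have hz2 : z ∈ ρ2 := by
        simp only [List.mem_append, List.mem_cons] at hz
        tauto
      have e1 : (ρ1 ++ x :: y :: ρ2).idxOf z = ρ1.length + (ρ2.idxOf z + 1 + 1) := by
        rw [List.idxOf_append_of_notMem hz1, List.idxOf_cons_ne _ (Ne.symm hzx),
          List.idxOf_cons_ne _ (Ne.symm hzy)]
      have e2 : (ρ1 ++ y :: x :: ρ2).idxOf z = ρ1.length + (ρ2.idxOf z + 1 + 1) := by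
        rw [List.idxOf_append_of_notMem hz1, List.idxOf_cons_ne _ (Ne.symm hzy),
          List.idxOf_cons_ne _ (Ne.symm hzx)]
      have e3 : (ρ1 ++ x :: y :: ρ2).erase z = ρ1 ++ x :: y :: ρ2.erase z := by
        rw [List.erase_append_right _ hz1, List.erase_cons_tail (by simpa using (Ne.symm hzx)),
          List.erase_cons_tail (by simpa using (Ne.symm hzy))]
      have e4 : (ρ1 ++ y :: x :: ρ2).erase z = ρ1 ++ y :: x :: ρ2.erase z := by
        rw [List.erase_append_right _ hz1, List.erase_cons_tail (by simpa using (Ne.symm hzy)),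
          List.erase_cons_tail (by simpa using (Ne.symm hzx))]
      have hl : (ρ2.erase z).length + 1 = ρ2.length := by
        have := List.length_erase_of_mem hz2
        have h0 : 0 < ρ2.length := List.length_pos_of_mem hz2
        omega
      have hj : ρ2.idxOf z < ρ2.length := List.idxOf_lt_length_of_mem hz2
      rw [e1, e2, e3, e4]
      have hih := ih ρ1 (ρ2.erase z) (d + 1) (by rw [← e3]; exact hnd.erase z)
        (by simp only [List.length_append, List.length_cons] at hN ⊢; omega)
        (by rw [← e3]; exact hpe) hinv'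
      have e5 : ρ1.length + (d + 1) = ρ1.length + 1 + d := by omega
      rw [hih, e5, ← mul_assoc, permADn_slide (by omega) (by
        simp only [List.length_append, List.length_cons] at hN; omega), mul_assoc]

/-- one step: the elements number `i, i+1` of `ρ` are exchanged in `π`
PROOF. Induction on `π` generalizing `ρ1, ρ2` and with `N` only entering through the bound `i + 1 < N` of the letters: it is convenient to prove the statement for `shift`: for all `d` the product over `(bwl ρ π).map (· + d)`, with `ρ.length + d ≤ N` (`shl ρ π d := ((bwl ρ π).map fun i => sg N (i + d)).prod`, `shl ρ (y' :: π) d = (prod over (range j).reverse of sg N (i + d)) * shl (ρ.erase y') π (d + 1)`). Let `y'` be the head of `π`, `j` its index in `ρ = ρ1 ++ x :: y :: ρ2`, `i0 = ρ1.length`. Cases: (1) `y' ∈ ρ2`, `j ≥ i0 + 2`: the index in the exchanged list is the same; erase and induct: `σ_{j-1} ... σ_0 * σ_{i0 + 1} = σ_{i0} * σ_{j-1} ... σ_0` for `i0 + 1 ≤ j - 1` (lemma, from `sg_comm`, `sg_braid`), and the induction hypothesis is shifted by one (`σ_{i0+1}`). (2)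 `y' = x`: impossible, since `π.idxOf y < π.idxOf x = 0`. (3) `y' = y`: index `i0 + 1` in `ρ` and `i0` in the exchanged list; erasing gives the same list; `σ_{i0} σ_{i0-1} ... σ_0 = σ_{i0} * (σ_{i0-1} ... σ_0)`. (4) `y' ∈ ρ1`, `j < i0`: after erasing the pair is at position `i0 - 1`, shifted: `σ_{i0}`, which commutes with `σ_{j-1}, ..., σ_0` as `i0 ≥ j + 1`. -/
theorem bw_step {N : ℕ} {ρ1 ρ2 π : List α} {x y : α} (hρ : (ρ1 ++ x :: y :: ρ2).Nodup)
    (hN : (ρ1 ++ x :: y :: ρ2).length = N) (h : (ρ1 ++ x :: y :: ρ2).Perm π)
    (hinv : π.idxOf y < π.idxOf x) :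
    bw N (ρ1 ++ x :: y :: ρ2) π = sg N ρ1.length * bw N (ρ1 ++ y :: x :: ρ2) π := by
  have := permAShl_step (N := N) π ρ1 ρ2 0 hρ (by omega) h hinv
  simpa [permAShl, bw] using this

end Pool.Agent.HK
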