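import Pool.Agent.H.MP_cd3d06_an.K.PermA

/-!
Part B: the positive permutation braids `bw ρ π` that rearrange the list `ρ` into the list `π`.
-/

namespace Pool.Agent.HK

variable {α : Type*} [DecidableEq α]

omit [DecidableEq α] in
private theorem PermB_chain (R : α → α → Prop) : ∀ l : List α,
    List.IsChain R l ∨ ∃ l1 l2 x y, l = l1 ++ x :: y :: l2 ∧ ¬ R x y
  | [] => Or.inl List.IsChain.nil
  | [a] => Or.inl (List.IsChain.singleton a)
  | a :: b :: l => by
    by_cases h : R a b
    · rcases PermB_chain R (b :: l) with h1 | ⟨l1, l2, x, y, e, h2⟩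
      · exact Or.inl (List.isChain_cons_cons.2 ⟨h, h1⟩)
      · exact Or.inr ⟨a :: l1, l2, x, y, by rw [e]; rfl, h2⟩
    · exact Or.inr ⟨[], l, a, b, rfl, h⟩

private theorem PermB_adj {ρ μ : List α} (hρ : ρ.Nodup) (h : ρ.Perm μ) :
    ρ = μ ∨ ∃ l1 l2 x y, ρ = l1 ++ x :: y :: l2 ∧ μ.idxOf y < μ.idxOf x := by
  have hμ : μ.Nodup := h.nodup_iff.1 hρ
  rcases PermB_chain (fun a b => μ.idxOf a ≤ μ.idxOf b) ρ with h1 | ⟨l1, l2, x, y, e, h2⟩
  · left
    have p1 : ρ.Pairwise fun a b => μ.idxOf a ≤ μ.idxOf b := by
      have : IsTrans α fun a b => μ.idxOf a ≤ μ.idxOf b := ⟨fun a b c h h' => h.trans h'⟩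
      exact List.isChain_iff_pairwise.1 h1
    have p2 : μ.Pairwise fun a b => μ.idxOf a ≤ μ.idxOf b := by
      rw [List.pairwise_iff_getElem]
      intro i j hi hj hij
      rw [List.Nodup.idxOf_getElem hμ, List.Nodup.idxOf_getElem hμ]
      exact hij.le
    refine List.Perm.eq_of_pairwise ?_ p1 p2 h
    intro a b ha hb h1 h2
    exact ((List.idxOf_inj hb).1 (le_antisymm h2 h1)).symm
  · right
    exact ⟨l1, l2, x, y, e, not_le.1 h2⟩

private theorem PermB_ic (a b : α) (l : List α) :
    (a :: l).idxOf b = if a = b then 0 else l.idxOf b + 1 := by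
  by_cases h : a = b
  · simp [h]
  · have e : (a == b) = false := by simpa using h
    rw [List.idxOf_cons, e, if_neg h]
    rfl

/-- exchanging two neighbours changes the order of this pair only -/
private theorem PermB_order {l1 l2 : List α} {x y u v : α} (hn : (l1 ++ x :: y :: l2).Nodup)
    (h : (l1 ++ y :: x :: l2).idxOf u < (l1 ++ y :: x :: l2).idxOf v) :
    (u = y ∧ v = x) ∨ (l1 ++ x :: y :: l2).idxOf u < (l1 ++ x :: y :: l2).idxOf v := by
  rw [List.nodup_append] at hn
  obtain ⟨_, hn2, hn3⟩ := hn
  rw [List.nodup_cons, List.nodup_cons] at hn2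
  obtain ⟨n1, n2, _⟩ := hn2
  have hxy : x ≠ y := fun e => n1 (by rw [e]; exact List.mem_cons_self)
  have hx : x ∉ l1 := fun e => hn3 x e x (by simp) rfl
  have hy : y ∉ l1 := fun e => hn3 y e y (by simp) rfl
  have lt : ∀ w, w ∈ l1 → l1.idxOf w < l1.length := fun w hw => List.idxOf_lt_length_of_mem hw
  have cu := lt u
  have cv := lt v
  simp only [List.idxOf_append, PermB_ic] at h ⊢
  by_cases u1 : u ∈ l1
  · have cu' := cu u1
    by_cases v1 : v ∈ l1
    · simp only [u1, v1, if_true] at h ⊢; exact Or.inr h
    · right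
      simp only [u1, v1, if_true, if_false]
      omega
  · by_cases v1 : v ∈ l1
    · have cv' := cv v1
      simp only [u1, v1, if_true, if_false] at h
      omega
    · simp only [u1, v1, if_false] at h ⊢
      by_cases a1 : x = u
      · have a2 : ¬ y = u := fun e => hxy (a1.trans e.symm)
        simp only [a1, a2, if_true, if_false] at h ⊢
        by_cases b2 : y = v
        · simp only [b2, if_true] at h; omega
        · by_cases b1 : u = v
          · simp only [b1, b2, if_true, if_false] at h; omega
          · right; simp only [b1, if_false]; omega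
      · by_cases a2 : y = u
        · simp only [a1, a2, if_true, if_false] at h ⊢
          by_cases b1 : x = v
          · left; exact ⟨trivial, b1.symm⟩
          · by_cases b2 : u = v
            · simp only [b2, if_true] at h; omega
            · right; simp only [b1, b2, if_false]; omega
        · simp only [a1, a2, if_false] at h ⊢
          by_cases b2 : y = v
          · simp only [b2, if_true] at h; omega
          · by_cases b1 : x = v
            · simp only [b1, b2, if_true, if_false] at h; omega
            · simp only [b1, b2, if_false] at h ⊢; right; omega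

/-- the number of inversions -/
private def PermB_inv (ρ μ : List α) : ℕ :=
  ((ρ.toFinset ×ˢ ρ.toFinset).filter
    fun p => ρ.idxOf p.1 < ρ.idxOf p.2 ∧ μ.idxOf p.2 < μ.idxOf p.1).card

private theorem PermB_inv_lt {l1 l2 μ : List α} {x y : α} (hn : (l1 ++ x :: y :: l2).Nodup)
    (h : μ.idxOf y < μ.idxOf x) :
    PermB_inv (l1 ++ y :: x :: l2) μ < PermB_inv (l1 ++ x :: y :: l2) μ := by
  have hn' : (l1 ++ y :: x :: l2).Nodup :=
    (List.Perm.append_left l1 (List.Perm.swap y x l2)).nodup_iff.1 hn
  have hfs : (l1 ++ y :: x :: l2).toFinset = (l1 ++ x :: y :: l2).toFinset := by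
    apply List.toFinset_eq_of_perm
    exact (List.Perm.append_left l1 (List.Perm.swap x y l2))
  unfold PermB_inv
  rw [hfs]
  apply Finset.card_lt_card
  rw [Finset.ssubset_iff_of_subset]
  · refine ⟨(x, y), ?_, ?_⟩
    · simp only [Finset.mem_filter, Finset.mem_product, List.mem_toFinset]
      refine ⟨⟨by simp, by simp⟩, ?_, h⟩
      rw [List.nodup_append] at hn
      obtain ⟨_, hn2, hn3⟩ := hn
      rw [List.nodup_cons, List.nodup_cons] at hn2
      have hxy : x ≠ y := fun e => hn2.1 (by rw [e]; exact List.mem_cons_self)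
      have hx : x ∉ l1 := fun e => hn3 x e x (by simp) rfl
      have hy : y ∉ l1 := fun e => hn3 y e y (by simp) rfl
      simp only [List.idxOf_append, hx, hy, if_false, PermB_ic, if_true, hxy]
      omega
    · simp only [Finset.mem_filter, not_and, not_lt]
      intro _ h1
      rw [List.nodup_append] at hn
      obtain ⟨_, hn2, hn3⟩ := hn
      rw [List.nodup_cons, List.nodup_cons] at hn2
      have hxy : x ≠ y := fun e => hn2.1 (by rw [e]; exact List.mem_cons_self)
      have hx : x ∉ l1 := fun e => hn3 x e x (by simp) rfl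
      have hy : y ∉ l1 := fun e => hn3 y e y (by simp) rfl
      simp only [List.idxOf_append, hx, hy, if_false, PermB_ic, if_true, hxy, hxy.symm] at h1
      omega
  · intro p hp
    simp only [Finset.mem_filter] at hp ⊢
    obtain ⟨hp1, hp2, hp3⟩ := hp
    refine ⟨hp1, ?_, hp3⟩
    rcases PermB_order hn hp2 with ⟨e1, e2⟩ | h1
    · rw [e1, e2] at hp3; omega
    · exact h1

/-- the cocycle property along geodesics: if every pair that has the same order in `ρ` and `π`
has this order in `μ`, too, then the braids multiply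
PROOF. Induction on the number of pairs of `ρ` that are in the other order in `μ` (inversions). If there is none, `μ = ρ` and `bw_self`. Otherwise there are neighbours `x, y` in `ρ` (`ρ = ρ1 ++ x :: y :: ρ2`) with `μ.idxOf y < μ.idxOf x` (a list sorted with respect to its neighbours is sorted: if all neighbours are in the order of `μ` then `ρ = μ`). By `hb` `π.idxOf y < π.idxOf x` (otherwise `x, y` have the same order in `ρ` and `π` but not in `μ`). `bw_step` for `π` and for `μ`: `bw ρ π = σ * bw ρ' π`, `bw ρ μ = σ * bw ρ' μ` with `ρ' = ρ1 ++ y :: x :: ρ2`. The hypothesis `hb` holds for `ρ', μ, π` (only the pair `x, y` changed, and for it `y` before `x` in all of `ρ', μ, π`), and the number of inversions between `ρ'` and `μ` is smaller by one. -/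
theorem bw_mul {N : ℕ} {ρ μ π : List α} (hρ : ρ.Nodup) (hN : ρ.length = N) (h1 : ρ.Perm μ)
    (h2 : ρ.Perm π)
    (hb : ∀ x ∈ ρ, ∀ y ∈ ρ, ρ.idxOf x < ρ.idxOf y → π.idxOf x < π.idxOf y → μ.idxOf x < μ.idxOf y) :
    bw N ρ π = bw N ρ μ * bw N μ π := by
  induction hk : PermB_inv ρ μ using Nat.strong_induction_on generalizing ρ with
  | _ k ih =>
    rcases PermB_adj hρ h1 with e | ⟨l1, l2, x, y, e, hxy⟩
    · subst e
      rw [bw_self N hρ, one_mul]
    · subst e
      have hp : (l1 ++ x :: y :: l2).Perm (l1 ++ y :: x :: l2) :=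
        List.Perm.append_left l1 (List.Perm.swap y x l2)
      have mx : x ∈ l1 ++ x :: y :: l2 := by simp
      have my : y ∈ l1 ++ x :: y :: l2 := by simp
      have nxy : x ≠ y := fun e => by rw [e] at hxy; exact lt_irrefl _ hxy
      have ho : (l1 ++ x :: y :: l2).idxOf x < (l1 ++ x :: y :: l2).idxOf y := by
        rw [List.nodup_append] at hρ
        obtain ⟨_, hn2, hn3⟩ := hρ
        have hx : x ∉ l1 := fun e => hn3 x e x (by simp) rfl
        have hy : y ∉ l1 := fun e => hn3 y e y (by simp) rfl
        simp only [List.idxOf_append, hx, hy, if_false, PermB_ic, if_true, nxy]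
        omega
      have hπ : π.idxOf y < π.idxOf x := by
        rcases lt_trichotomy (π.idxOf y) (π.idxOf x) with h | h | h
        · exact h
        · exact absurd ((List.idxOf_inj (h2.mem_iff.1 my)).1 h).symm nxy
        · have := hb x mx y my ho h
          omega
      rw [bw_step hρ hN h2 hπ, bw_step hρ hN h1 hxy, mul_assoc]
      congr 1
      refine ih (PermB_inv (l1 ++ y :: x :: l2) μ) (by rw [← hk]; exact PermB_inv_lt hρ hxy)
        (hp.nodup_iff.1 hρ) (by rw [← hN]; exact hp.length_eq.symm) (hp.symm.trans h1)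
        (hp.symm.trans h2) ?_ rfl
      intro u hu v hv ho' hπ'
      rcases PermB_order hρ ho' with ⟨e1, e2⟩ | h
      · rw [e1, e2]; exact hxy
      · exact hb u (hp.mem_iff.2 hu) v (hp.mem_iff.2 hv) h hπ'

end Pool.Agent.HK
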