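import Pool.Agent.H.MP_cd3d06_an.K.Sad

/-!
Part A: the second Reidemeister move.
-/

namespace Pool.Agent.HK

variable {N : ℕ}

/-- insert two letters -/
noncomputable def phiR2f : Coch N → Coch N := fun g v x =>
  match v with
  | false :: false :: v => g v (tl (tl x))
  | true :: true :: v => open Classical in if x 0 = x 2 then g v (tl (tl x)) else 0
  | _ => 0

/-- put the value `c` at the positions `p, q` -/
def setpq (p q : Fin N) (c : ZMod 2) (a : Row N) : Row N := fun j => if j = p ∨ j = q then c else a j

/-- remove two letters -/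
def phiR2g (p q : Fin N) : Coch N → Coch N := fun g v x =>
  g (false :: false :: v) (cs (x 0) (cs (x 0) x)) +
    if x 0 p = x 0 q then
      g (true :: true :: v) (cs (x 0) (cs (setpq p q 0 (x 0)) x)) +
        g (true :: true :: v) (cs (x 0) (cs (setpq p q 1 (x 0)) x))
    else 0

theorem R2A_so_ne (w : Word N) {r : Row N} {v : List Bool} {x : Col N} (h : x 0 ≠ r) :
    so w r v x = 0 := by
  cases w with
  | nil => simp [so, h]
  | cons l w =>
    cases v with
    | nil => simp [so]
    | cons e v => simp [so, h]

theorem R2A_dd_zero (w : Word N) (v : List Bool) (x : Col N) : dd w (fun _ _ => 0) v x = 0 := by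
  induction w generalizing v x with
  | nil => simp [dd]
  | cons l w ih =>
    cases v with
    | nil => simp [dd]
    | cons e v => simp [dd, ih]

theorem R2A_two (a : ZMod 2) : a + a = 0 := CharTwo.add_self_eq_zero a

/-- the differential of a function multiplied by a constant condition -/
theorem R2A_dd_ite (w : Word N) (P : Prop) [Decidable P] (g : Coch N) (v : List Bool)
    (x : Col N) : dd w (fun v y => if P then g v y else 0) v x = if P then dd w g v x else 0 := by
  by_cases h : P
  · simp only [if_pos h]
  · simp only [if_neg h]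
    exact R2A_dd_zero w v x

theorem R2A_flip_flip (p q : Fin N) (r : Row N) : flip p q (flip p q r) = r := by
  funext j
  unfold flip
  split_ifs with h
  · rw [add_assoc, R2A_two, add_zero]
  · rfl

theorem R2A_one_ne : (1 : ZMod 2) ≠ 0 := by decide

theorem R2A_flip_ne (p q : Fin N) (r : Row N) : flip p q r ≠ r := by
  intro h
  have h1 := congrFun h p
  simp only [flip, true_or, if_true] at h1
  simp at h1

theorem R2A_flip_p (p q : Fin N) (r : Row N) : flip p q r p = r p + 1 := by simp [flip]

theorem R2A_flip_q (p q : Fin N) (r : Row N) : flip p q r q = r q + 1 := by simp [flip]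

theorem R2A_cases (a b : ZMod 2) : a = b ∨ a = b + 1 := by
  revert a b
  decide

/-- two rows in the relation `E` agree or differ by a flip -/
theorem R2A_rel {p q : Fin N} {r a : Row N} (h : Rel p q true r a) : a = r ∨ a = flip p q r := by
  obtain ⟨h1, h2, h3⟩ := h
  rcases R2A_cases (a p) (r p) with h4 | h4
  · left
    funext j
    by_cases hp : j = p
    · rw [hp, h4]
    · by_cases hq : j = q
      · rw [hq, ← h2, h4, h1]
      · exact (h3 j hp hq).symm
  · right
    funext j
    by_cases hp : j = p
    · rw [hp, h4, R2A_flip_p]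
    · by_cases hq : j = q
      · rw [hq, ← h2, h4, h1, R2A_flip_q]
      · simp only [flip, hp, hq, or_self, if_false]
        exact (h3 j hp hq).symm

/-- the differential of the first two letters -/
theorem R2A_dd (u1 u2 : Letter N) (w : Word N) (g : Coch N) (e1 e2 : Bool) (v : List Bool)
    (x : Col N) : dd (u1 :: u2 :: w) g (e1 :: e2 :: v) x =
      (open Classical in
        if e1 = !u1.pos ∧ Rel u1.p u1.q u1.pos (x 0) (x 1) then g (u1.pos :: e2 :: v) x else 0) +
      ((open Classical in
        if e2 = !u2.pos ∧ Rel u2.p u2.q u2.pos (x 1) (x 2) then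
          g (e1 :: u2.pos :: v) x else 0) +
      dd w (fun v' y => g (e1 :: e2 :: v') (cs (x 0) (cs (x 1) y))) v (tl (tl x))) := by
  simp only [dd, tl_apply, cs_tl]
  rfl

/-- PROOF. `add`, `loc` are clear from the formula: for a valid `x` in the state `II`, `x 0 = x 1 = x 2`, and `tl (tl x)` is valid for `(w, v)` with `(tl (tl x)) 0 = x 0`; in the state `EE` the value of `g` is only used if `x 2 = x 0`. `chain`: let `u1, u2` be the two letters. Sources/targets: for `b = true` letter 1 goes `E → I` and letter 2 goes `I → E`; for `b = false` the other way. Compare `dd (u1 :: u2 :: w) (φ g)` and `φ (dd w g)` at the four states of a valid `x`. At `II` and at `EE`: no contribution from the two letters (it would come from a state `EI` or `IE`, where `φ g = 0`); the rest is `dd w` in the tail (for `EE` the condition `x 0 = x 2` does not change under `cs`). At the two mixed states `φ (dd w g) = 0` and the `dd w` part is 0, and exactly for one of them (`IE` if `b = true`, `EI` if `b = false`) there are two contributions of the letters: for `IE` (rows `x 0 = x 1`, `E` between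 `x 1, x 2`): letter 2 (from `II`, needs `x 1 = x 2`) gives `[x 1 = x 2] g v (tl (tl x))`, letter 1 (from `EE`, needs `Rel E (x 0) (x 1)`, i.e. `x 0 p = x 0 q`, automatically true as `x 0 = x 1` and `Rel E (x 1) (x 2)`) gives `[x 0 = x 2] g v (tl (tl x))`: they cancel. For `EI` (rows `E` between `x 0, x 1`, `x 1 = x 2`): letter 1 from `II`: `[x 0 = x 1] g v (tl (tl x))`; letter 2 from `EE`: `[x 0 = x 2] g v (tl (tl x))`: cancel. -/
theorem phiR2f_isMap (p q : Fin N) (h : p ≠ q) (b : Bool) (w : Word N) :
    IsMap w (⟨p, q, h, b⟩ :: ⟨p, q, h, !b⟩ :: w) phiR2f := by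
  classical
  refine ⟨fun g g' v x hv hx => ?_, fun g g' v x hv hx hg => ?_, fun g v x hv hx => ?_⟩
  · rcases v with _ | ⟨e1, _ | ⟨e2, v⟩⟩
    · simp at hv
    · simp at hv
    · cases e1 <;> cases e2 <;> simp only [phiR2f, add_zero]
      split_ifs
      · rfl
      · rw [add_zero]
  · rcases v with _ | ⟨e1, _ | ⟨e2, v⟩⟩
    · simp at hv
    · simp at hv
    · have hv' : v.length = w.length := by simpa using hv
      obtain ⟨h1, h2, h3⟩ := hx
      cases e1 <;> cases e2 <;> simp only [phiR2f]
      · refine hg v _ hv' h3 ?_
        have e1 : x 0 = x 1 := h1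
        have e2 : x 1 = x 2 := h2
        show x 2 = x 0
        rw [e1, e2]
      · split_ifs with h4
        · exact hg v _ hv' h3 h4.symm
        · rfl
  · rcases v with _ | ⟨e1, _ | ⟨e2, v⟩⟩
    · simp at hv
    · simp at hv
    · have hv' : v.length = w.length := by simpa using hv
      obtain ⟨h1, h2, h3⟩ := hx
      rw [R2A_dd]
      have key : dd w (fun v' y => phiR2f g (true :: true :: v') (cs (x 0) (cs (x 1) y))) v
          (tl (tl x)) = if x 0 = x 2 then dd w g v (tl (tl x)) else 0 := by
        rw [← R2A_dd_ite w (x 0 = x 2) g v (tl (tl x))]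
        refine dd_loc hv' h3 fun v' y _ _ hy => ?_
        have e1 : y 0 = x 2 := hy
        simp only [phiR2f, cs_zero, cs_succ, tl_cs, e1]
      cases b <;> cases e1 <;> cases e2
      · simp [phiR2f]
      · simp [phiR2f, R2A_dd_zero]
      · have e1 : x 1 = x 2 := h2
        obtain ⟨e2, e3, e4⟩ := h1
        simp only [phiR2f, Bool.not_false, Bool.not_true, true_and, Rel, R2A_dd_zero,
          add_zero, ← e1, e3, and_self, if_true, implies_true]
        exact R2A_two _
      · rw [key]
        simp [phiR2f]
      · simp [phiR2f]
      · have e1 : x 0 = x 1 := h1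
        obtain ⟨e2, e3, e4⟩ := h2
        have e5 : x 1 p = x 1 q := e2
        simp only [phiR2f, Bool.not_false, Bool.not_true, true_and, Rel, R2A_dd_zero,
          add_zero, e1, e5, and_self, if_true, implies_true]
        exact R2A_two _
      · simp [phiR2f, R2A_dd_zero]
      · rw [key]
        simp [phiR2f]

/-- PROOF. Let `a = r p`. If `r p ≠ r q` (same type): canonical states `I, I`, `z = 0`: `φ (so w r)` at `II` is `so w r v (tl (tl x))` with `x 0 = x 1 = x 2`, equal to `so (u1 :: u2 :: w) r`; at `EE` the value is 0 because `x 0 = x 2 = r` and `x 0 p = x 0 q` is false. If `r p = r q`: canonical states `E, E`, rows `r, flip r, r`. Take `z v x = 1` at the mixed source state (`v = true :: false :: v'`, i.e. `EI`, if `b = true`, whose both letters are sources; `v = false :: true :: v'`, i.e. `IE`, if `b = false`), `x 0 = x 1 = x 2 = r`, times `so w r v' (tl (tl x))`; 0 elsewhere. Then `dd z` at `II` is `[x 0 = r] so w r v' (tl (tl x))`, at `EE` it is `[x 0 = x 1 = x 2 = r] so w r v' (tl (tl x))`, at the mixed state it is the `dd w` part, which vanishes by `dd_so`.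 And `φ (so w r)` at `EE` is `[x 0 = x 2 = r] so w r ..` with `x 1 = r` or `x 1 = flip r`. -/
theorem phiR2f_soMap (p q : Fin N) (h : p ≠ q) (b : Bool) (w : Word N) (r : Row N) :
    SoMap w (⟨p, q, h, b⟩ :: ⟨p, q, h, !b⟩ :: w) r phiR2f := by
  classical
  by_cases hr : r p = r q
  · refine ⟨fun v x => match v with
      | e1 :: e2 :: v' => if (e1 = b ∧ e2 = !b) ∧ x 0 = r ∧ x 1 = r then so w r v' (tl (tl x))
        else 0
      | _ => 0, fun v y hy => ?_, fun v x hv hx => ?_⟩
    · rcases v with _ | ⟨e1, _ | ⟨e2, v⟩⟩
      · rfl
      · rfl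
      · simp [hy]
    · rcases v with _ | ⟨e1, _ | ⟨e2, v⟩⟩
      · simp at hv
      · simp at hv
      · have hv' : v.length = w.length := by simpa using hv
        obtain ⟨h1, h2, h3⟩ := hx
        have hdd : dd w (fun v' y => if (e1 = b ∧ e2 = !b) ∧ x 0 = r ∧ x 1 = r then
            so w r v' y else 0) v (tl (tl x)) = 0 := by
          rw [R2A_dd_ite, dd_so hv' h3, ite_self]
        have hfl : flip p q r p = flip p q r q := by
          rw [R2A_flip_p, R2A_flip_q, hr]
        have hso : so (⟨p, q, h, b⟩ :: ⟨p, q, h, !b⟩ :: w) r (e1 :: e2 :: v) x =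
            if x 0 = r ∧ e1 = true then if x 1 = flip p q r ∧ e2 = true then
              so w r v (tl (tl x)) else 0 else 0 := by
          simp only [so, nxt, eo, hr, if_true, hfl, R2A_flip_flip, decide_true, tl_apply]
        rw [R2A_dd, hso]
        simp only [cs_zero, cs_succ, tl_cs, hdd, add_zero]
        have hS : x 2 ≠ r → so w r v (tl (tl x)) = 0 := fun h => R2A_so_ne w h
        have hII : ∀ y z : Row N, y = z → z = x 2 → so w r v (tl (tl x)) =
            if Rel p q true y z then if y = r ∧ z = r then so w r v (tl (tl x)) else 0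
            else 0 := by
          rintro y z rfl hz
          by_cases h5 : y = r
          · rw [if_pos, if_pos ⟨h5, h5⟩]
            rw [h5]
            exact ⟨hr, hr, fun _ _ _ => rfl⟩
          · have h6 := hS (by rw [← hz]; exact h5)
            rw [h6]
            simp
        have hEE : Rel p q true (x 0) (x 1) → (if x 0 = x 2 then so w r v (tl (tl x)) else 0) =
            (if x 0 = r then if x 1 = flip p q r then so w r v (tl (tl x)) else 0 else 0) +
            if x 0 = r ∧ x 1 = r then so w r v (tl (tl x)) else 0 := by
          intro h4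
          by_cases h5 : x 0 = r
          · have h6 : (if x 0 = x 2 then so w r v (tl (tl x)) else 0) = so w r v (tl (tl x)) := by
              split_ifs with h7
              · rfl
              · exact (hS fun h8 => h7 (h5.trans h8.symm)).symm
            rw [h6]
            rw [h5] at h4
            rcases R2A_rel h4 with h7 | h7
            · rw [if_pos h5, if_neg, if_pos ⟨h5, h7⟩, zero_add]
              rw [h7]
              exact (R2A_flip_ne p q r).symm
            · rw [if_pos h5, if_pos h7, if_neg, add_zero]
              rintro ⟨-, h8⟩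
              exact R2A_flip_ne p q r (h7.symm.trans h8)
          · rw [if_neg h5, if_neg (show ¬(x 0 = r ∧ x 1 = r) from fun h6 => h5 h6.1), add_zero]
            split_ifs with h6
            · exact hS fun h7 => h5 (h6.trans h7)
            · rfl
        cases b <;> cases e1 <;> cases e2
        · have h4 : x 0 = x 1 := h1
          have h5 : x 1 = x 2 := h2
          have h6 := hII (x 1) (x 2) h5 rfl
          have h7 : (x 0 = r ∧ x 1 = r) ↔ (x 1 = r ∧ x 2 = r) := by rw [h4, h5]
          simp only [phiR2f, h7]
          simpa using h6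
        · simp [phiR2f]
        · simp [phiR2f]
        · have h6 := hEE h1
          simp only [phiR2f]
          rw [h6]
          have h7 : (if Rel p q false (x 0) (x 1) then
              if x 0 = r ∧ x 1 = r then so w r v (tl (tl x)) else 0 else 0) =
              if x 0 = r ∧ x 1 = r then so w r v (tl (tl x)) else 0 := by
            split_ifs with h8 h9 h10
            · rfl
            · rfl
            · exact absurd (h10.1.trans h10.2.symm) h8
            · rfl
          simp [h7]
        · have h4 : x 0 = x 1 := h1
          have h5 : x 1 = x 2 := h2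
          have h6 := hII (x 0) (x 1) h4 h5
          simp only [phiR2f]
          simpa using h6
        · simp [phiR2f]
        · simp [phiR2f]
        · have h6 := hEE h1
          simp only [phiR2f]
          rw [h6]
          have h7 : (if Rel p q false (x 1) (x 2) then
              if x 0 = r ∧ x 1 = r then so w r v (tl (tl x)) else 0 else 0) =
              if x 0 = r ∧ x 1 = r then so w r v (tl (tl x)) else 0 := by
            split_ifs with h8 h9 h10
            · rfl
            · rfl
            · exact (hS fun h11 => h8 (h10.2.trans h11.symm)).symm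
            · rfl
          simp [h7]
  · refine ⟨fun _ _ => 0, fun _ _ _ => rfl, fun v x hv hx => ?_⟩
    rcases v with _ | ⟨e1, _ | ⟨e2, v⟩⟩
    · simp at hv
    · simp at hv
    · obtain ⟨h1, h2, h3⟩ := hx
      have hso : so (⟨p, q, h, b⟩ :: ⟨p, q, h, !b⟩ :: w) r (e1 :: e2 :: v) x =
          if x 0 = r ∧ e1 = false then if x 1 = r ∧ e2 = false then
            so w r v (tl (tl x)) else 0 else 0 := by
        simp only [so, nxt, eo, hr, if_false, decide_false, tl_apply]
      have hS : x 2 ≠ r → so w r v (tl (tl x)) = 0 := fun h => R2A_so_ne w h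
      rw [R2A_dd_zero, add_zero, hso]
      cases e1 <;> cases e2
      · have h4 : x 0 = x 1 := h1
        have h5 : x 1 = x 2 := h2
        simp only [phiR2f, and_true, h4, h5]
        split_ifs with h6
        · rfl
        · exact hS h6
      · simp [phiR2f]
      · simp [phiR2f]
      · simp only [phiR2f]
        have h4 : (if x 0 = x 2 then so w r v (tl (tl x)) else 0) = 0 := by
          split_ifs with h5
          · refine hS fun h6 => hr ?_
            have h7 : x 0 p = x 0 q := h1.1
            rw [h5, h6] at h7
            exact h7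
          · rfl
        rw [h4]
        simp

/-- PROOF. `add`, `loc` clear (the colourings used are valid for `x` valid: for the second term `x 0 p = x 0 q`, and `setpq p q c (x 0)` agrees with `x 0` outside of `p, q`). `chain`: `φ (dd g)` at `(v, x)` minus `dd w (φ g)`: the parts of `dd` on the letters of `w` agree. The remaining terms come from the source states of the two letters: `b = true`: `II` receives from `EI` via letter 1 (needs `x 0 p = x 0 q`): `g (EI :: v) (x 0, x 0, x)`; `EE` receives from `EI` via letter 2 (needs row 1 = row 2 = `x 0`): exactly one of the two values `c = x 0 p` satisfies `setpq p q c (x 0) = x 0`: `g (EI :: v) (x 0, x 0, x)`. Sum 0. (`EE` also receives from .. nothing else: the source state of letter 1 is `E` itself.) `b = false`: the same with `IE` instead of `EI`. -/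
theorem phiR2g_isMap (p q : Fin N) (h : p ≠ q) (b : Bool) (w : Word N) :
    IsMap (⟨p, q, h, b⟩ :: ⟨p, q, h, !b⟩ :: w) w (phiR2g p q) := by
  classical
  have hval : ∀ (v : List Bool) (x : Col N), Valid w v x → ∀ c : ZMod 2, x 0 p = x 0 q →
      Valid (⟨p, q, h, b⟩ :: ⟨p, q, h, !b⟩ :: w) (true :: true :: v)
        (cs (x 0) (cs (setpq p q c (x 0)) x)) := by
    intro v x hx c hc
    refine ⟨⟨hc, ?_, ?_⟩, ⟨?_, hc, ?_⟩, hx⟩
    · simp [setpq]
    · intro j hp hq
      simp [setpq, hp, hq]
    · simp [setpq]
    · intro j hp hq
      simp [setpq, hp, hq]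
  have hval' : ∀ (v : List Bool) (x : Col N), Valid w v x →
      Valid (⟨p, q, h, b⟩ :: ⟨p, q, h, !b⟩ :: w) (false :: false :: v)
        (cs (x 0) (cs (x 0) x)) := fun v x hx => ⟨rfl, rfl, hx⟩
  refine ⟨fun g g' v x hv hx => ?_, fun g g' v x hv hx hg => ?_, fun g v x hv hx => ?_⟩
  · simp only [phiR2g]
    split_ifs <;> ring
  · simp only [phiR2g]
    have hl : ∀ e1 e2 : Bool, (e1 :: e2 :: v).length =
        ((⟨p, q, h, b⟩ : Letter N) :: ⟨p, q, h, !b⟩ :: w).length := fun e1 e2 => by simp [hv]
    rw [hg _ _ (hl _ _) (hval' v x hx) rfl]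
    split_ifs with h1
    · rw [hg _ _ (hl _ _) (hval v x hx 0 h1) rfl, hg _ _ (hl _ _) (hval v x hx 1 h1) rfl]
    · rfl
  · have h1 : dd w (phiR2g p q g) v x = dd w (fun v' y =>
        g (false :: false :: v') (cs (x 0) (cs (x 0) y)) +
          (fun v' y => if x 0 p = x 0 q then
            (fun v' y => g (true :: true :: v') (cs (x 0) (cs (setpq p q 0 (x 0)) y)) +
              g (true :: true :: v') (cs (x 0) (cs (setpq p q 1 (x 0)) y))) v' y else 0) v' y)
        v x :=
      dd_loc hv hx fun v' y _ _ hy => by simp only [phiR2g, hy]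
    rw [h1, dd_add, R2A_dd_ite, dd_add]
    simp only [phiR2g, R2A_dd, cs_zero, cs_succ, tl_cs]
    by_cases hc : x 0 p = x 0 q
    · have h2 : Rel p q true (x 0) (x 0) := ⟨hc, hc, fun _ _ _ => rfl⟩
      have h3 : ∀ c : ZMod 2, x 0 p = c → setpq p q c (x 0) = x 0 := by
        rintro c rfl
        funext j
        simp only [setpq]
        split_ifs with h4
        · rcases h4 with rfl | rfl
          · rfl
          · exact hc
        · rfl
      have h4 : ∀ c : ZMod 2, x 0 p ≠ c → setpq p q c (x 0) ≠ x 0 := by
        intro c h5 h6
        apply h5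
        rw [← h6]
        simp [setpq]
      have h5 : Rel p q false (x 0) (x 0) := rfl
      simp only [if_pos hc]
      rcases R2A_cases (x 0 p) 0 with h6 | h6
      · have e1 : setpq p q 0 (x 0) = x 0 := h3 0 h6
        have e2 : setpq p q 1 (x 0) ≠ x 0 := h4 1 (by rw [h6]; decide)
        have e3 : ¬Rel p q false (x 0) (setpq p q 1 (x 0)) := fun h => e2 h.symm
        have e4 : ¬Rel p q false (setpq p q 1 (x 0)) (x 0) := fun h => e2 h
        cases b
        · simp [e1, e3, h2, h5]
          linear_combination -(R2A_two (g (false :: true :: v) (cs (x 0) (cs (x 0) x))))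
        · simp [e1, e4, h2, h5]
          linear_combination -(R2A_two (g (true :: false :: v) (cs (x 0) (cs (x 0) x))))
      · rw [zero_add] at h6
        have e1 : setpq p q 1 (x 0) = x 0 := h3 1 h6
        have e2 : setpq p q 0 (x 0) ≠ x 0 := h4 0 (by rw [h6]; decide)
        have e3 : ¬Rel p q false (x 0) (setpq p q 0 (x 0)) := fun h => e2 h.symm
        have e4 : ¬Rel p q false (setpq p q 0 (x 0)) (x 0) := fun h => e2 h
        cases b
        · simp [e1, e3, h2, h5]
          linear_combination -(R2A_two (g (false :: true :: v) (cs (x 0) (cs (x 0) x))))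
        · simp [e1, e4, h2, h5]
          linear_combination -(R2A_two (g (true :: false :: v) (cs (x 0) (cs (x 0) x))))
    · have h2 : ¬Rel p q true (x 0) (x 0) := fun h => hc h.1
      simp only [if_neg hc]
      cases b <;> simp [h2]

/-- PROOF. `z = 0`. Same type: `so` at `II` is `so w r v x` (rows `r, r, ..`), the `EE` terms vanish. Opposite type (`r p = r q`): the `II` term vanishes (canonical state is `EE`), and exactly one `c` (`c = r p + 1`) gives the canonical row `flip r`: the value is `so w r v x` (`nxt u2 (nxt u1 r) = r`). -/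
theorem phiR2g_soMap (p q : Fin N) (h : p ≠ q) (b : Bool) (w : Word N) (r : Row N) :
    SoMap (⟨p, q, h, b⟩ :: ⟨p, q, h, !b⟩ :: w) w r (phiR2g p q) := by
  classical
  refine ⟨fun _ _ => 0, fun _ _ _ => rfl, fun v x hv hx => ?_⟩
  rw [R2A_dd_zero, add_zero]
  by_cases hr : r p = r q
  · have hfl : flip p q r p = flip p q r q := by
      rw [R2A_flip_p, R2A_flip_q, hr]
    have hso : ∀ (e1 e2 : Bool) (y : Col N),
        so (⟨p, q, h, b⟩ :: ⟨p, q, h, !b⟩ :: w) r (e1 :: e2 :: v) y =
        if y 0 = r ∧ e1 = true then if y 1 = flip p q r ∧ e2 = true then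
          so w r v (tl (tl y)) else 0 else 0 := by
      intro e1 e2 y
      simp only [so, nxt, eo, hr, if_true, hfl, R2A_flip_flip, decide_true, tl_apply]
    simp only [phiR2g, hso, cs_zero, cs_succ, tl_cs]
    by_cases h0 : x 0 = r
    · have h1 : ∀ c : ZMod 2, r p = c + 1 → setpq p q c r = flip p q r := by
        intro c hc
        funext j
        simp only [setpq, flip]
        split_ifs with h4
        · rcases h4 with rfl | rfl
          · rw [hc, add_assoc, R2A_two, add_zero]
          · rw [← hr, hc, add_assoc, R2A_two, add_zero]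
        · rfl
      have h2 : ∀ c : ZMod 2, r p = c → setpq p q c r ≠ flip p q r := by
        intro c hc h3
        have h4 := congrFun h3 p
        simp [setpq, flip, hc] at h4
      rcases R2A_cases (r p) 0 with h6 | h6
      · have e1 : setpq p q 1 r = flip p q r := h1 1 (by rw [h6, R2A_two])
        have e2 : setpq p q 0 r ≠ flip p q r := h2 0 h6
        simp [h0, hr, e1, e2]
      · have e1 : setpq p q 0 r = flip p q r := h1 0 h6
        have e2 : setpq p q 1 r ≠ flip p q r := h2 1 (by rw [h6, zero_add])
        simp [h0, hr, e1, e2]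
    · simp [h0, R2A_so_ne w h0]
  · have hso : ∀ (e1 e2 : Bool) (y : Col N),
        so (⟨p, q, h, b⟩ :: ⟨p, q, h, !b⟩ :: w) r (e1 :: e2 :: v) y =
        if y 0 = r ∧ e1 = false then if y 1 = r ∧ e2 = false then
          so w r v (tl (tl y)) else 0 else 0 := by
      intro e1 e2 y
      simp only [so, nxt, eo, hr, if_false, decide_false, tl_apply]
    simp only [phiR2g, hso, cs_zero, cs_succ, tl_cs]
    by_cases h0 : x 0 = r
    · simp [h0]
    · simp [h0, R2A_so_ne w h0]

end Pool.Agent.HK
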