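import Pool.Agent.H.MP_cd3d06_an.K.R3Defs

/-!
Part A: the third Reidemeister move (positive letters),
`(p,m) (m,q) (p,m)  →  (m,q) (p,m) (m,q)`, three different positions `p, m, q`.  Additivity, locality.
-/

namespace Pool.Agent.HK

variable {N : ℕ}

variable {p m q : Fin N}

/-- PROOF. Unfold, cases on the first three entries of `v`, `split_ifs`, `ring`. -/
theorem phiR3_add (g g' : Coch N) (v : List Bool) (x : Col N) :
    phiR3 p m (fun v y => g v y + g' v y) v x = phiR3 p m g v x + phiR3 p m g' v x := by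
  unfold phiR3 loop3 at3
  rcases v with _ | ⟨e1, _ | ⟨e2, _ | ⟨e3, v⟩⟩⟩
  · simp
  · simp
  · simp
  · cases e1 <;> cases e2 <;> cases e3 <;> dsimp only <;> (try split_ifs) <;> ring

/-- the values of two cochains at a valid colouring of the left word agree -/
theorem R3A_at3 (hpm : p ≠ m) (hmq : m ≠ q) (w : Word N) (g g' : Coch N)
    (s1 s2 s3 : Bool) (v : List Bool) (x : Col N) (r1 r2 : Row N)
    (hv : v.length = w.length) (hx : Valid w v (tl (tl (tl x))))
    (h : ∀ v' y, v'.length = (w3 hpm hmq w).length → Valid (w3 hpm hmq w) v' y → y 0 = x 0 →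
      g v' y = g' v' y)
    (h1 : Rel p m s1 (x 0) r1) (h2 : Rel m q s2 r1 r2) (h3 : Rel p m s3 r2 (x 3)) :
    at3 g s1 s2 s3 v x r1 r2 = at3 g' s1 s2 s3 v x r1 r2 := by
  unfold at3
  apply h
  · simp [w3, hv]
  · exact ⟨h1, h2, h3, hx⟩
  · rfl

theorem R3A_set1 (a : Row N) (c : ZMod 2) : setpq p m c a p = setpq p m c a m := by
  simp [setpq]

theorem R3A_set2 (a : Row N) (c : ZMod 2) (j : Fin N) (h1 : j ≠ p) (h2 : j ≠ m) :
    setpq p m c a j = a j := by
  simp [setpq, h1, h2]

/-- the loop terms agree -/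
theorem R3A_loop (hpm : p ≠ m) (hmq : m ≠ q) (w : Word N) (g g' : Coch N)
    (v : List Bool) (x : Col N)
    (hv : v.length = w.length) (hx : Valid w v (tl (tl (tl x))))
    (h : ∀ v' y, v'.length = (w3 hpm hmq w).length → Valid (w3 hpm hmq w) v' y → y 0 = x 0 →
      g v' y = g' v' y)
    (h1 : Rel p m true (x 0) (x 3)) :
    loop3 p m g v x = loop3 p m g' v x := by
  unfold loop3
  have key : ∀ c : ZMod 2, at3 g true false true v x (setpq p m c (x 0)) (setpq p m c (x 0)) =
      at3 g' true false true v x (setpq p m c (x 0)) (setpq p m c (x 0)) := by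
    intro c
    refine R3A_at3 hpm hmq w g g' true false true v x _ _ hv hx h ?_ rfl ?_
    · exact ⟨h1.1, R3A_set1 _ _, fun j hj hj' => (R3A_set2 _ _ j hj hj').symm⟩
    · refine ⟨R3A_set1 _ _, h1.2.1, fun j hj hj' => ?_⟩
      rw [R3A_set2 _ _ j hj hj']
      exact h1.2.2 j hj hj'
  rw [key 0, key 1]

/-- PROOF. Cases on the first three states (8 cases). In each case one has to see that the colourings used are valid for the left word in the stated state and have the same row number 0 and the same rows from number 3 on. Target rows `a = x 0, x 1, x 2, b = x 3`, target word `B A B`. `III`: `a = b`. `IEI`: `E_A` between `x 1 = a` and `x 2 = b`: valid for the left states `EII` (rows `a, b, b, b`) and `IIE` (rows `a, a, a, b`). `EII`: `E_B` between `a` and `b`: left `IEI`, rows `a, a, b, b`. `IEE`: `x 1 = a`, `E_A` between `a, x 2`, `E_B` between `x 2, b`: left `EEI` rows `a, x 2, b, b`; if `x 2 = b` then `E_A` between `a` and `b`, and left `EIE` rows `a, c, c, b` with `c = setpq p m _ a`: `E_A` between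 `a, c` and between `c, b`. `EEI`: `E_B` between `a, x 1`, `E_A` between `x 1, b`, `x 2 = b`: left `IEE` rows `a, a, x 1, b`; if `a = x 1`: `E_A` between `a, b`. `EIE`: `E_B` between `a, x 1`, `x 1 = x 2`, `E_B` between `x 1, b`, so `a m = a q`, `b m = b q`, equal elsewhere, i.e. `E_B` between `a` and `b`; if `a p = a m`: left `EEI` rows `a, a, b, b` (`E_A` between `a, a`; `E_B` between `a, b`); if moreover `a = b`: left `EIE` with `E_A` between `a` and `b = a`. -/
theorem phiR3_loc (hpm : p ≠ m) (hmq : m ≠ q) (hpq : p ≠ q) (w : Word N) (g g' : Coch N)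
    (v : List Bool) (x : Col N) (hv : v.length = (w3' hpm hmq w).length)
    (hx : Valid (w3' hpm hmq w) v x)
    (h : ∀ v' y, v'.length = (w3 hpm hmq w).length → Valid (w3 hpm hmq w) v' y → y 0 = x 0 →
      g v' y = g' v' y) : phiR3 p m g v x = phiR3 p m g' v x := by
  have hv0 : ∃ e1 e2 e3 v0, v = e1 :: e2 :: e3 :: v0 := by
    rcases v with _ | ⟨e1, _ | ⟨e2, _ | ⟨e3, v⟩⟩⟩
    · simp [w3'] at hv
    · simp [w3'] at hv
    · simp [w3'] at hv
    · exact ⟨_, _, _, _, rfl⟩
  obtain ⟨e1, e2, e3, v, rfl⟩ := hv0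
  have hv1 : v.length = w.length := by simpa [w3'] using hv
  obtain ⟨r1, r2, r3, hx⟩ := hx
  have A := R3A_at3 hpm hmq w g g'
  have L := R3A_loop hpm hmq w g g' v x hv1 hx h
  unfold phiR3
  cases e1 <;> cases e2 <;> cases e3 <;> dsimp only
  · -- III
    have r1 : x 0 = x 1 := r1
    have r2 : x 1 = x 2 := r2
    have r3 : x 2 = x 3 := r3
    exact A false false false v x _ _ hv1 hx h rfl rfl (r1.trans (r2.trans r3))
  · -- IEI
    have r1 : x 0 = x 1 := r1
    have r2 : Rel p m true (x 1) (x 2) := r2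
    have r3 : x 2 = x 3 := r3
    rw [← r1, r3] at r2
    rw [A true false false v x _ _ hv1 hx h r2 rfl rfl,
      A false false true v x _ _ hv1 hx h rfl rfl r2]
  · -- IEE
    have r1 : x 0 = x 1 := r1
    have r2 : Rel p m true (x 1) (x 2) := r2
    have r3 : Rel m q true (x 2) (x 3) := r3
    rw [← r1] at r2
    rw [A true true false v x _ _ hv1 hx h r2 r3 rfl]
    congr 1
    split_ifs with h23
    · rw [h23] at r2
      exact L r2
    · rfl
  · -- EII
    have r1 : Rel m q true (x 0) (x 1) := r1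
    have r2 : x 1 = x 2 := r2
    have r3 : x 2 = x 3 := r3
    rw [r2, r3] at r1
    exact A false true false v x _ _ hv1 hx h rfl r1 rfl
  · -- EIE
    have r1 : Rel m q true (x 0) (x 1) := r1
    have r2 : x 1 = x 2 := r2
    have r3 : Rel m q true (x 2) (x 3) := r3
    rw [← r2] at r3
    have r4 : Rel m q true (x 0) (x 3) :=
      ⟨r1.1, r3.2.1, fun j hj hj' => (r1.2.2 j hj hj').trans (r3.2.2 j hj hj')⟩
    by_cases h0 : x 0 p = x 0 m
    · rw [if_pos h0, if_pos h0]
      rw [A true true false v x _ _ hv1 hx h ⟨h0, h0, fun _ _ _ => rfl⟩ r4 rfl]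
      congr 1
      split_ifs with h03
      · apply L
        rw [← h03]
        exact ⟨h0, h0, fun _ _ _ => rfl⟩
      · rfl
    · rw [if_neg h0, if_neg h0]
  · -- EEI
    have r1 : Rel m q true (x 0) (x 1) := r1
    have r2 : Rel p m true (x 1) (x 2) := r2
    have r3 : x 2 = x 3 := r3
    rw [r3] at r2
    rw [A false true true v x _ _ hv1 hx h rfl r1 r2]
    congr 1
    split_ifs with h01
    · apply L
      rw [h01]
      exact r2
    · rfl

end Pool.Agent.HK
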