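import Pool.Agent.H.MP_cd3d06_an.K.R3A

/-!
Part A: the third Reidemeister move (positive letters),
`(p,m) (m,q) (p,m)  →  (m,q) (p,m) (m,q)`, three different positions `p, m, q`.  Chain map, last letter I.
-/

namespace Pool.Agent.HK

variable {N : ℕ}

variable {p m q : Fin N}


private theorem R3B_c1 (x : Col N) : cs (x 1) (tl (tl x)) = tl x := by
  funext t; cases t <;> rfl

/-- the part of the differential in the word `w` -/
private noncomputable def R3B_T (w : Word N) (g : Coch N) (v : List Bool) (x : Col N)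
    (s1 s2 s3 : Bool) (r1 r2 : Row N) : ZMod 2 :=
  dd w (fun v' y => g (s1 :: s2 :: s3 :: v') (cs (x 0) (cs r1 (cs r2 y)))) v (tl (tl (tl x)))

open Classical in
private theorem R3B_at3 (hpm : p ≠ m) (hmq : m ≠ q) (w : Word N) (g : Coch N) (v : List Bool)
    (x : Col N) (s1 s2 s3 : Bool) (r1 r2 : Row N) :
    at3 (dd (w3 hpm hmq w) g) s1 s2 s3 v x r1 r2 =
      (if s1 = false ∧ Rel p m true (x 0) r1 then at3 g true s2 s3 v x r1 r2 else 0) +
      ((if s2 = false ∧ Rel m q true r1 r2 then at3 g s1 true s3 v x r1 r2 else 0) +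
      ((if s3 = false ∧ Rel p m true r2 (x 3) then at3 g s1 s2 true v x r1 r2 else 0) +
        R3B_T w g v x s1 s2 s3 r1 r2)) := by
  simp [at3, w3, dd, R3B_T]

open Classical in
private theorem R3B_dd (hpm : p ≠ m) (hmq : m ≠ q) (w : Word N) (h : Coch N) (v : List Bool)
    (x : Col N) (s1 s2 s3 : Bool) :
    dd (w3' hpm hmq w) h (s1 :: s2 :: s3 :: v) x =
      (if s1 = false ∧ Rel m q true (x 0) (x 1) then h (true :: s2 :: s3 :: v) x else 0) +
      ((if s2 = false ∧ Rel p m true (x 1) (x 2) then h (s1 :: true :: s3 :: v) x else 0) +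
      ((if s3 = false ∧ Rel m q true (x 2) (x 3) then h (s1 :: s2 :: true :: v) x else 0) +
        dd w (fun v' y => h (s1 :: s2 :: s3 :: v') (cs (x 0) (cs (x 1) (cs (x 2) y)))) v
          (tl (tl (tl x))))) := by
  simp only [w3', dd, Bool.not_true, tl_apply, zero_add, R3B_c1, cs_tl, Nat.reduceAdd]

private theorem R3B_Tff (w : Word N) (g : Coch N) (v : List Bool) (x : Col N) :
    dd w (fun v' y => phiR3 p m g (false :: false :: false :: v')
      (cs (x 0) (cs (x 1) (cs (x 2) y)))) v (tl (tl (tl x))) =
      R3B_T w g v x false false false (x 0) (x 0) := by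
  simp [phiR3, at3, R3B_T]

private theorem R3B_Tft (w : Word N) (g : Coch N) (v : List Bool) (x : Col N)
    (hv : v.length = w.length) (hx : Valid w v (tl (tl (tl x)))) :
    dd w (fun v' y => phiR3 p m g (false :: true :: false :: v')
      (cs (x 0) (cs (x 1) (cs (x 2) y)))) v (tl (tl (tl x))) =
      R3B_T w g v x true false false (x 3) (x 3) + R3B_T w g v x false false true (x 0) (x 0) := by
  rw [R3B_T, R3B_T, ← dd_add]
  apply dd_loc hv hx
  intro v' y _ _ hy
  have hy' : y 0 = x 3 := hy
  simp only [phiR3, at3, cs_zero, tl_cs]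
  simp only [show ∀ z : Col N, cs (x 0) (cs (x 1) (cs (x 2) z)) 3 = z 0 from fun z => rfl, hy']

private theorem R3B_Ttf (w : Word N) (g : Coch N) (v : List Bool) (x : Col N)
    (hv : v.length = w.length) (hx : Valid w v (tl (tl (tl x)))) :
    dd w (fun v' y => phiR3 p m g (true :: false :: false :: v')
      (cs (x 0) (cs (x 1) (cs (x 2) y)))) v (tl (tl (tl x))) =
      R3B_T w g v x false true false (x 0) (x 3) := by
  rw [R3B_T]
  apply dd_loc hv hx
  intro v' y _ _ hy
  have hy' : y 0 = x 3 := hy
  simp only [phiR3, at3, cs_zero, tl_cs]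
  simp only [show ∀ z : Col N, cs (x 0) (cs (x 1) (cs (x 2) z)) 3 = z 0 from fun z => rfl, hy']

open Classical in
private theorem R3B_Ttt (w : Word N) (g : Coch N) (v : List Bool) (x : Col N)
    (hv : v.length = w.length) (hx : Valid w v (tl (tl (tl x)))) :
    dd w (fun v' y => phiR3 p m g (true :: true :: false :: v')
      (cs (x 0) (cs (x 1) (cs (x 2) y)))) v (tl (tl (tl x))) =
      R3B_T w g v x false true true (x 0) (x 1) + if x 0 = x 1 then
        (R3B_T w g v x true false true (setpq p m 0 (x 0)) (setpq p m 0 (x 0)) +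
        R3B_T w g v x true false true (setpq p m 1 (x 0)) (setpq p m 1 (x 0))) else 0 := by
  by_cases h : x 0 = x 1
  · rw [if_pos h]
    simp only [R3B_T]
    rw [← dd_add, ← dd_add]
    apply dd_loc hv hx
    intro v' y _ _ hy
    have hy' : y 0 = x 3 := hy
    simp [phiR3, at3, loop3, ← h]
  · rw [if_neg h, add_zero]
    simp only [R3B_T]
    apply dd_loc hv hx
    intro v' y _ _ hy
    have hy' : y 0 = x 3 := hy
    simp [phiR3, at3, h]

private theorem R3B_set (c : ZMod 2) {a b : Row N} (hp : b p = c) (hm : b m = c)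
    (hj : ∀ j, j ≠ p → j ≠ m → a j = b j) : setpq p m c a = b := by
  funext j
  unfold setpq
  split_ifs with h
  · rcases h with h | h
    · rw [h, hp]
    · rw [h, hm]
  · push Not at h
    exact hj j h.1 h.2

/-- the chain map property for the states whose last letter of the target word is `I`
PROOF. The states of the left word `u = A B A`, `A = (p,m)`, `B = (m,q)`, rows `a, r1, r2, b`; all letters are positive, so the source state is `E = true` and the target state is `I = false`. Contributions of the letters of `w` agree on both sides (use `dd_loc`/`add`; they only change the state of `w`), so only the three letters matter. Denote by `G(s1 s2 s3; r1, r2)` the value `at3 g s1 s2 s3 v x r1 r2` with `a = x 0`, `b = x 3`; `L` the loop sum. For each target state list the contributions of `dd (B A B)` applied to `φ g` (letter `t` in state `I` receives from the state with `E` at `t`, if the rows around the letter satisfy `Rel E`) and of `φ (dd (A B A) g)`. Target `I I I` (a = b, all rows equal): left side: from `E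 I I` if `a m = a q`: `G(IEI; a, a)`; from `I E I` if `a p = a m`: `G(EII; a, a) + G(IIE; a, a)`; from `I I E`: 0. Right side: `dd g (III)`: from `EII` and `IIE` if `a p = a m`, from `IEI` if `a m = a q`: the same. Target `I E I` (`x 1 = a`, `E_A` between `a` and `b = x 2`): left side: letter 1 from `E E I` if `Rel E_B a a`, i.e. `a m = a q`: `φ g` there with `x 1 = a`: `G(IEE; a, a) + L`; letter 3 (rows `b, b`) from `I E E` if `b m = b q`: `G(EEI; b, b) + L`. Right side: `dd g (EII; b, b) + dd g (IIE; a, a)`: first: letter 2 (rows `b, b`) from `EEI` if `b m = b q`: `G(EEI; b, b)`, letter 3 (rows `b, b`) from `EIE` if `b p = b m` (true): `G(EIE; b, b)`; second: letter 1 (rows `a, a`) from `EIE` (true): `G(EIE; a, a)`, letter 2 from `IEE` if `a m = a q`: `G(IEE; a, a)`. Now `L = sum over c of G(EIE; c, c)` where the two rows `c` are `a` with the value at `p, m` replaced. `a` and `b` agree outside of `p, m`. If `a = b`: `a m = a q` iff `b m = b q`, the two `L` cancel or are absent, and `G(EIE; a, a) + G(EIE; b, b) =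 0`. If `a ≠ b`: `{a, b}` are the two rows `c`, so the right side has `L`; and exactly one of `a m = a q`, `b m = b q` holds (as `a q = b q`, `a m ≠ b m`): the left side has `L` exactly once. Target `E I I` (`E_B` between `a` and `b`, `x 1 = x 2 = b`): left side: letter 2 (rows `b, b`) from `E E I` if `b p = b m`: `G(IEE; a, b) + [a = b] L`; letter 3 (rows `b, b`) from `E I E` (condition `b m = b q` true): `[a p = a m] (G(EEI; a, b) + [a = b] L)`. Right side: `dd g (IEI; a, b)`: letter 1 (rows `a, a`) from `EEI` if `a p = a m`: `G(EEI; a, b)`; letter 3 (rows `b, b`) from `IEE` if `b p = b m`: `G(IEE; a, b)`. If `a = b` the two `L` terms cancel. Target `E E I` (`E_B` between `a, x 1`; `E_A` between `x 1, b`; `x 2 = b`): left side: letter 3 (rows `b, b`) from `E E E`: `φ g = 0`. Right side: `dd g (IEE; a, x 1) + [a = x 1] sum_c dd g (EIE; c, c)`: `IEE` receives by letter 1 (rows `a, a`) from `EEE` if `a p = a m`: `G(EEE; a, x 1)`; `EIE; c, c` receives by letter 2 (rows `c, c`) from `EEE` if `c m = c q`: for exactly one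 `c` (value `a q`): `G(EEE; c, c)`. If `a = x 1`: `E_B` between `a, a` and `E_A` between `a, b` say `a p = a m = a q`, so this `c` is `a`, the terms cancel. If `a ≠ x 1`: `a m ≠ x1 m`, `x1 p = x1 m`, `x1 p = a p`, so `a p ≠ a m`, both absent. -/
theorem phiR3_chainI (hpm : p ≠ m) (hmq : m ≠ q) (hpq : p ≠ q) (w : Word N) (g : Coch N)
    (s1 s2 : Bool) (v : List Bool) (x : Col N) (hv : v.length = w.length)
    (hx : Valid (w3' hpm hmq w) (s1 :: s2 :: false :: v) x) :
    dd (w3' hpm hmq w) (phiR3 p m g) (s1 :: s2 :: false :: v) x =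
      phiR3 p m (dd (w3 hpm hmq w) g) (s1 :: s2 :: false :: v) x := by
  classical
  have hv0 : v.length = w.length := by simpa [w3'] using hv
  obtain ⟨h01, h12, h23, hx3⟩ := hx
  simp only [tl_apply, Nat.reduceAdd, zero_add] at h01 h12 h23
  have e23 : x 2 = x 3 := h23
  have hz : ∀ c : ZMod 2, c = 0 ∨ c = 1 := by decide
  have z01 : (0 : ZMod 2) ≠ 1 := by decide
  have z10 : (1 : ZMod 2) ≠ 0 := by decide
  rw [R3B_dd]
  cases s1 <;> cases s2
  · -- state I I I
    have e01 : x 1 = x 0 := h01.symm
    have e02 : x 2 = x 0 := by rw [← e01]; exact h12.symm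
    have e03 : x 3 = x 0 := by rw [← e23, e02]
    rw [R3B_Tff]
    simp only [phiR3, R3B_at3, e01, e02, e03]
    by_cases hA : Rel p m true (x 0) (x 0) <;> by_cases hB : Rel m q true (x 0) (x 0) <;>
      simp [hA, hB] <;> ring
  · -- state I E I
    have e01 : x 1 = x 0 := h01.symm
    simp only [e01] at h12
    simp only [e23] at h12
    rw [R3B_Tft w g v x hv0 hx3]
    simp only [phiR3, R3B_at3, e01, e23, loop3]
    obtain ⟨hp0, hp3, hj⟩ := h12
    have hA0 : Rel p m true (x 0) (x 0) := ⟨hp0, hp0, fun _ _ _ => rfl⟩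
    have hA3 : Rel p m true (x 3) (x 3) := ⟨hp3, hp3, fun _ _ _ => rfl⟩
    have hq : x 0 q = x 3 q := hj q hpq.symm hmq.symm
    have hL0 : setpq p m (x 0 p) (x 0) = x 0 := R3B_set _ rfl hp0.symm fun _ _ _ => rfl
    have hL3 : setpq p m (x 3 p) (x 0) = x 3 := R3B_set _ rfl hp3.symm hj
    have hR0 : Rel m q true (x 0) (x 0) ↔ x 0 p = x 3 q :=
      ⟨fun h => by rw [← hq, ← h.1, hp0], fun h => ⟨by rw [← hp0, h, hq], by rw [← hp0, h, hq],
        fun _ _ _ => rfl⟩⟩
    have hR3 : Rel m q true (x 3) (x 3) ↔ x 3 p = x 3 q :=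
      ⟨fun h => by rw [← h.1, hp3], fun h => ⟨by rw [← hp3, h], by rw [← hp3, h],
        fun _ _ _ => rfl⟩⟩
    have k0 : at3 g true false true v x (x 0) (x 0) =
        at3 g true false true v x (setpq p m (x 0 p) (x 0)) (setpq p m (x 0 p) (x 0)) := by
      rw [hL0]
    have k3 : at3 g true false true v x (x 3) (x 3) =
        at3 g true false true v x (setpq p m (x 3 p) (x 0)) (setpq p m (x 3 p) (x 0)) := by
      rw [hL3]
    rw [k0, k3]
    simp only [hR0, hR3, hA0, hA3]
    rcases hz (x 0 p) with h | h <;> rcases hz (x 3 p) with h' | h' <;>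
      rcases hz (x 3 q) with h'' | h'' <;> simp [h, h', h''] <;> grind
  · -- state E I I
    have e12 : x 1 = x 3 := by rw [← e23]; exact h12
    simp only [e12] at h01
    rw [R3B_Ttf w g v x hv0 hx3]
    simp only [phiR3, R3B_at3, e12, e23]
    obtain ⟨hm0, hm3, hj⟩ := h01
    have hB3 : Rel m q true (x 3) (x 3) := ⟨hm3, hm3, fun _ _ _ => rfl⟩
    have hR0 : Rel p m true (x 0) (x 0) ↔ x 0 p = x 0 m :=
      ⟨fun h => h.1, fun h => ⟨h, h, fun _ _ _ => rfl⟩⟩
    have hR3 : Rel p m true (x 3) (x 3) ↔ x 3 p = x 3 m :=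
      ⟨fun h => h.1, fun h => ⟨h, h, fun _ _ _ => rfl⟩⟩
    simp only [hR0, hR3, hB3]
    by_cases h03 : x 0 = x 3
    · simp only [← h03]
      by_cases h : x 0 p = x 0 m
      · simp [h]; grind
      · simp [h]
    · by_cases h : x 0 p = x 0 m <;> by_cases h' : x 3 p = x 3 m <;> simp [h, h', h03] <;> grind
  · -- state E E I
    simp only [e23] at h12
    rw [R3B_Ttt w g v x hv0 hx3]
    simp only [phiR3, R3B_at3, loop3]
    obtain ⟨hm0, hm1, hj⟩ := h01
    obtain ⟨hp1, hp3, hj'⟩ := h12
    have h01p : x 0 p = x 1 p := hj p hpm hpq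
    have hR0 : Rel p m true (x 0) (x 0) ↔ x 0 p = x 0 m :=
      ⟨fun h => h.1, fun h => ⟨h, h, fun _ _ _ => rfl⟩⟩
    by_cases h : x 0 = x 1
    · have hpm0 : x 0 p = x 0 m := by rw [h01p, hp1, h]
      have hR : ∀ c : ZMod 2, Rel m q true (setpq p m c (x 0)) (setpq p m c (x 0)) ↔ c = x 0 m := by
        intro c
        have e1 : setpq p m c (x 0) m = c := by simp [setpq]
        have e2 : setpq p m c (x 0) q = x 0 q := by simp [setpq, hpq.symm, hmq.symm]
        constructor
        · intro h'
          have := h'.1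
          rw [e1, e2] at this
          rw [this, hm0]
        · intro h'
          exact ⟨by rw [e1, e2, h', hm0], by rw [e1, e2, h', hm0], fun _ _ _ => rfl⟩
      have hL0 : setpq p m (x 0 m) (x 0) = x 0 := R3B_set _ hpm0 rfl fun _ _ _ => rfl
      have k0 : at3 g true true true v x (x 0) (x 0) =
          at3 g true true true v x (setpq p m (x 0 m) (x 0)) (setpq p m (x 0 m) (x 0)) := by
        rw [hL0]
      simp only [hR0, hpm0, ← h, k0, hR]
      rcases hz (x 0 m) with h' | h' <;> simp [h'] <;> grind
    · have hne : ¬ x 0 p = x 0 m := by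
        intro h'
        apply h
        have h1m : x 1 m = x 0 m := by rw [← h', h01p, hp1]
        funext j
        by_cases hjm : j = m
        · rw [hjm, h1m]
        · by_cases hjq : j = q
          · rw [hjq, ← hm0, ← hm1, h1m]
          · exact hj j hjm hjq
      simp [hR0, hne, h]

end Pool.Agent.HK
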