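import Pool.Agent.H.MP_cd3d06_an.K.R2A

/-!
Part A: the third Reidemeister move (positive letters),
`(p,m) (m,q) (p,m)  →  (m,q) (p,m) (m,q)`, three different positions `p, m, q`.  Definitions.
-/

namespace Pool.Agent.HK

variable {N : ℕ}

/-- value of `g` at the colouring with rows `x 0, r1, r2, x 3, x 4, ...` -/
def at3 (g : Coch N) (s1 s2 s3 : Bool) (v : List Bool) (x : Col N) (r1 r2 : Row N) : ZMod 2 :=
  g (s1 :: s2 :: s3 :: v) (cs (x 0) (cs r1 (cs r2 (tl (tl (tl x))))))

/-- the sum over the label of the closed circle of the state `E I E` of `(p,m) (m,q) (p,m)` -/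
def loop3 (p m : Fin N) (g : Coch N) (v : List Bool) (x : Col N) : ZMod 2 :=
  at3 g true false true v x (setpq p m 0 (x 0)) (setpq p m 0 (x 0)) +
    at3 g true false true v x (setpq p m 1 (x 0)) (setpq p m 1 (x 0))

noncomputable def phiR3 (p m : Fin N) : Coch N → Coch N := fun g v x =>
  open Classical in
  match v with
  | false :: false :: false :: v => at3 g false false false v x (x 0) (x 0)
  | false :: true :: false :: v =>
      at3 g true false false v x (x 3) (x 3) + at3 g false false true v x (x 0) (x 0)
  | true :: false :: false :: v => at3 g false true false v x (x 0) (x 3)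
  | false :: true :: true :: v =>
      at3 g true true false v x (x 2) (x 3) + if x 2 = x 3 then loop3 p m g v x else 0
  | true :: true :: false :: v =>
      at3 g false true true v x (x 0) (x 1) + if x 0 = x 1 then loop3 p m g v x else 0
  | true :: false :: true :: v =>
      if x 0 p = x 0 m then
        at3 g true true false v x (x 0) (x 3) + if x 0 = x 3 then loop3 p m g v x else 0
      else 0
  | _ => 0

variable {p m q : Fin N}

/-- the left word -/
def w3 (hpm : p ≠ m) (hmq : m ≠ q) (w : Word N) : Word N :=
  ⟨p, m, hpm, true⟩ :: ⟨m, q, hmq, true⟩ :: ⟨p, m, hpm, true⟩ :: w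

/-- the right word -/
def w3' (hpm : p ≠ m) (hmq : m ≠ q) (w : Word N) : Word N :=
  ⟨m, q, hmq, true⟩ :: ⟨p, m, hpm, true⟩ :: ⟨m, q, hmq, true⟩ :: w

end Pool.Agent.HK
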