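import Pool.Agent.H.MP_cd3d06_an.K.SadA

/-!
Part A: the level of the saddle map.
-/

namespace Pool.Agent.HK

variable {N : ℕ}

theorem Sad_zmod {a : ZMod 2} (h : a ≠ 0) : a + 1 = 0 := by
  revert a
  decide

/-- the dimension of the kernel of a functional on a subspace -/
theorem Sad_finrank {M : Type*} [AddCommGroup M] [Module (ZMod 2) M] {V W : Submodule (ZMod 2) M}
    [Module.Finite (ZMod 2) V] (lam : M →ₗ[ZMod 2] ZMod 2)
    (hW : ∀ x, x ∈ W ↔ x ∈ V ∧ lam x = 0) :
    Module.finrank (ZMod 2) V ≤ Module.finrank (ZMod 2) W + 1 ∧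
      ((∃ x ∈ V, lam x ≠ 0) → Module.finrank (ZMod 2) V = Module.finrank (ZMod 2) W + 1) := by
  have hle : W ≤ V := fun x hx => ((hW x).1 hx).1
  have hker : LinearMap.ker (lam.domRestrict V) = Submodule.comap V.subtype W := by
    ext x
    rw [LinearMap.mem_ker, Submodule.mem_comap]
    change lam x = 0 ↔ (x : M) ∈ W
    rw [hW]
    exact ⟨fun h => ⟨x.2, h⟩, fun h => h.2⟩
  have h1 := LinearMap.finrank_range_add_finrank_ker (lam.domRestrict V)
  have h2 : Module.finrank (ZMod 2) (LinearMap.ker (lam.domRestrict V)) =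
      Module.finrank (ZMod 2) W := by
    rw [hker]
    exact (Submodule.comapSubtypeEquivOfLe hle).finrank_eq
  have h3 : Module.finrank (ZMod 2) (LinearMap.range (lam.domRestrict V)) ≤ 1 := by
    have h4 := Submodule.finrank_le (LinearMap.range (lam.domRestrict V))
    rw [Module.finrank_self] at h4
    exact h4
  refine ⟨by omega, ?_⟩
  rintro ⟨x, hx, hlx⟩
  have h5 : 0 < Module.finrank (ZMod 2) (LinearMap.range (lam.domRestrict V)) := by
    rw [Module.finrank_pos_iff]
    refine ⟨⟨⟨lam x, ⟨⟨x, hx⟩, rfl⟩⟩, 0, ?_⟩⟩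
    intro h6
    exact hlx (congrArg Subtype.val h6)
  omega

/-- the condition for the other state -/
theorem Sad_switch {w1 w2 : Word N} {v1 v2 : List Bool} (h : v1.length = w1.length)
    (l : Letter N) (e e' : Bool) {x : Col N} (hx : Valid (w1 ++ l :: w2) (v1 ++ e :: v2) x) :
    Valid (w1 ++ l :: w2) (v1 ++ e' :: v2) x ↔
      Rel l.p l.q e' (x w1.length) (x (w1.length + 1)) := by
  induction w1 generalizing v1 x with
  | nil =>
    cases v1 with
    | nil => exact ⟨fun h => h.1, fun h => ⟨h, hx.2⟩⟩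
    | cons b v1 => simp at h
  | cons l' w1 ih =>
    cases v1 with
    | nil => simp at h
    | cons b v1 =>
      have h' : v1.length = w1.length := by simpa using h
      have h1 := ih h' (x := tl x) hx.2
      constructor
      · intro h2
        exact h1.1 h2.2
      · intro h2
        exact ⟨hx.1, h1.2 h2⟩

/-- abstract saddle: two subspaces `V1, V2` whose intersection is cut out by one functional in each
of them, at least one of the two functionals being zero on its subspace
PROOF. Write `k1, k2` for the dimensions, `W = V1 ⊓ V2`, cut out of `V1` by `lam1` and out of `V2` by `lam2`. Case 1: `lam1 = 0` on `V1`. Then `V1 = W ≤ V2`. If `lam2 = 0` on `V2`, too, then `V1 = V2`, `k1 = k2`, the function agrees with `f` on `V2`; use `D.mono`. Otherwise `k2 = k1 + 1` (`V1` is the kernel of a nonzero functional on `V2`), and for `k2 + B + 1 < 2 e`, i.e. `k1 + B < 2 (e - 1)`: if `e = 0` then `k1 + B < -2 < 0`, so `f = 0` on `V1` and the extension is 0; if `e = e' + 1`: `DegLT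 V1 e' f`, and `DegLT.ext` (with `W := V1`, `lam := lam2`) gives `DegLT V2 (e'+1) ((lam2 x + 1) * f x)`, which agrees on `V2` with the function (`lam2 x = 0` iff `x ∈ V1`). Case 2: `lam2 = 0` on `V2`: then `V2 ≤ V1`, the function is the restriction of `f`, `DegLT.comp'` with the identity; `k1 ≤ k2 + 1` because `V2 = W` is the kernel of `lam1` on `V1`; so `k1 + B ≤ k2 + B + 1`. -/
theorem D.saddle {M : Type*} [AddCommGroup M] [Module (ZMod 2) M] {V1 V2 : Submodule (ZMod 2) M}
    [Module.Finite (ZMod 2) V1] [Module.Finite (ZMod 2) V2] (lam1 lam2 : M →ₗ[ZMod 2] ZMod 2)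
    (h1 : ∀ x ∈ V1, x ∈ V2 ↔ lam1 x = 0) (h2 : ∀ x ∈ V2, x ∈ V1 ↔ lam2 x = 0)
    (h : (∀ x ∈ V1, lam1 x = 0) ∨ (∀ x ∈ V2, lam2 x = 0)) {B : ℤ} {f : M → ZMod 2}
    (hf : D V1 (Module.finrank (ZMod 2) V1 + B) f) :
    D V2 (Module.finrank (ZMod 2) V2 + B + 1)
      (fun x => open Classical in if x ∈ V1 then f x else 0) := by
  classical
  by_cases hl2 : ∀ x ∈ V2, lam2 x = 0
  · have hle : V2 ≤ V1 := fun x hx => (h2 x hx).2 (hl2 x hx)
    have hdim := (Sad_finrank (V := V1) (W := V2) lam1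
      (fun x => ⟨fun hx => ⟨hle hx, (h1 x (hle hx)).1 hx⟩, fun hx => (h1 x hx.1).2 hx.2⟩)).1
    intro e he
    have h3 : DegLT V1 e f := hf e (by omega)
    have h4 : DegLT V2 e (fun x => f (LinearMap.id (R := ZMod 2) x)) :=
      h3.comp' (LinearMap.id (R := ZMod 2)) (fun x hx => hle hx)
    refine h4.congr ?_
    intro x hx
    rw [if_pos (hle hx)]
    rfl
  · have hl1 : ∀ x ∈ V1, lam1 x = 0 := h.resolve_right hl2
    have hle : V1 ≤ V2 := fun x hx => (h1 x hx).2 (hl1 x hx)
    have hW : ∀ x, x ∈ V1 ↔ x ∈ V2 ∧ lam2 x = 0 := fun x =>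
      ⟨fun hx => ⟨hle hx, (h2 x (hle hx)).1 hx⟩, fun hx => (h2 x hx.1).2 hx.2⟩
    have hex : ∃ x ∈ V2, lam2 x ≠ 0 := by
      by_contra hcon
      apply hl2
      intro x hx
      by_contra hne
      exact hcon ⟨x, hx, hne⟩
    have hdim := (Sad_finrank (V := V2) (W := V1) lam2 hW).2 hex
    intro e he
    cases e with
    | zero =>
      have h3 : DegLT V1 0 f := hf 0 (by push_cast at he ⊢; omega)
      intro x hx
      simp only
      by_cases hx1 : x ∈ V1
      · rw [if_pos hx1]
        exact h3 x hx1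
      · rw [if_neg hx1]
    | succ e =>
      have h3 : DegLT V1 e f := hf e (by push_cast at he ⊢; omega)
      refine (h3.ext lam2 hW).congr ?_
      intro x hx
      by_cases hx1 : x ∈ V1
      · rw [if_pos hx1, ((hW x).1 hx1).2]
        ring
      · rw [if_neg hx1]
        have h4 : lam2 x ≠ 0 := fun h5 => hx1 ((hW x).2 ⟨hx, h5⟩)
        rw [Sad_zmod h4]
        ring

/-- the saddle map from the state `e` to the state `!e` of one letter
PROOF. Apply `D.saddle` with `lam1, lam2` equal to `lamI k p q`, `lamE k p` (in the order given by `e`): `h1, h2` from `valid_switchI/E` (the condition `Sym (x 0)` is common), the alternative from `isotropy`: if some `x` has `lamI x ≠ 0` then `lamE` vanishes on the other space. Finally for `x` in `K (...) (v1 ++ (!e) :: v2)`: `x ∈ K (...) (v1 ++ e :: v2)` iff `Rel l.p l.q e (x k) (x (k+1))` (`k = w1.length`), again by induction on `w1` or by a lemma `Valid (w1 ++ l :: w2) (v1 ++ e :: v2) x ↔ (relations along w1) ∧ Rel .. ∧ Valid w2 v2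 (tlN (k+1) x)`. -/
theorem D.sad (hN : Even N) {w1 w2 : Word N} {v1 v2 : List Bool} (h1 : v1.length = w1.length)
    (h2 : v2.length = w2.length) (l : Letter N) (e : Bool) {B : ℤ} {f : Col N → ZMod 2}
    (hf : D (K (w1 ++ l :: w2) (v1 ++ e :: v2))
      (dimK (w1 ++ l :: w2) (v1 ++ e :: v2) + B) f) :
    D (K (w1 ++ l :: w2) (v1 ++ (!e) :: v2))
      (dimK (w1 ++ l :: w2) (v1 ++ (!e) :: v2) + B + 1)
      (fun x => open Classical in
        if Rel l.p l.q e (x w1.length) (x (w1.length + 1)) then f x else 0) := by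
  classical
  have hI : ∀ x ∈ K (w1 ++ l :: w2) (v1 ++ false :: v2),
      x ∈ K (w1 ++ l :: w2) (v1 ++ true :: v2) ↔ lamI w1.length l.p l.q x = 0 := by
    intro x hx
    rw [← valid_switchI h1 l hx.2]
    exact ⟨fun h => h.2, fun h => ⟨hx.1, h⟩⟩
  have hE : ∀ x ∈ K (w1 ++ l :: w2) (v1 ++ true :: v2),
      x ∈ K (w1 ++ l :: w2) (v1 ++ false :: v2) ↔ lamE w1.length l.p x = 0 := by
    intro x hx
    rw [← valid_switchE h1 l hx.2]
    exact ⟨fun h => h.2, fun h => ⟨hx.1, h⟩⟩
  have halt : (∀ x ∈ K (w1 ++ l :: w2) (v1 ++ false :: v2), lamI w1.length l.p l.q x = 0) ∨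
      (∀ x ∈ K (w1 ++ l :: w2) (v1 ++ true :: v2), lamE w1.length l.p x = 0) := by
    by_cases h3 : ∀ x ∈ K (w1 ++ l :: w2) (v1 ++ false :: v2), lamI w1.length l.p l.q x = 0
    · exact Or.inl h3
    · right
      intro x' hx'
      by_contra h4
      apply h3
      intro x hx
      exact (mul_eq_zero.1 (isotropy hN h1 h2 l hx hx')).resolve_right h4
  have hmem : ∀ x ∈ K (w1 ++ l :: w2) (v1 ++ (!e) :: v2),
      (x ∈ K (w1 ++ l :: w2) (v1 ++ e :: v2) ↔
        Rel l.p l.q e (x w1.length) (x (w1.length + 1))) := by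
    intro x hx
    rw [← Sad_switch h1 l (!e) e hx.2]
    exact ⟨fun h => h.2, fun h => ⟨hx.1, h⟩⟩
  have key : D (K (w1 ++ l :: w2) (v1 ++ (!e) :: v2))
      (dimK (w1 ++ l :: w2) (v1 ++ (!e) :: v2) + B + 1)
      (fun x => open Classical in
        if x ∈ K (w1 ++ l :: w2) (v1 ++ e :: v2) then f x else 0) := by
    cases e with
    | false => exact D.saddle _ _ hI hE halt hf
    | true => exact D.saddle _ _ hE hI halt.symm hf
  refine key.congr ?_
  intro x hx
  by_cases h3 : x ∈ K (w1 ++ l :: w2) (v1 ++ e :: v2)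
  · rw [if_pos h3, if_pos ((hmem x hx).1 h3)]
  · rw [if_neg h3, if_neg (fun h4 => h3 ((hmem x hx).2 h4))]

end Pool.Agent.HK
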