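import Pool.Agent.H.MP_cd3d06_an.K.Fib

/-!
Part A: the saddle map.  The two resolutions of one letter.
-/

namespace Pool.Agent.HK

variable {N : ℕ}

/-- the two linear functionals: `lamI` measures whether a colouring that is valid for the state `I`
at the letter number `k` is valid for `E`, and `lamE` conversely -/
def lamI (k : ℕ) (p q : Fin N) : Col N →ₗ[ZMod 2] ZMod 2 where
  toFun x := x k p + x k q
  map_add' x y := by simp only [Pi.add_apply]; ring
  map_smul' c x := by simp only [Pi.smul_apply, smul_eq_mul, RingHom.id_apply]; ring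

def lamE (k : ℕ) (p : Fin N) : Col N →ₗ[ZMod 2] ZMod 2 where
  toFun x := x k p + x (k + 1) p
  map_add' x y := by simp only [Pi.add_apply]; ring
  map_smul' c x := by simp only [Pi.smul_apply, smul_eq_mul, RingHom.id_apply]; ring

/-- the other state is valid as soon as the functional vanishes
PROOF. Induction on `w1` (generalizing `v1 x`); for `w1 = []` the state `false` says `x 0 = x 1`, and `Rel p q true (x 0) (x 1)` is then equivalent to `x 0 p = x 0 q`, i.e. `x 0 p + x 0 q = 0` in `ZMod 2` (`CharTwo.add_eq_zero`). The step uses `lamI (k+1) p q x = lamI k p q (tl x)` (rfl). -/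
theorem valid_switchI {w1 w2 : Word N} {v1 v2 : List Bool} (h : v1.length = w1.length)
    (l : Letter N) {x : Col N} (hx : Valid (w1 ++ l :: w2) (v1 ++ false :: v2) x) :
    Valid (w1 ++ l :: w2) (v1 ++ true :: v2) x ↔ lamI w1.length l.p l.q x = 0 := by
  induction w1 generalizing v1 x with
  | nil =>
    obtain rfl : v1 = [] := List.length_eq_zero_iff.1 h
    obtain ⟨h1, h2⟩ := hx
    have h1' : x 0 = x 1 := h1
    constructor
    · rintro ⟨h3, _⟩
      change x 0 l.p + x 0 l.q = 0
      rw [h3.1]
      exact CharTwo.add_self_eq_zero _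
    · intro h3
      have h4 : x 0 l.p = x 0 l.q := CharTwo.add_eq_zero.1 h3
      exact ⟨⟨h4, by rw [← h1']; exact h4, fun j _ _ => by rw [h1']⟩, h2⟩
  | cons a w1 ih =>
    cases v1 with
    | nil => simp at h
    | cons e v1 =>
      have h5 := ih (by simpa using h) hx.2
      exact ⟨fun h6 => h5.1 h6.2, fun h6 => ⟨hx.1, h5.2 h6⟩⟩

/-- PROOF. Induction on `w1`; for `w1 = []` the state `true` says `x 0 p = x 0 q`, `x 1 p = x 1 q` and equality at the other positions; so `x 0 = x 1` iff `x 0 p = x 1 p`. -/
theorem valid_switchE {w1 w2 : Word N} {v1 v2 : List Bool} (h : v1.length = w1.length)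
    (l : Letter N) {x : Col N} (hx : Valid (w1 ++ l :: w2) (v1 ++ true :: v2) x) :
    Valid (w1 ++ l :: w2) (v1 ++ false :: v2) x ↔ lamE w1.length l.p x = 0 := by
  induction w1 generalizing v1 x with
  | nil =>
    obtain rfl : v1 = [] := List.length_eq_zero_iff.1 h
    obtain ⟨h1, h2⟩ := hx
    constructor
    · rintro ⟨h3, _⟩
      have h3' : x 0 = x 1 := h3
      change x 0 l.p + x 1 l.p = 0
      rw [h3']
      exact CharTwo.add_self_eq_zero _
    · intro h3
      have h4 : x 0 l.p = x 1 l.p := CharTwo.add_eq_zero.1 h3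
      refine ⟨?_, h2⟩
      change x 0 = x 1
      funext j
      by_cases hp : j = l.p
      · rw [hp]; exact h4
      · by_cases hq : j = l.q
        · rw [hq, ← h1.1, ← h1.2.1]; exact h4
        · exact h1.2.2 j hp hq
  | cons a w1 ih =>
    cases v1 with
    | nil => simp at h
    | cons e v1 =>
      have h5 := ih (by simpa using h) hx.2
      exact ⟨fun h6 => h5.1 h6.2, fun h6 => ⟨hx.1, h5.2 h6⟩⟩

/-- the bilinear form of rows -/
private def SadA_B (a b : Row N) : ZMod 2 := ∑ j, a j * b j

private theorem SadA_rel {p q : Fin N} (hpq : p ≠ q) {e : Bool} {a b a' b' : Row N}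
    (h : Rel p q e a b) (h' : Rel p q e a' b') : SadA_B a a' = SadA_B b b' := by
  cases e with
  | false =>
    have h1 : a = b := h
    have h2 : a' = b' := h'
    rw [h1, h2]
  | true =>
    obtain ⟨h1, h2, h3⟩ := h
    obtain ⟨h1', h2', h3'⟩ := h'
    rw [← CharTwo.add_eq_zero]
    unfold SadA_B
    rw [← Finset.sum_add_distrib]
    rw [Fintype.sum_eq_add p q hpq]
    · rw [h1, h2, h1', h2']
      exact CharTwo.add_self_eq_zero _
    · rintro j ⟨hj, hj'⟩
      rw [h3 j hj hj', h3' j hj hj']
      exact CharTwo.add_self_eq_zero _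

private theorem SadA_sym (hN : Even N) {a b : Row N} (ha : Sym a) (hb : Sym b) :
    SadA_B a b = 0 := by
  refine Finset.sum_involution (fun j _ => j.rev) ?_ ?_ ?_ ?_
  · intro j _
    rw [ha j, hb j]
    exact CharTwo.add_self_eq_zero _
  · intro j _ _ h
    have h1 := congrArg Fin.val h
    rw [Fin.val_rev] at h1
    obtain ⟨k, hk⟩ := hN
    have h2 := j.2
    omega
  · intro j _
    exact Finset.mem_univ _
  · intro j _
    exact Fin.rev_rev j

private theorem SadA_top (hN : Even N) {w : Word N} {v : List Bool} (h : v.length = w.length)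
    {y y' : Col N} (hy : Valid w v y) (hy' : Valid w v y') : SadA_B (y 0) (y' 0) = 0 := by
  induction w generalizing v y y' with
  | nil => exact SadA_sym hN hy.1 hy'.1
  | cons l w ih =>
    cases v with
    | nil => simp at h
    | cons e v =>
      rw [SadA_rel l.ne hy.1 hy'.1]
      exact ih (by simpa using h) hy.2 hy'.2

private theorem SadA_bot {w1 w : Word N} {v1 v v' : List Bool} (h : v1.length = w1.length)
    {y y' : Col N} (hy : Valid (w1 ++ w) (v1 ++ v) y) (hy' : Valid (w1 ++ w) (v1 ++ v') y') :
    SadA_B (y 0) (y' 0) = SadA_B (y w1.length) (y' w1.length) := by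
  induction w1 generalizing v1 y y' with
  | nil => rfl
  | cons l w1 ih =>
    cases v1 with
    | nil => simp at h
    | cons e v1 =>
      rw [SadA_rel l.ne hy.1 hy'.1]
      exact ih (by simpa using h) hy.2 hy'.2

private theorem SadA_tail {w1 w : Word N} {v1 v : List Bool} (h : v1.length = w1.length)
    {y : Col N} (hy : Valid (w1 ++ w) (v1 ++ v) y) : Valid w v (tlN w1.length y) := by
  induction w1 generalizing v1 y with
  | nil =>
    obtain rfl : v1 = [] := List.length_eq_zero_iff.1 h
    exact hy
  | cons l w1 ih =>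
    cases v1 with
    | nil => simp at h
    | cons e v1 => exact ih (by simpa using h) hy.2

/-- isotropy: the form `∑ j, x t j * x' t j` does not change along a letter in the same state and
vanishes on symmetric rows (`N` even), so the two functionals cannot both be nonzero
PROOF. For rows put `B a a' = ∑ j, a j * a' j`. (1) If `Rel p q e a b` and `Rel p q e a' b'` (same state `e`, `p ≠ q`), then `B a a' = B b b'`: for `e = false` clear, for `e = true` the terms at `p` and `q` are equal, so they cancel (char 2) in `B a a'` and in `B b b'`, the other terms agree. (2) `B a a' = 0` for symmetric rows: the terms `j` and `j.rev` are equal and `j ≠ j.rev` as `N` is even (`Finset.sum_involution` with `Fin.rev`). Let `k = w1.length`. By induction along `w1`: `B (x k) (x' k) = B (x 0) (x' 0) = 0`; by induction along `w2` (from the top, where the row is symmetric) `B (x (k+1)) (x' (k+1)) = 0`. At the letter: `x k = x (k+1)`, `x' k` and `x' (k+1)` agree outside of `p, q`, `x' k p = x' k q`, `x' (k+1) p = x' (k+1) q`. Adding the two sums: `0 = (x k p +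 x k q) * x' k p + (x k p + x k q) * x' (k+1) p = lamI x * lamE x'`. Suggested lemma form: for `Valid w v y`, `Valid w v y'` with `v.length = w.length` one has `B (y 0) (y' 0) = 0` (induction on `w`; uses only the top), and for `Valid (w1 ++ w) (v1 ++ v) y`, `y'` one has `B (y 0) (y' 0) = B (y k) (y' k)` (induction on `w1`). -/
theorem isotropy (hN : Even N) {w1 w2 : Word N} {v1 v2 : List Bool} (h1 : v1.length = w1.length)
    (h2 : v2.length = w2.length) (l : Letter N) {x x' : Col N}
    (hx : x ∈ K (w1 ++ l :: w2) (v1 ++ false :: v2))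
    (hx' : x' ∈ K (w1 ++ l :: w2) (v1 ++ true :: v2)) :
    lamI w1.length l.p l.q x * lamE w1.length l.p x' = 0 := by
  have ht := SadA_tail h1 hx.2
  have ht' := SadA_tail h1 hx'.2
  have hb : SadA_B (x w1.length) (x' w1.length) = 0 := by
    rw [← SadA_bot h1 hx.2 hx'.2]
    exact SadA_sym hN hx.1 hx'.1
  have hc : SadA_B (x (w1.length + 1)) (x' (w1.length + 1)) = 0 := by
    have h3 := SadA_top hN h2 ht.2 ht'.2
    have e1 : tl (tlN w1.length x) 0 = x (w1.length + 1) := by
      simp only [tl, tlN]
      congr 1
      omega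
    have e2 : tl (tlN w1.length x') 0 = x' (w1.length + 1) := by
      simp only [tl, tlN]
      congr 1
      omega
    rwa [e1, e2] at h3
  have f1 : (tlN w1.length x) 0 = x w1.length := by
    simp only [tlN]
    congr 1
    omega
  have f2 : (tlN w1.length x) 1 = x (w1.length + 1) := by
    simp only [tlN]
    congr 1
    omega
  have f1' : (tlN w1.length x') 0 = x' w1.length := by
    simp only [tlN]
    congr 1
    omega
  have f2' : (tlN w1.length x') 1 = x' (w1.length + 1) := by
    simp only [tlN]
    congr 1
    omega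
  have hr : x w1.length = x (w1.length + 1) := by
    rw [← f1, ← f2]
    exact ht.1
  obtain ⟨g1, g2, g3⟩ := ht'.1
  rw [f1'] at g1
  rw [f2'] at g2
  simp only [f1', f2'] at g3
  change (x w1.length l.p + x w1.length l.q) * (x' w1.length l.p + x' (w1.length + 1) l.p) = 0
  rw [← hr] at hc
  have hs : SadA_B (x w1.length) (x' w1.length) + SadA_B (x w1.length) (x' (w1.length + 1)) = 0 := by
    rw [hb, hc, add_zero]
  unfold SadA_B at hs
  rw [← Finset.sum_add_distrib, Fintype.sum_eq_add l.p l.q l.ne] at hs
  · rw [← g1, ← g2] at hs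
    rw [← hs]
    ring
  · rintro j ⟨hj, hj'⟩
    rw [g3 j hj hj']
    exact CharTwo.add_self_eq_zero _

end Pool.Agent.HK
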